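import Pool.Agent.H4.Atiyah.TDefs

/-!
# M30 : continuous extension of representations to the completed group ring
-/

set_option autoImplicit false

open Filter Topology

namespace Pool.Agent.H4.Atiyah

namespace ContRepAux

/-- `ℤ_p / p^j` -/
abbrev Zq (p j : ℕ) [Fact p.Prime] : Type := ℤ_[p] ⧸ Ideal.span {(p : ℤ_[p]) ^ j}

/-- entrywise reduction modulo `p^j` -/
noncomputable def rd (p j : ℕ) [Fact p.Prime] (ι : Type) [Fintype ι] [DecidableEq ι] :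
    Matrix ι ι ℤ_[p] →+* Matrix ι ι (Zq p j) :=
  (Ideal.Quotient.mk (Ideal.span {(p : ℤ_[p]) ^ j})).mapMatrix

variable {p : ℕ} [Fact p.Prime] {ι : Type} [Fintype ι] [DecidableEq ι]

theorem rd_apply (j : ℕ) (M : Matrix ι ι ℤ_[p]) (x y : ι) :
    rd p j ι M x y = Ideal.Quotient.mk (Ideal.span {(p : ℤ_[p]) ^ j}) (M x y) := rfl

theorem rd_eq_zero {j : ℕ} {M : Matrix ι ι ℤ_[p]} :
    rd p j ι M = 0 ↔ ∀ x y, (p : ℤ_[p]) ^ j ∣ M x y := by
  constructor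
  · intro h x y
    have h1 := congrFun (congrFun h x) y
    rw [rd_apply, Matrix.zero_apply, Ideal.Quotient.eq_zero_iff_mem,
      Ideal.mem_span_singleton] at h1
    exact h1
  · intro h
    ext x y
    rw [rd_apply, Matrix.zero_apply, Ideal.Quotient.eq_zero_iff_mem,
      Ideal.mem_span_singleton]
    exact h x y

theorem rd_eq {j : ℕ} {M N : Matrix ι ι ℤ_[p]} :
    rd p j ι M = rd p j ι N ↔ ∀ x y, (p : ℤ_[p]) ^ j ∣ (M - N) x y := by
  rw [← rd_eq_zero, map_sub, sub_eq_zero]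

theorem rd_smul (j : ℕ) (c : ℤ_[p]) (M : Matrix ι ι ℤ_[p]) :
    rd p j ι (c • M) = c • rd p j ι M := by
  ext x y
  rw [rd_apply, Matrix.smul_apply, Matrix.smul_apply, rd_apply, smul_eq_mul, map_mul,
    Algebra.smul_def]
  rfl

theorem padic_sep {z : ℤ_[p]} (h : ∀ j : ℕ, (p : ℤ_[p]) ^ j ∣ z) : z = 0 := by
  by_contra hz
  have h1 := h (z.valuation + 1)
  rw [← Ideal.mem_span_singleton, PadicInt.mem_span_pow_iff_le_valuation z hz] at h1
  omega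

theorem rd_sep {M : Matrix ι ι ℤ_[p]} (h : ∀ j, rd p j ι M = 0) : M = 0 := by
  ext x y
  exact padic_sep fun j => rd_eq_zero.1 (h j) x y

/-- completeness -/
theorem padic_complete (u : ℕ → ℤ_[p]) (hu : ∀ j, (p : ℤ_[p]) ^ j ∣ u (j + 1) - u j) :
    ∃ L : ℤ_[p], ∀ j, (p : ℤ_[p]) ^ j ∣ L - u j := by
  have h1 : ∀ m k : ℕ, (p : ℤ_[p]) ^ m ∣ u (m + k) - u m := by
    intro m k
    induction k with
    | zero => simp
    | succ k ih =>
      have h2 : u (m + (k + 1)) - u m = (u (m + k + 1) - u (m + k)) + (u (m + k) - u m) := by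
        rw [← add_assoc]
        ring
      rw [h2]
      exact dvd_add ((pow_dvd_pow _ (Nat.le_add_right m k)).trans (hu (m + k))) ih
  have hc : IsPrecomplete (IsLocalRing.maximalIdeal ℤ_[p]) ℤ_[p] := inferInstance
  obtain ⟨L, hL⟩ := hc.prec' u (by
    intro m n hmn
    simp only [← Ideal.one_eq_top, smul_eq_mul, mul_one, SModEq.sub_mem,
      PadicInt.maximalIdeal_eq_span_p, Ideal.span_singleton_pow, Ideal.mem_span_singleton]
    obtain ⟨k, rfl⟩ := Nat.exists_eq_add_of_le hmn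
    rw [dvd_sub_comm]
    exact h1 m k)
  refine ⟨L, fun j => ?_⟩
  have h3 := hL j
  simp only [← Ideal.one_eq_top, smul_eq_mul, mul_one, SModEq.sub_mem,
    PadicInt.maximalIdeal_eq_span_p, Ideal.span_singleton_pow, Ideal.mem_span_singleton] at h3
  rw [dvd_sub_comm]
  exact h3

theorem mat_complete (u : ℕ → Matrix ι ι ℤ_[p])
    (hu : ∀ j, rd p j ι (u (j + 1)) = rd p j ι (u j)) :
    ∃ L : Matrix ι ι ℤ_[p], ∀ j, rd p j ι L = rd p j ι (u j) := by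
  have h1 : ∀ x y, ∃ L : ℤ_[p], ∀ j, (p : ℤ_[p]) ^ j ∣ L - u j x y := by
    intro x y
    exact padic_complete (fun j => u j x y) fun j => rd_eq.1 (hu j) x y
  choose L hL using h1
  exact ⟨Matrix.of L, fun j => rd_eq.2 fun x y => hL x y j⟩

variable (𝒮 : Sys) (τ : 𝒮.G →* Matrix ι ι ℤ_[p])
    (hτ : ∀ j g, 𝒮.π j g = 1 → ∀ a b, (p : ℤ_[p]) ^ j ∣ (τ g - 1) a b)

include hτ in
theorem rd_τ {j : ℕ} {g h : 𝒮.G} (hgh : 𝒮.π j g = 𝒮.π j h) :
    rd p j ι (τ g) = rd p j ι (τ h) := by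
  have h1 : 𝒮.π j (h⁻¹ * g) = 1 := by
    rw [map_mul, map_inv, hgh, inv_mul_cancel]
  have h2 : rd p j ι (τ (h⁻¹ * g)) = 1 := by
    rw [← map_one (rd p j ι), rd_eq]
    exact hτ j _ h1
  have h3 : τ g = τ h * τ (h⁻¹ * g) := by
    rw [← map_mul, mul_inv_cancel_left]
  rw [h3, map_mul, h2, mul_one]

/-- the induced representation of the finite quotient -/
noncomputable def phi (j : ℕ) : 𝒮.Q j →* Matrix ι ι (Zq p j) where
  toFun q := rd p j ι (τ (Function.surjInv (𝒮.π_surj j) q))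
  map_one' := by
    rw [← map_one (rd p j ι), ← map_one τ]
    apply rd_τ 𝒮 τ hτ
    rw [Function.surjInv_eq (𝒮.π_surj j), map_one]
  map_mul' a b := by
    rw [← map_mul, ← map_mul]
    apply rd_τ 𝒮 τ hτ
    rw [Function.surjInv_eq (𝒮.π_surj j), map_mul, Function.surjInv_eq (𝒮.π_surj j),
      Function.surjInv_eq (𝒮.π_surj j)]

theorem phi_π (j : ℕ) (g : 𝒮.G) : phi 𝒮 τ hτ j (𝒮.π j g) = rd p j ι (τ g) := by
  apply rd_τ 𝒮 τ hτ
  rw [Function.surjInv_eq (𝒮.π_surj j)]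

theorem rd_sum {Q : Type} [Group Q] [Fintype Q] {j : ℕ} (F : Q →* Matrix ι ι (Zq p j))
    (s : Q → 𝒮.G) (hs : ∀ q, rd p j ι (τ (s q)) = F q) (x : MonoidAlgebra ℤ_[p] Q) :
    rd p j ι (∑ q, x.coeff q • τ (s q)) =
      MonoidAlgebra.lift ℤ_[p] (Matrix ι ι (Zq p j)) Q F x := by
  rw [MonoidAlgebra.lift_apply, Finsupp.sum_fintype _ _ (by simp), map_sum]
  refine Finset.sum_congr rfl fun q _ => ?_
  rw [rd_smul, hs]

theorem lift_mapDomain' {Q Q' : Type} [Group Q] [Group Q'] {j : ℕ}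
    (F : Q →* Matrix ι ι (Zq p j)) (f : Q' →* Q) (x : MonoidAlgebra ℤ_[p] Q') :
    MonoidAlgebra.lift ℤ_[p] (Matrix ι ι (Zq p j)) Q' (F.comp f) x =
      MonoidAlgebra.lift ℤ_[p] (Matrix ι ι (Zq p j)) Q F
        (MonoidAlgebra.mapDomainRingHom ℤ_[p] f x) := by
  induction x using MonoidAlgebra.induction_on with
  | of g => simp
  | add a b ha hb => rw [map_add, map_add, map_add, ha, hb]
  | smul r a ha =>
    have h1 : MonoidAlgebra.mapDomainRingHom ℤ_[p] f (r • a) =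
      r • MonoidAlgebra.mapDomainRingHom ℤ_[p] f a :=
        map_smul (MonoidAlgebra.mapDomainAlgHom ℤ_[p] ℤ_[p] f) r a
    rw [h1, map_smul, map_smul, ha]

end ContRepAux

open ContRepAux

theorem exists_contRep (p : ℕ) [Fact p.Prime] (𝒮 : Sys) {ι : Type} [Fintype ι] [DecidableEq ι]
    (τ : 𝒮.G →* Matrix ι ι ℤ_[p])
    (hτ : ∀ j g, 𝒮.π j g = 1 → ∀ a b, (p : ℤ_[p]) ^ j ∣ (τ g - 1) a b) :
    ∃ R : Lam ℤ_[p] 𝒮 →+* Matrix ι ι ℤ_[p], ∀ (j : ℕ) (a : Lam ℤ_[p] 𝒮) (s : 𝒮.Q j → 𝒮.G),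
      (∀ q, 𝒮.π j (s q) = q) →
        ∀ x y, (p : ℤ_[p]) ^ j ∣ (R a - ∑ q, (a.1 j).coeff q • τ (s q)) x y := by
  classical
  -- the reduced maps
  let T : ∀ j, MonoidAlgebra ℤ_[p] (𝒮.Q j) →ₐ[ℤ_[p]] Matrix ι ι (Zq p j) := fun j =>
    MonoidAlgebra.lift ℤ_[p] (Matrix ι ι (Zq p j)) (𝒮.Q j) (phi 𝒮 τ hτ j)
  have hsec : ∀ (j : ℕ) (x : MonoidAlgebra ℤ_[p] (𝒮.Q j)) (s : 𝒮.Q j → 𝒮.G),
      (∀ q, 𝒮.π j (s q) = q) → rd p j ι (∑ q, x.coeff q • τ (s q)) = T j x := by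
    intro j x s hs
    refine rd_sum 𝒮 τ (phi 𝒮 τ hτ j) s (fun q => ?_) x
    rw [← phi_π 𝒮 τ hτ, hs]
  have hex : ∀ a : Lam ℤ_[p] 𝒮, ∃ L : Matrix ι ι ℤ_[p], ∀ j, rd p j ι L = T j (a.1 j) := by
    intro a
    obtain ⟨L, hL⟩ := mat_complete (p := p) (ι := ι)
      (fun j => ∑ q, (a.1 j).coeff q • τ (Function.surjInv (𝒮.π_surj j) q)) (by
        intro j
        rw [hsec j (a.1 j) _ (fun q => Function.surjInv_eq _ q)]
        rw [rd_sum 𝒮 τ ((phi 𝒮 τ hτ j).comp (𝒮.tr j)) _ (fun q => ?_) (a.1 (j + 1)),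
          lift_mapDomain', a.2 j]
        rw [MonoidHom.comp_apply, ← phi_π 𝒮 τ hτ, ← 𝒮.tr_π,
          Function.surjInv_eq (𝒮.π_surj (j + 1))])
    refine ⟨L, fun j => ?_⟩
    rw [hL j]
    exact hsec j (a.1 j) _ (fun q => Function.surjInv_eq _ q)
  choose R hR using hex
  have huniq : ∀ (a : Lam ℤ_[p] 𝒮) (M : Matrix ι ι ℤ_[p]), (∀ j, rd p j ι M = T j (a.1 j)) →
      R a = M := by
    intro a M hM
    rw [← sub_eq_zero]
    apply rd_sep (p := p)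
    intro j
    rw [map_sub, hR, hM, sub_self]
  refine ⟨{ toFun := R, map_one' := ?_, map_mul' := ?_, map_zero' := ?_, map_add' := ?_ }, ?_⟩
  · refine huniq _ _ fun j => ?_
    rw [map_one]
    exact (map_one (T j)).symm
  · intro a b
    refine huniq _ _ fun j => ?_
    rw [map_mul, hR, hR]
    exact (map_mul (T j) _ _).symm
  · refine huniq _ _ fun j => ?_
    rw [map_zero]
    exact (map_zero (T j)).symm
  · intro a b
    refine huniq _ _ fun j => ?_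
    rw [map_add, hR, hR]
    exact (map_add (T j) _ _).symm
  · intro j a s hs x y
    refine rd_eq.1 ?_ x y
    rw [hsec j (a.1 j) s hs]
    exact hR a j

end Pool.Agent.H4.Atiyah
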