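import Pool.Agent.H4.Atiyah.MuT
import Pool.Agent.H4.Atiyah.ContRep

/-!
# M33b : the action on `Hom(Z, V)` and the trace formula

Uses as a black box: `exists_contRep` (M30, ContRep).
-/

set_option autoImplicit false

open Filter Topology CategoryTheory
open scoped Matrix

namespace Pool.Agent.H4.Atiyah

namespace Act

section Aux

variable (p : ℕ) [Fact p.Prime] (ℱ : Filt)

theorem eq_zero_of_dvd {c : ℤ_[p]} (h : ∀ j : ℕ, (p : ℤ_[p]) ^ j ∣ c) : c = 0 := by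
  refine PadicInt.ext_of_toZModPow.mp fun n => ?_
  rw [map_zero]
  have := h n
  rw [← Ideal.mem_span_singleton, ← PadicInt.ker_toZModPow, RingHom.mem_ker] at this
  exact this

/-- All entries are divisible by `p ^ j`. -/
def DvdM (j : ℕ) {ι : Type} (A : Matrix ι ι ℤ_[p]) : Prop := ∀ x y, (p : ℤ_[p]) ^ j ∣ A x y

variable {p} in
theorem DvdM.mul_left {j : ℕ} {ι : Type} [Fintype ι] {A : Matrix ι ι ℤ_[p]} (h : DvdM p j A)
    (B : Matrix ι ι ℤ_[p]) : DvdM p j (B * A) := fun x y => by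
  rw [Matrix.mul_apply]
  exact Finset.dvd_sum fun k _ => (h k y).mul_left _

variable {p} in
theorem DvdM.mul_right {j : ℕ} {ι : Type} [Fintype ι] {A : Matrix ι ι ℤ_[p]} (h : DvdM p j A)
    (B : Matrix ι ι ℤ_[p]) : DvdM p j (A * B) := fun x y => by
  rw [Matrix.mul_apply]
  exact Finset.dvd_sum fun k _ => (h x k).mul_right _

variable {p} in
theorem DvdM.sub_trans {j : ℕ} {ι : Type} {A B C : Matrix ι ι ℤ_[p]} (h : DvdM p j (A - B))
    (h' : DvdM p j (B - C)) : DvdM p j (A - C) := fun x y => by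
  have := dvd_add (h x y) (h' x y)
  rwa [Matrix.sub_apply, Matrix.sub_apply, sub_add_sub_cancel, ← Matrix.sub_apply] at this

variable {p} in
theorem DvdM.symm {j : ℕ} {ι : Type} {A B : Matrix ι ι ℤ_[p]} (h : DvdM p j (A - B)) :
    DvdM p j (B - A) := fun x y => by
  have := (h x y).neg_right
  rwa [Matrix.sub_apply, neg_sub, ← Matrix.sub_apply] at this

theorem mat_eq_of_dvd {ι : Type} {A B : Matrix ι ι ℤ_[p]} (h : ∀ j : ℕ, DvdM p j (A - B)) :
    A = B := by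
  ext x y
  have := eq_zero_of_dvd p fun j => h j x y
  rwa [Matrix.sub_apply, sub_eq_zero] at this

theorem sum_mapDomain {R Q Q' M : Type} [CommRing R] [Monoid Q] [Monoid Q'] [Fintype Q]
    [Fintype Q'] [AddCommGroup M] [Module R M] (c : Q →* Q') (x : MonoidAlgebra R Q)
    (F : Q' → M) : ∑ q, (MonoidAlgebra.mapDomainRingHom R c x).coeff q • F q =
      ∑ q, x.coeff q • F (c q) := by
  classical
  induction x using MonoidAlgebra.induction_linear with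
  | zero => simp
  | add x y hx hy =>
    simp only [map_add, MonoidAlgebra.coeff_add, Finsupp.add_apply, add_smul,
      Finset.sum_add_distrib, hx, hy]
  | single a r =>
    have h : MonoidAlgebra.mapDomainRingHom R c (MonoidAlgebra.single a r) =
        MonoidAlgebra.single (c a) r := by simp
    rw [h, Finset.sum_eq_single (c a), Finset.sum_eq_single a]
    · simp
    · intro b _ hb
      simp [MonoidAlgebra.coeff_single, Ne.symm hb]
    · simp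
    · intro b _ hb
      simp [MonoidAlgebra.coeff_single, Ne.symm hb]
    · simp

/-- conjugation `u ↦ g⁻¹ u g` on `U` -/
noncomputable def cu (g : ℱ.G) : ↥(ℱ.N 0) →* ↥(ℱ.N 0) :=
  ((MulAut.conjNormal g⁻¹ : MulAut ↥(ℱ.N 0)) : ↥(ℱ.N 0) ≃* ↥(ℱ.N 0)).toMonoidHom

theorem cu_coe (g : ℱ.G) (u : ↥(ℱ.N 0)) : ((cu ℱ g u : ↥(ℱ.N 0)) : ℱ.G) = g⁻¹ * u * g := by
  have := MulAut.conjNormal_apply (H := ℱ.N 0) g⁻¹ u
  rw [inv_inv] at this
  exact this

/-- conjugation `u ↦ g⁻¹ u g` on `U / N_j` -/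
noncomputable def cj (g : ℱ.G) (j : ℕ) : UQ ℱ j →* UQ ℱ j :=
  QuotientGroup.map ((ℱ.N j).subgroupOf (ℱ.N 0)) ((ℱ.N j).subgroupOf (ℱ.N 0)) (cu ℱ g) (by
    intro u hu
    rw [Subgroup.mem_comap, Subgroup.mem_subgroupOf, cu_coe]
    rw [Subgroup.mem_subgroupOf] at hu
    have := (ℱ.normal j).conj_mem _ hu g⁻¹
    rwa [inv_inv] at this)

theorem cj_mk (g : ℱ.G) (j : ℕ) (u : ↥(ℱ.N 0)) :
    cj ℱ g j (UQ.mk ℱ j u) = UQ.mk ℱ j (cu ℱ g u) := rfl

theorem cj_cj_inv (g : ℱ.G) (j : ℕ) (q : UQ ℱ j) : cj ℱ g j (cj ℱ g⁻¹ j q) = q := by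
  obtain ⟨u, rfl⟩ := UQ.mk_surjective ℱ j q
  rw [cj_mk, cj_mk]
  congr 1
  apply Subtype.ext
  rw [cu_coe, cu_coe]
  group

theorem cj_inv_cj (g : ℱ.G) (j : ℕ) (q : UQ ℱ j) : cj ℱ g⁻¹ j (cj ℱ g j q) = q := by
  obtain ⟨u, rfl⟩ := UQ.mk_surjective ℱ j q
  rw [cj_mk, cj_mk]
  congr 1
  apply Subtype.ext
  rw [cu_coe, cu_coe]
  group

theorem incl_cj (g : ℱ.G) (j : ℕ) (q : UQ ℱ j) :
    UQ.incl ℱ j (cj ℱ g j q) = SQ.mk ℱ j g⁻¹ * UQ.incl ℱ j q * SQ.mk ℱ j g := by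
  obtain ⟨u, rfl⟩ := UQ.mk_surjective ℱ j q
  rw [cj_mk, UQ.incl_mk, UQ.incl_mk, cu_coe, map_mul, map_mul]

/-- conjugation on `ℤ_p[[U]]` -/
noncomputable def cjL (g : ℱ.G) (a : LamU p ℱ) : LamU p ℱ :=
  (⟨fun j => MonoidAlgebra.mapDomainRingHom ℤ_[p] (cj ℱ g j) (LamU.lv p ℱ j a), by
    intro j
    have ha : MonoidAlgebra.mapDomainRingHom ℤ_[p] (ℱ.sysU.tr j) (LamU.lv p ℱ (j + 1) a) =
      LamU.lv p ℱ j a := a.2 j
    change MonoidAlgebra.mapDomainRingHom ℤ_[p] (ℱ.sysU.tr j)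
      (MonoidAlgebra.mapDomainRingHom ℤ_[p] (cj ℱ g (j + 1)) (LamU.lv p ℱ (j + 1) a)) =
      MonoidAlgebra.mapDomainRingHom ℤ_[p] (cj ℱ g j) (LamU.lv p ℱ j a)
    have h1 : (ℱ.sysU.tr j).comp (cj ℱ g (j + 1)) = (cj ℱ g j).comp (ℱ.sysU.tr j) := by
      refine MonoidHom.ext fun u => ?_
      obtain ⟨v, rfl⟩ := UQ.mk_surjective ℱ (j + 1) u
      rfl
    rw [← ha]
    change ((MonoidAlgebra.mapDomainRingHom ℤ_[p] (ℱ.sysU.tr j)).comp
      (MonoidAlgebra.mapDomainRingHom ℤ_[p] (cj ℱ g (j + 1)))) (LamU.lv p ℱ (j + 1) a) =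
      ((MonoidAlgebra.mapDomainRingHom ℤ_[p] (cj ℱ g j)).comp
      (MonoidAlgebra.mapDomainRingHom ℤ_[p] (ℱ.sysU.tr j))) (LamU.lv p ℱ (j + 1) a)
    rw [← MonoidAlgebra.mapDomainRingHom_comp]
    erw [← MonoidAlgebra.mapDomainRingHom_comp]
    rw [h1]
    rfl⟩ : Lam ℤ_[p] ℱ.sysU)

theorem lv_cjL (g : ℱ.G) (a : LamU p ℱ) (j : ℕ) : LamU.lv p ℱ j (cjL p ℱ g a) =
    MonoidAlgebra.mapDomainRingHom ℤ_[p] (cj ℱ g j) (LamU.lv p ℱ j a) := rfl

theorem incS_cjL (O : Type) [CommRing O] [Algebra ℤ_[p] O] (g : ℱ.G) (a : LamU p ℱ) :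
    incS p ℱ O (cjL p ℱ g a) = ofS ℱ O g⁻¹ * incS p ℱ O a * ofS ℱ O g := by
  apply LamS.ext
  intro j
  rw [map_mul, map_mul, lv_ofS, lv_ofS, lv_incS, lv_incS, lv_cjL]
  generalize LamU.lv p ℱ j a = x
  induction x using MonoidAlgebra.induction_linear with
  | zero => simp
  | add x y hx hy => simp only [map_add, hx, hy, mul_add, add_mul]
  | single u r =>
    have h1 : MonoidAlgebra.mapDomainRingHom ℤ_[p] (cj ℱ g j) (MonoidAlgebra.single u r) =
        MonoidAlgebra.single (cj ℱ g j u) r := by simp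
    have h2 : ∀ v, MonoidAlgebra.mapDomainRingHom ℤ_[p] (UQ.incl ℱ j) (MonoidAlgebra.single v r) =
        MonoidAlgebra.single (UQ.incl ℱ j v) r := by simp
    rw [h1, h2, h2, incl_cj, MonoidAlgebra.mapRingHom_single, MonoidAlgebra.mapRingHom_single,
      MonoidAlgebra.single_mul_single, MonoidAlgebra.single_mul_single, one_mul, mul_one]

/-- group elements in `ℤ_p[[U]]` -/
noncomputable def ofU (u : ↥(ℱ.N 0)) : LamU p ℱ :=
  toLam ℤ_[p] ℱ.sysU (MonoidAlgebra.single u 1)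

theorem lv_ofU (u : ↥(ℱ.N 0)) (j : ℕ) :
    LamU.lv p ℱ j (ofU p ℱ u) = MonoidAlgebra.single (UQ.mk ℱ j u) 1 := by
  have h : MonoidAlgebra.mapDomainRingHom ℤ_[p] (UQ.mk ℱ j) (MonoidAlgebra.single u 1) =
      MonoidAlgebra.single (UQ.mk ℱ j u) 1 := by simp
  exact h

theorem incS_ofU (O : Type) [CommRing O] [Algebra ℤ_[p] O] (u : ↥(ℱ.N 0)) :
    incS p ℱ O (ofU p ℱ u) = ofS ℱ O (u : ℱ.G) := by
  apply LamS.ext
  intro j
  rw [lv_ofS, lv_incS, lv_ofU]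
  have h2 : MonoidAlgebra.mapDomainRingHom ℤ_[p] (UQ.incl ℱ j)
      (MonoidAlgebra.single (UQ.mk ℱ j u) (1 : ℤ_[p])) =
        MonoidAlgebra.single (UQ.incl ℱ j (UQ.mk ℱ j u)) 1 := by simp
  rw [h2, MonoidAlgebra.mapRingHom_single, map_one, UQ.incl_mk]

/-- scalars in `ℤ_p[[U]]` -/
noncomputable def scU (c : ℤ_[p]) : LamU p ℱ :=
  toLam ℤ_[p] ℱ.sysU (MonoidAlgebra.single 1 c)

theorem lv_scU (c : ℤ_[p]) (j : ℕ) :
    LamU.lv p ℱ j (scU p ℱ c) = MonoidAlgebra.single (1 : UQ ℱ j) c := by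
  have h : MonoidAlgebra.mapDomainRingHom ℤ_[p] (UQ.mk ℱ j) (MonoidAlgebra.single 1 c) =
      MonoidAlgebra.single (1 : UQ ℱ j) c := by simp
  exact h

theorem incS_scU (O : Type) [CommRing O] [Algebra ℤ_[p] O] (c : ℤ_[p]) :
    incS p ℱ O (scU p ℱ c) = scS ℱ O (algebraMap ℤ_[p] O c) := by
  apply LamS.ext
  intro j
  rw [lv_scS, lv_incS, lv_scU]
  have h2 : MonoidAlgebra.mapDomainRingHom ℤ_[p] (UQ.incl ℱ j)
      (MonoidAlgebra.single (1 : UQ ℱ j) c) = MonoidAlgebra.single 1 c := by simp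
  rw [h2, MonoidAlgebra.mapRingHom_single]
  simp

theorem scS_comm (O : Type) [CommRing O] (o : O) (x : LamS ℱ O) :
    scS ℱ O o * x = x * scS ℱ O o := by
  apply LamS.ext
  intro j
  rw [map_mul, map_mul, lv_scS]
  exact Algebra.commutes _ _

end Aux

section Rep

variable (p : ℕ) [Fact p.Prime] (ℱ : Filt) {ι : Type} [Fintype ι] [DecidableEq ι]
  (τ : ℱ.G →* Matrix ι ι ℤ_[p]) (R : LamU p ℱ →+* Matrix ι ι ℤ_[p])

/-- `R` is the continuous extension of `τ|U`. -/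
def IsExt : Prop := ∀ (j : ℕ) (a : LamU p ℱ) (s : UQ ℱ j → ↥(ℱ.N 0)),
  (∀ q, UQ.mk ℱ j (s q) = q) →
    DvdM p j (R a - ∑ q, (LamU.lv p ℱ j a).coeff q • τ (s q : ℱ.G))

variable {p ℱ τ R}

theorem exists_section (j : ℕ) : ∃ s : UQ ℱ j → ↥(ℱ.N 0), ∀ q, UQ.mk ℱ j (s q) = q :=
  ⟨fun q => (UQ.mk_surjective ℱ j q).choose, fun q => (UQ.mk_surjective ℱ j q).choose_spec⟩

theorem exists_section' (j : ℕ) (u : ↥(ℱ.N 0)) : ∃ s : UQ ℱ j → ↥(ℱ.N 0),
    (∀ q, UQ.mk ℱ j (s q) = q) ∧ s (UQ.mk ℱ j u) = u := by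
  obtain ⟨s, hs⟩ := exists_section (ℱ := ℱ) j
  refine ⟨Function.update s (UQ.mk ℱ j u) u, fun q => ?_, Function.update_self _ _ _⟩
  by_cases hq : q = UQ.mk ℱ j u
  · subst hq
    rw [Function.update_self]
  · rw [Function.update_of_ne hq]
    exact hs q

theorem IsExt.single (h : IsExt p ℱ τ R) (u : ↥(ℱ.N 0)) (c : ℤ_[p]) (a : LamU p ℱ)
    (ha : ∀ j, LamU.lv p ℱ j a = MonoidAlgebra.single (UQ.mk ℱ j u) c) :
    R a = c • τ (u : ℱ.G) := by
  refine mat_eq_of_dvd p fun j => ?_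
  obtain ⟨s, hs, hu⟩ := exists_section' (ℱ := ℱ) j u
  have h1 := h j a s hs
  have h2 : ∑ q, (LamU.lv p ℱ j a).coeff q • τ (s q : ℱ.G) = c • τ (u : ℱ.G) := by
    rw [Finset.sum_eq_single (UQ.mk ℱ j u), ha, hu]
    · simp
    · intro b _ hb
      rw [ha]
      simp [MonoidAlgebra.coeff_single, Ne.symm hb]
    · simp
  rwa [h2] at h1

theorem IsExt.ofU (h : IsExt p ℱ τ R) (u : ↥(ℱ.N 0)) : R (ofU p ℱ u) = τ (u : ℱ.G) := by
  rw [h.single u 1 _ (lv_ofU p ℱ u), one_smul]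

theorem IsExt.scU (h : IsExt p ℱ τ R) (c : ℤ_[p]) : R (scU p ℱ c) = c • 1 := by
  rw [h.single 1 c _ (fun j => by rw [lv_scU, map_one])]
  simp

theorem IsExt.cjL (h : IsExt p ℱ τ R) (g : ℱ.G) (a : LamU p ℱ) :
    R (cjL p ℱ g a) = τ g⁻¹ * R a * τ g := by
  refine mat_eq_of_dvd p fun j => ?_
  obtain ⟨s, hs⟩ := exists_section (ℱ := ℱ) j
  have h1 := h j (Act.cjL p ℱ g a) (fun q => cu ℱ g (s (cj ℱ g⁻¹ j q))) (fun q => by
    rw [← cj_mk, hs, cj_cj_inv])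
  have h2 := ((h j a s hs).mul_left (τ g⁻¹)).mul_right (τ g)
  rw [lv_cjL, sum_mapDomain (cj ℱ g j) (LamU.lv p ℱ j a)
    (fun q => τ ((cu ℱ g (s (cj ℱ g⁻¹ j q)) : ↥(ℱ.N 0)) : ℱ.G))] at h1
  have h3 : ∑ q, (LamU.lv p ℱ j a).coeff q •
      τ ((cu ℱ g (s (cj ℱ g⁻¹ j (cj ℱ g j q))) : ↥(ℱ.N 0)) : ℱ.G) =
      τ g⁻¹ * (∑ q, (LamU.lv p ℱ j a).coeff q • τ (s q : ℱ.G)) * τ g := by
    rw [Matrix.mul_sum, Matrix.sum_mul]
    refine Finset.sum_congr rfl fun q _ => ?_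
    rw [cj_inv_cj, cu_coe, map_mul, map_mul, Matrix.mul_smul, Matrix.smul_mul]
  rw [h3] at h1
  rw [mul_sub, sub_mul] at h2
  exact h1.sub_trans h2.symm

variable {O : Type} [CommRing O] [Algebra ℤ_[p] O]
  {Z : Type} [AddCommGroup Z] [Module (LamS ℱ O) Z] [Module (LamU p ℱ) Z]
  {z : ℕ} (w : Module.Basis (Fin z) (LamU p ℱ) Z)

variable (R) in
/-- `f_y (∑ λ_b w_b) = ∑ R(λ_b) y_b`, as a linear map in `y`. -/
noncomputable def fy (v : Z) : (Fin z → ι → ℤ_[p]) →ₗ[ℤ_[p]] (ι → ℤ_[p]) :=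
  ∑ b, (Matrix.mulVecLin (R (w.repr v b))).comp (LinearMap.proj b)

theorem fy_apply (v : Z) (y : Fin z → ι → ℤ_[p]) :
    fy R w v y = ∑ b, R (w.repr v b) *ᵥ y b := by
  simp [fy, LinearMap.sum_apply]

theorem fy_add (v v' : Z) : fy R w (v + v') = fy R w v + fy R w v' := by
  refine LinearMap.ext fun y => ?_
  rw [LinearMap.add_apply, fy_apply, fy_apply, fy_apply, ← Finset.sum_add_distrib]
  refine Finset.sum_congr rfl fun b _ => ?_
  rw [map_add, Finsupp.add_apply, map_add, Matrix.add_mulVec]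

theorem fy_zero : fy R w (0 : Z) = 0 := by
  refine LinearMap.ext fun y => ?_
  rw [LinearMap.zero_apply, fy_apply]
  refine Finset.sum_eq_zero fun b _ => ?_
  rw [map_zero, Finsupp.zero_apply, map_zero, Matrix.zero_mulVec]

theorem fy_smul (a : LamU p ℱ) (v : Z) :
    fy R w (a • v) = (Matrix.mulVecLin (R a)).comp (fy R w v) := by
  refine LinearMap.ext fun y => ?_
  rw [LinearMap.comp_apply, Matrix.mulVecLin_apply, fy_apply, fy_apply, Matrix.mulVec_sum]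
  refine Finset.sum_congr rfl fun b _ => ?_
  rw [map_smul, Finsupp.smul_apply, smul_eq_mul, map_mul, Matrix.mulVec_mulVec]

theorem fy_basis (a : Fin z) : fy R w (w a) = LinearMap.proj a := by
  refine LinearMap.ext fun y => ?_
  rw [LinearMap.proj_apply, fy_apply, Finset.sum_eq_single a]
  · rw [w.repr_self, Finsupp.single_eq_same, map_one, Matrix.one_mulVec]
  · intro b _ hb
    rw [w.repr_self, Finsupp.single_eq_of_ne hb, map_zero, Matrix.zero_mulVec]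
  · simp

/-- an additive and `R`-linear family of maps is determined by its values on the basis -/
theorem fy_comp (T : Z → ((Fin z → ι → ℤ_[p]) →ₗ[ℤ_[p]] (ι → ℤ_[p]))) (h0 : T 0 = 0)
    (hadd : ∀ v v', T (v + v') = T v + T v')
    (hsmul : ∀ (a : LamU p ℱ) v, T (a • v) = (Matrix.mulVecLin (R a)).comp (T v)) (v : Z) :
    (fy R w v).comp (LinearMap.pi fun a => T (w a)) = T v := by
  classical
  have hsum : ∀ (s : Finset (Fin z)) (c : Fin z → LamU p ℱ), T (∑ i ∈ s, c i • w i) =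
      ∑ i ∈ s, (Matrix.mulVecLin (R (c i))).comp (T (w i)) := by
    intro s c
    induction s using Finset.induction_on with
    | empty => simpa using h0
    | insert a s ha ih => rw [Finset.sum_insert ha, Finset.sum_insert ha, hadd, ih, hsmul]
  conv_rhs => rw [← w.sum_repr v]
  rw [hsum]
  refine LinearMap.ext fun y => ?_
  rw [LinearMap.comp_apply, fy_apply, LinearMap.sum_apply]
  rfl

/-- the operator `Φ_g` -/
noncomputable def PhiL (τ : ℱ.G →* Matrix ι ι ℤ_[p]) (R : LamU p ℱ →+* Matrix ι ι ℤ_[p])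
    (O : Type) [CommRing O] {Z : Type} [AddCommGroup Z] [Module (LamS ℱ O) Z]
    [Module (LamU p ℱ) Z] {z : ℕ} (w : Module.Basis (Fin z) (LamU p ℱ) Z) (g : ℱ.G) :
    Module.End ℤ_[p] (Fin z → ι → ℤ_[p]) :=
  LinearMap.pi fun a => (Matrix.mulVecLin (τ g)).comp (fy R w (ofS ℱ O g⁻¹ • w a))

/-- the operator `θ_o` -/
noncomputable def thL (R : LamU p ℱ →+* Matrix ι ι ℤ_[p])
    {O : Type} [CommRing O] {Z : Type} [AddCommGroup Z] [Module (LamS ℱ O) Z]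
    [Module (LamU p ℱ) Z] {z : ℕ} (w : Module.Basis (Fin z) (LamU p ℱ) Z) (o : O) :
    Module.End ℤ_[p] (Fin z → ι → ℤ_[p]) :=
  LinearMap.pi fun a => fy R w (scS ℱ O o • w a)

theorem fy_PhiL (hΛ : ∀ (a : LamU p ℱ) (v : Z), a • v = incS p ℱ O a • v)
    (h : IsExt p ℱ τ R) (g : ℱ.G) (v : Z) :
    (fy R w v).comp (PhiL τ R O w g) =
      (Matrix.mulVecLin (τ g)).comp (fy R w (ofS ℱ O g⁻¹ • v)) := by
  refine fy_comp w (fun v => (Matrix.mulVecLin (τ g)).comp (fy R w (ofS ℱ O g⁻¹ • v))) ?_ ?_ ?_ v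
  · simp only [smul_zero, fy_zero, LinearMap.comp_zero]
  · intro v v'
    simp only [smul_add, fy_add, LinearMap.comp_add]
  · intro a v
    have h1 : ofS ℱ O g⁻¹ • (a • v) = (Act.cjL p ℱ g a) • (ofS ℱ O g⁻¹ • v) := by
      rw [hΛ, hΛ (Act.cjL p ℱ g a), incS_cjL, smul_smul, smul_smul, mul_assoc (_ * _),
        ← map_mul, mul_inv_cancel, map_one, mul_one]
    rw [h1, fy_smul, h.cjL, ← LinearMap.comp_assoc, ← LinearMap.comp_assoc,
      ← Matrix.mulVecLin_mul, ← Matrix.mulVecLin_mul, ← mul_assoc, ← mul_assoc, ← map_mul,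
      mul_inv_cancel, map_one, one_mul]

theorem fy_thL (hΛ : ∀ (a : LamU p ℱ) (v : Z), a • v = incS p ℱ O a • v) (o : O) (v : Z) :
    (fy R w v).comp (thL R w o) = fy R w (scS ℱ O o • v) := by
  refine fy_comp w (fun v => fy R w (scS ℱ O o • v)) ?_ ?_ ?_ v
  · simp only [smul_zero, fy_zero]
  · intro v v'
    simp only [smul_add, fy_add]
  · intro a v
    have h1 : scS ℱ O o • (a • v) = a • (scS ℱ O o • v) := by
      rw [hΛ, hΛ, smul_smul, smul_smul, scS_comm]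
    rw [h1, fy_smul]

omit [Algebra ℤ_[p] O] in
theorem proj_PhiL (g : ℱ.G) (a : Fin z) : (LinearMap.proj a).comp (PhiL τ R O w g) =
    (Matrix.mulVecLin (τ g)).comp (fy R w (ofS ℱ O g⁻¹ • w a)) := rfl

omit [Algebra ℤ_[p] O] in
theorem proj_thL (o : O) (a : Fin z) : (LinearMap.proj a).comp (thL R w o) =
    fy R w (scS ℱ O o • w a) := rfl

omit [Fintype ι] [DecidableEq ι] in
theorem end_ext {A B : Module.End ℤ_[p] (Fin z → ι → ℤ_[p])}
    (h : ∀ a, (LinearMap.proj (φ := fun _ : Fin z => ι → ℤ_[p]) a).comp A =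
      (LinearMap.proj (φ := fun _ : Fin z => ι → ℤ_[p]) a).comp B) : A = B := by
  refine LinearMap.ext fun y => funext fun a => ?_
  exact LinearMap.congr_fun (h a) y


omit [Algebra ℤ_[p] O] in
theorem PhiL_one : PhiL τ R O w 1 = 1 := by
  refine end_ext fun a => ?_
  rw [proj_PhiL]
  have h1 : ofS ℱ O (1 : ℱ.G)⁻¹ • w a = w a := by
    rw [inv_one, MonoidHom.map_one, one_smul]
  rw [h1, fy_basis, MonoidHom.map_one, Matrix.mulVecLin_one, LinearMap.id_comp,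
    Module.End.one_eq_id, LinearMap.comp_id]

theorem PhiL_mul (hΛ : ∀ (a : LamU p ℱ) (v : Z), a • v = incS p ℱ O a • v)
    (h : IsExt p ℱ τ R) (g k : ℱ.G) :
    PhiL τ R O w (g * k) = PhiL τ R O w g * PhiL τ R O w k := by
  refine end_ext fun a => ?_
  have h1 : (LinearMap.proj (φ := fun _ : Fin z => ι → ℤ_[p]) a).comp
      (PhiL τ R O w g * PhiL τ R O w k) =
      ((LinearMap.proj (φ := fun _ : Fin z => ι → ℤ_[p]) a).comp
      (PhiL τ R O w g)).comp (PhiL τ R O w k) := by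
    rw [Module.End.mul_eq_comp, LinearMap.comp_assoc]
  have h2 : ofS ℱ O (g * k)⁻¹ • w a = ofS ℱ O k⁻¹ • ofS ℱ O g⁻¹ • w a := by
    rw [mul_inv_rev, MonoidHom.map_mul, mul_smul]
  rw [h1, proj_PhiL, proj_PhiL, h2, LinearMap.comp_assoc, fy_PhiL w hΛ h, ← LinearMap.comp_assoc,
    ← Matrix.mulVecLin_mul, MonoidHom.map_mul]

/-- the representation `Φ` -/
noncomputable def Phi (hΛ : ∀ (a : LamU p ℱ) (v : Z), a • v = incS p ℱ O a • v)
    (h : IsExt p ℱ τ R) : ℱ.G →* Module.End ℤ_[p] (Fin z → ι → ℤ_[p]) where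
  toFun := PhiL τ R O w
  map_one' := PhiL_one w
  map_mul' := PhiL_mul w hΛ h

theorem Phi_apply (hΛ : ∀ (a : LamU p ℱ) (v : Z), a • v = incS p ℱ O a • v)
    (h : IsExt p ℱ τ R) (g : ℱ.G) : Phi w hΛ h g = PhiL τ R O w g := rfl

omit [Algebra ℤ_[p] O] in
theorem thL_one : thL R w (1 : O) = 1 := by
  refine end_ext fun a => ?_
  rw [proj_thL, RingHom.map_one, one_smul, fy_basis, Module.End.one_eq_id, LinearMap.comp_id]

theorem thL_mul (hΛ : ∀ (a : LamU p ℱ) (v : Z), a • v = incS p ℱ O a • v) (o o' : O) :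
    thL R w (o * o') = thL R w o * thL R w o' := by
  refine end_ext fun a => ?_
  have h1 : (LinearMap.proj (φ := fun _ : Fin z => ι → ℤ_[p]) a).comp
      (thL R w o * thL R w o') =
      ((LinearMap.proj (φ := fun _ : Fin z => ι → ℤ_[p]) a).comp
      (thL R w o)).comp (thL R w o') := by
    rw [Module.End.mul_eq_comp, LinearMap.comp_assoc]
  have h2 : scS ℱ O (o * o') • w a = scS ℱ O o' • scS ℱ O o • w a := by
    rw [mul_comm o o', RingHom.map_mul, mul_smul]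
  rw [h1, proj_thL, proj_thL, h2, fy_thL w hΛ]

omit [Algebra ℤ_[p] O] in
theorem thL_zero : thL R w (0 : O) = 0 := by
  refine end_ext fun a => ?_
  rw [proj_thL, RingHom.map_zero, zero_smul, fy_zero, LinearMap.comp_zero]

omit [Algebra ℤ_[p] O] in
theorem thL_add (o o' : O) : thL R w (o + o') = thL R w o + thL R w o' := by
  refine end_ext fun a => ?_
  rw [proj_thL, RingHom.map_add, add_smul, fy_add, LinearMap.comp_add, proj_thL, proj_thL]

/-- the ring homomorphism `θ` -/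
noncomputable def theta (hΛ : ∀ (a : LamU p ℱ) (v : Z), a • v = incS p ℱ O a • v) :
    O →+* Module.End ℤ_[p] (Fin z → ι → ℤ_[p]) where
  toFun := thL R w
  map_one' := thL_one w
  map_mul' := thL_mul w hΛ
  map_zero' := thL_zero w
  map_add' := thL_add w

theorem theta_apply (hΛ : ∀ (a : LamU p ℱ) (v : Z), a • v = incS p ℱ O a • v) (o : O) :
    theta (R := R) w hΛ o = thL R w o := rfl

theorem PhiL_of_mem (hΛ : ∀ (a : LamU p ℱ) (v : Z), a • v = incS p ℱ O a • v)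
    (h : IsExt p ℱ τ R) (g : ℱ.G) (hg : g ∈ ℱ.N 0) : PhiL τ R O w g = 1 := by
  refine end_ext fun a => ?_
  have h1 : ofS ℱ O g⁻¹ • w a = Act.ofU p ℱ (⟨g⁻¹, (ℱ.N 0).inv_mem hg⟩ : ↥(ℱ.N 0)) • w a := by
    rw [hΛ, Act.incS_ofU]
  rw [proj_PhiL, h1, Act.fy_smul, h.ofU, ← LinearMap.comp_assoc, ← Matrix.mulVecLin_mul,
    ← MonoidHom.map_mul, Act.fy_basis, mul_inv_cancel, MonoidHom.map_one, Matrix.mulVecLin_one,
    LinearMap.id_comp, Module.End.one_eq_id, LinearMap.comp_id]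

theorem thL_comm (hΛ : ∀ (a : LamU p ℱ) (v : Z), a • v = incS p ℱ O a • v)
    (h : IsExt p ℱ τ R) (o : O) (g : ℱ.G) :
    thL R w o * PhiL τ R O w g = PhiL τ R O w g * thL R w o := by
  refine end_ext fun a => ?_
  rw [Module.End.mul_eq_comp, Module.End.mul_eq_comp, ← LinearMap.comp_assoc,
    ← LinearMap.comp_assoc, proj_thL, proj_PhiL, fy_PhiL w hΛ h, LinearMap.comp_assoc,
    fy_thL w hΛ, smul_smul, smul_smul, scS_comm]

theorem thL_scalar (hΛ : ∀ (a : LamU p ℱ) (v : Z), a • v = incS p ℱ O a • v)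
    (h : IsExt p ℱ τ R) (c : ℤ_[p]) : thL R w (algebraMap ℤ_[p] O c) = c • 1 := by
  refine end_ext fun a => ?_
  rw [proj_thL, ← Act.incS_scU, ← hΛ, Act.fy_smul, h.scU, Act.fy_basis]
  refine LinearMap.ext fun y => ?_
  rw [LinearMap.comp_apply, LinearMap.comp_apply, LinearMap.proj_apply, LinearMap.proj_apply,
    Matrix.mulVecLin_apply, Matrix.smul_mulVec, Matrix.one_mulVec, LinearMap.smul_apply,
    Module.End.one_apply, Pi.smul_apply]

omit [Algebra ℤ_[p] O] in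
theorem trace_PhiL (g : ℱ.G) : LinearMap.trace ℤ_[p] _ (PhiL τ R O w g) =
    ∑ a, Matrix.trace (τ g * R (w.repr (ofS ℱ O g⁻¹ • w a) a)) := by
  rw [LinearMap.trace_eq_matrix_trace ℤ_[p]
    (Pi.basis fun _ : Fin z => Pi.basisFun ℤ_[p] ι), Matrix.trace, Fintype.sum_sigma]
  refine Finset.sum_congr rfl fun a _ => ?_
  rw [Matrix.trace]
  refine Finset.sum_congr rfl fun x _ => ?_
  rw [Matrix.diag_apply, Matrix.diag_apply, LinearMap.toMatrix_apply, Pi.basis_repr,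
    Pi.basisFun_repr, Pi.basis_apply, Pi.basisFun_apply]
  have h1 : PhiL τ R O w g (Pi.single a (Pi.single x 1)) a =
      (τ g * R (w.repr (ofS ℱ O g⁻¹ • w a) a)) *ᵥ Pi.single x 1 := by
    change (Matrix.mulVecLin (τ g)) (fy R w (ofS ℱ O g⁻¹ • w a) (Pi.single a (Pi.single x 1))) = _
    rw [fy_apply, Finset.sum_eq_single a, Pi.single_eq_same, Matrix.mulVecLin_apply,
      Matrix.mulVec_mulVec]
    · intro b _ hb
      rw [Pi.single_eq_of_ne hb, Matrix.mulVec_zero]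
    · simp
  rw [h1, Matrix.mulVec_single_one]
  rfl

end Rep

end Act

section M33

variable (p : ℕ) [Fact p.Prime] (ℱ : Filt)

variable {O : Type} [CommRing O] [Algebra ℤ_[p] O]
  {Z : Type} [AddCommGroup Z] [Module (LamS ℱ O) Z] [Module (LamU p ℱ) Z]
  (hΛ : ∀ (a : LamU p ℱ) (v : Z), a • v = incS p ℱ O a • v)
  {z : ℕ} (w : Module.Basis (Fin z) (LamU p ℱ) Z)

include hΛ in
/-- M33b -/
theorem exists_action {ι : Type} [Fintype ι] [DecidableEq ι] (τ : ℱ.G →* Matrix ι ι ℤ_[p])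
    (hτ : ∀ j, ∀ g ∈ ℱ.N j, ∀ a b, (p : ℤ_[p]) ^ j ∣ (τ g - 1) a b) :
    ∃ (Φ : ℱ.G →* Module.End ℤ_[p] (Fin z → ι → ℤ_[p]))
      (θ : O →+* Module.End ℤ_[p] (Fin z → ι → ℤ_[p])),
      (∀ g ∈ ℱ.N 0, Φ g = 1) ∧ (∀ o g, θ o * Φ g = Φ g * θ o) ∧
      (∀ c : ℤ_[p], θ (algebraMap ℤ_[p] O c) = c • 1) ∧
      ∀ (g : ℱ.G) (j : ℕ) (s : UQ ℱ j → ↥(ℱ.N 0)), (∀ u, UQ.mk ℱ j (s u) = u) →
        (p : ℤ_[p]) ^ j ∣ LinearMap.trace ℤ_[p] _ (Φ g) -
          ∑ u, muT p ℱ O w g⁻¹ j u * Matrix.trace (τ (g * s u)) := by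
  obtain ⟨R', hR'⟩ := exists_contRep p ℱ.sysU (τ.comp (ℱ.N 0).subtype) (by
    intro j g hg a b
    exact hτ j _ (UQ.mk_eq_one.mp hg) a b)
  let R : LamU p ℱ →+* Matrix ι ι ℤ_[p] := R'
  have hR : Act.IsExt p ℱ τ R := fun j a s hs => hR' j a s hs
  clear_value R
  refine ⟨Act.Phi w hΛ hR, Act.theta (R := R) w hΛ, fun g hg => ?_, fun o g => ?_, fun c => ?_,
    fun g j s hs => ?_⟩
  · rw [Act.Phi_apply]
    exact Act.PhiL_of_mem w hΛ hR g hg
  · rw [Act.Phi_apply, Act.theta_apply]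
    exact Act.thL_comm w hΛ hR o g
  · rw [Act.theta_apply]
    exact Act.thL_scalar w hΛ hR c
  · rw [Act.Phi_apply, Act.trace_PhiL]
    have h1 : ∀ a : Fin z, (p : ℤ_[p]) ^ j ∣
        Matrix.trace (τ g * R (w.repr (ofS ℱ O g⁻¹ • w a) a)) -
        ∑ u, (LamU.lv p ℱ j (w.repr (ofS ℱ O g⁻¹ • w a) a)).coeff u *
          Matrix.trace (τ (g * s u)) := by
      intro a
      have h2 := (hR j (w.repr (ofS ℱ O g⁻¹ • w a) a) s hs).mul_left (τ g)
      have h3 : Matrix.trace (τ g * R (w.repr (ofS ℱ O g⁻¹ • w a) a)) -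
          ∑ u, (LamU.lv p ℱ j (w.repr (ofS ℱ O g⁻¹ • w a) a)).coeff u *
          Matrix.trace (τ (g * s u)) = Matrix.trace (τ g * (R (w.repr (ofS ℱ O g⁻¹ • w a) a) -
            ∑ u, (LamU.lv p ℱ j (w.repr (ofS ℱ O g⁻¹ • w a) a)).coeff u •
              τ (s u : ℱ.G))) := by
        rw [mul_sub, Matrix.trace_sub, Matrix.mul_sum, Matrix.trace_sum]
        refine congrArg _ (Finset.sum_congr rfl fun u _ => ?_)
        rw [Matrix.mul_smul, Matrix.trace_smul, smul_eq_mul, MonoidHom.map_mul]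
      rw [h3]
      exact Finset.dvd_sum fun x _ => h2 x x
    have h4 := Finset.dvd_sum (s := Finset.univ) fun a _ => h1 a
    rw [Finset.sum_sub_distrib] at h4
    have h5 : ∑ u, muT p ℱ O w g⁻¹ j u * Matrix.trace (τ (g * s u)) =
        ∑ a, ∑ u, (LamU.lv p ℱ j (w.repr (ofS ℱ O g⁻¹ • w a) a)).coeff u *
          Matrix.trace (τ (g * s u)) := by
      rw [Finset.sum_comm]
      refine Finset.sum_congr rfl fun u _ => ?_
      rw [muT, Finset.sum_mul]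
    rw [h5]
    exact h4

end M33

end Pool.Agent.H4.Atiyah
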