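import Pool.Agent.H4.Atiyah.Copies

/-!
# The rank function of the algebraic ultraproduct
-/

set_option autoImplicit false
set_option linter.unusedSectionVars false

open Filter Topology
open scoped Matrix Kronecker

namespace Pool.Agent.H4.Atiyah

namespace AlgRank

/-! ### Linear algebra -/

section lin

variable {F : Type*} [Field F]

theorem rank_one_sub_of_idem {m : Type*} [Fintype m] [DecidableEq m] {P : Matrix m m F}
    (hP : P * P = P) : (1 - P).rank + P.rank = Fintype.card m := by
  have h1 : LinearMap.range (1 - P).mulVecLin = LinearMap.ker P.mulVecLin := by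
    ext x
    rw [LinearMap.mem_ker, LinearMap.mem_range]
    constructor
    · rintro ⟨y, rfl⟩
      rw [Matrix.mulVecLin_apply, Matrix.mulVecLin_apply, Matrix.mulVec_mulVec, Matrix.mul_sub,
        Matrix.mul_one, hP, sub_self, Matrix.zero_mulVec]
    · intro hx
      refine ⟨x, ?_⟩
      rw [Matrix.mulVecLin_apply] at hx ⊢
      rw [Matrix.sub_mulVec, Matrix.one_mulVec, hx, sub_zero]
  have h2 := LinearMap.finrank_range_add_finrank_ker P.mulVecLin
  rw [← h1, Module.finrank_fintype_fun_eq_card] at h2
  unfold Matrix.rank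
  omega

/-- generalized inverses -/
theorem exists_ginv {m : Type*} [Fintype m] [DecidableEq m] (A : Matrix m m F) :
    ∃ Y : Matrix m m F, A * Y * A = A ∧ (1 - A * Y).rank + A.rank = Fintype.card m ∧
      (1 - Y * A).rank + A.rank = Fintype.card m := by
  obtain ⟨V, U, e, hV, hU, h⟩ := Matrix.exists_rank_normal_form A
  obtain ⟨V', hV1⟩ := hV.exists_left_inv
  obtain ⟨U', hU1⟩ := hU.exists_right_inv
  have hE : (V * A * U) * (V * A * U) = V * A * U := by
    rw [h, Matrix.submatrix_mul_equiv, Matrix.fromBlocks_multiply]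
    simp
  have h2 : ∀ M : Matrix m m F, V' * (V * M) = M := fun M => by
    rw [← Matrix.mul_assoc, hV1, Matrix.one_mul]
  have h3 : ∀ M : Matrix m m F, M * U * U' = M := fun M => by
    rw [Matrix.mul_assoc, hU1, Matrix.mul_one]
  have key : A * (U * V) * A = A := by
    have h1 : V' * ((V * A * U) * (V * A * U)) * U' = V' * (V * A * U) * U' := by rw [hE]
    have h4 : V' * (V * A * U) * U' = A := by
      have : V' * (V * A * U) * U' = V' * (V * A) * U * U' := by simp only [Matrix.mul_assoc]
      rw [this, h3, h2]
    have h5 : V' * ((V * A * U) * (V * A * U)) * U' = A * (U * V) * A := by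
      have : V' * ((V * A * U) * (V * A * U)) * U' = (V' * (V * (A * U * (V * A)))) * U * U' := by
        simp only [Matrix.mul_assoc]
      rw [this, h3, h2]
      simp only [Matrix.mul_assoc]
    rw [h4, h5] at h1
    exact h1
  refine ⟨U * V, key, ?_, ?_⟩
  · have h1 : (A * (U * V)) * (A * (U * V)) = A * (U * V) := by
      rw [← Matrix.mul_assoc, key]
    have h2 := rank_one_sub_of_idem h1
    have h3 : (A * (U * V)).rank = A.rank := by
      apply le_antisymm (Matrix.rank_mul_le_left _ _)
      have h6 := Matrix.rank_mul_le_left (A * (U * V)) A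
      rwa [key] at h6
    rw [h3] at h2
    exact h2
  · have h1 : ((U * V) * A) * ((U * V) * A) = (U * V) * A := by
      rw [Matrix.mul_assoc (U * V) A, ← Matrix.mul_assoc A, key]
    have h2 := rank_one_sub_of_idem h1
    have h3 : ((U * V) * A).rank = A.rank := by
      apply le_antisymm (Matrix.rank_mul_le_right _ _)
      have h6 := Matrix.rank_mul_le_right A (U * V * A)
      rwa [← Matrix.mul_assoc, key] at h6
    rw [h3] at h2
    exact h2

theorem rank_sq_le_rank_kronecker {m : Type*} [Fintype m] [DecidableEq m] (A : Matrix m m F) :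
    A.rank * A.rank ≤ (A ⊗ₖ A).rank := by
  obtain ⟨V, U, e, -, -, h⟩ := Matrix.exists_rank_normal_form A
  set i : Fin A.rank → m := fun x => e.symm (Sum.inl x) with hi
  have h1 : (V.submatrix i id) * A * (U.submatrix id i) = 1 := by
    have h2 : (V.submatrix i id) * A * (U.submatrix id i) = (V * A * U).submatrix i i := by
      ext x y
      simp [Matrix.mul_apply, Matrix.submatrix_apply]
    rw [h2, h]
    ext x y
    simp [hi, Matrix.one_apply]
  have h2 : ((V.submatrix i id) ⊗ₖ (V.submatrix i id)) * (A ⊗ₖ A) *
      ((U.submatrix id i) ⊗ₖ (U.submatrix id i)) = 1 := by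
    rw [← Matrix.mul_kronecker_mul, ← Matrix.mul_kronecker_mul, h1, Matrix.one_kronecker_one]
  have h3 : (1 : Matrix (Fin A.rank × Fin A.rank) (Fin A.rank × Fin A.rank) F).rank ≤
      (A ⊗ₖ A).rank := by
    rw [← h2]
    exact (Matrix.rank_mul_le_left _ _).trans (Matrix.rank_mul_le_right _ _)
  rw [Matrix.rank_one, Fintype.card_prod, Fintype.card_fin] at h3
  exact h3

theorem rank_sum_le {m n ι : Type*} [Fintype m] [Fintype n] (s : Finset ι)
    (M : ι → Matrix m n F) : (∑ i ∈ s, M i).rank ≤ ∑ i ∈ s, (M i).rank := by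
  classical
  induction s using Finset.induction_on with
  | empty => simp
  | insert i s hi ih =>
    rw [Finset.sum_insert hi, Finset.sum_insert hi]
    exact (rank_add_le' _ _).trans (Nat.add_le_add_left ih _)

theorem rank_neg' {m n : Type*} [Fintype m] [Fintype n] (M : Matrix m n F) :
    (-M).rank = M.rank := by
  classical
  apply le_antisymm
  · have : -M = M * (-1 : Matrix n n F) := by simp
    rw [this]
    exact Matrix.rank_mul_le_left _ _
  · have : M = (-M) * (-1 : Matrix n n F) := by simp
    conv_lhs => rw [this]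
    exact Matrix.rank_mul_le_left _ _

theorem rank_fromBlocks_diag {m n m' n' : Type*} [Fintype m] [Fintype n] [Fintype m'] [Fintype n']
    (A : Matrix m n F) (B : Matrix m' n' F) :
    (Matrix.fromBlocks A 0 0 B).rank = A.rank + B.rank := by
  classical
  have h1 := LinearMap.finrank_range_add_finrank_ker (Matrix.fromBlocks A 0 0 B).mulVecLin
  have h2 := LinearMap.finrank_range_add_finrank_ker A.mulVecLin
  have h3 := LinearMap.finrank_range_add_finrank_ker B.mulVecLin
  rw [Module.finrank_fintype_fun_eq_card] at h1 h2 h3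
  let e : LinearMap.ker (Matrix.fromBlocks A 0 0 B).mulVecLin ≃ₗ[F]
      (LinearMap.ker A.mulVecLin × LinearMap.ker B.mulVecLin) :=
    { toFun := fun x => (⟨fun i => x.1 (Sum.inl i), by
        have := x.2
        rw [LinearMap.mem_ker, Matrix.mulVecLin_apply] at this ⊢
        ext i
        have h4 := congrFun this (Sum.inl i)
        simpa [Matrix.mulVec, dotProduct, Fintype.sum_sum_type] using h4⟩,
        ⟨fun i => x.1 (Sum.inr i), by
        have := x.2
        rw [LinearMap.mem_ker, Matrix.mulVecLin_apply] at this ⊢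
        ext i
        have h4 := congrFun this (Sum.inr i)
        simpa [Matrix.mulVec, dotProduct, Fintype.sum_sum_type] using h4⟩)
      map_add' := fun _ _ => rfl
      map_smul' := fun _ _ => rfl
      invFun := fun y => ⟨Sum.elim y.1.1 y.2.1, by
        have hy1 := y.1.2
        have hy2 := y.2.2
        rw [LinearMap.mem_ker, Matrix.mulVecLin_apply] at hy1 hy2 ⊢
        rw [Matrix.fromBlocks_mulVec]
        ext i
        rcases i with i | i
        · simpa using congrFun hy1 i
        · simpa using congrFun hy2 i⟩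
      left_inv := fun x => by
        apply Subtype.ext
        ext i
        rcases i with i | i <;> rfl
      right_inv := fun y => rfl }
  have h4 := e.finrank_eq
  rw [Module.finrank_prod] at h4
  rw [Fintype.card_sum] at h1
  unfold Matrix.rank
  omega

end lin

/-! ### Flattening -/

section flatten

variable {F : Type*} [Field F] {X : ℕ → Type} [∀ j, Fintype (X j)] [∀ j, DecidableEq (X j)]
variable {l m n : Type*} [Fintype l] [Fintype m] [Fintype n]

theorem flat_mul (A : Matrix l m (∀ j, Matrix (X j) (X j) F))
    (B : Matrix m n (∀ j, Matrix (X j) (X j) F)) (j : ℕ) :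
    flat (A * B) j = flat A j * flat B j := by
  ext x y
  simp only [flat, Matrix.of_apply, Matrix.mul_apply, Finset.sum_apply, Pi.mul_apply,
    Fintype.sum_prod_type, Matrix.sum_apply]

theorem flat_sub (A B : Matrix m n (∀ j, Matrix (X j) (X j) F)) (j : ℕ) :
    flat (A - B) j = flat A j - flat B j := rfl

theorem flat_one [DecidableEq m] (j : ℕ) :
    flat (1 : Matrix m m (∀ j, Matrix (X j) (X j) F)) j = 1 := by
  ext x y
  simp only [flat, Matrix.of_apply, Matrix.one_apply, Prod.ext_iff]
  by_cases h : x.1 = y.1 <;> simp [h, Matrix.one_apply]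

theorem rank_flat_le (A : Matrix m n (∀ j, Matrix (X j) (X j) F)) (j : ℕ) :
    (flat A j).rank ≤ ∑ i, ∑ k, (A i k j).rank := by
  classical
  let R : m → Matrix (m × X j) (X j) F := fun i => Matrix.of fun x y => if x = (i, y) then 1 else 0
  let C : n → Matrix (X j) (n × X j) F := fun k => Matrix.of fun x y => if y = (k, x) then 1 else 0
  have h : flat A j = ∑ i, ∑ k, R i * A i k j * C k := by
    ext x y
    obtain ⟨a, x⟩ := x
    obtain ⟨b, y⟩ := y
    simp only [Matrix.sum_apply, flat, Matrix.of_apply]
    have h1 : ∀ i k, (R i * A i k j * C k) (a, x) (b, y) =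
        if a = i then (if b = k then A i k j x y else 0) else 0 := by
      intro i k
      have h2 : ∀ w, (R i * A i k j) (a, x) w = if a = i then A i k j x w else 0 := by
        intro w
        rw [Matrix.mul_apply]
        by_cases hai : a = i
        · subst hai
          rw [Finset.sum_eq_single x]
          · simp [R]
          · intro b _ hb
            simp [R, Prod.ext_iff, Ne.symm hb]
          · simp
        · rw [if_neg hai]
          apply Finset.sum_eq_zero
          intro b _
          simp [R, Prod.ext_iff, hai]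
      rw [Matrix.mul_apply]
      by_cases hbk : b = k
      · subst hbk
        rw [Finset.sum_eq_single y]
        · rw [h2]
          simp [C]
        · intro c _ hc
          simp [C, Prod.ext_iff, Ne.symm hc]
        · simp
      · rw [if_neg hbk]
        rw [ite_self]
        apply Finset.sum_eq_zero
        intro c _
        simp [C, Prod.ext_iff, hbk]
    simp only [h1]
    rw [Finset.sum_eq_single a]
    · rw [Finset.sum_eq_single b]
      · simp
      · intro k _ hk
        simp [Ne.symm hk]
      · simp
    · intro i _ hi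
      simp [Ne.symm hi]
    · simp
  rw [h]
  refine (rank_sum_le _ _).trans (Finset.sum_le_sum fun i _ => ?_)
  refine (rank_sum_le _ _).trans (Finset.sum_le_sum fun k _ => ?_)
  exact (Matrix.rank_mul_le_left _ _).trans (Matrix.rank_mul_le_right _ _)

theorem rank_entry_le (A : Matrix m n (∀ j, Matrix (X j) (X j) F)) (i : m) (k : n) (j : ℕ) :
    (A i k j).rank ≤ (flat A j).rank := by
  have h : A i k j = (flat A j).submatrix (fun x => (i, x)) (fun x => (k, x)) := rfl
  rw [h]
  exact Matrix.rank_submatrix_le _ _ _

end flatten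

section rkS

variable {F : Type} [Field F] {X : ℕ → Type} [∀ j, Fintype (X j)] [∀ j, DecidableEq (X j)]
variable {l m n : Type*} [Fintype l] [Fintype m] [Fintype n]

theorem small_flat {A : Matrix m n (Seq F X)} (h : ∀ i k, A i k ∈ algNull F X) :
    ∀ ε > (0 : ℝ), ∀ᶠ j in (om : Filter ℕ), ((flat A j).rank : ℝ) ≤ ε * Fintype.card (X j) := by
  intro ε hε
  have h1 : ∀ᶠ j in (om : Filter ℕ), ∀ i k, ((A i k j).rank : ℝ) ≤
      ε / (Fintype.card m * Fintype.card n + 1) * Fintype.card (X j) := by
    rw [Filter.eventually_all]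
    intro i
    rw [Filter.eventually_all]
    intro k
    exact h i k _ (by positivity)
  filter_upwards [h1] with j hj
  have h2 : ((flat A j).rank : ℝ) ≤ ∑ i, ∑ k, ((A i k j).rank : ℝ) := by
    exact_mod_cast rank_flat_le A j
  refine h2.trans ?_
  have h3 : ∑ i, ∑ k, ((A i k j).rank : ℝ) ≤ ∑ _i : m, ∑ _k : n,
      ε / (Fintype.card m * Fintype.card n + 1) * Fintype.card (X j) :=
    Finset.sum_le_sum fun i _ => Finset.sum_le_sum fun k _ => hj i k
  refine h3.trans ?_
  simp only [Finset.sum_const, Finset.card_univ, nsmul_eq_mul]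
  have h4 : (0 : ℝ) < Fintype.card m * Fintype.card n + 1 := by positivity
  rw [← mul_assoc, ← mul_assoc]
  refine mul_le_mul_of_nonneg_right ?_ (Nat.cast_nonneg _)
  rw [mul_div_assoc', div_le_iff₀ h4]
  nlinarith [hε.le]

/-- normalized rank of a matrix of sequences -/
noncomputable def rkS (A : Matrix m n (Seq F X)) : ℝ :=
  omLim fun j => ((flat A j).rank : ℝ) / Fintype.card (X j)

variable [∀ j, Nonempty (X j)]

theorem card_pos (j : ℕ) : (0 : ℝ) < Fintype.card (X j) := by
  exact_mod_cast Fintype.card_pos

theorem tendsto_rkS (A : Matrix m n (Seq F X)) :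
    Tendsto (fun j => ((flat A j).rank : ℝ) / Fintype.card (X j)) (om : Filter ℕ) (𝓝 (rkS A)) := by
  refine tendsto_omLim (a := 0) (b := Fintype.card n) fun j => ⟨by positivity, ?_⟩
  rw [div_le_iff₀ (card_pos j)]
  have h := Matrix.rank_le_card_width (flat A j)
  rw [Fintype.card_prod] at h
  exact_mod_cast h

theorem rkS_mono {m' n' : Type*} [Fintype m'] [Fintype n'] {A : Matrix m n (Seq F X)}
    {B : Matrix m' n' (Seq F X)} (h : ∀ j, (flat A j).rank ≤ (flat B j).rank) :
    rkS A ≤ rkS B := by
  refine le_of_tendsto_of_tendsto (tendsto_rkS A) (tendsto_rkS B) (Eventually.of_forall fun j => ?_)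
  exact div_le_div_of_nonneg_right (by exact_mod_cast h j) (Nat.cast_nonneg _)

theorem rkS_le_of_sub {A B : Matrix m n (Seq F X)} (h : ∀ i k, (A - B) i k ∈ algNull F X) :
    rkS A ≤ rkS B := by
  apply le_of_forall_pos_le_add
  intro ε hε
  refine le_of_tendsto_of_tendsto (tendsto_rkS A) ((tendsto_rkS B).add_const ε) ?_
  filter_upwards [small_flat h ε hε] with j hj
  rw [div_le_iff₀ (card_pos j), add_mul, div_mul_cancel₀ _ (card_pos j).ne']
  have h1 : (flat A j).rank ≤ (flat B j).rank + (flat (A - B) j).rank := by
    have h2 := rank_add_le' (flat B j) (flat (A - B) j)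
    rw [flat_sub, add_sub_cancel] at h2
    exact h2
  have h2 : ((flat A j).rank : ℝ) ≤ (flat B j).rank + (flat (A - B) j).rank := by
    exact_mod_cast h1
  linarith

theorem rkS_congr {A B : Matrix m n (Seq F X)} (h : A.map (UAlg.mk F X) = B.map (UAlg.mk F X)) :
    rkS A = rkS B := by
  have h1 : ∀ i k, UAlg.mk F X (A i k) = UAlg.mk F X (B i k) := fun i k =>
    congrFun (congrFun h i) k
  apply le_antisymm
  · exact rkS_le_of_sub fun i k => UAlg.mk_eq_mk.1 (h1 i k)
  · exact rkS_le_of_sub fun i k => UAlg.mk_eq_mk.1 (h1 i k).symm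

/-- a lift of elements of the ultraproduct to sequences -/
noncomputable def lft (F : Type) [Field F] (X : ℕ → Type) [∀ j, Fintype (X j)]
    [∀ j, DecidableEq (X j)] : UAlg F X → Seq F X :=
  Function.surjInv UAlg.mk_surjective

theorem mk_lft (a : UAlg F X) : UAlg.mk F X (lft F X a) = a :=
  Function.surjInv_eq _ _

theorem map_lft (A : Matrix m n (UAlg F X)) : (A.map (lft F X)).map (UAlg.mk F X) = A := by
  ext i k
  exact mk_lft _

theorem map_mul_mk (A : Matrix l m (Seq F X)) (B : Matrix m n (Seq F X)) :
    (A * B).map (UAlg.mk F X) = A.map (UAlg.mk F X) * B.map (UAlg.mk F X) := by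
  ext i k
  simp only [Matrix.map_apply, Matrix.mul_apply, map_sum, map_mul]

end rkS

/-- The rank function of the algebraic ultraproduct. -/
noncomputable def algRank (F : Type) [Field F] (X : ℕ → Type) [∀ j, Fintype (X j)]
    [∀ j, DecidableEq (X j)] [∀ j, Nonempty (X j)] : MatRank (UAlg F X) where
  rk := fun A => rkS (A.map (lft F X))
  mul_left := by
    intro l m n _ _ _ A B
    have h : rkS ((A * B).map (lft F X)) = rkS (A.map (lft F X) * B.map (lft F X)) := by
      apply rkS_congr
      rw [map_lft, map_mul_mk, map_lft, map_lft]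
    rw [h]
    refine rkS_mono fun j => ?_
    rw [flat_mul]
    exact Matrix.rank_mul_le_left _ _
  mul_right := by
    intro l m n _ _ _ A B
    have h : rkS ((A * B).map (lft F X)) = rkS (A.map (lft F X) * B.map (lft F X)) := by
      apply rkS_congr
      rw [map_lft, map_mul_mk, map_lft, map_lft]
    rw [h]
    refine rkS_mono fun j => ?_
    rw [flat_mul]
    exact Matrix.rank_mul_le_right _ _
  blocks := by
    intro m n m' n' _ _ _ _ A B
    have h : rkS ((Matrix.fromBlocks A 0 0 B).map (lft F X)) =
        rkS (Matrix.fromBlocks (A.map (lft F X)) 0 0 (B.map (lft F X))) := by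
      apply rkS_congr
      rw [map_lft, Matrix.fromBlocks_map, map_lft, map_lft]
      simp
    rw [h]
    refine tendsto_nhds_unique (tendsto_rkS _) ?_
    refine ((tendsto_rkS (A.map (lft F X))).add (tendsto_rkS (B.map (lft F X)))).congr fun j => ?_
    rw [← add_div]
    congr 1
    have h2 : flat (Matrix.fromBlocks (A.map (lft F X)) 0 0 (B.map (lft F X))) j =
        (Matrix.fromBlocks (flat (A.map (lft F X)) j) 0 0 (flat (B.map (lft F X)) j)).submatrix
          (Equiv.sumProdDistrib m m' (X j)) (Equiv.sumProdDistrib n n' (X j)) := by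
      ext x y
      obtain ⟨x1 | x1, x2⟩ := x <;> obtain ⟨y1 | y1, y2⟩ := y <;>
        simp [flat, Matrix.fromBlocks]
    rw [h2, Matrix.rank_submatrix, rank_fromBlocks_diag]
    push_cast
    ring
  one := by
    intro n _ _
    have h : rkS ((1 : Matrix n n (UAlg F X)).map (lft F X)) =
        rkS (1 : Matrix n n (Seq F X)) := by
      apply rkS_congr
      rw [map_lft, Matrix.map_one _ (map_zero _) (map_one _)]
    rw [h]
    refine tendsto_nhds_unique (tendsto_rkS _) ?_
    refine tendsto_const_nhds.congr fun j => ?_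
    rw [flat_one, Matrix.rank_one, Fintype.card_prod]
    have := card_pos (X := X) j
    push_cast
    field_simp

section regular

variable {F : Type} [Field F] {X : ℕ → Type} [∀ j, Fintype (X j)] [∀ j, DecidableEq (X j)]
  [∀ j, Nonempty (X j)]

theorem map_eq_one {n : Type*} [Fintype n] [DecidableEq n] (B : Matrix n n (Seq F X))
    (h : ∀ ε > (0 : ℝ), ∀ᶠ j in (om : Filter ℕ),
      ((1 - flat B j).rank : ℝ) ≤ ε * Fintype.card (X j)) : B.map (UAlg.mk F X) = 1 := by
  have h1 : (1 - B).map (UAlg.mk F X) = 0 := by
    ext i k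
    rw [Matrix.map_apply, Matrix.zero_apply, UAlg.mk_eq_zero]
    intro ε hε
    filter_upwards [h ε hε] with j hj
    refine le_trans ?_ hj
    have h2 := rank_entry_le (1 - B) i k j
    rw [flat_sub, flat_one] at h2
    exact_mod_cast h2
  have h2 : (1 - B).map (UAlg.mk F X) = 1 - B.map (UAlg.mk F X) := by
    rw [Matrix.map_sub _ (map_sub _), Matrix.map_one _ (map_zero _) (map_one _)]
  rw [h2, sub_eq_zero] at h1
  exact h1.symm

theorem isUnit_of_full {n : Type} [Fintype n] [DecidableEq n] (A : Matrix n n (Seq F X))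
    (h : rkS A = Fintype.card n) : IsUnit (A.map (UAlg.mk F X)) := by
  classical
  choose Y hY using fun j => exists_ginv (flat A j)
  let B : Matrix n n (Seq F X) := Matrix.of fun i k => fun j =>
    Matrix.of fun x y => Y j (i, x) (k, y)
  have hB : ∀ j, flat B j = Y j := fun j => rfl
  have hs : ∀ ε > (0 : ℝ), ∀ᶠ j in (om : Filter ℕ),
      (Fintype.card n : ℝ) * Fintype.card (X j) - (flat A j).rank ≤ ε * Fintype.card (X j) := by
    intro ε hε
    have h1 := (tendsto_rkS A).eventually (lt_mem_nhds (show rkS A - ε < rkS A by linarith))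
    filter_upwards [h1] with j hj
    rw [lt_div_iff₀ (card_pos j), h] at hj
    linarith
  refine ⟨⟨A.map (UAlg.mk F X), B.map (UAlg.mk F X), ?_, ?_⟩, rfl⟩
  · rw [← map_mul_mk]
    refine map_eq_one _ fun ε hε => ?_
    filter_upwards [hs ε hε] with j hj
    rw [flat_mul, hB]
    have h1 := (hY j).2.1
    rw [Fintype.card_prod] at h1
    have h2 : ((1 - flat A j * Y j).rank : ℝ) + (flat A j).rank =
        Fintype.card n * Fintype.card (X j) := by exact_mod_cast h1
    linarith
  · rw [← map_mul_mk]
    refine map_eq_one _ fun ε hε => ?_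
    filter_upwards [hs ε hε] with j hj
    rw [flat_mul, hB]
    have h1 := (hY j).2.2
    rw [Fintype.card_prod] at h1
    have h2 : ((1 - Y j * flat A j).rank : ℝ) + (flat A j).rank =
        Fintype.card n * Fintype.card (X j) := by exact_mod_cast h1
    linarith

theorem algRank_rk {m n : Type} [Fintype m] [Fintype n] (A : Matrix m n (Seq F X)) :
    (algRank F X).rk (A.map (UAlg.mk F X)) = rkS A := by
  change rkS ((A.map (UAlg.mk F X)).map (lft F X)) = rkS A
  apply rkS_congr
  rw [map_lft]

theorem algRank_regular : (algRank F X).Regular where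
  eq_zero := by
    intro x hx
    obtain ⟨a, rfl⟩ := UAlg.mk_surjective x
    have h1 : (Matrix.of fun (_ _ : Unit) => UAlg.mk F X a) =
        (Matrix.of fun (_ _ : Unit) => a).map (UAlg.mk F X) := rfl
    rw [h1, algRank_rk] at hx
    rw [UAlg.mk_eq_zero]
    intro ε hε
    have h2 := (tendsto_rkS (Matrix.of fun (_ _ : Unit) => a)).eventually
      (gt_mem_nhds (show rkS (Matrix.of fun (_ _ : Unit) => a) < ε by rw [hx]; exact hε))
    filter_upwards [h2] with j hj
    rw [div_lt_iff₀ (card_pos j)] at hj
    refine le_trans ?_ hj.le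
    exact_mod_cast rank_entry_le (Matrix.of fun (_ _ : Unit) => a) () () j
  isUnit := by
    intro n _ _ T hT
    have h1 : T = (T.map (lft F X)).map (UAlg.mk F X) := (map_lft T).symm
    rw [h1]
    exact isUnit_of_full _ hT

end regular

end AlgRank

open AlgRank

section M07
variable (F : Type) [Field F] (X : ℕ → Type) [∀ j, Fintype (X j)] [∀ j, DecidableEq (X j)]
  [∀ j, Nonempty (X j)]

theorem exists_algRank : ∃ ρ : MatRank (UAlg F X), ρ.Regular ∧
    ∀ {m n : Type} [Fintype m] [Fintype n] (A : Matrix m n (Seq F X)),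
      ρ.rk (A.map (UAlg.mk F X)) =
        omLim fun j => ((flat A j).rank : ℝ) / Fintype.card (X j) :=
  ⟨algRank F X, algRank_regular, fun A => algRank_rk A⟩

theorem alg_zero_divisor (f : UAlg F X) (hf : ¬ IsUnit f) :
    ∃ e : UAlg F X, e * f = 0 ∧ algC1 F X e * algC2 F X e ≠ 0 := by
  classical
  obtain ⟨a, rfl⟩ := UAlg.mk_surjective f
  set A : Matrix Unit Unit (Seq F X) := Matrix.of fun _ _ => a with hA
  have hr : rkS A < 1 := by
    refine lt_of_le_of_ne ?_ ?_
    · have h1 := (tendsto_rkS A)
      refine le_of_tendsto h1 (Eventually.of_forall fun j => ?_)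
      rw [div_le_iff₀ (card_pos j), one_mul]
      have h := Matrix.rank_le_card_width (flat A j)
      rw [Fintype.card_prod, Fintype.card_unit, one_mul] at h
      exact_mod_cast h
    · intro h
      apply hf
      obtain ⟨⟨T, Y, h1, h2⟩, h3⟩ := isUnit_of_full A (by rw [h]; simp)
      have h4 : T = A.map (UAlg.mk F X) := h3
      subst h4
      refine ⟨⟨UAlg.mk F X a, Y () (), ?_, ?_⟩, rfl⟩
      · have := congrFun (congrFun h1 ()) ()
        simpa [Matrix.mul_apply, hA] using this
      · have := congrFun (congrFun h2 ()) ()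
        simpa [Matrix.mul_apply, hA] using this
  choose Y hY using fun j => exists_ginv (a j)
  set e : Seq F X := fun j => 1 - a j * Y j with he
  refine ⟨UAlg.mk F X e, ?_, ?_⟩
  · rw [← map_mul]
    have : e * a = 0 := by
      funext j
      simp only [he, Pi.mul_apply, Pi.zero_apply]
      rw [Matrix.sub_mul, (hY j).1, Matrix.one_mul, sub_self]
    rw [this, map_zero]
  · rw [algC1_mk, algC2_mk, ← map_mul, Ne, UAlg.mk_eq_zero]
    intro hnull
    set c : ℝ := (1 - rkS A) / 2 with hc
    have hc0 : 0 < c := by linarith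
    have h1 := hnull (c ^ 2 / 2) (by positivity)
    have h2 := (tendsto_rkS A).eventually (gt_mem_nhds (show rkS A < rkS A + c by linarith))
    obtain ⟨j, hj1, hj2⟩ := (h1.and h2).exists
    have hN := card_pos (X := X) j
    rw [div_lt_iff₀ hN] at hj2
    have h3 : ((a j).rank : ℝ) ≤ (flat A j).rank := by
      exact_mod_cast rank_entry_le A () () j
    have h4 : ((e j).rank : ℝ) + (a j).rank = Fintype.card (X j) := by
      exact_mod_cast (hY j).2.1
    have h5 : c * Fintype.card (X j) ≤ (e j).rank := by
      have : c * Fintype.card (X j) = Fintype.card (X j) - (rkS A + c) * Fintype.card (X j) := by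
        rw [hc]; ring
      linarith
    have h6 : (seqC1 F X e * seqC2 F X e) j = e j ⊗ₖ e j := by
      change (e j ⊗ₖ (1 : Matrix (X j) (X j) F)) * ((1 : Matrix (X j) (X j) F) ⊗ₖ e j) = _
      rw [← Matrix.mul_kronecker_mul, Matrix.mul_one, Matrix.one_mul]
    have h7 : ((e j).rank : ℝ) * (e j).rank ≤ (e j ⊗ₖ e j).rank := by
      exact_mod_cast rank_sq_le_rank_kronecker (e j)
    rw [h6, Fintype.card_prod] at hj1
    push_cast at hj1
    have h8 : (c * Fintype.card (X j)) * (c * Fintype.card (X j)) ≤
        (e j).rank * (e j).rank := mul_le_mul h5 h5 (by positivity) (by positivity)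
    have h9 : 0 < (c * Fintype.card (X j)) * (c * Fintype.card (X j)) := by positivity
    nlinarith

/-- If `α` is not in the image of `F`, scalars `α` are far from matrices over `F`. -/
theorem card_le_two_rank {F F' : Type*} [Field F] [Field F'] (φ : F →+* F') {m : Type*}
    [Fintype m] [DecidableEq m] (w : Matrix m m F) (α : F') (hα : ∀ a, φ a ≠ α) :
    Fintype.card m ≤ 2 * (w.map φ - α • (1 : Matrix m m F')).rank := by
  classical
  set M : Matrix m m F' := w.map φ - α • (1 : Matrix m m F') with hM
  -- rows spanning the row space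
  obtain ⟨b, hb1, hb2, hb3⟩ := exists_linearIndependent F' (Set.range M.row)
  have hbf : b.Finite := (Set.finite_range _).subset hb1
  have := hbf.fintype
  have hcard : Fintype.card b = M.rank := by
    rw [Matrix.rank_eq_finrank_span_row, ← hb2]
    have h := finrank_span_eq_card hb3
    rw [Subtype.range_coe] at h
    exact h.symm
  choose I hI using fun x : b => hb1 x.2
  -- the kernel criterion
  have hker : ∀ v : m → F', (∀ x : b, (M *ᵥ v) (I x) = 0) → M *ᵥ v = 0 := by
    intro v hv
    ext i
    have h1 : M.row i ∈ Submodule.span F' b := by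
      rw [hb2]; exact Submodule.subset_span ⟨i, rfl⟩
    have h2 : ∀ r ∈ Submodule.span F' b, r ⬝ᵥ v = 0 := by
      intro r hr
      induction hr using Submodule.span_induction with
      | mem r hr =>
        have h3 := hv ⟨r, hr⟩
        have h4 : M.row (I ⟨r, hr⟩) = r := hI ⟨r, hr⟩
        rw [← h4]
        exact h3
      | zero => exact zero_dotProduct v
      | add r s _ _ h3 h4 => rw [add_dotProduct, h3, h4, add_zero]
      | smul c r _ h3 => rw [smul_dotProduct, h3, smul_zero]
    exact h2 _ h1
  let L : (m → F) →ₗ[F] ((b ⊕ b) → F) :=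
    { toFun := fun v => Sum.elim (fun x => v (I x)) (fun x => (w *ᵥ v) (I x))
      map_add' := by
        intro v v'
        ext i
        rcases i with i | i <;> simp [Matrix.mulVec_add]
      map_smul' := by
        intro c v
        ext i
        rcases i with i | i <;> simp [Matrix.mulVec_smul] }
  have hmul : ∀ v : m → F, ∀ i, (M *ᵥ (fun k => φ (v k))) i = φ ((w *ᵥ v) i) - α * φ (v i) := by
    intro v i
    rw [hM, Matrix.sub_mulVec, Pi.sub_apply, Matrix.smul_mulVec, Matrix.one_mulVec, Pi.smul_apply,
      smul_eq_mul]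
    congr 1
    simp [Matrix.mulVec, dotProduct, map_sum]
  have hL : Function.Injective L := by
    rw [injective_iff_map_eq_zero]
    intro v hv
    have h1 : M *ᵥ (fun k => φ (v k)) = 0 := by
      apply hker
      intro x
      rw [hmul]
      have h2 : v (I x) = 0 := congrFun hv (Sum.inl x)
      have h3 : (w *ᵥ v) (I x) = 0 := congrFun hv (Sum.inr x)
      rw [h2, h3]
      simp
    ext i
    by_contra hi
    rw [Pi.zero_apply] at hi
    have h2 := congrFun h1 i
    rw [hmul, Pi.zero_apply, sub_eq_zero] at h2
    apply hα ((w *ᵥ v) i / v i)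
    rw [map_div₀, h2, mul_div_cancel_right₀]
    exact (map_ne_zero φ).2 hi
  have h5 := LinearMap.finrank_le_finrank_of_injective hL
  rw [Module.finrank_fintype_fun_eq_card, Module.finrank_fintype_fun_eq_card, Fintype.card_sum,
    hcard] at h5
  omega

theorem alg_scalar {F' : Type} [Field F'] (φ : F →+* F') (a : UAlg F X) (α : F')
    (h : algMap X φ a = algebraMap F' (UAlg F' X) α) :
    ∃ α₀ : F, φ α₀ = α ∧ a = algebraMap F (UAlg F X) α₀ := by
  classical
  by_cases hα : ∃ α₀, φ α₀ = α
  · obtain ⟨α₀, rfl⟩ := hα
    refine ⟨α₀, rfl, ?_⟩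
    apply algMap_injective X φ
    rw [h, algebraMap_UAlg, algebraMap_UAlg, algMap_mk]
    congr 1
    funext j
    rw [seqMap_apply]
    change algebraMap F' (Matrix (X j) (X j) F') (φ α₀) =
      (algebraMap F (Matrix (X j) (X j) F) α₀).map φ
    rw [Algebra.algebraMap_eq_smul_one, Algebra.algebraMap_eq_smul_one]
    ext x y
    simp [Matrix.one_apply, apply_ite φ]
  · exfalso
    push Not at hα
    obtain ⟨w, rfl⟩ := UAlg.mk_surjective a
    rw [algMap_mk, algebraMap_UAlg, UAlg.mk_eq_mk] at h
    have h1 := h (1 / 4) (by norm_num)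
    obtain ⟨j, hj⟩ := h1.exists
    have h2 : (seqMap X φ w - algebraMap F' (Seq F' X) α) j =
        (w j).map φ - α • (1 : Matrix (X j) (X j) F') := by
      rw [Pi.sub_apply, seqMap_apply]
      congr 1
      change algebraMap F' (Matrix (X j) (X j) F') α = _
      rw [Algebra.algebraMap_eq_smul_one]
    rw [h2] at hj
    have h3 : (Fintype.card (X j) : ℝ) ≤ 2 * ((w j).map φ - α • (1 : Matrix (X j) (X j) F')).rank := by
      exact_mod_cast card_le_two_rank φ (w j) α hα
    have h4 := card_pos (X := X) j
    linarith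

end M07

end Pool.Agent.H4.Atiyah
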