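import Pool.Agent.H4.Atiyah.Copies

/-!
# The rank function of the analytic ultraproduct
-/

set_option autoImplicit false

open Filter Topology
open scoped Matrix

namespace Pool.Agent.H4.Atiyah

/-! ### Singular values -/

section svd

variable {l m n : Type*} [Fintype l] [Fintype m] [Fintype n]

theorem nrm_sq_eq_dot (x : l → ℂ) : ((nrm x ^ 2 : ℝ) : ℂ) = x ⬝ᵥ star x := by
  rw [nrm_sq, dotProduct]
  push_cast
  apply Finset.sum_congr rfl
  intro i _
  simp only [Pi.star_apply, Complex.star_def, Complex.mul_conj, Complex.normSq_eq_norm_sq]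
  push_cast
  rfl

/-- Singular value decomposition. -/
theorem exists_svd (M : Matrix m n ℂ) : ∃ (Φ : (m → ℂ) ≃ₗ[ℂ] (m → ℂ)) (lam : m → ℝ),
    (∀ i, 0 ≤ lam i) ∧ (∀ c, nrm (Φ c) ^ 2 = ∑ i, ‖c i‖ ^ 2) ∧
    (∀ c, nrm (Matrix.vecMul (Φ c) M) ^ 2 = ∑ i, lam i * ‖c i‖ ^ 2) := by
  classical
  have hH : ((M * Mᴴ)ᵀ).IsHermitian := (Matrix.isHermitian_mul_conjTranspose_self M).transpose
  let b := hH.eigenvectorBasis
  let e : (m → ℂ) ≃ₗ[ℂ] EuclideanSpace ℂ m := (WithLp.linearEquiv 2 ℂ (m → ℂ)).symm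
  let Φ : (m → ℂ) ≃ₗ[ℂ] (m → ℂ) := (e.trans b.repr.symm.toLinearEquiv).trans e.symm
  have hΦ : ∀ c, WithLp.toLp 2 (Φ c) = b.repr.symm (WithLp.toLp 2 c) := fun c => rfl
  have hin : ∀ c d : m → ℂ, (Φ d) ⬝ᵥ star (Φ c) = d ⬝ᵥ star c := by
    intro c d
    have h1 := b.repr.symm.inner_map_map (WithLp.toLp 2 c) (WithLp.toLp 2 d)
    rw [← hΦ, ← hΦ, EuclideanSpace.inner_eq_star_dotProduct,
      EuclideanSpace.inner_eq_star_dotProduct] at h1
    exact h1
  have hsum : ∀ c : m → ℂ, Φ c = ∑ i, c i • (WithLp.ofLp (b i) : m → ℂ) := by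
    intro c
    have h1 : b.repr.symm (WithLp.toLp 2 c) = ∑ i, c i • b i := by
      rw [b.sum_repr_symm]
    have h2 : Φ c = WithLp.ofLp (b.repr.symm (WithLp.toLp 2 c)) := rfl
    rw [h2, h1, WithLp.ofLp_sum]
    rfl
  have heig : ∀ c : m → ℂ, Matrix.vecMul (Φ c) (M * Mᴴ) = Φ fun i => hH.eigenvalues i * c i := by
    intro c
    rw [← Matrix.mulVec_transpose, hsum, hsum, Matrix.mulVec_sum]
    apply Finset.sum_congr rfl
    intro i _
    rw [Matrix.mulVec_smul, hH.mulVec_eigenvectorBasis i]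
    ext k
    simp only [Pi.smul_apply, smul_eq_mul, Complex.real_smul]
    ring
  have hmul : ∀ c, nrm (Matrix.vecMul (Φ c) M) ^ 2 = ∑ i, hH.eigenvalues i * ‖c i‖ ^ 2 := by
    intro c
    have h1 : ((nrm (Matrix.vecMul (Φ c) M) ^ 2 : ℝ) : ℂ) =
        ((∑ i, hH.eigenvalues i * ‖c i‖ ^ 2 : ℝ) : ℂ) := by
      rw [nrm_sq_eq_dot, Matrix.star_vecMul, Matrix.dotProduct_mulVec, Matrix.vecMul_vecMul, heig, hin,
        dotProduct]
      push_cast
      apply Finset.sum_congr rfl
      intro i _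
      simp only [Pi.star_apply, Complex.star_def, mul_assoc, Complex.mul_conj,
        Complex.normSq_eq_norm_sq]
      push_cast
      rfl
    exact_mod_cast h1
  refine ⟨Φ, hH.eigenvalues, ?_, ?_, hmul⟩
  · intro i
    have := hmul (Pi.single i 1)
    rw [Finset.sum_eq_single i] at this
    · simp only [Pi.single_eq_same, norm_one, one_pow, mul_one] at this
      rw [← this]
      positivity
    · intro j _ hj
      rw [Pi.single_eq_of_ne hj]
      simp
    · simp
  · intro c
    have h1 : ((nrm (Φ c) ^ 2 : ℝ) : ℂ) = ((nrm c ^ 2 : ℝ) : ℂ) := by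
      rw [nrm_sq_eq_dot, nrm_sq_eq_dot, hin]
    have h2 : nrm (Φ c) ^ 2 = nrm c ^ 2 := by exact_mod_cast h1
    rw [h2, nrm_sq]

/-- vectors supported on `P` -/
def suppOn (P : m → Prop) : Submodule ℂ (m → ℂ) where
  carrier := {c | ∀ i, ¬ P i → c i = 0}
  add_mem' := by
    intro a b ha hb i hi
    rw [Pi.add_apply, ha i hi, hb i hi, add_zero]
  zero_mem' := fun _ _ => rfl
  smul_mem' := by
    intro c x hx i hi
    rw [Pi.smul_apply, hx i hi, smul_zero]

theorem finrank_suppOn (P : m → Prop) [DecidablePred P] :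
    Module.finrank ℂ (suppOn P) = Fintype.card {i // P i} := by
  let e : suppOn P ≃ₗ[ℂ] ({i // P i} → ℂ) :=
    { toFun := fun c i => c.1 i.1
      map_add' := fun _ _ => rfl
      map_smul' := fun _ _ => rfl
      invFun := fun y => ⟨fun i => if h : P i then y ⟨i, h⟩ else 0, fun i hi => by simp [hi]⟩
      left_inv := by
        rintro ⟨c, hc⟩
        ext i
        by_cases h : P i
        · simp [h]
        · simp [h, hc i h]
      right_inv := by
        intro y
        ext ⟨i, hi⟩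
        simp [hi] }
  rw [e.finrank_eq]
  simp

/-- The two spectral subspaces. -/
theorem exists_split (M : Matrix m n ℂ) {ε : ℝ} (hε : 0 ≤ ε) :
    ∃ V W : Submodule ℂ (m → ℂ), Module.finrank ℂ V + Module.finrank ℂ W = Fintype.card m ∧
      (∀ x ∈ V, nrm (Matrix.vecMul x M) ≤ ε * nrm x) ∧
      (∀ x ∈ W, x ≠ 0 → ε * nrm x < nrm (Matrix.vecMul x M)) := by
  classical
  obtain ⟨Φ, lam, h0, h1, h2⟩ := exists_svd M
  refine ⟨(suppOn fun i => ¬ ε ^ 2 < lam i).map (Φ : (m → ℂ) →ₗ[ℂ] (m → ℂ)),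
    (suppOn fun i => ε ^ 2 < lam i).map (Φ : (m → ℂ) →ₗ[ℂ] (m → ℂ)), ?_, ?_, ?_⟩
  · rw [LinearEquiv.finrank_map_eq, LinearEquiv.finrank_map_eq, finrank_suppOn, finrank_suppOn]
    have h3 := Fintype.card_subtype_compl fun i => ε ^ 2 < lam i
    have h4 := Fintype.card_subtype_le fun i => ε ^ 2 < lam i
    omega
  · rintro _ ⟨c, hc, rfl⟩
    change nrm (Matrix.vecMul (Φ c) M) ≤ ε * nrm (Φ c)
    refine (pow_le_pow_iff_left₀ (nrm_nonneg _) (mul_nonneg hε (nrm_nonneg _)) two_ne_zero).1 ?_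
    rw [mul_pow, h1, h2, Finset.mul_sum]
    apply Finset.sum_le_sum
    intro i _
    by_cases hi : ε ^ 2 < lam i
    · rw [hc i (by simpa using hi)]
      simp
    · exact mul_le_mul_of_nonneg_right (not_lt.1 hi) (by positivity)
  · rintro _ ⟨c, hc, rfl⟩ hne
    change ε * nrm (Φ c) < nrm (Matrix.vecMul (Φ c) M)
    refine (pow_lt_pow_iff_left₀ (mul_nonneg hε (nrm_nonneg _)) (nrm_nonneg _) two_ne_zero).1 ?_
    rw [mul_pow, h1, h2, Finset.mul_sum]
    have hc0 : c ≠ 0 := by
      rintro rfl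
      exact hne (map_zero _)
    obtain ⟨i, hi⟩ := Function.ne_iff.1 hc0
    have hi' : ε ^ 2 < lam i := by
      by_contra h
      exact hi (hc i h)
    apply Finset.sum_lt_sum
    · intro k _
      by_cases hk : ε ^ 2 < lam k
      · exact mul_le_mul_of_nonneg_right hk.le (by positivity)
      · rw [hc k hk]
        simp
    · refine ⟨i, Finset.mem_univ _, ?_⟩
      have : 0 < ‖c i‖ := norm_pos_iff.2 hi
      exact mul_lt_mul_of_pos_right hi' (by positivity)

theorem finrank_add_smallDim_le (M : Matrix m n ℂ) {ε : ℝ} (W : Submodule ℂ (m → ℂ))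
    (hW : ∀ x ∈ W, x ≠ 0 → ε * nrm x < nrm (Matrix.vecMul x M)) :
    Module.finrank ℂ W + smallDim M ε ≤ Fintype.card m := by
  obtain ⟨V, hV, hV'⟩ := exists_smallDim M ε
  have h1 : W ⊓ V = ⊥ := by
    rw [eq_bot_iff]
    rintro x ⟨hx1, hx2⟩
    by_contra hx
    have hx0 : x ≠ 0 := fun h => hx ((Submodule.mem_bot ℂ).2 h)
    exact absurd (hV' x hx2) (not_le.2 (hW x hx1 hx0))
  have h2 := Submodule.finrank_sup_add_finrank_inf_eq W V
  rw [h1, finrank_bot, add_zero] at h2
  rw [← hV, ← h2]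
  simpa using Submodule.finrank_le (W ⊔ V)

theorem exists_large (M : Matrix m n ℂ) {ε : ℝ} (hε : 0 ≤ ε) :
    ∃ W : Submodule ℂ (m → ℂ), Module.finrank ℂ W + smallDim M ε = Fintype.card m ∧
      (∀ x ∈ W, x ≠ 0 → ε * nrm x < nrm (Matrix.vecMul x M)) := by
  obtain ⟨V, W, h1, h2, h3⟩ := exists_split M hε
  refine ⟨W, ?_, h3⟩
  have h4 := finrank_add_smallDim_le M W h3
  have h5 := le_smallDim V h2
  omega

theorem smallDim_mono (M : Matrix m n ℂ) {ε δ : ℝ} (h : ε ≤ δ) : smallDim M ε ≤ smallDim M δ := by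
  obtain ⟨V, hV, hV'⟩ := exists_smallDim M ε
  rw [← hV]
  exact le_smallDim V fun x hx => (hV' x hx).trans (mul_le_mul_of_nonneg_right h (nrm_nonneg x))

theorem finrank_inf_ge (W U : Submodule ℂ (m → ℂ)) :
    Module.finrank ℂ W + Module.finrank ℂ U ≤
      Module.finrank ℂ ↥(W ⊓ U) + Fintype.card m := by
  have h1 := Submodule.finrank_sup_add_finrank_inf_eq W U
  have h2 : Module.finrank ℂ ↥(W ⊔ U) ≤ Fintype.card m := by
    simpa using Submodule.finrank_le (W ⊔ U)
  omega

theorem finrank_comap_ge (M : Matrix l m ℂ) (W : Submodule ℂ (m → ℂ)) :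
    Fintype.card l + Module.finrank ℂ W ≤
        Module.finrank ℂ ↥(W.comap M.vecMulLinear) + Fintype.card m := by
  have hq := LinearMap.finrank_range_add_finrank_ker (W.mkQ.comp M.vecMulLinear)
  have hker : LinearMap.ker (W.mkQ.comp M.vecMulLinear) = W.comap M.vecMulLinear := by
    rw [LinearMap.ker_comp, Submodule.ker_mkQ]
  rw [hker] at hq
  have hr : Module.finrank ℂ (LinearMap.range (W.mkQ.comp M.vecMulLinear)) ≤
      Module.finrank ℂ ((m → ℂ) ⧸ W) := Submodule.finrank_le _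
  have hw := Submodule.finrank_quotient_add_finrank W
  simp only [Module.finrank_fintype_fun_eq_card] at hq hw
  omega

/-- number of singular values larger than `ε` -/
noncomputable def big (M : Matrix m n ℂ) (ε : ℝ) : ℝ := (Fintype.card m : ℝ) - smallDim M ε

theorem big_nonneg (M : Matrix m n ℂ) (ε : ℝ) : 0 ≤ big M ε := by
  unfold big
  have : (smallDim M ε : ℝ) ≤ Fintype.card m := by exact_mod_cast smallDim_le M ε
  linarith

theorem big_le (M : Matrix m n ℂ) (ε : ℝ) : big M ε ≤ Fintype.card m := by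
  unfold big
  have : (0 : ℝ) ≤ smallDim M ε := Nat.cast_nonneg _
  linarith

theorem big_anti (M : Matrix m n ℂ) {ε δ : ℝ} (h : ε ≤ δ) : big M δ ≤ big M ε := by
  unfold big
  have : (smallDim M ε : ℝ) ≤ smallDim M δ := by exact_mod_cast smallDim_mono M h
  linarith

theorem exists_big (M : Matrix m n ℂ) {ε : ℝ} (hε : 0 ≤ ε) :
    ∃ W : Submodule ℂ (m → ℂ), (Module.finrank ℂ W : ℝ) = big M ε ∧
      (∀ x ∈ W, x ≠ 0 → ε * nrm x < nrm (Matrix.vecMul x M)) := by
  obtain ⟨W, h1, h2⟩ := exists_large M hε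
  refine ⟨W, ?_, h2⟩
  unfold big
  rw [← h1]
  push_cast
  ring

theorem le_big (M : Matrix m n ℂ) {ε : ℝ} (W : Submodule ℂ (m → ℂ))
    (hW : ∀ x ∈ W, x ≠ 0 → ε * nrm x < nrm (Matrix.vecMul x M)) :
    (Module.finrank ℂ W : ℝ) ≤ big M ε := by
  unfold big
  have h := finrank_add_smallDim_le M W hW
  have : (Module.finrank ℂ W : ℝ) + smallDim M ε ≤ Fintype.card m := by exact_mod_cast h
  linarith

theorem big_mul_right {M : Matrix l m ℂ} (N : Matrix m n ℂ) {s C ε : ℝ} (hC : 0 < C)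
    (hε : 0 ≤ ε) (h : SmallOn M s C) : big (M * N) ε ≤ big N (ε / C) + s := by
  obtain ⟨U, hU, hU'⟩ := h
  obtain ⟨W, hW, hW'⟩ := exists_big (M * N) hε
  have h1 := finrank_inf_ge W U
  have key : ∀ x ∈ W ⊓ U, x ≠ 0 →
      ε * nrm x < nrm (Matrix.vecMul (Matrix.vecMul x M) N) := by
    intro x hx hx0
    rw [Matrix.vecMul_vecMul]
    exact hW' x hx.1 hx0
  have hinj : Function.Injective (M.vecMulLinear.domRestrict (W ⊓ U)) := by
    rw [injective_iff_map_eq_zero]
    rintro ⟨x, hx⟩ h0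
    by_contra hne
    have hx0 : x ≠ 0 := fun h => hne (Subtype.ext h)
    have h2 := key x hx hx0
    have h3 : Matrix.vecMul x M = 0 := h0
    rw [h3, Matrix.zero_vecMul, nrm_zero] at h2
    exact absurd h2 (not_lt.2 (mul_nonneg hε (nrm_nonneg _)))
  have h2 := LinearMap.finrank_range_of_inj hinj
  have h3 := le_big N (ε := ε / C) (LinearMap.range (M.vecMulLinear.domRestrict (W ⊓ U))) (by
    rintro _ ⟨⟨x, hx⟩, rfl⟩ hne
    change ε / C * nrm (Matrix.vecMul x M) < nrm (Matrix.vecMul (Matrix.vecMul x M) N)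
    have hx0 : x ≠ 0 := by
      rintro rfl
      apply hne
      change Matrix.vecMul 0 M = 0
      simp
    refine lt_of_le_of_lt ?_ (key x hx hx0)
    rw [div_mul_eq_mul_div, div_le_iff₀ hC, mul_assoc]
    exact mul_le_mul_of_nonneg_left ((hU' x hx.2).trans (le_of_eq (mul_comm _ _))) hε)
  rw [h2] at h3
  have h4 : (Module.finrank ℂ W : ℝ) + Module.finrank ℂ U ≤
      Module.finrank ℂ ↥(W ⊓ U) + Fintype.card l := by exact_mod_cast h1
  linarith

theorem big_mul_left (M : Matrix l m ℂ) {N : Matrix m n ℂ} {s C ε : ℝ} (hC : 0 < C)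
    (hε : 0 ≤ ε) (h : SmallOn N s C) : big (M * N) ε ≤ big M (ε / C) + s := by
  obtain ⟨U, hU, hU'⟩ := h
  obtain ⟨W, hW, hW'⟩ := exists_big (M * N) hε
  have h1 := finrank_inf_ge W (U.comap M.vecMulLinear)
  have h2 := finrank_comap_ge M U
  have h3 := le_big M (ε := ε / C) (W ⊓ U.comap M.vecMulLinear) (by
    rintro x ⟨hx1, hx2⟩ hx0
    have h5 := hW' x hx1 hx0
    rw [← Matrix.vecMul_vecMul] at h5
    have h6 : nrm (Matrix.vecMul (Matrix.vecMul x M) N) ≤ C * nrm (Matrix.vecMul x M) :=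
      hU' _ hx2
    rw [div_mul_eq_mul_div, div_lt_iff₀ hC]
    linarith)
  have h4 : (Module.finrank ℂ W : ℝ) + Module.finrank ℂ ↥(U.comap M.vecMulLinear) ≤
      Module.finrank ℂ ↥(W ⊓ U.comap M.vecMulLinear) + Fintype.card l := by exact_mod_cast h1
  have h5 : (Fintype.card l : ℝ) + Module.finrank ℂ U ≤
        Module.finrank ℂ ↥(U.comap M.vecMulLinear) + Fintype.card m := by exact_mod_cast h2
  linarith

theorem big_add (M M' : Matrix m n ℂ) {s ε : ℝ} (hε : 0 ≤ ε)
    (h : SmallOn (M - M') s (ε / 2)) : big M ε ≤ big M' (ε / 2) + s := by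
  obtain ⟨U, hU, hU'⟩ := h
  obtain ⟨W, hW, hW'⟩ := exists_big M hε
  have h1 := finrank_inf_ge W U
  have h3 := le_big M' (ε := ε / 2) (W ⊓ U) (by
    rintro x ⟨hx1, hx2⟩ hx0
    have h5 := hW' x hx1 hx0
    have h6 := hU' x hx2
    have h7 : Matrix.vecMul x M = Matrix.vecMul x (M - M') + Matrix.vecMul x M' := by
      rw [← Matrix.vecMul_add, sub_add_cancel]
    rw [h7] at h5
    have h8 := nrm_add_le (Matrix.vecMul x (M - M')) (Matrix.vecMul x M')
    linarith)
  have h4 : (Module.finrank ℂ W : ℝ) + Module.finrank ℂ U ≤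
      Module.finrank ℂ ↥(W ⊓ U) + Fintype.card m := by exact_mod_cast h1
  linarith

theorem big_one [DecidableEq m] {ε : ℝ} (hε : ε < 1) :
    big (1 : Matrix m m ℂ) ε = Fintype.card m := by
  refine le_antisymm (big_le _ _) ?_
  have h := le_big (1 : Matrix m m ℂ) (ε := ε) ⊤ (by
    intro x _ hx0
    rw [Matrix.vecMul_one]
    have h1 : 0 < nrm x := lt_of_le_of_ne (nrm_nonneg x) fun h => hx0 (nrm_eq_zero.1 h.symm)
    nlinarith)
  simpa using h

/-- Small matrices. -/
theorem smallOn_big (M : Matrix m n ℂ) (ε : ℝ) : SmallOn M (big M ε) ε := by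
  obtain ⟨V, hV, hV'⟩ := exists_smallDim M ε
  refine ⟨V, ?_, hV'⟩
  unfold big
  rw [hV]
  linarith

/-- Approximate inverse of a square matrix. -/
theorem exists_pinv (M : Matrix m m ℂ) [DecidableEq m] : ∃ Y : Matrix m m ℂ, ∀ ε > 0,
    SmallOn Y (smallDim M ε) (1 / ε) ∧ SmallOn (1 - M * Y) (smallDim M ε) 0 ∧
      SmallOn (1 - Y * M) (smallDim M ε) 0 := by
  obtain ⟨Φ, lam, h0, h1, h2⟩ := exists_svd M
  let W : ℝ → Submodule ℂ (m → ℂ) := fun ε =>
    (suppOn fun i => ε ^ 2 < lam i).map (Φ : (m → ℂ) →ₗ[ℂ] (m → ℂ))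
  have hWmono : ∀ ε > 0, W ε ≤ W 0 := by
    rintro ε hε _ ⟨c, hc, rfl⟩
    refine ⟨c, fun i hi => hc i fun h => hi ?_, rfl⟩
    have h3 : (0 : ℝ) < ε ^ 2 := by positivity
    have h4 : (0 : ℝ) ^ 2 = 0 := by norm_num
    rw [h4]
    exact h3.trans h
  have hW : ∀ ε ≥ 0, ∀ x ∈ W ε, x ≠ 0 → ε * nrm x < nrm (Matrix.vecMul x M) := by
    rintro ε hε _ ⟨c, hc, rfl⟩ hne
    change ε * nrm (Φ c) < nrm (Matrix.vecMul (Φ c) M)
    refine (pow_lt_pow_iff_left₀ (mul_nonneg hε (nrm_nonneg _)) (nrm_nonneg _) two_ne_zero).1 ?_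
    rw [mul_pow, h1, h2, Finset.mul_sum]
    have hc0 : c ≠ 0 := by
      rintro rfl
      exact hne (map_zero _)
    obtain ⟨i, hi⟩ := Function.ne_iff.1 hc0
    have hi' : ε ^ 2 < lam i := by
      by_contra h
      exact hi (hc i h)
    apply Finset.sum_lt_sum
    · intro k _
      by_cases hk : ε ^ 2 < lam k
      · exact mul_le_mul_of_nonneg_right hk.le (by positivity)
      · rw [hc k hk]
        simp
    · refine ⟨i, Finset.mem_univ _, ?_⟩
      have : 0 < ‖c i‖ := norm_pos_iff.2 hi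
      exact mul_lt_mul_of_pos_right hi' (by positivity)
  have hV : ∀ ε ≥ 0, (Fintype.card m : ℝ) ≤ Module.finrank ℂ (W ε) + smallDim M ε := by
    intro ε hε
    classical
    have h3 : Module.finrank ℂ ((suppOn fun i => ¬ ε ^ 2 < lam i).map
        (Φ : (m → ℂ) →ₗ[ℂ] (m → ℂ))) ≤ smallDim M ε := by
      apply le_smallDim
      rintro _ ⟨c, hc, rfl⟩
      change nrm (Matrix.vecMul (Φ c) M) ≤ ε * nrm (Φ c)
      refine (pow_le_pow_iff_left₀ (nrm_nonneg _) (mul_nonneg hε (nrm_nonneg _)) two_ne_zero).1 ?_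
      rw [mul_pow, h1, h2, Finset.mul_sum]
      apply Finset.sum_le_sum
      intro i _
      by_cases hi : ε ^ 2 < lam i
      · rw [hc i (by simpa using hi)]
        simp
      · exact mul_le_mul_of_nonneg_right (not_lt.1 hi) (by positivity)
    have h4 : Module.finrank ℂ (W ε) = Fintype.card {i // ε ^ 2 < lam i} := by
      change Module.finrank ℂ ((suppOn fun i => ε ^ 2 < lam i).map
        (Φ : (m → ℂ) →ₗ[ℂ] (m → ℂ))) = _
      rw [LinearEquiv.finrank_map_eq, finrank_suppOn]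
    rw [LinearEquiv.finrank_map_eq, finrank_suppOn] at h3
    have h5 := Fintype.card_subtype_compl fun i => ε ^ 2 < lam i
    have h6 := Fintype.card_subtype_le fun i => ε ^ 2 < lam i
    have h7 : Fintype.card m ≤ Module.finrank ℂ (W ε) + smallDim M ε := by omega
    exact_mod_cast h7
  -- the left inverse
  have hker : LinearMap.ker (M.vecMulLinear.domRestrict (W 0)) = ⊥ := by
    rw [LinearMap.ker_eq_bot']
    rintro ⟨x, hx⟩ h
    by_contra hne
    have hx0 : x ≠ 0 := fun h => hne (Subtype.ext h)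
    have h3 := hW 0 le_rfl x hx hx0
    have h4 : Matrix.vecMul x M = 0 := h
    rw [h4, nrm_zero, zero_mul] at h3
    exact lt_irrefl _ h3
  obtain ⟨g, hg⟩ := LinearMap.exists_leftInverse_of_injective _ hker
  let G : (m → ℂ) →ₗ[ℂ] (m → ℂ) := (W 0).subtype.comp g
  have hG : ∀ x ∈ W 0, G (Matrix.vecMul x M) = x := by
    intro x hx
    have := LinearMap.congr_fun hg ⟨x, hx⟩
    exact congrArg Subtype.val this
  let Y : Matrix m m ℂ := (LinearMap.toMatrix' G)ᵀ
  have hY : ∀ x, Matrix.vecMul x Y = G x := by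
    intro x
    change Matrix.vecMul x (LinearMap.toMatrix' G)ᵀ = G x
    rw [Matrix.vecMul_transpose, LinearMap.toMatrix'_mulVec]
  have hMW : ∀ ε ≥ 0, Module.finrank ℂ (LinearMap.range (M.vecMulLinear.domRestrict (W ε))) =
      Module.finrank ℂ (W ε) := by
    intro ε hε
    apply LinearMap.finrank_range_of_inj
    rw [injective_iff_map_eq_zero]
    rintro ⟨x, hx⟩ h
    by_contra hne
    have hx0 : x ≠ 0 := fun h => hne (Subtype.ext h)
    have h3 := hW ε hε x hx hx0
    have h4 : Matrix.vecMul x M = 0 := h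
    rw [h4, nrm_zero] at h3
    exact absurd h3 (not_lt.2 (mul_nonneg hε (nrm_nonneg _)))
  refine ⟨Y, fun ε hε => ⟨?_, ?_, ?_⟩⟩
  · refine ⟨LinearMap.range (M.vecMulLinear.domRestrict (W ε)), ?_, ?_⟩
    · rw [hMW ε hε.le]
      exact hV ε hε.le
    · rintro _ ⟨⟨x, hx⟩, rfl⟩
      change nrm (Matrix.vecMul (Matrix.vecMul x M) Y) ≤ 1 / ε * nrm (Matrix.vecMul x M)
      rw [hY, hG x (hWmono ε hε hx), one_div_mul_eq_div, le_div_iff₀ hε, mul_comm]
      by_cases hx0 : x = 0
      · rw [hx0]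
        simp
      · exact (hW ε hε.le x hx hx0).le
  · refine ⟨W ε, hV ε hε.le, ?_⟩
    intro x hx
    rw [Matrix.vecMul_sub, Matrix.vecMul_one, ← Matrix.vecMul_vecMul, hY,
      hG x (hWmono ε hε hx), sub_self, nrm_zero, zero_mul]
  · refine ⟨LinearMap.range (M.vecMulLinear.domRestrict (W ε)), ?_, ?_⟩
    · rw [hMW ε hε.le]
      exact hV ε hε.le
    · rintro _ ⟨⟨x, hx⟩, rfl⟩
      change nrm (Matrix.vecMul (Matrix.vecMul x M) (1 - Y * M)) ≤ 0 * nrm (Matrix.vecMul x M)
      rw [Matrix.vecMul_sub, Matrix.vecMul_one, ← Matrix.vecMul_vecMul _ Y M, hY,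
        hG x (hWmono ε hε hx), sub_self, nrm_zero, zero_mul]

end svd

/-! ### Blocks -/

section blk

variable {m n : Type*} [Fintype m] [Fintype n] [DecidableEq m] [DecidableEq n]
  {X : Type*} [Fintype X] [DecidableEq X]

/-- inclusion of a block -/
def inc (X : Type*) [DecidableEq X] (p : m) : Matrix X (m × X) ℂ :=
  Matrix.of fun a y => if y = (p, a) then 1 else 0

/-- projection onto a block -/
def prj (X : Type*) [DecidableEq X] (p : m) : Matrix (m × X) X ℂ :=
  Matrix.of fun y a => if y = (p, a) then 1 else 0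

theorem vecMul_inc (p : m) (x : X → ℂ) (y : m × X) :
    Matrix.vecMul x (inc X p) y = if y.1 = p then x y.2 else 0 := by
  obtain ⟨q, b⟩ := y
  simp only [Matrix.vecMul, dotProduct, inc, Matrix.of_apply, Prod.mk.injEq, mul_ite, mul_one,
    mul_zero]
  by_cases h : q = p
  · simp [h]
  · simp [h]

theorem vecMul_prj (p : m) (x : m × X → ℂ) (a : X) :
    Matrix.vecMul x (prj X p) a = x (p, a) := by
  simp [Matrix.vecMul, dotProduct, prj]

theorem smallOn_inc (p : m) : SmallOn (inc X p) 0 1 := by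
  refine ⟨⊤, by simp, fun x _ => ?_⟩
  rw [one_mul]
  refine (pow_le_pow_iff_left₀ (nrm_nonneg _) (nrm_nonneg _) two_ne_zero).1 ?_
  rw [nrm_sq, nrm_sq, Fintype.sum_prod_type, Finset.sum_eq_single p]
  · simp [vecMul_inc]
  · intro q _ hq
    simp [vecMul_inc, hq]
  · simp

theorem smallOn_prj (p : m) : SmallOn (prj X p) 0 1 := by
  refine ⟨⊤, by simp, fun x _ => ?_⟩
  rw [one_mul]
  refine (pow_le_pow_iff_left₀ (nrm_nonneg _) (nrm_nonneg _) two_ne_zero).1 ?_
  rw [nrm_sq, nrm_sq, Fintype.sum_prod_type]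
  simp only [vecMul_prj]
  exact Finset.single_le_sum (f := fun q => ∑ a, ‖x (q, a)‖ ^ 2)
    (fun q _ => Finset.sum_nonneg fun a _ => by positivity) (Finset.mem_univ p)

theorem inc_mul_prj (M : Matrix (m × X) (n × X) ℂ) (p : m) (q : n) (a b : X) :
    (inc X p * M * prj X q) a b = M (p, a) (q, b) := by
  simp [Matrix.mul_apply, inc, prj]

theorem sum_blocks (M : Matrix (m × X) (n × X) ℂ) :
    M = ∑ p : m, ∑ q : n, prj X p * (inc X p * M * prj X q) * inc X q := by
  ext ⟨p, a⟩ ⟨q, b⟩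
  simp only [Matrix.sum_apply]
  rw [Finset.sum_eq_single p, Finset.sum_eq_single q]
  · rw [Matrix.mul_apply, Finset.sum_eq_single b]
    · rw [Matrix.mul_apply, Finset.sum_eq_single a]
      · rw [inc_mul_prj]
        simp [prj, inc]
      · intro c _ hc
        simp [prj, hc.symm]
      · simp
    · intro c _ hc
      simp [inc, hc.symm]
    · simp
  · intro q' _ hq
    rw [Matrix.mul_apply]
    apply Finset.sum_eq_zero
    intro c _
    simp [inc, hq.symm]
  · simp
  · intro p' _ hp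
    apply Finset.sum_eq_zero
    intro q' _
    rw [Matrix.mul_apply]
    apply Finset.sum_eq_zero
    intro c _
    rw [Matrix.mul_apply, Finset.sum_eq_zero, zero_mul]
    intro d _
    simp [prj, hp.symm]
  · simp

theorem SmallOn.sum {ι κ l : Type*} [Fintype κ] [Fintype l] (S : Finset ι)
    (M : ι → Matrix κ l ℂ) (s C : ι → ℝ)
    (h : ∀ i ∈ S, SmallOn (M i) (s i) (C i)) : SmallOn (∑ i ∈ S, M i) (∑ i ∈ S, s i)
      (∑ i ∈ S, C i) := by
  classical
  induction S using Finset.induction_on with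
  | empty => simpa using SmallOn.zero 0 le_rfl
  | insert i S hi ih =>
    rw [Finset.sum_insert hi, Finset.sum_insert hi, Finset.sum_insert hi]
    exact (h i (Finset.mem_insert_self _ _)).add
      (ih fun k hk => h k (Finset.mem_insert_of_mem hk))

theorem SmallOn.block {M : Matrix (m × X) (n × X) ℂ} {s C : ℝ} (hC : 0 ≤ C) (h : SmallOn M s C)
    (p : m) (q : n) : SmallOn (Matrix.of fun a b => M (p, a) (q, b)) s C := by
  have h1 : (Matrix.of fun a b => M (p, a) (q, b)) = inc X p * M * prj X q := by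
    ext a b
    rw [inc_mul_prj]
    rfl
  rw [h1]
  have h2 := ((smallOn_inc (X := X) p).mul hC h).mul zero_le_one (smallOn_prj (X := X) q)
  exact h2.mono (by simp) (by simp)

theorem SmallOn.of_block {M : Matrix (m × X) (n × X) ℂ} {s C : ℝ} (hC : 0 ≤ C)
    (h : ∀ p q, SmallOn (Matrix.of fun a b => M (p, a) (q, b)) s C) :
    SmallOn M (Fintype.card m * Fintype.card n * s) (Fintype.card m * Fintype.card n * C) := by
  rw [sum_blocks M]
  have h1 : ∀ (p : m) (q : n), SmallOn (prj X p * (inc X p * M * prj X q) * inc X q) s C := by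
    intro p q
    have h2 := h p q
    have h3 : (Matrix.of fun a b => M (p, a) (q, b)) = inc X p * M * prj X q := by
      ext a b
      rw [inc_mul_prj]
      rfl
    rw [h3] at h2
    have h4 := ((smallOn_prj (X := X) p).mul hC h2).mul zero_le_one (smallOn_inc (X := X) q)
    exact h4.mono (by simp) (by simp)
  have h5 := SmallOn.sum (Finset.univ : Finset m)
    (fun p => ∑ q : n, prj X p * (inc X p * M * prj X q) * inc X q)
    (fun _ => ∑ _q : n, s) (fun _ => ∑ _q : n, C)
    (fun p _ => SmallOn.sum Finset.univ _ _ _ fun q _ => h1 p q)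
  refine h5.mono (le_of_eq ?_) (le_of_eq ?_) <;> simp [mul_assoc]

end blk

/-! ### The rank function -/

section rank

variable {X : ℕ → Type} [∀ j, Fintype (X j)] [∀ j, DecidableEq (X j)]
variable {l m n m' n' : Type} [Fintype l] [Fintype m] [Fintype n] [Fintype m'] [Fintype n']

/-- flattening of a matrix over the essentially bounded sequences -/
abbrev fl (A : Matrix m n (essBdd X)) (j : ℕ) : Matrix (m × X j) (n × X j) ℂ :=
  flat (A.map Subtype.val) j

/-- normalized number of large singular values -/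
noncomputable def nb (A : Matrix m n (essBdd X)) (ε : ℝ) (j : ℕ) : ℝ :=
  big (fl A j) ε / Fintype.card (X j)

/-- the rank of a matrix over the essentially bounded sequences -/
noncomputable def rkE (A : Matrix m n (essBdd X)) : ℝ :=
  essRk (fun j => fl A j) fun j => Fintype.card (X j)

theorem nb_nonneg (A : Matrix m n (essBdd X)) (ε : ℝ) (j : ℕ) : 0 ≤ nb A ε j :=
  div_nonneg (big_nonneg _ _) (Nat.cast_nonneg _)

theorem nb_le (A : Matrix m n (essBdd X)) (ε : ℝ) (j : ℕ) : nb A ε j ≤ Fintype.card m := by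
  unfold nb
  refine div_le_of_le_mul₀ (Nat.cast_nonneg _) (Nat.cast_nonneg _) ?_
  refine (big_le _ _).trans ?_
  rw [Fintype.card_prod]
  push_cast
  exact le_rfl

theorem nb_anti (A : Matrix m n (essBdd X)) {ε δ : ℝ} (h : ε ≤ δ) (j : ℕ) :
    nb A δ j ≤ nb A ε j :=
  div_le_div_of_nonneg_right (big_anti _ h) (Nat.cast_nonneg _)

theorem tendsto_nb (A : Matrix m n (essBdd X)) (ε : ℝ) :
    Tendsto (nb A ε) (om : Filter ℕ) (𝓝 (omLim (nb A ε))) :=
  tendsto_omLim fun j => ⟨nb_nonneg A ε j, nb_le A ε j⟩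

theorem rkE_eq (A : Matrix m n (essBdd X)) :
    rkE A = ⨆ k : ℕ, omLim (nb A (1 / ((k : ℝ) + 1))) := rfl

theorem omLim_nb_le (A : Matrix m n (essBdd X)) (ε : ℝ) : omLim (nb A ε) ≤ Fintype.card m :=
  le_of_tendsto (tendsto_nb A ε) (Eventually.of_forall fun j => nb_le A ε j)

theorem omLim_nb_nonneg (A : Matrix m n (essBdd X)) (ε : ℝ) : 0 ≤ omLim (nb A ε) :=
  ge_of_tendsto (tendsto_nb A ε) (Eventually.of_forall fun j => nb_nonneg A ε j)

theorem bddAbove_nb (A : Matrix m n (essBdd X)) :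
    BddAbove (Set.range fun k : ℕ => omLim (nb A (1 / ((k : ℝ) + 1)))) :=
  ⟨Fintype.card m, by rintro _ ⟨k, rfl⟩; exact omLim_nb_le _ _⟩

theorem le_rkE (A : Matrix m n (essBdd X)) (k : ℕ) :
    omLim (nb A (1 / ((k : ℝ) + 1))) ≤ rkE A :=
  le_ciSup (bddAbove_nb A) k

theorem le_rkE' (A : Matrix m n (essBdd X)) {ε : ℝ} (hε : 0 < ε) : omLim (nb A ε) ≤ rkE A := by
  obtain ⟨k, hk⟩ := exists_nat_one_div_lt hε
  exact (le_of_tendsto_of_tendsto (tendsto_nb A _) (tendsto_nb A _)
    (Eventually.of_forall fun j => nb_anti A hk.le j)).trans (le_rkE A k)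

theorem rkE_le (A : Matrix m n (essBdd X)) : rkE A ≤ Fintype.card m :=
  ciSup_le fun _ => omLim_nb_le _ _

theorem tendsto_rkE (A : Matrix m n (essBdd X)) :
    Tendsto (fun k : ℕ => omLim (nb A (1 / ((k : ℝ) + 1)))) atTop (𝓝 (rkE A)) := by
  apply tendsto_atTop_ciSup _ (bddAbove_nb A)
  intro k k' h
  refine le_of_tendsto_of_tendsto (tendsto_nb A _) (tendsto_nb A _)
    (Eventually.of_forall fun j => nb_anti A ?_ j)
  have : (k : ℝ) ≤ k' := by exact_mod_cast h
  exact one_div_le_one_div_of_le (by positivity) (by linarith)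

/-- Comparison of ranks. -/
theorem rkE_mono {A : Matrix m n (essBdd X)} {B : Matrix m' n' (essBdd X)}
    (h : ∀ ε > (0 : ℝ), ∀ η > (0 : ℝ), ∃ δ > (0 : ℝ), ∀ᶠ j in (om : Filter ℕ),
      nb A ε j ≤ nb B δ j + η) : rkE A ≤ rkE B := by
  refine le_of_forall_pos_le_add fun η hη => ?_
  refine ciSup_le fun k => ?_
  obtain ⟨δ, hδ, h1⟩ := h (1 / ((k : ℝ) + 1)) (by positivity) η hη
  exact (le_of_tendsto_of_tendsto (tendsto_nb A _) ((tendsto_nb B δ).add_const η) h1).trans
    (add_le_add (le_rkE' B hδ) le_rfl)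

variable [∀ j, Nonempty (X j)]

omit [∀ j, DecidableEq (X j)] in
theorem card_pos' (j : ℕ) : (0 : ℝ) < Fintype.card (X j) := by
  exact_mod_cast Fintype.card_pos

theorem fl_bdd (A : Matrix m n (essBdd X)) {η : ℝ} (hη : 0 < η) :
    ∃ C : ℝ, 0 < C ∧ ∀ᶠ j in (om : Filter ℕ), SmallOn (fl A j) (η * Fintype.card (X j)) C := by
  classical
  have h1 : ∀ p q, ∃ C : ℝ, 0 ≤ C ∧ ∀ᶠ j in (om : Filter ℕ),
      SmallOn ((A p q).1 j) (η / (Fintype.card m * Fintype.card n + 1) * Fintype.card (X j)) C :=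
    fun p q => (A p q).2 _ (by positivity)
  choose C hC h2 using h1
  have h3 : ∀ᶠ j in (om : Filter ℕ), ∀ p q,
      SmallOn ((A p q).1 j) (η / (Fintype.card m * Fintype.card n + 1) * Fintype.card (X j))
        (C p q) := by
    rw [eventually_all]
    intro p
    rw [eventually_all]
    exact h2 p
  refine ⟨Fintype.card m * Fintype.card n * (∑ p, ∑ q, C p q) + 1, ?_, ?_⟩
  · have : 0 ≤ ∑ p, ∑ q, C p q := Finset.sum_nonneg fun p _ => Finset.sum_nonneg fun q _ => hC p q
    positivity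
  · filter_upwards [h3] with j hj
    have h4 : SmallOn (fl A j) _ _ := SmallOn.of_block (M := fl A j)
      (s := η / (Fintype.card m * Fintype.card n + 1) * Fintype.card (X j))
      (C := ∑ p, ∑ q, C p q)
      (Finset.sum_nonneg fun p _ => Finset.sum_nonneg fun q _ => hC p q) (fun p q => by
        refine (hj p q).mono le_rfl ?_
        calc C p q ≤ ∑ q, C p q := Finset.single_le_sum (fun q _ => hC p q) (Finset.mem_univ q)
          _ ≤ _ := Finset.single_le_sum (f := fun p => ∑ q, C p q)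
            (fun p _ => Finset.sum_nonneg fun q _ => hC p q) (Finset.mem_univ p))
    refine h4.mono ?_ (by linarith)
    rw [← mul_assoc]
    refine mul_le_mul_of_nonneg_right ?_ (Nat.cast_nonneg _)
    rw [mul_div_assoc', div_le_iff₀ (by positivity)]
    nlinarith

theorem fl_null (A : Matrix m n (essBdd X)) (hA : ∀ p q, A p q ∈ essNull X) {η ε : ℝ}
    (hη : 0 < η) (hε : 0 < ε) :
    ∀ᶠ j in (om : Filter ℕ), SmallOn (fl A j) (η * Fintype.card (X j)) ε := by
  classical
  have h3 : ∀ᶠ j in (om : Filter ℕ), ∀ p q,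
      SmallOn ((A p q).1 j) (η / (Fintype.card m * Fintype.card n + 1) * Fintype.card (X j))
        (ε / (Fintype.card m * Fintype.card n + 1)) := by
    rw [eventually_all]
    intro p
    rw [eventually_all]
    intro q
    exact hA p q _ (by positivity) _ (by positivity)
  filter_upwards [h3] with j hj
  have h4 : SmallOn (fl A j) _ _ := SmallOn.of_block (M := fl A j)
    (s := η / (Fintype.card m * Fintype.card n + 1) * Fintype.card (X j))
    (C := ε / (Fintype.card m * Fintype.card n + 1)) (by positivity) (fun p q => hj p q)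
  refine h4.mono ?_ ?_
  · rw [← mul_assoc]
    refine mul_le_mul_of_nonneg_right ?_ (Nat.cast_nonneg _)
    rw [mul_div_assoc', div_le_iff₀ (by positivity)]
    nlinarith
  · rw [mul_div_assoc', div_le_iff₀ (by positivity)]
    nlinarith

theorem fl_mul (A : Matrix l m (essBdd X)) (B : Matrix m n (essBdd X)) (j : ℕ) :
    fl (A * B) j = fl A j * fl B j := by
  ext ⟨p, a⟩ ⟨q, b⟩
  simp only [fl, flat, Matrix.of_apply, Matrix.map_apply, Matrix.mul_apply,
    Fintype.sum_prod_type, AddSubmonoidClass.coe_finset_sum, Finset.sum_apply, Subring.coe_mul,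
    Pi.mul_apply, Matrix.sum_apply]

theorem fl_sub (A B : Matrix m n (essBdd X)) (j : ℕ) : fl (A - B) j = fl A j - fl B j := rfl

theorem fl_one [DecidableEq n] (j : ℕ) : fl (1 : Matrix n n (essBdd X)) j = 1 := by
  ext ⟨p, a⟩ ⟨q, b⟩
  simp only [fl, flat, Matrix.of_apply, Matrix.map_apply]
  by_cases h : p = q
  · subst h
    simp [Matrix.one_apply]
  · rw [Matrix.one_apply_ne h, Matrix.one_apply_ne (by simp [h])]
    rfl

theorem rkE_congr {A B : Matrix m n (essBdd X)} (h : ∀ p q, A p q - B p q ∈ essNull X) :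
    rkE A ≤ rkE B := by
  refine rkE_mono fun ε hε η hη => ⟨ε / 2, by positivity, ?_⟩
  filter_upwards [fl_null (A - B) h hη (half_pos hε)] with j hj
  rw [fl_sub] at hj
  have h1 := big_add (fl A j) (fl B j) hε.le hj
  have h2 := card_pos' (X := X) j
  unfold nb
  rw [div_le_iff₀ h2, add_mul, div_mul_cancel₀ _ h2.ne']
  exact h1

theorem rkE_mul_le_left (A : Matrix l m (essBdd X)) (B : Matrix m n (essBdd X)) :
    rkE (A * B) ≤ rkE A := by
  refine rkE_mono fun ε hε η hη => ?_
  obtain ⟨C, hC, h⟩ := fl_bdd B hη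
  refine ⟨ε / C, by positivity, ?_⟩
  filter_upwards [h] with j hj
  have h1 := big_mul_left (fl A j) hC hε.le hj
  have h2 := card_pos' (X := X) j
  unfold nb
  rw [div_le_iff₀ h2, add_mul, div_mul_cancel₀ _ h2.ne', fl_mul]
  exact h1

theorem rkE_mul_le_right (A : Matrix l m (essBdd X)) (B : Matrix m n (essBdd X)) :
    rkE (A * B) ≤ rkE B := by
  refine rkE_mono fun ε hε η hη => ?_
  obtain ⟨C, hC, h⟩ := fl_bdd A hη
  refine ⟨ε / C, by positivity, ?_⟩
  filter_upwards [h] with j hj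
  have h1 := big_mul_right (fl B j) hC hε.le hj
  have h2 := card_pos' (X := X) j
  unfold nb
  rw [div_le_iff₀ h2, add_mul, div_mul_cancel₀ _ h2.ne', fl_mul]
  exact h1

theorem rkE_one [DecidableEq n] : rkE (1 : Matrix n n (essBdd X)) = Fintype.card n := by
  refine le_antisymm (rkE_le _) ?_
  have h1 : omLim (nb (1 : Matrix n n (essBdd X)) (1 / 2)) = Fintype.card n := by
    apply omLim_eq
    refine tendsto_const_nhds.congr' (Eventually.of_forall fun j => ?_)
    unfold nb
    have h2 := card_pos' (X := X) j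
    rw [fl_one, big_one (by norm_num), Fintype.card_prod, eq_div_iff h2.ne']
    push_cast
    rfl
  rw [← h1]
  exact le_rkE' _ (by norm_num)

/-! ### Block diagonal matrices -/

omit [∀ j, Nonempty (X j)] in
theorem big_blocks (A : Matrix m n (essBdd X)) (B : Matrix m' n' (essBdd X)) {ε : ℝ} (hε : 0 ≤ ε)
    (j : ℕ) : big (fl (Matrix.fromBlocks A 0 0 B) j) ε = big (fl A j) ε + big (fl B j) ε := by
  let e : ((m ⊕ m') × X j → ℂ) ≃ₗ[ℂ] ((m × X j → ℂ) × (m' × X j → ℂ)) :=
    { toFun := fun x => (fun y => x (Sum.inl y.1, y.2), fun y => x (Sum.inr y.1, y.2))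
      map_add' := fun _ _ => rfl
      map_smul' := fun _ _ => rfl
      invFun := fun z y => Sum.elim (fun p => z.1 (p, y.2)) (fun p => z.2 (p, y.2)) y.1
      left_inv := by
        intro x
        ext ⟨y, a⟩
        cases y <;> rfl
      right_inv := by
        intro z
        rfl }
  have hn : ∀ x, nrm x ^ 2 = nrm (e x).1 ^ 2 + nrm (e x).2 ^ 2 := by
    intro x
    rw [nrm_sq, nrm_sq, nrm_sq, Fintype.sum_prod_type, Fintype.sum_sum_type,
      Fintype.sum_prod_type, Fintype.sum_prod_type]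
    rfl
  have hv : ∀ x, nrm (Matrix.vecMul x (fl (Matrix.fromBlocks A 0 0 B) j)) ^ 2 =
      nrm (Matrix.vecMul (e x).1 (fl A j)) ^ 2 + nrm (Matrix.vecMul (e x).2 (fl B j)) ^ 2 := by
    intro x
    have h1 : ∀ q b, Matrix.vecMul x (fl (Matrix.fromBlocks A 0 0 B) j) (Sum.inl q, b) =
        Matrix.vecMul (e x).1 (fl A j) (q, b) := by
      intro q b
      simp only [Matrix.vecMul, dotProduct, Fintype.sum_prod_type, Fintype.sum_sum_type]
      have h2 : ∑ p : m', ∑ a, x (Sum.inr p, a) *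
          fl (Matrix.fromBlocks A 0 0 B) j (Sum.inr p, a) (Sum.inl q, b) = 0 := by
        apply Finset.sum_eq_zero
        intro p _
        apply Finset.sum_eq_zero
        intro a _
        have : fl (Matrix.fromBlocks A 0 0 B) j (Sum.inr p, a) (Sum.inl q, b) = 0 := rfl
        rw [this, mul_zero]
      rw [h2, add_zero]
      rfl
    have h3 : ∀ q b, Matrix.vecMul x (fl (Matrix.fromBlocks A 0 0 B) j) (Sum.inr q, b) =
        Matrix.vecMul (e x).2 (fl B j) (q, b) := by
      intro q b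
      simp only [Matrix.vecMul, dotProduct, Fintype.sum_prod_type, Fintype.sum_sum_type]
      have h2 : ∑ p : m, ∑ a, x (Sum.inl p, a) *
          fl (Matrix.fromBlocks A 0 0 B) j (Sum.inl p, a) (Sum.inr q, b) = 0 := by
        apply Finset.sum_eq_zero
        intro p _
        apply Finset.sum_eq_zero
        intro a _
        have : fl (Matrix.fromBlocks A 0 0 B) j (Sum.inl p, a) (Sum.inr q, b) = 0 := rfl
        rw [this, mul_zero]
      rw [h2, zero_add]
      rfl
    rw [nrm_sq, nrm_sq, nrm_sq, Fintype.sum_prod_type, Fintype.sum_sum_type,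
      Fintype.sum_prod_type, Fintype.sum_prod_type]
    simp only [h1, h3]
  have hcard : Fintype.card ((m ⊕ m') × X j) = Fintype.card (m × X j) + Fintype.card (m' × X j) := by
    simp [Fintype.card_prod, Fintype.card_sum, add_mul]
  obtain ⟨V₁, hV₁, hV₁'⟩ := exists_smallDim (fl A j) ε
  obtain ⟨V₂, hV₂, hV₂'⟩ := exists_smallDim (fl B j) ε
  obtain ⟨W₁, hW₁, hW₁'⟩ := exists_large (fl A j) hε
  obtain ⟨W₂, hW₂, hW₂'⟩ := exists_large (fl B j) hε
  have hdim : ∀ (V : Submodule ℂ (m × X j → ℂ)) (V' : Submodule ℂ (m' × X j → ℂ)),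
      Module.finrank ℂ ↥((V.prod V').comap (e : ((m ⊕ m') × X j → ℂ) →ₗ[ℂ]
        ((m × X j → ℂ) × (m' × X j → ℂ)))) =
        Module.finrank ℂ V + Module.finrank ℂ V' := by
    intro V V'
    let f : ↥((V.prod V').comap (e : ((m ⊕ m') × X j → ℂ) →ₗ[ℂ]
        ((m × X j → ℂ) × (m' × X j → ℂ)))) ≃ₗ[ℂ] (V × V') :=
      { toFun := fun x => (⟨(e x.1).1, x.2.1⟩, ⟨(e x.1).2, x.2.2⟩)
        map_add' := fun _ _ => rfl
        map_smul' := fun _ _ => rfl
        invFun := fun y => ⟨e.symm (y.1.1, y.2.1), y.1.2, y.2.2⟩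
        left_inv := by
          rintro ⟨x, hx⟩
          apply Subtype.ext
          exact e.symm_apply_apply x
        right_inv := fun _ => rfl }
    rw [f.finrank_eq, Module.finrank_prod]
  have h1 : smallDim (fl A j) ε + smallDim (fl B j) ε ≤
      smallDim (fl (Matrix.fromBlocks A 0 0 B) j) ε := by
    rw [← hV₁, ← hV₂, ← hdim]
    apply le_smallDim
    rintro x ⟨hx1, hx2⟩
    refine (pow_le_pow_iff_left₀ (nrm_nonneg _) (mul_nonneg hε (nrm_nonneg _)) two_ne_zero).1 ?_
    rw [mul_pow, hn, hv, mul_add]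
    have h2 := pow_le_pow_left₀ (nrm_nonneg _) (hV₁' _ hx1) 2
    have h3 := pow_le_pow_left₀ (nrm_nonneg _) (hV₂' _ hx2) 2
    rw [mul_pow] at h2 h3
    exact add_le_add h2 h3
  have h2 : Module.finrank ℂ W₁ + Module.finrank ℂ W₂ +
      smallDim (fl (Matrix.fromBlocks A 0 0 B) j) ε ≤ Fintype.card ((m ⊕ m') × X j) := by
    rw [← hdim]
    apply finrank_add_smallDim_le
    rintro x ⟨hx1, hx2⟩ hx0
    refine (pow_lt_pow_iff_left₀ (mul_nonneg hε (nrm_nonneg _)) (nrm_nonneg _) two_ne_zero).1 ?_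
    rw [mul_pow, hn, hv, mul_add]
    have h3 : ∀ {ι κ : Type} [Fintype ι] [Fintype κ] {W : Submodule ℂ (ι → ℂ)}
        {M : Matrix ι κ ℂ} (_ : ∀ x ∈ W, x ≠ 0 → ε * nrm x < nrm (Matrix.vecMul x M)) (x : ι → ℂ)
        (_ : x ∈ W), ε ^ 2 * nrm x ^ 2 ≤ nrm (Matrix.vecMul x M) ^ 2 ∧
          (x ≠ 0 → ε ^ 2 * nrm x ^ 2 < nrm (Matrix.vecMul x M) ^ 2) := by
      intro ι κ _ _ W M hW x hx
      rw [← mul_pow]
      have h5 : x ≠ 0 → (ε * nrm x) ^ 2 < nrm (Matrix.vecMul x M) ^ 2 := fun h0 =>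
        pow_lt_pow_left₀ (hW x hx h0) (mul_nonneg hε (nrm_nonneg _)) two_ne_zero
      refine ⟨?_, h5⟩
      by_cases h0 : x = 0
      · rw [h0]
        simp
      · exact (h5 h0).le
    obtain ⟨h4, h5⟩ := h3 hW₁' _ hx1
    obtain ⟨h6, h7⟩ := h3 hW₂' _ hx2
    by_cases h8 : (e x).1 = 0
    · have h9 : (e x).2 ≠ 0 := by
        intro h9
        apply hx0
        apply e.injective
        rw [map_zero]
        exact Prod.ext h8 h9
      exact add_lt_add_of_le_of_lt h4 (h7 h9)
    · exact add_lt_add_of_lt_of_le (h5 h8) h6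
  have h3 : smallDim (fl (Matrix.fromBlocks A 0 0 B) j) ε =
      smallDim (fl A j) ε + smallDim (fl B j) ε := by omega
  unfold big
  rw [h3, hcard]
  push_cast
  ring

omit [∀ j, Nonempty (X j)] in
theorem rkE_blocks (A : Matrix m n (essBdd X)) (B : Matrix m' n' (essBdd X)) :
    rkE (Matrix.fromBlocks A 0 0 B) = rkE A + rkE B := by
  refine tendsto_nhds_unique (tendsto_rkE _) ?_
  refine ((tendsto_rkE A).add (tendsto_rkE B)).congr fun k => ?_
  symm
  apply omLim_eq
  refine ((tendsto_nb A _).add (tendsto_nb B _)).congr fun j => ?_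
  unfold nb
  rw [big_blocks A B (by positivity), add_div]

/-! ### The quotient -/

/-- lift of a matrix over the analytic ultraproduct -/
noncomputable def liftM (A : Matrix m n (UEss X)) : Matrix m n (essBdd X) :=
  A.map (Function.surjInv UEss.mk_surjective)

omit [Fintype m] [Fintype n] [∀ j, Nonempty (X j)] in
theorem liftM_map (A : Matrix m n (UEss X)) : (liftM A).map (UEss.mk X) = A := by
  ext p q
  exact Function.surjInv_eq UEss.mk_surjective (A p q)

theorem rkE_liftM (A : Matrix m n (essBdd X)) : rkE (liftM (A.map (UEss.mk X))) = rkE A := by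
  have h : ∀ p q, UEss.mk X (liftM (A.map (UEss.mk X)) p q) = UEss.mk X (A p q) := fun p q =>
    Function.surjInv_eq UEss.mk_surjective (UEss.mk X (A p q))
  exact le_antisymm (rkE_congr fun p q => UEss.mk_eq_mk.1 (h p q))
    (rkE_congr fun p q => UEss.mk_eq_mk.1 (h p q).symm)

/-- The rank function of the analytic ultraproduct. -/
noncomputable def essMatRank (X : ℕ → Type) [∀ j, Fintype (X j)] [∀ j, DecidableEq (X j)]
    [∀ j, Nonempty (X j)] : MatRank (UEss X) where
  rk A := rkE (liftM A)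
  mul_left A B := by
    have h : A * B = (liftM A * liftM B).map (UEss.mk X) := by
      rw [Matrix.map_mul, liftM_map, liftM_map]
      rfl
    rw [h, rkE_liftM]
    exact rkE_mul_le_left _ _
  mul_right A B := by
    have h : A * B = (liftM A * liftM B).map (UEss.mk X) := by
      rw [Matrix.map_mul, liftM_map, liftM_map]
      rfl
    rw [h, rkE_liftM]
    exact rkE_mul_le_right _ _
  blocks A B := by
    have h : Matrix.fromBlocks A 0 0 B =
        (Matrix.fromBlocks (liftM A) 0 0 (liftM B)).map (UEss.mk X) := by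
      rw [Matrix.fromBlocks_map, liftM_map, liftM_map, Matrix.map_zero _ (map_zero _),
        Matrix.map_zero _ (map_zero _)]
    rw [h, rkE_liftM, rkE_blocks]
  one := by
    intro n _ _
    have h : (1 : Matrix n n (UEss X)) = (1 : Matrix n n (essBdd X)).map (UEss.mk X) := by
      rw [Matrix.map_one _ (map_zero _) (map_one _)]
    rw [h, rkE_liftM, rkE_one]

theorem essMatRank_map (A : Matrix m n (essBdd X)) :
    (essMatRank X).rk (A.map (UEss.mk X)) = rkE A := rkE_liftM A

theorem essMatRank_regular : (essMatRank X).Regular where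
  eq_zero x hx := by
    obtain ⟨a, rfl⟩ := UEss.mk_surjective x
    have h1 : rkE (Matrix.of fun (_ _ : Unit) => a) = 0 := by
      rw [← essMatRank_map, ← hx]
      rfl
    rw [UEss.mk_eq_zero]
    intro η hη ε hε
    have h2 : omLim (nb (Matrix.of fun (_ _ : Unit) => a) ε) < η :=
      ((le_rkE' _ hε).trans (le_of_eq h1)).trans_lt hη
    filter_upwards [(tendsto_nb (Matrix.of fun (_ _ : Unit) => a) ε).eventually_lt_const h2]
      with j hj
    have h3 := card_pos' (X := X) j
    have h4 : big (fl (Matrix.of fun (_ _ : Unit) => a) j) ε ≤ η * Fintype.card (X j) := by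
      unfold nb at hj
      exact ((div_lt_iff₀ h3).1 hj).le
    exact ((smallOn_big (fl (Matrix.of fun (_ _ : Unit) => a) j) ε).block hε.le () ()).mono h4 le_rfl
  isUnit := by
    intro n _ _ T hT
    obtain ⟨A, rfl⟩ : ∃ A : Matrix n n (essBdd X), A.map (UEss.mk X) = T := ⟨_, liftM_map T⟩
    rw [essMatRank_map] at hT
    have hsmall : ∀ η > (0 : ℝ), ∃ ε > (0 : ℝ), ∀ᶠ j in (om : Filter ℕ),
        (smallDim (fl A j) ε : ℝ) ≤ η * Fintype.card (X j) := by
      intro η hη
      have h1 : (Fintype.card n : ℝ) - η < rkE A := by rw [hT]; linarith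
      obtain ⟨k, hk⟩ := exists_lt_of_lt_ciSup h1
      refine ⟨1 / ((k : ℝ) + 1), by positivity, ?_⟩
      filter_upwards [(tendsto_nb A _).eventually_const_lt hk] with j hj
      have h3 := card_pos' (X := X) j
      unfold nb big at hj
      rw [lt_div_iff₀ h3, Fintype.card_prod] at hj
      push_cast at hj
      nlinarith
    have hY := fun j => exists_pinv (fl A j)
    choose Y hY using hY
    have hmem : ∀ p q, (fun j => Matrix.of fun a b => Y j (p, a) (q, b)) ∈ essBdd X := by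
      intro p q η hη
      obtain ⟨ε, hε, h1⟩ := hsmall η hη
      refine ⟨1 / ε, by positivity, ?_⟩
      filter_upwards [h1] with j hj
      exact ((hY j ε hε).1.block (by positivity) p q).mono hj le_rfl
    let B : Matrix n n (essBdd X) := Matrix.of fun p q => ⟨_, hmem p q⟩
    have hB : ∀ j, fl B j = Y j := fun j => rfl
    have hAB : (A * B).map (UEss.mk X) = 1 := by
      rw [← Matrix.map_one (UEss.mk X) (map_zero _) (map_one _)]
      ext p q
      refine UEss.mk_eq_mk.2 ?_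
      intro η hη ε' hε'
      obtain ⟨ε, hε, h1⟩ := hsmall η hη
      filter_upwards [h1] with j hj
      have h2 := (hY j ε hε).2.1.neg
      rw [neg_sub, ← hB j, ← fl_mul, ← fl_one, ← fl_sub] at h2
      exact (h2.block le_rfl p q).mono hj hε'.le
    have hBA : (B * A).map (UEss.mk X) = 1 := by
      rw [← Matrix.map_one (UEss.mk X) (map_zero _) (map_one _)]
      ext p q
      refine UEss.mk_eq_mk.2 ?_
      intro η hη ε' hε'
      obtain ⟨ε, hε, h1⟩ := hsmall η hη
      filter_upwards [h1] with j hj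
      have h2 := (hY j ε hε).2.2.neg
      rw [neg_sub, ← hB j, ← fl_mul, ← fl_one, ← fl_sub] at h2
      exact (h2.block le_rfl p q).mono hj hε'.le
    rw [Matrix.map_mul] at hAB hBA
    exact ⟨⟨_, _, hAB, hBA⟩, rfl⟩

end rank

section M08
variable (X : ℕ → Type) [∀ j, Fintype (X j)] [∀ j, DecidableEq (X j)] [∀ j, Nonempty (X j)]

theorem exists_essRank : ∃ ρ : MatRank (UEss X), ρ.Regular ∧
    ∀ {m n : Type} [Fintype m] [Fintype n] (A : Matrix m n (essBdd X)),
      ρ.rk (A.map (UEss.mk X)) =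
        essRk (fun j => flat (A.map Subtype.val) j) fun j => Fintype.card (X j) :=
  ⟨essMatRank X, essMatRank_regular, fun A => essMatRank_map A⟩

end M08

end Pool.Agent.H4.Atiyah
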