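import Pool.Agent.H4.Atiyah.Copies
import Pool.Agent.H4.Atiyah.EssRank

set_option autoImplicit false

open Filter Topology
open scoped Kronecker

namespace Pool.Agent.H4.Atiyah

section EssZeroAux

/-- The orthogonal projection onto a subspace, acting on row vectors. -/
theorem essZero_proj {α : Type*} [Fintype α] [DecidableEq α] (V : Submodule ℂ (α → ℂ)) :
    ∃ e : Matrix α α ℂ, (∀ x, Matrix.vecMul x e ∈ V) ∧ (∀ x ∈ V, Matrix.vecMul x e = x) ∧
      ∀ x, nrm (Matrix.vecMul x e) ≤ nrm x := by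
  let φ : EuclideanSpace ℂ α ≃ₗ[ℂ] (α → ℂ) := WithLp.linearEquiv 2 ℂ (α → ℂ)
  let V' : Submodule ℂ (EuclideanSpace ℂ α) := V.comap φ.toLinearMap
  let L : (α → ℂ) →ₗ[ℂ] (α → ℂ) :=
    φ.toLinearMap ∘ₗ (V'.starProjection : EuclideanSpace ℂ α →ₗ[ℂ] EuclideanSpace ℂ α) ∘ₗ
      φ.symm.toLinearMap
  have hL : ∀ x, Matrix.vecMul x (LinearMap.toMatrixRight' L) = L x := by
    intro x
    rw [← Matrix.toLinearMapRight'_apply]
    have : Matrix.toLinearMapRight' (LinearMap.toMatrixRight' L) = L :=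
      LinearEquiv.symm_apply_apply _ _
    rw [this]
  refine ⟨LinearMap.toMatrixRight' L, fun x => ?_, fun x hx => ?_, fun x => ?_⟩
  · rw [hL]
    exact V'.starProjection_apply_mem (φ.symm x)
  · rw [hL]
    have h1 : φ.symm x ∈ V' := by
      show φ (φ.symm x) ∈ V
      rwa [LinearEquiv.apply_symm_apply]
    have h2 : V'.starProjection (φ.symm x) = φ.symm x := Submodule.starProjection_eq_self_iff.2 h1
    show φ (V'.starProjection (φ.symm x)) = x
    rw [h2, LinearEquiv.apply_symm_apply]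
  · rw [hL, nrm_eq, nrm_eq]
    exact V'.norm_starProjection_apply_le (φ.symm x)

theorem essZero_trace {α : Type*} [Fintype α] [DecidableEq α] (e : Matrix α α ℂ)
    (V : Submodule ℂ (α → ℂ)) (h1 : ∀ x, Matrix.vecMul x e ∈ V)
    (h2 : ∀ x ∈ V, Matrix.vecMul x e = x) : e.trace = Module.finrank ℂ V := by
  have h3 : LinearMap.IsProj V (Matrix.toLin' e.transpose) := by
    refine ⟨fun x => ?_, fun x hx => ?_⟩
    · rw [Matrix.toLin'_apply, Matrix.mulVec_transpose]; exact h1 x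
    · rw [Matrix.toLin'_apply, Matrix.mulVec_transpose]; exact h2 x hx
  have h4 := h3.trace
  rwa [Matrix.trace_toLin'_eq, Matrix.trace_transpose] at h4

theorem essZero_small {α : Type*} [Fintype α] [DecidableEq α] (e : Matrix α α ℂ)
    (V : Submodule ℂ (α → ℂ)) (h1 : ∀ x, Matrix.vecMul x e ∈ V)
    (h2 : ∀ x ∈ V, Matrix.vecMul x e = x) {s ε : ℝ} (hε : ε < 1)
    (h : SmallOn (e ⊗ₖ e) s ε) : (Module.finrank ℂ V : ℝ) ^ 2 ≤ s := by
  have hee : e * e = e := by
    have hx : ∀ x, Matrix.vecMul x (e * e) = Matrix.vecMul x e := by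
      intro x
      rw [← Matrix.vecMul_vecMul]
      exact h2 _ (h1 x)
    ext i j
    have := congrFun (hx (Pi.single i 1)) j
    simpa using this
  have hFF : (e ⊗ₖ e) * (e ⊗ₖ e) = e ⊗ₖ e := by
    rw [← Matrix.mul_kronecker_mul, hee]
  let U : Submodule ℂ (α × α → ℂ) := LinearMap.range (Matrix.vecMulLinear (e ⊗ₖ e))
  have hU1 : ∀ x, Matrix.vecMul x (e ⊗ₖ e) ∈ U := fun x => ⟨x, rfl⟩
  have hU2 : ∀ x ∈ U, Matrix.vecMul x (e ⊗ₖ e) = x := by
    rintro _ ⟨x, rfl⟩
    rw [Matrix.vecMulLinear_apply, Matrix.vecMul_vecMul, hFF]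
  have htr := essZero_trace (e ⊗ₖ e) U hU1 hU2
  rw [Matrix.trace_kronecker, essZero_trace e V h1 h2] at htr
  have htr' : (Module.finrank ℂ V : ℝ) ^ 2 = Module.finrank ℂ U := by
    have : ((Module.finrank ℂ V * Module.finrank ℂ V : ℕ) : ℂ) = ((Module.finrank ℂ U : ℕ) : ℂ) := by
      push_cast; exact htr
    have h3 := Nat.cast_injective this
    rw [sq]
    exact_mod_cast h3
  obtain ⟨W, hW1, hW2⟩ := h
  have hdisj : U ⊓ W = ⊥ := by
    rw [eq_bot_iff]
    rintro x ⟨hxU, hxW⟩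
    have h3 := hW2 x hxW
    rw [hU2 x hxU] at h3
    have h4 := nrm_nonneg x
    have h5 : nrm x = 0 := by nlinarith
    exact (Submodule.mem_bot ℂ).2 (nrm_eq_zero.1 h5)
  have h6 := Submodule.finrank_sup_add_finrank_inf_eq U W
  rw [hdisj, finrank_bot, add_zero] at h6
  have h7 : Module.finrank ℂ ↥(U ⊔ W) ≤ Fintype.card (α × α) := by
    have := Submodule.finrank_le (U ⊔ W)
    simpa using this
  have h8 : (Module.finrank ℂ U : ℝ) + Module.finrank ℂ W ≤ Fintype.card (α × α) := by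
    rw [h6] at h7
    exact_mod_cast h7
  rw [htr']
  linarith

/-- Transport of subspaces from `Unit × α` to `α`. -/
theorem essZero_unit {α : Type*} [Fintype α] (M : Matrix (Unit × α) (Unit × α) ℂ) (N : Matrix α α ℂ)
    (hMN : ∀ x y, M x y = N x.2 y.2) (ε : ℝ) :
    ∃ V : Submodule ℂ (α → ℂ), Module.finrank ℂ V = smallDim M ε ∧
      ∀ x ∈ V, nrm (Matrix.vecMul x N) ≤ ε * nrm x := by
  obtain ⟨V, hV1, hV2⟩ := exists_smallDim M ε
  let φ : (α → ℂ) ≃ₗ[ℂ] (Unit × α → ℂ) := LinearEquiv.funCongrLeft ℂ ℂ (Equiv.punitProd α)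
  have hφ : ∀ (x : α → ℂ) p, φ x p = x p.2 := fun x p => rfl
  have hn : ∀ x : α → ℂ, nrm (φ x) = nrm x := by
    intro x
    unfold nrm
    congr 1
    rw [Fintype.sum_prod_type]
    simp [hφ]
  have hm : ∀ x : α → ℂ, Matrix.vecMul (φ x) M = φ (Matrix.vecMul x N) := by
    intro x
    funext p
    rw [hφ]
    simp only [Matrix.vecMul, dotProduct, Fintype.sum_prod_type]
    simp [hφ, hMN]
  refine ⟨V.comap φ.toLinearMap, ?_, ?_⟩
  · rw [← hV1]
    exact LinearEquiv.finrank_eq (φ.submoduleMap (V.comap φ.toLinearMap) |>.trans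
      (LinearEquiv.ofEq _ _ (Submodule.map_comap_eq_of_surjective φ.surjective V)))
  · intro x hx
    have h1 := hV2 (φ x) hx
    rwa [hm, hn, hn] at h1

end EssZeroAux

section M08b
variable (X : ℕ → Type) [∀ j, Fintype (X j)] [∀ j, DecidableEq (X j)] [∀ j, Nonempty (X j)]

theorem ess_zero_divisor (f : UEss X) (hf : ¬ IsUnit f) :
    ∃ e : UEss X, e * f = 0 ∧ essC1 X e * essC2 X e ≠ 0 := by
  classical
  obtain ⟨ρ, hρ, hrk⟩ := exists_essRank X
  obtain ⟨a, rfl⟩ := UEss.mk_surjective f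
  have hcard : ∀ j, (0 : ℝ) < Fintype.card (X j) := fun j => by exact_mod_cast Fintype.card_pos
  -- the rank is less than one
  let A : Matrix Unit Unit (essBdd X) := Matrix.of fun _ _ => a
  have hle : ρ.rk (A.map (UEss.mk X)) ≤ 1 := by
    have h1 := ρ.mul_left (1 : Matrix Unit Unit (UEss X)) (A.map (UEss.mk X))
    rw [Matrix.one_mul, ρ.one] at h1
    simpa using h1
  have hlt : ρ.rk (A.map (UEss.mk X)) < 1 := by
    refine lt_of_le_of_ne hle fun heq => hf ?_
    have hu := hρ.isUnit (A.map (UEss.mk X)) (by rw [heq]; simp)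
    obtain ⟨T, hT⟩ := hu
    have h1 : (T : Matrix Unit Unit (UEss X)) * (↑(T⁻¹) : Matrix Unit Unit (UEss X)) = 1 :=
      T.mul_inv
    have h2 : (↑(T⁻¹) : Matrix Unit Unit (UEss X)) * (T : Matrix Unit Unit (UEss X)) = 1 :=
      T.inv_mul
    have hT0 : (T : Matrix Unit Unit (UEss X)) () () = UEss.mk X a := by rw [hT]; rfl
    have h3 := congrFun (congrFun h1 ()) ()
    have h4 := congrFun (congrFun h2 ()) ()
    simp only [Matrix.mul_apply, Finset.univ_unique, Finset.sum_singleton, Matrix.one_apply_eq]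
      at h3 h4
    have hd : (default : Unit) = () := rfl
    rw [hd, hT0] at h3 h4
    exact ⟨⟨UEss.mk X a, (↑(T⁻¹) : Matrix Unit Unit (UEss X)) () (), h3, h4⟩, rfl⟩
  rw [hrk A] at hlt
  set M : ∀ j, Matrix (Unit × X j) (Unit × X j) ℂ := fun j => flat (A.map Subtype.val) j with hM
  have hMe : ∀ j (x y : Unit × X j), M j x y = a.1 j x.2 y.2 := fun j x y => rfl
  set F : ℕ → ℕ → ℝ := fun k j =>
    ((Fintype.card (Unit × X j) : ℝ) - smallDim (M j) (1 / ((k : ℝ) + 1))) / Fintype.card (X j)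
    with hF
  have hFb : ∀ k j, 0 ≤ F k j ∧ F k j ≤ 1 := by
    intro k j
    have h1 : (smallDim (M j) (1 / ((k : ℝ) + 1)) : ℝ) ≤ Fintype.card (Unit × X j) := by
      exact_mod_cast smallDim_le _ _
    have h2 : (Fintype.card (Unit × X j) : ℝ) = Fintype.card (X j) := by
      rw [Fintype.card_prod]; simp
    constructor
    · apply div_nonneg _ (hcard j).le
      linarith
    · rw [div_le_one (hcard j)]
      have h3 : (0 : ℝ) ≤ smallDim (M j) (1 / ((k : ℝ) + 1)) := Nat.cast_nonneg _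
      linarith
  have hFt : ∀ k, Tendsto (F k) (om : Filter ℕ) (𝓝 (omLim (F k))) := fun k =>
    tendsto_omLim (fun j => hFb k j)
  have hFle : ∀ k, omLim (F k) ≤ 1 := fun k =>
    le_of_tendsto (hFt k) (Eventually.of_forall fun j => (hFb k j).2)
  have hess : essRk M (fun j => (Fintype.card (X j) : ℝ)) = ⨆ k : ℕ, omLim (F k) := rfl
  have hsup : ∀ k, omLim (F k) ≤ essRk M (fun j => (Fintype.card (X j) : ℝ)) := by
    intro k
    rw [hess]
    exact le_ciSup (f := fun k => omLim (F k)) ⟨1, by rintro _ ⟨k, rfl⟩; exact hFle k⟩ k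
  set R : ℝ := essRk M (fun j => (Fintype.card (X j) : ℝ)) with hR
  set c : ℝ := (1 - R) / 2 with hc
  have hc0 : 0 < c := by rw [hc]; linarith
  -- subspaces on which `a j` is small
  let P : ℕ → ℕ → Prop := fun k j => ∃ V : Submodule ℂ (X j → ℂ),
    c * Fintype.card (X j) ≤ Module.finrank ℂ V ∧
      ∀ x ∈ V, nrm (Matrix.vecMul x (a.1 j)) ≤ 1 / ((k : ℝ) + 1) * nrm x
  have hP : ∀ k, ∀ᶠ j in (om : Filter ℕ), P k j := by
    intro k
    have h1 : omLim (F k) < 1 - c := by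
      have := hsup k
      rw [hc]; linarith
    filter_upwards [(hFt k).eventually_lt_const h1] with j hj
    obtain ⟨V, hV1, hV2⟩ := essZero_unit (M j) (a.1 j) (hMe j) (1 / ((k : ℝ) + 1))
    refine ⟨V, ?_, hV2⟩
    have h2 : (Fintype.card (Unit × X j) : ℝ) = Fintype.card (X j) := by
      rw [Fintype.card_prod]; simp
    have h3 : F k j * Fintype.card (X j) =
        (Fintype.card (X j) : ℝ) - smallDim (M j) (1 / ((k : ℝ) + 1)) := by
      simp only [hF, h2]
      exact div_mul_cancel₀ _ (hcard j).ne'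
    have h4 : F k j * Fintype.card (X j) < (1 - c) * Fintype.card (X j) :=
      mul_lt_mul_of_pos_right hj (hcard j)
    rw [hV1]
    linarith
  let kk : ℕ → ℕ := fun j => Nat.findGreatest (fun k => P k j) j
  have hkk : ∀ K, ∀ᶠ j in (om : Filter ℕ), K ≤ kk j ∧ P (kk j) j := by
    intro K
    filter_upwards [hP K, om_of_atTop (eventually_ge_atTop K)] with j h1 h2
    exact ⟨Nat.le_findGreatest h2 h1, Nat.findGreatest_spec (P := fun k => P k j) h2 h1⟩
  have hV : ∀ j, ∃ V : Submodule ℂ (X j → ℂ),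
      (P (kk j) j → c * Fintype.card (X j) ≤ Module.finrank ℂ V) ∧
      ∀ x ∈ V, nrm (Matrix.vecMul x (a.1 j)) ≤ 1 / ((kk j : ℝ) + 1) * nrm x := by
    intro j
    by_cases h : P (kk j) j
    · obtain ⟨V, h1, h2⟩ := h
      exact ⟨V, fun _ => h1, h2⟩
    · refine ⟨⊥, fun h' => absurd h' h, fun x hx => ?_⟩
      rw [(Submodule.mem_bot ℂ).1 hx]
      simp
  choose V hV1 hV2 using hV
  choose e he1 he2 he3 using fun j => essZero_proj (V j)
  let eB : essBdd X := ⟨e, fun η hη => ⟨1, zero_le_one, Eventually.of_forall fun j =>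
    ⟨⊤, by
      have := hcard j
      simp only [finrank_top, Module.finrank_fintype_fun_eq_card]
      nlinarith, fun x _ => by rw [one_mul]; exact he3 j x⟩⟩⟩
  refine ⟨UEss.mk X eB, ?_, ?_⟩
  · rw [← map_mul, UEss.mk_eq_zero]
    intro η hη ε hε
    obtain ⟨K, hK⟩ := exists_nat_one_div_lt hε
    filter_upwards [hkk K] with j hj
    refine ⟨⊤, ?_, fun x _ => ?_⟩
    · have := hcard j
      simp only [finrank_top, Module.finrank_fintype_fun_eq_card]
      nlinarith
    · show nrm (Matrix.vecMul x (e j * a.1 j)) ≤ ε * nrm x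
      rw [← Matrix.vecMul_vecMul]
      have h1 := hV2 j _ (he1 j x)
      have h2 := he3 j x
      have h3 : (1 : ℝ) / ((kk j : ℝ) + 1) ≤ 1 / ((K : ℝ) + 1) := by
        apply one_div_le_one_div_of_le (by positivity)
        have : (K : ℝ) ≤ kk j := by exact_mod_cast hj.1
        linarith
      calc _ ≤ 1 / ((kk j : ℝ) + 1) * nrm (Matrix.vecMul x (e j)) := h1
        _ ≤ ε * nrm x := mul_le_mul (h3.trans hK.le) h2 (nrm_nonneg _) hε.le
  · intro h
    rw [essC1_mk, essC2_mk, ← map_mul, UEss.mk_eq_zero] at h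
    have h1 := h (c ^ 2 / 2) (by positivity) (1 / 2) (by norm_num)
    obtain ⟨j, hj1, hj2⟩ := ((hkk 0).and h1).exists
    have h2 : (bddC1 X eB * bddC2 X eB).1 j = e j ⊗ₖ e j := by
      show (e j ⊗ₖ (1 : Matrix (X j) (X j) ℂ)) * ((1 : Matrix (X j) (X j) ℂ) ⊗ₖ e j) = e j ⊗ₖ e j
      rw [← Matrix.mul_kronecker_mul, Matrix.mul_one, Matrix.one_mul]
    rw [h2] at hj2
    have h3 := essZero_small (e j) (V j) (he1 j) (he2 j) (by norm_num) hj2
    have h4 := hV1 j hj1.2
    have h5 : (c * Fintype.card (X j)) ^ 2 ≤ (Module.finrank ℂ (V j) : ℝ) ^ 2 :=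
      pow_le_pow_left₀ (by have := hcard j; positivity) h4 2
    rw [Fintype.card_prod] at h3
    push_cast at h3
    have h6 : 0 < (c * Fintype.card (X j)) ^ 2 := by have := hcard j; positivity
    nlinarith

end M08b

end Pool.Agent.H4.Atiyah
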