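import Mathlib

set_option autoImplicit false

namespace Pool.Agent.H4.Atiyah

private lemma length_induction_elim {K C : Type} [Field K] [Field C] [Algebra K C] {n : ℕ}
    (μ : Fin (n + 1) → C) (hμ : LinearIndependent K μ) (k : Fin (n + 1)) (κ : Fin n → K) :
    LinearIndependent K (fun j : Fin n => μ (k.succAbove j) + κ j • μ k) := by
  rw [Fintype.linearIndependent_iff] at hμ ⊢
  intro x hx j
  have h := hμ (k.insertNth (α := fun _ => K) (∑ j, x j * κ j) x) (by
    rw [Fin.sum_univ_succAbove _ k]
    simp only [Fin.insertNth_apply_same, Fin.insertNth_apply_succAbove]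
    simp only [smul_add, Finset.sum_add_distrib, smul_smul] at hx
    rw [← Finset.sum_smul] at hx
    rw [add_comm]
    exact hx) (k.succAbove j)
  simpa using h

theorem length_induction {K C : Type} [Field K] [Field C] [Algebra K C] {I : Type*} (sq : I → I)
    (D : I → Type) [∀ i, DivisionRing (D i)] [∀ i, Algebra K (D i)]
    (d₁ d₂ : ∀ i, D i →+* D (sq i))
    (hd : ∀ i a b, d₁ i a * d₂ i b = d₂ i b * d₁ i a)
    (hK : ∀ i a, d₁ i a = d₂ i a → ∃ c : K, a = algebraMap K (D i) c)
    (T : I → Type) [∀ i, Ring (T i)] [∀ i, Algebra C (T i)]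
    (c₁ c₂ : ∀ i, T i →+* T (sq i))
    (hc : ∀ i a b, c₁ i a * c₂ i b = c₂ i b * c₁ i a)
    (hcC₁ : ∀ i c, c₁ i (algebraMap C (T i) c) = algebraMap C (T (sq i)) c)
    (hcC₂ : ∀ i c, c₂ i (algebraMap C (T i) c) = algebraMap C (T (sq i)) c)
    (hz : ∀ i (f : T i), ¬ IsUnit f → ∃ e : T i, e * f = 0 ∧ c₁ i e * c₂ i e ≠ 0)
    (θ : ∀ i, D i →+* T i)
    (h₁ : ∀ i a, c₁ i (θ i a) = θ (sq i) (d₁ i a))
    (h₂ : ∀ i a, c₂ i (θ i a) = θ (sq i) (d₂ i a))
    (hθ : ∀ i (c : K), θ i (algebraMap K (D i) c) = algebraMap C (T i) (algebraMap K C c))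
    (n : ℕ) (i : I) (a : Fin n → D i) (μ : Fin n → C) (hμ : LinearIndependent K μ)
    (ha : a ≠ 0) : IsUnit (∑ j, algebraMap C (T i) (μ j) * θ i (a j)) := by
  induction n generalizing i with
  | zero => exact absurd (Subsingleton.elim a 0) ha
  | succ n ih =>
    by_cases hind : LinearIndependent K a
    · -- the coefficients are linearly independent over `K`
      have ha0 : a 0 ≠ 0 := hind.ne_zero 0
      by_cases hn : n = 0
      · subst hn
        rw [Fin.sum_univ_succ, Finset.univ_eq_empty, Finset.sum_empty, add_zero]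
        refine IsUnit.mul ?_ ?_
        · exact (IsUnit.mk0 _ (hμ.ne_zero 0)).map (algebraMap C (T i))
        · exact (IsUnit.mk0 _ ha0).map (θ i)
      · by_contra hnu
        obtain ⟨e, hef, hee⟩ := hz i _ hnu
        set f := ∑ j, algebraMap C (T i) (μ j) * θ i (a j) with hf
        -- the coefficients of the bracket
        set b : Fin n → D (sq i) := fun j =>
          d₁ i (a j.succ) * d₂ i (a 0) - d₂ i (a j.succ) * d₁ i (a 0) with hb
        have hbr : c₁ i f * θ (sq i) (d₂ i (a 0)) - c₂ i f * θ (sq i) (d₁ i (a 0)) =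
            ∑ j, algebraMap C (T (sq i)) (μ (Fin.succ j)) * θ (sq i) (b j) := by
          have e1 : c₁ i f = ∑ j, algebraMap C (T (sq i)) (μ j) * θ (sq i) (d₁ i (a j)) := by
            rw [hf, map_sum]
            refine Finset.sum_congr rfl fun j _ => ?_
            rw [map_mul, hcC₁, h₁]
          have e2 : c₂ i f = ∑ j, algebraMap C (T (sq i)) (μ j) * θ (sq i) (d₂ i (a j)) := by
            rw [hf, map_sum]
            refine Finset.sum_congr rfl fun j _ => ?_
            rw [map_mul, hcC₂, h₂]
          rw [e1, e2, Finset.sum_mul, Finset.sum_mul, ← Finset.sum_sub_distrib,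
            Fin.sum_univ_succ]
          have e3 : algebraMap C (T (sq i)) (μ 0) * θ (sq i) (d₁ i (a 0)) * θ (sq i) (d₂ i (a 0)) -
              algebraMap C (T (sq i)) (μ 0) * θ (sq i) (d₂ i (a 0)) * θ (sq i) (d₁ i (a 0)) = 0 := by
            rw [mul_assoc, mul_assoc, ← map_mul, ← map_mul, hd, sub_self]
          rw [e3, zero_add]
          refine Finset.sum_congr rfl fun j _ => ?_
          rw [mul_assoc, mul_assoc, ← mul_sub, ← map_mul, ← map_mul, ← map_sub]
        have hkill : c₁ i e * c₂ i e *
            (c₁ i f * θ (sq i) (d₂ i (a 0)) - c₂ i f * θ (sq i) (d₁ i (a 0))) = 0 := by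
          have k1 : c₁ i e * c₂ i e * c₁ i f = 0 := by
            rw [hc, mul_assoc, ← map_mul, hef, map_zero, mul_zero]
          have k2 : c₁ i e * c₂ i e * c₂ i f = 0 := by
            rw [mul_assoc, ← map_mul, hef, map_zero, mul_zero]
          rw [mul_sub, ← mul_assoc, ← mul_assoc, k1, k2, zero_mul, zero_mul, sub_zero]
        by_cases hb0 : b = 0
        · -- then `a 1 = κ a 0`
          have hn' : 0 < n := Nat.pos_of_ne_zero hn
          set j : Fin n := ⟨0, hn'⟩
          have hbj : d₁ i (a j.succ) * d₂ i (a 0) = d₂ i (a j.succ) * d₁ i (a 0) :=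
            sub_eq_zero.1 (congrFun hb0 j)
          have hx1 : d₁ i (a 0) ≠ 0 := (map_ne_zero (d₁ i)).2 ha0
          have hx2 : d₂ i (a 0) ≠ 0 := (map_ne_zero (d₂ i)).2 ha0
          have hcomm : d₁ i (a 0) * d₂ i (a 0) = d₂ i (a 0) * d₁ i (a 0) := hd i _ _
          have hq : d₁ i (a j.succ * (a 0)⁻¹) = d₂ i (a j.succ * (a 0)⁻¹) := by
            rw [map_mul, map_mul, map_inv₀, map_inv₀]
            rw [← div_eq_mul_inv, ← div_eq_mul_inv, div_eq_iff hx1]
            have : d₂ i (a j.succ) / d₂ i (a 0) * d₁ i (a 0) * d₂ i (a 0) =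
                d₁ i (a j.succ) * d₂ i (a 0) := by
              rw [mul_assoc, hcomm, ← mul_assoc, div_mul_cancel₀ _ hx2, hbj]
            exact (mul_right_cancel₀ hx2 this).symm
          obtain ⟨c, hcK⟩ := hK i _ hq
          have hdep : a j.succ = c • a 0 := by
            rw [Algebra.smul_def, ← hcK, inv_mul_cancel_right₀ ha0]
          rw [Fintype.linearIndependent_iff] at hind
          have hne : (j.succ : Fin (n + 1)) ≠ 0 := Fin.succ_ne_zero j
          have := hind (fun l => if l = j.succ then 1 else if l = 0 then -c else 0) (by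
            rw [Fin.sum_univ_succ]
            have : ∀ l : Fin n, (if l.succ = j.succ then (1 : K) else if l.succ = 0 then -c else 0)
                • a l.succ = if l = j then a j.succ else 0 := by
              intro l
              by_cases hl : l = j
              · subst hl; simp
              · simp [hl]
            simp only [this, Finset.sum_ite_eq', Finset.mem_univ, if_true]
            rw [if_neg hne.symm, hdep]
            simp) j.succ
          simp at this
        · -- the bracket is a unit by induction
          have hμ' : LinearIndependent K (fun j : Fin n => μ j.succ) :=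
            hμ.comp _ (Fin.succ_injective n)
          have hun := ih (sq i) b (fun j => μ j.succ) hμ' hb0
          rw [← hbr] at hun
          exact hee ((hun.mul_left_eq_zero).1 hkill)
    · -- eliminate one coefficient
      rw [Fintype.not_linearIndependent_iff] at hind
      obtain ⟨g, hg, k, hk⟩ := hind
      rw [Fin.sum_univ_succAbove _ k] at hg
      set κ : Fin n → K := fun j => -(g k)⁻¹ * g (k.succAbove j) with hκ
      have hak : a k = ∑ j, κ j • a (k.succAbove j) := by
        have h1 : g k • a k = -∑ j, g (k.succAbove j) • a (k.succAbove j) :=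
          eq_neg_of_add_eq_zero_left hg
        have h2 : a k = (g k)⁻¹ • (g k • a k) := by
          rw [smul_smul, inv_mul_cancel₀ hk, one_smul]
        rw [h2, h1, smul_neg, Finset.smul_sum, ← Finset.sum_neg_distrib]
        refine Finset.sum_congr rfl fun j _ => ?_
        rw [hκ]
        simp only [smul_smul, neg_mul, neg_smul]
      have ha' : (fun j => a (k.succAbove j)) ≠ 0 := by
        intro h0
        apply ha
        funext l
        rcases Fin.eq_self_or_eq_succAbove k l with h | ⟨j, h⟩
        · rw [h, hak]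
          refine Finset.sum_eq_zero fun j _ => ?_
          rw [congrFun h0 j]; simp
        · rw [h]; exact congrFun h0 j
      have hfin := ih i (fun j => a (k.succAbove j)) (fun j => μ (k.succAbove j) + κ j • μ k)
        (length_induction_elim μ hμ k κ) ha'
      convert hfin using 1
      rw [Fin.sum_univ_succAbove _ k, hak, map_sum, Finset.mul_sum, ← Finset.sum_add_distrib]
      refine Finset.sum_congr rfl fun j _ => ?_
      rw [Algebra.smul_def (κ j) (a (k.succAbove j)), map_mul, hθ, map_add,
        Algebra.smul_def (κ j) (μ k), map_mul, add_mul, add_comm, ← mul_assoc, ← map_mul,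
        ← map_mul, mul_comm (μ k)]

end Pool.Agent.H4.Atiyah
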