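import Pool.Agent.H4.Atiyah.Defs

/-!
# M09 : rank functions and noncommutative domains
-/

set_option autoImplicit false

open Filter Topology
open scoped Matrix

namespace Pool.Agent.H4.Atiyah

section M09

namespace MatRank

variable {R : Type} [Ring R] (ρ : MatRank R)
variable {l m n m' n' : Type} [Fintype l] [Fintype m] [Fintype n] [Fintype m'] [Fintype n']

theorem rk_unit_mul [DecidableEq m] {P : Matrix m m R} (hP : IsUnit P) (A : Matrix m n R) :
    ρ.rk (P * A) = ρ.rk A := by
  apply le_antisymm (ρ.mul_right _ _)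
  obtain ⟨u, rfl⟩ := hP
  calc ρ.rk A = ρ.rk ((↑u⁻¹ : Matrix m m R) * ((u : Matrix m m R) * A)) := by
        rw [← Matrix.mul_assoc, Units.inv_mul, Matrix.one_mul]
    _ ≤ _ := ρ.mul_right _ _

theorem rk_mul_unit [DecidableEq n] {P : Matrix n n R} (hP : IsUnit P) (A : Matrix m n R) :
    ρ.rk (A * P) = ρ.rk A := by
  apply le_antisymm (ρ.mul_left _ _)
  obtain ⟨u, rfl⟩ := hP
  calc ρ.rk A = ρ.rk ((A * (u : Matrix n n R)) * (↑u⁻¹ : Matrix n n R)) := by
        rw [Matrix.mul_assoc, Units.mul_inv, Matrix.mul_one]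
    _ ≤ _ := ρ.mul_left _ _

theorem rk_submatrix_le (A : Matrix m n R) (e : m' → m) (f : n' → n) :
    ρ.rk (A.submatrix e f) ≤ ρ.rk A := by
  classical
  have h : A.submatrix e f = (1 : Matrix m m R).submatrix e id *
      (A * (1 : Matrix n n R).submatrix id f) := by
    ext i j
    simp [Matrix.mul_apply, Matrix.one_apply]
  rw [h]
  exact (ρ.mul_right _ _).trans (ρ.mul_left _ _)

theorem rk_submatrix (A : Matrix m n R) (e : m' ≃ m) (f : n' ≃ n) :
    ρ.rk (A.submatrix e f) = ρ.rk A := by
  apply le_antisymm (ρ.rk_submatrix_le A e f)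
  calc ρ.rk A = ρ.rk ((A.submatrix e f).submatrix e.symm f.symm) := by
        rw [Matrix.submatrix_submatrix]
        simp
    _ ≤ _ := ρ.rk_submatrix_le _ _ _

theorem rk_nonneg (A : Matrix m n R) : 0 ≤ ρ.rk A := by
  have h := ρ.rk_submatrix_le A (fun i : Empty => i.elim) (fun i : Empty => i.elim)
  have h2 : A.submatrix (fun i : Empty => i.elim) (fun i : Empty => i.elim) =
      (1 : Matrix Empty Empty R) := by
    ext i
    exact i.elim
  rw [h2, ρ.one] at h
  simpa using h

theorem rk_zero : ρ.rk (0 : Matrix m n R) = 0 := by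
  apply le_antisymm _ (ρ.rk_nonneg _)
  have h : (0 : Matrix m n R) = (0 : Matrix m Empty R) *
      ((1 : Matrix Empty Empty R) * (0 : Matrix Empty n R)) := by
    simp
  rw [h]
  refine (ρ.mul_right _ _).trans ((ρ.mul_left _ _).trans ?_)
  rw [ρ.one]
  simp

theorem rk_le_left (A : Matrix m n R) : ρ.rk A ≤ Fintype.card m := by
  classical
  calc ρ.rk A = ρ.rk ((1 : Matrix m m R) * A) := by rw [Matrix.one_mul]
    _ ≤ ρ.rk (1 : Matrix m m R) := ρ.mul_left _ _
    _ = _ := ρ.one

theorem rk_le_right (A : Matrix m n R) : ρ.rk A ≤ Fintype.card n := by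
  classical
  calc ρ.rk A = ρ.rk (A * (1 : Matrix n n R)) := by rw [Matrix.mul_one]
    _ ≤ ρ.rk (1 : Matrix n n R) := ρ.mul_right _ _
    _ = _ := ρ.one

theorem rk_of_isUnit [DecidableEq n] {P : Matrix n n R} (hP : IsUnit P) :
    ρ.rk P = Fintype.card n := by
  rw [← ρ.one (n := n), ← ρ.rk_unit_mul hP 1, Matrix.mul_one]

theorem rk_fromRows_le (A : Matrix m n R) (B : Matrix m' n R) :
    ρ.rk (Matrix.fromRows A B) ≤ ρ.rk A + ρ.rk B := by
  classical
  have h : Matrix.fromRows A B = Matrix.fromBlocks A 0 0 B *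
      Matrix.fromRows (1 : Matrix n n R) (1 : Matrix n n R) := by
    rw [← Matrix.fromRows_fromCols_eq_fromBlocks]
    rw [Matrix.fromRows_mul, Matrix.fromCols_mul_fromRows, Matrix.fromCols_mul_fromRows]
    simp
  rw [h, ← ρ.blocks]
  exact ρ.mul_left _ _

theorem rk_add_le (A B : Matrix m n R) : ρ.rk (A + B) ≤ ρ.rk A + ρ.rk B := by
  classical
  have h : A + B = Matrix.fromCols (1 : Matrix m m R) (1 : Matrix m m R) *
      Matrix.fromRows A B := by
    rw [Matrix.fromCols_mul_fromRows]
    simp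
  rw [h]
  exact (ρ.mul_right _ _).trans (ρ.rk_fromRows_le A B)

/-- Schur complement -/
theorem rk_schur [DecidableEq l] (T Y : Matrix l l R) (h1 : T * Y = 1) (h2 : Y * T = 1)
    (B : Matrix l n R) (C : Matrix m l R) (D : Matrix m n R) :
    ρ.rk (Matrix.fromBlocks T B C D) = Fintype.card l + ρ.rk (D - C * Y * B) := by
  classical
  have hT : IsUnit T := ⟨⟨T, Y, h1, h2⟩, rfl⟩
  rw [← ρ.rk_of_isUnit hT, ← ρ.blocks]
  have k1 : (Matrix.fromBlocks 1 0 (-(C * Y)) 1 : Matrix (l ⊕ m) (l ⊕ m) R) *
      Matrix.fromBlocks 1 0 (C * Y) 1 = 1 := by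
    rw [Matrix.fromBlocks_multiply]
    simp
  have k2 : (Matrix.fromBlocks 1 0 (C * Y) 1 : Matrix (l ⊕ m) (l ⊕ m) R) *
      Matrix.fromBlocks 1 0 (-(C * Y)) 1 = 1 := by
    rw [Matrix.fromBlocks_multiply]
    simp
  have k3 : (Matrix.fromBlocks 1 (-(Y * B)) 0 1 : Matrix (l ⊕ n) (l ⊕ n) R) *
      Matrix.fromBlocks 1 (Y * B) 0 1 = 1 := by
    rw [Matrix.fromBlocks_multiply]
    simp
  have k4 : (Matrix.fromBlocks 1 (Y * B) 0 1 : Matrix (l ⊕ n) (l ⊕ n) R) *
      Matrix.fromBlocks 1 (-(Y * B)) 0 1 = 1 := by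
    rw [Matrix.fromBlocks_multiply]
    simp
  have hL : IsUnit (Matrix.fromBlocks 1 0 (-(C * Y)) 1 : Matrix (l ⊕ m) (l ⊕ m) R) :=
    ⟨⟨_, _, k1, k2⟩, rfl⟩
  have hR : IsUnit (Matrix.fromBlocks 1 (-(Y * B)) 0 1 : Matrix (l ⊕ n) (l ⊕ n) R) :=
    ⟨⟨_, _, k3, k4⟩, rfl⟩
  rw [← ρ.rk_unit_mul hL (Matrix.fromBlocks T B C D), ← ρ.rk_mul_unit hR]
  congr 1
  rw [Matrix.fromBlocks_multiply, Matrix.fromBlocks_multiply]
  have e1 : C * Y * T = C := by rw [Matrix.mul_assoc, h2, Matrix.mul_one]
  have e2 : T * (Y * B) = B := by rw [← Matrix.mul_assoc, h1, Matrix.one_mul]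
  have e3 : -(C * Y) * T = -C := by rw [Matrix.neg_mul, e1]
  simp only [Matrix.one_mul, Matrix.zero_mul, add_zero, Matrix.mul_one, Matrix.mul_zero, e3,
    Matrix.mul_neg, e2, neg_add_cancel, Matrix.neg_mul]
  congr 1
  abel

end MatRank

section Ore

open Cardinal

universe u v

variable {R : Type u} [Ring R] [IsDomain R] [StrongRankCondition R]

/-- The left Ore condition. -/
theorem ore_common_multiple (a b : R) (ha : a ≠ 0) (hb : b ≠ 0) :
    ∃ x y : R, x ≠ 0 ∧ y ≠ 0 ∧ x * a = y * b := by
  by_contra hcon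
  push Not at hcon
  have hli : LinearIndependent R ![a, b] := by
    rw [LinearIndependent.pair_iff]
    intro s t hst
    rw [smul_eq_mul, smul_eq_mul] at hst
    by_cases hs : s = 0
    · refine ⟨hs, ?_⟩
      rw [hs, zero_mul, zero_add] at hst
      exact (mul_eq_zero.1 hst).resolve_right hb
    · exfalso
      by_cases ht : t = 0
      · rw [ht, zero_mul, add_zero] at hst
        exact ((mul_eq_zero.1 hst).resolve_right ha |> hs)
      · refine hcon s (-t) hs (neg_ne_zero.2 ht) ?_
        rw [neg_mul]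
        exact eq_neg_of_add_eq_zero_left hst
  have h := linearIndependent_le_basis (Module.Basis.singleton (Fin 1) R) ![a, b] hli
  simp at h

variable {M : Type v} [AddCommGroup M] [Module R M]

/-- The elements which are torsion modulo `S`. -/
def oreClosure (S : Submodule R M) : Submodule R M where
  carrier := {m | ∃ r : R, r ≠ 0 ∧ r • m ∈ S}
  zero_mem' := ⟨1, one_ne_zero, by simp⟩
  add_mem' := by
    rintro x y ⟨r, hr, hx⟩ ⟨s, hs, hy⟩
    obtain ⟨a, b, ha, hb, hab⟩ := ore_common_multiple r s hr hs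
    refine ⟨a * r, mul_ne_zero ha hr, ?_⟩
    rw [smul_add]
    refine S.add_mem ?_ ?_
    · rw [mul_smul]
      exact S.smul_mem _ hx
    · rw [hab, mul_smul]
      exact S.smul_mem _ hy
  smul_mem' := by
    rintro c x ⟨r, hr, hx⟩
    by_cases hc : c = 0
    · exact ⟨1, one_ne_zero, by simp [hc]⟩
    · obtain ⟨a, b, ha, hb, hab⟩ := ore_common_multiple c r hc hr
      refine ⟨a, ha, ?_⟩
      rw [smul_smul, hab, mul_smul]
      exact S.smul_mem _ hx

theorem mem_oreClosure {S : Submodule R M} {m : M} :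
    m ∈ oreClosure S ↔ ∃ r : R, r ≠ 0 ∧ r • m ∈ S := Iff.rfl

theorem le_oreClosure (S : Submodule R M) : S ≤ oreClosure S :=
  fun m hm => ⟨1, one_ne_zero, by simpa using hm⟩

theorem oreClosure_mono {S T : Submodule R M} (h : S ≤ T) : oreClosure S ≤ oreClosure T :=
  fun _ ⟨r, hr, hm⟩ => ⟨r, hr, h hm⟩

theorem mem_oreClosure_of_smul {S : Submodule R M} {m : M} {r : R} (hr : r ≠ 0)
    (h : r • m ∈ oreClosure S) : m ∈ oreClosure S := by
  obtain ⟨s, hs, h⟩ := h
  refine ⟨s * r, mul_ne_zero hs hr, ?_⟩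
  rwa [mul_smul]

theorem mk_le_of_torsion {ι κ : Type v} (u : ι → M) (hu : LinearIndependent R u)
    (ht : ∀ m, m ∈ oreClosure (Submodule.span R (Set.range u))) (w : κ → M)
    (hw : LinearIndependent R w) : #κ ≤ #ι := by
  choose r hr h using fun k => ht (w k)
  let w' : κ → Submodule.span R (Set.range u) := fun k => ⟨r k • w k, h k⟩
  have hw' : LinearIndependent R w' := by
    refine LinearIndependent.of_comp (Submodule.subtype _) ?_
    rw [linearIndependent_iff'] at hw ⊢
    intro s c hc i hi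
    have h2 : ∑ k ∈ s, (c k * r k) • w k = 0 := by
      rw [← hc]
      refine Finset.sum_congr rfl fun k _ => ?_
      simp [w', mul_smul]
    exact (mul_eq_zero.1 (hw s _ h2 i hi)).resolve_right (hr i)
  exact linearIndependent_le_basis (Module.Basis.span hu) w' hw'

theorem rank_eq_of_torsion {ι : Type v} (u : ι → M) (hu : LinearIndependent R u)
    (ht : ∀ m, m ∈ oreClosure (Submodule.span R (Set.range u))) :
    Module.rank R M = #ι := by
  apply le_antisymm
  · rw [Module.rank_def]
    exact ciSup_le' fun s => mk_le_of_torsion u hu ht _ s.2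
  · exact hu.cardinal_le_rank

theorem exists_maximal_family {ι : Type*} (f : ι → M) :
    ∃ s : Set ι, LinearIndependent R (fun i : s => f i) ∧
      ∀ i, f i ∈ oreClosure (Submodule.span R (Set.range fun i : s => f i)) := by
  obtain ⟨s, hs, h⟩ := exists_maximal_linearIndepOn R f
  refine ⟨s, hs, fun i => ?_⟩
  have e : (Set.range fun i : s => f i) = f '' s := by
    ext x
    simp
  by_cases hi : i ∈ s
  · exact le_oreClosure _ (Submodule.subset_span ⟨⟨i, hi⟩, rfl⟩)
  · rw [e]
    exact h i hi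

/-- Combination of maximal independent families in `N` and `M/N`. -/
theorem sumElim_maximal (N : Submodule R M) {ι κ : Type*} (f : ι → M) (hfN : ∀ i, f i ∈ N)
    (hf : LinearIndependent R f) (hft : ∀ m ∈ N, m ∈ oreClosure (Submodule.span R (Set.range f)))
    (g : κ → M) (hg : LinearIndependent R (fun k => N.mkQ (g k))) :
    LinearIndependent R (Sum.elim f g) ∧
      ∀ m : M, N.mkQ m ∈ oreClosure (Submodule.span R (Set.range fun k => N.mkQ (g k))) →
        m ∈ oreClosure (Submodule.span R (Set.range (Sum.elim f g))) := by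
  constructor
  · let f' : ι → N := fun i => ⟨f i, hfN i⟩
    have hf' : LinearIndependent R f' := LinearIndependent.of_comp N.subtype hf
    exact hf'.sumElim_of_quotient g hg
  · rintro m ⟨r, hr, hm⟩
    have e : (Submodule.span R (Set.range fun k => N.mkQ (g k))) =
        (Submodule.span R (Set.range g)).map N.mkQ := by
      rw [Submodule.map_span, ← Set.range_comp]
      rfl
    rw [e] at hm
    obtain ⟨y, hy, hy2⟩ := hm
    have h1 : r • m - y ∈ N := by
      rw [← N.ker_mkQ, LinearMap.mem_ker, map_sub, hy2, map_smul, sub_self]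
    have h2 := hft _ h1
    refine mem_oreClosure_of_smul hr ?_
    have h3 : r • m = (r • m - y) + y := by abel
    rw [h3]
    refine Submodule.add_mem _ ?_ ?_
    · refine oreClosure_mono (Submodule.span_mono ?_) h2
      rintro _ ⟨i, rfl⟩
      exact ⟨Sum.inl i, rfl⟩
    · refine le_oreClosure _ (Submodule.span_mono ?_ hy)
      rintro _ ⟨i, rfl⟩
      exact ⟨Sum.inr i, rfl⟩

end Ore

/-- The rank-nullity theorem over a (left Ore) domain with the strong rank condition. -/
theorem hasRankNullity_of_isDomain (R : Type*) [Ring R] [IsDomain R] [StrongRankCondition R] :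
    HasRankNullity.{0} R := by
  refine ⟨?_, ?_⟩
  · intro M _ _
    obtain ⟨s, hs, ht⟩ := exists_maximal_family (R := R) (id : M → M)
    exact ⟨s, (rank_eq_of_torsion _ hs fun m => ht m).symm, hs⟩
  · intro M _ _ N
    obtain ⟨s, hs, hst⟩ := exists_maximal_family (R := R) (id : N → N)
    obtain ⟨t, ht, htt⟩ := exists_maximal_family (R := R) (id : M ⧸ N → M ⧸ N)
    have hsurj : ∀ x : t, ∃ m : M, N.mkQ m = x := fun x => N.mkQ_surjective _
    choose g hg using hsurj
    have hg' : (fun k => N.mkQ (g k)) = fun x : t => (id (x : M ⧸ N)) := funext hg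
    have hft : ∀ m ∈ N, m ∈ oreClosure (Submodule.span R (Set.range fun i : s => ((i : N) : M))) := by
      intro m hm
      obtain ⟨r, hr, h⟩ := hst ⟨m, hm⟩
      refine ⟨r, hr, ?_⟩
      have e : Submodule.span R (Set.range fun i : s => ((i : N) : M)) =
          (Submodule.span R (Set.range fun i : s => (id (i : N)))).map N.subtype := by
        rw [Submodule.map_span, ← Set.range_comp]
        rfl
      rw [e]
      exact ⟨_, h, rfl⟩
    obtain ⟨h1, h2⟩ := sumElim_maximal N (fun i : s => ((i : N) : M)) (fun i => i.1.2)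
      (hs.map' N.subtype N.ker_subtype) hft g (by rw [hg']; exact ht)
    have h3 := rank_eq_of_torsion _ h1 fun m => h2 m (by rw [hg']; exact htt _)
    rw [h3, rank_eq_of_torsion _ ht htt, rank_eq_of_torsion _ hs hst]
    simp [add_comm]

theorem isUnit_diagonal_map {Λ P : Type} [Ring Λ] [Ring P] (φ : Λ →+* P)
    (hφ : ∀ a : Λ, a ≠ 0 → IsUnit (φ a)) {m : Type} [Fintype m] [DecidableEq m] (s : m → Λ)
    (hs : ∀ i, s i ≠ 0) : IsUnit ((Matrix.diagonal s).map φ) := by
  have h : (Matrix.diagonal s).map φ = Matrix.diagonalRingHom m P (fun i => φ (s i)) := by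
    rw [Matrix.diagonal_map (map_zero φ)]
    rfl
  rw [h]
  exact IsUnit.map _ (Pi.isUnit_iff.2 fun i => hφ _ (hs i))

theorem rk_eq_finrank {Λ P : Type} [Ring Λ] [IsDomain Λ] [StrongRankCondition Λ] [Ring P]
    (ρ : MatRank P) (φ : Λ →+* P) (hφ : ∀ a : Λ, a ≠ 0 → IsUnit (φ a))
    {m n : Type} [Fintype m] [Fintype n] (A : Matrix m n Λ) :
    ρ.rk (A.map φ) = Module.finrank Λ (LinearMap.range (Matrix.vecMulLinear A)) := by
  classical
  set N := LinearMap.range (Matrix.vecMulLinear A) with hN
  have hNspan : N = Submodule.span Λ (Set.range fun i : m => (A i : n → Λ)) := by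
    rw [hN, _root_.range_vecMulLinear]
    rfl
  obtain ⟨I, hI, hIt⟩ := exists_maximal_family (R := Λ) (fun i : m => (A i : n → Λ))
  have hIN : ∀ i : I, (A i : n → Λ) ∈ N := fun i => by
    rw [hNspan]
    exact Submodule.subset_span ⟨i, rfl⟩
  have hNt : ∀ x ∈ N, x ∈ oreClosure (Submodule.span Λ (Set.range fun i : I => (A i : n → Λ))) := by
    intro x hx
    have h : N ≤ oreClosure (Submodule.span Λ (Set.range fun i : I => (A i : n → Λ))) := by
      rw [hNspan, Submodule.span_le]
      rintro _ ⟨i, rfl⟩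
      exact hIt i
    exact h hx
  -- rank of `N`
  have hrN : Module.finrank Λ N = Fintype.card I := by
    have h1 : LinearIndependent Λ (fun i : I => (⟨A i, hIN i⟩ : N)) :=
      LinearIndependent.of_comp N.subtype hI
    have h2 := rank_eq_of_torsion _ h1 (by
      rintro ⟨x, hx⟩
      obtain ⟨r, hr, h⟩ := hNt x hx
      refine ⟨r, hr, ?_⟩
      have e : Submodule.span Λ (Set.range fun i : I => (A i : n → Λ)) =
          (Submodule.span Λ (Set.range fun i : I => (⟨A i, hIN i⟩ : N))).map N.subtype := by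
        rw [Submodule.map_span, ← Set.range_comp]
        rfl
      rw [e] at h
      obtain ⟨y, hy, hy2⟩ := h
      have : y = r • (⟨x, hx⟩ : N) := Subtype.ext hy2
      rwa [← this])
    rw [Module.finrank, h2]
    simp
  rw [hrN]
  let AI : Matrix I n Λ := A.submatrix Subtype.val id
  have hAI : AI.map φ = (A.map φ).submatrix Subtype.val id := rfl
  apply le_antisymm
  · -- upper bound
    choose s hs h using hIt
    have h' : ∀ i, ∃ c : I → Λ, ∑ j, c j • (A j : n → Λ) = s i • A i := fun i => by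
      exact (Submodule.mem_span_range_iff_exists_fun Λ).1 (h i)
    choose B hB using h'
    have hmat : Matrix.diagonal s * A = Matrix.of B * AI := by
      ext i k
      rw [Matrix.diagonal_mul, Matrix.mul_apply]
      have := congrFun (hB i) k
      simp only [Finset.sum_apply, Pi.smul_apply, smul_eq_mul] at this
      rw [← this]
      rfl
    have hmat2 : (Matrix.diagonal s).map φ * A.map φ = (Matrix.of B).map φ * AI.map φ := by
      rw [← Matrix.map_mul, hmat, Matrix.map_mul]
    rw [← ρ.rk_unit_mul (isUnit_diagonal_map φ hφ s hs), hmat2]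
    exact (ρ.mul_right _ _).trans (ρ.rk_le_left _)
  · -- lower bound
    obtain ⟨E, hE, hEt⟩ := exists_maximal_family (R := Λ)
      (fun l : n => N.mkQ (Pi.single l (1 : Λ) : n → Λ))
    obtain ⟨h1, h2⟩ := sumElim_maximal N (fun i : I => (A i : n → Λ)) hIN hI hNt
      (fun l : E => (Pi.single (l : n) (1 : Λ) : n → Λ)) hE
    have h3 : ∀ l : n, (Pi.single l (1 : Λ) : n → Λ) ∈ oreClosure (Submodule.span Λ
        (Set.range (Sum.elim (fun i : I => (A i : n → Λ))
          (fun l : E => (Pi.single (l : n) (1 : Λ) : n → Λ))))) := fun l => h2 _ (hEt l)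
    have h4 := rank_eq_of_torsion _ h1 (by
      intro x
      rw [← (Pi.basisFun Λ n).sum_repr x]
      refine Submodule.sum_mem _ fun l _ => Submodule.smul_mem _ _ ?_
      rw [Pi.basisFun_apply]
      exact h3 l)
    have h5 : Fintype.card n = Fintype.card I + Fintype.card E := by
      rw [rank_fun'] at h4
      have : ((Fintype.card n : ℕ) : Cardinal) = ((Fintype.card I + Fintype.card E : ℕ) : Cardinal) := by
        rw [h4]
        simp
      exact_mod_cast this
    choose t ht h using h3
    have h' : ∀ l, ∃ c : I ⊕ E → Λ, ∑ j, c j • (Sum.elim (fun i : I => (A i : n → Λ))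
        (fun l : E => (Pi.single (l : n) (1 : Λ) : n → Λ)) j) = t l • (Pi.single l (1 : Λ) : n → Λ) :=
      fun l => (Submodule.mem_span_range_iff_exists_fun Λ).1 (h l)
    choose C hC using h'
    let EM : Matrix E n Λ := (1 : Matrix n n Λ).submatrix Subtype.val id
    have hmat : Matrix.of C * Matrix.fromRows AI EM = Matrix.diagonal t := by
      ext l k
      have := congrFun (hC l) k
      rw [Matrix.mul_apply, Fintype.sum_sum_type]
      rw [Fintype.sum_sum_type] at this
      simp only [Finset.sum_apply, Pi.add_apply, Pi.smul_apply, smul_eq_mul, Sum.elim_inl,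
        Sum.elim_inr] at this
      rw [Matrix.diagonal_apply]
      have e2 : ∀ l' : n, ∀ k, (Pi.single l' (1 : Λ) : n → Λ) k = (1 : Matrix n n Λ) l' k := by
        intro l' k
        rw [Matrix.one_apply, Pi.single_apply]
        simp [eq_comm]
      simp only [e2] at this
      rw [Matrix.one_apply] at this
      simp only [mul_ite, mul_one, mul_zero] at this
      rw [← this]
      rfl
    have hmat2 : (Matrix.of C).map φ * Matrix.fromRows (AI.map φ) (EM.map φ) =
        (Matrix.diagonal t).map φ := by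
      rw [← hmat, Matrix.map_mul]
      congr 1
      ext (i | i) k <;> rfl
    have h6 := ρ.rk_of_isUnit (isUnit_diagonal_map φ hφ t ht)
    have h7 : ρ.rk ((Matrix.diagonal t).map φ) ≤ ρ.rk (AI.map φ) + ρ.rk (EM.map φ) := by
      rw [← hmat2]
      exact (ρ.mul_right _ _).trans (ρ.rk_fromRows_le _ _)
    have h8 := ρ.rk_le_left (EM.map φ)
    have h9 : ρ.rk (AI.map φ) ≤ ρ.rk (A.map φ) := ρ.rk_submatrix_le (A.map φ) _ _
    rw [h6, h5] at h7
    push_cast at h7
    linarith

end M09

end Pool.Agent.H4.Atiyah
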