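import Pool.Agent.H4.Atiyah.AlgRank
import Pool.Agent.H4.Atiyah.EssRank

/-!
# The chosen rank functions on the two ultraproducts
-/

set_option autoImplicit false

open Filter Topology
open scoped Matrix

namespace Pool.Agent.H4.Atiyah

section Ranks
variable (F : Type) [Field F] (X : ℕ → Type) [∀ j, Fintype (X j)] [∀ j, DecidableEq (X j)]
  [∀ j, Nonempty (X j)]

/-- the rank function on the algebraic ultraproduct -/
noncomputable def algRank : MatRank (UAlg F X) := (exists_algRank F X).choose

theorem algRank_regular : (algRank F X).Regular := (exists_algRank F X).choose_spec.1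

theorem algRank_map {m n : Type} [Fintype m] [Fintype n] (A : Matrix m n (Seq F X)) :
    (algRank F X).rk (A.map (UAlg.mk F X)) =
      omLim fun j => ((flat A j).rank : ℝ) / Fintype.card (X j) :=
  (exists_algRank F X).choose_spec.2 A

/-- the rank function on the analytic ultraproduct -/
noncomputable def essRank : MatRank (UEss X) := (exists_essRank X).choose

theorem essRank_regular : (essRank X).Regular := (exists_essRank X).choose_spec.1

theorem essRank_map {m n : Type} [Fintype m] [Fintype n] (A : Matrix m n (essBdd X)) :
    (essRank X).rk (A.map (UEss.mk X)) =
      essRk (fun j => flat (A.map Subtype.val) j) fun j => Fintype.card (X j) :=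
  (exists_essRank X).choose_spec.2 A

end Ranks

end Pool.Agent.H4.Atiyah
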