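import Pool.Agent.H4.Atiyah.RankLib

set_option autoImplicit false

open Filter Topology
open scoped Matrix

namespace Pool.Agent.H4.Atiyah

/-! ### M10 : rational closure -/

section M10

/-- `x` is a rational expression `r T⁻¹ c` over `φ(R)` -/
def IsRational {R P : Type} [Ring R] [Ring P] (φ : R →+* P) (x : P) : Prop :=
  ∃ (s : ℕ) (T : Matrix (Fin s) (Fin s) R) (r c : Fin s → R) (Y : Matrix (Fin s) (Fin s) P),
    T.map φ * Y = 1 ∧ Y * T.map φ = 1 ∧ x = (fun i => φ (r i)) ⬝ᵥ (Y *ᵥ fun i => φ (c i))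

/-- the row matrix of a vector -/
def rowM {ι P : Type} (v : ι → P) : Matrix Unit ι P := Matrix.of fun _ i => v i

/-- the column matrix of a vector -/
def colM {ι P : Type} (v : ι → P) : Matrix ι Unit P := Matrix.of fun i _ => v i

/-- the one by one matrix -/
def oneM {P : Type} (x : P) : Matrix Unit Unit P := Matrix.of fun _ _ => x

lemma oneM_inj {P : Type} {x y : P} (h : oneM x = oneM y) : x = y := congrFun (congrFun h ()) ()

lemma rowM_mul_mul_colM {ι P : Type} [Fintype ι] [Ring P] (r c : ι → P) (Y : Matrix ι ι P) :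
    rowM r * Y * colM c = oneM (r ⬝ᵥ (Y *ᵥ c)) := by
  ext i j
  rw [Matrix.mul_assoc]
  rfl

lemma isRational_of {R P : Type} [Ring R] [Ring P] (φ : R →+* P) {ι : Type} [Fintype ι]
    [DecidableEq ι] (T : Matrix ι ι R) (r c : ι → R) (Y : Matrix ι ι P)
    (h1 : T.map φ * Y = 1) (h2 : Y * T.map φ = 1) :
    IsRational φ ((fun i => φ (r i)) ⬝ᵥ (Y *ᵥ fun i => φ (c i))) := by
  let e := (Fintype.equivFin ι).symm
  refine ⟨Fintype.card ι, T.submatrix e e, fun i => r (e i), fun i => c (e i),
    Y.submatrix e e, ?_, ?_, ?_⟩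
  · have : (T.submatrix e e).map φ = (T.map φ).submatrix e e := rfl
    rw [this, Matrix.submatrix_mul_equiv, h1, Matrix.submatrix_one_equiv]
  · have : (T.submatrix e e).map φ = (T.map φ).submatrix e e := rfl
    rw [this, Matrix.submatrix_mul_equiv, h2, Matrix.submatrix_one_equiv]
  · simp only [dotProduct, Matrix.mulVec, Matrix.submatrix_apply]
    rw [← e.sum_comp]
    refine Finset.sum_congr rfl fun i _ => ?_
    rw [← e.sum_comp]

lemma isRational_of' {R P : Type} [Ring R] [Ring P] (φ : R →+* P) {ι : Type} [Fintype ι]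
    [DecidableEq ι] (T : Matrix ι ι R) (r c : ι → R) (Y : Matrix ι ι P)
    (h1 : T.map φ * Y = 1) (h2 : Y * T.map φ = 1) {x : P}
    (hx : rowM (fun i => φ (r i)) * Y * colM (fun i => φ (c i)) = oneM x) :
    IsRational φ x := by
  rw [rowM_mul_mul_colM] at hx
  rw [← oneM_inj hx]
  exact isRational_of φ T r c Y h1 h2

lemma isRational_map {R P : Type} [Ring R] [Ring P] (φ : R →+* P) (r : R) :
    IsRational φ (φ r) := by
  refine isRational_of' φ (ι := Unit) 1 (fun _ => r) (fun _ => 1) 1 ?_ ?_ ?_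
  · rw [mul_one]; exact Matrix.map_one φ (map_zero φ) (map_one φ)
  · rw [one_mul]; exact Matrix.map_one φ (map_zero φ) (map_one φ)
  · ext i j
    simp [rowM, colM, oneM, Matrix.mul_apply]

lemma IsRational.exists' {R P : Type} [Ring R] [Ring P] {φ : R →+* P} {x : P}
    (hx : IsRational φ x) : ∃ (s : ℕ) (T : Matrix (Fin s) (Fin s) R) (r c : Fin s → R)
      (Y : Matrix (Fin s) (Fin s) P), T.map φ * Y = 1 ∧ Y * T.map φ = 1 ∧
      rowM (fun i => φ (r i)) * Y * colM (fun i => φ (c i)) = oneM x := by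
  obtain ⟨s, T, r, c, Y, h1, h2, h3⟩ := hx
  exact ⟨s, T, r, c, Y, h1, h2, by rw [rowM_mul_mul_colM, h3]⟩

lemma rowM_elim {ι κ P : Type} (v : ι → P) (w : κ → P) :
    rowM (Sum.elim v w) = Matrix.fromCols (rowM v) (rowM w) := by
  ext i (j | j) <;> rfl

lemma colM_elim {ι κ P : Type} (v : ι → P) (w : κ → P) :
    colM (Sum.elim v w) = Matrix.fromRows (colM v) (colM w) := by
  ext (j | j) i <;> rfl

lemma map_elim {ι κ R P : Type} (φ : R → P) (v : ι → R) (w : κ → R) :
    (fun i => φ (Sum.elim v w i)) = Sum.elim (fun i => φ (v i)) (fun i => φ (w i)) := by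
  funext i; cases i <;> rfl

lemma oneM_add {P : Type} [Ring P] (x y : P) : oneM (x + y) = oneM x + oneM y := rfl

lemma oneM_mul {P : Type} [Ring P] (x y : P) : oneM (x * y) = oneM x * oneM y := by
  ext i j; simp [oneM, Matrix.mul_apply]

lemma oneM_neg {P : Type} [Ring P] (x : P) : oneM (-x) = -oneM x := rfl

lemma oneM_zero {P : Type} [Ring P] : oneM (0 : P) = 0 := rfl

lemma oneM_one {P : Type} [Ring P] : oneM (1 : P) = 1 := by
  ext i j; simp [oneM]

lemma rowM_zero {ι P : Type} [Ring P] : rowM (fun _ : ι => (0 : P)) = 0 := rfl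

lemma colM_zero {ι P : Type} [Ring P] : colM (fun _ : ι => (0 : P)) = 0 := rfl

lemma isRational_add {R P : Type} [Ring R] [Ring P] {φ : R →+* P} {x y : P}
    (hx : IsRational φ x) (hy : IsRational φ y) : IsRational φ (x + y) := by
  obtain ⟨s, T, r, c, Y, h1, h2, h3⟩ := hx.exists'
  obtain ⟨s', T', r', c', Y', h1', h2', h3'⟩ := hy.exists'
  refine isRational_of' φ (Matrix.fromBlocks T 0 0 T') (Sum.elim r r') (Sum.elim c c')
    (Matrix.fromBlocks Y 0 0 Y') ?_ ?_ ?_
  · rw [Matrix.fromBlocks_map, Matrix.fromBlocks_multiply]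
    simp [h1, h1']
  · rw [Matrix.fromBlocks_map, Matrix.fromBlocks_multiply]
    simp [h2, h2']
  · rw [map_elim, map_elim, rowM_elim, colM_elim, Matrix.fromCols_mul_fromBlocks,
      Matrix.fromCols_mul_fromRows]
    simp only [Matrix.mul_zero, add_zero, zero_add]
    rw [h3, h3', oneM_add]

lemma isRational_mul {R P : Type} [Ring R] [Ring P] {φ : R →+* P} {x y : P}
    (hx : IsRational φ x) (hy : IsRational φ y) : IsRational φ (x * y) := by
  obtain ⟨s, T, r, c, Y, h1, h2, h3⟩ := hx.exists'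
  obtain ⟨s', T', r', c', Y', h1', h2', h3'⟩ := hy.exists'
  have hC : (colM c * rowM r').map φ = colM (fun i => φ (c i)) * rowM (fun i => φ (r' i)) := by
    ext i j
    simp [colM, rowM, Matrix.mul_apply]
  refine isRational_of' φ (Matrix.fromBlocks T (-(colM c * rowM r')) 0 T')
    (Sum.elim r (fun _ => 0)) (Sum.elim (fun _ => 0) c')
    (Matrix.fromBlocks Y (Y * (colM (fun i => φ (c i)) * rowM (fun i => φ (r' i))) * Y') 0 Y')
    ?_ ?_ ?_
  · rw [Matrix.fromBlocks_map, Matrix.fromBlocks_multiply]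
    have hneg : (-(colM c * rowM r')).map φ
        = -(colM (fun i => φ (c i)) * rowM (fun i => φ (r' i))) := by
      ext i j
      have hij := congrFun (congrFun hC i) j
      rw [Matrix.map_apply] at hij
      rw [Matrix.map_apply, Matrix.neg_apply, Matrix.neg_apply, map_neg, hij]
    rw [hneg]
    have e1 : T.map φ * (Y * (colM (fun i => φ (c i)) * rowM (fun i => φ (r' i))) * Y')
        = (colM (fun i => φ (c i)) * rowM (fun i => φ (r' i))) * Y' := by
      rw [← Matrix.mul_assoc, ← Matrix.mul_assoc, h1, Matrix.one_mul]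
    rw [e1]
    simp [h1, h1']
  · rw [Matrix.fromBlocks_map, Matrix.fromBlocks_multiply]
    have hneg : (-(colM c * rowM r')).map φ
        = -(colM (fun i => φ (c i)) * rowM (fun i => φ (r' i))) := by
      ext i j
      have hij := congrFun (congrFun hC i) j
      rw [Matrix.map_apply] at hij
      rw [Matrix.map_apply, Matrix.neg_apply, Matrix.neg_apply, map_neg, hij]
    rw [hneg]
    have e1 : Y * (colM (fun i => φ (c i)) * rowM (fun i => φ (r' i))) * Y' * T'.map φ
        = Y * (colM (fun i => φ (c i)) * rowM (fun i => φ (r' i))) := by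
      rw [Matrix.mul_assoc, h2', Matrix.mul_one]
    rw [e1]
    simp [h2, h2']
  · rw [map_elim, map_elim, rowM_elim, colM_elim, Matrix.fromCols_mul_fromBlocks,
      Matrix.fromCols_mul_fromRows]
    simp only [map_zero, rowM_zero, colM_zero, Matrix.mul_zero, Matrix.zero_mul, add_zero,
      zero_add]
    rw [oneM_mul, ← h3, ← h3']
    simp only [Matrix.mul_assoc]

lemma isRational_neg {R P : Type} [Ring R] [Ring P] {φ : R →+* P} {x : P}
    (hx : IsRational φ x) : IsRational φ (-x) := by
  have h := isRational_mul (isRational_map φ (-1)) hx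
  rwa [map_neg, map_one, neg_one_mul] at h

theorem exists_ratClosure {R P : Type} [Ring R] [Ring P] (φ : R →+* P) :
    ∃ D : Subring P, (∀ x, x ∈ D ↔ IsRational φ x) ∧ ∀ r, φ r ∈ D := by
  refine ⟨{ carrier := {x | IsRational φ x}
            mul_mem' := fun ha hb => isRational_mul ha hb
            one_mem' := by
              have := isRational_map φ 1
              rwa [map_one] at this
            add_mem' := fun ha hb => isRational_add ha hb
            zero_mem' := by
              have := isRational_map φ 0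
              rwa [map_zero] at this
            neg_mem' := fun ha => isRational_neg ha }, fun x => Iff.rfl, fun r => ?_⟩
  exact isRational_map φ r

theorem IsRational.inv {R P : Type} [Ring R] [Ring P] (φ : R →+* P) {x y : P}
    (hx : IsRational φ x) (h1 : x * y = 1) (h2 : y * x = 1) : IsRational φ y := by
  obtain ⟨s, T, r, c, Y, e1, e2, e3⟩ := hx.exists'
  set C : Matrix (Fin s) Unit P := colM (fun i => φ (c i)) with hC
  set Rr : Matrix Unit (Fin s) P := rowM (fun i => φ (r i)) with hR
  have hCm : (colM c).map φ = C := rfl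
  have hRm : (rowM r).map φ = Rr := rfl
  have hxy : Rr * Y * C * oneM y = 1 := by rw [e3, ← oneM_mul, h1, oneM_one]
  have hyx : oneM y * (Rr * Y * C) = 1 := by rw [e3, ← oneM_mul, h2, oneM_one]
  refine isRational_of' φ (Matrix.fromBlocks T (colM c) (rowM r) 0)
    (Sum.elim (fun _ => 0) (fun _ => -1)) (Sum.elim (fun _ => 0) (fun _ => 1))
    (Matrix.fromBlocks (Y - Y * C * oneM y * (Rr * Y)) (Y * C * oneM y) (oneM y * (Rr * Y))
      (-oneM y)) ?_ ?_ ?_
  · rw [Matrix.fromBlocks_map, Matrix.fromBlocks_multiply, hCm, hRm, ← Matrix.fromBlocks_one]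
    congr 1
    · rw [Matrix.mul_sub, e1]
      have : T.map φ * (Y * C * oneM y * (Rr * Y)) = C * (oneM y * (Rr * Y)) := by
        simp only [← Matrix.mul_assoc, e1, Matrix.one_mul]
      rw [this, sub_add_cancel]
    · have : T.map φ * (Y * C * oneM y) = C * oneM y := by
        simp only [← Matrix.mul_assoc, e1, Matrix.one_mul]
      rw [this, Matrix.mul_neg, add_neg_cancel]
    · have : Rr * (Y * C * oneM y * (Rr * Y)) = (Rr * Y * C * oneM y) * (Rr * Y) := by
        simp only [Matrix.mul_assoc]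
      rw [Matrix.mul_sub, this, hxy, Matrix.one_mul, sub_self, zero_add]
      ext i j; simp
    · have : Rr * (Y * C * oneM y) = Rr * Y * C * oneM y := by
        simp only [Matrix.mul_assoc]
      rw [this, hxy]
      ext i j; simp
  · rw [Matrix.fromBlocks_map, Matrix.fromBlocks_multiply, hCm, hRm, ← Matrix.fromBlocks_one]
    congr 1
    · rw [Matrix.sub_mul, e2]
      have : Y * C * oneM y * (Rr * Y) * T.map φ = Y * C * oneM y * Rr := by
        simp only [Matrix.mul_assoc, e2, Matrix.mul_one]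
      rw [this, sub_add_cancel]
    · have : Y * C * oneM y * (Rr * Y) * C = Y * C * (oneM y * (Rr * Y * C)) := by
        simp only [Matrix.mul_assoc]
      rw [Matrix.sub_mul, this, hyx, Matrix.mul_one, sub_self, zero_add]
      ext i j; simp
    · have : oneM y * (Rr * Y) * T.map φ = oneM y * Rr := by
        simp only [Matrix.mul_assoc, e2, Matrix.mul_one]
      rw [this, Matrix.neg_mul, add_neg_cancel]
    · have : oneM y * (Rr * Y) * C = oneM y * (Rr * Y * C) := by
        simp only [Matrix.mul_assoc]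
      rw [this, hyx]
      ext i j; simp
  · rw [map_elim, map_elim, rowM_elim, colM_elim, Matrix.fromCols_mul_fromBlocks,
      Matrix.fromCols_mul_fromRows]
    simp only [map_zero, map_neg, map_one, rowM_zero, colM_zero, Matrix.mul_zero,
      Matrix.zero_mul, zero_add]
    ext i j
    simp [rowM, colM, oneM, Matrix.mul_apply]

theorem IsRational.zero_or_unit {R P₁ P₂ : Type} [Ring R] [Ring P₁] [Ring P₂]
    (ρ₁ : MatRank P₁) (ρ₂ : MatRank P₂) (h₁ : ρ₁.Regular) (h₂ : ρ₂.Regular)
    (φ₁ : R →+* P₁) (φ₂ : R →+* P₂)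
    (h : ∀ (s : ℕ) (A : Matrix (Fin s) (Fin s) R), ∃ n : ℕ,
      ρ₁.rk (A.map φ₁) = n ∧ ρ₂.rk (A.map φ₂) = n)
    {x : P₁ × P₂} (hx : IsRational (φ₁.prod φ₂) x) : x = 0 ∨ IsUnit x := by
  obtain ⟨s, T, r, c, Y, e1, e2, e3⟩ := hx.exists'
  -- the matrix `[[T, c], [r, 0]]`
  let M : Matrix (Fin s ⊕ Unit) (Fin s ⊕ Unit) R := Matrix.fromBlocks T (colM c) (rowM r) 0
  let e : Fin (s + 1) ≃ Fin s ⊕ Unit :=
    (Fintype.equivFinOfCardEq (by simp)).symm
  obtain ⟨n, hn1, hn2⟩ := h (s + 1) (M.submatrix e e)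
  have key : ∀ {P : Type} [Ring P] (ρ : MatRank P) (φ : R →+* P) (Z : Matrix (Fin s) (Fin s) P)
      (z : P), T.map φ * Z = 1 → Z * T.map φ = 1 →
      rowM (fun i => φ (r i)) * Z * colM (fun i => φ (c i)) = oneM z →
      ρ.rk ((M.submatrix e e).map φ) = s + ρ.rk (oneM (-z)) := by
    intro P _ ρ φ Z z g1 g2 g3
    have k1 : (M.submatrix e e).map φ = (M.map φ).submatrix e e := rfl
    rw [k1, ρ.rk_submatrix]
    have k2 : M.map φ = Matrix.fromBlocks (T.map φ) (colM fun i => φ (c i))
        (rowM fun i => φ (r i)) 0 := by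
      show (Matrix.fromBlocks T (colM c) (rowM r) 0).map φ = _
      rw [Matrix.fromBlocks_map]
      congr 1
      ext i j; simp
    rw [k2, ρ.rk_schur (T.map φ) Z g1 g2, g3, Fintype.card_fin]
    congr 2
    rw [oneM_neg, zero_sub]
  have f1 : T.map φ₁ * Y.map Prod.fst = 1 := by
    have := congrArg (fun A : Matrix (Fin s) (Fin s) (P₁ × P₂) => A.map (RingHom.fst P₁ P₂)) e1
    simp only [Matrix.map_mul] at this
    rw [Matrix.map_one _ (map_zero _) (map_one _)] at this
    exact this
  have f2 : Y.map Prod.fst * T.map φ₁ = 1 := by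
    have := congrArg (fun A : Matrix (Fin s) (Fin s) (P₁ × P₂) => A.map (RingHom.fst P₁ P₂)) e2
    simp only [Matrix.map_mul] at this
    rw [Matrix.map_one _ (map_zero _) (map_one _)] at this
    exact this
  have f3 : rowM (fun i => φ₁ (r i)) * Y.map Prod.fst * colM (fun i => φ₁ (c i))
      = oneM x.1 := by
    have := congrArg (fun A : Matrix Unit Unit (P₁ × P₂) => A.map (RingHom.fst P₁ P₂)) e3
    simp only [Matrix.map_mul] at this
    exact this
  have g1 : T.map φ₂ * Y.map Prod.snd = 1 := by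
    have := congrArg (fun A : Matrix (Fin s) (Fin s) (P₁ × P₂) => A.map (RingHom.snd P₁ P₂)) e1
    simp only [Matrix.map_mul] at this
    rw [Matrix.map_one _ (map_zero _) (map_one _)] at this
    exact this
  have g2 : Y.map Prod.snd * T.map φ₂ = 1 := by
    have := congrArg (fun A : Matrix (Fin s) (Fin s) (P₁ × P₂) => A.map (RingHom.snd P₁ P₂)) e2
    simp only [Matrix.map_mul] at this
    rw [Matrix.map_one _ (map_zero _) (map_one _)] at this
    exact this
  have g3 : rowM (fun i => φ₂ (r i)) * Y.map Prod.snd * colM (fun i => φ₂ (c i))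
      = oneM x.2 := by
    have := congrArg (fun A : Matrix Unit Unit (P₁ × P₂) => A.map (RingHom.snd P₁ P₂)) e3
    simp only [Matrix.map_mul] at this
    exact this
  have r1 := key ρ₁ φ₁ _ _ f1 f2 f3
  have r2 := key ρ₂ φ₂ _ _ g1 g2 g3
  rw [hn1] at r1
  rw [hn2] at r2
  have b1 := ρ₁.rk_nonneg (oneM (-x.1))
  have b2 := ρ₁.rk_le_left (oneM (-x.1))
  rw [Fintype.card_unit, Nat.cast_one] at b2
  have hs1 : (s : ℝ) ≤ n := by linarith
  have hs2 : (n : ℝ) ≤ s + 1 := by linarith
  have hs1' : s ≤ n := by exact_mod_cast hs1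
  have hs2' : n ≤ s + 1 := by exact_mod_cast hs2
  have unit_of : ∀ {P : Type} [Ring P] (z : P), IsUnit (oneM (-z)) → IsUnit z := by
    intro P _ z hz
    obtain ⟨u, hu⟩ := hz
    have a1 := u.mul_inv
    have a2 := u.inv_mul
    rw [hu] at a1 a2
    have b1 := congrFun (congrFun a1 ()) ()
    have b2 := congrFun (congrFun a2 ()) ()
    simp only [Matrix.mul_apply, oneM, Matrix.of_apply, Finset.univ_unique, PUnit.default_eq_unit,
      Finset.sum_singleton, Matrix.one_apply_eq] at b1 b2
    exact ⟨⟨z, -((↑u⁻¹ : Matrix Unit Unit P) () ()), by rw [mul_neg, ← neg_mul]; exact b1,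
      by rw [neg_mul, ← mul_neg]; exact b2⟩, rfl⟩
  rcases Nat.lt_or_ge n (s + 1) with hlt | hge
  · left
    have hns : n = s := by omega
    rw [hns] at r1 r2
    have z1 : ρ₁.rk (oneM (-x.1)) = 0 := by linarith
    have z2 : ρ₂.rk (oneM (-x.2)) = 0 := by linarith
    have y1 := h₁.eq_zero _ z1
    have y2 := h₂.eq_zero _ z2
    exact Prod.ext (neg_eq_zero.mp y1) (neg_eq_zero.mp y2)
  · right
    have hns : n = s + 1 := by omega
    rw [hns] at r1 r2
    push_cast at r1 r2
    have z1 : ρ₁.rk (oneM (-x.1)) = Fintype.card Unit := by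
      rw [Fintype.card_unit, Nat.cast_one]; linarith
    have z2 : ρ₂.rk (oneM (-x.2)) = Fintype.card Unit := by
      rw [Fintype.card_unit, Nat.cast_one]; linarith
    exact Prod.isUnit_iff.mpr ⟨unit_of _ (h₁.isUnit _ z1), unit_of _ (h₂.isUnit _ z2)⟩

end M10

end Pool.Agent.H4.Atiyah
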