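import Pool.Agent.H4.Atiyah.CFRBasic

/-!
# Finitely generated projective modules over complete filtered rings are free
-/

set_option autoImplicit false

namespace Pool.Agent.H4.Atiyah

namespace CFR

variable {k : Type} [Field k] {D : ℕ} {A : Type} [Ring A] (c : CFR k D A)

/-- In a minimal generating set, the coefficients of a relation are in `F 1`. -/
theorem free_aux_min {M : Type} [AddCommGroup M] [Module A M] [DecidableEq M] (S : Finset M)
    (hS : Submodule.span A (S : Set M) = ⊤)
    (hmin : ∀ T : Finset M, Submodule.span A (T : Set M) = ⊤ → S.card ≤ T.card)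
    (v : S → A) (hv : ∑ s, v s • (s : M) = 0) (s : S) : v s ∈ c.F 1 := by
  by_contra hs
  obtain ⟨u, hu⟩ := c.isUnit_of_notMem _ hs
  have hmem : (s : M) ∈ Submodule.span A ((S.erase s : Finset M) : Set M) := by
    have h1 : v s • (s : M) = - ∑ t ∈ Finset.univ.erase s, v t • (t : M) := by
      rw [← Finset.add_sum_erase _ _ (Finset.mem_univ s)] at hv
      exact eq_neg_of_add_eq_zero_left hv
    have h2 : (s : M) = (↑u⁻¹ : A) • (v s • (s : M)) := by
      rw [← hu, smul_smul, Units.inv_mul, one_smul]
    have h5 : (↑u⁻¹ : A) • (-∑ t ∈ Finset.univ.erase s, v t • (t : M)) ∈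
        Submodule.span A ((S.erase s : Finset M) : Set M) := by
      refine Submodule.smul_mem _ _ (Submodule.neg_mem _ (Submodule.sum_mem _ fun t ht => ?_))
      refine Submodule.smul_mem _ _ (Submodule.subset_span ?_)
      simp only [Finset.coe_erase, Set.mem_sdiff, SetLike.mem_coe, Set.mem_singleton_iff]
      refine ⟨t.2, fun h => ?_⟩
      exact (Finset.mem_erase.1 ht).1 (Subtype.ext h)
    rwa [← h1, ← h2] at h5
  have hspan : Submodule.span A ((S.erase s : Finset M) : Set M) = ⊤ := by
    rw [eq_top_iff, ← hS, Submodule.span_le]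
    intro t ht
    by_cases hts : t = (s : M)
    · rw [hts]
      exact hmem
    · apply Submodule.subset_span
      simp only [Finset.coe_erase, Set.mem_sdiff, Set.mem_singleton_iff]
      exact ⟨ht, hts⟩
  have h3 := hmin _ hspan
  rw [Finset.card_erase_of_mem s.2] at h3
  have h4 : 0 < S.card := Finset.card_pos.2 ⟨_, s.2⟩
  omega

include c in
theorem free_of_projective (M : Type) [AddCommGroup M] [Module A M] [Module.Finite A M]
    [Module.Projective A M] : Module.Free A M := by
  classical
  obtain ⟨S, hS, hmin⟩ : ∃ S : Finset M, Submodule.span A (S : Set M) = ⊤ ∧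
      ∀ T : Finset M, Submodule.span A (T : Set M) = ⊤ → S.card ≤ T.card := by
    have hex : ∃ n, ∃ S : Finset M, S.card = n ∧ Submodule.span A (S : Set M) = ⊤ := by
      obtain ⟨S, hS⟩ := (Module.Finite.fg_top : (⊤ : Submodule A M).FG)
      exact ⟨_, S, rfl, hS⟩
    obtain ⟨S, hc, hS⟩ := Nat.find_spec hex
    refine ⟨S, hS, fun T hT => ?_⟩
    rw [hc]
    exact Nat.find_min' hex ⟨T, rfl, hT⟩
  let f : (S → A) →ₗ[A] M := Fintype.linearCombination A (fun s : S => (s : M))
  have hf : ∀ v, f v = ∑ s, v s • (s : M) := fun v => Fintype.linearCombination_apply _ _ _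
  have hsurj : Function.Surjective f := by
    rw [← LinearMap.range_eq_top, Fintype.range_linearCombination, ← hS]
    congr 1
    ext x
    simp
  obtain ⟨g, hg⟩ := Module.projective_lifting_property f LinearMap.id hsurj
  have hgf : ∀ x, f (g x) = x := fun x => LinearMap.congr_fun hg x
  let N : (S → A) →ₗ[A] (S → A) := LinearMap.id - g.comp f
  have hNdef : ∀ v, N v = v - g (f v) := fun v => rfl
  have hNN : ∀ v, N (N v) = N v := by
    intro v
    have : f (N v) = 0 := by rw [hNdef, map_sub, hgf, sub_self]
    rw [hNdef (N v), this, map_zero, sub_zero]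
  have h1 : ∀ v s, N v s ∈ c.F 1 := by
    intro v s
    refine free_aux_min c S hS hmin (N v) ?_ s
    rw [← hf, hNdef, map_sub, hgf, sub_self]
  have hexp : ∀ v s, N v s = ∑ t, v t * N (Pi.single t 1) s := by
    intro v s
    have hv : v = ∑ t, v t • (Pi.single t (1 : A) : S → A) := by
      ext s
      simp [Finset.sum_apply, Pi.single_apply]
    conv_lhs => rw [hv]
    rw [map_sum, Finset.sum_apply]
    refine Finset.sum_congr rfl fun t _ => ?_
    rw [map_smul, Pi.smul_apply, smul_eq_mul]
  have hk : ∀ n, ∀ v s, N v s ∈ c.F n := by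
    intro n
    induction n with
    | zero =>
      intro v s
      rw [c.F_zero]
      exact AddSubgroup.mem_top _
    | succ n ih =>
      intro v s
      rw [← hNN v, hexp]
      exact AddSubgroup.sum_mem _ fun t _ => c.mul_mem (ih v t) (h1 _ s)
  have hN0 : ∀ v, N v = 0 := fun v => funext fun s => c.sep _ fun n => hk n v s
  have hinj : Function.Injective f := by
    rw [← LinearMap.ker_eq_bot, LinearMap.ker_eq_bot']
    intro v hv
    have := hN0 v
    rw [hNdef, hv, map_zero, sub_zero] at this
    exact this
  exact Module.Free.of_equiv (LinearEquiv.ofBijective f ⟨hinj, hsurj⟩)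

end CFR

end Pool.Agent.H4.Atiyah
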