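import Pool.Agent.H4.Atiyah.Filt

/-!
# Reduction mod `p` of the completed group ring
-/

set_option autoImplicit false

open Filter Topology

namespace Pool.Agent.H4.Atiyah

namespace LamLiftAux

section General

variable {C : Type} [CommRing C] (𝒯 : Sys)

theorem coeff_tr (j : ℕ) (a : MonoidAlgebra C (𝒯.Q (j + 1))) (q : 𝒯.Q j) :
    (MonoidAlgebra.mapDomainRingHom C (𝒯.tr j) a).coeff q =
      ∑ q', if 𝒯.tr j q' = q then a.coeff q' else 0 := by
  have h : (MonoidAlgebra.mapDomainRingHom C (𝒯.tr j) a).coeff =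
      Finsupp.mapDomain (𝒯.tr j) a.coeff := rfl
  rw [h, Finsupp.mapDomain, Finsupp.sum_apply, Finsupp.sum_fintype _ _ (by simp)]
  refine Finset.sum_congr rfl fun q' _ => ?_
  rw [Finsupp.single_apply]

theorem compat (a : Lam C 𝒯) (j : ℕ) (q : 𝒯.Q j) :
    (∑ q', if 𝒯.tr j q' = q then (a.1 (j + 1)).coeff q' else 0) = (a.1 j).coeff q := by
  rw [← coeff_tr, a.2 j]

/-- construct an element of the completed group ring from its coefficients -/
noncomputable def mkLam (f : ∀ j, 𝒯.Q j → C)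
    (h : ∀ j q, (∑ q', if 𝒯.tr j q' = q then f (j + 1) q' else 0) = f j q) : Lam C 𝒯 :=
  ⟨fun j => MonoidAlgebra.ofCoeff (Finsupp.equivFunOnFinite.symm (f j)), by
    intro j
    apply MonoidAlgebra.ext
    ext q
    rw [coeff_tr]
    exact h j q⟩

@[simp] theorem mkLam_coeff (f : ∀ j, 𝒯.Q j → C)
    (h : ∀ j q, (∑ q', if 𝒯.tr j q' = q then f (j + 1) q' else 0) = f j q) (j : ℕ) (q : 𝒯.Q j) :
    ((mkLam 𝒯 f h).1 j).coeff q = f j q := rfl

variable {𝒯} in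
theorem ext' {a b : Lam C 𝒯} (h : ∀ j q, (a.1 j).coeff q = (b.1 j).coeff q) : a = b := by
  apply Subtype.ext
  funext j
  apply MonoidAlgebra.ext
  ext q
  exact h j q

theorem natCast_mul_coeff (n : ℕ) (a : Lam C 𝒯) (j : ℕ) (q : 𝒯.Q j) :
    (((n : Lam C 𝒯) * a).1 j).coeff q = (n : C) * (a.1 j).coeff q := by
  rw [← nsmul_eq_mul]
  have h : (n • a : Lam C 𝒯).1 j = n • a.1 j := rfl
  rw [h, MonoidAlgebra.coeff_smul_apply, nsmul_eq_mul]

theorem pow_mul_coeff (p n : ℕ) (a : Lam C 𝒯) (j : ℕ) (q : 𝒯.Q j) :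
    (((p : Lam C 𝒯) ^ n * a).1 j).coeff q = (p : C) ^ n * (a.1 j).coeff q := by
  rw [← Nat.cast_pow, natCast_mul_coeff, Nat.cast_pow]

theorem sub_coeff (a b : Lam C 𝒯) (j : ℕ) (q : 𝒯.Q j) :
    ((a - b).1 j).coeff q = (a.1 j).coeff q - (b.1 j).coeff q := rfl

theorem sum_coeff (s : Finset ℕ) (a : ℕ → Lam C 𝒯) (j : ℕ) (q : 𝒯.Q j) :
    ((∑ i ∈ s, a i).1 j).coeff q = ∑ i ∈ s, ((a i).1 j).coeff q := by
  classical
  induction s using Finset.induction_on with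
  | empty => simp
  | insert i s hi ih =>
    rw [Finset.sum_insert hi, Finset.sum_insert hi, ← ih]
    rfl

theorem tr_surj (j : ℕ) : Function.Surjective (𝒯.tr j) := by
  intro q
  obtain ⟨g, rfl⟩ := 𝒯.π_surj j q
  exact ⟨𝒯.π (j + 1) g, 𝒯.tr_π j g⟩

end General

section Padic

variable (p : ℕ) [Fact p.Prime] (𝒯 : Sys)

theorem toZMod_eq_zero_iff (x : ℤ_[p]) : PadicInt.toZMod x = 0 ↔ ∃ y, x = (p : ℤ_[p]) * y := by
  rw [← RingHom.mem_ker, PadicInt.ker_toZMod, PadicInt.maximalIdeal_eq_span_p,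
    Ideal.mem_span_singleton]
  rfl

theorem eq_zero_of_forall_dvd (x : ℤ_[p]) (h : ∀ n : ℕ, ∃ y, x = (p : ℤ_[p]) ^ n * y) : x = 0 := by
  by_contra hx
  have hu : ¬ IsUnit (p : ℤ_[p]) := PadicInt.prime_p.not_isUnit
  have hf : FiniteMultiplicity (p : ℤ_[p]) x := FiniteMultiplicity.of_not_isUnit hu hx
  obtain ⟨n, hn⟩ := hf
  exact hn (h (n + 1))

theorem p_ne_zero : (p : ℤ_[p]) ≠ 0 := PadicInt.prime_p.ne_zero

/-- the reduction map -/
noncomputable def red : Lam ℤ_[p] 𝒯 →+* Lam (ZMod p) 𝒯 :=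
  RingHom.codRestrict (RingHom.pi fun j =>
    (MonoidAlgebra.mapRingHom (𝒯.Q j) (PadicInt.toZMod (p := p))).comp
      ((Pi.evalRingHom (fun j => MonoidAlgebra ℤ_[p] (𝒯.Q j)) j).comp
        (Lam ℤ_[p] 𝒯).subtype)) (Lam (ZMod p) 𝒯) (by
    intro a j
    have ha := a.2 j
    change MonoidAlgebra.mapDomainRingHom (ZMod p) (𝒯.tr j)
      (MonoidAlgebra.mapRingHom (𝒯.Q (j + 1)) PadicInt.toZMod (a.1 (j + 1))) =
      MonoidAlgebra.mapRingHom (𝒯.Q j) PadicInt.toZMod (a.1 j)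
    rw [← ha, ← RingHom.comp_apply (MonoidAlgebra.mapDomainRingHom (ZMod p) (𝒯.tr j)),
      ← MonoidAlgebra.mapRingHom_comp_mapDomainRingHom, RingHom.comp_apply])

theorem red_coeff (a : Lam ℤ_[p] 𝒯) (j : ℕ) (q : 𝒯.Q j) :
    ((red p 𝒯 a).1 j).coeff q = PadicInt.toZMod ((a.1 j).coeff q) := by
  have h : (red p 𝒯 a).1 j = MonoidAlgebra.mapRingHom (𝒯.Q j) PadicInt.toZMod (a.1 j) := rfl
  rw [h, MonoidAlgebra.coeff_mapRingHom]

theorem toZMod_surj : Function.Surjective (PadicInt.toZMod (p := p)) := by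
  intro x
  refine ⟨((x.val : ℕ) : ℤ_[p]), ?_⟩
  rw [map_natCast]
  exact ZMod.natCast_zmod_val x

/-- one step of the lifting -/
theorem exists_step (b : Lam (ZMod p) 𝒯) (j : ℕ)
    (f : {f : 𝒯.Q j → ℤ_[p] // ∀ q, PadicInt.toZMod (f q) = (b.1 j).coeff q}) :
    ∃ g : {g : 𝒯.Q (j + 1) → ℤ_[p] // ∀ q, PadicInt.toZMod (g q) = (b.1 (j + 1)).coeff q},
      ∀ q, (∑ q', if 𝒯.tr j q' = q then g.1 q' else 0) = f.1 q := by
  classical
  obtain ⟨f, hf⟩ := f
  choose g0 hg0 using fun q => toZMod_surj p ((b.1 (j + 1)).coeff q)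
  have h1 : ∀ q, ∃ c, f q - (∑ q', if 𝒯.tr j q' = q then g0 q' else 0) = (p : ℤ_[p]) * c := by
    intro q
    rw [← toZMod_eq_zero_iff, map_sub, map_sum, hf, ← compat 𝒯 b j q, sub_eq_zero]
    refine Finset.sum_congr rfl fun q' _ => ?_
    split_ifs
    · rw [hg0]
    · rw [map_zero]
  choose c hc using h1
  choose σ hσ using tr_surj 𝒯 j
  refine ⟨⟨fun q' => g0 q' + if σ (𝒯.tr j q') = q' then (p : ℤ_[p]) * c (𝒯.tr j q') else 0, ?_⟩, ?_⟩
  · intro q'
    rw [map_add, hg0]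
    have : PadicInt.toZMod (if σ (𝒯.tr j q') = q' then (p : ℤ_[p]) * c (𝒯.tr j q') else 0) =
        (0 : ZMod p) := by
      split_ifs
      · exact (toZMod_eq_zero_iff p _).2 ⟨_, rfl⟩
      · exact map_zero _
    rw [this, add_zero]
  · intro q
    have h2 : ∀ q', (if 𝒯.tr j q' = q then
        (g0 q' + if σ (𝒯.tr j q') = q' then (p : ℤ_[p]) * c (𝒯.tr j q') else 0) else 0) =
        (if 𝒯.tr j q' = q then g0 q' else 0) +
          (if q' = σ q then (p : ℤ_[p]) * c q else 0) := by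
      intro q'
      by_cases hq : 𝒯.tr j q' = q
      · rw [if_pos hq, if_pos hq, hq]
        by_cases hs : σ q = q'
        · rw [if_pos hs, if_pos hs.symm]
        · rw [if_neg hs, if_neg (Ne.symm hs)]
      · rw [if_neg hq, if_neg hq, if_neg, add_zero]
        rintro rfl
        exact hq (hσ q)
    change (∑ q', if 𝒯.tr j q' = q then
        (g0 q' + if σ (𝒯.tr j q') = q' then (p : ℤ_[p]) * c (𝒯.tr j q') else 0) else 0) = f q
    rw [Finset.sum_congr rfl fun q' _ => h2 q', Finset.sum_add_distrib, Finset.sum_ite_eq',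
      if_pos (Finset.mem_univ _), ← hc q]
    ring

theorem red_surj : Function.Surjective (red p 𝒯) := by
  classical
  intro b
  have h0 : ∃ f : 𝒯.Q 0 → ℤ_[p], ∀ q, PadicInt.toZMod (f q) = (b.1 0).coeff q := by
    choose f hf using fun q => toZMod_surj p ((b.1 0).coeff q)
    exact ⟨f, hf⟩
  let F : ∀ j, {f : 𝒯.Q j → ℤ_[p] // ∀ q, PadicInt.toZMod (f q) = (b.1 j).coeff q} :=
    fun j => Nat.rec ⟨h0.choose, h0.choose_spec⟩ (fun j f => (exists_step p 𝒯 b j f).choose) j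
  have hF : ∀ j q, (∑ q', if 𝒯.tr j q' = q then (F (j + 1)).1 q' else 0) = (F j).1 q :=
    fun j => (exists_step p 𝒯 b j (F j)).choose_spec
  refine ⟨mkLam 𝒯 (fun j => (F j).1) hF, ext' fun j q => ?_⟩
  rw [red_coeff, mkLam_coeff]
  exact (F j).2 q

theorem red_ker (a : Lam ℤ_[p] 𝒯) : red p 𝒯 a = 0 ↔ ∃ b, a = (p : Lam ℤ_[p] 𝒯) * b := by
  constructor
  · intro h
    have h1 : ∀ j (q : 𝒯.Q j), ∃ y, (a.1 j).coeff q = (p : ℤ_[p]) * y := by
      intro j q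
      rw [← toZMod_eq_zero_iff, ← red_coeff, h]
      rfl
    choose y hy using h1
    refine ⟨mkLam 𝒯 y ?_, ext' fun j q => ?_⟩
    · intro j q
      apply mul_left_cancel₀ (p_ne_zero p)
      rw [← hy, ← compat 𝒯 a j q, Finset.mul_sum]
      refine Finset.sum_congr rfl fun q' _ => ?_
      split_ifs
      · rw [hy]
      · rw [mul_zero]
    · rw [natCast_mul_coeff, mkLam_coeff, hy]
  · rintro ⟨b, rfl⟩
    refine ext' fun j q => ?_
    rw [red_coeff, natCast_mul_coeff]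
    exact (toZMod_eq_zero_iff p _).2 ⟨_, rfl⟩

theorem summable_aux (x : ℕ → ℤ_[p]) : Summable fun i => (p : ℤ_[p]) ^ i * x i := by
  refine Summable.of_norm_bounded (g := fun i => ((p : ℝ)⁻¹) ^ i) ?_ ?_
  · apply summable_geometric_of_lt_one
    · positivity
    · exact inv_lt_one_of_one_lt₀ (by exact_mod_cast (Fact.out : p.Prime).one_lt)
  · intro i
    rw [norm_mul, norm_pow, PadicInt.norm_p]
    calc ((p : ℝ)⁻¹) ^ i * ‖x i‖ ≤ ((p : ℝ)⁻¹) ^ i * 1 := by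
          gcongr
          exact PadicInt.norm_le_one _
      _ = _ := mul_one _

/-- the sum of a `p`-adic series in the completed group ring -/
noncomputable def tsumLam (a : ℕ → Lam ℤ_[p] 𝒯) : Lam ℤ_[p] 𝒯 :=
  mkLam 𝒯 (fun j q => ∑' i, (p : ℤ_[p]) ^ i * ((a i).1 j).coeff q) (by
    intro j q
    have h1 : ∀ q', (if 𝒯.tr j q' = q then
        ∑' i, (p : ℤ_[p]) ^ i * ((a i).1 (j + 1)).coeff q' else 0) =
        ∑' i, (p : ℤ_[p]) ^ i * (if 𝒯.tr j q' = q then ((a i).1 (j + 1)).coeff q' else 0) := by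
      intro q'
      split_ifs
      · rfl
      · simp
    rw [Finset.sum_congr rfl fun q' _ => h1 q', ← Summable.tsum_finsetSum]
    · congr 1
      funext i
      rw [← Finset.mul_sum, compat]
    · intro q' _
      exact summable_aux p _)

theorem tsumLam_eq (a : ℕ → Lam ℤ_[p] 𝒯) (n : ℕ) :
    tsumLam p 𝒯 a - ∑ i ∈ Finset.range n, (p : Lam ℤ_[p] 𝒯) ^ i * a i =
      (p : Lam ℤ_[p] 𝒯) ^ n * tsumLam p 𝒯 (fun i => a (i + n)) := by
  refine ext' fun j q => ?_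
  rw [sub_coeff, sum_coeff, pow_mul_coeff]
  simp only [tsumLam, mkLam_coeff, pow_mul_coeff]
  have h := (summable_aux p fun i => ((a i).1 j).coeff q).sum_add_tsum_nat_add n
  rw [← h, add_sub_cancel_left,
    ← (summable_aux p fun i => ((a (i + n)).1 j).coeff q).tsum_mul_left]
  congr 1
  funext i
  rw [pow_add]
  ring

/-- the lifting structure -/
noncomputable def lift : PLift (Lam ℤ_[p] 𝒯) (Lam (ZMod p) 𝒯) where
  π := (p : Lam ℤ_[p] 𝒯)
  comm := fun a => Nat.cast_comm p a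
  reg := by
    intro a ha
    refine ext' fun j q => ?_
    have h := congrArg (fun b : Lam ℤ_[p] 𝒯 => (b.1 j).coeff q) ha
    simp only [natCast_mul_coeff] at h
    have h2 : (p : ℤ_[p]) * (a.1 j).coeff q = 0 := h
    exact (mul_eq_zero.1 h2).resolve_left (p_ne_zero p)
  red := red p 𝒯
  surj := red_surj p 𝒯
  ker := red_ker p 𝒯
  sep := by
    intro a ha
    refine ext' fun j q => ?_
    apply eq_zero_of_forall_dvd p
    intro n
    obtain ⟨b, hb⟩ := ha n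
    exact ⟨(b.1 j).coeff q, by rw [← pow_mul_coeff, ← hb]⟩
  complete := fun a => ⟨tsumLam p 𝒯 a, fun n => ⟨_, tsumLam_eq p 𝒯 a n⟩⟩

end Padic

end LamLiftAux

theorem exists_lamLift (p : ℕ) [Fact p.Prime] (𝒯 : Sys) :
    ∃ L : PLift (Lam ℤ_[p] 𝒯) (Lam (ZMod p) 𝒯), L.π = (p : Lam ℤ_[p] 𝒯) ∧
      ∀ a j, (L.red a).1 j = MonoidAlgebra.mapRingHom (𝒯.Q j) PadicInt.toZMod (a.1 j) :=
  ⟨LamLiftAux.lift p 𝒯, rfl, fun _ _ => rfl⟩

end Pool.Agent.H4.Atiyah
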