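import Pool.Agent.H4.Atiyah.PLiftBasic

/-!
# M15b : lifting projective dimension along a central regular element
-/

set_option autoImplicit false

open Filter Topology CategoryTheory

namespace Pool.Agent.H4.Atiyah

/-- shifting projective dimension along a short exact sequence with projective middle term -/
theorem hasPDLT_iff_of_exact {R : Type} [Ring R] {K F M : Type} [AddCommGroup K] [Module R K]
    [AddCommGroup F] [Module R F] [AddCommGroup M] [Module R M] [Module.Projective R F]
    (f : K →ₗ[R] F) (g : F →ₗ[R] M) (hf : Function.Injective f) (hfg : Function.Exact f g)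
    (hg : Function.Surjective g) (n : ℕ) :
    HasProjectiveDimensionLT (ModuleCat.of R M) (n + 2) ↔
      HasProjectiveDimensionLT (ModuleCat.of R K) (n + 1) := by
  have h1 := ModuleCat.shortComplex_shortExact
    (ModuleCat.shortComplexOfCompEqZero f g hfg.linearMap_comp_eq_zero) hfg hf hg
  exact h1.hasProjectiveDimensionLT_X₃_iff n
    ((IsProjective.iff_projective (R := R) F).1 inferInstance)

theorem projective_iff_hasPDLT_one {R : Type} [Ring R] {M : Type} [AddCommGroup M] [Module R M] :
    Module.Projective R M ↔ HasProjectiveDimensionLT (ModuleCat.of R M) 1 := by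
  rw [← projective_iff_hasProjectiveDimensionLT_one]
  exact IsProjective.iff_projective (R := R) M

namespace PLift

variable {Λ R : Type} [Ring Λ] [Ring R] (L : PLift Λ R)

/-- reduction of a presentation of a torsion free module -/
theorem red_exact {F K : Type} [AddCommGroup F] [Module Λ F] [AddCommGroup K] [Module Λ K]
    (htf : ∀ x : K, L.π • x = 0 → x = 0) (f : F →ₗ[Λ] K) (hf : Function.Surjective f) :
    Function.Injective (L.redMap (LinearMap.ker f).subtype) ∧
    Function.Exact (L.redMap (LinearMap.ker f).subtype) (L.redMap f) ∧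
    Function.Surjective (L.redMap f) := by
  refine ⟨?_, ?_, ?_⟩
  · rw [injective_iff_map_eq_zero]
    intro x hx
    obtain ⟨x, rfl⟩ := L.pr_surjective x
    rw [redMap_pr, pr_eq_zero] at hx
    obtain ⟨y, hy⟩ := hx
    have hy' : x.1 = L.π • y := hy
    have h1 : f y = 0 := by
      apply htf
      rw [← map_smul, ← hy']
      exact x.2
    exact (L.pr_eq_zero _).2 ⟨⟨y, h1⟩, Subtype.ext hy'⟩
  · intro x
    constructor
    · intro hx
      obtain ⟨x, rfl⟩ := L.pr_surjective x
      rw [redMap_pr, pr_eq_zero] at hx
      obtain ⟨y, hy⟩ := hx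
      obtain ⟨z, rfl⟩ := hf y
      have h1 : f (x - L.π • z) = 0 := by rw [map_sub, map_smul, hy, sub_self]
      refine ⟨L.pr ⟨x - L.π • z, h1⟩, ?_⟩
      rw [redMap_pr]
      change L.pr (x - L.π • z) = L.pr x
      rw [map_sub, L.pr_pi_smul, sub_zero]
    · rintro ⟨y, rfl⟩
      obtain ⟨y, rfl⟩ := L.pr_surjective y
      rw [redMap_pr, redMap_pr]
      change L.pr (f y.1) = 0
      rw [show f y.1 = 0 from y.2, map_zero]
  · intro x
    obtain ⟨x, rfl⟩ := L.pr_surjective x
    obtain ⟨y, rfl⟩ := hf x
    exact ⟨L.pr y, rfl⟩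

theorem hasPDLT_of_red [IsNoetherianRing R]
    (hfree : ∀ (M : Type) [AddCommGroup M] [Module R M] [Module.Finite R M]
      [Module.Projective R M], Module.Free R M) (t : ℕ) :
    ∀ (K : Type) [AddCommGroup K] [Module Λ K] [Module.Finite Λ K],
      (∀ x : K, L.π • x = 0 → x = 0) →
      HasProjectiveDimensionLT (ModuleCat.of R (L.Red K)) (t + 1) →
      HasProjectiveDimensionLT (ModuleCat.of Λ K) (t + 1) := by
  have hN : IsNoetherianRing Λ := L.isNoetherianRing
  induction t with
  | zero =>
    intro K _ _ _ htf h
    have hproj : Module.Projective R (L.Red K) := projective_iff_hasPDLT_one.2 h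
    have hfin : Module.Finite R (L.Red K) := L.red_finite K
    have hfr : Module.Free Λ K := L.free_of_red htf (hfree (L.Red K))
    exact projective_iff_hasPDLT_one.1 inferInstance
  | succ t ih =>
    intro K _ _ _ htf h
    obtain ⟨n, f, hf⟩ := Module.Finite.exists_fin' Λ K
    obtain ⟨h1, h2, h3⟩ := L.red_exact htf f hf
    have hproj0 : Module.Projective R (L.Red (Fin n → Λ)) :=
      Module.Projective.of_equiv (L.redFun (Fin n)).symm
    have h4 := (hasPDLT_iff_of_exact _ _ h1 h2 h3 t).1 h
    have h5 := ih (LinearMap.ker f) (fun x hx => Subtype.ext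
      (L.torsionFree_fun x.1 (congrArg Subtype.val hx))) h4
    exact (hasPDLT_iff_of_exact (LinearMap.ker f).subtype f (Submodule.subtype_injective _)
      (LinearMap.exact_subtype_ker_map f) hf t).2 h5

include L in
theorem hasProjectiveDimensionLT [IsNoetherianRing R]
    (hfree : ∀ (M : Type) [AddCommGroup M] [Module R M] [Module.Finite R M]
      [Module.Projective R M], Module.Free R M) (N : ℕ)
    (hpd : ∀ (M : Type) [AddCommGroup M] [Module R M] [Module.Finite R M],
      HasProjectiveDimensionLT (ModuleCat.of R M) (N + 1))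
    (M : Type) [AddCommGroup M] [Module Λ M] [Module.Finite Λ M] :
    HasProjectiveDimensionLT (ModuleCat.of Λ M) (N + 2) := by
  have hN : IsNoetherianRing Λ := L.isNoetherianRing
  obtain ⟨n, f, hf⟩ := Module.Finite.exists_fin' Λ M
  have hfin : Module.Finite R (L.Red (LinearMap.ker f)) := L.red_finite _
  have h5 := L.hasPDLT_of_red hfree N (LinearMap.ker f) (fun x hx => Subtype.ext
      (L.torsionFree_fun x.1 (congrArg Subtype.val hx))) (hpd _)
  exact (hasPDLT_iff_of_exact (LinearMap.ker f).subtype f (Submodule.subtype_injective _)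
      (LinearMap.exact_subtype_ker_map f) hf N).2 h5

end PLift

end Pool.Agent.H4.Atiyah
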