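import Pool.Agent.H4.Atiyah.TowerMono

/-!
# The mod `p` completed group ring of a tower is a complete filtered ring
-/

set_option autoImplicit false

namespace Pool.Agent.H4.Atiyah.TowerCFRAux

open Pool.Agent.H4.Atiyah

variable {p : ℕ} [Fact p.Prime] {d : ℕ} {𝒯 : Sys} {x : Fin d → 𝒯.G} (h : IsTower p 𝒯 d x)

/-- basis of ordered monomials at level `j` -/
noncomputable def mb (j : ℕ) :
    Module.Basis (Fin d → Fin (p ^ j)) (ZMod p) (MonoidAlgebra (ZMod p) (𝒯.Q j)) :=
  Module.Basis.mk (mono_linearIndependent p 𝒯 x h j) (TowerMonoAux.span_le_top h j)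

theorem mb_apply (j : ℕ) (α : Fin d → Fin (p ^ j)) :
    mb h j α = mono p (fun l => 𝒯.π j (x l)) fun l => (α l : ℕ) := by
  simp [mb]

open Classical in
/-- coefficient of the monomial `α` at level `j` -/
noncomputable def coef (j : ℕ) (α : Fin d → ℕ) : MonoidAlgebra (ZMod p) (𝒯.Q j) →ₗ[ZMod p] ZMod p :=
  if hα : ∀ l, α l < p ^ j then (mb h j).coord fun l => ⟨α l, hα l⟩ else 0

open Classical in
theorem coef_mono (j : ℕ) (α β : Fin d → ℕ) :
    coef h j α (mono p (fun l => 𝒯.π j (x l)) β) = if α = β ∧ ∀ l, α l < p ^ j then 1 else 0 := by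
  unfold coef
  by_cases hβ : ∀ l, β l < p ^ j
  · have e : mono p (fun l => 𝒯.π j (x l)) β = mb h j fun l => ⟨β l, hβ l⟩ := by
      rw [mb_apply]
    rw [e]
    by_cases hα : ∀ l, α l < p ^ j
    · rw [dif_pos hα]
      rw [Module.Basis.coord_apply, Module.Basis.repr_self, Finsupp.single_apply]
      congr 1
      simp only [hα, implies_true, and_true, eq_iff_iff]
      constructor
      · intro h1
        funext l
        exact (congrArg Fin.val (congrFun h1 l)).symm
      · rintro rfl
        rfl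
    · rw [dif_neg hα, if_neg fun h1 => hα h1.2, LinearMap.zero_apply]
  · push Not at hβ
    obtain ⟨l, hl⟩ := hβ
    rw [mono_eq_zero p 𝒯 x h j β l hl, map_zero, if_neg]
    rintro ⟨rfl, h2⟩
    exact absurd (h2 l) (not_lt.2 hl)

theorem coef_eq_zero (j : ℕ) (α : Fin d → ℕ) (hα : ¬ ∀ l, α l < p ^ j)
    (a : MonoidAlgebra (ZMod p) (𝒯.Q j)) : coef h j α a = 0 := by
  unfold coef
  rw [dif_neg hα, LinearMap.zero_apply]

/-- the transition map -/
noncomputable abbrev trm (p : ℕ) (𝒯 : Sys) (j : ℕ) :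
    MonoidAlgebra (ZMod p) (𝒯.Q (j + 1)) →+* MonoidAlgebra (ZMod p) (𝒯.Q j) :=
  MonoidAlgebra.mapDomainRingHom (ZMod p) (𝒯.tr j)

theorem trm_mono (j : ℕ) (α : Fin d → ℕ) :
    trm p 𝒯 j (mono p (fun l => 𝒯.π (j + 1) (x l)) α) = mono p (fun l => 𝒯.π j (x l)) α := by
  unfold mono
  rw [map_list_prod, List.map_ofFn]
  congr 2
  funext l
  simp only [Function.comp_apply, map_pow, map_sub, map_one]
  congr 2
  simp [𝒯.tr_π]

theorem coef_trm (j : ℕ) (α : Fin d → ℕ) (hα : ∀ l, α l < p ^ j)
    (a : MonoidAlgebra (ZMod p) (𝒯.Q (j + 1))) :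
    coef h j α (trm p 𝒯 j a) = coef h (j + 1) α a := by
  classical
  have hα' : ∀ l, α l < p ^ (j + 1) := fun l =>
    (hα l).trans_le (Nat.pow_le_pow_right (Fact.out : p.Prime).pos (Nat.le_succ j))
  rw [← (mb h (j + 1)).sum_repr a, map_sum, map_sum, map_sum]
  refine Finset.sum_congr rfl fun β _ => ?_
  rw [mb_apply, ZMod.map_smul (trm p 𝒯 j), trm_mono, map_smul, map_smul, coef_mono, coef_mono]
  simp [hα, hα']

theorem mem_monoSpan_iff (j n : ℕ) (a : MonoidAlgebra (ZMod p) (𝒯.Q j)) :
    a ∈ monoSpan p (fun l => 𝒯.π j (x l)) n ↔ ∀ α : Fin d → ℕ, ∑ l, α l < n → coef h j α a = 0 := by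
  classical
  constructor
  · intro ha α hα
    unfold monoSpan at ha
    induction ha using Submodule.span_induction with
    | mem a ha =>
      obtain ⟨β, hβ, rfl⟩ := ha
      rw [coef_mono, if_neg]
      rintro ⟨rfl, -⟩
      omega
    | zero => simp
    | add a b _ _ ha hb => rw [map_add, ha, hb, add_zero]
    | smul c a _ ha => rw [map_smul, ha, smul_zero]
  · intro ha
    rw [← (mb h j).sum_repr a]
    refine Submodule.sum_mem _ fun β _ => ?_
    rcases lt_or_ge (∑ l, (β l : ℕ)) n with hβ | hβ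
    · have := ha (fun l => (β l : ℕ)) hβ
      unfold coef at this
      rw [dif_pos (fun l => (β l).2), Module.Basis.coord_apply] at this
      rw [show β = fun l => ⟨(β l : ℕ), (β l).2⟩ from rfl, this, zero_smul]
      exact Submodule.zero_mem _
    · rw [mb_apply]
      exact Submodule.smul_mem _ _ (Submodule.subset_span ⟨_, hβ, rfl⟩)

/-! ## coefficients of elements of the completed group ring -/

/-- the coefficient of `α` -/
noncomputable def cc (a : Lam (ZMod p) 𝒯) (α : Fin d → ℕ) : ZMod p :=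
  coef h (∑ l, α l) α (a.1 (∑ l, α l))

theorem coef_eq_of_le (a : Lam (ZMod p) 𝒯) {i j : ℕ} (hij : i ≤ j) (α : Fin d → ℕ)
    (hα : ∀ l, α l < p ^ i) : coef h j α (a.1 j) = coef h i α (a.1 i) := by
  induction j, hij using Nat.le_induction with
  | base => rfl
  | succ j hij ih =>
    rw [← ih, ← coef_trm h j α (fun l => (hα l).trans_le
      (Nat.pow_le_pow_right (Fact.out : p.Prime).pos hij)), trm, a.2 j]

theorem lt_pow_sum (α : Fin d → ℕ) (l : Fin d) : α l < p ^ ∑ l, α l :=
  (Finset.single_le_sum (f := α) (fun _ _ => Nat.zero_le _) (Finset.mem_univ l)).trans_lt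
    (Nat.lt_pow_self (Fact.out : p.Prime).one_lt)

theorem coef_eq_cc (a : Lam (ZMod p) 𝒯) (j : ℕ) (α : Fin d → ℕ) (hα : ∀ l, α l < p ^ j) :
    coef h j α (a.1 j) = cc h a α := by
  unfold cc
  rcases le_total j (∑ l, α l) with hj | hj
  · exact (coef_eq_of_le h a hj α hα).symm
  · exact coef_eq_of_le h a hj α fun l => lt_pow_sum α l

/-- the filtration -/
noncomputable def FF (p : ℕ) {𝒯 : Sys} {d : ℕ} (x : Fin d → 𝒯.G) (n : ℕ) : AddSubgroup (Lam (ZMod p) 𝒯) where
  carrier := {a | ∀ j, a.1 j ∈ monoSpan p (fun l => 𝒯.π j (x l)) n}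
  add_mem' ha hb j := Submodule.add_mem _ (ha j) (hb j)
  zero_mem' _ := Submodule.zero_mem _
  neg_mem' ha j := Submodule.neg_mem _ (ha j)

omit [Fact p.Prime] in
theorem mem_FF {n : ℕ} {a : Lam (ZMod p) 𝒯} :
    a ∈ FF p x n ↔ ∀ j, a.1 j ∈ monoSpan p (fun l => 𝒯.π j (x l)) n := Iff.rfl

theorem mem_FF_iff {n : ℕ} {a : Lam (ZMod p) 𝒯} :
    a ∈ FF p x n ↔ ∀ α : Fin d → ℕ, ∑ l, α l < n → cc h a α = 0 := by
  rw [mem_FF]
  constructor
  · intro ha α hα
    exact (mem_monoSpan_iff h _ n _).1 (ha _) α hα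
  · intro ha j
    rw [mem_monoSpan_iff h]
    intro α hα
    by_cases h1 : ∀ l, α l < p ^ j
    · rw [coef_eq_cc h a j α h1, ha α hα]
    · exact coef_eq_zero h j α h1 _

theorem cc_add (a b : Lam (ZMod p) 𝒯) (α : Fin d → ℕ) : cc h (a + b) α = cc h a α + cc h b α :=
  map_add _ _ _

theorem cc_zero (α : Fin d → ℕ) : cc h (0 : Lam (ZMod p) 𝒯) α = 0 := map_zero _

theorem cc_nsmul (n : ℕ) (a : Lam (ZMod p) 𝒯) (α : Fin d → ℕ) : cc h (n • a) α = n • cc h a α :=
  map_nsmul (coef h (∑ l, α l) α) n _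

theorem cc_sum {ι : Type*} (s : Finset ι) (f : ι → Lam (ZMod p) 𝒯) (α : Fin d → ℕ) :
    cc h (∑ i ∈ s, f i) α = ∑ i ∈ s, cc h (f i) α := by
  classical
  induction s using Finset.induction with
  | empty => simp [cc_zero]
  | insert i s hi ih => rw [Finset.sum_insert hi, Finset.sum_insert hi, cc_add, ih]

/-- the symbols -/
noncomputable def sy (n : ℕ) (a : Lam (ZMod p) 𝒯) : MvPolynomial (Fin d) (ZMod p) :=
  ∑ s ∈ Finset.finsuppAntidiag Finset.univ n, MvPolynomial.monomial s (cc h a s)

theorem mem_ant {n : ℕ} {s : Fin d →₀ ℕ} :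
    s ∈ Finset.finsuppAntidiag (Finset.univ : Finset (Fin d)) n ↔ ∑ l, s l = n := by
  rw [Finset.mem_finsuppAntidiag]
  simp

theorem coeff_sy (n : ℕ) (a : Lam (ZMod p) 𝒯) (s : Fin d →₀ ℕ) :
    (sy h n a).coeff s = if ∑ l, s l = n then cc h a s else 0 := by
  classical
  unfold sy
  rw [MvPolynomial.coeff_sum]
  simp only [MvPolynomial.coeff_monomial]
  rw [Finset.sum_ite_eq']
  simp only [mem_ant]

theorem coef_mul (j m n : ℕ) (a b : MonoidAlgebra (ZMod p) (𝒯.Q j))
    (ha : a ∈ monoSpan p (fun l => 𝒯.π j (x l)) m) (hb : b ∈ monoSpan p (fun l => 𝒯.π j (x l)) n)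
    (s : Fin d →₀ ℕ) (hs : ∑ l, s l = m + n) (hq : ∀ l, s l < p ^ j) :
    coef h j s (a * b) = ∑ uv ∈ Finset.HasAntidiagonal.antidiagonal s,
      (if ∑ l, uv.1 l = m then coef h j uv.1 a else 0) *
        (if ∑ l, uv.2 l = n then coef h j uv.2 b else 0) := by
  classical
  unfold monoSpan at ha hb
  induction ha using Submodule.span_induction with
  | zero => simp
  | add a a' _ _ ha ha' =>
    rw [add_mul, map_add, ha, ha', ← Finset.sum_add_distrib]
    refine Finset.sum_congr rfl fun uv _ => ?_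
    rw [map_add]
    split_ifs <;> ring
  | smul c a _ ha =>
    rw [Algebra.smul_mul_assoc, map_smul, ha, smul_eq_mul, Finset.mul_sum]
    refine Finset.sum_congr rfl fun uv _ => ?_
    rw [map_smul, smul_eq_mul]
    split_ifs <;> ring
  | mem a ha =>
    obtain ⟨α, hα, rfl⟩ := ha
    induction hb using Submodule.span_induction with
    | zero => simp
    | add b b' _ _ hb hb' =>
      rw [mul_add, map_add, hb, hb', ← Finset.sum_add_distrib]
      refine Finset.sum_congr rfl fun uv _ => ?_
      rw [map_add]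
      split_ifs <;> ring
    | smul c b _ hb =>
      rw [Algebra.mul_smul_comm, map_smul, hb, smul_eq_mul, Finset.mul_sum]
      refine Finset.sum_congr rfl fun uv _ => ?_
      rw [map_smul, smul_eq_mul]
      split_ifs <;> ring
    | mem b hb =>
      obtain ⟨β, hβ, rfl⟩ := hb
      have h1 := mono_mul_sub p 𝒯 x h j α β
      have h2 := (mem_monoSpan_iff h _ _ _).1 h1 s (by omega)
      rw [map_sub, sub_eq_zero] at h2
      rw [h2, coef_mono]
      have huv : ∀ uv ∈ Finset.HasAntidiagonal.antidiagonal s, (∀ l, uv.1 l < p ^ j) ∧ ∀ l, uv.2 l < p ^ j := by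
        intro uv huv
        rw [Finset.HasAntidiagonal.mem_antidiagonal] at huv
        constructor
        · intro l
          have := hq l
          rw [← huv, Finsupp.add_apply] at this
          omega
        · intro l
          have := hq l
          rw [← huv, Finsupp.add_apply] at this
          omega
      by_cases hs2 : (s : Fin d → ℕ) = α + β
      · rw [if_pos ⟨hs2, hq⟩]
        have hsum : ∑ l, s l = ∑ l, α l + ∑ l, β l := by
          rw [hs2, ← Finset.sum_add_distrib]
          rfl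
        rw [Finset.sum_eq_single (Finsupp.equivFunOnFinite.symm α, Finsupp.equivFunOnFinite.symm β)]
        · have hm : ∑ l, α l = m := by omega
          have hn : ∑ l, β l = n := by omega
          have e1 : ⇑(Finsupp.equivFunOnFinite.symm α) = α := rfl
          have e2 : ⇑(Finsupp.equivFunOnFinite.symm β) = β := rfl
          have h3 : ∀ l, α l < p ^ j ∧ β l < p ^ j := by
            intro l
            have h4 := hq l
            rw [hs2, Pi.add_apply] at h4
            omega
          simp only [e1, e2]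
          rw [if_pos hm, if_pos hn, coef_mono, coef_mono, if_pos ⟨rfl, fun l => (h3 l).1⟩,
            if_pos ⟨rfl, fun l => (h3 l).2⟩, mul_one]
        · rintro ⟨u, v⟩ huv' hne
          have h3 := huv _ huv'
          rw [Finset.HasAntidiagonal.mem_antidiagonal] at huv'
          simp only [coef_mono]
          by_cases hu : (u : Fin d → ℕ) = α
          · by_cases hv : (v : Fin d → ℕ) = β
            · exfalso
              apply hne
              ext l
              · simp [hu]
              · simp [hv]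
            · simp [hv]
          · simp [hu]
        · intro h3
          exfalso
          apply h3
          rw [Finset.HasAntidiagonal.mem_antidiagonal]
          ext l
          simp only [Finsupp.add_apply]
          rw [hs2]
          rfl
      · rw [if_neg fun h3 => hs2 h3.1]
        symm
        refine Finset.sum_eq_zero fun uv huv' => ?_
        rw [Finset.HasAntidiagonal.mem_antidiagonal] at huv'
        simp only [coef_mono]
        by_cases hu : (uv.1 : Fin d → ℕ) = α
        · by_cases hv : (uv.2 : Fin d → ℕ) = β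
          · exfalso
            apply hs2
            rw [← hu, ← hv, ← huv', Finsupp.coe_add]
          · simp [hv]
        · simp [hu]

theorem sy_mul {m n : ℕ} {a b : Lam (ZMod p) 𝒯} (ha : a ∈ FF p x m) (hb : b ∈ FF p x n) :
    sy h (m + n) (a * b) = sy h m a * sy h n b := by
  classical
  ext s
  rw [MvPolynomial.coeff_mul, coeff_sy]
  simp only [coeff_sy]
  by_cases hs : ∑ l, s l = m + n
  · rw [if_pos hs]
    have hq : ∀ l, s l < p ^ (m + n) := by
      intro l
      rw [← hs]
      exact lt_pow_sum _ l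
    rw [← coef_eq_cc h _ (m + n) s hq]
    have h1 := coef_mul h (m + n) m n (a.1 (m + n)) (b.1 (m + n)) (ha _) (hb _) s hs hq
    have e : (a * b).1 (m + n) = a.1 (m + n) * b.1 (m + n) := rfl
    rw [e, h1]
    refine Finset.sum_congr rfl fun uv huv => ?_
    rw [Finset.HasAntidiagonal.mem_antidiagonal] at huv
    rw [coef_eq_cc h, coef_eq_cc h]
    · intro l
      have := hq l
      rw [← huv, Finsupp.add_apply] at this
      omega
    · intro l
      have := hq l
      rw [← huv, Finsupp.add_apply] at this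
      omega
  · rw [if_neg hs]
    symm
    refine Finset.sum_eq_zero fun uv huv => ?_
    rw [Finset.HasAntidiagonal.mem_antidiagonal] at huv
    by_cases hu : ∑ l, uv.1 l = m
    · by_cases hv : ∑ l, uv.2 l = n
      · exfalso
        apply hs
        rw [← hu, ← hv, ← huv, ← Finset.sum_add_distrib]
        rfl
      · simp [hv]
    · simp [hu]

/-- the ordered monomials in the completed group ring -/
noncomputable def Mo (p : ℕ) {𝒯 : Sys} {d : ℕ} (x : Fin d → 𝒯.G) (α : Fin d → ℕ) : Lam (ZMod p) 𝒯 :=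
  (List.ofFn fun l => (toLam (ZMod p) 𝒯 (MonoidAlgebra.single (x l) 1) - 1) ^ α l).prod

theorem Mo_val (α : Fin d → ℕ) (j : ℕ) : (Mo p x α).1 j = mono p (fun l => 𝒯.π j (x l)) α := by
  have h1 := map_list_prod ((Pi.evalRingHom (fun j => MonoidAlgebra (ZMod p) (𝒯.Q j)) j).comp
    (Lam (ZMod p) 𝒯).subtype) (List.ofFn fun l =>
      (toLam (ZMod p) 𝒯 (MonoidAlgebra.single (x l) 1) - 1) ^ α l)
  rw [List.map_ofFn] at h1
  refine h1.trans ?_
  unfold mono
  congr 2
  funext l
  simp only [Function.comp_apply, map_pow, map_sub, map_one]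
  congr 2
  change MonoidAlgebra.mapDomainRingHom (ZMod p) (𝒯.π j) (MonoidAlgebra.single (x l) 1) = _
  simp

theorem cc_Mo (α β : Fin d → ℕ) : cc h (Mo p x α) β = if β = α then 1 else 0 := by
  classical
  unfold cc
  rw [Mo_val, coef_mono]
  simp only [lt_pow_sum, implies_true, and_true]

theorem sy_surj (n : ℕ) (P : MvPolynomial (Fin d) (ZMod p)) (hP : P.IsHomogeneous n) :
    ∃ a ∈ FF p x n, sy h n a = P := by
  classical
  have key : ∀ β : Fin d →₀ ℕ, cc h (∑ s ∈ P.support, (P.coeff s).val • Mo p x s) β = P.coeff β := by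
    intro β
    rw [cc_sum]
    simp only [cc_nsmul, cc_Mo]
    rw [Finset.sum_eq_single β]
    · rw [if_pos rfl, nsmul_eq_mul, mul_one, ZMod.natCast_zmod_val]
    · intro s _ hs
      rw [if_neg, smul_zero]
      intro h1
      exact hs (DFunLike.coe_injective h1).symm
    · intro h1
      rw [MvPolynomial.notMem_support_iff] at h1
      rw [h1, if_pos rfl]
      simp
  have hdeg : ∀ β : Fin d →₀ ℕ, P.coeff β ≠ 0 → ∑ l, β l = n := by
    intro β hβ
    have h1 := hP hβ
    rw [← h1, Finsupp.weight_apply, Finsupp.sum_fintype _ _ (by simp)]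
    simp
  refine ⟨∑ s ∈ P.support, (P.coeff s).val • Mo p x s, ?_, ?_⟩
  · rw [mem_FF_iff h]
    intro α hα
    have h1 := key (Finsupp.equivFunOnFinite.symm α)
    have e1 : ⇑(Finsupp.equivFunOnFinite.symm α) = α := rfl
    rw [e1] at h1
    rw [h1]
    by_contra h2
    have h3 := hdeg _ h2
    rw [e1] at h3
    omega
  · ext s
    rw [coeff_sy, key]
    split_ifs with h1
    · rfl
    · by_contra h2
      exact h1 (hdeg s (Ne.symm h2))

include h in
theorem monoSpan_eq_bot (j n : ℕ) (hn : d * p ^ j + 1 ≤ n) :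
    monoSpan p (fun l => 𝒯.π j (x l)) n = ⊥ := by
  unfold monoSpan
  rw [Submodule.span_eq_bot]
  rintro _ ⟨α, hα, rfl⟩
  by_contra h1
  have h2 : ∀ l, α l < p ^ j := by
    intro l
    by_contra h3
    exact h1 (mono_eq_zero p 𝒯 x h j α l (not_lt.1 h3))
  have h4 : ∑ l, α l ≤ ∑ _l : Fin d, p ^ j := Finset.sum_le_sum fun l _ => (h2 l).le
  rw [Finset.sum_const, Finset.card_univ, Fintype.card_fin, smul_eq_mul] at h4
  omega

omit [Fact p.Prime] in
theorem FF_succ (n : ℕ) : FF p x (n + 1) ≤ FF p x n := by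
  intro a ha j
  refine Submodule.span_mono ?_ (ha j)
  rintro _ ⟨α, hα, rfl⟩
  exact ⟨α, by omega, rfl⟩

omit [Fact p.Prime] in
theorem FF_anti : Antitone (FF p x) := antitone_nat_of_succ_le FF_succ

include h in
theorem val_eq_zero {j n : ℕ} (hn : d * p ^ j + 1 ≤ n) {a : Lam (ZMod p) 𝒯} (ha : a ∈ FF p x n) :
    a.1 j = 0 := by
  have h1 := ha j
  rw [monoSpan_eq_bot h j n hn] at h1
  exact (Submodule.mem_bot _).1 h1

include h in
theorem FF_complete (a : ℕ → Lam (ZMod p) 𝒯) (ha : ∀ n, a n ∈ FF p x n) :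
    ∃ s : Lam (ZMod p) 𝒯, ∀ n, s - ∑ i ∈ Finset.range n, a i ∈ FF p x n := by
  have hle : ∀ j, d * p ^ j + 1 ≤ d * p ^ (j + 1) + 1 := fun j => by
    have : p ^ j ≤ p ^ (j + 1) := Nat.pow_le_pow_right (Fact.out : p.Prime).pos (Nat.le_succ j)
    have := Nat.mul_le_mul_left d this
    omega
  have hval : ∀ (n j : ℕ), (∑ i ∈ Finset.range n, a i).1 j = ∑ i ∈ Finset.range n, (a i).1 j := by
    intro n j
    exact map_sum ((Pi.evalRingHom (fun j => MonoidAlgebra (ZMod p) (𝒯.Q j)) j).comp
      (Lam (ZMod p) 𝒯).subtype) a (Finset.range n)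
  have hext : ∀ (j n m : ℕ), d * p ^ j + 1 ≤ n → n ≤ m →
      ∑ i ∈ Finset.range m, (a i).1 j = ∑ i ∈ Finset.range n, (a i).1 j := by
    intro j n m hn hnm
    symm
    refine Finset.sum_subset (Finset.range_mono hnm) fun i _ hi => ?_
    rw [Finset.mem_range, not_lt] at hi
    exact val_eq_zero h (hn.trans hi) (ha i)
  refine ⟨⟨fun j => ∑ i ∈ Finset.range (d * p ^ j + 1), (a i).1 j, ?_⟩, ?_⟩
  · intro j
    change trm p 𝒯 j (∑ i ∈ Finset.range (d * p ^ (j + 1) + 1), (a i).1 (j + 1)) = _
    rw [map_sum]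
    refine Eq.trans ?_ (hext j (d * p ^ j + 1) (d * p ^ (j + 1) + 1) le_rfl (hle j))
    exact Finset.sum_congr rfl fun i _ => (a i).2 j
  · intro n j
    change ∑ i ∈ Finset.range (d * p ^ j + 1), (a i).1 j - (∑ i ∈ Finset.range n, a i).1 j ∈ _
    rw [hval]
    rcases le_total n (d * p ^ j + 1) with hn | hn
    · rw [← Finset.sum_range_add_sum_Ico _ hn, add_sub_cancel_left]
      refine Submodule.sum_mem _ fun i hi => ?_
      exact FF_anti (Finset.mem_Ico.1 hi).1 (ha i) j
    · rw [hext j _ n le_rfl hn, sub_self]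
      exact Submodule.zero_mem _

end Pool.Agent.H4.Atiyah.TowerCFRAux

namespace Pool.Agent.H4.Atiyah

open TowerCFRAux

section M18

variable (p : ℕ) {Q : Type} [Group Q] {d : ℕ}

variable [Fact p.Prime]

/-- M18b -/
theorem tower_cfr (𝒯 : Sys) (x : Fin d → 𝒯.G) (h : IsTower p 𝒯 d x) :
    ∃ c : CFR (ZMod p) d (Lam (ZMod p) 𝒯),
      ∀ j (a : Lam (ZMod p) 𝒯), a ∈ c.F (d * p ^ j + 1) → a.1 j = 0 := by
  classical
  refine ⟨{
    F := FF p x
    sym := sy h
    F_zero := ?_
    F_succ := FF_succ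
    mul_mem := ?_
    sep := ?_
    complete := FF_complete h
    sym_add := ?_
    sym_mul := fun ha hb => sy_mul h ha hb
    sym_one := ?_
    sym_homog := ?_
    sym_eq_zero := ?_
    sym_surj := sy_surj h }, ?_⟩
  · rw [eq_top_iff]
    intro a _ j
    rw [monoSpan_zero p 𝒯 x h]
    trivial
  · intro m n a b ha hb j
    exact monoSpan_mul p 𝒯 x h j m n _ _ (ha j) (hb j)
  · intro a ha
    apply Subtype.ext
    funext j
    exact val_eq_zero h le_rfl (ha (d * p ^ j + 1))
  · intro n a b _ _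
    ext s
    rw [MvPolynomial.coeff_add, coeff_sy, coeff_sy, coeff_sy, cc_add]
    split_ifs <;> simp
  · have e : (1 : Lam (ZMod p) 𝒯) = Mo p x (fun _ => 0) := by
      simp [Mo]
    rw [e]
    ext s
    rw [coeff_sy, cc_Mo, MvPolynomial.coeff_one]
    by_cases hs : s = 0
    · subst hs
      simp
      rfl
    · have h1 : ¬ ∑ l, s l = 0 := by
        intro h2
        apply hs
        ext l
        exact Finset.sum_eq_zero_iff.1 h2 l (Finset.mem_univ _)
      rw [if_neg h1, if_neg (Ne.symm hs)]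
  · intro n a _
    refine MvPolynomial.IsHomogeneous.sum _ _ _ fun s hs => ?_
    refine MvPolynomial.isHomogeneous_monomial _ ?_
    rw [mem_ant] at hs
    rw [← hs, Finsupp.degree_eq_sum]
  · intro n a ha
    rw [mem_FF_iff h] at ha ⊢
    constructor
    · intro h1 α hα
      rcases (Nat.lt_succ_iff.1 hα).lt_or_eq with h2 | h2
      · exact ha α h2
      · have h3 := congrArg (fun P => MvPolynomial.coeff (Finsupp.equivFunOnFinite.symm α) P) h1
        simp only [coeff_sy, MvPolynomial.coeff_zero] at h3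
        have e1 : ⇑(Finsupp.equivFunOnFinite.symm α) = α := rfl
        rw [e1, if_pos h2] at h3
        exact h3
    · intro h1
      ext s
      rw [coeff_sy, MvPolynomial.coeff_zero]
      split_ifs with h2
      · exact h1 _ (by omega)
      · rfl
  · intro j a ha
    exact val_eq_zero h le_rfl ha

end M18

end Pool.Agent.H4.Atiyah
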