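import Pool.Agent.H4.Atiyah.CFRProjDim
import Pool.Agent.H4.Atiyah.CFRFree
import Pool.Agent.H4.Atiyah.PLiftProjDim
import Pool.Agent.H4.Atiyah.TowerCFR
import Pool.Agent.H4.Atiyah.LamLift

/-!
# The Iwasawa algebra of a tower
-/

set_option autoImplicit false

open Filter Topology CategoryTheory
open scoped Matrix

namespace Pool.Agent.H4.Atiyah

section M26

variable (p : ℕ) [Fact p.Prime] (𝒯 : Sys) {d : ℕ} (x : Fin d → 𝒯.G)

include x in
theorem lam_isNoetherianRing (h : IsTower p 𝒯 d x) : IsNoetherianRing (Lam ℤ_[p] 𝒯) := by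
  obtain ⟨c, -⟩ := tower_cfr p 𝒯 x h
  obtain ⟨L, -⟩ := exists_lamLift p 𝒯
  have := c.isNoetherianRing
  exact L.isNoetherianRing

include x in
theorem lam_isDomain (h : IsTower p 𝒯 d x) : IsDomain (Lam ℤ_[p] 𝒯) := by
  obtain ⟨c, -⟩ := tower_cfr p 𝒯 x h
  obtain ⟨L, -⟩ := exists_lamLift p 𝒯
  have := c.isDomain
  exact L.isDomain

include x in
theorem lam_free_of_projective (h : IsTower p 𝒯 d x) (M : Type) [AddCommGroup M]
    [Module (Lam ℤ_[p] 𝒯) M] [Module.Finite (Lam ℤ_[p] 𝒯) M]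
    [Module.Projective (Lam ℤ_[p] 𝒯) M] : Module.Free (Lam ℤ_[p] 𝒯) M := by
  obtain ⟨c, -⟩ := tower_cfr p 𝒯 x h
  obtain ⟨L, -⟩ := exists_lamLift p 𝒯
  have := c.isNoetherianRing
  exact L.free_of_projective (fun M _ _ _ _ => c.free_of_projective M) M

include x in
theorem lam_hasProjectiveDimensionLT (h : IsTower p 𝒯 d x) (M : Type) [AddCommGroup M]
    [Module (Lam ℤ_[p] 𝒯) M] [Module.Finite (Lam ℤ_[p] 𝒯) M] :
    HasProjectiveDimensionLT (ModuleCat.of (Lam ℤ_[p] 𝒯) M) (d + 2) := by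
  obtain ⟨c, -⟩ := tower_cfr p 𝒯 x h
  obtain ⟨L, -⟩ := exists_lamLift p 𝒯
  have := c.isNoetherianRing
  exact L.hasProjectiveDimensionLT (fun M _ _ _ _ => c.free_of_projective M) d
    (fun M _ _ _ => c.hasProjectiveDimensionLT M) M

end M26

end Pool.Agent.H4.Atiyah
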