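import Pool.Agent.H4.Atiyah.Filt

/-!
# Complete filtered rings: basic properties
-/

set_option autoImplicit false

open MvPolynomial

namespace Pool.Agent.H4.Atiyah

namespace CFR

variable {k : Type} [Field k] {D : ℕ} {A : Type} [Ring A] (c : CFR k D A)

theorem F_antitone : Antitone c.F := antitone_nat_of_succ_le c.F_succ

theorem mem_F_zero (a : A) : a ∈ c.F 0 := by rw [c.F_zero]; trivial

theorem exists_ord (f : A) (hf : f ≠ 0) : ∃ n, f ∈ c.F n ∧ f ∉ c.F (n + 1) := by
  classical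
  have h : ∃ n, f ∉ c.F n := by
    by_contra h
    push Not at h
    exact hf (c.sep f h)
  have h0 : Nat.find h ≠ 0 := by
    intro h0
    have := Nat.find_spec h
    rw [h0] at this
    exact this (c.mem_F_zero f)
  obtain ⟨m, hm⟩ := Nat.exists_eq_succ_of_ne_zero h0
  refine ⟨m, ?_, ?_⟩
  · have := Nat.find_min h (m := m) (by omega)
    push Not at this
    exact this
  · have := Nat.find_spec h
    rwa [hm] at this

theorem sym_zero (n : ℕ) : c.sym n 0 = 0 :=
  (c.sym_eq_zero (c.F n).zero_mem).2 (c.F (n + 1)).zero_mem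

theorem sym_neg {n : ℕ} {a : A} (ha : a ∈ c.F n) : c.sym n (-a) = -c.sym n a := by
  have h := c.sym_add ha ((c.F n).neg_mem ha)
  rw [add_neg_cancel, sym_zero] at h
  exact (neg_eq_of_add_eq_zero_right h.symm).symm

theorem sym_sub {n : ℕ} {a b : A} (ha : a ∈ c.F n) (hb : b ∈ c.F n) :
    c.sym n (a - b) = c.sym n a - c.sym n b := by
  rw [sub_eq_add_neg, c.sym_add ha ((c.F n).neg_mem hb), c.sym_neg hb, sub_eq_add_neg]

include c in
theorem isDomain : IsDomain A := by
  have h1 : Nontrivial A := by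
    refine ⟨1, 0, fun h => ?_⟩
    have h2 : c.sym 0 (1 : A) = 0 := by rw [h]; exact c.sym_zero 0
    rw [c.sym_one] at h2
    exact one_ne_zero h2
  have h2 : NoZeroDivisors A := by
    refine ⟨fun {a b} hab => ?_⟩
    by_contra hne
    push Not at hne
    obtain ⟨m, hm, hm'⟩ := c.exists_ord a hne.1
    obtain ⟨n, hn, hn'⟩ := c.exists_ord b hne.2
    have h := c.sym_mul hm hn
    rw [hab, sym_zero] at h
    rcases mul_eq_zero.1 h.symm with h | h
    · exact hm' ((c.sym_eq_zero hm).1 h)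
    · exact hn' ((c.sym_eq_zero hn).1 h)
  exact NoZeroDivisors.to_isDomain A

/-- every nonzero `f` has an order `n₀`, and multiplication by `f` on the right shifts the
filtration by exactly `n₀`. -/
theorem exists_order (f : A) (hf : f ≠ 0) :
    ∃ n₀, f ∈ c.F n₀ ∧ f ∉ c.F (n₀ + 1) ∧ ∀ n y, y * f ∈ c.F n → y ∈ c.F (n - n₀) := by
  obtain ⟨n₀, h1, h2⟩ := c.exists_ord f hf
  refine ⟨n₀, h1, h2, fun n y hy => ?_⟩
  by_contra hcon
  have hy0 : y ≠ 0 := fun h => hcon (h ▸ (c.F _).zero_mem)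
  obtain ⟨r, h3, h4⟩ := c.exists_ord y hy0
  have hr : r < n - n₀ := by
    by_contra hr
    exact hcon (c.F_antitone (not_lt.1 hr) h3)
  have h5 : y * f ∈ c.F (r + n₀ + 1) := c.F_antitone (by omega) hy
  have h6 : c.sym (r + n₀) (y * f) = 0 := (c.sym_eq_zero (c.mul_mem h3 h1)).2 h5
  rw [c.sym_mul h3 h1] at h6
  rcases mul_eq_zero.1 h6 with h | h
  · exact h4 ((c.sym_eq_zero h3).1 h)
  · exact h2 ((c.sym_eq_zero h1).1 h)

theorem pow_mem {e : A} (he : e ∈ c.F 1) (n : ℕ) : e ^ n ∈ c.F n := by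
  induction n with
  | zero => exact c.mem_F_zero _
  | succ n ih => rw [pow_succ]; exact c.mul_mem ih he

theorem isUnit_one_sub {e : A} (he : e ∈ c.F 1) : IsUnit (1 - e) := by
  obtain ⟨s, hs⟩ := c.complete (fun n => e ^ n) (c.pow_mem he)
  have h1 : (1 - e) * s = 1 := by
    rw [← sub_eq_zero]
    apply c.sep
    intro n
    have h2 : (1 - e) * s - 1 = (1 - e) * (s - ∑ i ∈ Finset.range n, e ^ i) +
        ((1 - e) * (∑ i ∈ Finset.range n, e ^ i) - 1) := by noncomm_ring
    rw [h2, mul_neg_geom_sum]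
    refine (c.F n).add_mem ?_ ?_
    · have := c.mul_mem (c.mem_F_zero (1 - e)) (hs n)
      rwa [zero_add] at this
    · have h3 : (1 : A) - e ^ n - 1 = -(e ^ n) := by noncomm_ring
      rw [h3]
      exact (c.F n).neg_mem (c.pow_mem he n)
  have h1' : s * (1 - e) = 1 := by
    rw [← sub_eq_zero]
    apply c.sep
    intro n
    have h2 : s * (1 - e) - 1 = (s - ∑ i ∈ Finset.range n, e ^ i) * (1 - e) +
        ((∑ i ∈ Finset.range n, e ^ i) * (1 - e) - 1) := by noncomm_ring
    rw [h2, geom_sum_mul_neg]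
    refine (c.F n).add_mem ?_ ?_
    · have := c.mul_mem (hs n) (c.mem_F_zero (1 - e))
      rwa [add_zero] at this
    · have h3 : (1 : A) - e ^ n - 1 = -(e ^ n) := by noncomm_ring
      rw [h3]
      exact (c.F n).neg_mem (c.pow_mem he n)
  exact ⟨⟨1 - e, s, h1, h1'⟩, rfl⟩

theorem isUnit_of_notMem (a : A) (ha : a ∉ c.F 1) : IsUnit a := by
  have ha0 : a ∈ c.F 0 := c.mem_F_zero a
  have h1 : c.sym 0 a ≠ 0 := fun h => ha ((c.sym_eq_zero ha0).1 h)
  have h2 : c.sym 0 a = C (coeff 0 (c.sym 0 a)) := by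
    have := c.sym_homog ha0
    exact totalDegree_eq_zero_iff_eq_C.1 ((this.totalDegree h1))
  set u := coeff 0 (c.sym 0 a) with hu
  have hu0 : u ≠ 0 := by
    intro h
    rw [h, map_zero] at h2
    exact h1 h2
  obtain ⟨b, hb, hbs⟩ := c.sym_surj 0 (C u⁻¹) (isHomogeneous_C _ _)
  have h3 : c.sym 0 (b * a) = 1 := by
    have := c.sym_mul hb ha0
    rw [add_zero] at this
    rw [this, hbs, h2, ← C_mul, inv_mul_cancel₀ hu0, C_1]
  have h4 : c.sym 0 (a * b) = 1 := by
    have := c.sym_mul ha0 hb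
    rw [add_zero] at this
    rw [this, hbs, h2, ← C_mul, mul_inv_cancel₀ hu0, C_1]
  have h5 : ∀ x : A, c.sym 0 x = 1 → IsUnit x := by
    intro x hx
    have h6 : (1 : A) - x ∈ c.F 1 := by
      have h7 := c.sym_sub (c.mem_F_zero 1) (c.mem_F_zero x)
      rw [c.sym_one, hx, sub_self] at h7
      exact (c.sym_eq_zero (c.mem_F_zero _)).1 h7
    have h8 := c.isUnit_one_sub h6
    rwa [sub_sub_cancel] at h8
  obtain ⟨v, hv⟩ := h5 _ h3
  obtain ⟨w, hw⟩ := h5 _ h4
  have hl : (↑v⁻¹ * b) * a = 1 := by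
    rw [mul_assoc, ← hv]; exact v.inv_mul
  have hr : a * (b * ↑w⁻¹) = 1 := by
    rw [← mul_assoc, ← hw]; exact w.mul_inv
  have heq : (↑v⁻¹ * b : A) = b * ↑w⁻¹ := left_inv_eq_right_inv hl hr
  exact ⟨⟨a, b * ↑w⁻¹, hr, heq ▸ hl⟩, rfl⟩

theorem finite_sum_lt (n : ℕ) : Finite {α : Fin D → ℕ // ∑ i, α i < n} := by
  have h : ({α : Fin D → ℕ | ∑ i, α i < n}).Finite := by
    apply (Set.finite_Iic (fun _ : Fin D => n)).subset
    intro α hα
    rw [Set.mem_ofPred_eq] at hα
    intro i
    have := Finset.single_le_sum (fun j _ => Nat.zero_le (α j)) (Finset.mem_univ i)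
    show α i ≤ n
    omega
  exact h.to_subtype

theorem finite_sum_eq (n : ℕ) : Finite {α : Fin D → ℕ // ∑ i, α i = n} := by
  have := finite_sum_lt (D := D) (n + 1)
  exact Finite.of_injective (fun α : {α : Fin D → ℕ // ∑ i, α i = n} =>
    (⟨α.1, by have := α.2; omega⟩ : {α : Fin D → ℕ // ∑ i, α i < n + 1}))
    (fun a b h => Subtype.ext (by simpa using congrArg Subtype.val h))

theorem card_homogeneous (n : ℕ) :
    Nat.card (homogeneousSubmodule (Fin D) k n) =
      Nat.card k ^ Nat.card {α : Fin D → ℕ // ∑ i, α i = n} := by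
  classical
  have hfin := finite_sum_eq (D := D) n
  have hft : Fintype {α : Fin D → ℕ // ∑ i, α i = n} := Fintype.ofFinite _
  rw [← Nat.card_fun]
  have hdeg : ∀ d : Fin D →₀ ℕ, d.degree = ∑ i, d i := fun d => by
    rw [Finsupp.degree_eq_sum]
  refine Nat.card_congr (Equiv.ofBijective
    (fun P : homogeneousSubmodule (Fin D) k n =>
      fun α : {α : Fin D → ℕ // ∑ i, α i = n} => coeff (Finsupp.equivFunOnFinite.symm α.1) P.1)
    ⟨?_, ?_⟩)
  · intro P Q h
    apply Subtype.ext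
    ext d
    by_cases hd : ∑ i, d i = n
    · have := congrFun h ⟨fun i => d i, hd⟩
      have h2 : Finsupp.equivFunOnFinite.symm (fun i => d i) = d := by
        ext i; rfl
      simpa [h2] using this
    · have h1 : ∀ R : homogeneousSubmodule (Fin D) k n, coeff d R.1 = 0 := by
        intro R
        have hR := (mem_homogeneousSubmodule n R.1).1 R.2
        exact hR.coeff_eq_zero (by rw [hdeg]; exact hd)
      rw [h1 P, h1 Q]
  · intro f
    refine ⟨⟨∑ α : {α : Fin D → ℕ // ∑ i, α i = n},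
      monomial (Finsupp.equivFunOnFinite.symm α.1) (f α), ?_⟩, ?_⟩
    · rw [mem_homogeneousSubmodule]
      apply IsHomogeneous.sum
      intro α _
      apply isHomogeneous_monomial
      rw [hdeg]
      exact α.2
    · funext β
      simp only [coeff_sum, coeff_monomial]
      rw [Finset.sum_eq_single β]
      · simp
      · intro α _ hne
        rw [if_neg]
        intro h
        exact hne (Subtype.ext (Finsupp.equivFunOnFinite.symm.injective h))
      · intro h
        exact absurd (Finset.mem_univ _) h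

theorem relIndex_succ (n : ℕ) :
    (c.F (n + 1)).relIndex (c.F n) = Nat.card k ^ Nat.card {α : Fin D → ℕ // ∑ i, α i = n} := by
  let φ : c.F n →+ homogeneousSubmodule (Fin D) k n :=
    { toFun := fun a => ⟨c.sym n a.1, (mem_homogeneousSubmodule n _).2 (c.sym_homog a.2)⟩
      map_zero' := Subtype.ext (c.sym_zero n)
      map_add' := fun a b => Subtype.ext (c.sym_add a.2 b.2) }
  have hker : φ.ker = (c.F (n + 1)).addSubgroupOf (c.F n) := by
    ext a
    rw [AddMonoidHom.mem_ker, AddSubgroup.mem_addSubgroupOf, ← c.sym_eq_zero a.2]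
    exact Subtype.ext_iff
  have hsurj : Function.Surjective φ := by
    rintro ⟨P, hP⟩
    obtain ⟨a, ha, has⟩ := c.sym_surj n P ((mem_homogeneousSubmodule n P).1 hP)
    exact ⟨⟨a, ha⟩, Subtype.ext has⟩
  rw [AddSubgroup.relIndex, ← hker, AddSubgroup.index_ker, AddMonoidHom.range_eq_top.2 hsurj,
    ← card_homogeneous (k := k)]
  exact Nat.card_congr AddSubgroup.topEquiv.toEquiv

theorem relIndex_F (n : ℕ) :
    (c.F n).relIndex (c.F 0) = (Nat.card k) ^ (Nat.card {α : Fin D → ℕ // ∑ i, α i < n}) := by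
  induction n with
  | zero =>
    have : IsEmpty {α : Fin D → ℕ // ∑ i, α i < 0} := ⟨fun α => absurd α.2 (Nat.not_lt_zero _)⟩
    rw [AddSubgroup.relIndex_self, Nat.card_of_isEmpty (α := {α : Fin D → ℕ // ∑ i, α i < 0}),
      pow_zero]
  | succ n ih =>
    have h1 := AddSubgroup.relIndex_mul_relIndex (c.F (n + 1)) (c.F n) (c.F 0) (c.F_succ n)
      (c.F_antitone (Nat.zero_le n))
    rw [← h1, ih, c.relIndex_succ, ← pow_add]
    congr 1
    have hf1 := finite_sum_lt (D := D) n
    have hf2 := finite_sum_eq (D := D) n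
    rw [← Nat.card_sum]
    refine Nat.card_congr (Equiv.ofBijective
      (fun x : {α : Fin D → ℕ // ∑ i, α i = n} ⊕ {α : Fin D → ℕ // ∑ i, α i < n} =>
        (x.elim (fun a => ⟨a.1, by have := a.2; omega⟩) (fun a => ⟨a.1, by have := a.2; omega⟩) :
          {α : Fin D → ℕ // ∑ i, α i < n + 1})) ⟨?_, ?_⟩)
    · rintro (a | a) (b | b) h
      · simp only [Sum.elim_inl, Subtype.mk.injEq] at h
        rw [Subtype.ext h]
      · simp only [Sum.elim_inl, Sum.elim_inr, Subtype.mk.injEq] at h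
        have h2 := a.2; have h3 := b.2
        rw [h] at h2; omega
      · simp only [Sum.elim_inl, Sum.elim_inr, Subtype.mk.injEq] at h
        have h2 := a.2; have h3 := b.2
        rw [← h] at h3; omega
      · simp only [Sum.elim_inr, Subtype.mk.injEq] at h
        rw [Subtype.ext h]
    · rintro ⟨α, hα⟩
      by_cases h : ∑ i, α i = n
      · exact ⟨Sum.inl ⟨α, h⟩, rfl⟩
      · exact ⟨Sum.inr ⟨α, by omega⟩, rfl⟩

end CFR

end Pool.Agent.H4.Atiyah
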