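import Pool.Agent.H4.Atiyah.Filt

/-!
# M15a : lifting along a central regular element (Noetherian, domain, free)
-/

set_option autoImplicit false

open Filter Topology CategoryTheory

namespace Pool.Agent.H4.Atiyah

namespace PLift

variable {Λ R : Type} [Ring Λ] [Ring R] (L : PLift Λ R)

theorem comm_pow (n : ℕ) (a : Λ) : L.π ^ n * a = a * L.π ^ n :=
  (Commute.pow_left (show Commute L.π a from L.comm a) n).eq

theorem reg_pow (n : ℕ) (a : Λ) (h : L.π ^ n * a = 0) : a = 0 := by
  induction n with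
  | zero => simpa using h
  | succ n ih =>
    rw [pow_succ', mul_assoc] at h
    exact ih (L.reg _ h)

theorem red_pi : L.red L.π = 0 := (L.ker _).2 ⟨1, (mul_one _).symm⟩

theorem exists_pow_mul (a : Λ) (ha : a ≠ 0) : ∃ (n : ℕ) (b : Λ), a = L.π ^ n * b ∧ L.red b ≠ 0 := by
  classical
  have h1 : ∃ n : ℕ, ¬ ∃ b, a = L.π ^ n * b := by
    by_contra hcon
    push Not at hcon
    exact ha (L.sep a hcon)
  have h2 := Nat.find_spec h1
  have h3 : Nat.find h1 ≠ 0 := by
    intro h0
    rw [h0] at h2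
    exact h2 ⟨a, by simp⟩
  obtain ⟨m, hm⟩ := Nat.exists_eq_succ_of_ne_zero h3
  have h4 : ¬ ¬ ∃ b, a = L.π ^ m * b := Nat.find_min h1 (by omega)
  rw [not_not] at h4
  obtain ⟨b, hb⟩ := h4
  refine ⟨m, b, hb, fun h0 => ?_⟩
  obtain ⟨c, hc⟩ := (L.ker b).1 h0
  rw [hm] at h2
  exact h2 ⟨c, by rw [hb, hc, Nat.succ_eq_add_one, pow_succ, mul_assoc]⟩

include L in
theorem isDomain [IsDomain R] : IsDomain Λ := by
  have hnt : Nontrivial Λ := L.red.domain_nontrivial
  have : NoZeroDivisors Λ := by
    refine ⟨fun {a b} hab => ?_⟩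
    by_contra hcon
    push Not at hcon
    obtain ⟨n, a', ha, ha'⟩ := L.exists_pow_mul a hcon.1
    obtain ⟨m, b', hb, hb'⟩ := L.exists_pow_mul b hcon.2
    have h1 : L.π ^ (n + m) * (a' * b') = 0 := by
      rw [← hab, ha, hb, pow_add]
      rw [mul_assoc, mul_assoc, ← mul_assoc (L.π ^ m) a' b', L.comm_pow m a', mul_assoc]
    have h2 := L.reg_pow _ _ h1
    have h3 : L.red a' * L.red b' = 0 := by rw [← map_mul, h2, map_zero]
    rcases mul_eq_zero.1 h3 with h | h
    · exact ha' h
    · exact hb' h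
  exact NoZeroDivisors.to_isDomain Λ

/-- summation of a `π`-adic series of relations -/
theorem exists_series {ι : Type} [Fintype ι] (x : ι → Λ) (z : ℕ → Λ) (c : ℕ → ι → Λ)
    (h : ∀ m, z m = ∑ j, c m j * x j + L.π * z (m + 1)) :
    ∃ s : ι → Λ, z 0 = ∑ j, s j * x j := by
  have h1 : ∀ m, z 0 = ∑ j, (∑ i ∈ Finset.range m, L.π ^ i * c i j) * x j + L.π ^ m * z m := by
    intro m
    induction m with
    | zero => simp
    | succ m ih =>
      rw [ih, h m]
      simp only [Finset.sum_range_succ, add_mul, Finset.sum_add_distrib, mul_add, Finset.mul_sum,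
        pow_succ, mul_assoc]
      abel
  choose s hs using fun j => L.complete fun i => c i j
  refine ⟨s, ?_⟩
  rw [← sub_eq_zero]
  apply L.sep
  intro n
  choose t ht using fun j => hs j n
  refine ⟨z n - ∑ j, t j * x j, ?_⟩
  have h2 : ∑ j, s j * x j =
      ∑ j, (∑ i ∈ Finset.range n, L.π ^ i * c i j) * x j + L.π ^ n * ∑ j, t j * x j := by
    rw [Finset.mul_sum, ← Finset.sum_add_distrib]
    refine Finset.sum_congr rfl fun j _ => ?_
    rw [← mul_assoc, ← add_mul]
    congr 1
    rw [← ht j]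
    abel
  rw [h2, h1 n, mul_sub]
  abel

include L in
theorem isNoetherianRing [IsNoetherianRing R] : IsNoetherianRing Λ := by
  rw [isNoetherianRing_iff, isNoetherian_def]
  intro I
  -- the ideals of leading coefficients
  let J : ℕ → Submodule R R := fun n =>
    { carrier := {r | ∃ x, L.red x = r ∧ L.π ^ n * x ∈ I}
      add_mem' := by
        rintro a b ⟨x, hx, hxI⟩ ⟨y, hy, hyI⟩
        exact ⟨x + y, by rw [map_add, hx, hy], by rw [mul_add]; exact I.add_mem hxI hyI⟩
      zero_mem' := ⟨0, map_zero _, by rw [mul_zero]; exact I.zero_mem⟩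
      smul_mem' := by
        rintro c r ⟨x, hx, hxI⟩
        obtain ⟨c', rfl⟩ := L.surj c
        refine ⟨c' * x, by rw [map_mul, hx, smul_eq_mul], ?_⟩
        rw [← mul_assoc, L.comm_pow, mul_assoc]
        exact I.smul_mem c' hxI }
  have hJmem : ∀ n r, r ∈ J n ↔ ∃ x, L.red x = r ∧ L.π ^ n * x ∈ I := fun n r => Iff.rfl
  have hJmono : Monotone J := by
    refine monotone_nat_of_le_succ fun n => ?_
    intro r hr
    obtain ⟨x, hx, hxI⟩ := hr
    refine ⟨x, hx, ?_⟩
    rw [pow_succ', mul_assoc]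
    exact I.smul_mem L.π hxI
  obtain ⟨n0, hn0⟩ := monotone_stabilizes_iff_noetherian.2 (inferInstance : IsNoetherian R R)
    ⟨J, hJmono⟩
  have hn0' : ∀ m, n0 ≤ m → J n0 = J m := hn0
  have hfg : ∀ n, (J n).FG := fun n => IsNoetherian.noetherian (J n)
  have hfg' : ∀ n, ∃ (k : ℕ) (s : Fin k → R), Submodule.span R (Set.range s) = J n := fun n =>
    Submodule.fg_iff_exists_fin_generating_family.1 (hfg n)
  choose k g hg using hfg'
  have hlift : ∀ n (j : Fin (k n)), ∃ x, L.red x = g n j ∧ L.π ^ n * x ∈ I := by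
    intro n j
    have : g n j ∈ J n := by
      rw [← hg n]
      exact Submodule.subset_span ⟨j, rfl⟩
    exact this
  choose x hx hxI using hlift
  -- reduction step
  have hstep : ∀ n z, L.π ^ n * z ∈ I → ∀ m, (hm : J n = J m) →
      ∃ (c : Fin (k m) → Λ) (z' : Λ), z = ∑ j, c j * x m j + L.π * z' := by
    intro n z hz m hm
    have h1 : L.red z ∈ J m := by
      rw [← hm]
      exact ⟨z, rfl, hz⟩
    rw [← hg m, Submodule.mem_span_range_iff_exists_fun] at h1
    obtain ⟨c, hc⟩ := h1
    choose c' hc' using fun j => L.surj (c j)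
    have h2 : L.red (z - ∑ j, c' j * x m j) = 0 := by
      rw [map_sub, map_sum, ← hc, sub_eq_zero]
      refine Finset.sum_congr rfl fun j _ => ?_
      rw [map_mul, hc', hx, smul_eq_mul]
    obtain ⟨z', hz'⟩ := (L.ker _).1 h2
    refine ⟨c', z', ?_⟩
    rw [← hz']
    abel
  -- the finitely generated submodule
  let T : Submodule Λ Λ := ⨆ m : Fin (n0 + 1), Submodule.span Λ
    (Set.range fun j : Fin (k m) => L.π ^ (m : ℕ) * x m j)
  have hTgen : ∀ m, m ≤ n0 → ∀ c : Fin (k m) → Λ, L.π ^ m * ∑ j, c j * x m j ∈ T := by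
    intro m hm c
    have hle : Submodule.span Λ (Set.range fun j : Fin (k m) => L.π ^ m * x m j) ≤ T :=
      le_iSup (fun m : Fin (n0 + 1) => Submodule.span Λ
        (Set.range fun j : Fin (k m) => L.π ^ (m : ℕ) * x m j)) ⟨m, by omega⟩
    apply hle
    rw [Finset.mul_sum]
    refine Submodule.sum_mem _ fun j _ => ?_
    rw [← mul_assoc, L.comm_pow, mul_assoc]
    exact Submodule.smul_mem _ _ (Submodule.subset_span ⟨j, rfl⟩)
  have hTI : T ≤ I := by
    refine iSup_le fun m => Submodule.span_le.2 ?_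
    rintro _ ⟨j, rfl⟩
    exact hxI m j
  have hTfg : T.FG := by
    refine Submodule.fg_iSup _ fun m => Submodule.fg_span (Set.finite_range _)
  -- descent to level `n0`
  have hA : ∀ n, n ≤ n0 → ∀ y ∈ I, ∃ t ∈ T, ∃ z, y - t = L.π ^ n * z := by
    intro n
    induction n with
    | zero =>
      intro _ y _
      exact ⟨0, T.zero_mem, y, by simp⟩
    | succ n ih =>
      intro hn y hy
      obtain ⟨t, ht, z, hz⟩ := ih (by omega) y hy
      have hzI : L.π ^ n * z ∈ I := by
        rw [← hz]
        exact I.sub_mem hy (hTI ht)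
      obtain ⟨c, z', hz'⟩ := hstep n z hzI n rfl
      refine ⟨t + L.π ^ n * ∑ j, c j * x n j, T.add_mem ht (hTgen n (by omega) c), z', ?_⟩
      rw [← sub_sub, hz, hz', mul_add, pow_succ, mul_assoc]
      abel
  have hIT : I ≤ T := by
    intro y hy
    obtain ⟨t, ht, z, hz⟩ := hA n0 le_rfl y hy
    have hzI : L.π ^ n0 * z ∈ I := by
      rw [← hz]
      exact I.sub_mem hy (hTI ht)
    -- the sequence of remainders
    have hnext : ∀ m (w : {w : Λ // L.π ^ (n0 + m) * w ∈ I}),
        ∃ (c : Fin (k n0) → Λ) (w' : {w : Λ // L.π ^ (n0 + (m + 1)) * w ∈ I}),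
          w.1 = ∑ j, c j * x n0 j + L.π * w'.1 := by
      intro m w
      obtain ⟨c, w', hw'⟩ := hstep (n0 + m) w.1 w.2 n0 (hn0' _ (by omega)).symm
      refine ⟨c, ⟨w', ?_⟩, hw'⟩
      have h1 : L.π ^ (n0 + (m + 1)) * w' =
          L.π ^ (n0 + m) * w.1 - L.π ^ m * (L.π ^ n0 * ∑ j, c j * x n0 j) := by
        rw [hw', ← add_assoc, pow_succ, mul_assoc, mul_add, ← mul_assoc (L.π ^ m), ← pow_add,
          add_comm m n0]
        abel
      rw [h1]
      exact I.sub_mem w.2 (I.smul_mem _ (hTI (hTgen n0 le_rfl c)))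
    choose cf nf hcf using hnext
    let ws : (m : ℕ) → {w : Λ // L.π ^ (n0 + m) * w ∈ I} := fun m =>
      Nat.rec (motive := fun m => {w : Λ // L.π ^ (n0 + m) * w ∈ I}) ⟨z, hzI⟩
        (fun m w => nf m w) m
    have hws : ∀ m, ws (m + 1) = nf m (ws m) := fun m => rfl
    obtain ⟨s, hs⟩ := L.exists_series (x n0) (fun m => (ws m).1) (fun m => cf m (ws m)) (by
      intro m
      rw [hws]
      exact hcf m (ws m))
    have hz0 : z = ∑ j, s j * x n0 j := hs
    have h3 : y = t + L.π ^ n0 * z := by rw [← hz]; abel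
    rw [h3, hz0]
    exact T.add_mem ht (hTgen n0 le_rfl s)
  rw [le_antisymm hIT hTI]
  exact hTfg

/-! ### Nakayama -/

theorem mem_jacobson : L.π ∈ Ring.jacobson Λ := by
  rw [Ring.jacobson_eq_sInf_isMaximal]
  have h1 : L.π ∈ Ideal.jacobson (⊥ : Ideal Λ) := by
    rw [Ideal.mem_jacobson_iff]
    intro y
    obtain ⟨s, hs⟩ := L.complete fun i => (-y) ^ i
    refine ⟨s, ?_⟩
    rw [Ideal.mem_bot]
    apply L.sep
    intro n
    obtain ⟨t, ht⟩ := hs n
    have h2 : s = ∑ i ∈ Finset.range n, (-(y * L.π)) ^ i + L.π ^ n * t := by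
      rw [← ht]
      have : ∀ i, L.π ^ i * (-y) ^ i = (-(y * L.π)) ^ i := by
        intro i
        rw [← neg_mul, ← (show Commute L.π (-y) from L.comm (-y)).mul_pow, L.comm (-y)]
      simp only [this]
      abel
    have h3 : (∑ i ∈ Finset.range n, (-(y * L.π)) ^ i) * (y * L.π) +
        ∑ i ∈ Finset.range n, (-(y * L.π)) ^ i = 1 - (-(y * L.π)) ^ n := by
      rw [← geom_sum_mul_neg]
      noncomm_ring
    have h4 : (-(y * L.π)) ^ n = L.π ^ n * (-y) ^ n := by
      rw [← neg_mul, ← L.comm (-y), (show Commute L.π (-y) from L.comm (-y)).mul_pow]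
    refine ⟨t * (y * L.π) + t - (-y) ^ n, ?_⟩
    have h5 : s * y * L.π + s - 1 = ((∑ i ∈ Finset.range n, (-(y * L.π)) ^ i) * (y * L.π) +
        ∑ i ∈ Finset.range n, (-(y * L.π)) ^ i) - 1 + (L.π ^ n * (t * (y * L.π)) + L.π ^ n * t) := by
      rw [mul_assoc, h2]
      noncomm_ring
    rw [h5, h3, h4]
    noncomm_ring
  unfold Ideal.jacobson at h1
  have h2 : {J : Ideal Λ | ⊥ ≤ J ∧ J.IsMaximal} = {I : Ideal Λ | I.IsMaximal} := by
    ext J
    simp
  rwa [h2] at h1

theorem nakayama {M : Type} [AddCommGroup M] [Module Λ M] [Module.Finite Λ M]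
    (h : ∀ x : M, ∃ y, x = L.π • y) (x : M) : x = 0 := by
  have h1 : (⊤ : Submodule Λ M) = ⊥ := by
    refine Submodule.FG.eq_bot_of_le_jacobson_smul Module.Finite.fg_top ?_
    intro x _
    obtain ⟨y, rfl⟩ := h x
    exact Submodule.smul_mem_smul L.mem_jacobson trivial
  have h2 : x ∈ (⊤ : Submodule Λ M) := trivial
  rw [h1] at h2
  exact (Submodule.mem_bot Λ).1 h2

/-! ### Reduction of modules -/

/-- the submodule `π M` -/
def piSub (M : Type) [AddCommGroup M] [Module Λ M] : Submodule Λ M where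
  carrier := {x | ∃ y, x = L.π • y}
  add_mem' := by
    rintro _ _ ⟨x, rfl⟩ ⟨y, rfl⟩
    exact ⟨x + y, (smul_add _ _ _).symm⟩
  zero_mem' := ⟨0, (smul_zero _).symm⟩
  smul_mem' := by
    rintro c _ ⟨x, rfl⟩
    exact ⟨c • x, by rw [← mul_smul, ← mul_smul, L.comm]⟩

theorem mem_piSub {M : Type} [AddCommGroup M] [Module Λ M] (x : M) :
    x ∈ L.piSub M ↔ ∃ y, x = L.π • y := Iff.rfl

/-- the reduction `M / π M`, an `R`-module -/
def Red (M : Type) [AddCommGroup M] [Module Λ M] : Type := M ⧸ L.piSub M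

noncomputable instance (M : Type) [AddCommGroup M] [Module Λ M] : AddCommGroup (L.Red M) :=
  inferInstanceAs (AddCommGroup (M ⧸ L.piSub M))

section
variable {M : Type} [AddCommGroup M] [Module Λ M]

/-- the projection as an additive map -/
noncomputable def mk0 : M →+ L.Red M := (L.piSub M).mkQ.toAddMonoidHom

theorem mk0_surjective : Function.Surjective (L.mk0 (M := M)) := (L.piSub M).mkQ_surjective

theorem mk0_eq_zero (x : M) : L.mk0 x = 0 ↔ ∃ y, x = L.π • y := by
  rw [← L.mem_piSub]
  exact Submodule.Quotient.mk_eq_zero (L.piSub M)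

theorem mk0_smul_eq {a b : Λ} (h : L.red a = L.red b) {x y : M} (hxy : L.mk0 x = L.mk0 y) :
    L.mk0 (a • x) = L.mk0 (b • y) := by
  have h1 : L.red (a - b) = 0 := by rw [map_sub, h, sub_self]
  obtain ⟨c, hc⟩ := (L.ker _).1 h1
  have h2 : L.mk0 (x - y) = 0 := by rw [map_sub, hxy, sub_self]
  obtain ⟨z, hz⟩ := (L.mk0_eq_zero _).1 h2
  rw [← sub_eq_zero, ← map_sub, mk0_eq_zero]
  refine ⟨c • x + b • z, ?_⟩
  have h3 : a • x - b • y = (a - b) • x + b • (x - y) := by
    rw [sub_smul, smul_sub]; abel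
  rw [h3, hc, hz, smul_add, mul_smul, ← mul_smul b, ← L.comm b, mul_smul]

noncomputable instance : SMul R (L.Red M) :=
  ⟨fun r x => L.mk0 (Function.surjInv L.surj r • Function.surjInv L.mk0_surjective x)⟩

theorem red_smul_mk0 (a : Λ) (x : M) : L.red a • L.mk0 x = L.mk0 (a • x) :=
  L.mk0_smul_eq (Function.surjInv_eq L.surj _) (Function.surjInv_eq L.mk0_surjective _)

noncomputable instance : Module R (L.Red M) where
  one_smul := by
    intro x
    obtain ⟨x, rfl⟩ := L.mk0_surjective x
    rw [← map_one L.red, red_smul_mk0, one_smul]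
  mul_smul := by
    intro r s x
    obtain ⟨x, rfl⟩ := L.mk0_surjective x
    obtain ⟨r, rfl⟩ := L.surj r
    obtain ⟨s, rfl⟩ := L.surj s
    rw [← map_mul, red_smul_mk0, red_smul_mk0, red_smul_mk0, mul_smul]
  smul_zero := by
    intro r
    obtain ⟨r, rfl⟩ := L.surj r
    rw [← map_zero L.mk0, red_smul_mk0, smul_zero]
  smul_add := by
    intro r x y
    obtain ⟨r, rfl⟩ := L.surj r
    obtain ⟨x, rfl⟩ := L.mk0_surjective x
    obtain ⟨y, rfl⟩ := L.mk0_surjective y
    rw [← map_add, red_smul_mk0, red_smul_mk0, red_smul_mk0, smul_add, map_add]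
  add_smul := by
    intro r s x
    obtain ⟨x, rfl⟩ := L.mk0_surjective x
    obtain ⟨r, rfl⟩ := L.surj r
    obtain ⟨s, rfl⟩ := L.surj s
    rw [← map_add, red_smul_mk0, red_smul_mk0, red_smul_mk0, add_smul, map_add]
  zero_smul := by
    intro x
    obtain ⟨x, rfl⟩ := L.mk0_surjective x
    rw [← map_zero L.red, red_smul_mk0, zero_smul, map_zero]

/-- the projection `M → M / π M` as a semilinear map -/
noncomputable def pr : M →ₛₗ[L.red] L.Red M where
  toFun := L.mk0
  map_add' := map_add _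
  map_smul' a x := (L.red_smul_mk0 a x).symm

theorem pr_surjective : Function.Surjective (L.pr (M := M)) := L.mk0_surjective

theorem pr_eq_zero (x : M) : L.pr x = 0 ↔ ∃ y, x = L.π • y := L.mk0_eq_zero x

theorem pr_pi_smul (x : M) : L.pr (L.π • x) = 0 := (L.pr_eq_zero _).2 ⟨x, rfl⟩

/-- semilinear maps out of `M` factor over `M / π M` -/
noncomputable def lift {P : Type} [AddCommGroup P] [Module R P] (g : M →ₛₗ[L.red] P) :
    L.Red M →ₗ[R] P where
  toFun := QuotientAddGroup.lift (L.piSub M).toAddSubgroup g.toAddMonoidHom (by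
    intro x hx
    obtain ⟨y, rfl⟩ := hx
    change g (L.π • y) = 0
    rw [map_smulₛₗ, L.red_pi, zero_smul])
  map_add' := map_add _
  map_smul' := by
    intro r x
    obtain ⟨r, rfl⟩ := L.surj r
    obtain ⟨x, rfl⟩ := L.pr_surjective x
    change _ = L.red r • g x
    rw [← map_smulₛₗ, ← map_smulₛₗ]
    rfl

@[simp] theorem lift_pr {P : Type} [AddCommGroup P] [Module R P] (g : M →ₛₗ[L.red] P) (x : M) :
    L.lift g (L.pr x) = g x := rfl

end

/-- functoriality of the reduction -/
noncomputable def redMap {M N : Type} [AddCommGroup M] [Module Λ M] [AddCommGroup N] [Module Λ N]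
    (f : M →ₗ[Λ] N) : L.Red M →ₗ[R] L.Red N := L.lift (L.pr.comp f)

@[simp] theorem redMap_pr {M N : Type} [AddCommGroup M] [Module Λ M] [AddCommGroup N] [Module Λ N]
    (f : M →ₗ[Λ] N) (x : M) : L.redMap f (L.pr x) = L.pr (f x) := rfl

theorem red_finite (M : Type) [AddCommGroup M] [Module Λ M] [Module.Finite Λ M] :
    Module.Finite R (L.Red M) := by
  obtain ⟨n, s, hs⟩ := Module.Finite.exists_fin (R := Λ) (M := M)
  refine Module.Finite.of_surjective (Fintype.linearCombination R fun j => L.pr (s j)) ?_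
  intro x
  obtain ⟨x, rfl⟩ := L.pr_surjective x
  have h1 : x ∈ Submodule.span Λ (Set.range s) := by rw [hs]; trivial
  rw [Submodule.mem_span_range_iff_exists_fun] at h1
  obtain ⟨c, rfl⟩ := h1
  refine ⟨fun j => L.red (c j), ?_⟩
  rw [Fintype.linearCombination_apply, map_sum]
  exact Finset.sum_congr rfl fun j _ => (map_smulₛₗ _ _ _).symm

/-- the reduction of a free module -/
noncomputable def redFun (ι : Type) : L.Red (ι → Λ) ≃ₗ[R] (ι → R) :=
  LinearEquiv.ofBijective (L.lift
    { toFun := fun v i => L.red (v i)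
      map_add' := fun v w => by ext i; exact map_add _ _ _
      map_smul' := fun a v => by ext i; exact map_mul _ _ _ }) (by
    constructor
    · rw [injective_iff_map_eq_zero]
      intro x hx
      obtain ⟨x, rfl⟩ := L.pr_surjective x
      rw [pr_eq_zero]
      have h1 : ∀ i, L.red (x i) = 0 := fun i => congrFun hx i
      choose y hy using fun i => (L.ker _).1 (h1 i)
      exact ⟨y, by ext i; exact hy i⟩
    · intro w
      choose v hv using fun i => L.surj (w i)
      exact ⟨L.pr v, by ext i; exact hv i⟩)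

/-- a finite torsion free module with free reduction is free -/
theorem free_of_red [IsNoetherianRing Λ] {K : Type} [AddCommGroup K] [Module Λ K]
    [Module.Finite Λ K] (htf : ∀ x : K, L.π • x = 0 → x = 0) (hfree : Module.Free R (L.Red K)) :
    Module.Free Λ K := by
  classical
  have hfin : Module.Finite R (L.Red K) := L.red_finite K
  let b := Module.Free.chooseBasis R (L.Red K)
  choose v hv using fun i => L.pr_surjective (b i)
  let φ : (Module.Free.ChooseBasisIndex R (L.Red K) → Λ) →ₗ[Λ] K := Fintype.linearCombination Λ v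
  have hφ : ∀ a, φ a = ∑ i, a i • v i := fun a => Fintype.linearCombination_apply Λ v a
  have hpr : ∀ a, L.pr (φ a) = ∑ i, L.red (a i) • b i := by
    intro a
    rw [hφ, map_sum]
    refine Finset.sum_congr rfl fun i _ => ?_
    rw [map_smulₛₗ, hv]
  -- surjectivity
  have hsurj : Function.Surjective φ := by
    rw [← LinearMap.range_eq_top]
    have h1 : ∀ x : K ⧸ LinearMap.range φ, x = 0 := by
      refine L.nakayama fun x => ?_
      obtain ⟨x, rfl⟩ := Submodule.mkQ_surjective _ x
      have h2 := b.sum_repr (L.pr x)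
      choose a ha using fun i => L.surj (b.repr (L.pr x) i)
      have h3 : L.pr (x - φ a) = 0 := by
        rw [map_sub, hpr, sub_eq_zero, ← h2]
        refine Finset.sum_congr rfl fun i _ => ?_
        rw [ha]
      obtain ⟨y, hy⟩ := (L.pr_eq_zero _).1 h3
      refine ⟨(LinearMap.range φ).mkQ y, ?_⟩
      rw [← map_smul, ← hy, map_sub, eq_comm, sub_eq_self]
      exact (Submodule.Quotient.mk_eq_zero _).2 ⟨a, rfl⟩
    rw [eq_top_iff]
    intro x _
    exact (Submodule.Quotient.mk_eq_zero _).1 (h1 ((LinearMap.range φ).mkQ x))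
  -- injectivity
  have hinj : Function.Injective φ := by
    rw [← LinearMap.ker_eq_bot, eq_bot_iff]
    intro a ha
    have hfinK : Module.Finite Λ (LinearMap.ker φ) := inferInstance
    have h1 : ∀ x : LinearMap.ker φ, x = 0 := by
      refine L.nakayama fun x => ?_
      have h2 : ∑ i, L.red (x.1 i) • b i = 0 := by
        rw [← hpr, show φ x.1 = 0 from x.2, map_zero]
      have h3 : ∀ i, L.red (x.1 i) = 0 := by
        intro i
        exact Fintype.linearIndependent_iff.1 b.linearIndependent (fun i => L.red (x.1 i)) h2 i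
      choose y hy using fun i => (L.ker _).1 (h3 i)
      have h4 : x.1 = L.π • y := by ext i; exact hy i
      have h5 : φ y = 0 := by
        apply htf
        rw [← map_smul, ← h4]
        exact x.2
      exact ⟨⟨y, h5⟩, Subtype.ext h4⟩
    have h2 := h1 ⟨a, ha⟩
    exact (Submodule.mem_bot Λ).2 (congrArg Subtype.val h2)
  exact Module.Free.of_equiv (LinearEquiv.ofBijective φ ⟨hinj, hsurj⟩)

theorem torsionFree_fun {ι : Type} (x : ι → Λ) (h : L.π • x = 0) : x = 0 := by
  ext i
  exact L.reg _ (congrFun h i)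

include L in
theorem free_of_projective [IsNoetherianRing R]
    (hfree : ∀ (M : Type) [AddCommGroup M] [Module R M] [Module.Finite R M]
      [Module.Projective R M], Module.Free R M)
    (M : Type) [AddCommGroup M] [Module Λ M] [Module.Finite Λ M]
    [Module.Projective Λ M] : Module.Free Λ M := by
  have hN : IsNoetherianRing Λ := L.isNoetherianRing
  obtain ⟨n, f, hf⟩ := Module.Finite.exists_fin' Λ M
  obtain ⟨g, hg⟩ := Module.projective_lifting_property f LinearMap.id hf
  have hgi : ∀ x, f (g x) = x := fun x => LinearMap.congr_fun hg x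
  have htf : ∀ x : M, L.π • x = 0 → x = 0 := by
    intro x hx
    have h1 : L.π • g x = 0 := by rw [← map_smul, hx, map_zero]
    rw [← hgi x, L.torsionFree_fun _ h1, map_zero]
  have hproj0 : Module.Projective R (L.Red (Fin n → Λ)) :=
    Module.Projective.of_equiv (L.redFun (Fin n)).symm
  have hproj : Module.Projective R (L.Red M) := by
    refine Module.Projective.of_split (L.redMap g) (L.redMap f) ?_
    ext x
    obtain ⟨x, rfl⟩ := L.pr_surjective x
    simp [hgi]
  have hfin : Module.Finite R (L.Red M) := L.red_finite M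
  exact L.free_of_red htf (hfree (L.Red M))

end PLift

end Pool.Agent.H4.Atiyah
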