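import Pool.Agent.H4.Atiyah.Ranks
import Pool.Agent.H4.Atiyah.CFRBasic
import Pool.Agent.H4.Atiyah.PLiftBasic
import Pool.Agent.H4.Atiyah.TowerCFR
import Pool.Agent.H4.Atiyah.LamLift

/-!
Uses as black boxes: `algRank`, `algRank_map`, `algRank_regular` (M07, Ranks), `CFR.exists_order`,
`CFR.relIndex_F` (M14a), `PLift.exists_pow_mul` (M15a), `tower_cfr` (M18b), `exists_lamLift` (M19).
-/

set_option autoImplicit false

open Filter Topology CategoryTheory
open scoped Matrix

namespace Pool.Agent.H4.Atiyah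

/-! ### M20 : nonzero elements of the completed group ring are invertible in the ultraproduct -/

section M20

/-- The rank does not increase under reduction modulo `p`. -/
theorem rank_map_ge {p : ℕ} [Fact p.Prime] {F : Type} [Field F] (φ : ℤ_[p] →+* F)
    (hφ : Function.Injective φ) {m : Type*} [Fintype m] [DecidableEq m] (N : Matrix m m ℤ_[p]) :
    (N.map (PadicInt.toZMod (p := p))).rank ≤ (N.map φ).rank := by
  obtain ⟨V, U, e, -, -, h⟩ := Matrix.exists_rank_normal_form (N.map (PadicInt.toZMod (p := p)))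
  have hs : Function.Surjective (PadicInt.toZMod (p := p)) := ZMod.ringHom_surjective _
  let V' : Matrix m m ℤ_[p] := V.map (Function.surjInv hs)
  let U' : Matrix m m ℤ_[p] := U.map (Function.surjInv hs)
  have hV : V'.map (PadicInt.toZMod (p := p)) = V := by
    ext a b; exact Function.surjInv_eq hs _
  have hU : U'.map (PadicInt.toZMod (p := p)) = U := by
    ext a b; exact Function.surjInv_eq hs _
  let i : Fin (N.map (PadicInt.toZMod (p := p))).rank → m := fun a => e.symm (Sum.inl a)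
  let M' : Matrix (Fin (N.map (PadicInt.toZMod (p := p))).rank)
      (Fin (N.map (PadicInt.toZMod (p := p))).rank) ℤ_[p] := (V' * N * U').submatrix i i
  have h1 : M'.map (PadicInt.toZMod (p := p)) = 1 := by
    change ((V' * N * U').submatrix i i).map (PadicInt.toZMod (p := p)) = 1
    rw [← Matrix.submatrix_map, Matrix.map_mul, Matrix.map_mul, hV, hU, h]
    ext a b
    simp [i, Matrix.one_apply]
  have h2 : M'.det ≠ 0 := by
    intro h0
    have h3 := congrArg (PadicInt.toZMod (p := p)) h0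
    rw [RingHom.map_det, map_zero] at h3
    change (M'.map (PadicInt.toZMod (p := p))).det = 0 at h3
    rw [h1, Matrix.det_one] at h3
    exact one_ne_zero h3
  have h3 : (M'.map φ).det ≠ 0 := by
    have : (M'.map φ).det = φ M'.det := (RingHom.map_det φ M').symm
    rw [this]
    intro h4
    exact h2 (hφ (h4.trans (map_zero φ).symm))
  have h4 := Matrix.rank_of_det_ne_zero h3
  have h5 : M'.map φ = ((V'.map φ) * (N.map φ) * (U'.map φ)).submatrix i i := by
    change ((V' * N * U').submatrix i i).map φ = _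
    rw [← Matrix.submatrix_map, Matrix.map_mul, Matrix.map_mul]
  rw [Fintype.card_fin] at h4
  calc (N.map (PadicInt.toZMod (p := p))).rank = (M'.map φ).rank := h4.symm
    _ ≤ ((V'.map φ) * (N.map φ) * (U'.map φ)).rank := by
      rw [h5]
      exact Matrix.rank_submatrix_le _ _ _
    _ ≤ ((V'.map φ) * (N.map φ)).rank := Matrix.rank_mul_le_left _ _
    _ ≤ (N.map φ).rank := Matrix.rank_mul_le_right _ _

/-- Counting exponents. -/
theorem card_exponents_le (d n n0 : ℕ) (hn : n0 < n) :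
    Nat.card {α : Fin d → ℕ // ∑ i, α i < n} ≤
      Nat.card {α : Fin d → ℕ // ∑ i, α i < n - n0} + (if d = 0 then 0 else n0 * n ^ (d - 1)) := by
  have hfin : ∀ n, Finite {α : Fin d → ℕ // ∑ i, α i < n} := by
    intro n
    refine Finite.of_injective (β := Fin d → Fin n) (fun α i => ⟨α.1 i, ?_⟩) ?_
    · exact lt_of_le_of_lt (Finset.single_le_sum (f := fun i => α.1 i) (fun _ _ => Nat.zero_le _)
        (Finset.mem_univ i)) α.2
    · intro α β hab
      apply Subtype.ext
      funext i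
      have := congrFun hab i
      simpa using this
  have := hfin (n - n0)
  rcases Nat.eq_zero_or_pos d with rfl | hd
  · simp only [if_true, add_zero]
    refine Nat.card_le_card_of_injective (fun α => ⟨α.1, ?_⟩) ?_
    · simp
      omega
    · intro α β _
      apply Subtype.ext
      funext i
      exact i.elim0
  · rw [if_neg (by omega)]
    obtain ⟨d', rfl⟩ : ∃ d', d = d' + 1 := ⟨d - 1, by omega⟩
    have hcard : Nat.card ({α : Fin (d' + 1) → ℕ // ∑ i, α i < n - n0} ⊕
        (Fin n0 × (Fin d' → Fin n))) =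
        Nat.card {α : Fin (d' + 1) → ℕ // ∑ i, α i < n - n0} + n0 * n ^ (d' + 1 - 1) := by
      rw [Nat.card_sum, Nat.card_prod]
      simp
    rw [← hcard]
    have hlt : ∀ α : {α : Fin (d' + 1) → ℕ // ∑ i, α i < n}, ∀ i, α.1 i < n := fun α i =>
      lt_of_le_of_lt (Finset.single_le_sum (f := fun i => α.1 i) (fun _ _ => Nat.zero_le _)
        (Finset.mem_univ i)) α.2
    let f : {α : Fin (d' + 1) → ℕ // ∑ i, α i < n} →
        {α : Fin (d' + 1) → ℕ // ∑ i, α i < n - n0} ⊕ (Fin n0 × (Fin d' → Fin n)) := fun α =>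
      if h : ∑ i, α.1 i < n - n0 then Sum.inl ⟨α.1, h⟩
      else Sum.inr (⟨∑ i, α.1 i - (n - n0), by have := α.2; omega⟩,
        fun i => ⟨α.1 i.succ, hlt α _⟩)
    refine Nat.card_le_card_of_injective f ?_
    intro α β hab
    apply Subtype.ext
    by_cases h1 : ∑ i, α.1 i < n - n0
    · by_cases h2 : ∑ i, β.1 i < n - n0
      · simp only [f, h1, h2, dif_pos, Sum.inl.injEq, Subtype.mk.injEq] at hab
        exact hab
      · simp [f, h1, h2] at hab
    · by_cases h2 : ∑ i, β.1 i < n - n0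
      · simp [f, h1, h2] at hab
      · simp only [f, h1, h2, dif_neg, not_false_eq_true, Sum.inr.injEq, Prod.mk.injEq,
          Fin.mk.injEq] at hab
        obtain ⟨h3, h4⟩ := hab
        have h5 : ∀ i : Fin d', α.1 i.succ = β.1 i.succ := by
          intro i
          have := congrFun h4 i
          simpa using this
        have h6 : ∑ i, α.1 i = ∑ i, β.1 i := by omega
        rw [Fin.sum_univ_succ, Fin.sum_univ_succ, Finset.sum_congr rfl fun i _ => h5 i] at h6
        funext i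
        refine Fin.cases ?_ h5 i
        omega


variable {p : ℕ} [Fact p.Prime] {𝒯 : Sys} {d : ℕ}

/-- evaluation at level `j` -/
noncomputable def ev (C : Type) [CommRing C] (𝒯 : Sys) (j : ℕ) :
    Lam C 𝒯 →+* MonoidAlgebra C (𝒯.Q j) :=
  (Pi.evalRingHom (fun j => MonoidAlgebra C (𝒯.Q j)) j).comp (Lam C 𝒯).subtype

theorem ev_apply (C : Type) [CommRing C] (𝒯 : Sys) (j : ℕ) (a : Lam C 𝒯) :
    ev C 𝒯 j a = a.1 j := rfl

theorem ev_surjective (C : Type) [CommRing C] (𝒯 : Sys) (j : ℕ) :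
    Function.Surjective (ev C 𝒯 j) := by
  intro b
  obtain ⟨a, ha⟩ : ∃ a : MonoidAlgebra C 𝒯.G, MonoidAlgebra.mapDomainRingHom C (𝒯.π j) a = b := by
    induction b using MonoidAlgebra.induction_linear with
    | zero => exact ⟨0, map_zero _⟩
    | add f g hf hg =>
      obtain ⟨a, rfl⟩ := hf
      obtain ⟨b, rfl⟩ := hg
      exact ⟨a + b, map_add _ _ _⟩
    | single q c =>
      obtain ⟨g, rfl⟩ := 𝒯.π_surj j q
      exact ⟨MonoidAlgebra.single g c, by simp⟩
  exact ⟨toLam C 𝒯 a, ha⟩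

/-- The rank of the regular matrix is the dimension of the left ideal generated by `f`. -/
theorem rank_reg {K : Type} [Field K] {Q : Type} [Group Q] [Fintype Q] [DecidableEq Q]
    (f : MonoidAlgebra K Q) :
    (reg K Q f).rank = Module.finrank K (LinearMap.range (LinearMap.mulRight K f)) := by
  let e : MonoidAlgebra K Q ≃ₗ[K] (Q → K) :=
    (MonoidAlgebra.coeffLinearEquiv K).trans (Finsupp.linearEquivFunOnFinite K K Q)
  have he : ∀ (y : MonoidAlgebra K Q) (g : Q), e y g = reg K Q y 1 g := by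
    intro y g
    rw [reg_apply, inv_one, one_mul]
    rfl
  have h1 : ∀ y, e (y * f) = Matrix.mulVec (reg K Q f)ᵀ (e y) := by
    intro y
    funext h
    rw [he, map_mul, Matrix.mul_apply, Matrix.mulVec_transpose, Matrix.vecMul, dotProduct]
    simp only [he]
  rw [← Matrix.rank_transpose, Matrix.rank]
  have h2 : LinearMap.range (reg K Q f)ᵀ.mulVecLin =
      (LinearMap.range (LinearMap.mulRight K f)).map (e : MonoidAlgebra K Q →ₗ[K] (Q → K)) := by
    ext z
    simp only [LinearMap.mem_range, Submodule.mem_map, Matrix.mulVecLin_apply]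
    constructor
    · rintro ⟨x, rfl⟩
      refine ⟨e.symm x * f, ⟨e.symm x, rfl⟩, ?_⟩
      change e (e.symm x * f) = _
      rw [h1, e.apply_symm_apply]
    · rintro ⟨_, ⟨y, rfl⟩, rfl⟩
      exact ⟨e y, (h1 y).symm⟩
  rw [h2, LinearEquiv.finrank_map_eq]

/-- The index estimate. -/
theorem index_le (c : CFR (ZMod p) d (Lam (ZMod p) 𝒯)) (j : ℕ)
    (hc : ∀ a : Lam (ZMod p) 𝒯, a ∈ c.F (d * p ^ j + 1) → a.1 j = 0)
    {f : Lam (ZMod p) 𝒯} {n0 : ℕ} (hn0 : ∀ n y, y * f ∈ c.F n → y ∈ c.F (n - n0)) :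
    Fintype.card (𝒯.Q j) + Nat.card {α : Fin d → ℕ // ∑ i, α i < d * p ^ j + 1} ≤
      Nat.card {α : Fin d → ℕ // ∑ i, α i < d * p ^ j + 1 + n0} +
        (reg (ZMod p) (𝒯.Q j) (f.1 j)).rank := by
  classical
  set n := d * p ^ j + 1 + n0 with hn
  have hp : 1 < p := (Fact.out : p.Prime).one_lt
  have hanti : Antitone c.F := antitone_nat_of_succ_le c.F_succ
  have hidx : ∀ n, (c.F n).index = p ^ (Nat.card {α : Fin d → ℕ // ∑ i, α i < n}) := by
    intro n
    have h := c.relIndex_F n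
    rw [c.F_zero, AddSubgroup.relIndex_top_right, Nat.card_zmod] at h
    exact h
  let μ : Lam (ZMod p) 𝒯 →+ Lam (ZMod p) 𝒯 := AddMonoidHom.mulRight f
  let H : AddSubgroup (Lam (ZMod p) 𝒯) := μ.range ⊔ c.F n
  -- the index of `H`
  have h1 : H.index * (c.F n).relIndex H = (c.F n).index := by
    rw [mul_comm]
    exact AddSubgroup.relIndex_mul_index le_sup_right
  have h2 : (c.F (n - n0)).index ≤ (c.F n).relIndex H := by
    have h3 : ((c.F n).comap μ).index = (c.F n).relIndex μ.range := AddSubgroup.index_comap _ _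
    have h4 : (c.F n).comap μ ≤ c.F (n - n0) := fun y hy => hn0 n y hy
    have h8 : (c.F n).relIndex H ≠ 0 := by
      intro h0
      rw [h0, mul_zero, hidx] at h1
      exact absurd h1.symm (pow_ne_zero _ (by omega))
    have h5 : (c.F n).relIndex μ.range ≤ (c.F n).relIndex H :=
      AddSubgroup.relIndex_le_of_le_right le_sup_left h8
    have h9 : (c.F n).relIndex μ.range ≠ 0 := by
      intro h0
      exact h8 (AddSubgroup.relIndex_eq_zero_of_le_right le_sup_left h0)
    rw [← h3] at h5 h9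
    exact (Nat.le_of_dvd (Nat.pos_of_ne_zero h9) (AddSubgroup.index_dvd_of_le h4)).trans h5
  have hH0 : H.index ≠ 0 := by
    intro h0
    rw [h0, zero_mul, hidx] at h1
    exact absurd h1.symm (pow_ne_zero _ (by omega))
  -- level `j`
  let ρ : MonoidAlgebra (ZMod p) (𝒯.Q j) →ₗ[ZMod p] MonoidAlgebra (ZMod p) (𝒯.Q j) :=
    LinearMap.mulRight (ZMod p) (f.1 j)
  have h6 : (LinearMap.range ρ).toAddSubgroup.index * p ^ (reg (ZMod p) (𝒯.Q j) (f.1 j)).rank =
      p ^ Fintype.card (𝒯.Q j) := by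
    let e : MonoidAlgebra (ZMod p) (𝒯.Q j) ≃ₗ[ZMod p] (𝒯.Q j → ZMod p) :=
      (MonoidAlgebra.coeffLinearEquiv (ZMod p)).trans
        (Finsupp.linearEquivFunOnFinite (ZMod p) (ZMod p) (𝒯.Q j))
    have hfin : Module.Finite (ZMod p) (MonoidAlgebra (ZMod p) (𝒯.Q j)) :=
      Module.Finite.equiv e.symm
    have hfin' : Finite (MonoidAlgebra (ZMod p) (𝒯.Q j)) := Finite.of_equiv _ e.symm.toEquiv
    have hA : Nat.card (MonoidAlgebra (ZMod p) (𝒯.Q j)) = p ^ Fintype.card (𝒯.Q j) := by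
      rw [Nat.card_congr e.toEquiv, Nat.card_eq_fintype_card, Fintype.card_fun, ZMod.card]
    have hB : Nat.card (LinearMap.range ρ) = p ^ (reg (ZMod p) (𝒯.Q j) (f.1 j)).rank := by
      rw [rank_reg, Module.natCard_eq_pow_finrank (K := ZMod p), Nat.card_zmod]
    have hC := AddSubgroup.card_mul_index (LinearMap.range ρ).toAddSubgroup
    rw [hA] at hC
    rw [mul_comm, ← hB]
    exact hC
  have h7 : (LinearMap.range ρ).toAddSubgroup.index ≤ H.index := by
    have h8 : ((LinearMap.range ρ).toAddSubgroup.comap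
        (ev (ZMod p) 𝒯 j : Lam (ZMod p) 𝒯 →+ MonoidAlgebra (ZMod p) (𝒯.Q j))).index =
        (LinearMap.range ρ).toAddSubgroup.index :=
      AddSubgroup.index_comap_of_surjective _ (ev_surjective (ZMod p) 𝒯 j)
    rw [← h8]
    refine Nat.le_of_dvd (Nat.pos_of_ne_zero hH0) (AddSubgroup.index_dvd_of_le ?_)
    refine sup_le ?_ ?_
    · rintro _ ⟨y, rfl⟩
      exact ⟨y.1 j, rfl⟩
    · intro a ha
      have h9 : a.1 j = 0 := hc a (hanti (by omega) ha)
      change a.1 j ∈ LinearMap.range ρ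
      rw [h9]
      exact zero_mem _
  have hnn : n - n0 = d * p ^ j + 1 := by omega
  rw [hnn, hidx] at h2
  rw [hidx] at h1
  have h10 : p ^ (Fintype.card (𝒯.Q j) + Nat.card {α : Fin d → ℕ // ∑ i, α i < d * p ^ j + 1}) ≤
      p ^ (Nat.card {α : Fin d → ℕ // ∑ i, α i < n} + (reg (ZMod p) (𝒯.Q j) (f.1 j)).rank) := by
    rw [pow_add, pow_add, ← h6, ← h1]
    calc _ ≤ (H.index * p ^ (reg (ZMod p) (𝒯.Q j) (f.1 j)).rank) * (c.F n).relIndex H :=
          Nat.mul_le_mul (Nat.mul_le_mul_right _ h7) h2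
      _ = _ := by ring
  exact (Nat.pow_le_pow_iff_right hp).1 h10

/-- The normalized ranks tend to one. -/
theorem tendsto_rank_reg {x : Fin d → 𝒯.G} (h : IsTower p 𝒯 d x)
    (c : CFR (ZMod p) d (Lam (ZMod p) 𝒯))
    (hc : ∀ j, ∀ a : Lam (ZMod p) 𝒯, a ∈ c.F (d * p ^ j + 1) → a.1 j = 0)
    {f : Lam (ZMod p) 𝒯} {n0 : ℕ} (hn0 : ∀ n y, y * f ∈ c.F n → y ∈ c.F (n - n0))
    (r : ℕ → ℕ) (hr : ∀ j, (reg (ZMod p) (𝒯.Q j) (f.1 j)).rank ≤ r j)
    (hr' : ∀ j, r j ≤ Fintype.card (𝒯.Q j)) :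
    Tendsto (fun j => (r j : ℝ) / Fintype.card (𝒯.Q j)) atTop (𝓝 1) := by
  have hp : 1 < p := (Fact.out : p.Prime).one_lt
  have hp0 : (0 : ℝ) < p := by exact_mod_cast (by omega : 0 < p)
  have hp1 : (1 : ℝ) / p < 1 := by
    rw [div_lt_one hp0]
    exact_mod_cast hp
  set C : ℝ := n0 * (d + 1 + n0) ^ (d - 1) with hC
  have hlim : Tendsto (fun j : ℕ => 1 - C * (1 / (p : ℝ)) ^ j) atTop (𝓝 1) := by
    have h1 := (tendsto_pow_atTop_nhds_zero_of_lt_one (by positivity) hp1).const_mul C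
    have h2 := h1.const_sub 1
    simpa using h2
  refine tendsto_of_tendsto_of_tendsto_of_le_of_le hlim tendsto_const_nhds ?_ ?_
  · intro j
    have hcard : (0 : ℝ) < Fintype.card (𝒯.Q j) := by exact_mod_cast Fintype.card_pos
    have h1 := index_le c j (hc j) hn0
    have h2 := card_exponents_le d (d * p ^ j + 1 + n0) n0 (by omega)
    have h3 : d * p ^ j + 1 + n0 - n0 = d * p ^ j + 1 := by omega
    rw [h3] at h2
    have h4 := hr j
    have h5 : Fintype.card (𝒯.Q j) ≤ r j +
        (if d = 0 then 0 else n0 * (d * p ^ j + 1 + n0) ^ (d - 1)) := by omega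
    have h6 : ((if d = 0 then 0 else n0 * (d * p ^ j + 1 + n0) ^ (d - 1) : ℕ) : ℝ) ≤
        C * (1 / (p : ℝ)) ^ j * Fintype.card (𝒯.Q j) := by
      split_ifs with hd
      · rw [Nat.cast_zero]
        positivity
      · obtain ⟨d', rfl⟩ : ∃ d', d = d' + 1 := ⟨d - 1, by omega⟩
        rw [h.card j, hC]
        have h7 : (1 : ℝ) ≤ (p : ℝ) ^ j := one_le_pow₀ (by exact_mod_cast hp.le)
        rw [Nat.add_sub_cancel]
        push_cast
        have h8 : (((d' : ℝ) + 1) * p ^ j + 1 + n0) ≤ ((d' : ℝ) + 1 + 1 + n0) * p ^ j := by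
          have h9 : (0 : ℝ) ≤ n0 := Nat.cast_nonneg _
          nlinarith
        have h10 : ((((d' : ℝ) + 1) * p ^ j + 1 + n0)) ^ d' ≤
            (((d' : ℝ) + 1 + 1 + n0) * p ^ j) ^ d' := pow_le_pow_left₀ (by positivity) h8 _
        calc (n0 : ℝ) * ((((d' : ℝ) + 1) * p ^ j + 1 + n0)) ^ d'
            ≤ n0 * (((d' : ℝ) + 1 + 1 + n0) * p ^ j) ^ d' := by gcongr
          _ = n0 * ((d' : ℝ) + 1 + 1 + n0) ^ d' * (1 / (p : ℝ)) ^ j * p ^ (j * (d' + 1)) := by
            rw [one_div, inv_pow, mul_pow, mul_add, mul_one, pow_add, ← pow_mul]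
            field_simp
    have h7 : (Fintype.card (𝒯.Q j) : ℝ) ≤ r j +
        ((if d = 0 then 0 else n0 * (d * p ^ j + 1 + n0) ^ (d - 1) : ℕ) : ℝ) := by
      exact_mod_cast h5
    rw [le_div_iff₀ hcard]
    linarith
  · intro j
    have hcard : (0 : ℝ) < Fintype.card (𝒯.Q j) := by exact_mod_cast Fintype.card_pos
    change (r j : ℝ) / Fintype.card (𝒯.Q j) ≤ 1
    rw [div_le_one hcard]
    exact_mod_cast hr' j

theorem isUnit_lamAlg (p : ℕ) [Fact p.Prime] (𝒯 : Sys) {d : ℕ} (x : Fin d → 𝒯.G)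
    (h : IsTower p 𝒯 d x) {F : Type} [Field F] (φ : ℤ_[p] →+* F) (hφ : Function.Injective φ)
    (a : Lam ℤ_[p] 𝒯) (ha : a ≠ 0) : IsUnit (lamAlg φ 𝒯 a) := by
  obtain ⟨L, hLπ, hLred⟩ := exists_lamLift p 𝒯
  obtain ⟨n, b, hab, hb⟩ := L.exists_pow_mul a ha
  obtain ⟨c, hc⟩ := tower_cfr p 𝒯 x h
  obtain ⟨n0, -, -, hn0⟩ := c.exists_order (L.red b) hb
  have hb1 : IsUnit (lamAlg φ 𝒯 b) := by
    let A : Matrix Unit Unit (Seq F 𝒯.Q) := Matrix.of fun _ _ => lamSeq φ 𝒯 b
    have h1 : (algRank F 𝒯.Q).rk (A.map (UAlg.mk F 𝒯.Q)) = Fintype.card Unit := by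
      rw [algRank_map]
      apply omLim_eq
      have h2 : ∀ j, (flat A j).rank = (lamSeq φ 𝒯 b j).rank := by
        intro j
        have h3 : flat A j = (lamSeq φ 𝒯 b j).submatrix (Equiv.punitProd _) (Equiv.punitProd _) :=
          rfl
        rw [h3, Matrix.rank_submatrix]
      have h3 : Tendsto (fun j => ((flat A j).rank : ℝ) / Fintype.card (𝒯.Q j)) atTop (𝓝 1) := by
        refine tendsto_rank_reg h c hc hn0 (fun j => (flat A j).rank) ?_ ?_
        · intro j
          rw [h2, lamSeq_apply, hLred]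
          let N : Matrix (𝒯.Q j) (𝒯.Q j) ℤ_[p] := reg ℤ_[p] (𝒯.Q j) (b.1 j)
          have h4 : reg (ZMod p) (𝒯.Q j)
              (MonoidAlgebra.mapRingHom (𝒯.Q j) PadicInt.toZMod (b.1 j)) =
              N.map (PadicInt.toZMod (p := p)) := by
            ext g g'
            change _ = PadicInt.toZMod (p := p) (reg ℤ_[p] (𝒯.Q j) (b.1 j) g g')
            rw [reg_apply, reg_apply]
            simp
          have h5 : reg F (𝒯.Q j) (MonoidAlgebra.mapRingHom (𝒯.Q j) φ (b.1 j)) = N.map φ := by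
            ext g g'
            change _ = φ (reg ℤ_[p] (𝒯.Q j) (b.1 j) g g')
            rw [reg_apply, reg_apply]
            simp
          rw [h4, h5]
          exact rank_map_ge φ hφ N
        · intro j
          rw [h2]
          exact Matrix.rank_le_card_width _
      have h4 : (om : Filter ℕ) ≤ atTop := by
        rw [← Nat.cofinite_eq_atTop]
        exact Filter.hyperfilter_le_cofinite
      simpa using h3.mono_left h4
    have h2 := (algRank_regular F 𝒯.Q).isUnit _ h1
    obtain ⟨⟨T, Y, h3, h4⟩, h5⟩ := h2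
    simp only at h5
    rw [h5] at h3 h4
    refine ⟨⟨lamAlg φ 𝒯 b, Y () (), ?_, ?_⟩, rfl⟩
    · have := congrFun (congrFun h3 ()) ()
      rw [Matrix.mul_apply, Fintype.sum_unique] at this
      exact this
    · have := congrFun (congrFun h4 ()) ()
      rw [Matrix.mul_apply, Fintype.sum_unique] at this
      exact this
  have hp : IsUnit ((p : ℕ) : UAlg F 𝒯.Q) := by
    have h1 : ((p : ℕ) : F) ≠ 0 := by
      intro h0
      have h2 : φ ((p : ℕ) : ℤ_[p]) = 0 := by rw [map_natCast, h0]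
      have h3 := hφ (h2.trans (map_zero φ).symm)
      have h4 : p = 0 := by exact_mod_cast h3
      exact (Fact.out : p.Prime).ne_zero h4
    have h2 := (IsUnit.mk0 _ h1).map (algebraMap F (UAlg F 𝒯.Q))
    rwa [map_natCast] at h2
  rw [hab, map_mul, map_pow, hLπ, map_natCast]
  exact (hp.pow n).mul hb1

end M20

end Pool.Agent.H4.Atiyah
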