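import Pool.Agent.H4.Atiyah.Defs

set_option autoImplicit false

open Filter Topology

namespace Pool.Agent.H4.Atiyah

private lemma luck_nrm_nonneg {ι : Type*} [Fintype ι] (x : ι → ℂ) : 0 ≤ nrm x := Real.sqrt_nonneg _

open scoped ComplexOrder in
private lemma luck_rank {m n : Type*} [Fintype m] [Fintype n] (A : Matrix m n ℂ) :
    (A * A.conjTranspose).rank = A.rank := Matrix.rank_self_mul_conjTranspose A

private lemma luck_nrm_sq {ι : Type*} [Fintype ι] (x : ι → ℂ) :
    ((nrm x ^ 2 : ℝ) : ℂ) = star x ⬝ᵥ x := by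
  unfold nrm
  rw [Real.sq_sqrt (Finset.sum_nonneg fun i _ => by positivity)]
  unfold dotProduct
  push_cast
  refine Finset.sum_congr rfl fun i _ => ?_
  rw [Pi.star_apply, Complex.star_def, Complex.conj_mul']

private lemma luck_quad {m n : Type*} [Fintype m] [Fintype n] (M : Matrix m n ℤ) (x : m → ℂ) :
    ((nrm (Matrix.vecMul x (M.map (Int.cast : ℤ → ℂ))) ^ 2 : ℝ) : ℂ) =
      star x ⬝ᵥ ((M.map (Int.cast : ℤ → ℂ) * (M.map (Int.cast : ℤ → ℂ)).conjTranspose).mulVec x) := by
  have hA : (M.map (Int.cast : ℤ → ℂ)).conjTranspose = (M.map (Int.cast : ℤ → ℂ)).transpose := by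
    ext i j
    simp [Matrix.conjTranspose_apply, Matrix.map_apply, Matrix.transpose_apply]
  rw [luck_nrm_sq, ← Matrix.mulVec_mulVec, Matrix.dotProduct_mulVec, hA, Matrix.mulVec_transpose]
  congr 1
  rw [Matrix.star_vecMul, hA, Matrix.mulVec_transpose]

theorem luck_int {m n : Type*} [Fintype m] [Fintype n] (M : Matrix m n ℤ) (c : ℝ) (hc : 1 ≤ c)
    (hM : ∀ x : m → ℂ, nrm (Matrix.vecMul x (M.map (Int.cast : ℤ → ℂ))) ≤ c * nrm x)
    (ε : ℝ) (h0 : 0 < ε) (h1 : ε < 1) (V : Submodule ℂ (m → ℂ))
    (hV : ∀ x ∈ V, nrm (Matrix.vecMul x (M.map (Int.cast : ℤ → ℂ))) ≤ ε * nrm x) :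
    (Module.finrank ℂ V : ℝ) ≤ Fintype.card m - (M.map (Int.cast : ℤ → ℂ)).rank +
      Fintype.card m * (Real.log c / Real.log (1 / ε)) := by
  classical
  set A : Matrix m n ℂ := M.map (Int.cast : ℤ → ℂ) with hA
  set T : Matrix m m ℂ := A * A.conjTranspose with hT
  have hTh : T.IsHermitian := Matrix.isHermitian_mul_conjTranspose_self A
  set lam : m → ℝ := hTh.eigenvalues with hlam
  set U : Matrix m m ℂ := (hTh.eigenvectorUnitary : Matrix m m ℂ) with hU
  have hUU : star U * U = 1 := Unitary.coe_star_mul_self _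
  have hUU' : U * star U = 1 := Unitary.coe_mul_star_self _
  -- coordinates in the eigenbasis
  have hquad : ∀ x : m → ℂ, nrm (Matrix.vecMul x A) ^ 2 =
      ∑ i, lam i * ‖((star U).mulVec x) i‖ ^ 2 := by
    intro x
    have h2 : ((nrm (Matrix.vecMul x A) ^ 2 : ℝ) : ℂ) = star x ⬝ᵥ (T.mulVec x) := luck_quad M x
    have h3 : T = U * Matrix.diagonal (RCLike.ofReal ∘ lam) * star U := by
      have := hTh.spectral_theorem
      rw [Unitary.conjStarAlgAut_apply] at this
      exact this
    have h4 : star x ⬝ᵥ (T.mulVec x) =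
        ((∑ i, lam i * ‖((star U).mulVec x) i‖ ^ 2 : ℝ) : ℂ) := by
      rw [h3, ← Matrix.mulVec_mulVec, ← Matrix.mulVec_mulVec, Matrix.dotProduct_mulVec]
      have h5 : Matrix.vecMul (star x) U = star ((star U).mulVec x) := by
        rw [Matrix.star_mulVec, Matrix.star_eq_conjTranspose, Matrix.conjTranspose_conjTranspose]
      rw [h5]
      unfold dotProduct
      push_cast
      refine Finset.sum_congr rfl fun i _ => ?_
      rw [Matrix.mulVec_diagonal, Pi.star_apply, Complex.star_def, Function.comp_apply,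
        ← Complex.conj_mul']
      simp only [RCLike.ofReal, Complex.coe_algebraMap]
      ring
    rw [h4] at h2
    exact_mod_cast h2
  have hnorm : ∀ x : m → ℂ, nrm x ^ 2 = ∑ i, ‖((star U).mulVec x) i‖ ^ 2 := by
    intro x
    have h2 : ((nrm x ^ 2 : ℝ) : ℂ) = ((nrm ((star U).mulVec x) ^ 2 : ℝ) : ℂ) := by
      rw [luck_nrm_sq, luck_nrm_sq, Matrix.star_mulVec, Matrix.star_eq_conjTranspose,
        Matrix.conjTranspose_conjTranspose, ← Matrix.dotProduct_mulVec, Matrix.mulVec_mulVec,
        ← Matrix.star_eq_conjTranspose, hUU', Matrix.one_mulVec]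
    have h3 : nrm x ^ 2 = nrm ((star U).mulVec x) ^ 2 := by exact_mod_cast h2
    rw [h3, nrm, Real.sq_sqrt (Finset.sum_nonneg fun i _ => by positivity)]
  -- eigenvalues
  have hlam0 : ∀ i, 0 ≤ lam i ∧ lam i ≤ c ^ 2 := by
    intro i
    have hy : (star U).mulVec (U.mulVec (Pi.single i 1)) = Pi.single i (1 : ℂ) := by
      rw [Matrix.mulVec_mulVec, hUU, Matrix.one_mulVec]
    have h2 := hquad (U.mulVec (Pi.single i 1))
    have h3 := hnorm (U.mulVec (Pi.single i 1))
    rw [hy] at h2 h3
    have h4 : ∑ j, ‖(Pi.single i (1 : ℂ) : m → ℂ) j‖ ^ 2 = 1 := by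
      rw [Finset.sum_eq_single i]
      · simp
      · intro j _ hj; simp [hj]
      · simp
    have h5 : ∑ j, lam j * ‖(Pi.single i (1 : ℂ) : m → ℂ) j‖ ^ 2 = lam i := by
      rw [Finset.sum_eq_single i]
      · simp
      · intro j _ hj; simp [hj]
      · simp
    rw [h4] at h3
    rw [h5] at h2
    refine ⟨h2 ▸ sq_nonneg _, ?_⟩
    have h6 := hM (U.mulVec (Pi.single i 1))
    have h7 : nrm (U.mulVec (Pi.single i (1 : ℂ))) = 1 := by
      have := luck_nrm_nonneg (U.mulVec (Pi.single i (1 : ℂ)))
      nlinarith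
    rw [h7, mul_one] at h6
    rw [← h2]
    exact pow_le_pow_left₀ (luck_nrm_nonneg _) h6 2
  -- dimension of `V`
  have hdim : Module.finrank ℂ V ≤ Fintype.card {i // lam i ≤ ε ^ 2} := by
    let L : V →ₗ[ℂ] ({i // lam i ≤ ε ^ 2} → ℂ) :=
      { toFun := fun x i => ((star U).mulVec (x : m → ℂ)) i
        map_add' := by
          intro x y
          funext i
          simp [Matrix.mulVec_add]
        map_smul' := by
          intro a x
          funext i
          simp [Matrix.mulVec_smul] }
    have hL : Function.Injective L := by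
      rw [← LinearMap.ker_eq_bot, LinearMap.ker_eq_bot']
      intro x hx
      have hz : ∀ i, lam i ≤ ε ^ 2 → ((star U).mulVec (x : m → ℂ)) i = 0 := fun i hi =>
        congrFun hx ⟨i, hi⟩
      have h2 := hV x x.2
      have h3 : nrm (Matrix.vecMul (x : m → ℂ) A) ^ 2 ≤ ε ^ 2 * nrm (x : m → ℂ) ^ 2 := by
        rw [← mul_pow]
        exact pow_le_pow_left₀ (luck_nrm_nonneg _) h2 2
      rw [hquad, hnorm, Finset.mul_sum, ← sub_nonneg, ← Finset.sum_sub_distrib] at h3
      have hterm : ∀ i, ε ^ 2 * ‖((star U).mulVec (x : m → ℂ)) i‖ ^ 2 -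
          lam i * ‖((star U).mulVec (x : m → ℂ)) i‖ ^ 2 ≤ 0 := by
        intro i
        by_cases hi : lam i ≤ ε ^ 2
        · rw [hz i hi]; simp
        · push Not at hi
          have := sq_nonneg ‖((star U).mulVec (x : m → ℂ)) i‖
          nlinarith
      have hall : ∀ i ∈ Finset.univ, ε ^ 2 * ‖((star U).mulVec (x : m → ℂ)) i‖ ^ 2 -
          lam i * ‖((star U).mulVec (x : m → ℂ)) i‖ ^ 2 = 0 := by
        have h4 : ∑ i, (ε ^ 2 * ‖((star U).mulVec (x : m → ℂ)) i‖ ^ 2 -
          lam i * ‖((star U).mulVec (x : m → ℂ)) i‖ ^ 2) = 0 :=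
          le_antisymm (Finset.sum_nonpos fun i _ => hterm i) h3
        exact (Finset.sum_eq_zero_iff_of_nonpos fun i _ => hterm i).1 h4
      have hzero : ∀ i, ((star U).mulVec (x : m → ℂ)) i = 0 := by
        intro i
        by_cases hi : lam i ≤ ε ^ 2
        · exact hz i hi
        · push Not at hi
          have h5 := hall i (Finset.mem_univ i)
          rw [← sub_mul] at h5
          rcases mul_eq_zero.1 h5 with h6 | h6
          · linarith
          · exact norm_eq_zero.1 (pow_eq_zero_iff (two_ne_zero)|>.1 h6)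
      have h7 : (star U).mulVec (x : m → ℂ) = 0 := funext hzero
      have h8 : (x : m → ℂ) = U.mulVec ((star U).mulVec (x : m → ℂ)) := by
        rw [Matrix.mulVec_mulVec, hUU', Matrix.one_mulVec]
      rw [h7, Matrix.mulVec_zero] at h8
      exact Subtype.ext h8
    have := LinearMap.finrank_le_finrank_of_injective hL
    rwa [Module.finrank_fintype_fun_eq_card] at this
  -- the product of the nonzero eigenvalues is at least one
  set Z : Finset m := Finset.univ.filter fun i => lam i ≠ 0 with hZ
  have hprod : 1 ≤ ∏ i ∈ Z, lam i := by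
    have hmap : T = (M * M.transpose).map (Int.castRingHom ℂ) := by
      rw [hT, Matrix.map_mul, hA]
      congr 1
      ext i j
      simp [Matrix.conjTranspose_apply, Matrix.map_apply, Matrix.transpose_apply]
    have h2 := hTh.charpoly_eq
    have h3 : T.charpoly = ((M * M.transpose).charpoly).map (Int.castRingHom ℂ) := by
      rw [hmap, Matrix.charpoly_map]
    have h4 : T.charpoly = Polynomial.X ^ (Finset.univ.filter fun i => ¬ lam i ≠ 0).card *
        ∏ i ∈ Z, (Polynomial.X - Polynomial.C ((lam i : ℝ) : ℂ)) := by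
      rw [h2, ← Finset.prod_filter_not_mul_prod_filter Finset.univ (fun i => lam i ≠ 0)]
      congr 1
      rw [Finset.prod_congr rfl (g := fun _ => (Polynomial.X : Polynomial ℂ)), Finset.prod_const]
      intro i hi
      have : lam i = 0 := by simpa using hi
      rw [hlam] at this
      rw [this]
      simp
    have h5 : (T.charpoly).coeff (Finset.univ.filter fun i => ¬ lam i ≠ 0).card =
        ∏ i ∈ Z, (-((lam i : ℝ) : ℂ)) := by
      rw [h4, Polynomial.coeff_X_pow_mul', if_pos le_rfl, Nat.sub_self, Polynomial.coeff_zero_eq_eval_zero,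
        Polynomial.eval_prod]
      refine Finset.prod_congr rfl fun i _ => ?_
      simp
    rw [h3, Polynomial.coeff_map] at h5
    set k := (M * M.transpose).charpoly.coeff (Finset.univ.filter fun i => ¬ lam i ≠ 0).card
      with hk
    have h6 : ‖((Int.castRingHom ℂ) k)‖ = ∏ i ∈ Z, lam i := by
      rw [h5, norm_prod]
      refine Finset.prod_congr rfl fun i _ => ?_
      rw [norm_neg, Complex.norm_real, Real.norm_of_nonneg (hlam0 i).1]
    have hpos : 0 < ∏ i ∈ Z, lam i := Finset.prod_pos fun i hi =>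
      lt_of_le_of_ne (hlam0 i).1 (Ne.symm (by simpa [hZ] using hi))
    rw [← h6] at hpos ⊢
    have hk0 : k ≠ 0 := by
      rintro h
      rw [h] at hpos
      simp at hpos
    have : (1 : ℤ) ≤ |k| := Int.one_le_abs hk0
    have h7 : ‖((Int.castRingHom ℂ) k)‖ = ((|k| : ℤ) : ℝ) := by
      simp [Complex.norm_intCast]
    rw [h7]
    exact_mod_cast this
  -- logarithms
  have hlogc : 0 ≤ Real.log c := Real.log_nonneg hc
  have hlogε : Real.log ε < 0 := Real.log_neg h0 h1
  set R : Finset m := Z.filter fun i => lam i ≤ ε ^ 2 with hR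
  have hsum : 0 ≤ ∑ i ∈ Z, Real.log (lam i) := by
    rw [← Real.log_prod (fun i hi => by simpa [hZ] using hi)]
    exact Real.log_nonneg hprod
  have hbound : ∑ i ∈ Z, Real.log (lam i) ≤ R.card * (2 * Real.log ε) +
      (Fintype.card m) * (2 * Real.log c) := by
    rw [← Finset.sum_filter_add_sum_filter_not Z (fun i => lam i ≤ ε ^ 2)]
    refine add_le_add ?_ ?_
    · rw [← nsmul_eq_mul]
      refine Finset.sum_le_card_nsmul _ _ _ fun i hi => ?_
      rw [Finset.mem_filter] at hi
      have hpos : 0 < lam i := lt_of_le_of_ne (hlam0 i).1 (Ne.symm (by simpa [hZ] using hi.1))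
      calc Real.log (lam i) ≤ Real.log (ε ^ 2) := Real.log_le_log hpos hi.2
        _ = 2 * Real.log ε := by rw [Real.log_pow]; norm_num
    · refine (Finset.sum_le_card_nsmul _ _ (2 * Real.log c) fun i hi => ?_).trans ?_
      · rw [Finset.mem_filter] at hi
        have hpos : 0 < lam i := lt_of_le_of_ne (hlam0 i).1 (Ne.symm (by simpa [hZ] using hi.1))
        calc Real.log (lam i) ≤ Real.log (c ^ 2) := Real.log_le_log hpos (hlam0 i).2
          _ = 2 * Real.log c := by rw [Real.log_pow]; norm_num
      · rw [nsmul_eq_mul]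
        refine mul_le_mul_of_nonneg_right ?_ (by positivity)
        exact_mod_cast Finset.card_le_univ _
  have hRcard : (R.card : ℝ) ≤ Fintype.card m * (Real.log c / Real.log (1 / ε)) := by
    have h2 : Real.log (1 / ε) = - Real.log ε := by
      rw [Real.log_div one_ne_zero h0.ne', Real.log_one, zero_sub]
    rw [h2, ← mul_div_assoc, le_div_iff₀ (by linarith)]
    nlinarith [hsum.trans hbound]
  -- counting
  have hcount : (Fintype.card {i // lam i ≤ ε ^ 2} : ℝ) =
      (Fintype.card m - A.rank : ℝ) + R.card := by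
    have h2 : A.rank = Z.card := by
      rw [← luck_rank A, hTh.rank_eq_card_non_zero_eigs,
        Fintype.card_subtype]
    have h3 : (Finset.univ.filter fun i => lam i ≤ ε ^ 2) =
        (Finset.univ.filter fun i => ¬ lam i ≠ 0) ∪ R := by
      ext i
      simp only [hR, hZ, Finset.mem_filter, Finset.mem_univ, true_and, Finset.mem_union, not_not]
      constructor
      · intro hi
        by_cases h : lam i = 0
        · exact Or.inl h
        · exact Or.inr ⟨h, hi⟩
      · rintro (h | h)
        · rw [h]; positivity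
        · exact h.2
    have h4 : Disjoint (Finset.univ.filter fun i => ¬ lam i ≠ 0) R := by
      rw [Finset.disjoint_left]
      intro i hi hi'
      simp only [hR, hZ, Finset.mem_filter, Finset.mem_univ, true_and, not_not] at hi hi'
      exact hi'.1 hi
    have h5 : (Finset.univ.filter fun i => lam i ≠ 0).card +
        (Finset.univ.filter fun i => ¬ lam i ≠ 0).card = Fintype.card m := by
      rw [Finset.card_filter_add_card_filter_not]
      rfl
    rw [Fintype.card_subtype, h3, Finset.card_union_of_disjoint h4, h2]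
    have h6 : ((Finset.univ.filter fun i => lam i ≠ 0).card : ℝ) +
        (Finset.univ.filter fun i => ¬ lam i ≠ 0).card = Fintype.card m := by exact_mod_cast h5
    push_cast
    rw [← hZ] at h6
    linarith
  have hdim' : (Module.finrank ℂ V : ℝ) ≤ Fintype.card {i // lam i ≤ ε ^ 2} := by
    exact_mod_cast hdim
  linarith

end Pool.Agent.H4.Atiyah
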