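import Pool.Agent.H4.Atiyah.Maps
import Pool.Agent.H4.Atiyah.Luck
import Pool.Agent.H4.Atiyah.Ranks

/-!
# Lück approximation for rational group rings
-/

set_option autoImplicit false

open Filter Topology
open scoped Matrix

namespace Pool.Agent.H4.Atiyah



/-! ### uniform bounds -/

theorem exists_bound_grpSeq (𝒯 : Sys) (a : MonoidAlgebra ℂ 𝒯.G) :
    ∃ C : ℝ, 0 ≤ C ∧ ∀ j, SmallOn (grpSeq ℂ 𝒯 a j) 0 C := by
  induction a using MonoidAlgebra.induction_linear with
  | zero => exact ⟨0, le_rfl, fun j => by rw [map_zero]; exact SmallOn.zero _ le_rfl⟩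
  | add f g hf hg =>
    obtain ⟨C, hC, h1⟩ := hf
    obtain ⟨C', hC', h2⟩ := hg
    refine ⟨C + C', by positivity, fun j => ?_⟩
    rw [map_add]
    exact ((h1 j).add (h2 j)).mono (by simp) le_rfl
  | single q c =>
    refine ⟨‖c‖, norm_nonneg _, fun j => ?_⟩
    have h : grpSeq ℂ 𝒯 (MonoidAlgebra.single q c) j =
        reg ℂ (𝒯.Q j) (MonoidAlgebra.single (𝒯.π j q) c) := by
      rw [grpSeq_apply]
      simp
    rw [h]
    exact smallOn_reg_single _ _ _ le_rfl

theorem SmallOn.forall_of_zero {m n : Type*} [Fintype m] [Fintype n] {M : Matrix m n ℂ} {C : ℝ}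
    (h : SmallOn M 0 C) (x : m → ℂ) : nrm (Matrix.vecMul x M) ≤ C * nrm x := by
  obtain ⟨V, h1, h2⟩ := h
  have h3 : V = ⊤ := by
    apply Submodule.eq_top_of_finrank_eq
    apply le_antisymm (Submodule.finrank_le V)
    rw [Module.finrank_fintype_fun_eq_card]
    rw [add_zero] at h1
    exact_mod_cast h1
  exact h2 x (h3 ▸ Submodule.mem_top)

theorem nrm_slice_le {m X : Type*} [Fintype m] [Fintype X] (x : m × X → ℂ) (i : m) :
    nrm (fun g => x (i, g)) ≤ nrm x := by
  unfold nrm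
  apply Real.sqrt_le_sqrt
  rw [Fintype.sum_prod_type]
  exact Finset.single_le_sum (f := fun i => ∑ g, ‖x (i, g)‖ ^ 2)
    (fun i _ => Finset.sum_nonneg fun _ _ => by positivity) (Finset.mem_univ i)

theorem nrm_le_sum_slice {m X : Type*} [Fintype m] [Fintype X] (x : m × X → ℂ) :
    nrm x ≤ ∑ i, nrm (fun g => x (i, g)) := by
  classical
  have h : x = ∑ i, fun y : m × X => if y.1 = i then x y else 0 := by
    ext y
    rw [Finset.sum_apply]
    simp
  have h2 : ∀ s : Finset m, nrm (∑ i ∈ s, fun y : m × X => if y.1 = i then x y else 0) ≤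
      ∑ i ∈ s, nrm (fun y : m × X => if y.1 = i then x y else 0) := by
    intro s
    induction s using Finset.induction_on with
    | empty => simp
    | insert a s ha ih =>
      rw [Finset.sum_insert ha, Finset.sum_insert ha]
      exact (nrm_add_le _ _).trans (by linarith)
  have h3 : ∀ i, nrm (fun y : m × X => if y.1 = i then x y else 0) = nrm (fun g => x (i, g)) := by
    intro i
    unfold nrm
    congr 1
    rw [Fintype.sum_prod_type, Finset.sum_eq_single i]
    · simp
    · intro b _ hb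
      simp [hb]
    · simp
  calc nrm x = nrm (∑ i, fun y : m × X => if y.1 = i then x y else 0) := by rw [← h]
    _ ≤ _ := h2 _
    _ = _ := Finset.sum_congr rfl fun i _ => h3 i

theorem nrm_sum_le {ι X : Type*} [Fintype X] (s : Finset ι) (f : ι → X → ℂ) :
    nrm (∑ i ∈ s, f i) ≤ ∑ i ∈ s, nrm (f i) := by
  classical
  induction s using Finset.induction_on with
  | empty => simp
  | insert a s ha ih =>
    rw [Finset.sum_insert ha, Finset.sum_insert ha]
    exact (nrm_add_le _ _).trans (by linarith)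

theorem vecMul_flat {R : Type*} [CommRing R] {X : ℕ → Type} [∀ j, Fintype (X j)] {m n : Type*}
    [Fintype m] (A : Matrix m n (∀ j, Matrix (X j) (X j) R)) (j : ℕ) (x : m × X j → R) (i' : n) :
    (fun h => Matrix.vecMul x (flat A j) (i', h)) =
      ∑ i, Matrix.vecMul (fun g => x (i, g)) (A i i' j) := by
  ext h
  simp only [Matrix.vecMul, dotProduct, flat, Matrix.of_apply, Fintype.sum_prod_type,
    Finset.sum_apply]

/-- a matrix over the group ring is uniformly bounded at all levels -/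
theorem exists_bound_op (𝒯 : Sys) {m n : Type} [Fintype m] [Fintype n]
    (A : Matrix m n (MonoidAlgebra ℂ 𝒯.G)) :
    ∃ C : ℝ, 0 ≤ C ∧ ∀ j, ∀ x : m × 𝒯.Q j → ℂ,
      nrm (Matrix.vecMul x (op (A.map (MonoidAlgebra.mapDomainRingHom ℂ (𝒯.π j))))) ≤ C * nrm x := by
  choose C hC h using fun a : MonoidAlgebra ℂ 𝒯.G => exists_bound_grpSeq 𝒯 a
  refine ⟨∑ i', ∑ i, C (A i i'), Finset.sum_nonneg fun _ _ => Finset.sum_nonneg fun _ _ => hC _,
    fun j x => ?_⟩
  rw [← flat_grpSeq]
  calc _ ≤ ∑ i', nrm (fun h => Matrix.vecMul x (flat (A.map (grpSeq ℂ 𝒯)) j) (i', h)) :=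
        nrm_le_sum_slice _
    _ ≤ ∑ i', (∑ i, C (A i i')) * nrm x := by
        refine Finset.sum_le_sum fun i' _ => ?_
        rw [vecMul_flat]
        refine (nrm_sum_le _ _).trans ?_
        rw [Finset.sum_mul]
        refine Finset.sum_le_sum fun i _ => ?_
        refine ((h (A i i') j).forall_of_zero _).trans ?_
        exact mul_le_mul_of_nonneg_left (nrm_slice_le x i) (hC _)
    _ = _ := by rw [Finset.sum_mul]

/-! ### clearing denominators -/

theorem exists_int_multiple {G : Type} [Group G] (a : MonoidAlgebra ℚ G) :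
    ∃ (N : ℕ) (b : MonoidAlgebra ℤ G), 0 < N ∧
      MonoidAlgebra.mapRingHom G (Int.castRingHom ℚ) b = (N : ℚ) • a := by
  induction a using MonoidAlgebra.induction_linear with
  | zero => exact ⟨1, 0, one_pos, by simp⟩
  | add f g hf hg =>
    obtain ⟨N, b, hN, hb⟩ := hf
    obtain ⟨N', b', hN', hb'⟩ := hg
    refine ⟨N * N', N' • b + N • b', Nat.mul_pos hN hN', ?_⟩
    rw [map_add, map_nsmul, map_nsmul, hb, hb']
    rw [← Nat.cast_smul_eq_nsmul ℚ, ← Nat.cast_smul_eq_nsmul ℚ]
    push_cast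
    module
  | single q c =>
    refine ⟨c.den, MonoidAlgebra.single q c.num, c.den_pos, ?_⟩
    rw [MonoidAlgebra.mapRingHom_single]
    rw [MonoidAlgebra.smul_single]
    congr 1
    simp only [eq_intCast, smul_eq_mul]
    rw [mul_comm]
    exact (Rat.mul_den_eq_num c).symm

theorem exists_int_matrix {G : Type} [Group G] {m n : Type} [Fintype m] [Fintype n]
    (A : Matrix m n (MonoidAlgebra ℚ G)) :
    ∃ (N : ℕ) (B : Matrix m n (MonoidAlgebra ℤ G)), 0 < N ∧
      B.map (MonoidAlgebra.mapRingHom G (Int.castRingHom ℚ)) = (N : ℚ) • A := by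
  classical
  choose N b hN hb using fun a : MonoidAlgebra ℚ G => exists_int_multiple a
  let P : m × n → ℕ := fun x => N (A x.1 x.2)
  refine ⟨∏ x, P x, Matrix.of fun i i' => (∏ x ∈ Finset.univ.erase (i, i'), P x) • b (A i i'),
    Finset.prod_pos fun x _ => hN _, ?_⟩
  ext1 i i'
  rw [Matrix.map_apply, Matrix.of_apply, map_nsmul, hb, Matrix.smul_apply,
    ← Nat.cast_smul_eq_nsmul ℚ, smul_smul]
  congr 1
  rw [← Nat.cast_mul, ← Finset.mul_prod_erase Finset.univ P (Finset.mem_univ (i, i')), mul_comm]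

/-! ### comparison at a fixed level -/

theorem op_map {R S : Type*} [Semiring R] [Semiring S] (φ : R →+* S) {Q : Type*} [Group Q]
    {k n : Type*} (A : Matrix k n (MonoidAlgebra R Q)) :
    op (A.map (MonoidAlgebra.mapRingHom Q φ)) = (op A).map φ := by
  ext x y
  simp [op]

theorem op_smul_grp {R : Type*} [Semiring R] {Q : Type*} [Group Q]
    {k n : Type*} (c : R) (A : Matrix k n (MonoidAlgebra R Q)) :
    op (c • A) = c • op A := by
  ext x y
  simp [op]

theorem rank_smul_of_ne_zero {m n : Type*} [Fintype m] [Fintype n] (M : Matrix m n ℂ)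
    (c : ℂ) (hc : c ≠ 0) : (c • M).rank = M.rank := by
  classical
  have h : c • M = M * (Matrix.diagonal (fun _ => c) : Matrix n n ℂ) := by
    ext i j
    rw [Matrix.mul_diagonal, Matrix.smul_apply, smul_eq_mul, mul_comm]
  rw [h, Matrix.rank_mul_eq_left_of_isUnit_det]
  rw [Matrix.det_diagonal]
  exact isUnit_iff_ne_zero.2 (Finset.prod_ne_zero_iff.2 fun _ _ => hc)

/-- the left kernel gives a lower bound for `smallDim` -/
theorem card_le_smallDim_add_rank {m n : Type*} [Fintype m] [Fintype n] (M : Matrix m n ℂ)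
    {ε : ℝ} (hε : 0 ≤ ε) : Fintype.card m ≤ smallDim M ε + M.rank := by
  have h1 := LinearMap.finrank_range_add_finrank_ker (Matrix.vecMulLinear M)
  rw [Module.finrank_fintype_fun_eq_card] at h1
  have h2 : Module.finrank ℂ (LinearMap.ker (Matrix.vecMulLinear M)) ≤ smallDim M ε := by
    apply le_smallDim
    intro x hx
    have : Matrix.vecMul x M = 0 := hx
    rw [this, nrm_zero]
    exact mul_nonneg hε (nrm_nonneg x)
  have h3 : Module.finrank ℂ (LinearMap.range (Matrix.vecMulLinear M)) = M.rank := by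
    have h4 : Matrix.vecMulLinear M = (Mᵀ).mulVecLin := by
      apply LinearMap.ext
      intro x
      rw [Matrix.vecMulLinear_apply, Matrix.mulVecLin_apply, Matrix.mulVec_transpose]
    rw [h4, ← Matrix.rank_transpose M, Matrix.rank]
  omega

theorem smallDim_le_of_int {m n : Type*} [Fintype m] [Fintype n] (B : Matrix m n ℂ)
    (M : Matrix m n ℤ) (N : ℕ) (hN : 0 < N) (hM : M.map (Int.cast : ℤ → ℂ) = (N : ℂ) • B)
    (c : ℝ) (hc : 1 ≤ c)
    (hB : ∀ x : m → ℂ, nrm (Matrix.vecMul x (M.map (Int.cast : ℤ → ℂ))) ≤ c * nrm x)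
    (ε : ℝ) (h0 : 0 < ε) (h1 : N * ε < 1) :
    (smallDim B ε : ℝ) ≤ Fintype.card m - B.rank +
      Fintype.card m * (Real.log c / Real.log (1 / (N * ε))) := by
  obtain ⟨V, hV, hV'⟩ := exists_smallDim B ε
  have hN' : (0 : ℝ) < N := by exact_mod_cast hN
  have := luck_int M c hc hB (N * ε) (by positivity) h1 V (by
    intro x hx
    rw [hM, Matrix.vecMul_smul, nrm_smul]
    simp only [Complex.norm_natCast]
    rw [mul_assoc]
    exact mul_le_mul_of_nonneg_left (hV' x hx) hN'.le)
  rw [hV, hM, rank_smul_of_ne_zero _ _ (by exact_mod_cast hN.ne')] at this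
  exact this

/-! ### Lück approximation -/

theorem rk_rat_eq (𝒯 : Sys) {m n : Type} [Fintype m] [Fintype n]
    (A : Matrix m n (MonoidAlgebra ℚ 𝒯.G)) :
    (essRank 𝒯.Q).rk (A.map ((grpEss 𝒯).comp (MonoidAlgebra.mapRingHom 𝒯.G (algebraMap ℚ ℂ)))) =
      (algRank ℚ 𝒯.Q).rk (A.map (grpAlg ℚ 𝒯)) := by
  classical
  -- the matrices at level `j`
  set AC : Matrix m n (MonoidAlgebra ℂ 𝒯.G) :=
    A.map (MonoidAlgebra.mapRingHom 𝒯.G (algebraMap ℚ ℂ)) with hAC
  let B : ∀ j, Matrix (m × 𝒯.Q j) (n × 𝒯.Q j) ℂ := fun j =>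
    op (AC.map (MonoidAlgebra.mapDomainRingHom ℂ (𝒯.π j)))
  have hE : (essRank 𝒯.Q).rk
      (A.map ((grpEss 𝒯).comp (MonoidAlgebra.mapRingHom 𝒯.G (algebraMap ℚ ℂ)))) =
      essRk B fun j => Fintype.card (𝒯.Q j) := by
    have h1 : A.map ((grpEss 𝒯).comp (MonoidAlgebra.mapRingHom 𝒯.G (algebraMap ℚ ℂ))) =
        (AC.map (grpBdd 𝒯)).map (UEss.mk 𝒯.Q) := by
      rw [hAC, Matrix.map_map, Matrix.map_map]
      rfl
    rw [h1, essRank_map]
    congr 1
    funext j
    have h2 : (AC.map (grpBdd 𝒯)).map Subtype.val = AC.map (grpSeq ℂ 𝒯) := by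
      rw [Matrix.map_map]
      rfl
    rw [h2, flat_grpSeq]
  have hrank : ∀ j, (flat (A.map (grpSeq ℚ 𝒯)) j).rank = (B j).rank := by
    intro j
    rw [flat_grpSeq]
    have h3 : B j = (op (A.map (MonoidAlgebra.mapDomainRingHom ℚ (𝒯.π j)))).map
        (algebraMap ℚ ℂ) := by
      rw [← op_map]
      change op (AC.map (MonoidAlgebra.mapDomainRingHom ℂ (𝒯.π j))) = _
      congr 1
      rw [hAC, Matrix.map_map, Matrix.map_map]
      ext1 i i'
      rw [Matrix.map_apply, Matrix.map_apply]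
      simp only [Function.comp_apply]
      rw [← RingHom.comp_apply, ← RingHom.comp_apply,
        MonoidAlgebra.mapRingHom_comp_mapDomainRingHom]
    rw [h3, rank_map_field]
  have hA : (algRank ℚ 𝒯.Q).rk (A.map (grpAlg ℚ 𝒯)) =
      omLim fun j => ((B j).rank : ℝ) / Fintype.card (𝒯.Q j) := by
    have h1 : A.map (grpAlg ℚ 𝒯) = (A.map (grpSeq ℚ 𝒯)).map (UAlg.mk ℚ 𝒯.Q) := by
      rw [Matrix.map_map]
      rfl
    rw [h1, algRank_map]
    simp only [hrank]
  rw [hE, hA]
  have hcard : ∀ j, (0 : ℝ) < Fintype.card (𝒯.Q j) := fun j => by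
    exact_mod_cast Fintype.card_pos
  -- convergence
  have hlim : Tendsto (fun j => ((B j).rank : ℝ) / Fintype.card (𝒯.Q j)) (om : Filter ℕ)
      (𝓝 (omLim fun j => ((B j).rank : ℝ) / Fintype.card (𝒯.Q j))) := by
    apply tendsto_omLim (a := 0) (b := Fintype.card m)
    intro j
    refine ⟨by positivity, ?_⟩
    rw [div_le_iff₀ (hcard j)]
    have := Matrix.rank_le_card_height (B j)
    rw [Fintype.card_prod] at this
    exact_mod_cast this
  have hklim : ∀ k : ℕ, Tendsto (fun j => ((Fintype.card (m × 𝒯.Q j) : ℝ) -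
      smallDim (B j) (1 / (k + 1))) / Fintype.card (𝒯.Q j)) (om : Filter ℕ)
      (𝓝 (omLim fun j => ((Fintype.card (m × 𝒯.Q j) : ℝ) -
      smallDim (B j) (1 / (k + 1))) / Fintype.card (𝒯.Q j))) := by
    intro k
    apply tendsto_omLim (a := 0) (b := Fintype.card m)
    intro j
    have h1 : (smallDim (B j) (1 / (k + 1)) : ℝ) ≤ Fintype.card (m × 𝒯.Q j) := by
      exact_mod_cast smallDim_le _ _
    refine ⟨div_nonneg (by linarith) (hcard j).le, ?_⟩
    rw [div_le_iff₀ (hcard j)]
    have h2 : (0 : ℝ) ≤ smallDim (B j) (1 / (k + 1)) := by positivity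
    have h3 : (Fintype.card (m × 𝒯.Q j) : ℝ) = Fintype.card m * Fintype.card (𝒯.Q j) := by
      rw [Fintype.card_prod]; push_cast; ring
    linarith
  -- upper bound
  have hup : ∀ k : ℕ, (omLim fun j => ((Fintype.card (m × 𝒯.Q j) : ℝ) -
      smallDim (B j) (1 / (k + 1))) / Fintype.card (𝒯.Q j)) ≤
      omLim fun j => ((B j).rank : ℝ) / Fintype.card (𝒯.Q j) := by
    intro k
    refine le_of_tendsto_of_tendsto' (hklim k) hlim fun j => ?_
    have h1 := card_le_smallDim_add_rank (B j) (ε := 1 / ((k : ℝ) + 1)) (by positivity)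
    have h2 : (Fintype.card (m × 𝒯.Q j) : ℝ) ≤ smallDim (B j) (1 / ((k : ℝ) + 1)) +
      (B j).rank := by exact_mod_cast h1
    exact div_le_div_of_nonneg_right (by linarith) (hcard j).le
  have hbdd : BddAbove (Set.range fun k : ℕ => omLim fun j =>
      ((Fintype.card (m × 𝒯.Q j) : ℝ) - smallDim (B j) (1 / (k + 1))) /
        Fintype.card (𝒯.Q j)) := by
    refine ⟨omLim fun j => ((B j).rank : ℝ) / Fintype.card (𝒯.Q j), ?_⟩
    rintro _ ⟨k, rfl⟩
    exact hup k
  apply le_antisymm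
  · exact ciSup_le hup
  -- lower bound
  obtain ⟨N, AZ, hN, hAZ⟩ := exists_int_matrix A
  obtain ⟨c₀, hc₀, hbound⟩ := exists_bound_op 𝒯 (((N : ℂ) • AC))
  set c : ℝ := max c₀ 1 with hc
  have hop : ∀ j, op (((N : ℂ) • AC).map (MonoidAlgebra.mapDomainRingHom ℂ (𝒯.π j))) =
      (N : ℂ) • B j := by
    intro j
    rw [← op_smul_grp]
    congr 1
    ext1 i i'
    rw [Matrix.map_apply, Matrix.smul_apply, Matrix.smul_apply, Matrix.map_apply]
    exact MonoidAlgebra.mapDomain_smul _ _ _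
  have hM : ∀ j, (op (AZ.map (MonoidAlgebra.mapDomainRingHom ℤ (𝒯.π j)))).map
      (Int.cast : ℤ → ℂ) = (N : ℂ) • B j := by
    intro j
    rw [← hop]
    change (op (AZ.map (MonoidAlgebra.mapDomainRingHom ℤ (𝒯.π j)))).map (Int.castRingHom ℂ) = _
    rw [← op_map]
    congr 1
    have h4 : AZ.map (MonoidAlgebra.mapRingHom 𝒯.G (Int.castRingHom ℂ)) = (N : ℂ) • AC := by
      have h5 : AZ.map (MonoidAlgebra.mapRingHom 𝒯.G (Int.castRingHom ℂ)) =
          (AZ.map (MonoidAlgebra.mapRingHom 𝒯.G (Int.castRingHom ℚ))).map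
            (MonoidAlgebra.mapRingHom 𝒯.G (algebraMap ℚ ℂ)) := by
        rw [Matrix.map_map]
        ext1 i i'
        rw [Matrix.map_apply, Matrix.map_apply]
        simp only [Function.comp_apply]
        rw [← RingHom.comp_apply, ← MonoidAlgebra.mapRingHom_comp]
        congr 2
      rw [h5, hAZ, hAC]
      ext1 i i'
      rw [Matrix.map_apply, Matrix.smul_apply, Matrix.smul_apply, Matrix.map_apply]
      ext g
      simp
    rw [← h4, Matrix.map_map, Matrix.map_map]
    ext1 i i'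
    rw [Matrix.map_apply, Matrix.map_apply]
    simp only [Function.comp_apply]
    rw [← RingHom.comp_apply, ← RingHom.comp_apply,
      MonoidAlgebra.mapRingHom_comp_mapDomainRingHom]
  have hB : ∀ j, ∀ x : m × 𝒯.Q j → ℂ, nrm (Matrix.vecMul x
      ((op (AZ.map (MonoidAlgebra.mapDomainRingHom ℤ (𝒯.π j)))).map (Int.cast : ℤ → ℂ))) ≤
      c * nrm x := by
    intro j x
    rw [hM, ← hop]
    exact (hbound j x).trans (mul_le_mul_of_nonneg_right (le_max_left _ _) (nrm_nonneg x))
  -- key inequality for `k ≥ N`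
  have hlow : ∀ k : ℕ, N ≤ k → (omLim fun j => ((B j).rank : ℝ) / Fintype.card (𝒯.Q j)) ≤
      (⨆ k : ℕ, omLim fun j => ((Fintype.card (m × 𝒯.Q j) : ℝ) -
        smallDim (B j) (1 / (k + 1))) / Fintype.card (𝒯.Q j)) +
      Fintype.card m * (Real.log c / Real.log (1 / (N * (1 / ((k : ℝ) + 1))))) := by
    intro k hk
    refine le_trans ?_ (add_le_add_left (le_ciSup hbdd k) _)
    refine le_of_tendsto_of_tendsto' hlim ((hklim k).add_const _) fun j => ?_
    have hN' : (0 : ℝ) < N := by exact_mod_cast hN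
    have hk' : (N : ℝ) ≤ k := by exact_mod_cast hk
    have h1 := smallDim_le_of_int (B j) _ N hN (hM j) c (le_max_right _ _) (hB j)
      (1 / ((k : ℝ) + 1)) (by positivity) (by
        rw [mul_one_div, div_lt_one (by positivity)]
        linarith)
    have h3 : (Fintype.card (m × 𝒯.Q j) : ℝ) = Fintype.card m * Fintype.card (𝒯.Q j) := by
      rw [Fintype.card_prod]; push_cast; ring
    rw [div_add' _ _ _ (hcard j).ne']
    refine div_le_div_of_nonneg_right ?_ (hcard j).le
    rw [h3] at h1 ⊢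
    nlinarith
  have hlimk : Tendsto (fun k : ℕ => (⨆ k : ℕ, omLim fun j => ((Fintype.card (m × 𝒯.Q j) : ℝ) -
        smallDim (B j) (1 / (k + 1))) / Fintype.card (𝒯.Q j)) +
      Fintype.card m * (Real.log c / Real.log (1 / (N * (1 / ((k : ℝ) + 1)))))) atTop
      (𝓝 ((⨆ k : ℕ, omLim fun j => ((Fintype.card (m × 𝒯.Q j) : ℝ) -
        smallDim (B j) (1 / (k + 1))) / Fintype.card (𝒯.Q j)) + Fintype.card m * 0)) := by
    apply Tendsto.const_add
    apply Tendsto.const_mul
    apply Tendsto.const_div_atTop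
    apply Real.tendsto_log_atTop.comp
    have h1 : ∀ k : ℕ, 1 / (N * (1 / ((k : ℝ) + 1))) = (k + 1) / N := by
      intro k
      have hN' : (0 : ℝ) < N := by exact_mod_cast hN
      field_simp
    simp only [h1]
    apply Tendsto.atTop_div_const (by exact_mod_cast hN)
    exact tendsto_atTop_add_const_right _ _ tendsto_natCast_atTop_atTop
  rw [mul_zero, add_zero] at hlimk
  exact ge_of_tendsto hlimk (eventually_atTop.2 ⟨N, hlow⟩)

end Pool.Agent.H4.Atiyah
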