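import Pool.Agent.H4.Atiyah.Ranks
import Pool.Agent.H4.Atiyah.RankLib
import Pool.Agent.H4.Atiyah.LuckGrp
import Pool.Agent.H4.Atiyah.LamUnits
import Pool.Agent.H4.Atiyah.LamFacts

/-!
# M26a : integrality of ranks over `ℚ[U]`  (helper90)

Verified against Spec/Batch4 (with the last theorem called `rat_rank_nat'`).  Black boxes used:
`lam_isDomain`, `lam_isNoetherianRing` (assumed to be in a module LamFacts; adapt the import),
`rk_rat_eq` (M13 LuckGrp), `isUnit_lamAlg` (M20 LamUnits), `rk_eq_finrank`, `MatRank.rk_unit_mul`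
(M09 RankLib), `algRank`, `algRank_map`, `essRank` (Ranks).
-/

set_option autoImplicit false

open Filter Topology
open scoped Matrix

namespace Pool.Agent.H4.Atiyah.RatRankAux

theorem clear {G : Type} [Group G] (f : MonoidAlgebra ℚ G) :
    ∃ (N : ℕ) (B : MonoidAlgebra ℤ G), N ≠ 0 ∧
      MonoidAlgebra.mapRingHom G (Int.castRingHom ℚ) B = (N : MonoidAlgebra ℚ G) * f := by
  induction f using MonoidAlgebra.induction_linear with
  | zero => exact ⟨1, 0, one_ne_zero, by simp⟩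
  | add f g hf hg =>
    obtain ⟨N, B, hN, hB⟩ := hf
    obtain ⟨N', B', hN', hB'⟩ := hg
    refine ⟨N * N', (N' : MonoidAlgebra ℤ G) * B + (N : MonoidAlgebra ℤ G) * B',
      Nat.mul_ne_zero hN hN', ?_⟩
    rw [map_add, map_mul, map_mul, hB, hB', map_natCast, map_natCast]
    push_cast
    rw [mul_add, mul_assoc, mul_assoc, ← mul_assoc (N' : MonoidAlgebra ℚ G),
      ← (Nat.cast_commute N (N' : MonoidAlgebra ℚ G)).eq, mul_assoc]
  | single g q =>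
    refine ⟨q.den, MonoidAlgebra.single g q.num, q.den_ne_zero, ?_⟩
    have h1 : (q.den : MonoidAlgebra ℚ G) = MonoidAlgebra.single 1 (q.den : ℚ) := by
      rw [MonoidAlgebra.natCast_def]
    rw [h1, MonoidAlgebra.single_mul_single, one_mul, Rat.den_mul_eq_num]
    simp

theorem clearM {G : Type} [Group G] {m n : Type} [Fintype m] [Fintype n]
    (A : Matrix m n (MonoidAlgebra ℚ G)) :
    ∃ (N : ℕ) (B : Matrix m n (MonoidAlgebra ℤ G)), N ≠ 0 ∧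
      ∀ i j, MonoidAlgebra.mapRingHom G (Int.castRingHom ℚ) (B i j) =
        (N : MonoidAlgebra ℚ G) * A i j := by
  classical
  choose N B hN hB using fun (ij : m × n) => clear (A ij.1 ij.2)
  refine ⟨∏ ij, N ij, Matrix.of fun i j =>
    ((∏ ij ∈ Finset.univ.erase (i, j), N ij : ℕ) : MonoidAlgebra ℤ G) * B (i, j),
    Finset.prod_ne_zero_iff.2 fun ij _ => hN ij, fun i j => ?_⟩
  rw [Matrix.of_apply, map_mul, map_natCast, hB (i, j), ← mul_assoc, ← Nat.cast_mul,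
    Finset.prod_erase_mul _ _ (Finset.mem_univ (i, j))]

end Pool.Agent.H4.Atiyah.RatRankAux

namespace Pool.Agent.H4.Atiyah

section M26a

variable (p : ℕ) [Fact p.Prime] (𝒯 : Sys) {d : ℕ} (x : Fin d → 𝒯.G)

/-- M26a -/
theorem rat_rank_nat (h : IsTower p 𝒯 d x) {s : ℕ}
    (A : Matrix (Fin s) (Fin s) (MonoidAlgebra ℚ 𝒯.G)) :
    ∃ n : ℕ, (algRank ℚ 𝒯.Q).rk (A.map (grpAlg ℚ 𝒯)) = n ∧
      (essRank 𝒯.Q).rk (A.map ((grpEss 𝒯).comp
        (MonoidAlgebra.mapRingHom 𝒯.G (algebraMap ℚ ℂ)))) = n := by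
  have hdom : IsDomain (Lam ℤ_[p] 𝒯) := lam_isDomain p 𝒯 x h
  have hnoeth : IsNoetherianRing (Lam ℤ_[p] 𝒯) := lam_isNoetherianRing p 𝒯 x h
  have hsrc : StrongRankCondition (Lam ℤ_[p] 𝒯) := inferInstance
  obtain ⟨N, B, hN, hB⟩ := RatRankAux.clearM A
  set φ : ℤ_[p] →+* ℚ_[p] := PadicInt.Coe.ringHom with hφ
  have hφi : Function.Injective φ := fun a b hab => Subtype.ext hab
  set A₀ : Matrix (Fin s) (Fin s) (MonoidAlgebra ℤ_[p] 𝒯.G) :=
    B.map (MonoidAlgebra.mapRingHom 𝒯.G (Int.castRingHom ℤ_[p])) with hA₀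
  have h1 : (algRank ℚ 𝒯.Q).rk (A.map (grpAlg ℚ 𝒯)) =
      (algRank ℚ 𝒯.Q).rk ((B.map (MonoidAlgebra.mapRingHom 𝒯.G (Int.castRingHom ℚ))).map
        (grpAlg ℚ 𝒯)) := by
    have hunit : IsUnit (Matrix.scalar (Fin s) (N : UAlg ℚ 𝒯.Q)) := by
      apply IsUnit.map
      have h2 : IsUnit (algebraMap ℚ (UAlg ℚ 𝒯.Q) (N : ℚ)) := by
        apply IsUnit.map
        exact isUnit_iff_ne_zero.2 (by exact_mod_cast hN)
      rwa [map_natCast] at h2
    rw [← MatRank.rk_unit_mul (algRank ℚ 𝒯.Q) hunit]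
    congr 1
    ext i j
    have h5 : (Matrix.scalar (Fin s) (N : UAlg ℚ 𝒯.Q) * A.map (grpAlg ℚ 𝒯)) i j =
        (N : UAlg ℚ 𝒯.Q) * (A.map (grpAlg ℚ 𝒯)) i j := Matrix.diagonal_mul _ _ i j
    refine Eq.trans h5 (Eq.symm ?_)
    rw [Matrix.map_apply, Matrix.map_apply, Matrix.map_apply, hB i j, map_mul, map_natCast]
  have h3 : (algRank ℚ 𝒯.Q).rk ((B.map (MonoidAlgebra.mapRingHom 𝒯.G (Int.castRingHom ℚ))).map
        (grpAlg ℚ 𝒯)) = (algRank ℚ_[p] 𝒯.Q).rk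
          ((A₀.map (toLam ℤ_[p] 𝒯)).map (lamAlg φ 𝒯)) := by
    have e1 : (B.map (MonoidAlgebra.mapRingHom 𝒯.G (Int.castRingHom ℚ))).map (grpAlg ℚ 𝒯) =
        ((B.map (MonoidAlgebra.mapRingHom 𝒯.G (Int.castRingHom ℚ))).map (grpSeq ℚ 𝒯)).map
          (UAlg.mk ℚ 𝒯.Q) := rfl
    have e2 : (A₀.map (toLam ℤ_[p] 𝒯)).map (lamAlg φ 𝒯) =
        ((A₀.map (MonoidAlgebra.mapRingHom 𝒯.G φ)).map (grpSeq ℚ_[p] 𝒯)).map
          (UAlg.mk ℚ_[p] 𝒯.Q) := by
      ext i j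
      rw [Matrix.map_apply, Matrix.map_apply, lamAlg_toLam]
      rfl
    rw [e1, e2, algRank_map, algRank_map]
    congr 1
    funext j
    congr 2
    have e3 : flat ((A₀.map (MonoidAlgebra.mapRingHom 𝒯.G φ)).map (grpSeq ℚ_[p] 𝒯)) j =
        (flat ((B.map (MonoidAlgebra.mapRingHom 𝒯.G (Int.castRingHom ℚ))).map
          (grpSeq ℚ 𝒯)) j).map (Rat.castHom ℚ_[p]) := by
      ext a b
      have e4 : MonoidAlgebra.mapRingHom 𝒯.G φ
          (MonoidAlgebra.mapRingHom 𝒯.G (Int.castRingHom ℤ_[p]) (B a.1 b.1)) =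
          MonoidAlgebra.mapRingHom 𝒯.G (Rat.castHom ℚ_[p])
            (MonoidAlgebra.mapRingHom 𝒯.G (Int.castRingHom ℚ) (B a.1 b.1)) := by
        rw [← RingHom.comp_apply, ← RingHom.comp_apply, ← MonoidAlgebra.mapRingHom_comp,
          ← MonoidAlgebra.mapRingHom_comp]
        congr 2
      simp only [flat, Matrix.of_apply, Matrix.map_apply, hA₀]
      rw [e4, ← seqMap_grpSeq, seqMap_apply, Matrix.map_apply]
    rw [e3, rank_map_field]
  have h4 := rk_eq_finrank (algRank ℚ_[p] 𝒯.Q) (lamAlg φ 𝒯)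
    (fun a ha => isUnit_lamAlg p 𝒯 x h φ hφi a ha) (A₀.map (toLam ℤ_[p] 𝒯))
  refine ⟨Module.finrank (Lam ℤ_[p] 𝒯) (LinearMap.range
    (Matrix.vecMulLinear (A₀.map (toLam ℤ_[p] 𝒯)))), ?_, ?_⟩
  · rw [h1, h3, h4]
  · rw [rk_rat_eq, h1, h3, h4]

end M26a

end Pool.Agent.H4.Atiyah
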