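import Pool.Agent.H4.Atiyah.RatClosure

set_option autoImplicit false

namespace Pool.Agent.H4.Atiyah

/-- Left Ore condition from the strong rank condition. -/
private lemma frac_ore {Λ : Type} [Ring Λ] [IsDomain Λ] [StrongRankCondition Λ] (a b : Λ)
    (hb : b ≠ 0) : ∃ u v : Λ, u ≠ 0 ∧ u * a = v * b := by
  by_contra hno
  push Not at hno
  have hli : LinearIndependent Λ (fun i : Fin 2 => if i = 0 then a else b) := by
    rw [Fintype.linearIndependent_iff]
    intro g hg
    rw [Fin.sum_univ_two] at hg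
    simp only [if_true, smul_eq_mul, Fin.isValue, one_ne_zero, if_false] at hg
    have h0 : g 0 = 0 := by
      by_contra h
      exact hno (g 0) (-(g 1)) h (by rw [neg_mul]; exact eq_neg_of_add_eq_zero_left hg)
    rw [h0, zero_mul, zero_add] at hg
    intro i
    fin_cases i
    · exact h0
    · exact (mul_eq_zero.1 hg).resolve_right hb
  have h2 := LinearIndependent.fintype_card_le_finrank hli
  rw [Fintype.card_fin, Module.finrank_self] at h2
  omega

/-- If the image of `T` is invertible, the row space of `T` contains nonzero multiples of all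
basis vectors. -/
private lemma frac_rows {Λ P : Type} [Ring Λ] [IsDomain Λ] [StrongRankCondition Λ] [Ring P]
    (ρ : MatRank P) (φ : Λ →+* P) (hφ : ∀ a : Λ, a ≠ 0 → IsUnit (φ a)) {s : ℕ}
    (T : Matrix (Fin s) (Fin s) Λ) (Y : Matrix (Fin s) (Fin s) P) (h1 : T.map φ * Y = 1)
    (h2 : Y * T.map φ = 1) (l : Fin s) :
    ∃ (t : Λ) (C : Fin s → Λ), t ≠ 0 ∧ Matrix.vecMul C T = Pi.single l t := by
  have hu : IsUnit (T.map φ) := ⟨⟨T.map φ, Y, h1, h2⟩, rfl⟩
  have hrk := ρ.rk_of_isUnit hu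
  rw [rk_eq_finrank ρ φ hφ T, Fintype.card_fin] at hrk
  have hfin : Module.finrank Λ (LinearMap.range (Matrix.vecMulLinear T)) = s := by
    exact_mod_cast hrk
  obtain ⟨f, hf⟩ := exists_linearIndependent_of_le_finrank hfin.ge
  have hf' : LinearIndependent Λ (fun i => (f i : Fin s → Λ)) :=
    hf.map' (LinearMap.range (Matrix.vecMulLinear T)).subtype (Submodule.ker_subtype _)
  -- the family `f, e_l` is linearly dependent
  have hdep : ¬ LinearIndependent Λ (Fin.cons (Pi.single l (1 : Λ))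
      (fun i => (f i : Fin s → Λ)) : Fin (s + 1) → (Fin s → Λ)) := by
    intro h
    have h3 := LinearIndependent.fintype_card_le_finrank h
    rw [Fintype.card_fin, Module.finrank_fin_fun] at h3
    omega
  rw [Fintype.not_linearIndependent_iff] at hdep
  obtain ⟨g, hg, i, hi⟩ := hdep
  rw [Fin.sum_univ_succ] at hg
  simp only [Fin.cons_zero, Fin.cons_succ] at hg
  have hg0 : g 0 ≠ 0 := by
    intro h0
    rw [h0, zero_smul, zero_add] at hg
    have h4 := Fintype.linearIndependent_iff.1 hf' (fun i => g i.succ) hg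
    refine Fin.cases (motive := fun i => g i ≠ 0 → False) (fun h => h h0)
      (fun j h => h (h4 j)) i hi
  have hmem : Pi.single l (g 0) ∈ LinearMap.range (Matrix.vecMulLinear T) := by
    have h5 : (Pi.single l (g 0) : Fin s → Λ) = -∑ i : Fin s, g i.succ • (f i : Fin s → Λ) := by
      rw [← eq_neg_of_add_eq_zero_left hg]
      rw [← Pi.single_smul, smul_eq_mul, mul_one]
    rw [h5]
    exact neg_mem (Submodule.sum_mem _ fun i _ => Submodule.smul_mem _ _ (f i).2)
  obtain ⟨C, hC⟩ := hmem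
  exact ⟨g 0, C, hg0, by simpa using hC⟩

theorem exists_fraction {Λ P : Type} [Ring Λ] [IsDomain Λ] [StrongRankCondition Λ] [Ring P]
    (ρ : MatRank P) (φ : Λ →+* P) (hφ : ∀ a : Λ, a ≠ 0 → IsUnit (φ a))
    {x : P} (hx : IsRational φ x) : ∃ t c : Λ, t ≠ 0 ∧ φ t * x = φ c := by
  obtain ⟨s, T, r, c, Y, h1, h2, rfl⟩ := hx
  -- fractions are closed under the needed operations
  have hadd : ∀ y z : P, (∃ t c : Λ, t ≠ 0 ∧ φ t * y = φ c) → (∃ t c : Λ, t ≠ 0 ∧ φ t * z = φ c) →
      ∃ t c : Λ, t ≠ 0 ∧ φ t * (y + z) = φ c := by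
    rintro y z ⟨t, c, ht, hc⟩ ⟨t', c', ht', hc'⟩
    obtain ⟨w, w', hw, hww⟩ := frac_ore t t' ht'
    refine ⟨w * t, w * c + w' * c', mul_ne_zero hw ht, ?_⟩
    rw [mul_add, map_add, map_mul φ w t, mul_assoc, hc, ← map_mul φ w t, hww, map_mul φ w' t',
      mul_assoc, hc', map_mul, map_mul]
  have hmul : ∀ (a : Λ) (y : P), (∃ t c : Λ, t ≠ 0 ∧ φ t * y = φ c) →
      ∃ t c : Λ, t ≠ 0 ∧ φ t * (φ a * y) = φ c := by
    rintro a y ⟨t, c, ht, hc⟩
    obtain ⟨u, v, hu, huv⟩ := frac_ore a t ht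
    exact ⟨u, v * c, hu, by rw [← mul_assoc, ← map_mul, huv, map_mul, mul_assoc, hc, map_mul]⟩
  have hsum : ∀ (S : Finset (Fin s)) (y : Fin s → P),
      (∀ l, ∃ t c : Λ, t ≠ 0 ∧ φ t * y l = φ c) →
      ∃ t c : Λ, t ≠ 0 ∧ φ t * (∑ l ∈ S, y l) = φ c := by
    classical
    intro S y hy
    induction S using Finset.induction_on with
    | empty => exact ⟨1, 0, one_ne_zero, by simp⟩
    | insert l S hl ih =>
      rw [Finset.sum_insert hl]
      exact hadd _ _ (hy l) ih
  unfold dotProduct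
  refine hsum Finset.univ _ fun l => hmul (r l) _ ?_
  obtain ⟨t, C, ht, hC⟩ := frac_rows ρ φ hφ T Y h1 h2 l
  refine ⟨t, C ⬝ᵥ c, ht, ?_⟩
  -- `φ t * Y_l = φ C`
  have h3 : Matrix.vecMul (fun i => φ (C i)) (T.map φ) = Pi.single l (φ t) := by
    funext j
    have h4 := congrFun hC j
    have h5 : Matrix.vecMul (fun i => φ (C i)) (T.map φ) j = φ (Matrix.vecMul C T j) := by
      simp [Matrix.vecMul, dotProduct, map_sum]
    rw [h5, h4]
    by_cases hj : j = l
    · subst hj; simp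
    · simp [hj]
  have h6 : (fun i => φ (C i)) = Matrix.vecMul (Pi.single l (φ t)) Y := by
    rw [← h3, Matrix.vecMul_vecMul, h1, Matrix.vecMul_one]
  have h7 : φ (C ⬝ᵥ c) = (fun i => φ (C i)) ⬝ᵥ fun i => φ (c i) := by
    simp [dotProduct, map_sum]
  rw [h7, h6, ← Matrix.dotProduct_mulVec, single_dotProduct]

end Pool.Agent.H4.Atiyah
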