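import Pool.Agent.H4.Atiyah.Maps

/-!
# Proportional elements of the completed group ring
-/

set_option autoImplicit false

namespace Pool.Agent.H4.Atiyah

theorem coeff_inr_mul_inl {C : Type} [CommRing C] {Q : Type} [Group Q] (a b : MonoidAlgebra C Q)
    (u v : Q) :
    (MonoidAlgebra.mapDomainRingHom C (MonoidHom.inr Q Q) a *
      MonoidAlgebra.mapDomainRingHom C (MonoidHom.inl Q Q) b).coeff (u, v) =
      a.coeff v * b.coeff u := by
  classical
  induction a using MonoidAlgebra.induction_linear with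
  | zero => simp
  | add f g hf hg => rw [map_add, add_mul, MonoidAlgebra.coeff_add, Finsupp.add_apply, hf, hg,
      MonoidAlgebra.coeff_add, Finsupp.add_apply, add_mul]
  | single q c =>
    induction b using MonoidAlgebra.induction_linear with
    | zero => simp
    | add f g hf hg => rw [map_add, mul_add, MonoidAlgebra.coeff_add, Finsupp.add_apply, hf, hg,
        MonoidAlgebra.coeff_add, Finsupp.add_apply, mul_add]
    | single r e =>
      simp only [MonoidAlgebra.mapDomainRingHom_apply, MonoidAlgebra.mapDomain_single,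
        MonoidHom.inr_apply, MonoidHom.inl_apply, MonoidAlgebra.single_mul_single, Prod.mk_mul_mk,
        one_mul, mul_one, MonoidAlgebra.coeff_single, Finsupp.single_apply, Prod.mk.injEq]
      by_cases h1 : q = v <;> by_cases h2 : r = u <;> simp [h1, h2]

theorem coeff_inl_mul_inr {C : Type} [CommRing C] {Q : Type} [Group Q] (a b : MonoidAlgebra C Q)
    (u v : Q) :
    (MonoidAlgebra.mapDomainRingHom C (MonoidHom.inl Q Q) a *
      MonoidAlgebra.mapDomainRingHom C (MonoidHom.inr Q Q) b).coeff (u, v) =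
      a.coeff u * b.coeff v := by
  classical
  induction a using MonoidAlgebra.induction_linear with
  | zero => simp
  | add f g hf hg => rw [map_add, add_mul, MonoidAlgebra.coeff_add, Finsupp.add_apply, hf, hg,
      MonoidAlgebra.coeff_add, Finsupp.add_apply, add_mul]
  | single q c =>
    induction b using MonoidAlgebra.induction_linear with
    | zero => simp
    | add f g hf hg => rw [map_add, mul_add, MonoidAlgebra.coeff_add, Finsupp.add_apply, hf, hg,
        MonoidAlgebra.coeff_add, Finsupp.add_apply, mul_add]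
    | single r e =>
      simp only [MonoidAlgebra.mapDomainRingHom_apply, MonoidAlgebra.mapDomain_single,
        MonoidHom.inr_apply, MonoidHom.inl_apply, MonoidAlgebra.single_mul_single, Prod.mk_mul_mk,
        one_mul, mul_one, MonoidAlgebra.coeff_single, Finsupp.single_apply, Prod.mk.injEq]
      by_cases h1 : q = u <;> by_cases h2 : r = v <;> simp [h1, h2]

theorem lam_copies (p : ℕ) [Fact p.Prime] (𝒯 : Sys) (t c : Lam ℤ_[p] 𝒯) (ht : t ≠ 0)
    (h : lam2 ℤ_[p] 𝒯 t * lam1 ℤ_[p] 𝒯 c = lam1 ℤ_[p] 𝒯 t * lam2 ℤ_[p] 𝒯 c) :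
    ∃ α β : ℤ_[p], β ≠ 0 ∧ ∀ j, β • c.1 j = α • t.1 j := by
  -- coefficientwise identity
  have hco : ∀ j (u v : 𝒯.Q j), (t.1 j).coeff v * (c.1 j).coeff u =
      (t.1 j).coeff u * (c.1 j).coeff v := by
    intro j u v
    have h1 : (lam2 ℤ_[p] 𝒯 t * lam1 ℤ_[p] 𝒯 c).1 j = (lam1 ℤ_[p] 𝒯 t * lam2 ℤ_[p] 𝒯 c).1 j := by
      rw [h]
    have h2 : (lam2 ℤ_[p] 𝒯 t).1 j * (lam1 ℤ_[p] 𝒯 c).1 j =
      (lam1 ℤ_[p] 𝒯 t).1 j * (lam2 ℤ_[p] 𝒯 c).1 j := h1
    rw [lam2_apply, lam1_apply, lam1_apply, lam2_apply] at h2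
    have h3 := congrArg (fun z => z.coeff (u, v)) h2
    simp only at h3
    rw [coeff_inr_mul_inl, coeff_inl_mul_inr] at h3
    exact h3
  have hvec : ∀ j (u : 𝒯.Q j), (c.1 j).coeff u • t.1 j = (t.1 j).coeff u • c.1 j := by
    intro j u
    apply MonoidAlgebra.coeff_injective
    ext v
    rw [MonoidAlgebra.coeff_smul_apply, MonoidAlgebra.coeff_smul_apply, smul_eq_mul, smul_eq_mul,
      mul_comm]
    exact hco j u v
  -- a nonzero coefficient
  obtain ⟨j₀, hj₀⟩ : ∃ j₀, t.1 j₀ ≠ 0 := by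
    by_contra hcon
    push Not at hcon
    exact ht (Subtype.ext (funext hcon))
  obtain ⟨y, hy⟩ : ∃ y, (t.1 j₀).coeff y ≠ 0 := by
    by_contra hcon
    push Not at hcon
    exact hj₀ (MonoidAlgebra.coeff_injective (Finsupp.ext hcon))
  refine ⟨(c.1 j₀).coeff y, (t.1 j₀).coeff y, hy, ?_⟩
  set α := (c.1 j₀).coeff y with hα
  set β := (t.1 j₀).coeff y with hβ
  have hL : ∀ j, j₀ ≤ j → ∃ L : MonoidAlgebra ℤ_[p] (𝒯.Q j) →+ ℤ_[p],
      (∀ (r : ℤ_[p]) a, L (r • a) = r * L a) ∧ L (t.1 j) = β ∧ L (c.1 j) = α := by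
    intro j hj
    induction j, hj using Nat.le_induction with
    | base =>
      refine ⟨{ toFun := fun a => a.coeff y, map_zero' := by simp, map_add' := by simp }, ?_, rfl,
        rfl⟩
      intro r a
      simp
    | succ j hj ih =>
      obtain ⟨L, hL1, hL2, hL3⟩ := ih
      refine ⟨L.comp (MonoidAlgebra.mapDomainRingHom ℤ_[p] (𝒯.tr j)).toAddMonoidHom, ?_, ?_, ?_⟩
      · intro r a
        change L (MonoidAlgebra.mapDomainRingHom ℤ_[p] (𝒯.tr j) (r • a)) =
          r * L (MonoidAlgebra.mapDomainRingHom ℤ_[p] (𝒯.tr j) a)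
        rw [← hL1]
        congr 1
        simp only [MonoidAlgebra.mapDomainRingHom_apply, MonoidAlgebra.mapDomain_smul]
      · change L (MonoidAlgebra.mapDomainRingHom ℤ_[p] (𝒯.tr j) (t.1 (j + 1))) = β
        rw [t.2 j, hL2]
      · change L (MonoidAlgebra.mapDomainRingHom ℤ_[p] (𝒯.tr j) (c.1 (j + 1))) = α
        rw [c.2 j, hL3]
  have hge : ∀ j, j₀ ≤ j → β • c.1 j = α • t.1 j := by
    intro j hj
    obtain ⟨L, hL1, hL2, hL3⟩ := hL j hj
    apply MonoidAlgebra.coeff_injective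
    ext u
    rw [MonoidAlgebra.coeff_smul_apply, MonoidAlgebra.coeff_smul_apply, smul_eq_mul, smul_eq_mul]
    have := congrArg L (hvec j u)
    rw [hL1, hL1, hL2, hL3] at this
    rw [mul_comm β, this, mul_comm]
  have hdown : ∀ j, β • c.1 (j + 1) = α • t.1 (j + 1) → β • c.1 j = α • t.1 j := by
    intro j hj
    have := congrArg (MonoidAlgebra.mapDomainRingHom ℤ_[p] (𝒯.tr j)) hj
    have e : ∀ (r : ℤ_[p]) (a : MonoidAlgebra ℤ_[p] (𝒯.Q (j + 1))),
        MonoidAlgebra.mapDomainRingHom ℤ_[p] (𝒯.tr j) (r • a) =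
        r • MonoidAlgebra.mapDomainRingHom ℤ_[p] (𝒯.tr j) a := by
      intro r a
      simp only [MonoidAlgebra.mapDomainRingHom_apply, MonoidAlgebra.mapDomain_smul]
    rw [e, e, c.2 j, t.2 j] at this
    exact this
  have hk : ∀ k j, β • c.1 (j + k) = α • t.1 (j + k) → β • c.1 j = α • t.1 j := by
    intro k
    induction k with
    | zero => intro j hj; exact hj
    | succ k ih => intro j hj; exact ih j (hdown (j + k) hj)
  intro j
  exact hk j₀ j (hge (j + j₀) (by omega))

end Pool.Agent.H4.Atiyah
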