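import Pool.Agent.H4.Atiyah.Defs

/-!
# Squares of towers
-/

set_option autoImplicit false

namespace Pool.Agent.H4.Atiyah

theorem prod_ofFn_append_prod {G : Type} [Group G] {d e : ℕ} (f : Fin d → G) (g : Fin e → G) :
    (List.ofFn (Fin.append (fun l => ((f l, 1) : G × G)) (fun l => ((1, g l) : G × G)))).prod =
      ((List.ofFn f).prod, (List.ofFn g).prod) := by
  rw [List.ofFn_fin_append, List.prod_append]
  have h1 : (List.ofFn (fun l => ((f l, 1) : G × G))).prod = ((List.ofFn f).prod, 1) := by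
    have := map_list_prod (MonoidHom.inl G G) (List.ofFn f)
    rw [List.map_ofFn] at this
    rw [← MonoidHom.inl_apply, this]
    rfl
  have h2 : (List.ofFn (fun l => ((1, g l) : G × G))).prod = (1, (List.ofFn g).prod) := by
    have := map_list_prod (MonoidHom.inr G G) (List.ofFn g)
    rw [List.map_ofFn] at this
    rw [← MonoidHom.inr_apply, this]
    rfl
  rw [h1, h2]
  simp

theorem IsTower.sq {p : ℕ} {𝒯 : Sys} {d : ℕ} {x : Fin d → 𝒯.G} (h : IsTower p 𝒯 d x) :
    ∃ x' : Fin (d + d) → 𝒯.sq.G, IsTower p 𝒯.sq (d + d) x' := by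
  refine ⟨Fin.append (fun l => ((x l, 1) : 𝒯.G × 𝒯.G)) (fun l => ((1, x l) : 𝒯.G × 𝒯.G)), ?_, ?_,
    ?_, ?_⟩
  · intro j
    have := h.card j
    change Fintype.card (𝒯.Q j × 𝒯.Q j) = _
    rw [Fintype.card_prod, this, ← pow_add, mul_add]
  · intro j l
    have hp := h.pow j
    refine Fin.addCases (fun i => ?_) (fun i => ?_) l
    · rw [Fin.append_left]
      change (𝒯.π j ((x i, (1 : 𝒯.G)) ^ p ^ j).1, 𝒯.π j ((x i, (1 : 𝒯.G)) ^ p ^ j).2) = 1
      rw [Prod.pow_fst, Prod.pow_snd]
      simp only [hp i, one_pow, map_one]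
      rfl
    · rw [Fin.append_right]
      change (𝒯.π j (((1 : 𝒯.G), x i) ^ p ^ j).1, 𝒯.π j (((1 : 𝒯.G), x i) ^ p ^ j).2) = 1
      rw [Prod.pow_fst, Prod.pow_snd]
      simp only [hp i, one_pow, map_one]
      rfl
  · rintro j ⟨q, r⟩
    obtain ⟨a, ha, haq⟩ := h.gen j q
    obtain ⟨b, hb, hbr⟩ := h.gen j r
    refine ⟨Fin.append a b, fun l => ?_, ?_⟩
    · refine Fin.addCases (fun i => ?_) (fun i => ?_) l
      · rw [Fin.append_left]; exact ha i
      · rw [Fin.append_right]; exact hb i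
    · have e : (fun l => (Fin.append (fun l => ((x l, 1) : 𝒯.G × 𝒯.G))
          (fun l => ((1, x l) : 𝒯.G × 𝒯.G)) l) ^ (Fin.append a b l)) =
          Fin.append (fun l => ((x l ^ a l, 1) : 𝒯.G × 𝒯.G))
          (fun l => ((1, x l ^ b l) : 𝒯.G × 𝒯.G)) := by
        funext l
        refine Fin.addCases (fun i => ?_) (fun i => ?_) l
        · rw [Fin.append_left, Fin.append_left, Fin.append_left, Prod.pow_mk, one_pow]
        · rw [Fin.append_right, Fin.append_right, Fin.append_right, Prod.pow_mk, one_pow]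
      have e2 := prod_ofFn_append_prod (fun l => x l ^ a l) (fun l => x l ^ b l)
      rw [← e] at e2
      change ((𝒯.π j).prodMap (𝒯.π j)) _ = _
      have e3 : (List.ofFn fun l => (Fin.append (fun l => ((x l, 1) : 𝒯.G × 𝒯.G))
          (fun l => ((1, x l) : 𝒯.G × 𝒯.G)) l : 𝒯.G × 𝒯.G) ^ (Fin.append a b l)).prod =
          ((List.ofFn fun l => x l ^ a l).prod, (List.ofFn fun l => x l ^ b l).prod) := e2
      refine (congrArg _ e3).trans ?_
      rw [MonoidHom.prodMap_def, MonoidHom.prod_apply]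
      simp only [MonoidHom.comp_apply, MonoidHom.coe_fst, MonoidHom.coe_snd]
      rw [haq, hbr]
  · intro l l'
    have hc := h.comm
    change ((𝒯.π 2).prodMap (𝒯.π 2)) _ = _
    refine Fin.addCases (fun i => ?_) (fun i => ?_) l <;>
    refine Fin.addCases (fun i' => ?_) (fun i' => ?_) l'
    · rw [Fin.append_left, Fin.append_left]
      exact Prod.ext (hc i i') (by simp)
    · rw [Fin.append_left, Fin.append_right]
      exact Prod.ext (by simp) (by simp)
    · rw [Fin.append_right, Fin.append_left]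
      exact Prod.ext (by simp) (by simp)
    · rw [Fin.append_right, Fin.append_right]
      exact Prod.ext (by simp) (hc i i')

end Pool.Agent.H4.Atiyah
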