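import Pool.Agent.H4.Atiyah.AlgRank
import Pool.Agent.H4.Atiyah.LamUnits
import Pool.Agent.H4.Atiyah.LamFacts
import Pool.Agent.H4.Atiyah.LamCopies
import Pool.Agent.H4.Atiyah.TowerSq
import Pool.Agent.H4.Atiyah.Fraction

/-!
# M26b : rational elements with equal copies are scalars
-/

set_option autoImplicit false

open Filter Topology
open scoped Kronecker Matrix

namespace Pool.Agent.H4.Atiyah

section ScalarCopies

/-- clearing denominators in a finite family of elements of `ℚ_p[G]` -/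
theorem exists_clear (p : ℕ) [Fact p.Prime] {G : Type} {κ : Type} [Finite κ]
    (f : κ → MonoidAlgebra ℚ_[p] G) [Group G] :
    ∃ D : ℤ_[p], D ≠ 0 ∧ ∀ k, ∃ b : MonoidAlgebra ℤ_[p] G,
      MonoidAlgebra.mapRingHom G (algebraMap ℤ_[p] ℚ_[p]) b = algebraMap ℤ_[p] ℚ_[p] D • f k := by
  classical
  have := Fintype.ofFinite κ
  obtain ⟨D, hD⟩ := IsLocalization.exist_integer_multiples_of_finset (nonZeroDivisors ℤ_[p])
    (Finset.univ.biUnion fun k => (f k).coeff.support.image fun q => (f k).coeff q)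
  refine ⟨D, nonZeroDivisors.ne_zero D.2, fun k => ?_⟩
  have h : ∀ q ∈ (f k).coeff.support, ∃ r : ℤ_[p], algebraMap ℤ_[p] ℚ_[p] r =
      algebraMap ℤ_[p] ℚ_[p] D * (f k).coeff q := by
    intro q hq
    obtain ⟨r, hr⟩ := hD ((f k).coeff q) (by
      rw [Finset.mem_biUnion]
      exact ⟨k, Finset.mem_univ _, Finset.mem_image_of_mem _ hq⟩)
    refine ⟨r, ?_⟩
    rw [hr, Algebra.smul_def]
  choose! r hr using h
  refine ⟨∑ q ∈ (f k).coeff.support, MonoidAlgebra.single q (r q), ?_⟩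
  rw [map_sum]
  conv_rhs => rw [← MonoidAlgebra.sum_coeff_single (f k), Finsupp.sum, Finset.smul_sum]
  apply Finset.sum_congr rfl
  intro q hq
  rw [MonoidAlgebra.mapRingHom_single, MonoidAlgebra.smul_single, hr q hq, smul_eq_mul]

theorem reg_inl {F : Type} [Field F] {Q : Type} [Group Q] [Fintype Q] [DecidableEq Q]
    (a : MonoidAlgebra F Q) :
    reg F (Q × Q) (MonoidAlgebra.mapDomainRingHom F (MonoidHom.inl Q Q) a) =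
      reg F Q a ⊗ₖ (1 : Matrix Q Q F) := by
  induction a using MonoidAlgebra.induction_linear with
  | zero => simp
  | add f g hf hg => rw [map_add, map_add, map_add, hf, hg, Matrix.add_kronecker]
  | single q c =>
    ext x y
    rw [reg_apply, Matrix.kroneckerMap_apply, reg_apply]
    simp only [MonoidAlgebra.mapDomainRingHom_apply, MonoidAlgebra.mapDomain_single,
      MonoidHom.inl_apply, MonoidAlgebra.coeff_single, Finsupp.single_apply, Matrix.one_apply]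
    obtain ⟨x1, x2⟩ := x
    obtain ⟨y1, y2⟩ := y
    simp only [Prod.inv_mk, Prod.mk_mul_mk, Prod.mk.injEq]
    by_cases hq : q = x1⁻¹ * y1 <;> by_cases h2 : x2 = y2 <;>
      simp [hq, h2, eq_inv_mul_iff_mul_eq]

theorem reg_inr {F : Type} [Field F] {Q : Type} [Group Q] [Fintype Q] [DecidableEq Q]
    (a : MonoidAlgebra F Q) :
    reg F (Q × Q) (MonoidAlgebra.mapDomainRingHom F (MonoidHom.inr Q Q) a) =
      (1 : Matrix Q Q F) ⊗ₖ reg F Q a := by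
  induction a using MonoidAlgebra.induction_linear with
  | zero => simp
  | add f g hf hg => rw [map_add, map_add, map_add, hf, hg, Matrix.kronecker_add]
  | single q c =>
    ext x y
    rw [reg_apply, Matrix.kroneckerMap_apply, reg_apply]
    simp only [MonoidAlgebra.mapDomainRingHom_apply, MonoidAlgebra.mapDomain_single,
      MonoidHom.inr_apply, MonoidAlgebra.coeff_single, Finsupp.single_apply, Matrix.one_apply]
    obtain ⟨x1, x2⟩ := x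
    obtain ⟨y1, y2⟩ := y
    simp only [Prod.inv_mk, Prod.mk_mul_mk, Prod.mk.injEq]
    by_cases hq : q = x2⁻¹ * y2 <;> by_cases h2 : x1 = y1 <;>
      simp [hq, h2, eq_inv_mul_iff_mul_eq]

theorem lamAlg_lam1 {C : Type} [CommRing C] {F : Type} [Field F] (φ : C →+* F) (𝒯 : Sys)
    (a : Lam C 𝒯) : lamAlg φ 𝒯.sq (lam1 C 𝒯 a) = algC1 F 𝒯.Q (lamAlg φ 𝒯 a) := by
  have h : lamSeq φ 𝒯.sq (lam1 C 𝒯 a) = seqC1 F 𝒯.Q (lamSeq φ 𝒯 a) := by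
    funext j
    change reg F (𝒯.Q j × 𝒯.Q j) (MonoidAlgebra.mapRingHom (𝒯.Q j × 𝒯.Q j) φ
      (MonoidAlgebra.mapDomainRingHom C (MonoidHom.inl (𝒯.Q j) (𝒯.Q j)) (a.1 j))) =
      reg F (𝒯.Q j) (MonoidAlgebra.mapRingHom (𝒯.Q j) φ (a.1 j)) ⊗ₖ 1
    rw [← RingHom.comp_apply (MonoidAlgebra.mapRingHom _ φ),
      MonoidAlgebra.mapRingHom_comp_mapDomainRingHom, RingHom.comp_apply, reg_inl]
  rw [lamAlg, RingHom.comp_apply, h, lamAlg, RingHom.comp_apply, algC1_mk]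

theorem lamAlg_lam2 {C : Type} [CommRing C] {F : Type} [Field F] (φ : C →+* F) (𝒯 : Sys)
    (a : Lam C 𝒯) : lamAlg φ 𝒯.sq (lam2 C 𝒯 a) = algC2 F 𝒯.Q (lamAlg φ 𝒯 a) := by
  have h : lamSeq φ 𝒯.sq (lam2 C 𝒯 a) = seqC2 F 𝒯.Q (lamSeq φ 𝒯 a) := by
    funext j
    change reg F (𝒯.Q j × 𝒯.Q j) (MonoidAlgebra.mapRingHom (𝒯.Q j × 𝒯.Q j) φ
      (MonoidAlgebra.mapDomainRingHom C (MonoidHom.inr (𝒯.Q j) (𝒯.Q j)) (a.1 j))) =
      1 ⊗ₖ reg F (𝒯.Q j) (MonoidAlgebra.mapRingHom (𝒯.Q j) φ (a.1 j))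
    rw [← RingHom.comp_apply (MonoidAlgebra.mapRingHom _ φ),
      MonoidAlgebra.mapRingHom_comp_mapDomainRingHom, RingHom.comp_apply, reg_inr]
  rw [lamAlg, RingHom.comp_apply, h, lamAlg, RingHom.comp_apply, algC2_mk]

theorem lamAlg_smul {C : Type} [CommRing C] {F : Type} [Field F] (φ : C →+* F) (𝒯 : Sys)
    (a b : Lam C 𝒯) (α β : C) (h : ∀ j, β • a.1 j = α • b.1 j) :
    algebraMap F (UAlg F 𝒯.Q) (φ β) * lamAlg φ 𝒯 a =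
      algebraMap F (UAlg F 𝒯.Q) (φ α) * lamAlg φ 𝒯 b := by
  rw [lamAlg, RingHom.comp_apply, RingHom.comp_apply, algebraMap_UAlg, algebraMap_UAlg,
    ← map_mul, ← map_mul]
  congr 1
  funext j
  have key : ∀ (γ : C) (c : Lam C 𝒯), algebraMap F (Matrix (𝒯.Q j) (𝒯.Q j) F) (φ γ) *
      lamSeq φ 𝒯 c j = reg F (𝒯.Q j) (MonoidAlgebra.mapRingHom (𝒯.Q j) φ (γ • c.1 j)) := by
    intro γ c
    rw [lamSeq_apply, ← Algebra.smul_def, ← map_smul]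
    congr 1
    apply MonoidAlgebra.coeff_injective
    ext q
    simp
  change algebraMap F (Matrix (𝒯.Q j) (𝒯.Q j) F) (φ β) * lamSeq φ 𝒯 a j =
    algebraMap F (Matrix (𝒯.Q j) (𝒯.Q j) F) (φ α) * lamSeq φ 𝒯 b j
  rw [key, key, h]

theorem UAlg_nontrivial (F : Type) [Field F] (X : ℕ → Type) [∀ j, Fintype (X j)]
    [∀ j, DecidableEq (X j)] [∀ j, Nonempty (X j)] : Nontrivial (UAlg F X) := by
  refine ⟨⟨1, 0, fun h => ?_⟩⟩
  have h1 : UAlg.mk F X 1 = 0 := by rw [map_one]; exact h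
  rw [UAlg.mk_eq_zero] at h1
  obtain ⟨j, hj⟩ := (h1 (1 / 2) (by norm_num)).exists
  rw [Pi.one_apply, Matrix.rank_one] at hj
  have : (0 : ℝ) < Fintype.card (X j) := by exact_mod_cast Fintype.card_pos
  linarith

end ScalarCopies

section M26

variable (p : ℕ) [Fact p.Prime] (𝒯 : Sys) {d : ℕ} (x : Fin d → 𝒯.G)

/-- `IsRational` for a multiple of the base change to `ℚ_p` over the completed group ring -/
theorem exists_isRational_lam (a : UAlg ℚ 𝒯.Q) (ha : IsRational (grpAlg ℚ 𝒯) a) :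
    ∃ D : ℤ_[p], D ≠ 0 ∧ IsRational (lamAlg (algebraMap ℤ_[p] ℚ_[p]) 𝒯)
      (algebraMap ℚ_[p] (UAlg ℚ_[p] 𝒯.Q) (algebraMap ℤ_[p] ℚ_[p] D) *
        algMap 𝒯.Q (algebraMap ℚ ℚ_[p]) a) := by
  obtain ⟨s, T, r, c, Y, h1, h2, h3⟩ := ha
  set ι := algebraMap ℚ ℚ_[p] with hι
  set φ := algebraMap ℤ_[p] ℚ_[p] with hφ
  set mm := MonoidAlgebra.mapRingHom 𝒯.G ι with hmm
  obtain ⟨D, hD, hcl⟩ := exists_clear p (G := 𝒯.G)
    (fun k : (Fin s × Fin s) ⊕ (Fin s ⊕ Fin s) => Sum.elim (fun ij => mm (T ij.1 ij.2))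
      (Sum.elim (fun i => mm (r i)) (fun i => mm (c i))) k)
  have hT : ∀ i j, ∃ b, MonoidAlgebra.mapRingHom 𝒯.G φ b = φ D • mm (T i j) :=
    fun i j => hcl (Sum.inl (i, j))
  have hr : ∀ i, ∃ b, MonoidAlgebra.mapRingHom 𝒯.G φ b = φ D • mm (r i) :=
    fun i => hcl (Sum.inr (Sum.inl i))
  have hc : ∀ i, ∃ b, MonoidAlgebra.mapRingHom 𝒯.G φ b = φ D • mm (c i) :=
    fun i => hcl (Sum.inr (Sum.inr i))
  choose T' hT' using hT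
  choose r' hr' using hr
  choose c' hc' using hc
  have hφD : φ D ≠ 0 := by
    intro h0
    apply hD
    have : Function.Injective φ := IsFractionRing.injective ℤ_[p] ℚ_[p]
    exact this (by rw [h0, map_zero])
  -- the map on cleared elements
  have key : ∀ (b : MonoidAlgebra ℤ_[p] 𝒯.G) (e : MonoidAlgebra ℚ 𝒯.G),
      MonoidAlgebra.mapRingHom 𝒯.G φ b = φ D • mm e →
      lamAlg φ 𝒯 (toLam ℤ_[p] 𝒯 b) = algebraMap ℚ_[p] (UAlg ℚ_[p] 𝒯.Q) (φ D) *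
        algMap 𝒯.Q ι (grpAlg ℚ 𝒯 e) := by
    intro b e hbe
    rw [lamAlg_toLam, hbe, algMap_grpAlg]
    rw [grpAlg, RingHom.comp_apply, RingHom.comp_apply, algebraMap_UAlg, ← map_mul]
    congr 1
    funext j
    change grpSeq ℚ_[p] 𝒯 (φ D • mm e) j = algebraMap ℚ_[p] (Matrix (𝒯.Q j) (𝒯.Q j) ℚ_[p]) (φ D) *
      grpSeq ℚ_[p] 𝒯 (mm e) j
    rw [grpSeq_apply, grpSeq_apply, ← Algebra.smul_def]
    have h5 := map_smul (reg ℚ_[p] (𝒯.Q j)) (φ D)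
      (MonoidAlgebra.mapDomainRingHom ℚ_[p] (𝒯.π j) (mm e))
    rw [← h5]
    congr 1
    simp only [MonoidAlgebra.mapDomainRingHom_apply, MonoidAlgebra.mapDomain_smul]
  set δ : UAlg ℚ_[p] 𝒯.Q := algebraMap ℚ_[p] (UAlg ℚ_[p] 𝒯.Q) (φ D) with hδ
  set δ' : UAlg ℚ_[p] 𝒯.Q := algebraMap ℚ_[p] (UAlg ℚ_[p] 𝒯.Q) (φ D)⁻¹ with hδ'
  have hdd : δ * δ' = 1 := by rw [hδ, hδ', ← map_mul, mul_inv_cancel₀ hφD, map_one]
  have hdd' : δ' * δ = 1 := by rw [hδ, hδ', ← map_mul, inv_mul_cancel₀ hφD, map_one]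
  have hcomm : ∀ y : UAlg ℚ_[p] 𝒯.Q, δ * y = y * δ := fun y => Algebra.commutes _ _
  have hcomm' : ∀ y : UAlg ℚ_[p] 𝒯.Q, δ' * y = y * δ' := fun y => Algebra.commutes _ _
  have k1 : (T.map (grpAlg ℚ 𝒯)).map (algMap 𝒯.Q ι) * Y.map (algMap 𝒯.Q ι) = 1 := by
    have := congrArg (algMap 𝒯.Q ι).mapMatrix h1
    rw [map_mul, map_one] at this
    exact this
  have k2 : Y.map (algMap 𝒯.Q ι) * (T.map (grpAlg ℚ 𝒯)).map (algMap 𝒯.Q ι) = 1 := by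
    have := congrArg (algMap 𝒯.Q ι).mapMatrix h2
    rw [map_mul, map_one] at this
    exact this
  have hTmap : (Matrix.of fun i j => toLam ℤ_[p] 𝒯 (T' i j)).map (lamAlg φ 𝒯) =
      Matrix.of fun i j => δ * ((T.map (grpAlg ℚ 𝒯)).map (algMap 𝒯.Q ι)) i j := by
    ext i j
    simp only [Matrix.map_apply, Matrix.of_apply]
    exact key _ _ (hT' i j)
  refine ⟨D, hD, s, Matrix.of fun i j => toLam ℤ_[p] 𝒯 (T' i j), fun i => toLam ℤ_[p] 𝒯 (r' i),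
    fun i => toLam ℤ_[p] 𝒯 (c' i), Matrix.of fun i j => δ' * (Y.map (algMap 𝒯.Q ι)) i j, ?_, ?_, ?_⟩
  · rw [hTmap, ← k1]
    ext i j
    simp only [Matrix.mul_apply, Matrix.of_apply]
    apply Finset.sum_congr rfl
    intro l _
    rw [hcomm, mul_assoc, ← mul_assoc δ, hdd, one_mul]
  · rw [hTmap, ← k2]
    ext i j
    simp only [Matrix.mul_apply, Matrix.of_apply]
    apply Finset.sum_congr rfl
    intro l _
    rw [hcomm', mul_assoc, ← mul_assoc δ', hdd', one_mul]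
  · rw [h3]
    simp only [dotProduct, Matrix.mulVec, Matrix.of_apply, map_sum, map_mul, Finset.mul_sum,
      Matrix.map_apply]
    refine (Finset.mul_sum _ _ _).trans ?_
    apply Finset.sum_congr rfl
    intro i _
    refine (Finset.mul_sum _ _ _).trans ?_
    apply Finset.sum_congr rfl
    intro l _
    rw [key _ _ (hr' i), key _ _ (hc' l)]
    have e1 : δ' * algMap 𝒯.Q ι (Y i l) * (δ * algMap 𝒯.Q ι (grpAlg ℚ 𝒯 (c l))) =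
        algMap 𝒯.Q ι (Y i l) * algMap 𝒯.Q ι (grpAlg ℚ 𝒯 (c l)) := by
      rw [hcomm', mul_assoc, ← mul_assoc δ', hdd', one_mul]
    rw [e1, mul_assoc]

theorem ScalarCopies_noeth (h : IsTower p 𝒯 d x) : IsNoetherianRing (Lam ℤ_[p] 𝒯) := by
  obtain ⟨c, -⟩ := tower_cfr p 𝒯 x h
  have h1 : IsNoetherianRing (Lam (ZMod p) 𝒯) := c.isNoetherianRing
  obtain ⟨L, -, -⟩ := exists_lamLift p 𝒯
  exact L.isNoetherianRing

theorem ScalarCopies_nontrivial (h : IsTower p 𝒯 d x) : Nontrivial (Lam ℤ_[p] 𝒯) := by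
  refine ⟨⟨1, 0, fun h0 => ?_⟩⟩
  have h1 : (1 : MonoidAlgebra ℤ_[p] (𝒯.Q 0)) = 0 := congrFun (congrArg Subtype.val h0) 0
  exact one_ne_zero h1

theorem ScalarCopies_domain (h : IsTower p 𝒯 d x) : IsDomain (Lam ℤ_[p] 𝒯) := by
  have hφ : Function.Injective (algebraMap ℤ_[p] ℚ_[p]) := IsFractionRing.injective _ _
  have hn := ScalarCopies_nontrivial p 𝒯 x h
  have hU := UAlg_nontrivial ℚ_[p] 𝒯.Q
  have hz : NoZeroDivisors (Lam ℤ_[p] 𝒯) := by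
    refine ⟨fun {a b} hab => ?_⟩
    by_contra hcon
    push Not at hcon
    have h1 := isUnit_lamAlg p 𝒯 x h (algebraMap ℤ_[p] ℚ_[p]) hφ a hcon.1
    have h2 := isUnit_lamAlg p 𝒯 x h (algebraMap ℤ_[p] ℚ_[p]) hφ b hcon.2
    have h3 := h1.mul h2
    rw [← map_mul, hab, map_zero] at h3
    exact not_isUnit_zero h3
  exact NoZeroDivisors.to_isDomain _

/-- M26b -/
theorem scalar_of_copies (h : IsTower p 𝒯 d x) (a : UAlg ℚ 𝒯.Q) (ha : IsRational (grpAlg ℚ 𝒯) a)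
    (h12 : algC1 ℚ 𝒯.Q a = algC2 ℚ 𝒯.Q a) : ∃ c : ℚ, a = algebraMap ℚ (UAlg ℚ 𝒯.Q) c := by
  set ι := algebraMap ℚ ℚ_[p] with hι
  set φ := algebraMap ℤ_[p] ℚ_[p] with hφdef
  have hφ : Function.Injective φ := IsFractionRing.injective _ _
  obtain ⟨D, hD, hrat⟩ := exists_isRational_lam p 𝒯 a ha
  obtain ⟨x', hx'⟩ := h.sq
  have hun : ∀ t : Lam ℤ_[p] 𝒯, t ≠ 0 → IsUnit (lamAlg φ 𝒯 t) := isUnit_lamAlg p 𝒯 x h φ hφ
  have i1 := ScalarCopies_domain p 𝒯 x h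
  have i2 := ScalarCopies_noeth p 𝒯 x h
  obtain ⟨t, c, ht, htc⟩ := exists_fraction (algRank ℚ_[p] 𝒯.Q) (lamAlg φ 𝒯) hun hrat
  set a' := algMap 𝒯.Q ι a with ha'
  set b' := algebraMap ℚ_[p] (UAlg ℚ_[p] 𝒯.Q) (φ D) * a' with hb'
  have hb12 : algC1 ℚ_[p] 𝒯.Q b' = algC2 ℚ_[p] 𝒯.Q b' := by
    rw [hb', map_mul, map_mul, algC1_algebraMap, algC2_algebraMap, ha', ← algMap_C1, ← algMap_C2,
      h12]
  have e1 : lamAlg φ 𝒯.sq (lam1 ℤ_[p] 𝒯 t) * algC1 ℚ_[p] 𝒯.Q b' =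
      lamAlg φ 𝒯.sq (lam1 ℤ_[p] 𝒯 c) := by
    rw [lamAlg_lam1, lamAlg_lam1]
    exact (map_mul _ _ _).symm.trans (congrArg _ htc)
  have e2 : lamAlg φ 𝒯.sq (lam2 ℤ_[p] 𝒯 t) * algC2 ℚ_[p] 𝒯.Q b' =
      lamAlg φ 𝒯.sq (lam2 ℤ_[p] 𝒯 c) := by
    rw [lamAlg_lam2, lamAlg_lam2]
    exact (map_mul _ _ _).symm.trans (congrArg _ htc)
  have hc12 : lamAlg φ 𝒯.sq (lam2 ℤ_[p] 𝒯 t) * lamAlg φ 𝒯.sq (lam1 ℤ_[p] 𝒯 t) =
      lamAlg φ 𝒯.sq (lam1 ℤ_[p] 𝒯 t) * lamAlg φ 𝒯.sq (lam2 ℤ_[p] 𝒯 t) := by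
    rw [lamAlg_lam1, lamAlg_lam2]
    exact (algC_comm _ _ _ _).symm
  have e3 : lamAlg φ 𝒯.sq (lam2 ℤ_[p] 𝒯 t * lam1 ℤ_[p] 𝒯 c) =
      lamAlg φ 𝒯.sq (lam1 ℤ_[p] 𝒯 t * lam2 ℤ_[p] 𝒯 c) := by
    rw [map_mul, map_mul, ← e1, ← e2]
    have f1 := mul_assoc (lamAlg φ 𝒯.sq (lam2 ℤ_[p] 𝒯 t)) (lamAlg φ 𝒯.sq (lam1 ℤ_[p] 𝒯 t))
      (algC1 ℚ_[p] 𝒯.Q b')
    have f2 := mul_assoc (lamAlg φ 𝒯.sq (lam1 ℤ_[p] 𝒯 t)) (lamAlg φ 𝒯.sq (lam2 ℤ_[p] 𝒯 t))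
      (algC2 ℚ_[p] 𝒯.Q b')
    exact (f1.symm.trans (by rw [hc12, hb12])).trans f2
  have e4 : lam2 ℤ_[p] 𝒯 t * lam1 ℤ_[p] 𝒯 c = lam1 ℤ_[p] 𝒯 t * lam2 ℤ_[p] 𝒯 c := by
    by_contra hne
    have h5 := isUnit_lamAlg p 𝒯.sq x' hx' φ hφ _ (sub_ne_zero.2 hne)
    rw [map_sub, e3, sub_self] at h5
    have hU := UAlg_nontrivial ℚ_[p] 𝒯.sq.Q
    exact not_isUnit_zero h5
  obtain ⟨α, β, hβ, hαβ⟩ := lam_copies p 𝒯 t c ht e4
  have e5 := lamAlg_smul φ 𝒯 c t α β hαβ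
  have e6 : lamAlg φ 𝒯 t * (algebraMap ℚ_[p] (UAlg ℚ_[p] 𝒯.Q) (φ β) * b') =
      lamAlg φ 𝒯 t * algebraMap ℚ_[p] (UAlg ℚ_[p] 𝒯.Q) (φ α) := by
    rw [← htc] at e5
    have c1 : algebraMap ℚ_[p] (UAlg ℚ_[p] 𝒯.Q) (φ β) * lamAlg φ 𝒯 t =
      lamAlg φ 𝒯 t * algebraMap ℚ_[p] (UAlg ℚ_[p] 𝒯.Q) (φ β) := Algebra.commutes _ _
    have c2 : algebraMap ℚ_[p] (UAlg ℚ_[p] 𝒯.Q) (φ α) * lamAlg φ 𝒯 t =
      lamAlg φ 𝒯 t * algebraMap ℚ_[p] (UAlg ℚ_[p] 𝒯.Q) (φ α) := Algebra.commutes _ _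
    rw [← c2, ← e5, ← mul_assoc, ← c1, mul_assoc]
  have e7 : algebraMap ℚ_[p] (UAlg ℚ_[p] 𝒯.Q) (φ β) * b' =
      algebraMap ℚ_[p] (UAlg ℚ_[p] 𝒯.Q) (φ α) := (hun t ht).mul_left_cancel e6
  have hφβ : φ β * φ D ≠ 0 := by
    rw [← map_mul]
    intro h0
    have := hφ (h0.trans (map_zero φ).symm)
    exact (mul_ne_zero hβ hD) this
  have e9 : ∀ u v w : ℚ_[p], u * v ≠ 0 → algebraMap ℚ_[p] (UAlg ℚ_[p] 𝒯.Q) u *
      (algebraMap ℚ_[p] (UAlg ℚ_[p] 𝒯.Q) v * a') = algebraMap ℚ_[p] (UAlg ℚ_[p] 𝒯.Q) w →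
      a' = algebraMap ℚ_[p] (UAlg ℚ_[p] 𝒯.Q) ((u * v)⁻¹ * w) := by
    intro u v w huv he
    rw [map_mul, ← he, ← mul_assoc (algebraMap ℚ_[p] (UAlg ℚ_[p] 𝒯.Q) u), ← map_mul,
      ← mul_assoc, ← map_mul, inv_mul_cancel₀ huv, map_one, one_mul]
  have e8 := e9 _ _ _ hφβ e7
  obtain ⟨α₀, -, hα₀⟩ := alg_scalar ℚ 𝒯.Q ι a _ e8
  exact ⟨α₀, hα₀⟩

end M26

end Pool.Agent.H4.Atiyah
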