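import Mathlib

set_option autoImplicit false

open Filter Topology
open scoped Matrix

namespace Pool.Agent.H4.Atiyah

open scoped TensorProduct Pointwise

namespace TensorSRC

section growth

variable {K C : Type} [Field K] [CommRing C] [Algebra K C]

lemma pow_subset [DecidableEq C] (s : Finset C) (t : ℕ) :
    ((s : Set C) ^ t) ⊆ Set.range (fun a : s → Fin (t + 1) => ∏ x : s, (x : C) ^ (a x : ℕ)) := by
  induction t with
  | zero =>
    rw [pow_zero]
    rintro _ rfl
    exact ⟨fun _ => 0, by simp⟩
  | succ t ih =>
    rw [pow_succ]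
    rintro _ ⟨y, hy, x, hx, rfl⟩
    obtain ⟨a, rfl⟩ := ih hy
    let x' : s := ⟨x, hx⟩
    refine ⟨fun z => ⟨(a z : ℕ) + if z = x' then 1 else 0, ?_⟩, ?_⟩
    · have := (a z).2
      split_ifs <;> omega
    · simp only [pow_add, Finset.prod_mul_distrib]
      congr 1
      rw [Finset.prod_eq_single x']
      · simp [x']
      · intro b _ hb
        simp [hb]
      · simp

lemma finrank_pow_le (s : Finset C) (t : ℕ) :
    Module.finrank K ((Submodule.span K (s : Set C)) ^ t : Submodule K C) ≤ (t + 1) ^ s.card := by
  classical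
  rw [Submodule.span_pow]
  have h1 : Submodule.span K ((s : Set C) ^ t) ≤ Submodule.span K
      (Set.range (fun a : s → Fin (t + 1) => ∏ x : s, (x : C) ^ (a x : ℕ))) :=
    Submodule.span_mono (pow_subset s t)
  have : Module.Finite K (Submodule.span K
      (Set.range (fun a : s → Fin (t + 1) => ∏ x : s, (x : C) ^ (a x : ℕ)))) :=
    Module.Finite.span_of_finite K (Set.finite_range _)
  refine (Submodule.finrank_mono h1).trans ?_
  refine (finrank_range_le_card (R := K) _).trans ?_
  simp

end growth

section ext

variable {K D C : Type} [Field K] [DivisionRing D] [Algebra K D] [CommRing C] [Algebra K C]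

/-- The inclusion of `D ⊗ W` into `D ⊗ C` -/
noncomputable def inc (D : Type) [DivisionRing D] [Algebra K D] (W : Submodule K C) :
    (D ⊗[K] W) →ₗ[D] (D ⊗[K] C) :=
  TensorProduct.AlgebraTensorModule.map (LinearMap.id : D →ₗ[D] D) W.subtype

lemma inc_tmul (W : Submodule K C) (d : D) (w : W) : inc D W (d ⊗ₜ w) = d ⊗ₜ (w : C) := rfl

lemma inc_injective (W : Submodule K C) : Function.Injective (inc D W) := by
  have h := Module.Flat.lTensor_preserves_injective_linearMap (M := D) W.subtype
    W.injective_subtype
  have h2 : ∀ x, inc D W x = LinearMap.lTensor D W.subtype x := by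
    intro x
    induction x using TensorProduct.induction_on with
    | zero => simp
    | tmul d w => rfl
    | add x y hx hy => rw [map_add, map_add, hx, hy]
  intro x y hxy
  apply h
  rw [← h2, ← h2, hxy]

/-- The `D`-submodule `D ⊗ W` of `D ⊗ C` -/
noncomputable def ext (D : Type) [DivisionRing D] [Algebra K D] (W : Submodule K C) :
    Submodule D (D ⊗[K] C) := LinearMap.range (inc D W)

lemma finite_tensor (W : Submodule K C) [Module.Finite K W] : Module.Finite D (D ⊗[K] W) :=
  Module.Finite.of_basis (Algebra.TensorProduct.basis D (Module.finBasis K W))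

lemma finite_ext (W : Submodule K C) [Module.Finite K W] : Module.Finite D (ext D W) := by
  have := finite_tensor (D := D) W
  exact Module.Finite.range (inc D W)

lemma finrank_ext (W : Submodule K C) [Module.Finite K W] :
    Module.finrank D (ext D W) = Module.finrank K W := by
  have h1 : Module.finrank D (ext D W) = Module.finrank D (D ⊗[K] W) :=
    LinearMap.finrank_range_of_inj (inc_injective W)
  rw [h1, Module.finrank_eq_card_basis (Algebra.TensorProduct.basis D (Module.finBasis K W)),
    Fintype.card_fin]

lemma ext_mono {W W' : Submodule K C} (h : W ≤ W') : ext D W ≤ ext D W' := by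
  rintro _ ⟨x, rfl⟩
  induction x using TensorProduct.induction_on with
  | zero => simp
  | tmul d w => exact ⟨d ⊗ₜ ⟨w, h w.2⟩, rfl⟩
  | add x y hx hy => rw [map_add]; exact Submodule.add_mem _ hx hy

lemma tmul_mem_ext {W : Submodule K C} (d : D) {c : C} (hc : c ∈ W) : d ⊗ₜ[K] c ∈ ext D W :=
  ⟨d ⊗ₜ ⟨c, hc⟩, rfl⟩

lemma mul_mem_ext {W W' : Submodule K C} {x y : D ⊗[K] C} (hx : x ∈ ext D W) (hy : y ∈ ext D W') :
    x * y ∈ ext D (W * W') := by
  obtain ⟨x, rfl⟩ := hx
  obtain ⟨y, rfl⟩ := hy
  induction x using TensorProduct.induction_on with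
  | zero => simp
  | add x x' hx hx' => rw [map_add, add_mul]; exact Submodule.add_mem _ hx hx'
  | tmul d w =>
    induction y using TensorProduct.induction_on with
    | zero => simp
    | add y y' hy hy' => rw [map_add, mul_add]; exact Submodule.add_mem _ hy hy'
    | tmul d' w' =>
      rw [inc_tmul, inc_tmul, Algebra.TensorProduct.tmul_mul_tmul]
      exact tmul_mem_ext _ (Submodule.mul_mem_mul w.2 w'.2)

lemma exists_fg (x : D ⊗[K] C) : ∃ W : Submodule K C, W.FG ∧ x ∈ ext D W := by
  induction x using TensorProduct.induction_on with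
  | zero => exact ⟨⊥, Submodule.fg_bot, Submodule.zero_mem _⟩
  | tmul d c => exact ⟨Submodule.span K {c}, Submodule.fg_span_singleton c,
      tmul_mem_ext d (Submodule.mem_span_singleton_self c)⟩
  | add x y hx hy =>
    obtain ⟨W, hW, hx⟩ := hx
    obtain ⟨W', hW', hy⟩ := hy
    exact ⟨W ⊔ W', hW.sup hW', Submodule.add_mem _ (ext_mono le_sup_left hx)
      (ext_mono le_sup_right hy)⟩

lemma smul_eq (d : D) (x : D ⊗[K] C) : d • x = (d ⊗ₜ[K] (1 : C)) * x := by
  induction x using TensorProduct.induction_on with
  | zero => simp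
  | tmul d' c => rw [TensorProduct.smul_tmul', Algebra.TensorProduct.tmul_mul_tmul, one_mul, smul_eq_mul]
  | add x y hx hy => rw [smul_add, mul_add, hx, hy]

/-- The main inequality -/
lemma finrank_ineq {n : ℕ} (f : (Fin (n + 1) → D ⊗[K] C) →ₗ[D ⊗[K] C] Fin n → D ⊗[K] C)
    (hf : Function.Injective f) (V : Submodule K C) (hVfg : V.FG)
    (hV : ∀ i j, f (fun k => if i = k then 1 else 0) j ∈ ext D V) (t : ℕ) :
    (n + 1) * Module.finrank K (V ^ t : Submodule K C) ≤
      n * Module.finrank K (V ^ (t + 1) : Submodule K C) := by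
  have hfin : ∀ t, Module.Finite K (V ^ t : Submodule K C) := fun t =>
    Module.Finite.iff_fg.2 (hVfg.pow t)
  have hfin' : ∀ t, Module.Finite D (ext D (V ^ t)) := fun t => by
    have := hfin t
    exact finite_ext _
  have hmem : ∀ (x : Fin (n + 1) → ext D (V ^ t)) (j : Fin n),
      f (fun i => (x i : D ⊗[K] C)) j ∈ ext D (V ^ (t + 1)) := by
    intro x j
    rw [LinearMap.pi_apply_eq_sum_univ f, Finset.sum_apply]
    refine Submodule.sum_mem _ (fun i _ => ?_)
    rw [Pi.smul_apply, smul_eq_mul, pow_succ]
    exact mul_mem_ext (x i).2 (hV i j)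
  let g : (Fin (n + 1) → ext D (V ^ t)) →ₗ[D] (Fin n → ext D (V ^ (t + 1))) :=
    { toFun := fun x j => ⟨f (fun i => (x i : D ⊗[K] C)) j, hmem x j⟩
      map_add' := by
        intro x y
        funext j
        apply Subtype.ext
        have : (fun i => ((x + y) i : D ⊗[K] C)) = (fun i => (x i : D ⊗[K] C)) +
            (fun i => (y i : D ⊗[K] C)) := rfl
        change f (fun i => ((x + y) i : D ⊗[K] C)) j = f (fun i => (x i : D ⊗[K] C)) j +
          f (fun i => (y i : D ⊗[K] C)) j
        rw [this, map_add]
        rfl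
      map_smul' := by
        intro d x
        funext j
        apply Subtype.ext
        have : (fun i => ((d • x) i : D ⊗[K] C)) = (d ⊗ₜ[K] (1 : C)) •
            (fun i => (x i : D ⊗[K] C)) := by
          funext i
          simp only [Pi.smul_apply, Submodule.coe_smul, smul_eq, smul_eq_mul]
        change f (fun i => ((d • x) i : D ⊗[K] C)) j = d • f (fun i => (x i : D ⊗[K] C)) j
        rw [this, map_smul, Pi.smul_apply, smul_eq_mul, smul_eq] }
  have hg : Function.Injective g := by
    intro x y hxy
    have h1 : f (fun i => (x i : D ⊗[K] C)) = f (fun i => (y i : D ⊗[K] C)) := by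
      funext j
      have := congrFun hxy j
      exact congrArg Subtype.val this
    have h2 := hf h1
    funext i
    exact Subtype.ext (congrFun h2 i)
  have h3 := LinearMap.finrank_le_finrank_of_injective hg
  rw [Module.finrank_pi_fintype, Module.finrank_pi_fintype] at h3
  have e1 := hfin t
  have e2 := hfin (t + 1)
  simpa [finrank_ext] using h3

end ext

end TensorSRC

section M11
open scoped TensorProduct

open TensorSRC in
theorem strongRankCondition_tensor (K D C : Type) [Field K] [DivisionRing D] [Algebra K D]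
    [CommRing C] [Nontrivial C] [Algebra K C] : StrongRankCondition (D ⊗[K] C) := by
  rw [strongRankCondition_iff_succ]
  intro n f hf
  -- a finitely generated subspace containing the entries
  choose W hW hmem using fun i j => exists_fg (f (fun k => if i = k then 1 else 0) j)
  have hVfg : (⨆ p : Fin (n + 1) × Fin n, W p.1 p.2).FG :=
    Submodule.fg_iSup _ (fun p => hW p.1 p.2)
  set V : Submodule K C := ⨆ p : Fin (n + 1) × Fin n, W p.1 p.2 with hV
  have hVmem : ∀ i j, f (fun k => if i = k then 1 else 0) j ∈ ext D V := fun i j =>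
    ext_mono (le_iSup (fun p : Fin (n + 1) × Fin n => W p.1 p.2) (i, j)) (hmem i j)
  have hineq := finrank_ineq f hf V hVfg hVmem
  have h0 : Module.finrank K (V ^ 0 : Submodule K C) = 1 := by
    rw [pow_zero, Submodule.one_eq_span]
    exact finrank_span_singleton one_ne_zero
  have hpow : ∀ t : ℕ, (n + 1) ^ t ≤ n ^ t * Module.finrank K (V ^ t : Submodule K C) := by
    intro t
    induction t with
    | zero => rw [h0]; simp
    | succ t ih =>
      calc (n + 1) ^ (t + 1) = (n + 1) ^ t * (n + 1) := pow_succ _ _
        _ ≤ n ^ t * Module.finrank K (V ^ t : Submodule K C) * (n + 1) :=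
          Nat.mul_le_mul_right _ ih
        _ = n ^ t * ((n + 1) * Module.finrank K (V ^ t : Submodule K C)) := by ring
        _ ≤ n ^ t * (n * Module.finrank K (V ^ (t + 1) : Submodule K C)) :=
          Nat.mul_le_mul_left _ (hineq t)
        _ = n ^ (t + 1) * Module.finrank K (V ^ (t + 1) : Submodule K C) := by ring
  obtain ⟨s, hs⟩ := hVfg
  have hle : ∀ t : ℕ, (n + 1) ^ t ≤ n ^ t * (t + 1) ^ s.card := by
    intro t
    refine (hpow t).trans (Nat.mul_le_mul_left _ ?_)
    have := finrank_pow_le (K := K) s t
    rwa [hs] at this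
  rcases Nat.eq_zero_or_pos n with hn | hn
  · subst hn
    have := hle 1
    simp at this
  · have hn' : (0 : ℝ) < n := by exact_mod_cast hn
    set r : ℝ := (n + 1) / n with hr
    have hr1 : 1 < r := by
      rw [hr, lt_div_iff₀ hn']
      linarith
    have hr0 : 0 < r := by linarith
    have hle' : ∀ t : ℕ, r ^ t ≤ ((t : ℝ) + 1) ^ s.card := by
      intro t
      have h1 : ((n : ℝ) + 1) ^ t ≤ (n : ℝ) ^ t * ((t : ℝ) + 1) ^ s.card := by
        exact_mod_cast hle t
      rw [hr, div_pow, div_le_iff₀ (by positivity)]
      linarith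
    have hlim := tendsto_pow_const_div_const_pow_of_one_lt s.card hr1
    have hlim' := (tendsto_add_atTop_iff_nat 1).2 hlim
    have h2 : ∀ t : ℕ, 1 / r ≤ (((t + 1 : ℕ) : ℝ)) ^ s.card / r ^ (t + 1) := by
      intro t
      rw [div_le_div_iff₀ hr0 (by positivity)]
      have := hle' t
      push_cast
      rw [pow_succ]
      nlinarith
    have h3 : 1 / r ≤ 0 := ge_of_tendsto' hlim' h2
    have : 0 < 1 / r := by positivity
    linarith

end M11

end Pool.Agent.H4.Atiyah
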