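import Pool.Agent.H4.Atiyah.TDefs
import Pool.Agent.H4.Atiyah.TowerSq
import Pool.Agent.H4.Atiyah.ScalarCopies
import Pool.Agent.H4.Atiyah.RatRank
import Pool.Agent.H4.Atiyah.RatClosure
import Pool.Agent.H4.Atiyah.TensorSRC
import Pool.Agent.H4.Atiyah.LengthInduction
import Pool.Agent.H4.Atiyah.AlgRank
import Pool.Agent.H4.Atiyah.EssZero
import Pool.Agent.H4.Atiyah.RankLib
import Pool.Agent.H4.Atiyah.Ranks

/-!
# Rank equality over `ℂ[U]` : the division ring argument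

(helper64; verified against Spec/Batch4 with the last theorem called `base_change'`. Theorems of other
modules used: IsTower.sq, scalar_of_copies, rat_rank_nat, exists_ratClosure, IsRational.inv,
IsRational.zero_or_unit, strongRankCondition_tensor, length_induction, alg_zero_divisor,
ess_zero_divisor, MatRank.rk_zero, rk_eq_finrank, algRank(_regular), essRank(_regular).)
-/

set_option autoImplicit false

open Filter Topology
open scoped Matrix TensorProduct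

namespace Pool.Agent.H4.Atiyah

namespace BaseChangeAux

section tensor

variable {K D C T : Type} [Field K] [DivisionRing D] [Algebra K D] [Field C] [Algebra K C]
  [Ring T] [Algebra C T]

theorem exists_tensor_hom (θ : D →+* T)
    (hθ : ∀ c : K, θ (algebraMap K D c) = algebraMap C T (algebraMap K C c))
    (H : ∀ (n : ℕ) (a : Fin n → D) (μ : Fin n → C), LinearIndependent K μ → a ≠ 0 →
      IsUnit (∑ j, algebraMap C T (μ j) * θ (a j))) :
    ∃ ψ : D ⊗[K] C →+* T, (∀ a c, ψ (a ⊗ₜ c) = θ a * algebraMap C T c) ∧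
      ∀ f, f ≠ 0 → IsUnit (ψ f) := by
  classical
  let alg : Algebra K T := RingHom.toAlgebra' ((algebraMap C T).comp (algebraMap K C))
    (fun c x => Algebra.commutes (algebraMap K C c) x)
  let f : D →ₐ[K] T := { θ with commutes' := hθ }
  let g : C →ₐ[K] T := { algebraMap C T with commutes' := fun _ => rfl }
  let ψ : D ⊗[K] C →ₐ[K] T := Algebra.TensorProduct.lift f g
    (fun x y => (Algebra.commutes y (θ x)).symm)
  have hψ : ∀ a c, ψ (a ⊗ₜ c) = θ a * algebraMap C T c := fun a c =>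
    Algebra.TensorProduct.lift_tmul f g _ a c
  refine ⟨ψ.toRingHom, hψ, fun x hx => ?_⟩
  let B := Algebra.TensorProduct.basis D (Module.Basis.ofVectorSpace K C)
  have hx2 : B.repr x ≠ 0 := fun h => hx (by simpa using h)
  set s := (B.repr x).support with hs
  let e := s.equivFin.symm
  have hxsum : x = ∑ j : Fin s.card, (B.repr x (e j)) ⊗ₜ[K]
      (Module.Basis.ofVectorSpace K C (e j : _)) := by
    conv_lhs => rw [← B.linearCombination_repr x]
    rw [Finsupp.linearCombination_apply, Finsupp.sum, ← hs, ← Finset.sum_coe_sort]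
    rw [← Equiv.sum_comp e]
    refine Finset.sum_congr rfl fun j _ => ?_
    rw [Algebra.TensorProduct.basis_apply, TensorProduct.smul_tmul', smul_eq_mul, mul_one]
  have h1 : ψ.toRingHom x = ∑ j : Fin s.card, algebraMap C T
      (Module.Basis.ofVectorSpace K C (e j : _)) * θ (B.repr x (e j)) := by
    conv_lhs => rw [hxsum]
    rw [map_sum]
    refine Finset.sum_congr rfl fun j _ => ?_
    rw [Algebra.commutes]
    exact hψ _ _
  rw [h1]
  refine H s.card (fun j => B.repr x (e j)) (fun j => Module.Basis.ofVectorSpace K C (e j : _)) ?_ ?_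
  · exact (Module.Basis.ofVectorSpace K C).linearIndependent.comp (fun j => (e j : _))
      (fun a b hab => e.injective (Subtype.ext hab))
  · intro h0
    obtain ⟨i, hi⟩ := Finsupp.support_nonempty_iff.2 hx2
    have h2 := congrFun h0 (e.symm ⟨i, hi⟩)
    simp only [Equiv.apply_symm_apply, Pi.zero_apply] at h2
    exact (Finsupp.mem_support_iff.1 hi) h2

omit [Algebra C T] in
theorem isDomain_tensor [Nontrivial T] (ψ : D ⊗[K] C →+* T) (hψ : ∀ f, f ≠ 0 → IsUnit (ψ f)) :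
    IsDomain (D ⊗[K] C) := by
  have hn : Nontrivial (D ⊗[K] C) := ⟨⟨1, 0, fun h => by
    have := congrArg ψ h
    rw [map_one, map_zero] at this
    exact one_ne_zero this⟩⟩
  have : NoZeroDivisors (D ⊗[K] C) := ⟨by
    intro a b hab
    by_contra hcon
    push Not at hcon
    have h1 := (hψ a hcon.1).mul (hψ b hcon.2)
    rw [← map_mul, hab, map_zero] at h1
    exact not_isUnit_zero h1⟩
  exact NoZeroDivisors.to_isDomain _

end tensor

/-- the group ring over `C` in `D ⊗ C` -/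
noncomputable def grpTensor {K D C G : Type} [Field K] [DivisionRing D] [Algebra K D] [Field C]
    [Algebra K C] [Group G] (f : G →* D) : MonoidAlgebra C G →+* D ⊗[K] C :=
  MonoidAlgebra.liftNCRingHom
    (Algebra.TensorProduct.includeRight : C →ₐ[K] D ⊗[K] C).toRingHom
    ((Algebra.TensorProduct.includeLeftRingHom : D →+* D ⊗[K] C).toMonoidHom.comp f)
    (fun c g => by
      change (1 : D) ⊗ₜ[K] c * (f g) ⊗ₜ[K] 1 = (f g) ⊗ₜ[K] 1 * (1 : D) ⊗ₜ[K] c
      rw [Algebra.TensorProduct.tmul_mul_tmul, Algebra.TensorProduct.tmul_mul_tmul, one_mul,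
        one_mul, mul_one, mul_one])

theorem grpTensor_single {K D C G : Type} [Field K] [DivisionRing D] [Algebra K D] [Field C]
    [Algebra K C] [Group G] (f : G →* D) (g : G) (c : C) :
    (grpTensor f (MonoidAlgebra.single g c) : D ⊗[K] C) = f g ⊗ₜ[K] c := by
  change MonoidAlgebra.liftNC _ _ _ = _
  rw [MonoidAlgebra.liftNC_single]
  change (1 : D) ⊗ₜ[K] c * (f g) ⊗ₜ[K] 1 = _
  rw [Algebra.TensorProduct.tmul_mul_tmul, one_mul, mul_one]

/-! ## functoriality of rationality -/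

theorem isRational_functor {R P R' P' : Type} [Ring R] [Ring P] [Ring R'] [Ring P'] {φ : R →+* P}
    {φ' : R' →+* P'} (f : R →+* R') (g : P →+* P') (h : ∀ r, g (φ r) = φ' (f r)) {x : P}
    (hx : IsRational φ x) : IsRational φ' (g x) := by
  obtain ⟨s, T, r, c, Y, h1, h2, rfl⟩ := hx
  have e : (T.map f).map φ' = (T.map φ).map g := by
    ext i j
    simp only [Matrix.map_apply, h]
  refine ⟨s, T.map f, fun i => f (r i), fun i => f (c i), Y.map g, ?_, ?_, ?_⟩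
  · rw [e, ← Matrix.map_mul, h1, Matrix.map_one _ (map_zero g) (map_one g)]
  · rw [e, ← Matrix.map_mul, h2, Matrix.map_one _ (map_zero g) (map_one g)]
  · simp only [dotProduct, Matrix.mulVec, map_sum, map_mul, h, Matrix.map_apply]

/-! ## the towers -/

section towers

variable (p : ℕ) [Fact p.Prime]

/-- towers for the prime `p` -/
abbrev Tow : Type 1 := {𝒯 : Sys // ∃ (d : ℕ) (x : Fin d → 𝒯.G), IsTower p 𝒯 d x}

/-- squares of towers -/
def Tow.sq (i : Tow p) : Tow p := ⟨i.1.sq, by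
  obtain ⟨d, x, h⟩ := i.2
  exact ⟨d + d, h.sq⟩⟩

variable (𝒯 : Sys)

/-- the map to the product of the two ultraproducts -/
noncomputable def phiA : MonoidAlgebra ℚ 𝒯.G →+* UAlg ℚ 𝒯.Q := grpAlg ℚ 𝒯

/-- the map to the product of the two ultraproducts -/
noncomputable def phiE : MonoidAlgebra ℚ 𝒯.G →+* UEss 𝒯.Q :=
  (grpEss 𝒯).comp (MonoidAlgebra.mapRingHom 𝒯.G (algebraMap ℚ ℂ))

/-- the map to the product of the two ultraproducts -/
noncomputable def phi : MonoidAlgebra ℚ 𝒯.G →+* UAlg ℚ 𝒯.Q × UEss 𝒯.Q := (phiA 𝒯).prod (phiE 𝒯)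

/-- the rational closure -/
noncomputable def ratD : Subring (UAlg ℚ 𝒯.Q × UEss 𝒯.Q) := (exists_ratClosure (phi 𝒯)).choose

theorem mem_ratD {x : UAlg ℚ 𝒯.Q × UEss 𝒯.Q} : x ∈ ratD 𝒯 ↔ IsRational (phi 𝒯) x :=
  (exists_ratClosure (phi 𝒯)).choose_spec.1 x

theorem phi_mem (r : MonoidAlgebra ℚ 𝒯.G) : phi 𝒯 r ∈ ratD 𝒯 :=
  (exists_ratClosure (phi 𝒯)).choose_spec.2 r

instance nontrivial_UAlg (F : Type) [Field F] (X : ℕ → Type) [∀ j, Fintype (X j)]
    [∀ j, DecidableEq (X j)] [∀ j, Nonempty (X j)] : Nontrivial (UAlg F X) := by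
  refine ⟨⟨1, 0, fun h => ?_⟩⟩
  have h1 := (algRank F X).one (n := Unit)
  have h2 : (1 : Matrix Unit Unit (UAlg F X)) = 0 := by
    ext i j
    rw [Subsingleton.elim i j, Matrix.one_apply_eq, h, Matrix.zero_apply]
  rw [h2, MatRank.rk_zero] at h1
  simp at h1

instance nontrivial_UEss (X : ℕ → Type) [∀ j, Fintype (X j)]
    [∀ j, DecidableEq (X j)] [∀ j, Nonempty (X j)] : Nontrivial (UEss X) := by
  refine ⟨⟨1, 0, fun h => ?_⟩⟩
  have h1 := (essRank X).one (n := Unit)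
  have h2 : (1 : Matrix Unit Unit (UEss X)) = 0 := by
    ext i j
    rw [Subsingleton.elim i j, Matrix.one_apply_eq, h, Matrix.zero_apply]
  rw [h2, MatRank.rk_zero] at h1
  simp at h1

instance nontrivial_ratD : Nontrivial (ratD 𝒯) := inferInstance

variable {p}

theorem ratD_zero_or_unit (i : Tow p) (a : ratD i.1) : IsUnit a ∨ a = 0 := by
  obtain ⟨d, x, h⟩ := i.2
  have h1 := (mem_ratD i.1).1 a.2
  have h2 := IsRational.zero_or_unit (algRank ℚ i.1.Q) (essRank i.1.Q) (algRank_regular ℚ i.1.Q)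
    (essRank_regular i.1.Q) (phiA i.1) (phiE i.1)
    (fun s A => rat_rank_nat p i.1 x h A) h1
  rcases h2 with h2 | h2
  · right
    exact Subtype.ext h2
  · left
    obtain ⟨u, hu⟩ := h2
    have h3 : (↑u⁻¹ : UAlg ℚ i.1.Q × UEss i.1.Q) ∈ ratD i.1 := by
      rw [mem_ratD]
      refine IsRational.inv (phi i.1) h1 (y := ↑u⁻¹) ?_ ?_
      · rw [← hu]; exact u.mul_inv
      · rw [← hu]; exact u.inv_mul
    refine ⟨⟨a, ⟨_, h3⟩, ?_, ?_⟩, rfl⟩
    · apply Subtype.ext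
      change (a : UAlg ℚ i.1.Q × UEss i.1.Q) * ↑u⁻¹ = 1
      rw [← hu]; exact u.mul_inv
    · apply Subtype.ext
      change ↑u⁻¹ * (a : UAlg ℚ i.1.Q × UEss i.1.Q) = 1
      rw [← hu]; exact u.inv_mul

/-- the division ring of a tower -/
def DT (i : Tow p) : Type := ratD i.1

noncomputable instance (i : Tow p) : DivisionRing (DT i) :=
  @DivisionRing.ofIsUnitOrEqZero (ratD i.1) (nontrivial_ratD i.1) _ (ratD_zero_or_unit i)

/-- the inclusion -/
noncomputable def DT.incl (i : Tow p) : DT i →+* UAlg ℚ i.1.Q × UEss i.1.Q := (ratD i.1).subtype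

theorem DT.incl_injective (i : Tow p) : Function.Injective (DT.incl i) := Subtype.val_injective

/-- the group ring in the division ring -/
noncomputable def DT.of (i : Tow p) : MonoidAlgebra ℚ i.1.G →+* DT i :=
  RingHom.codRestrict (phi i.1) (ratD i.1) (phi_mem i.1)

theorem DT.incl_of (i : Tow p) (a : MonoidAlgebra ℚ i.1.G) : DT.incl i (DT.of i a) = phi i.1 a := rfl

noncomputable instance (i : Tow p) : CharZero (DT i) :=
  charZero_of_injective_ringHom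
    (((DT.of i).comp (algebraMap ℚ (MonoidAlgebra ℚ i.1.G))).injective)

/-- first copy -/
noncomputable def c1 (𝒯 : Sys) :
    UAlg ℚ 𝒯.Q × UEss 𝒯.Q →+* UAlg ℚ 𝒯.sq.Q × UEss 𝒯.sq.Q :=
  (algC1 ℚ 𝒯.Q).prodMap (essC1 𝒯.Q)

/-- second copy -/
noncomputable def c2 (𝒯 : Sys) :
    UAlg ℚ 𝒯.Q × UEss 𝒯.Q →+* UAlg ℚ 𝒯.sq.Q × UEss 𝒯.sq.Q :=
  (algC2 ℚ 𝒯.Q).prodMap (essC2 𝒯.Q)

theorem mapC1 (𝒯 : Sys) (a : MonoidAlgebra ℚ 𝒯.G) :
    MonoidAlgebra.mapDomainRingHom ℂ 𝒯.in1 (MonoidAlgebra.mapRingHom 𝒯.G (algebraMap ℚ ℂ) a) =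
      MonoidAlgebra.mapRingHom 𝒯.sq.G (algebraMap ℚ ℂ) (MonoidAlgebra.mapDomainRingHom ℚ 𝒯.in1 a) := by
  rw [← RingHom.comp_apply, ← RingHom.comp_apply, MonoidAlgebra.mapRingHom_comp_mapDomainRingHom]

theorem mapC2 (𝒯 : Sys) (a : MonoidAlgebra ℚ 𝒯.G) :
    MonoidAlgebra.mapDomainRingHom ℂ 𝒯.in2 (MonoidAlgebra.mapRingHom 𝒯.G (algebraMap ℚ ℂ) a) =
      MonoidAlgebra.mapRingHom 𝒯.sq.G (algebraMap ℚ ℂ) (MonoidAlgebra.mapDomainRingHom ℚ 𝒯.in2 a) := by
  rw [← RingHom.comp_apply, ← RingHom.comp_apply, MonoidAlgebra.mapRingHom_comp_mapDomainRingHom]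

theorem c1_phi (𝒯 : Sys) (a : MonoidAlgebra ℚ 𝒯.G) :
    c1 𝒯 (phi 𝒯 a) = phi 𝒯.sq (MonoidAlgebra.mapDomainRingHom ℚ 𝒯.in1 a) := by
  refine Prod.ext ?_ ?_
  · exact algC1_grpAlg ℚ 𝒯 a
  · refine (essC1_grpEss 𝒯 _).trans ?_
    rw [mapC1]
    rfl

theorem c2_phi (𝒯 : Sys) (a : MonoidAlgebra ℚ 𝒯.G) :
    c2 𝒯 (phi 𝒯 a) = phi 𝒯.sq (MonoidAlgebra.mapDomainRingHom ℚ 𝒯.in2 a) := by
  refine Prod.ext ?_ ?_
  · exact algC2_grpAlg ℚ 𝒯 a
  · refine (essC2_grpEss 𝒯 _).trans ?_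
    rw [mapC2]
    rfl

/-- first copy on division rings -/
noncomputable def d1 (i : Tow p) : DT i →+* DT (Tow.sq p i) :=
  RingHom.codRestrict ((c1 i.1).comp (ratD i.1).subtype) (ratD i.1.sq) (fun a => by
    rw [mem_ratD]
    exact isRational_functor (MonoidAlgebra.mapDomainRingHom ℚ i.1.in1) (c1 i.1) (c1_phi i.1)
      ((mem_ratD i.1).1 a.2))

/-- second copy on division rings -/
noncomputable def d2 (i : Tow p) : DT i →+* DT (Tow.sq p i) :=
  RingHom.codRestrict ((c2 i.1).comp (ratD i.1).subtype) (ratD i.1.sq) (fun a => by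
    rw [mem_ratD]
    exact isRational_functor (MonoidAlgebra.mapDomainRingHom ℚ i.1.in2) (c2 i.1) (c2_phi i.1)
      ((mem_ratD i.1).1 a.2))

theorem incl_d1 (i : Tow p) (a : DT i) : DT.incl (Tow.sq p i) (d1 i a) = c1 i.1 (DT.incl i a) := rfl

theorem incl_d2 (i : Tow p) (a : DT i) : DT.incl (Tow.sq p i) (d2 i a) = c2 i.1 (DT.incl i a) := rfl

theorem d_comm (i : Tow p) (a b : DT i) : d1 i a * d2 i b = d2 i b * d1 i a := by
  apply DT.incl_injective
  rw [map_mul, map_mul, incl_d1, incl_d2]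
  exact Prod.ext (algC_comm ℚ i.1.Q _ _) (essC_comm i.1.Q _ _)

theorem d_eq (i : Tow p) (a : DT i) (h12 : d1 i a = d2 i a) : ∃ c : ℚ, a = algebraMap ℚ (DT i) c := by
  obtain ⟨d, x, h⟩ := i.2
  have h1 : IsRational (grpAlg ℚ i.1) (DT.incl i a).1 := by
    have := (mem_ratD i.1).1 a.2
    exact isRational_functor (φ' := grpAlg ℚ i.1) (RingHom.id _) (RingHom.fst _ _) (fun _ => rfl) this
  have h2 : algC1 ℚ i.1.Q (DT.incl i a).1 = algC2 ℚ i.1.Q (DT.incl i a).1 := by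
    have h3 := congrArg (fun b => (DT.incl (Tow.sq p i) b).1) h12
    exact h3
  obtain ⟨c, hc⟩ := scalar_of_copies p i.1 x h _ h1 h2
  refine ⟨c, ?_⟩
  rw [← sub_eq_zero]
  by_contra hne
  have h3 : IsUnit (a - algebraMap ℚ (DT i) c) := IsUnit.mk0 _ hne
  have h4 : IsUnit (DT.incl i (a - algebraMap ℚ (DT i) c)).1 :=
    (h3.map (DT.incl i)).map (RingHom.fst _ _)
  have h5 : (DT.incl i (a - algebraMap ℚ (DT i) c)).1 = 0 := by
    rw [map_sub, Prod.fst_sub, hc, sub_eq_zero]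
    exact RingHom.congr_fun (RingHom.ext_rat (algebraMap ℚ (UAlg ℚ i.1.Q))
      (((RingHom.fst _ _).comp (DT.incl i)).comp (algebraMap ℚ (DT i)))) c
  rw [h5] at h4
  exact not_isUnit_zero h4

/-! ## scalars -/

theorem grpSeq_single_one (F : Type) [Field F] (𝒯 : Sys) (c : F) :
    grpSeq F 𝒯 (MonoidAlgebra.single 1 c) = algebraMap F (Seq F 𝒯.Q) c := by
  funext j
  rw [grpSeq_apply]
  have h1 : MonoidAlgebra.mapDomainRingHom F (𝒯.π j) (MonoidAlgebra.single 1 c) =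
      algebraMap F (MonoidAlgebra F (𝒯.Q j)) c := by
    simp
  rw [h1, AlgHom.commutes]
  rfl

theorem grpAlg_single_one (F : Type) [Field F] (𝒯 : Sys) (c : F) :
    grpAlg F 𝒯 (MonoidAlgebra.single 1 c) = algebraMap F (UAlg F 𝒯.Q) c := by
  rw [grpAlg, RingHom.comp_apply, grpSeq_single_one, algebraMap_UAlg]

theorem grpEss_single_one (𝒯 : Sys) (c : ℂ) :
    grpEss 𝒯 (MonoidAlgebra.single 1 c) = algebraMap ℂ (UEss 𝒯.Q) c := by
  rw [grpEss, RingHom.comp_apply, algebraMap_UEss]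
  congr 1
  exact Subtype.ext (grpSeq_single_one ℂ 𝒯 c)

/-! ## the two targets -/

/-- `D → UAlg ℂ` -/
noncomputable def thA (i : Tow p) : DT i →+* UAlg ℂ i.1.Q :=
  (algMap i.1.Q (algebraMap ℚ ℂ)).comp ((RingHom.fst _ _).comp (DT.incl i))

/-- `D → UEss` -/
noncomputable def thE (i : Tow p) : DT i →+* UEss i.1.Q :=
  (RingHom.snd _ _).comp (DT.incl i)

theorem thA_of (i : Tow p) (a : MonoidAlgebra ℚ i.1.G) :
    thA i (DT.of i a) = grpAlg ℂ i.1 (MonoidAlgebra.mapRingHom i.1.G (algebraMap ℚ ℂ) a) :=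
  algMap_grpAlg (algebraMap ℚ ℂ) i.1 a

theorem thE_of (i : Tow p) (a : MonoidAlgebra ℚ i.1.G) :
    thE i (DT.of i a) = grpEss i.1 (MonoidAlgebra.mapRingHom i.1.G (algebraMap ℚ ℂ) a) := rfl

theorem unitA (i : Tow p) (n : ℕ) (a : Fin n → DT i) (μ : Fin n → ℂ) (hμ : LinearIndependent ℚ μ)
    (ha : a ≠ 0) : IsUnit (∑ j, algebraMap ℂ (UAlg ℂ i.1.Q) (μ j) * thA i (a j)) :=
  length_induction (K := ℚ) (C := ℂ) (I := Tow p) (Tow.sq p) (fun i => DT i) d1 d2 d_comm d_eq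
    (fun i => UAlg ℂ i.1.Q) (fun i => algC1 ℂ i.1.Q) (fun i => algC2 ℂ i.1.Q)
    (fun i a b => algC_comm ℂ i.1.Q a b)
    (fun i c => algC1_algebraMap ℂ i.1.Q c) (fun i c => algC2_algebraMap ℂ i.1.Q c)
    (fun i f hf => alg_zero_divisor ℂ i.1.Q f hf)
    thA (fun _ _ => (algMap_C1 _ _ _).symm) (fun _ _ => (algMap_C2 _ _ _).symm)
    (fun i c => RingHom.congr_fun (RingHom.ext_rat ((thA i).comp (algebraMap ℚ (DT i)))
      ((algebraMap ℂ (UAlg ℂ i.1.Q)).comp (algebraMap ℚ ℂ))) c) n i a μ hμ ha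

theorem unitE (i : Tow p) (n : ℕ) (a : Fin n → DT i) (μ : Fin n → ℂ) (hμ : LinearIndependent ℚ μ)
    (ha : a ≠ 0) : IsUnit (∑ j, algebraMap ℂ (UEss i.1.Q) (μ j) * thE i (a j)) :=
  length_induction (K := ℚ) (C := ℂ) (I := Tow p) (Tow.sq p) (fun i => DT i) d1 d2 d_comm d_eq
    (fun i => UEss i.1.Q) (fun i => essC1 i.1.Q) (fun i => essC2 i.1.Q)
    (fun i a b => essC_comm i.1.Q a b)
    (fun i c => essC1_algebraMap i.1.Q c) (fun i c => essC2_algebraMap i.1.Q c)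
    (fun i f hf => ess_zero_divisor i.1.Q f hf)
    thE (fun _ _ => rfl) (fun _ _ => rfl)
    (fun i c => RingHom.congr_fun (RingHom.ext_rat ((thE i).comp (algebraMap ℚ (DT i)))
      ((algebraMap ℂ (UEss i.1.Q)).comp (algebraMap ℚ ℂ))) c) n i a μ hμ ha

/-- `ℂ[G] → D ⊗ ℂ` -/
noncomputable def toE (i : Tow p) : MonoidAlgebra ℂ i.1.G →+* DT i ⊗[ℚ] ℂ :=
  grpTensor ((DT.of i).toMonoidHom.comp (MonoidAlgebra.of ℚ i.1.G))

theorem toE_single (i : Tow p) (g : i.1.G) (c : ℂ) :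
    toE i (MonoidAlgebra.single g c) = DT.of i (MonoidAlgebra.single g 1) ⊗ₜ[ℚ] c :=
  grpTensor_single _ g c

theorem single_split (𝒯 : Sys) (g : 𝒯.G) (c : ℂ) :
    (MonoidAlgebra.single g c : MonoidAlgebra ℂ 𝒯.G) =
      MonoidAlgebra.mapRingHom 𝒯.G (algebraMap ℚ ℂ) (MonoidAlgebra.single g 1) *
        MonoidAlgebra.single 1 c := by
  have h1 : MonoidAlgebra.mapRingHom 𝒯.G (algebraMap ℚ ℂ) (MonoidAlgebra.single g 1) =
      MonoidAlgebra.single g (1 : ℂ) := by simp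
  rw [h1, MonoidAlgebra.single_mul_single, mul_one, one_mul]

theorem psi_toE_A (i : Tow p) (ψ : DT i ⊗[ℚ] ℂ →+* UAlg ℂ i.1.Q)
    (hψ : ∀ a c, ψ (a ⊗ₜ c) = thA i a * algebraMap ℂ (UAlg ℂ i.1.Q) c)
    (a : MonoidAlgebra ℂ i.1.G) : ψ (toE i a) = grpAlg ℂ i.1 a := by
  induction a using MonoidAlgebra.induction_linear with
  | zero => simp
  | add f g hf hg => rw [map_add, map_add, map_add, hf, hg]
  | single g c =>
    rw [toE_single, hψ, thA_of, single_split, map_mul, grpAlg_single_one]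

theorem psi_toE_E (i : Tow p) (ψ : DT i ⊗[ℚ] ℂ →+* UEss i.1.Q)
    (hψ : ∀ a c, ψ (a ⊗ₜ c) = thE i a * algebraMap ℂ (UEss i.1.Q) c)
    (a : MonoidAlgebra ℂ i.1.G) : ψ (toE i a) = grpEss i.1 a := by
  induction a using MonoidAlgebra.induction_linear with
  | zero => simp
  | add f g hf hg => rw [map_add, map_add, map_add, hf, hg]
  | single g c =>
    rw [toE_single, hψ, thE_of, single_split, map_mul, grpEss_single_one]

end towers

end BaseChangeAux

open BaseChangeAux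

section M26

variable (p : ℕ) [Fact p.Prime] (𝒯 : Sys) {d : ℕ} (x : Fin d → 𝒯.G)

/-- M26c -/
theorem base_change (h : IsTower p 𝒯 d x) {m n : Type} [Fintype m] [Fintype n]
    (A : Matrix m n (MonoidAlgebra ℂ 𝒯.G)) :
    (essRank 𝒯.Q).rk (A.map (grpEss 𝒯)) = (algRank ℂ 𝒯.Q).rk (A.map (grpAlg ℂ 𝒯)) := by
  set i : Tow p := ⟨𝒯, d, x, h⟩ with hi
  obtain ⟨ψA, hA, hA'⟩ := exists_tensor_hom (K := ℚ) (C := ℂ) (thA i)
    (fun c => RingHom.congr_fun (RingHom.ext_rat ((thA i).comp (algebraMap ℚ (DT i)))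
      ((algebraMap ℂ (UAlg ℂ i.1.Q)).comp (algebraMap ℚ ℂ))) c) (fun n a μ => unitA i n a μ)
  obtain ⟨ψE, hE, hE'⟩ := exists_tensor_hom (K := ℚ) (C := ℂ) (thE i)
    (fun c => RingHom.congr_fun (RingHom.ext_rat ((thE i).comp (algebraMap ℚ (DT i)))
      ((algebraMap ℂ (UEss i.1.Q)).comp (algebraMap ℚ ℂ))) c) (fun n a μ => unitE i n a μ)
  have hdom : IsDomain (DT i ⊗[ℚ] ℂ) := isDomain_tensor ψA hA'
  have hsrc : StrongRankCondition (DT i ⊗[ℚ] ℂ) := strongRankCondition_tensor ℚ (DT i) ℂ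
  have h1 := rk_eq_finrank (algRank ℂ 𝒯.Q) ψA hA' (A.map (toE i))
  have h2 := rk_eq_finrank (essRank 𝒯.Q) ψE hE' (A.map (toE i))
  have e1 : (A.map (toE i)).map ψA = A.map (grpAlg ℂ 𝒯) := by
    ext a b
    exact psi_toE_A i ψA hA (A a b)
  have e2 : (A.map (toE i)).map ψE = A.map (grpEss 𝒯) := by
    ext a b
    exact psi_toE_E i ψE hE (A a b)
  rw [← e1, ← e2, h1, h2]

end M26

end Pool.Agent.H4.Atiyah
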