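import Mathlib

set_option autoImplicit false

open RingTheory.Sequence Function

namespace Pool.Agent.H4.Atiyah

section DepthStep

universe u v

/-- depth lemma for a short exact sequence -/
theorem isWeaklyRegular_of_shortExact {R : Type u} [CommRing R] (n : ℕ) :
    ∀ (rs : List R) {K F H : Type v} [AddCommGroup K] [AddCommGroup F] [AddCommGroup H]
      [Module R K] [Module R F] [Module R H] (f : K →ₗ[R] F) (g : F →ₗ[R] H),
      Injective f → Exact f g → Surjective g →
      IsWeaklyRegular F (rs.take (n + 1)) → IsWeaklyRegular H (rs.take n) →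
      IsWeaklyRegular K (rs.take (n + 1)) := by
  induction n with
  | zero =>
    intro rs K F H _ _ _ _ _ _ f g hf hfg hg hF hH
    cases rs with
    | nil => simp
    | cons y ys =>
      simp only [zero_add, List.take_succ_cons, List.take_zero, isWeaklyRegular_singleton_iff]
        at hF ⊢
      exact hF.of_injective f hf
  | succ n ih =>
    intro rs K F H _ _ _ _ _ _ f g hf hfg hg hF hH
    cases rs with
    | nil => simp
    | cons y ys =>
      simp only [List.take_succ_cons, isWeaklyRegular_cons_iff] at hF hH ⊢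
      refine ⟨hF.1.of_injective f hf, ?_⟩
      refine ih ys (QuotSMulTop.map y f) (QuotSMulTop.map y g) ?_
        (QuotSMulTop.map_exact y hfg hg) (QuotSMulTop.map_surjective y hg) hF.2 hH.2
      have h0 : Exact (0 : PUnit.{v+1} →ₗ[R] K) f := by
        intro x
        constructor
        · intro hx
          refine ⟨0, ?_⟩
          rw [LinearMap.zero_apply]
          exact (hf (by rw [hx, map_zero])).symm
        · rintro ⟨_, rfl⟩
          simp
      have h1 := QuotSMulTop.map_first_exact_on_four_term_exact_of_isSMulRegular_last h0 hfg hH.1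
      have h1' := QuotSMulTop.map_exact y hfg hg
      have h2 : Exact (QuotSMulTop.map y (0 : PUnit.{v+1} →ₗ[R] K)) (QuotSMulTop.map y f) :=
        h1
      rw [injective_iff_map_eq_zero]
      intro x hx
      obtain ⟨z, hz⟩ := (h2 x).1 hx
      rw [← hz, map_zero, LinearMap.zero_apply]

theorem isWeaklyRegular_take {R : Type u} [CommRing R] {M : Type v} [AddCommGroup M] [Module R M]
    {rs : List R} (h : IsWeaklyRegular M rs) (n : ℕ) : IsWeaklyRegular M (rs.take n) := by
  have h' := h
  rw [← List.take_append_drop n rs, isWeaklyRegular_append_iff] at h'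
  exact h'.1

variable {k : Type} [Field k] {D : ℕ}

theorem isWeaklyRegular_X :
    IsWeaklyRegular (MvPolynomial (Fin D) k)
      (List.ofFn fun i : Fin D => (MvPolynomial.X i : MvPolynomial (Fin D) k)) := by
  constructor
  intro i hi
  have hiD : i < D := by simpa using hi
  have hI : (Ideal.ofList ((List.ofFn fun i : Fin D =>
      (MvPolynomial.X i : MvPolynomial (Fin D) k)).take i) •
      (⊤ : Submodule (MvPolynomial (Fin D) k) (MvPolynomial (Fin D) k))) =
      Ideal.span (MvPolynomial.X '' {j : Fin D | (j : ℕ) < i}) := by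
    rw [smul_eq_mul, Ideal.mul_top]
    unfold Ideal.ofList
    congr 1
    ext p
    simp only [Set.mem_ofPred_eq, Set.mem_image]
    rw [List.mem_take_iff_getElem]
    constructor
    · rintro ⟨j, hj, rfl⟩
      have hj' : j < i ∧ j < D := by simpa using hj
      exact ⟨⟨j, hj'.2⟩, hj'.1, by simp⟩
    · rintro ⟨j, hj, rfl⟩
      refine ⟨j, by simp [hj], by simp⟩
  rw [hI, isSMulRegular_quotient_iff_mem_of_smul_mem]
  intro p hp
  simp only [List.getElem_ofFn, smul_eq_mul] at hp
  rw [MvPolynomial.mem_ideal_span_X_image] at hp ⊢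
  intro m hm
  have hm' : m + Finsupp.single (⟨i, hiD⟩ : Fin D) 1 ∈
      (MvPolynomial.X (⟨i, hiD⟩ : Fin D) * p).support := by
    rw [MvPolynomial.mem_support_iff, add_comm, MvPolynomial.coeff_X_mul]
    exact MvPolynomial.mem_support_iff.1 hm
  obtain ⟨j, hj, hj'⟩ := hp _ hm'
  refine ⟨j, hj, ?_⟩
  have hne : (⟨i, hiD⟩ : Fin D) ≠ j := by
    intro h
    rw [← h] at hj
    exact lt_irrefl _ (show i < i from hj)
  simpa [Finsupp.single_apply, hne] using hj'

theorem isWeaklyRegular_X_pi {ι : Type} [Fintype ι] :
    IsWeaklyRegular (ι → MvPolynomial (Fin D) k)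
      (List.ofFn fun i : Fin D => (MvPolynomial.X i : MvPolynomial (Fin D) k)) := by
  classical
  have h := (isWeaklyRegular_X (k := k) (D := D)).isWeaklyRegular_lTensor
    (M₂ := (ι → MvPolynomial (Fin D) k))
  exact ((TensorProduct.rid _ _).isWeaklyRegular_congr _).1 h

/-- depth lemma -/
theorem depth_step {ι : Type} [Fintype ι]
    (N : Submodule (MvPolynomial (Fin D) k) (ι → MvPolynomial (Fin D) k)) (r : ℕ) (hr : r < D)
    (h : RingTheory.Sequence.IsWeaklyRegular ((ι → MvPolynomial (Fin D) k) ⧸ N)
      ((List.ofFn fun i : Fin D => (MvPolynomial.X i : MvPolynomial (Fin D) k)).take r)) :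
    RingTheory.Sequence.IsWeaklyRegular N
      ((List.ofFn fun i : Fin D => (MvPolynomial.X i : MvPolynomial (Fin D) k)).take (r + 1)) := by
  have _ := hr
  exact isWeaklyRegular_of_shortExact r _ N.subtype N.mkQ N.injective_subtype
    (LinearMap.exact_subtype_mkQ N) N.mkQ_surjective
    (isWeaklyRegular_take isWeaklyRegular_X_pi _) h

end DepthStep

end Pool.Agent.H4.Atiyah
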