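import Pool.Agent.H4.Atiyah.CFRStandard

/-!
# Graded modules on which all variables form a weakly regular sequence are free
-/

set_option autoImplicit false

namespace Pool.Agent.H4.Atiyah



namespace GradedBasisAux

open RingTheory.Sequence in
/-- If `M = F + N` and `rs` is weakly regular on `M/N` then
`(F ∩ N) ∩ (r₁, …, r_r) F = (r₁, …, r_r) (F ∩ N)`. -/
theorem inf_smul_le {R M : Type} [CommRing R] [AddCommGroup M] [Module R M]
    (N F : Submodule R M) (hNF : F ⊔ N = ⊤) (rs : List R)
    (h : IsWeaklyRegular (M ⧸ N) rs) :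
    ∀ r ≤ rs.length, (F ⊓ N) ⊓ (Ideal.ofList (rs.take r) • F) ≤
      Ideal.ofList (rs.take r) • (F ⊓ N) := by
  intro r
  induction r with
  | zero =>
    intro _
    simp
  | succ r ih =>
    intro hr
    have hr' : r < rs.length := hr
    have hI : Ideal.ofList (rs.take (r+1)) = Ideal.ofList (rs.take r) ⊔ Ideal.span {rs[r]} := by
      rw [List.take_succ_eq_append_getElem hr', Ideal.ofList_append, Ideal.ofList_singleton]
    have ih' := ih hr'.le
    have hreg := h.regular_mod_prev r hr'
    set I := Ideal.ofList (rs.take r) with hIdef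
    set x := rs[r] with hx
    rintro Q ⟨hQK, hQ⟩
    rw [hI, Submodule.sup_smul, SetLike.mem_coe, Submodule.mem_sup] at hQ
    obtain ⟨B, hB, C, hC, rfl⟩ := hQ
    rw [Submodule.ideal_span_singleton_smul, Submodule.mem_smul_pointwise_iff_exists] at hC
    obtain ⟨A, hA, rfl⟩ := hC
    have hIF : I • F ≤ F := Submodule.smul_le_right
    have hmap : (⊤ : Submodule R (M ⧸ N)) = F.map N.mkQ := by
      rw [eq_comm, Submodule.map_mkQ_eq_top, sup_comm, hNF]
    have h1 : N.mkQ A ∈ (I • ⊤ : Submodule R (M ⧸ N)) := by
      refine mem_of_isSMulRegular_quotient_of_smul_mem hreg ?_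
      have h2 : x • N.mkQ A = - N.mkQ B := by
        have h3 : N.mkQ (B + x • A) = 0 := by
          rw [Submodule.mkQ_apply, Submodule.Quotient.mk_eq_zero]
          exact hQK.2
        rw [map_add, map_smul] at h3
        exact (neg_eq_of_add_eq_zero_right h3).symm
      rw [h2]
      refine Submodule.neg_mem _ ?_
      rw [hmap, ← Submodule.map_smul'']
      exact Submodule.mem_map_of_mem hB
    rw [hmap, ← Submodule.map_smul''] at h1
    obtain ⟨B', hB', hBA⟩ := h1
    have h4 : A - B' ∈ F ⊓ N := by
      refine ⟨F.sub_mem hA (hIF hB'), ?_⟩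
      rw [SetLike.mem_coe, ← Submodule.Quotient.mk_eq_zero N, ← Submodule.mkQ_apply, map_sub, hBA,
        sub_self]
    have h5 : B + x • A = (x • B' + B) + x • (A - B') := by
      rw [smul_sub]
      abel
    rw [h5, hI, Submodule.sup_smul]
    refine Submodule.add_mem_sup ?_ ?_
    · refine ih' ⟨?_, ?_⟩
      · have h6 : x • B' + B = (B + x • A) - x • (A - B') := by
          rw [smul_sub]
          abel
        rw [h6]
        exact Submodule.sub_mem _ hQK (Submodule.smul_mem _ _ h4)
      · exact Submodule.add_mem _ (Submodule.smul_mem _ _ hB') hB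
    · rw [Submodule.ideal_span_singleton_smul]
      exact Submodule.smul_mem_pointwise_smul _ _ _ h4

open MvPolynomial

variable {k : Type} [Field k] {D : ℕ} {ι : Type}

/-- vectors supported on `J` -/
def suppSub (k : Type) [Field k] (D : ℕ) (J : Set ι) :
    Submodule (MvPolynomial (Fin D) k) (ι → MvPolynomial (Fin D) k) where
  carrier := {Q | ∀ i ∉ J, Q i = 0}
  add_mem' := by
    intro a b ha hb i hi
    simp [ha i hi, hb i hi]
  zero_mem' := by
    intro i _
    rfl
  smul_mem' := by
    intro c a ha i hi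
    simp [ha i hi]

theorem mem_suppSub {J : Set ι} {Q : ι → MvPolynomial (Fin D) k} :
    Q ∈ suppSub k D J ↔ ∀ i ∉ J, Q i = 0 := Iff.rfl

/-- constant coefficients -/
def cc (k : Type) [Field k] (D : ℕ) (ι : Type) :
    (ι → MvPolynomial (Fin D) k) →ₗ[k] (ι → k) where
  toFun P i := coeff 0 (P i)
  map_add' := by
    intro a b
    ext i
    simp
  map_smul' := by
    intro a b
    ext i
    simp

theorem cc_apply (P : ι → MvPolynomial (Fin D) k) (i : ι) : cc k D ι P i = coeff 0 (P i) := rfl

theorem compt_add (s : ι → ℕ) (t : ℕ) (P Q : ι → MvPolynomial (Fin D) k) :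
    compt s t (P + Q) = compt s t P + compt s t Q := by
  ext1 i
  simp only [compt, Pi.add_apply]
  split_ifs <;> simp

theorem compt_sum_range [Fintype ι] (s : ι → ℕ) (P : ι → MvPolynomial (Fin D) k) :
    ∃ B, P = ∑ t ∈ Finset.range B, compt s t P := by
  refine ⟨∑ i, (s i + (P i).totalDegree + 1), ?_⟩
  ext1 i
  set B := ∑ i, (s i + (P i).totalDegree + 1) with hB
  have hBi : s i + (P i).totalDegree + 1 ≤ B :=
    Finset.single_le_sum (f := fun i => s i + (P i).totalDegree + 1) (fun _ _ => Nat.zero_le _)
      (Finset.mem_univ i)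
  rw [Finset.sum_apply]
  have h1 : B = s i + (B - s i) := by omega
  have h2 : ∑ t ∈ Finset.range B, compt s t P i =
      ∑ d ∈ Finset.range (B - s i), homogeneousComponent d (P i) := by
    rw [h1, Finset.sum_range_add]
    have h3 : ∑ t ∈ Finset.range (s i), compt s t P i = 0 := by
      refine Finset.sum_eq_zero fun t ht => ?_
      rw [Finset.mem_range] at ht
      simp [compt, not_le.2 ht]
    rw [h3, zero_add]
    refine Finset.sum_congr (by rw [Nat.add_sub_cancel_left]) fun d _ => ?_
    simp [compt]
  rw [h2]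
  have h4 : B - s i = ((P i).totalDegree + 1) + (B - s i - ((P i).totalDegree + 1)) := by omega
  rw [h4, Finset.sum_range_add, sum_homogeneousComponent]
  rw [Finset.sum_eq_zero, add_zero]
  intro d _
  exact homogeneousComponent_eq_zero _ _ (by omega)

theorem compt_eq_zero_of_mem [Fintype ι] (s : ι → ℕ) (t : ℕ) (Q : ι → MvPolynomial (Fin D) k)
    (hQ : ∀ i, Q i ∈ idealOfVars (Fin D) k ^ (t + 1)) : compt s t Q = 0 := by
  ext1 i
  simp only [compt, Pi.zero_apply]
  split_ifs with h
  · refine homogeneousComponent_eq_zero' _ _ fun d hd => ?_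
    have := (mem_pow_idealOfVars_iff _ _).1 (hQ i) d hd
    omega
  · rfl

theorem mem_smul_top [Fintype ι] (I : Ideal (MvPolynomial (Fin D) k))
    (Q : ι → MvPolynomial (Fin D) k) (hQ : Q ∈ I • (⊤ : Submodule (MvPolynomial (Fin D) k) (ι → MvPolynomial (Fin D) k))) (i : ι) : Q i ∈ I := by
  refine Submodule.smul_induction_on hQ ?_ ?_
  · intro r hr n _
    exact I.mul_mem_right _ hr
  · intro x y hx hy
    exact I.add_mem hx hy

theorem mem_smul_suppSub [Fintype ι] (I : Ideal (MvPolynomial (Fin D) k)) (J : Set ι)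
    (Q : ι → MvPolynomial (Fin D) k) (hQ : Q ∈ suppSub k D J) (hI : ∀ i, Q i ∈ I) :
    Q ∈ I • suppSub k D J := by
  classical
  have h1 : Q = ∑ i, Q i • Pi.single i (if i ∈ J then (1 : MvPolynomial (Fin D) k) else 0) := by
    ext1 i
    rw [Finset.sum_apply, Finset.sum_eq_single i]
    · by_cases hi : i ∈ J
      · simp [hi]
      · simp [hi, hQ i hi]
    · intro j _ hj
      simp [hj.symm]
    · simp
  rw [h1]
  refine Submodule.sum_mem _ fun i _ => Submodule.smul_mem_smul (hI i) ?_
  intro j hj
  by_cases hij : j = i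
  · subst hij
    simp [hj]
  · simp [hij]

theorem smul_top_eq_top_of [Fintype ι] (T : Submodule (MvPolynomial (Fin D) k) (ι → MvPolynomial (Fin D) k)) (h : T ⊔ idealOfVars (Fin D) k • ⊤ = ⊤) (n : ℕ) :
    T ⊔ (idealOfVars (Fin D) k ^ n) • ⊤ = ⊤ := by
  induction n with
  | zero => rw [pow_zero, Ideal.one_eq_top, Submodule.top_smul, sup_top_eq]
  | succ n ih =>
    refine eq_top_iff.2 ?_
    calc ⊤ = T ⊔ (idealOfVars (Fin D) k ^ n) • ⊤ := ih.symm
      _ = T ⊔ (idealOfVars (Fin D) k ^ n) • (T ⊔ idealOfVars (Fin D) k • ⊤) := by rw [h]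
      _ ≤ T ⊔ (idealOfVars (Fin D) k ^ (n + 1)) • ⊤ := by
        rw [Submodule.smul_sup, ← Submodule.mul_smul, ← pow_succ]
        refine sup_le le_sup_left (sup_le ?_ le_sup_right)
        exact Submodule.smul_le_right.trans le_sup_left

end GradedBasisAux

open GradedBasisAux MvPolynomial in
/-- graded modules on which all variables form a regular sequence are free -/
theorem exists_graded_basis {k : Type} [Field k] {D : ℕ} {ι : Type} [Fintype ι] (s : ι → ℕ)
    (N : Submodule (MvPolynomial (Fin D) k) (ι → MvPolynomial (Fin D) k))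
    (hN : ∀ P ∈ N, ∀ t, compt s t P ∈ N)
    (h : RingTheory.Sequence.IsWeaklyRegular ((ι → MvPolynomial (Fin D) k) ⧸ N)
      (List.ofFn fun i : Fin D => (MvPolynomial.X i : MvPolynomial (Fin D) k))) :
    ∃ J : Set ι, (∀ P : ι → MvPolynomial (Fin D) k, ∃ Q, (∀ i ∉ J, Q i = 0) ∧ P - Q ∈ N) ∧
      ∀ Q ∈ N, (∀ i ∉ J, Q i = 0) → Q = 0 := by
  classical
  set Nb : Submodule k (ι → k) := (N.restrictScalars k).map (cc k D ι) with hNb
  obtain ⟨κ, a, hainj, hspan, hli⟩ := exists_linearIndependent' k
    (fun i : ι => Nb.mkQ (Pi.single i (1 : k)))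
  set J : Set ι := Set.range a with hJ
  have hIofList : Ideal.ofList (List.ofFn fun i : Fin D => (X i : MvPolynomial (Fin D) k)) =
      idealOfVars (Fin D) k := by
    unfold Ideal.ofList idealOfVars
    congr 1
    ext p
    simp [List.mem_ofFn]
  have hspan' : Submodule.span k (Set.range fun i : ι => Nb.mkQ (Pi.single i (1 : k))) = ⊤ := by
    have h1 : (Set.range fun i : ι => Nb.mkQ (Pi.single i (1 : k))) =
        Nb.mkQ '' (Set.range fun i : ι => Pi.single i (1 : k)) := by
      rw [← Set.range_comp]
      rfl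
    rw [h1, Submodule.span_image]
    have h2 : Submodule.span k (Set.range fun i : ι => (Pi.single i (1 : k) : ι → k)) = ⊤ := by
      rw [eq_top_iff]
      intro v _
      rw [pi_eq_sum_univ' v]
      refine Submodule.sum_mem _ fun i _ => Submodule.smul_mem _ _ (Submodule.subset_span ⟨i, ?_⟩)
      ext j
      simp [Pi.single_apply, eq_comm]
    rw [h2, Submodule.map_top, Submodule.range_mkQ]
  set F := suppSub k D J with hF
  -- constants supported on J and in Nb vanish
  have hJ0 : ∀ v : ι → k, (∀ i ∉ J, v i = 0) → v ∈ Nb → v = 0 := by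
    intro v hv hvN
    have : Fintype κ := Fintype.ofInjective a hainj
    have h1 : v = ∑ x, v (a x) • (Pi.single (a x) (1 : k) : ι → k) := by
      ext i
      rw [Finset.sum_apply]
      by_cases hi : i ∈ J
      · obtain ⟨x, rfl⟩ := hi
        rw [Finset.sum_eq_single x]
        · simp
        · intro y _ hy
          simp [hainj.ne hy.symm]
        · simp
      · rw [hv i hi, Finset.sum_eq_zero]
        intro x _
        have : i ≠ a x := fun e => hi ⟨x, e.symm⟩
        simp [this]
    have h2 : ∑ x, v (a x) • (Nb.mkQ (Pi.single (a x) (1 : k))) = 0 := by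
      have h3 : Nb.mkQ v = 0 := by
        rw [Submodule.mkQ_apply, Submodule.Quotient.mk_eq_zero]
        exact hvN
      rw [h1, map_sum] at h3
      simpa using h3
    have h3 := (Fintype.linearIndependent_iff.1 hli) (fun x => v (a x)) h2
    rw [h1]
    exact Finset.sum_eq_zero fun x _ => by rw [h3 x, zero_smul]
  -- T + m M = M
  have hTm : (F ⊔ N) ⊔ idealOfVars (Fin D) k • ⊤ = ⊤ := by
    have key : ∀ i : ι, (Pi.single i (1 : MvPolynomial (Fin D) k) : ι → MvPolynomial (Fin D) k) ∈
        (F ⊔ N) ⊔ idealOfVars (Fin D) k • ⊤ := by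
      intro i
      have h1 : Nb.mkQ (Pi.single i (1 : k)) ∈ Submodule.span k (Set.range
          ((fun i : ι => Nb.mkQ (Pi.single i (1 : k))) ∘ a)) := by
        rw [hspan, hspan']
        trivial
      rw [Finsupp.mem_span_range_iff_exists_finsupp] at h1
      obtain ⟨c, hc⟩ := h1
      have h2 : Nb.mkQ (Pi.single i (1 : k) - c.sum fun x r => r • (Pi.single (a x) (1 : k) : ι → k)) = 0 := by
        rw [map_sub, ← hc, Finsupp.sum, Finsupp.sum, map_sum, sub_eq_zero]
        refine Finset.sum_congr rfl fun x _ => ?_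
        simp
      rw [Submodule.mkQ_apply, Submodule.Quotient.mk_eq_zero] at h2
      obtain ⟨n, hn, hn2⟩ := h2
      set f : ι → MvPolynomial (Fin D) k := c.sum fun x r => Pi.single (a x) (C r) with hf
      have hfF : f ∈ F := by
        rw [hf]
        refine Submodule.sum_mem _ fun x _ => ?_
        intro j hj
        have : j ≠ a x := fun e => hj ⟨x, e.symm⟩
        simp [this]
      have h3 : (Pi.single i (1 : MvPolynomial (Fin D) k) : ι → MvPolynomial (Fin D) k) =
          (f + n) + (Pi.single i (1 : MvPolynomial (Fin D) k) - (f + n)) := by abel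
      rw [h3]
      refine Submodule.add_mem_sup (Submodule.add_mem_sup hfF hn) ?_
      have h4 : ∀ j, ((Pi.single i (1 : MvPolynomial (Fin D) k) : ι → MvPolynomial (Fin D) k) - (f + n)) j ∈
          idealOfVars (Fin D) k := by
        intro j
        rw [← pow_one (idealOfVars (Fin D) k), mem_pow_idealOfVars_iff']
        intro x hx
        have hx0 : x = 0 := by
          have : Finsupp.degree x = 0 := by omega
          exact (Finsupp.degree_eq_zero_iff x).1 this
        subst hx0
        have h5 : cc k D ι (Pi.single i (1 : MvPolynomial (Fin D) k) - (f + n)) = 0 := by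
          rw [map_sub, map_add, hn2, hf, Finsupp.sum, map_sum, Finsupp.sum]
          have h6 : ∀ (l : ι) (r : k), cc k D ι (Pi.single l (C r)) = r • Pi.single l (1 : k) := by
            intro l r
            ext m
            rw [cc_apply]
            by_cases hm : m = l
            · subst hm
              simp
            · simp [hm]
          have h7 : cc k D ι (Pi.single i (1 : MvPolynomial (Fin D) k)) = Pi.single i (1 : k) := by
            have := h6 i 1
            simpa using this
          rw [h7]
          simp only [h6]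
          abel
        have := congrFun h5 j
        rw [cc_apply] at this
        exact this
      have h5 := mem_smul_suppSub (idealOfVars (Fin D) k) Set.univ
        (Pi.single i (1 : MvPolynomial (Fin D) k) - (f + n)) (fun j hj => (hj trivial).elim) h4
      exact Submodule.smul_mono le_rfl le_top h5
    rw [eq_top_iff]
    intro P _
    have h1 : P = ∑ i, P i • (Pi.single i (1 : MvPolynomial (Fin D) k) : ι → MvPolynomial (Fin D) k) := by
      ext1 j
      rw [Finset.sum_apply, Finset.sum_eq_single j]
      · simp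
      · intro i _ hi
        simp [hi.symm]
      · simp
    rw [h1]
    exact Submodule.sum_mem _ fun i _ => Submodule.smul_mem _ _ (key i)
  -- T = M
  have hT : F ⊔ N = ⊤ := by
    rw [eq_top_iff]
    intro P _
    obtain ⟨B, hB⟩ := compt_sum_range s P
    rw [hB]
    refine Submodule.sum_mem _ fun t _ => ?_
    have h1 : P ∈ (F ⊔ N) ⊔ (idealOfVars (Fin D) k ^ (t + 1)) • ⊤ := by
      rw [smul_top_eq_top_of _ hTm]
      trivial
    obtain ⟨τ, hτ, q, hq, hPq⟩ := Submodule.mem_sup.1 h1
    obtain ⟨f, hf, n, hn, hτ'⟩ := Submodule.mem_sup.1 hτ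
    rw [← hPq, ← hτ', compt_add, compt_add, compt_eq_zero_of_mem s t q (mem_smul_top _ q hq),
      add_zero]
    refine Submodule.add_mem_sup ?_ (hN n hn t)
    intro j hj
    simp only [compt]
    split_ifs
    · rw [hf j hj, map_zero]
    · rfl
  refine ⟨J, ?_, ?_⟩
  · intro P
    have h1 : P ∈ F ⊔ N := by rw [hT]; trivial
    obtain ⟨f, hf, n, hn, hfn⟩ := Submodule.mem_sup.1 h1
    refine ⟨f, hf, ?_⟩
    rw [← hfn, add_sub_cancel_left]
    exact hn
  · -- K = F ⊓ N satisfies K ≤ m K
    have hKm : F ⊓ N ≤ idealOfVars (Fin D) k • (F ⊓ N) := by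
      have h1 := inf_smul_le N F hT _ h D (by simp)
      rw [List.take_of_length_le (by simp), hIofList] at h1
      intro Q hQ
      refine h1 ⟨hQ, ?_⟩
      refine mem_smul_suppSub _ _ _ hQ.1 ?_
      have h2 : cc k D ι Q = 0 := by
        refine hJ0 _ ?_ ?_
        · intro i hi
          rw [cc_apply, hQ.1 i hi, coeff_zero]
        · exact ⟨Q, hQ.2, rfl⟩
      intro i
      rw [← pow_one (idealOfVars (Fin D) k), mem_pow_idealOfVars_iff']
      intro x hx
      have hx0 : x = 0 := by
        have : Finsupp.degree x = 0 := by omega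
        exact (Finsupp.degree_eq_zero_iff x).1 this
      subst hx0
      exact congrFun h2 i
    have hKn : ∀ n : ℕ, F ⊓ N ≤ (idealOfVars (Fin D) k ^ n) • ⊤ := by
      intro n
      induction n with
      | zero =>
        rw [pow_zero, Ideal.one_eq_top, Submodule.top_smul]
        exact le_top
      | succ n ih =>
        refine hKm.trans ?_
        refine (Submodule.smul_mono le_rfl ih).trans ?_
        rw [← Submodule.mul_smul, ← pow_succ']
    intro Q hQN hQJ
    ext1 i
    ext1 x
    rw [Pi.zero_apply, coeff_zero]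
    have h1 := mem_smul_top _ Q (hKn (Finsupp.degree x + 1) ⟨hQJ, hQN⟩) i
    rw [mem_pow_idealOfVars_iff'] at h1
    exact h1 x (Nat.lt_succ_self _)

end Pool.Agent.H4.Atiyah
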