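import Pool.Agent.H4.Atiyah.CFRStandard
import Pool.Agent.H4.Atiyah.GradedBasis
import Pool.Agent.H4.Atiyah.DepthStep

set_option autoImplicit false

open CategoryTheory

namespace Pool.Agent.H4.Atiyah

namespace CFR

variable {k : Type} [Field k] {D : ℕ} {A : Type} [Ring A] (c : CFR k D A)

section basics

variable {ι : Type} (s : ι → ℕ)

theorem F_anti {m n : ℕ} (h : m ≤ n) : c.F n ≤ c.F m :=
  antitone_nat_of_succ_le c.F_succ h

theorem mem_F_zero_pd (a : A) : a ∈ c.F 0 := by rw [c.F_zero]; trivial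

theorem mem_Ft_pd {t : ℕ} {v : ι → A} : v ∈ c.Ft s t ↔ ∀ i, v i ∈ c.F (t - s i) := by
  simp [Ft, AddSubgroup.mem_pi]

theorem mem_Ft_zero_pd (v : ι → A) : v ∈ c.Ft s 0 := by
  rw [mem_Ft_pd]
  intro i
  rw [Nat.zero_sub]
  exact c.mem_F_zero_pd _

theorem Ft_anti_pd {t u : ℕ} (h : t ≤ u) : c.Ft s u ≤ c.Ft s t := by
  intro v hv
  rw [mem_Ft_pd] at hv ⊢
  intro i
  exact c.F_anti (by omega) (hv i)

theorem sym_zero_pd (n : ℕ) : c.sym n 0 = 0 :=
  (c.sym_eq_zero (zero_mem (c.F n))).2 (zero_mem _)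

theorem sym_neg_pd {n : ℕ} {a : A} (ha : a ∈ c.F n) : c.sym n (-a) = - c.sym n a := by
  have h := c.sym_add ha (neg_mem ha)
  rw [add_neg_cancel, c.sym_zero_pd] at h
  exact (neg_eq_of_add_eq_zero_right h.symm).symm

theorem sym_sub' {n : ℕ} {a b : A} (ha : a ∈ c.F n) (hb : b ∈ c.F n) :
    c.sym n (a - b) = c.sym n a - c.sym n b := by
  rw [sub_eq_add_neg, c.sym_add ha (neg_mem hb), c.sym_neg_pd hb, sub_eq_add_neg]

theorem symt_sub_pd {t : ℕ} {v w : ι → A} (hv : v ∈ c.Ft s t) (hw : w ∈ c.Ft s t) :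
    c.symt s t (v - w) = c.symt s t v - c.symt s t w := by
  rw [mem_Ft_pd] at hv hw
  funext i
  simp only [symt, Pi.sub_apply]
  split_ifs with h
  · exact c.sym_sub' (hv i) (hw i)
  · simp

theorem symt_zero_pd (t : ℕ) : c.symt s t (0 : ι → A) = 0 := by
  funext i
  simp [symt, c.sym_zero_pd]

theorem symt_eq_zero_pd {t : ℕ} {v : ι → A} (hv : v ∈ c.Ft s t) :
    c.symt s t v = 0 ↔ v ∈ c.Ft s (t + 1) := by
  have hv' := hv
  rw [mem_Ft_pd] at hv ⊢
  constructor
  · intro h i
    by_cases hi : s i ≤ t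
    · have h1 := congrFun h i
      simp only [symt, hi, if_true, Pi.zero_apply] at h1
      have h2 := (c.sym_eq_zero (hv i)).1 h1
      have : t + 1 - s i = t - s i + 1 := by omega
      rw [this]
      exact h2
    · have : t + 1 - s i = 0 := by omega
      rw [this]
      exact c.mem_F_zero_pd _
  · intro h
    funext i
    simp only [symt, Pi.zero_apply]
    split_ifs with hi
    · have h1 := h i
      have : t + 1 - s i = t - s i + 1 := by omega
      rw [this] at h1
      exact (c.sym_eq_zero (hv i)).2 h1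
    · rfl

theorem compt_symt_pd {t : ℕ} {v : ι → A} (hv : v ∈ c.Ft s t) (u : ℕ) :
    compt s u (c.symt s t v) = if u = t then c.symt s t v else 0 := by
  rw [mem_Ft_pd] at hv
  funext i
  simp only [compt, symt]
  by_cases hu : s i ≤ u
  · by_cases ht : s i ≤ t
    · rw [if_pos hu, if_pos ht]
      have hh := c.sym_homog (hv i)
      by_cases hut : u = t
      · subst hut
        rw [if_pos rfl, symt, if_pos hu]
        rw [MvPolynomial.homogeneousComponent_of_mem hh, if_pos rfl]
      · rw [if_neg hut, Pi.zero_apply]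
        rw [MvPolynomial.homogeneousComponent_of_mem hh, if_neg]
        omega
    · rw [if_pos hu, if_neg ht, map_zero]
      split_ifs
      · rw [symt, if_neg ht]
      · rfl
  · rw [if_neg hu]
    split_ifs with h
    · rw [symt, if_neg (by omega)]
    · rfl

theorem compt_sub {t : ℕ} (P Q : ι → MvPolynomial (Fin D) k) :
    compt s t (P - Q) = compt s t P - compt s t Q := by
  funext i
  simp only [compt, Pi.sub_apply]
  split_ifs
  · rw [map_sub]
  · simp

theorem compt_compt {t u : ℕ} (P : ι → MvPolynomial (Fin D) k) :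
    compt s u (compt s t P) = if u = t then compt s t P else 0 := by
  by_cases hut : u = t
  · subst hut
    rw [if_pos rfl]
    funext i
    by_cases hu : s i ≤ u
    · simp only [compt, if_pos hu]
      rw [MvPolynomial.homogeneousComponent_of_mem
        (MvPolynomial.homogeneousComponent_isHomogeneous (u - s i) (P i)), if_pos rfl]
    · simp only [compt, if_neg hu]
  · rw [if_neg hut]
    funext i
    by_cases hu : s i ≤ u
    · by_cases ht : s i ≤ t
      · simp only [compt, if_pos hu, if_pos ht, Pi.zero_apply]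
        rw [MvPolynomial.homogeneousComponent_of_mem
          (MvPolynomial.homogeneousComponent_isHomogeneous (t - s i) (P i)), if_neg]
        omega
      · simp only [compt, if_pos hu, if_neg ht, map_zero, Pi.zero_apply]
    · simp only [compt, if_neg hu, Pi.zero_apply]

/-- the filtration is separated -/
theorem Ft_sep_pd {v : ι → A} (h : ∀ t, v ∈ c.Ft s t) : v = 0 := by
  funext i
  refine c.sep _ fun n => ?_
  have := (c.mem_Ft_pd s).1 (h (n + s i)) i
  rwa [Nat.add_sub_cancel] at this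

/-- completeness for shifted sequences -/
theorem complete_shift_pd (m : ℕ) (a : ℕ → A) (ha : ∀ t, a t ∈ c.F (t - m)) :
    ∃ S : A, ∀ n, S - ∑ t ∈ Finset.range n, a t ∈ c.F (n - m) := by
  obtain ⟨S, hS⟩ := c.complete (fun u => a (u + m)) (fun u => by
    have := ha (u + m)
    rwa [Nat.add_sub_cancel] at this)
  refine ⟨S + ∑ t ∈ Finset.range m, a t, fun n => ?_⟩
  rcases le_total m n with h | h
  · obtain ⟨u, rfl⟩ := Nat.exists_eq_add_of_le h
    rw [Finset.sum_range_add, Nat.add_sub_cancel_left]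
    have := hS u
    have h2 : S + ∑ t ∈ Finset.range m, a t -
        (∑ t ∈ Finset.range m, a t + ∑ x ∈ Finset.range u, a (m + x)) =
        S - ∑ x ∈ Finset.range u, a (x + m) := by
      have h3 : ∑ x ∈ Finset.range u, a (m + x) = ∑ x ∈ Finset.range u, a (x + m) :=
        Finset.sum_congr rfl fun x _ => by rw [add_comm]
      rw [h3]
      abel
    rw [h2]
    exact this
  · rw [Nat.sub_eq_zero_of_le h]
    exact c.mem_F_zero_pd _

theorem complete_Ft_pd [Fintype ι] (a : ℕ → ι → A) (ha : ∀ t, a t ∈ c.Ft s t) :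
    ∃ S : ι → A, ∀ n, S - ∑ t ∈ Finset.range n, a t ∈ c.Ft s n := by
  have h : ∀ i, ∃ S : A, ∀ n, S - ∑ t ∈ Finset.range n, a t i ∈ c.F (n - s i) := fun i =>
    c.complete_shift_pd (s i) (fun t => a t i) fun t => (c.mem_Ft_pd s).1 (ha t) i
  choose S hS using h
  refine ⟨S, fun n => ?_⟩
  rw [mem_Ft_pd]
  intro i
  simpa [Finset.sum_apply] using hS i n

theorem sum_smul_mem_Ft {n' : ℕ} (s' : Fin n' → ℕ) (f : Fin n' → (ι → A))
    (hf : ∀ j, f j ∈ c.Ft s (s' j)) {t : ℕ} {a : Fin n' → A} (ha : a ∈ c.Ft s' t) :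
    ∑ j, a j • f j ∈ c.Ft s t := by
  refine sum_mem fun j _ => ?_
  rw [mem_Ft_pd]
  intro i
  have h1 := (c.mem_Ft_pd s').1 ha j
  have h2 := (c.mem_Ft_pd s).1 (hf j) i
  exact c.F_anti (by omega) (c.mul_mem h1 h2)

end basics

/-- submodules of free modules are closed -/
theorem mem_of_closed {ι : Type} [Fintype ι] (s : ι → ℕ) (N : Submodule A (ι → A)) (w : ι → A)
    (h : ∀ t, ∃ ν ∈ N, w - ν ∈ c.Ft s t) : w ∈ N := by
  obtain ⟨n', s', f, hf, hstrict, -, -⟩ := c.exists_standard_basis s N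
  choose ν hν hwν using h
  have hd : ∀ t, ν (t + 1) - ν t ∈ c.Ft s t := by
    intro t
    have h1 := c.Ft_anti_pd s (Nat.le_succ t) (hwν (t + 1))
    have h2 := sub_mem (hwν t) h1
    have h3 : w - ν t - (w - ν (t + 1)) = ν (t + 1) - ν t := by abel
    rwa [h3] at h2
  have hd' := fun t => hstrict t (ν (t + 1) - ν t) (sub_mem (hν (t + 1)) (hν t)) (hd t)
  choose a ha hsum using hd'
  obtain ⟨b, -, hb⟩ := hstrict 0 (ν 0) (hν 0) (c.mem_Ft_zero_pd s _)
  obtain ⟨S, hS⟩ := c.complete_Ft_pd s' a ha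
  have key : w = ∑ j, (b j + S j) • f j := by
    rw [← sub_eq_zero]
    refine c.Ft_sep_pd s fun t => ?_
    have htel : ν t = ν 0 + ∑ u ∈ Finset.range t, ∑ j, a u j • f j := by
      rw [Finset.sum_congr rfl fun u _ => (hsum u).symm, Finset.sum_range_sub]
      abel
    have h1 : w - ∑ j, (b j + S j) • f j =
        (w - ν t) - ∑ j, (S j - (∑ u ∈ Finset.range t, a u) j) • f j := by
      rw [htel, hb]
      simp only [add_smul, sub_smul, Finset.sum_add_distrib, Finset.sum_sub_distrib,
        Finset.sum_apply, Finset.sum_smul]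
      rw [Finset.sum_comm (s := Finset.range t)]
      abel
    rw [h1]
    exact sub_mem (hwν t) (c.sum_smul_mem_Ft s s' f (fun j => (hf j).2) (hS t))
  rw [key]
  exact sum_mem fun j _ => N.smul_mem _ (hf j).1

theorem InSym_symt {ι : Type} (s : ι → ℕ) (N : Submodule A (ι → A)) {t : ℕ} {v : ι → A}
    (hv : v ∈ N) (hvt : v ∈ c.Ft s t) : c.InSym s N (c.symt s t v) := by
  intro u
  rw [c.compt_symt_pd s hvt]
  split_ifs with h
  · subst h
    exact ⟨v, hv, hvt, rfl⟩
  · exact ⟨0, zero_mem _, zero_mem _, c.symt_zero_pd s u⟩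

theorem InSym_compt {ι : Type} (s : ι → ℕ) (N : Submodule A (ι → A)) {P : ι → MvPolynomial (Fin D) k}
    (hP : c.InSym s N P) (t : ℕ) : c.InSym s N (compt s t P) := by
  intro u
  rw [compt_compt s]
  split_ifs with h
  · subst h
    exact hP u
  · exact ⟨0, zero_mem _, zero_mem _, c.symt_zero_pd s u⟩

/-- the base case: if the quotient by the symbols is free on `J`, so is the quotient -/
theorem projective_quotient {n : ℕ} (s : Fin n → ℕ) (N : Submodule A (Fin n → A)) (J : Set (Fin n))
    (hJ1 : ∀ P : Fin n → MvPolynomial (Fin D) k, ∃ Q, (∀ i ∉ J, Q i = 0) ∧ c.InSym s N (P - Q))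
    (hJ2 : ∀ Q : Fin n → MvPolynomial (Fin D) k, c.InSym s N Q → (∀ i ∉ J, Q i = 0) → Q = 0) :
    Module.Projective A ((Fin n → A) ⧸ N) := by
  classical
  -- the map `A^J → A^n / N`
  let e : (J → A) →ₗ[A] (Fin n → A) :=
    { toFun := fun a i => if h : i ∈ J then a ⟨i, h⟩ else 0
      map_add' := by
        intro a b
        funext i
        by_cases h : i ∈ J <;> simp [h]
      map_smul' := by
        intro r a
        funext i
        by_cases h : i ∈ J <;> simp [h] }
  have he : ∀ a, ∀ i ∉ J, e a i = 0 := by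
    intro a i hi
    simp [e, hi]
  have he' : ∀ w : Fin n → A, (∀ i ∉ J, w i = 0) → e (fun i => w i) = w := by
    intro w hw
    funext i
    by_cases h : i ∈ J
    · simp [e, h]
    · simp [e, h, hw i h]
  have hinj : Function.Injective (N.mkQ ∘ₗ e) := by
    rw [injective_iff_map_eq_zero]
    intro a ha
    rw [LinearMap.comp_apply, Submodule.mkQ_apply, Submodule.Quotient.mk_eq_zero] at ha
    have h0 : e a = 0 := by
      refine c.Ft_sep_pd s fun t => ?_
      induction t with
      | zero => exact c.mem_Ft_zero_pd s _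
      | succ t ih =>
        rw [← c.symt_eq_zero_pd s ih]
        refine hJ2 _ (c.InSym_symt s N ha ih) fun i hi => ?_
        simp [symt, he a i hi, c.sym_zero_pd]
    funext i
    have := congrFun h0 i
    simpa [e] using this
  have hstep : ∀ t, ∀ v ∈ c.Ft s t, ∃ a ν : Fin n → A, (∀ i ∉ J, a i = 0) ∧ a ∈ c.Ft s t ∧
      ν ∈ N ∧ ν ∈ c.Ft s t ∧ v - a - ν ∈ c.Ft s (t + 1) := by
    intro t v hv
    obtain ⟨Q, hQJ, hQ⟩ := hJ1 (c.symt s t v)
    obtain ⟨ν, hνN, hνt, hν⟩ := hQ t
    rw [compt_sub, c.compt_symt_pd s hv, if_pos rfl] at hν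
    have hlift : ∀ i, ∃ x : A, x ∈ c.F (t - s i) ∧ (i ∉ J → x = 0) ∧
        (s i ≤ t → c.sym (t - s i) x = compt s t Q i) := by
      intro i
      by_cases hi : i ∈ J ∧ s i ≤ t
      · obtain ⟨x, hx, hxs⟩ := c.sym_surj (t - s i) (compt s t Q i) (by
          simp only [compt, hi.2, if_true]
          exact MvPolynomial.homogeneousComponent_isHomogeneous _ _)
        exact ⟨x, hx, fun h => absurd hi.1 h, fun _ => hxs⟩
      · refine ⟨0, zero_mem _, fun _ => rfl, fun h => ?_⟩
        have hiJ : i ∉ J := fun h' => hi ⟨h', h⟩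
        rw [c.sym_zero_pd]
        simp [compt, h, hQJ i hiJ]
    choose a ha1 ha2 ha3 using hlift
    have hat : a ∈ c.Ft s t := (c.mem_Ft_pd s).2 ha1
    have hsa : c.symt s t a = compt s t Q := by
      funext i
      simp only [symt]
      split_ifs with h
      · exact ha3 i h
      · simp [compt, h]
    refine ⟨a, ν, ha2, hat, hνN, hνt, ?_⟩
    rw [← c.symt_eq_zero_pd s (sub_mem (sub_mem hv hat) hνt), c.symt_sub_pd s (sub_mem hv hat) hνt,
      c.symt_sub_pd s hv hat, hν, hsa]
    abel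
  have hsurj : Function.Surjective (N.mkQ ∘ₗ e) := by
    intro q
    obtain ⟨v, rfl⟩ := N.mkQ_surjective q
    choose a ν h1 h2 h3 h4 h5 using hstep
    -- successive approximation
    let w : ∀ t : ℕ, {w : Fin n → A // w ∈ c.Ft s t} := fun t => Nat.rec ⟨v, c.mem_Ft_zero_pd s v⟩
      (fun t w => ⟨w.1 - a t w.1 w.2 - ν t w.1 w.2, h5 t w.1 w.2⟩) t
    have hw0 : (w 0).1 = v := rfl
    have hws : ∀ t, (w (t + 1)).1 = (w t).1 - a t (w t).1 (w t).2 - ν t (w t).1 (w t).2 :=
      fun t => rfl
    obtain ⟨S, hS⟩ := c.complete_Ft_pd s (fun t => a t (w t).1 (w t).2) fun t => h2 t _ _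
    have hSJ : ∀ i ∉ J, S i = 0 := by
      intro i hi
      refine c.sep _ fun m => ?_
      have h6 := (c.mem_Ft_pd s).1 (hS (m + s i)) i
      rw [Nat.add_sub_cancel, Pi.sub_apply, Finset.sum_apply, Finset.sum_eq_zero
        (fun t _ => h1 t _ _ i hi), sub_zero] at h6
      exact h6
    refine ⟨fun i => S i, ?_⟩
    rw [LinearMap.comp_apply, he' S hSJ]
    symm
    rw [← sub_eq_zero, ← map_sub, Submodule.mkQ_apply, Submodule.Quotient.mk_eq_zero]
    refine c.mem_of_closed s N _ fun t => ?_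
    refine ⟨∑ u ∈ Finset.range t, ν u (w u).1 (w u).2, sum_mem fun u _ => h3 u _ _, ?_⟩
    have htel : (w t).1 = v - ∑ u ∈ Finset.range t, a u (w u).1 (w u).2 -
        ∑ u ∈ Finset.range t, ν u (w u).1 (w u).2 := by
      induction t with
      | zero => simp [hw0]
      | succ t ih =>
        rw [hws, Finset.sum_range_succ, Finset.sum_range_succ]
        generalize a t (w t).1 (w t).2 = x
        generalize ν t (w t).1 (w t).2 = y
        rw [ih]
        abel
    have h7 : v - S - ∑ u ∈ Finset.range t, ν u (w u).1 (w u).2 =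
        (w t).1 - (S - ∑ u ∈ Finset.range t, a u (w u).1 (w u).2) := by
      rw [htel]
      abel
    rw [h7]
    exact sub_mem (w t).2 (hS t)
  exact Module.Projective.of_equiv (LinearEquiv.ofBijective (N.mkQ ∘ₗ e) ⟨hinj, hsurj⟩)

theorem hasProjectiveDimensionLT_aux (e : ℕ) : ∀ (_ : e ≤ D) (n : ℕ) (s : Fin n → ℕ)
    (N : Submodule A (Fin n → A))
    (L : Submodule (MvPolynomial (Fin D) k) (Fin n → MvPolynomial (Fin D) k))
    (_ : ∀ P, P ∈ L ↔ c.InSym s N P)
    (_ : RingTheory.Sequence.IsWeaklyRegular ((Fin n → MvPolynomial (Fin D) k) ⧸ L)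
      ((List.ofFn fun i : Fin D => (MvPolynomial.X i : MvPolynomial (Fin D) k)).take (D - e))),
    HasProjectiveDimensionLT (ModuleCat.of A ((Fin n → A) ⧸ N)) (e + 1) := by
  induction e with
  | zero =>
    intro _ n s N L hL hreg
    rw [Nat.sub_zero, List.take_of_length_le (by simp)] at hreg
    obtain ⟨J, hJ1, hJ2⟩ := exists_graded_basis s L
      (fun P hP t => (hL _).2 (c.InSym_compt s N ((hL P).1 hP) t)) hreg
    have := c.projective_quotient s N J
      (fun P => by
        obtain ⟨Q, hQ, hQL⟩ := hJ1 P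
        exact ⟨Q, hQ, (hL _).1 hQL⟩)
      (fun Q hQ => hJ2 Q ((hL Q).2 hQ))
    have : Projective (ModuleCat.of A ((Fin n → A) ⧸ N)) :=
      ModuleCat.projective_of_categoryTheory_projective _
    infer_instance
  | succ e ih =>
    intro he n s N L hL hreg
    obtain ⟨n', s', f, hf, hstrict, hgen, hrel⟩ := c.exists_standard_basis s N
    let S := MvPolynomial (Fin D) k
    let φ : (Fin n' → S) →ₗ[S] (Fin n → S) :=
      Fintype.linearCombination S (fun j => c.symt s (s' j) (f j))
    have hφ : ∀ Q, φ Q = ∑ j, Q j • c.symt s (s' j) (f j) := fun Q => rfl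
    have hrange : LinearMap.range φ = L := by
      ext P
      rw [hL, hgen, LinearMap.mem_range]
      exact ⟨fun ⟨Q, hQ⟩ => ⟨Q, hQ.symm⟩, fun ⟨Q, hQ⟩ => ⟨Q, hQ.symm⟩⟩
    have hreg' : RingTheory.Sequence.IsWeaklyRegular L
      ((List.ofFn fun i : Fin D => (MvPolynomial.X i : MvPolynomial (Fin D) k)).take (D - e)) := by
      have h1 := depth_step L (D - (e + 1)) (by omega) hreg
      have h2 : D - (e + 1) + 1 = D - e := by omega
      rwa [h2] at h1
    have hreg'' : RingTheory.Sequence.IsWeaklyRegular ((Fin n' → S) ⧸ LinearMap.ker φ)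
      ((List.ofFn fun i : Fin D => (MvPolynomial.X i : MvPolynomial (Fin D) k)).take (D - e)) := by
      have e1 : ((Fin n' → S) ⧸ LinearMap.ker φ) ≃ₗ[S] LinearMap.range φ := φ.quotKerEquivRange
      rw [e1.isWeaklyRegular_congr, hrange]
      exact hreg'
    have h3 := ih (by omega) n' s' (LinearMap.ker (Fintype.linearCombination A f))
      (LinearMap.ker φ) (fun Q => by rw [LinearMap.mem_ker, hφ, hrel]) hreg''
    -- `A^{n'} / N' ≃ N`
    have hr : LinearMap.range (Fintype.linearCombination A f) = N := by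
      apply le_antisymm
      · rintro _ ⟨a, rfl⟩
        rw [Fintype.linearCombination_apply]
        exact sum_mem fun j _ => N.smul_mem _ (hf j).1
      · intro v hv
        obtain ⟨a, -, ha⟩ := hstrict 0 v hv (c.mem_Ft_zero_pd s v)
        exact ⟨a, by rw [Fintype.linearCombination_apply]; exact ha.symm⟩
    have e2 : ((Fin n' → A) ⧸ LinearMap.ker (Fintype.linearCombination A f)) ≃ₗ[A]
        LinearMap.ker N.mkQ :=
      (Fintype.linearCombination A f).quotKerEquivRange.trans
        (LinearEquiv.ofEq _ _ (by rw [hr, Submodule.ker_mkQ]))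
    have h4 : HasProjectiveDimensionLT (ModuleCat.of A (LinearMap.ker N.mkQ)) (e + 1) :=
      hasProjectiveDimensionLT_of_iso e2.toModuleIso (e + 1)
    have hS := LinearMap.shortExact_shortComplexKer (f := N.mkQ) N.mkQ_surjective
    have : Projective (ModuleCat.of A (Fin n → A)) :=
      ModuleCat.projective_of_categoryTheory_projective _
    exact hS.hasProjectiveDimensionLT_X₃ (e + 1) h4
      (hasProjectiveDimensionLT_of_ge _ 1 _ (by omega))

include c in
theorem hasProjectiveDimensionLT (M : Type) [AddCommGroup M] [Module A M] [Module.Finite A M] :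
    HasProjectiveDimensionLT (ModuleCat.of A M) (D + 1) := by
  obtain ⟨n, g, hg⟩ := Module.Finite.exists_fin' A M
  obtain ⟨n', s', f, hf, hstrict, hgen, hrel⟩ :=
    c.exists_standard_basis (fun _ : Fin n => 0) (LinearMap.ker g)
  let S := MvPolynomial (Fin D) k
  let φ : (Fin n' → S) →ₗ[S] (Fin n → S) :=
    Fintype.linearCombination S (fun j => c.symt (fun _ => 0) (s' j) (f j))
  have h := c.hasProjectiveDimensionLT_aux D le_rfl n (fun _ => 0) (LinearMap.ker g)
    (LinearMap.range φ) (fun P => by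
      rw [hgen, LinearMap.mem_range]
      exact ⟨fun ⟨Q, hQ⟩ => ⟨Q, hQ.symm⟩, fun ⟨Q, hQ⟩ => ⟨Q, hQ.symm⟩⟩) (by
      rw [Nat.sub_self, List.take_zero]
      exact RingTheory.Sequence.IsWeaklyRegular.nil _ _)
  have e1 : ((Fin n → A) ⧸ LinearMap.ker g) ≃ₗ[A] M := g.quotKerEquivOfSurjective hg
  exact hasProjectiveDimensionLT_of_iso e1.toModuleIso (D + 1)

end CFR

end Pool.Agent.H4.Atiyah
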