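import Pool.Agent.H4.Atiyah.Filt

/-!
# Standard bases over complete filtered rings
-/

set_option autoImplicit false

namespace Pool.Agent.H4.Atiyah

namespace CFR

variable {k : Type} [Field k] {D : ℕ} {A : Type} [Ring A] (c : CFR k D A)

/-- filtration with shifts `s` on the free module `ι → A` -/
def Ft {ι : Type} (s : ι → ℕ) (t : ℕ) : AddSubgroup (ι → A) :=
  AddSubgroup.pi Set.univ fun i => c.F (t - s i)

/-- symbols with shifts -/
noncomputable def symt {ι : Type} (s : ι → ℕ) (t : ℕ) (v : ι → A) : ι → MvPolynomial (Fin D) k :=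
  fun i => if s i ≤ t then c.sym (t - s i) (v i) else 0

end CFR

/-- homogeneous component of degree `t` of a vector of polynomials, with shifts `s` -/
noncomputable def compt {k : Type} [Field k] {D : ℕ} {ι : Type} (s : ι → ℕ) (t : ℕ)
    (P : ι → MvPolynomial (Fin D) k) : ι → MvPolynomial (Fin D) k :=
  fun i => if s i ≤ t then MvPolynomial.homogeneousComponent (t - s i) (P i) else 0

namespace CFR

variable {k : Type} [Field k] {D : ℕ} {A : Type} [Ring A] (c : CFR k D A)

/-- membership in the module of symbols of a submodule `N` -/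
def InSym {ι : Type} (s : ι → ℕ) (N : Submodule A (ι → A)) (P : ι → MvPolynomial (Fin D) k) :
    Prop :=
  ∀ t, ∃ v ∈ N, v ∈ c.Ft s t ∧ c.symt s t v = compt s t P

end CFR

/-! ### homogeneous components with shifts -/

section Compt

variable {k : Type} [Field k] {D : ℕ}

theorem hc_mul_of_isHomogeneous {Q P : MvPolynomial (Fin D) k} {u : ℕ} (hQ : Q.IsHomogeneous u)
    (m : ℕ) : MvPolynomial.homogeneousComponent (u + m) (Q * P) =
      Q * MvPolynomial.homogeneousComponent m P := by
  conv_lhs => rw [← MvPolynomial.sum_homogeneousComponent P]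
  rw [Finset.mul_sum, map_sum]
  have h1 : ∀ i ∈ Finset.range (P.totalDegree + 1),
      MvPolynomial.homogeneousComponent (u + m) (Q * MvPolynomial.homogeneousComponent i P) =
        if i = m then Q * MvPolynomial.homogeneousComponent m P else 0 := by
    intro i _
    have h2 : Q * MvPolynomial.homogeneousComponent i P ∈
        MvPolynomial.homogeneousSubmodule (Fin D) k (u + i) :=
      hQ.mul (MvPolynomial.homogeneousComponent_isHomogeneous i P)
    rw [MvPolynomial.homogeneousComponent_of_mem h2]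
    by_cases h : i = m
    · subst h; simp
    · rw [if_neg h, if_neg (by omega)]
  rw [Finset.sum_congr rfl h1, Finset.sum_ite_eq']
  split_ifs with h
  · rfl
  · rw [MvPolynomial.homogeneousComponent_eq_zero, mul_zero]
    simpa using h

theorem hc_mul_of_isHomogeneous_of_lt {Q P : MvPolynomial (Fin D) k} {u : ℕ}
    (hQ : Q.IsHomogeneous u) {m : ℕ} (hm : m < u) :
    MvPolynomial.homogeneousComponent m (Q * P) = 0 := by
  conv_lhs => rw [← MvPolynomial.sum_homogeneousComponent P]
  rw [Finset.mul_sum, map_sum]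
  refine Finset.sum_eq_zero fun i _ => ?_
  have h2 : Q * MvPolynomial.homogeneousComponent i P ∈
      MvPolynomial.homogeneousSubmodule (Fin D) k (u + i) :=
    hQ.mul (MvPolynomial.homogeneousComponent_isHomogeneous i P)
  rw [MvPolynomial.homogeneousComponent_of_mem h2, if_neg (by omega)]

variable {ι : Type} (s : ι → ℕ)

theorem compt_add (t : ℕ) (P Q : ι → MvPolynomial (Fin D) k) :
    compt s t (P + Q) = compt s t P + compt s t Q := by
  funext i
  simp only [compt, Pi.add_apply]
  split_ifs <;> simp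

theorem compt_zero (t : ℕ) : compt s t (0 : ι → MvPolynomial (Fin D) k) = 0 := by
  funext i
  simp only [compt, Pi.zero_apply]
  split_ifs <;> simp

theorem compt_sum {κ : Type*} (J : Finset κ) (t : ℕ) (P : κ → ι → MvPolynomial (Fin D) k) :
    compt s t (∑ j ∈ J, P j) = ∑ j ∈ J, compt s t (P j) := by
  classical
  induction J using Finset.induction_on with
  | empty => simp [compt_zero]
  | insert a J ha ih => rw [Finset.sum_insert ha, Finset.sum_insert ha, compt_add, ih]

theorem compt_compt (t u : ℕ) (P : ι → MvPolynomial (Fin D) k) :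
    compt s t (compt s u P) = if t = u then compt s u P else 0 := by
  funext i
  by_cases h : t = u
  · subst h
    rw [if_pos rfl]
    simp only [compt]
    split_ifs with h1
    · rw [MvPolynomial.homogeneousComponent_of_mem
        (MvPolynomial.homogeneousComponent_mem (n := t - s i) (φ := P i)), if_pos rfl]
    · rfl
  · rw [if_neg h]
    simp only [compt, Pi.zero_apply]
    by_cases h1 : s i ≤ t
    · rw [if_pos h1]
      by_cases h2 : s i ≤ u
      · rw [if_pos h2, MvPolynomial.homogeneousComponent_of_mem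
          (MvPolynomial.homogeneousComponent_mem (n := u - s i) (φ := P i)), if_neg (by omega)]
      · rw [if_neg h2, map_zero]
    · rw [if_neg h1]

/-- a homogeneous polynomial times a vector -/
theorem compt_smul_of_isHomogeneous {Q : MvPolynomial (Fin D) k} {u : ℕ}
    (hQ : Q.IsHomogeneous u) (t : ℕ) (P : ι → MvPolynomial (Fin D) k) :
    compt s (u + t) (Q • P) = Q • compt s t P := by
  funext i
  simp only [compt, Pi.smul_apply, smul_eq_mul]
  by_cases h1 : s i ≤ t
  · rw [if_pos h1, if_pos (by omega), show u + t - s i = u + (t - s i) by omega,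
      hc_mul_of_isHomogeneous hQ]
  · rw [if_neg h1, mul_zero]
    split_ifs with h2
    · exact hc_mul_of_isHomogeneous_of_lt hQ (by omega)
    · rfl

theorem compt_smul_of_isHomogeneous_of_lt {Q : MvPolynomial (Fin D) k} {u : ℕ}
    (hQ : Q.IsHomogeneous u) {t : ℕ} (ht : t < u) (P : ι → MvPolynomial (Fin D) k) :
    compt s t (Q • P) = 0 := by
  funext i
  simp only [compt, Pi.smul_apply, smul_eq_mul, Pi.zero_apply]
  split_ifs with h2
  · exact hc_mul_of_isHomogeneous_of_lt hQ (by omega)
  · rfl

/-- a bound for the degrees that occur in a vector -/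
theorem exists_compt_bound [Finite ι] (P : ι → MvPolynomial (Fin D) k) :
    ∃ T, ∀ t, T ≤ t → compt s t P = 0 := by
  classical
  have := Fintype.ofFinite ι
  refine ⟨∑ i, (s i + (P i).totalDegree + 1), fun t ht => ?_⟩
  funext i
  have h1 : s i + (P i).totalDegree + 1 ≤ t :=
    le_trans (Finset.single_le_sum (f := fun i => s i + (P i).totalDegree + 1)
      (fun _ _ => Nat.zero_le _) (Finset.mem_univ i)) ht
  simp only [compt, Pi.zero_apply]
  rw [if_pos (by omega), MvPolynomial.homogeneousComponent_eq_zero]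
  omega

theorem sum_compt (P : ι → MvPolynomial (Fin D) k) (T : ℕ) (hT : ∀ t, T ≤ t → compt s t P = 0) :
    ∑ t ∈ Finset.range T, compt s t P = P := by
  funext i
  rw [Finset.sum_apply]
  apply MvPolynomial.ext
  intro d
  rw [MvPolynomial.coeff_sum]
  have h1 : ∀ t, MvPolynomial.coeff d (compt s t P i) =
      if t = s i + d.degree then MvPolynomial.coeff d (P i) else 0 := by
    intro t
    simp only [compt]
    by_cases h : s i ≤ t
    · rw [if_pos h, MvPolynomial.coeff_homogeneousComponent]
      by_cases h2 : d.degree = t - s i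
      · rw [if_pos h2, if_pos (by omega)]
      · rw [if_neg h2, if_neg (by omega)]
    · rw [if_neg h, if_neg (by omega), MvPolynomial.coeff_zero]
  rw [Finset.sum_congr rfl fun t _ => h1 t, Finset.sum_ite_eq']
  split_ifs with h
  · rfl
  · have h2 : T ≤ s i + d.degree := by simpa using h
    have h3 := congrArg (MvPolynomial.coeff d) (congrFun (hT _ h2) i)
    rw [h1, if_pos rfl, Pi.zero_apply, MvPolynomial.coeff_zero] at h3
    exact h3.symm

theorem eq_zero_of_compt [Finite ι] (P : ι → MvPolynomial (Fin D) k)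
    (h : ∀ t, compt s t P = 0) : P = 0 := by
  rw [← sum_compt s P 0 fun t _ => h t]
  simp

/-- components of a combination of homogeneous vectors -/
theorem compt_smul_of_homogeneous_vector (Q : MvPolynomial (Fin D) k)
    (P : ι → MvPolynomial (Fin D) k) (s' : ℕ) (hP : compt s s' P = P) (t : ℕ) :
    compt s t (Q • P) =
      (if s' ≤ t then MvPolynomial.homogeneousComponent (t - s') Q else 0) • P := by
  have hP0 : ∀ u, u ≠ s' → compt s u P = 0 := by
    intro u hu
    rw [← hP, compt_compt, if_neg hu]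
  conv_lhs => rw [← MvPolynomial.sum_homogeneousComponent Q]
  rw [Finset.sum_smul, compt_sum]
  have h1 : ∀ i ∈ Finset.range (Q.totalDegree + 1),
      compt s t (MvPolynomial.homogeneousComponent i Q • P) =
        if i + s' = t then MvPolynomial.homogeneousComponent i Q • P else 0 := by
    intro i _
    have hi := MvPolynomial.homogeneousComponent_isHomogeneous i Q
    by_cases h : i ≤ t
    · obtain ⟨u, rfl⟩ := Nat.exists_eq_add_of_le h
      rw [compt_smul_of_isHomogeneous s hi]
      by_cases h2 : u = s'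
      · subst h2
        rw [hP, if_pos rfl]
      · rw [hP0 u h2, smul_zero, if_neg (by omega)]
    · rw [compt_smul_of_isHomogeneous_of_lt s hi (by omega), if_neg (by omega)]
  rw [Finset.sum_congr rfl h1]
  by_cases h : s' ≤ t
  · rw [if_pos h]
    have h3 : ∀ i ∈ Finset.range (Q.totalDegree + 1),
        (if i + s' = t then MvPolynomial.homogeneousComponent i Q • P else 0) =
        if i = t - s' then MvPolynomial.homogeneousComponent (t - s') Q • P else 0 := by
      intro i _
      by_cases h4 : i + s' = t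
      · have h5 : i = t - s' := by omega
        rw [if_pos h4, if_pos h5, h5]
      · rw [if_neg h4, if_neg (by omega)]
    rw [Finset.sum_congr rfl h3, Finset.sum_ite_eq']
    split_ifs with h6
    · rfl
    · rw [MvPolynomial.homogeneousComponent_eq_zero, zero_smul]
      rw [Finset.mem_range] at h6
      omega
  · rw [if_neg h, zero_smul]
    refine Finset.sum_eq_zero fun i _ => ?_
    rw [if_neg (by omega)]

end Compt

/-! ### filtrations and symbols with shifts -/

namespace CFR

variable {k : Type} [Field k] {D : ℕ} {A : Type} [Ring A] (c : CFR k D A)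

theorem F_anti' {m n : ℕ} (h : m ≤ n) : c.F n ≤ c.F m := antitone_nat_of_succ_le c.F_succ h

theorem sym_zero' (n : ℕ) : c.sym n 0 = 0 :=
  (c.sym_eq_zero (zero_mem (c.F n))).2 (zero_mem (c.F (n + 1)))

theorem sym_neg' {n : ℕ} {a : A} (ha : a ∈ c.F n) : c.sym n (-a) = -c.sym n a := by
  have h := c.sym_add ha (neg_mem ha)
  rw [add_neg_cancel, c.sym_zero'] at h
  exact (neg_eq_of_add_eq_zero_right h.symm).symm

section Vec

variable {ι : Type} (s : ι → ℕ)

theorem mem_Ft {t : ℕ} {v : ι → A} : v ∈ c.Ft s t ↔ ∀ i, v i ∈ c.F (t - s i) := by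
  simp [Ft, AddSubgroup.mem_pi]

theorem Ft_anti {t t' : ℕ} (h : t ≤ t') {v : ι → A} (hv : v ∈ c.Ft s t') : v ∈ c.Ft s t := by
  rw [mem_Ft] at hv ⊢
  exact fun i => c.F_anti' (by omega) (hv i)

theorem mem_Ft_zero (v : ι → A) : v ∈ c.Ft s 0 := by
  rw [mem_Ft]
  intro i
  rw [Nat.zero_sub, c.F_zero]
  exact AddSubgroup.mem_top _

theorem Ft_sep {v : ι → A} (h : ∀ t, v ∈ c.Ft s t) : v = 0 := by
  funext i
  refine c.sep _ fun n => ?_
  have h1 := (c.mem_Ft s).1 (h (n + s i)) i
  rwa [Nat.add_sub_cancel] at h1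

theorem symt_eq_zero {t : ℕ} {v : ι → A} (hv : v ∈ c.Ft s t) :
    c.symt s t v = 0 ↔ v ∈ c.Ft s (t + 1) := by
  rw [mem_Ft] at hv ⊢
  rw [funext_iff]
  refine forall_congr' fun i => ?_
  simp only [symt, Pi.zero_apply]
  by_cases h : s i ≤ t
  · rw [if_pos h, c.sym_eq_zero (hv i), show t + 1 - s i = t - s i + 1 by omega]
  · rw [if_neg h, show t + 1 - s i = 0 by omega, c.F_zero]
    simp

theorem symt_zero (t : ℕ) : c.symt s t (0 : ι → A) = 0 := by
  funext i
  simp only [symt, Pi.zero_apply, c.sym_zero', ite_self]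

theorem symt_add {t : ℕ} {v w : ι → A} (hv : v ∈ c.Ft s t) (hw : w ∈ c.Ft s t) :
    c.symt s t (v + w) = c.symt s t v + c.symt s t w := by
  rw [mem_Ft] at hv hw
  funext i
  simp only [symt, Pi.add_apply]
  split_ifs with h
  · exact c.sym_add (hv i) (hw i)
  · simp

theorem symt_neg {t : ℕ} {v : ι → A} (hv : v ∈ c.Ft s t) :
    c.symt s t (-v) = -c.symt s t v := by
  have h := c.symt_add s hv (neg_mem hv)
  rw [add_neg_cancel, c.symt_zero] at h
  exact (neg_eq_of_add_eq_zero_right h.symm).symm

theorem symt_sub {t : ℕ} {v w : ι → A} (hv : v ∈ c.Ft s t) (hw : w ∈ c.Ft s t) :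
    c.symt s t (v - w) = c.symt s t v - c.symt s t w := by
  rw [sub_eq_add_neg, c.symt_add s hv (neg_mem hw), c.symt_neg s hw, ← sub_eq_add_neg]

theorem symt_sum {κ : Type*} (J : Finset κ) {t : ℕ} {v : κ → ι → A}
    (hv : ∀ j ∈ J, v j ∈ c.Ft s t) :
    c.symt s t (∑ j ∈ J, v j) = ∑ j ∈ J, c.symt s t (v j) := by
  classical
  induction J using Finset.induction_on with
  | empty => simp [symt_zero]
  | insert a J ha ih =>
    rw [Finset.sum_insert ha, Finset.sum_insert ha,
      c.symt_add s (hv a (Finset.mem_insert_self a J))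
        (sum_mem fun j hj => hv j (Finset.mem_insert_of_mem hj)),
      ih fun j hj => hv j (Finset.mem_insert_of_mem hj)]

theorem smul_mem_Ft {u t : ℕ} {a : A} {v : ι → A} (ha : a ∈ c.F u) (hv : v ∈ c.Ft s t) :
    a • v ∈ c.Ft s (u + t) := by
  rw [mem_Ft] at hv ⊢
  intro i
  have h1 : a * v i ∈ c.F (u + (t - s i)) := c.mul_mem ha (hv i)
  exact c.F_anti' (by omega) h1

theorem symt_smul {u t : ℕ} {a : A} {v : ι → A} (ha : a ∈ c.F u) (hv : v ∈ c.Ft s t) :
    c.symt s (u + t) (a • v) = c.sym u a • c.symt s t v := by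
  rw [mem_Ft] at hv
  funext i
  simp only [symt, Pi.smul_apply, smul_eq_mul]
  by_cases h : s i ≤ t
  · rw [if_pos h, if_pos (by omega), show u + t - s i = u + (t - s i) by omega,
      c.sym_mul ha (hv i)]
  · rw [if_neg h, mul_zero]
    split_ifs with h2
    · have h3 : a * v i ∈ c.F u := by
        have := c.mul_mem ha (show v i ∈ c.F 0 by rw [c.F_zero]; exact AddSubgroup.mem_top _)
        simpa using this
      exact (c.sym_eq_zero (c.F_anti' (by omega) h3)).2 (c.F_anti' (by omega) h3)
    · rfl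

/-- symbols are homogeneous -/
theorem compt_symt {t : ℕ} {v : ι → A} (hv : v ∈ c.Ft s t) :
    compt s t (c.symt s t v) = c.symt s t v := by
  rw [mem_Ft] at hv
  funext i
  simp only [symt, compt]
  split_ifs with h
  · exact MvPolynomial.homogeneousComponent_eq_self (c.sym_homog (hv i))
  · rfl

theorem compt_symt_of_ne {t u : ℕ} (h : u ≠ t) {v : ι → A} (hv : v ∈ c.Ft s t) :
    compt s u (c.symt s t v) = 0 := by
  rw [← c.compt_symt s hv, compt_compt, if_neg h]

/-- homogeneous vectors are symbols -/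
theorem exists_symt_eq (t : ℕ) (P : ι → MvPolynomial (Fin D) k) :
    ∃ v ∈ c.Ft s t, c.symt s t v = compt s t P := by
  choose f hf1 hf2 using fun i => c.sym_surj (t - s i)
    (MvPolynomial.homogeneousComponent (t - s i) (P i))
    (MvPolynomial.homogeneousComponent_isHomogeneous _ _)
  refine ⟨f, (c.mem_Ft s).2 hf1, ?_⟩
  funext i
  simp only [symt, compt, hf2]

/-- completeness for shifted sequences -/
theorem complete_shift (t s' : ℕ) (w : ℕ → A) (hw : ∀ u, w u ∈ c.F (t + u - s')) :
    ∃ S : A, ∀ n, S - ∑ u ∈ Finset.range n, w u ∈ c.F (t + n - s') := by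
  obtain ⟨S, hS⟩ := c.complete (fun n => if n = 0 then ∑ u ∈ Finset.range (s' + 1), w u
    else w (s' + n)) (by
      intro n
      by_cases h : n = 0
      · subst h
        rw [c.F_zero]
        exact AddSubgroup.mem_top _
      · rw [if_neg h]
        exact c.F_anti' (by omega) (hw (s' + n)))
  have h1 : ∀ n, ∑ i ∈ Finset.range (n + 1), (if i = 0 then ∑ u ∈ Finset.range (s' + 1), w u
      else w (s' + i)) = ∑ u ∈ Finset.range (s' + 1 + n), w u := by
    intro n
    induction n with
    | zero => simp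
    | succ n ih =>
      rw [Finset.sum_range_succ, ih, if_neg (by omega), show s' + 1 + (n + 1) = s' + 1 + n + 1 by omega,
        Finset.sum_range_succ (fun u => w u) (s' + 1 + n), show s' + (n + 1) = s' + 1 + n by omega]
  refine ⟨S, fun n => ?_⟩
  -- compare with a large partial sum
  have h2 := hS (t + n + 1)
  rw [h1] at h2
  have h3 : ∑ u ∈ Finset.range (s' + 1 + (t + n)), w u - ∑ u ∈ Finset.range n, w u ∈
      c.F (t + n - s') := by
    rw [← Finset.sum_range_add_sum_Ico w (show n ≤ s' + 1 + (t + n) by omega), add_sub_cancel_left]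
    refine sum_mem fun u hu => ?_
    rw [Finset.mem_Ico] at hu
    exact c.F_anti' (by omega) (hw u)
  have h4 := add_mem (c.F_anti' (show t + n - s' ≤ t + n + 1 by omega) h2) h3
  rwa [sub_add_sub_cancel] at h4

/-- completeness for vectors -/
theorem complete_Ft (t : ℕ) (w : ℕ → ι → A) (hw : ∀ u, w u ∈ c.Ft s (t + u)) :
    ∃ S : ι → A, ∀ n, S - ∑ u ∈ Finset.range n, w u ∈ c.Ft s (t + n) := by
  choose S hS using fun i => c.complete_shift t (s i) (fun u => w u i)
    (fun u => (c.mem_Ft s).1 (hw u) i)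
  refine ⟨S, fun n => (c.mem_Ft s).2 fun i => ?_⟩
  have := hS i n
  simpa only [Pi.sub_apply, Finset.sum_apply] using this

/-- the module of symbols of a submodule -/
noncomputable def symSub [Finite ι] (N : Submodule A (ι → A)) :
    Submodule (MvPolynomial (Fin D) k) (ι → MvPolynomial (Fin D) k) where
  carrier := {P | c.InSym s N P}
  add_mem' := by
    intro P Q hP hQ t
    obtain ⟨v, hv, hv1, hv2⟩ := hP t
    obtain ⟨w, hw, hw1, hw2⟩ := hQ t
    exact ⟨v + w, add_mem hv hw, add_mem hv1 hw1, by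
      rw [c.symt_add s hv1 hw1, hv2, hw2, compt_add]⟩
  zero_mem' := fun t => ⟨0, zero_mem _, zero_mem _, by rw [c.symt_zero, compt_zero]⟩
  smul_mem' := by
    intro Q P hP
    -- homogeneous multiples
    have key : ∀ (R : MvPolynomial (Fin D) k) (u : ℕ), R.IsHomogeneous u →
        c.InSym s N (R • P) := by
      intro R u hR t
      by_cases h : u ≤ t
      · obtain ⟨t, rfl⟩ := Nat.exists_eq_add_of_le h
        obtain ⟨a, ha, ha2⟩ := c.sym_surj u R hR
        obtain ⟨v, hv, hv1, hv2⟩ := hP t
        exact ⟨a • v, N.smul_mem a hv, c.smul_mem_Ft s ha hv1, by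
          rw [c.symt_smul s ha hv1, ha2, hv2, compt_smul_of_isHomogeneous s hR]⟩
      · exact ⟨0, zero_mem _, zero_mem _, by
          rw [c.symt_zero, compt_smul_of_isHomogeneous_of_lt s hR (by omega)]⟩
    have hsum : ∀ J : Finset ℕ, c.InSym s N
        ((∑ i ∈ J, MvPolynomial.homogeneousComponent i Q) • P) := by
      intro J
      classical
      induction J using Finset.induction_on with
      | empty =>
        intro t
        exact ⟨0, zero_mem _, zero_mem _, by
          rw [c.symt_zero, Finset.sum_empty, zero_smul, compt_zero]⟩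
      | insert a J ha ih =>
        intro t
        obtain ⟨v, hv, hv1, hv2⟩ := key _ a (MvPolynomial.homogeneousComponent_isHomogeneous a Q) t
        obtain ⟨w, hw, hw1, hw2⟩ := ih t
        exact ⟨v + w, add_mem hv hw, add_mem hv1 hw1, by
          rw [c.symt_add s hv1 hw1, hv2, hw2, Finset.sum_insert ha, add_smul, compt_add]⟩
    have h := hsum (Finset.range (Q.totalDegree + 1))
    rwa [MvPolynomial.sum_homogeneousComponent] at h

theorem mem_symSub [Finite ι] {N : Submodule A (ι → A)} {P : ι → MvPolynomial (Fin D) k} :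
    P ∈ c.symSub s N ↔ c.InSym s N P := Iff.rfl

/-- symbols of elements belong to the module of symbols -/
theorem symt_mem_symSub [Finite ι] {N : Submodule A (ι → A)} {t : ℕ} {v : ι → A} (hv : v ∈ N)
    (hv1 : v ∈ c.Ft s t) : c.symt s t v ∈ c.symSub s N := by
  intro u
  by_cases h : u = t
  · subst h
    exact ⟨v, hv, hv1, (c.compt_symt s hv1).symm⟩
  · exact ⟨0, zero_mem _, zero_mem _, by rw [c.symt_zero, c.compt_symt_of_ne s h hv1]⟩

/-- combinations of elements with prescribed filtration -/
theorem comb_mem {n' : ℕ} {s' : Fin n' → ℕ} {f : Fin n' → (ι → A)}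
    (hf : ∀ j, f j ∈ c.Ft s (s' j)) {t : ℕ} {a : Fin n' → A} (ha : a ∈ c.Ft s' t) (j : Fin n') :
    a j • f j ∈ c.Ft s t := by
  have h := c.smul_mem_Ft s ((c.mem_Ft s').1 ha j) (hf j)
  exact c.Ft_anti s (by omega) h

theorem comb_symt {n' : ℕ} {s' : Fin n' → ℕ} {f : Fin n' → (ι → A)}
    (hf : ∀ j, f j ∈ c.Ft s (s' j)) {t : ℕ} {a : Fin n' → A} (ha : a ∈ c.Ft s' t) :
    ∑ j, a j • f j ∈ c.Ft s t ∧
      c.symt s t (∑ j, a j • f j) = ∑ j, c.symt s' t a j • c.symt s (s' j) (f j) := by
  refine ⟨sum_mem fun j _ => c.comb_mem s hf ha j, ?_⟩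
  rw [c.symt_sum s _ fun j _ => c.comb_mem s hf ha j]
  refine Finset.sum_congr rfl fun j _ => ?_
  by_cases h : s' j ≤ t
  · have h1 := c.symt_smul s ((c.mem_Ft s').1 ha j) (hf j)
    rw [show t - s' j + s' j = t by omega] at h1
    rw [h1]
    simp only [symt, if_pos h]
  · have h1 := c.smul_mem_Ft s ((c.mem_Ft s').1 ha j) (hf j)
    have h2 : c.symt s' t a j = 0 := by simp only [symt, if_neg h]
    rw [h2, zero_smul]
    exact (c.symt_eq_zero s (c.comb_mem s hf ha j)).2 (c.Ft_anti s (by omega) h1)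

end Vec

/-- data of a standard basis before the proof of strictness -/
theorem exists_generators {ι : Type} [Fintype ι] (s : ι → ℕ) (N : Submodule A (ι → A)) :
    ∃ (n' : ℕ) (s' : Fin n' → ℕ) (f : Fin n' → (ι → A)),
      (∀ j, f j ∈ N ∧ f j ∈ c.Ft s (s' j)) ∧
      c.symSub s N = Submodule.span (MvPolynomial (Fin D) k)
        (Set.range fun j => c.symt s (s' j) (f j)) := by
  classical
  obtain ⟨G, hG⟩ := IsNoetherian.noetherian (c.symSub s N)
  have hG' : ∀ P : G, c.InSym s N P.1 := fun P => by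
    have : P.1 ∈ c.symSub s N := hG ▸ Submodule.subset_span P.2
    exact this
  choose T hT using fun P : G => exists_compt_bound s P.1
  choose v hv1 hv2 hv3 using hG'
  let J := Σ P : G, Fin (T P)
  let e : J ≃ Fin (Fintype.card J) := Fintype.equivFin J
  refine ⟨Fintype.card J, fun j => (e.symm j).2, fun j => v (e.symm j).1 (e.symm j).2,
    fun j => ⟨hv1 _ _, hv2 _ _⟩, le_antisymm ?_ ?_⟩
  · rw [← hG, Submodule.span_le]
    intro P hP
    have h1 := sum_compt s P (T ⟨P, hP⟩) (hT ⟨P, hP⟩)
    rw [← h1]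
    refine sum_mem fun t ht => ?_
    rw [Finset.mem_range] at ht
    have h2 : ∀ x y : J, x = y → c.symt s x.2 (v x.1 x.2) = compt s y.2 y.1 := by
      rintro x _ rfl
      exact hv3 _ _
    exact Submodule.subset_span ⟨e ⟨⟨P, hP⟩, ⟨t, ht⟩⟩,
      h2 _ ⟨⟨P, hP⟩, ⟨t, ht⟩⟩ (e.symm_apply_apply _)⟩
  · rw [Submodule.span_le]
    rintro _ ⟨j, rfl⟩
    exact c.symt_mem_symSub s (hv1 _ _) (hv2 _ _)

theorem exists_standard_basis {ι : Type} [Fintype ι] (s : ι → ℕ) (N : Submodule A (ι → A)) :
    ∃ (n' : ℕ) (s' : Fin n' → ℕ) (f : Fin n' → (ι → A)),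
      (∀ j, f j ∈ N ∧ f j ∈ c.Ft s (s' j)) ∧
      -- strictness
      (∀ t, ∀ v ∈ N, v ∈ c.Ft s t → ∃ a : Fin n' → A, a ∈ c.Ft s' t ∧ v = ∑ j, a j • f j) ∧
      -- the symbols of the `f j` generate the module of symbols of `N`
      (∀ P : ι → MvPolynomial (Fin D) k, c.InSym s N P ↔
        ∃ Q : Fin n' → MvPolynomial (Fin D) k, P = ∑ j, Q j • c.symt s (s' j) (f j)) ∧
      -- the module of symbols of the relations is the module of relations of the symbols
      (∀ Q : Fin n' → MvPolynomial (Fin D) k,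
        c.InSym s' (LinearMap.ker (Fintype.linearCombination A f)) Q ↔
          ∑ j, Q j • c.symt s (s' j) (f j) = 0) := by
  classical
  obtain ⟨n', s', f, hf, hspan⟩ := c.exists_generators s N
  have hf1 : ∀ j, f j ∈ c.Ft s (s' j) := fun j => (hf j).2
  have hmem : ∀ P, P ∈ c.symSub s N ↔
      ∃ Q : Fin n' → MvPolynomial (Fin D) k, ∑ j, Q j • c.symt s (s' j) (f j) = P := by
    intro P
    rw [hspan, Submodule.mem_span_range_iff_exists_fun]
  have hN : ∀ a : Fin n' → A, ∑ j, a j • f j ∈ N := fun a =>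
    sum_mem fun j _ => N.smul_mem _ (hf j).1
  -- components of combinations of the symbols
  have hcomp : ∀ (t : ℕ) (Q : Fin n' → MvPolynomial (Fin D) k),
      compt s t (∑ j, Q j • c.symt s (s' j) (f j)) =
        ∑ j, compt s' t Q j • c.symt s (s' j) (f j) := by
    intro t Q
    rw [compt_sum]
    refine Finset.sum_congr rfl fun j _ => ?_
    exact compt_smul_of_homogeneous_vector s (Q j) _ (s' j) (c.compt_symt s (hf1 j)) t
  -- one step of the approximation
  have hstep : ∀ t, ∀ v ∈ N, v ∈ c.Ft s t →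
      ∃ a : Fin n' → A, a ∈ c.Ft s' t ∧ v - ∑ j, a j • f j ∈ c.Ft s (t + 1) := by
    intro t v hv hvt
    obtain ⟨Q, hQ⟩ := (hmem _).1 (c.symt_mem_symSub s hv hvt)
    obtain ⟨a, ha, ha2⟩ := c.exists_symt_eq s' t Q
    obtain ⟨h1, h2⟩ := c.comb_symt s hf1 ha
    refine ⟨a, ha, (c.symt_eq_zero s (sub_mem hvt h1)).1 ?_⟩
    rw [c.symt_sub s hvt h1, h2, ha2, ← hcomp, hQ, c.compt_symt s hvt, sub_self]
  -- strictness
  have hstrict : ∀ t, ∀ v ∈ N, v ∈ c.Ft s t →
      ∃ a : Fin n' → A, a ∈ c.Ft s' t ∧ v = ∑ j, a j • f j := by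
    intro t v hv hvt
    choose! g hg1 hg2 using hstep
    -- the successive remainders
    let r : ℕ → (ι → A) := fun u => Nat.rec v (fun u x => x - ∑ j, g (t + u) x j • f j) u
    have hr0 : r 0 = v := rfl
    have hrs : ∀ u, r (u + 1) = r u - ∑ j, g (t + u) (r u) j • f j := fun u => rfl
    have hr : ∀ u, r u ∈ N ∧ r u ∈ c.Ft s (t + u) := by
      intro u
      induction u with
      | zero => exact ⟨hv, hvt⟩
      | succ u ih =>
        rw [hrs]
        exact ⟨sub_mem ih.1 (hN _), hg2 (t + u) (r u) ih.1 ih.2⟩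
    obtain ⟨a, ha⟩ := c.complete_Ft s' t (fun u => g (t + u) (r u))
      fun u => hg1 (t + u) (r u) (hr u).1 (hr u).2
    have hsum : ∀ n, v - ∑ j, (∑ u ∈ Finset.range n, g (t + u) (r u)) j • f j = r n := by
      intro n
      induction n with
      | zero => simp [hr0]
      | succ n ih =>
        rw [hrs, Finset.sum_range_succ]
        simp only [Pi.add_apply, add_smul, Finset.sum_add_distrib]
        rw [← sub_sub, ih]
    refine ⟨a, ?_, ?_⟩
    · have := ha 0
      simpa using this
    · rw [← sub_eq_zero]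
      refine c.Ft_sep s fun n => ?_
      have h1 : v - ∑ j, a j • f j = r n -
          ∑ j, (a - ∑ u ∈ Finset.range n, g (t + u) (r u)) j • f j := by
        rw [← hsum n]
        simp only [Pi.sub_apply, sub_smul, Finset.sum_sub_distrib]
        abel
      rw [h1]
      exact c.Ft_anti s (show n ≤ t + n by omega)
        (sub_mem (hr n).2 (c.comb_symt s hf1 (ha n)).1)
  refine ⟨n', s', f, hf, hstrict, fun P => ?_, fun Q => ⟨fun h => ?_, fun h t => ?_⟩⟩
  · rw [← c.mem_symSub s, hmem]
    exact exists_congr fun Q => eq_comm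
  · refine eq_zero_of_compt s _ fun t => ?_
    obtain ⟨a, ha, hat, ha2⟩ := h t
    rw [LinearMap.mem_ker, Fintype.linearCombination_apply] at ha
    rw [hcomp, ← ha2, ← (c.comb_symt s hf1 hat).2, ha, c.symt_zero]
  · obtain ⟨a, ha, ha2⟩ := c.exists_symt_eq s' t Q
    obtain ⟨h1, h2⟩ := c.comb_symt s hf1 ha
    rw [ha2, ← hcomp, h, compt_zero] at h2
    have h3 := (c.symt_eq_zero s h1).1 h2
    obtain ⟨b, hb, hb2⟩ := hstrict (t + 1) _ (hN a) h3
    have hbt : b ∈ c.Ft s' t := c.Ft_anti s' (Nat.le_succ t) hb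
    refine ⟨a - b, ?_, sub_mem ha hbt, ?_⟩
    · rw [LinearMap.mem_ker, Fintype.linearCombination_apply]
      simp only [Pi.sub_apply, sub_smul, Finset.sum_sub_distrib]
      rw [hb2, sub_self]
    · rw [c.symt_sub s' ha hbt, ha2, (c.symt_eq_zero s' hbt).2 hb, sub_zero]

include c in
theorem isNoetherianRing : IsNoetherianRing A := by
  rw [isNoetherianRing_iff_ideal_fg]
  intro I
  obtain ⟨n', s', f, hf, hstrict, -, -⟩ := c.exists_standard_basis (fun _ : Unit => 0)
    (Submodule.comap (LinearMap.proj () : (Unit → A) →ₗ[A] A) I)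
  classical
  refine ⟨Finset.univ.image fun j => f j (), le_antisymm ?_ ?_⟩
  · rw [Submodule.span_le]
    intro x hx
    simp only [Finset.coe_image, Finset.coe_univ, Set.image_univ, Set.mem_range] at hx
    obtain ⟨j, rfl⟩ := hx
    exact (hf j).1
  · intro x hx
    obtain ⟨a, -, ha⟩ := hstrict 0 (fun _ => x) hx (c.mem_Ft_zero _ _)
    have h1 := congrFun ha ()
    simp only [Finset.sum_apply, Pi.smul_apply] at h1
    rw [h1]
    refine sum_mem fun j _ => Submodule.smul_mem _ _ (Submodule.subset_span ?_)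
    simp

end CFR

end Pool.Agent.H4.Atiyah
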