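import Pool.Agent.H4.Atiyah.PadicInt

/-!
# Integrality over `ℂ`: transfer of the `p`-adic statement to the complex numbers

Black box used: `padic_integrality` (M36, module PadicInt).
-/

set_option autoImplicit false

open Filter Topology CategoryTheory
open scoped Matrix

namespace Pool.Agent.H4.Atiyah

open Cardinal in
theorem padic_card_le (p : ℕ) [Fact p.Prime] : #ℚ_[p] ≤ 𝔠 := by
  have h1 : #ℚ_[p] ≤ #(PadicSeq p) := by
    apply Cardinal.mk_le_of_surjective (f := (Padic.mk : PadicSeq p → ℚ_[p]))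
    intro x
    induction x using Quotient.inductionOn with
    | h q => exact ⟨q, rfl⟩
  have h2 : #(PadicSeq p) ≤ #(ℕ → ℚ) := by
    apply Cardinal.mk_le_of_injective (f := fun s : PadicSeq p => (s : ℕ → ℚ))
    intro a b h
    exact Subtype.ext h
  have h3 : #(ℕ → ℚ) = 𝔠 := by
    simp
  exact (h1.trans h2).trans h3.le

open Cardinal in
theorem exists_ringEquiv_complex (p : ℕ) [Fact p.Prime] :
    Nonempty (ℂ ≃+* AlgebraicClosure ℚ_[p]) := by
  have hC : #ℂ = 𝔠 := Cardinal.mk_complex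
  have h1 : 𝔠 ≤ #ℚ_[p] := continuum_le_cardinal_of_nontriviallyNormedField ℚ_[p]
  have h2 : #ℚ_[p] ≤ #(AlgebraicClosure ℚ_[p]) :=
    Cardinal.mk_le_of_injective (algebraMap ℚ_[p] (AlgebraicClosure ℚ_[p])).injective
  have h3 : #(AlgebraicClosure ℚ_[p]) ≤ max #ℚ_[p] ℵ₀ :=
    Algebra.IsAlgebraic.cardinalMk_le_max ℚ_[p] (AlgebraicClosure ℚ_[p])
  have h4 : #(AlgebraicClosure ℚ_[p]) = 𝔠 := by
    apply le_antisymm
    · exact h3.trans (max_le (padic_card_le p) Cardinal.aleph0_le_continuum)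
    · exact h1.trans h2
  have : CharZero (AlgebraicClosure ℚ_[p]) :=
    charZero_of_injective_algebraMap (algebraMap ℚ_[p] (AlgebraicClosure ℚ_[p])).injective
  apply IsAlgClosed.ringEquiv_of_equiv_of_charZero
  · rw [hC]; exact Cardinal.aleph0_lt_continuum
  · exact Cardinal.eq.mp (hC.trans h4.symm)

/-- a group algebra element all of whose coefficients lie in the range of `φ` lifts along `φ` -/
theorem exists_mapRingHom_eq {F F' G : Type} [Field F] [Field F'] [Group G] (φ : F →+* F')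
    (b : MonoidAlgebra F' G) (hb : ∀ g ∈ b.coeff.support, b.coeff g ∈ φ.range) :
    ∃ a : MonoidAlgebra F G, MonoidAlgebra.mapRingHom G φ a = b := by
  classical
  have h : ∀ g, ∃ c : F, g ∈ b.coeff.support → φ c = b.coeff g := by
    intro g
    by_cases hg : g ∈ b.coeff.support
    · obtain ⟨c, hc⟩ := hb g hg
      exact ⟨c, fun _ => hc⟩
    · exact ⟨0, fun h => absurd h hg⟩
  choose l hl using h
  refine ⟨∑ g ∈ b.coeff.support, MonoidAlgebra.single g (l g), ?_⟩
  rw [map_sum]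
  simp only [MonoidAlgebra.mapRingHom_single]
  ext g
  rw [MonoidAlgebra.coeff_sum, Finsupp.finsetSum_apply]
  simp only [MonoidAlgebra.coeff_single, Finsupp.single_apply]
  rw [Finset.sum_ite_eq' b.coeff.support g (fun x => φ (l x))]
  split_ifs with hg
  · exact hl g hg
  · exact (Finsupp.notMem_support_iff.mp hg).symm

theorem op_map_ringHom {F F' : Type} [Field F] [Field F'] (φ : F →+* F') {Q : Type} [Group Q]
    {k n : Type} (A : Matrix k n (MonoidAlgebra F Q)) :
    (op A).map φ = op (A.map (MonoidAlgebra.mapRingHom Q φ)) := by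
  ext x y
  simp [op]

theorem nrank_map {F F' : Type} [Field F] [Field F'] (φ : F →+* F') (ℱ : Filt)
    {k n : Type} [Fintype k] [Fintype n] (A : Matrix k n (MonoidAlgebra F ℱ.G)) :
    nrank ℱ (fun j => (A.map (MonoidAlgebra.mapRingHom ℱ.G φ)).map
      (MonoidAlgebra.mapDomainRingHom F' (SQ.mk ℱ j))) =
    nrank ℱ (fun j => A.map (MonoidAlgebra.mapDomainRingHom F (SQ.mk ℱ j))) := by
  unfold nrank
  congr 1
  funext j
  congr 2
  rw [← rank_map_field φ (op (A.map (MonoidAlgebra.mapDomainRingHom F (SQ.mk ℱ j)))),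
    op_map_ringHom]
  congr 2
  refine Matrix.ext fun x y => ?_
  simp only [Matrix.map_apply]
  have := RingHom.congr_fun (MonoidAlgebra.mapRingHom_comp_mapDomainRingHom φ (SQ.mk ℱ j)) (A x y)
  exact this.symm

theorem complex_integrality (p m : ℕ) [Fact p.Prime] (ℱ : Filt) {d : ℕ} (x : Fin d → ↥(ℱ.N 0))
    (hT : IsTower p ℱ.sysU d x) (hp : ∀ j, IsPGroup p (SQ ℱ j))
    (ρ : ℱ.G →* Matrix.GeneralLinearGroup (Fin m) ℤ_[p])
    (hρ : ∀ j g, g ∈ ℱ.N j ↔ ρ g ∈ (glFilt p m).N j)
    {k n : Type} [Fintype k] [Fintype n] (A : Matrix k n (MonoidAlgebra ℂ ℱ.G)) :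
    ∃ z : ℤ, nrank ℱ (fun j => A.map (MonoidAlgebra.mapDomainRingHom ℂ (SQ.mk ℱ j))) *
      ((p ^ (m / (p - 1)) * (m / (p - 1)).factorial : ℕ) : ℝ) = z := by
  classical
  obtain ⟨e⟩ := exists_ringEquiv_complex p
  let S : Set (AlgebraicClosure ℚ_[p]) :=
    ⋃ i : k, ⋃ j : n, (fun g => e ((A i j).coeff g)) '' ((A i j).coeff.support : Set ℱ.G)
  have hS : S.Finite := by
    apply Set.finite_iUnion
    intro i
    apply Set.finite_iUnion
    intro j
    exact (Finset.finite_toSet _).image _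
  have : Finite S := hS
  let L : IntermediateField ℚ_[p] (AlgebraicClosure ℚ_[p]) := IntermediateField.adjoin ℚ_[p] S
  have : FiniteDimensional ℚ_[p] L :=
    IntermediateField.finiteDimensional_adjoin fun x _ => Algebra.IsIntegral.isIntegral x
  have hpre : ∀ i j, ∃ a : MonoidAlgebra L ℱ.G,
      MonoidAlgebra.mapRingHom ℱ.G (algebraMap L (AlgebraicClosure ℚ_[p])) a =
        MonoidAlgebra.mapRingHom ℱ.G (e : ℂ →+* AlgebraicClosure ℚ_[p]) (A i j) := by
    intro i j
    apply exists_mapRingHom_eq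
    intro g hg
    rw [MonoidAlgebra.coeff_mapRingHom]
    have hg' : g ∈ (A i j).coeff.support := by
      rw [Finsupp.mem_support_iff] at hg ⊢
      rw [MonoidAlgebra.coeff_mapRingHom] at hg
      intro h
      apply hg
      rw [h, map_zero]
    have hmem : e ((A i j).coeff g) ∈ S := by
      refine Set.mem_iUnion.mpr ⟨i, Set.mem_iUnion.mpr ⟨j, ⟨g, hg', rfl⟩⟩⟩
    exact ⟨⟨e ((A i j).coeff g), IntermediateField.subset_adjoin ℚ_[p] S hmem⟩, rfl⟩
  choose A' hA' using hpre
  have h1 := nrank_map (algebraMap L (AlgebraicClosure ℚ_[p])) ℱ (Matrix.of A')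
  have h2 := nrank_map (e : ℂ →+* AlgebraicClosure ℚ_[p]) ℱ A
  have h3 : (Matrix.of A').map (MonoidAlgebra.mapRingHom ℱ.G
      (algebraMap L (AlgebraicClosure ℚ_[p]))) =
      A.map (MonoidAlgebra.mapRingHom ℱ.G (e : ℂ →+* AlgebraicClosure ℚ_[p])) := by
    exact Matrix.ext fun i j => hA' i j
  rw [h3] at h1
  rw [← h2, h1]
  exact padic_integrality p m ℱ x hT hp ρ hρ L (Matrix.of A')

end Pool.Agent.H4.Atiyah
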