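import Pool.Agent.H4.Atiyah.Ess

/-!
# The two commuting copies `a ⊗ 1`, `1 ⊗ a` in the ultraproducts
-/

set_option autoImplicit false

open Filter Topology
open scoped Kronecker

namespace Pool.Agent.H4.Atiyah

section linear

variable {F : Type*} [Field F] {α β : Type*} [Fintype α] [Fintype β]

/-- vectors on `α × β` all of whose slices `x (·, b)` lie in `V` -/
def slice1 (V : Submodule F (α → F)) (β : Type*) : Submodule F (α × β → F) where
  carrier := {x | ∀ b, (fun a => x (a, b)) ∈ V}
  add_mem' := fun hx hy b => V.add_mem (hx b) (hy b)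
  zero_mem' := fun _ => V.zero_mem
  smul_mem' := fun c _ hx b => V.smul_mem c (hx b)

/-- vectors on `α × β` all of whose slices `x (a, ·)` lie in `V` -/
def slice2 (α : Type*) (V : Submodule F (β → F)) : Submodule F (α × β → F) where
  carrier := {x | ∀ a, (fun b => x (a, b)) ∈ V}
  add_mem' := fun hx hy b => V.add_mem (hx b) (hy b)
  zero_mem' := fun _ => V.zero_mem
  smul_mem' := fun c _ hx b => V.smul_mem c (hx b)

theorem finrank_slice1 (V : Submodule F (α → F)) :
    Module.finrank F (slice1 V β) = Fintype.card β * Module.finrank F V := by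
  let e : slice1 V β ≃ₗ[F] (β → V) :=
    { toFun := fun x b => ⟨fun a => x.1 (a, b), x.2 b⟩
      map_add' := fun _ _ => rfl
      map_smul' := fun _ _ => rfl
      invFun := fun y => ⟨fun ab => (y ab.2).1 ab.1, fun b => (y b).2⟩
      left_inv := fun _ => rfl
      right_inv := fun _ => rfl }
  rw [e.finrank_eq, Module.finrank_pi_fintype]
  simp

theorem finrank_slice2 (V : Submodule F (β → F)) :
    Module.finrank F (slice2 α V) = Fintype.card α * Module.finrank F V := by
  let e : slice2 α V ≃ₗ[F] (α → V) :=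
    { toFun := fun x b => ⟨fun a => x.1 (b, a), x.2 b⟩
      map_add' := fun _ _ => rfl
      map_smul' := fun _ _ => rfl
      invFun := fun y => ⟨fun ab => (y ab.1).1 ab.2, fun b => (y b).2⟩
      left_inv := fun _ => rfl
      right_inv := fun _ => rfl }
  rw [e.finrank_eq, Module.finrank_pi_fintype]
  simp

theorem rank_kronecker_one_le [DecidableEq β] (A : Matrix α α F) :
    (A ⊗ₖ (1 : Matrix β β F)).rank ≤ Fintype.card β * A.rank := by
  unfold Matrix.rank
  rw [← finrank_slice1 (β := β)]
  apply Submodule.finrank_mono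
  rintro _ ⟨x, rfl⟩ b
  refine ⟨fun a => x (a, b), ?_⟩
  ext a
  simp only [Matrix.mulVecLin_apply, Matrix.mulVec, dotProduct, Matrix.kroneckerMap_apply,
    Fintype.sum_prod_type, Matrix.one_apply]
  simp

theorem rank_one_kronecker_le [DecidableEq α] (A : Matrix β β F) :
    ((1 : Matrix α α F) ⊗ₖ A).rank ≤ Fintype.card α * A.rank := by
  unfold Matrix.rank
  rw [← finrank_slice2 (α := α)]
  apply Submodule.finrank_mono
  rintro _ ⟨x, rfl⟩ b
  refine ⟨fun a => x (b, a), ?_⟩
  ext a
  simp only [Matrix.mulVecLin_apply, Matrix.mulVec, dotProduct, Matrix.kroneckerMap_apply,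
    Fintype.sum_prod_type, Matrix.one_apply]
  simp

end linear

section small

variable {α β : Type*} [Fintype α] [Fintype β]

theorem SmallOn.kronecker_one [DecidableEq β] {A : Matrix α α ℂ} {s C : ℝ} (hC : 0 ≤ C)
    (h : SmallOn A s C) : SmallOn (A ⊗ₖ (1 : Matrix β β ℂ)) (s * Fintype.card β) C := by
  obtain ⟨V, h1, h2⟩ := h
  refine ⟨slice1 V β, ?_, ?_⟩
  · rw [finrank_slice1, Fintype.card_prod]
    push_cast
    nlinarith [(Nat.cast_nonneg (Fintype.card β) : (0 : ℝ) ≤ Fintype.card β)]
  · intro x hx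
    have key : nrm (Matrix.vecMul x (A ⊗ₖ (1 : Matrix β β ℂ))) ^ 2 ≤ (C * nrm x) ^ 2 := by
      rw [mul_pow, nrm_sq, nrm_sq, Fintype.sum_prod_type_right, Fintype.sum_prod_type_right,
        Finset.mul_sum]
      apply Finset.sum_le_sum
      intro b _
      have h3 := h2 _ (hx b)
      have h4 : nrm (Matrix.vecMul (fun a => x (a, b)) A) ^ 2 ≤ (C * nrm fun a => x (a, b)) ^ 2 :=
        pow_le_pow_left₀ (nrm_nonneg _) h3 2
      rw [mul_pow, nrm_sq, nrm_sq] at h4
      refine le_trans (le_of_eq ?_) h4
      apply Finset.sum_congr rfl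
      intro a _
      congr 2
      simp only [Matrix.vecMul, dotProduct, Matrix.kroneckerMap_apply,
        Fintype.sum_prod_type, Matrix.one_apply]
      simp
    exact (pow_le_pow_iff_left₀ (nrm_nonneg _) (by have := nrm_nonneg x; positivity)
      two_ne_zero).1 key

theorem SmallOn.one_kronecker [DecidableEq α] {A : Matrix β β ℂ} {s C : ℝ} (hC : 0 ≤ C)
    (h : SmallOn A s C) : SmallOn ((1 : Matrix α α ℂ) ⊗ₖ A) (s * Fintype.card α) C := by
  obtain ⟨V, h1, h2⟩ := h
  refine ⟨slice2 α V, ?_, ?_⟩
  · rw [finrank_slice2, Fintype.card_prod]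
    push_cast
    nlinarith [(Nat.cast_nonneg (Fintype.card α) : (0 : ℝ) ≤ Fintype.card α)]
  · intro x hx
    have key : nrm (Matrix.vecMul x ((1 : Matrix α α ℂ) ⊗ₖ A)) ^ 2 ≤ (C * nrm x) ^ 2 := by
      rw [mul_pow, nrm_sq, nrm_sq, Fintype.sum_prod_type, Fintype.sum_prod_type,
        Finset.mul_sum]
      apply Finset.sum_le_sum
      intro b _
      have h3 := h2 _ (hx b)
      have h4 : nrm (Matrix.vecMul (fun a => x (b, a)) A) ^ 2 ≤ (C * nrm fun a => x (b, a)) ^ 2 :=
        pow_le_pow_left₀ (nrm_nonneg _) h3 2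
      rw [mul_pow, nrm_sq, nrm_sq] at h4
      refine le_trans (le_of_eq ?_) h4
      apply Finset.sum_congr rfl
      intro a _
      congr 2
      simp only [Matrix.vecMul, dotProduct, Matrix.kroneckerMap_apply,
        Fintype.sum_prod_type_right, Matrix.one_apply]
      simp
    exact (pow_le_pow_iff_left₀ (nrm_nonneg _) (by have := nrm_nonneg x; positivity)
      two_ne_zero).1 key

end small

section copies

variable (F : Type) [Field F] (X : ℕ → Type) [∀ j, Fintype (X j)] [∀ j, DecidableEq (X j)]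

/-- `a ↦ a ⊗ 1` on sequences -/
def seqC1 : Seq F X →+* Seq F (fun j => X j × X j) where
  toFun a := fun j => a j ⊗ₖ (1 : Matrix (X j) (X j) F)
  map_one' := by
    funext j
    simp
  map_mul' a b := by
    funext j
    simp only [Pi.mul_apply]
    rw [← Matrix.mul_kronecker_mul, one_mul]
  map_zero' := by
    funext j
    simp
  map_add' a b := by
    funext j
    simp [Matrix.add_kronecker]

/-- `a ↦ 1 ⊗ a` on sequences -/
def seqC2 : Seq F X →+* Seq F (fun j => X j × X j) where
  toFun a := fun j => (1 : Matrix (X j) (X j) F) ⊗ₖ a j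
  map_one' := by
    funext j
    simp
  map_mul' a b := by
    funext j
    simp only [Pi.mul_apply]
    rw [← Matrix.mul_kronecker_mul, one_mul]
  map_zero' := by
    funext j
    simp
  map_add' a b := by
    funext j
    simp [Matrix.kronecker_add]

variable {F X}

theorem seqC1_mem {a : Seq F X} (ha : a ∈ algNull F X) :
    seqC1 F X a ∈ algNull F (fun j => X j × X j) := by
  intro ε hε
  filter_upwards [ha ε hε] with j h
  have h1 : (((seqC1 F X a) j).rank : ℝ) ≤ Fintype.card (X j) * (a j).rank := by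
    exact_mod_cast rank_kronecker_one_le (β := X j) (a j)
  rw [Fintype.card_prod]
  push_cast
  calc _ ≤ _ := h1
    _ ≤ Fintype.card (X j) * (ε * Fintype.card (X j)) :=
      mul_le_mul_of_nonneg_left h (Nat.cast_nonneg _)
    _ = _ := by ring

theorem seqC2_mem {a : Seq F X} (ha : a ∈ algNull F X) :
    seqC2 F X a ∈ algNull F (fun j => X j × X j) := by
  intro ε hε
  filter_upwards [ha ε hε] with j h
  have h1 : (((seqC2 F X a) j).rank : ℝ) ≤ Fintype.card (X j) * (a j).rank := by
    exact_mod_cast rank_one_kronecker_le (α := X j) (a j)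
  rw [Fintype.card_prod]
  push_cast
  calc _ ≤ _ := h1
    _ ≤ Fintype.card (X j) * (ε * Fintype.card (X j)) :=
      mul_le_mul_of_nonneg_left h (Nat.cast_nonneg _)
    _ = _ := by ring

variable (F X)

/-- first copy `a ↦ a ⊗ 1` on the algebraic ultraproduct -/
noncomputable def algC1 : UAlg F X →+* UAlg F (fun j => X j × X j) :=
  UAlg.lift ((UAlg.mk F (fun j => X j × X j)).comp (seqC1 F X)) fun a ha => by
    rw [RingHom.comp_apply, UAlg.mk_eq_zero]
    exact seqC1_mem ha

/-- second copy `a ↦ 1 ⊗ a` on the algebraic ultraproduct -/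
noncomputable def algC2 : UAlg F X →+* UAlg F (fun j => X j × X j) :=
  UAlg.lift ((UAlg.mk F (fun j => X j × X j)).comp (seqC2 F X)) fun a ha => by
    rw [RingHom.comp_apply, UAlg.mk_eq_zero]
    exact seqC2_mem ha

@[simp] theorem algC1_mk (a : Seq F X) :
    algC1 F X (UAlg.mk F X a) = UAlg.mk F (fun j => X j × X j) (seqC1 F X a) := rfl

@[simp] theorem algC2_mk (a : Seq F X) :
    algC2 F X (UAlg.mk F X a) = UAlg.mk F (fun j => X j × X j) (seqC2 F X a) := rfl

theorem seqC_comm (a b : Seq F X) : seqC1 F X a * seqC2 F X b = seqC2 F X b * seqC1 F X a := by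
  funext j
  change (a j ⊗ₖ 1) * (1 ⊗ₖ b j) = (1 ⊗ₖ b j) * (a j ⊗ₖ 1)
  rw [← Matrix.mul_kronecker_mul, ← Matrix.mul_kronecker_mul]
  simp

theorem algC_comm (a b : UAlg F X) : algC1 F X a * algC2 F X b = algC2 F X b * algC1 F X a := by
  obtain ⟨a, rfl⟩ := UAlg.mk_surjective a
  obtain ⟨b, rfl⟩ := UAlg.mk_surjective b
  rw [algC1_mk, algC2_mk, ← map_mul, ← map_mul, seqC_comm]

/-- The `F`-algebra structure on the algebraic ultraproduct. -/
noncomputable instance : Algebra F (UAlg F X) :=
  RingHom.toAlgebra' ((UAlg.mk F X).comp (algebraMap F (Seq F X))) (by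
    intro c x
    obtain ⟨x, rfl⟩ := UAlg.mk_surjective x
    rw [RingHom.comp_apply, ← map_mul, ← map_mul, Algebra.commutes])

theorem algebraMap_UAlg (c : F) :
    algebraMap F (UAlg F X) c = UAlg.mk F X (algebraMap F (Seq F X) c) := rfl

theorem seqC1_algebraMap (c : F) : seqC1 F X (algebraMap F (Seq F X) c) =
    algebraMap F (Seq F fun j => X j × X j) c := by
  funext j
  change (algebraMap F (Matrix (X j) (X j) F) c) ⊗ₖ 1 =
    algebraMap F (Matrix (X j × X j) (X j × X j) F) c
  rw [Algebra.algebraMap_eq_smul_one, Matrix.smul_kronecker, Matrix.one_kronecker_one,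
    Algebra.algebraMap_eq_smul_one]

theorem seqC2_algebraMap (c : F) : seqC2 F X (algebraMap F (Seq F X) c) =
    algebraMap F (Seq F fun j => X j × X j) c := by
  funext j
  change 1 ⊗ₖ (algebraMap F (Matrix (X j) (X j) F) c) =
    algebraMap F (Matrix (X j × X j) (X j × X j) F) c
  rw [Algebra.algebraMap_eq_smul_one, Matrix.kronecker_smul, Matrix.one_kronecker_one,
    Algebra.algebraMap_eq_smul_one]

theorem algC1_algebraMap (c : F) : algC1 F X (algebraMap F _ c) = algebraMap F _ c := by
  rw [algebraMap_UAlg, algC1_mk, seqC1_algebraMap, algebraMap_UAlg]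

theorem algC2_algebraMap (c : F) : algC2 F X (algebraMap F _ c) = algebraMap F _ c := by
  rw [algebraMap_UAlg, algC2_mk, seqC2_algebraMap, algebraMap_UAlg]

/-! Base change of fields -/

variable {F} {F' : Type} [Field F']

/-- entrywise base change on sequences -/
def seqMap (φ : F →+* F') : Seq F X →+* Seq F' X :=
  RingHom.pi fun j => (φ.mapMatrix (m := X j)).comp (Pi.evalRingHom _ j)

theorem seqMap_apply (φ : F →+* F') (a : Seq F X) (j : ℕ) : seqMap X φ a j = (a j).map φ := rfl

theorem rank_map_field {F F' : Type*} [Field F] [Field F'] (φ : F →+* F') {m n : Type*}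
    [Fintype m] [Fintype n] (A : Matrix m n F) : (A.map φ).rank = A.rank := by
  classical
  let := φ.toAlgebra
  obtain ⟨b, hb1, hb2, hb3⟩ := exists_linearIndependent F (Set.range A.row)
  have hbf : b.Finite := (Set.finite_range _).subset hb1
  have := hbf.fintype
  let L : (n → F) →ₗ[F] (n → F') :=
    { toFun := fun x => algebraMap F F' ∘ x
      map_add' := by intro x y; ext; simp
      map_smul' := by intro c x; ext; simp [Algebra.smul_def] }
  have h1 : A.rank = Fintype.card b := by
    rw [Matrix.rank_eq_finrank_span_row, ← hb2]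
    have h := finrank_span_eq_card hb3
    rw [Subtype.range_coe] at h
    exact h
  have h2 : LinearIndependent F' (fun x : b => algebraMap F F' ∘ (x : n → F)) :=
    linearIndependent_algebraMap_comp_iff.2 hb3
  rw [h1, Matrix.rank_eq_finrank_span_row, ← finrank_span_eq_card h2]
  have h6 : Submodule.span F' (Set.range (A.map φ).row) =
      Submodule.span F' (Set.range fun x : b => algebraMap F F' ∘ (x : n → F)) := by
    apply le_antisymm
    · rw [Submodule.span_le]
      rintro _ ⟨i, rfl⟩
      have h3 : A.row i ∈ Submodule.span F b := by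
        rw [hb2]; exact Submodule.subset_span ⟨i, rfl⟩
      have h4 : L (A.row i) ∈ Submodule.span F (L '' b) := by
        rw [← Submodule.map_span]; exact Submodule.mem_map_of_mem h3
      have h5 := Submodule.span_subset_span F F' (L '' b) h4
      refine Submodule.span_mono ?_ h5
      rintro _ ⟨x, hx, rfl⟩
      exact ⟨⟨x, hx⟩, rfl⟩
    · rw [Submodule.span_le]
      rintro _ ⟨⟨x, hx⟩, rfl⟩
      obtain ⟨i, rfl⟩ := hb1 hx
      exact Submodule.subset_span ⟨i, rfl⟩
  rw [h6]

theorem seqMap_mem (φ : F →+* F') {a : Seq F X} (ha : a ∈ algNull F X) :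
    seqMap X φ a ∈ algNull F' X := by
  intro ε hε
  filter_upwards [ha ε hε] with j h
  rw [seqMap_apply, rank_map_field]
  exact h

/-- base change of the algebraic ultraproduct -/
noncomputable def algMap (φ : F →+* F') : UAlg F X →+* UAlg F' X :=
  UAlg.lift ((UAlg.mk F' X).comp (seqMap X φ)) fun a ha => by
    rw [RingHom.comp_apply, UAlg.mk_eq_zero]
    exact seqMap_mem X φ ha

@[simp] theorem algMap_mk (φ : F →+* F') (a : Seq F X) :
    algMap X φ (UAlg.mk F X a) = UAlg.mk F' X (seqMap X φ a) := rfl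

theorem algMap_injective (φ : F →+* F') : Function.Injective (algMap X φ) := by
  rw [injective_iff_map_eq_zero]
  intro a ha
  obtain ⟨a, rfl⟩ := UAlg.mk_surjective a
  rw [algMap_mk, UAlg.mk_eq_zero] at ha
  rw [UAlg.mk_eq_zero]
  intro ε hε
  filter_upwards [ha ε hε] with j h
  rw [seqMap_apply, rank_map_field] at h
  exact h

theorem algMap_C1 (φ : F →+* F') (a : UAlg F X) :
    algMap _ φ (algC1 F X a) = algC1 F' X (algMap _ φ a) := by
  obtain ⟨a, rfl⟩ := UAlg.mk_surjective a
  rw [algC1_mk, algMap_mk, algMap_mk, algC1_mk]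
  congr 1
  funext j
  ext x y
  simp [seqMap_apply, seqC1, Matrix.kroneckerMap_apply, Matrix.one_apply, apply_ite φ]

theorem algMap_C2 (φ : F →+* F') (a : UAlg F X) :
    algMap _ φ (algC2 F X a) = algC2 F' X (algMap _ φ a) := by
  obtain ⟨a, rfl⟩ := UAlg.mk_surjective a
  rw [algC2_mk, algMap_mk, algMap_mk, algC2_mk]
  congr 1
  funext j
  ext x y
  simp [seqMap_apply, seqC2, Matrix.kroneckerMap_apply, Matrix.one_apply, apply_ite φ]

end copies

section esscopies

variable (X : ℕ → Type) [∀ j, Fintype (X j)] [∀ j, DecidableEq (X j)]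

/-- `a ↦ a ⊗ 1` on essentially bounded sequences -/
noncomputable def bddC1 : essBdd X →+* essBdd (fun j => X j × X j) :=
  RingHom.codRestrict ((seqC1 ℂ X).comp (essBdd X).subtype) _ (by
    intro a η hη
    obtain ⟨C, hC, h⟩ := a.2 η hη
    refine ⟨C, hC, ?_⟩
    filter_upwards [h] with j hj
    refine (hj.kronecker_one (β := X j) hC).mono (le_of_eq ?_) le_rfl
    rw [Fintype.card_prod]
    push_cast
    ring)

/-- `a ↦ 1 ⊗ a` on essentially bounded sequences -/
noncomputable def bddC2 : essBdd X →+* essBdd (fun j => X j × X j) :=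
  RingHom.codRestrict ((seqC2 ℂ X).comp (essBdd X).subtype) _ (by
    intro a η hη
    obtain ⟨C, hC, h⟩ := a.2 η hη
    refine ⟨C, hC, ?_⟩
    filter_upwards [h] with j hj
    refine (hj.one_kronecker (α := X j) hC).mono (le_of_eq ?_) le_rfl
    rw [Fintype.card_prod]
    push_cast
    ring)

/-- first copy on the analytic ultraproduct -/
noncomputable def essC1 : UEss X →+* UEss (fun j => X j × X j) :=
  UEss.lift ((UEss.mk (fun j => X j × X j)).comp (bddC1 X)) fun a ha => by
    rw [RingHom.comp_apply, UEss.mk_eq_zero]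
    intro η hη ε hε
    filter_upwards [ha η hη ε hε] with j hj
    refine (hj.kronecker_one (β := X j) hε.le).mono (le_of_eq ?_) le_rfl
    rw [Fintype.card_prod]
    push_cast
    ring

/-- second copy on the analytic ultraproduct -/
noncomputable def essC2 : UEss X →+* UEss (fun j => X j × X j) :=
  UEss.lift ((UEss.mk (fun j => X j × X j)).comp (bddC2 X)) fun a ha => by
    rw [RingHom.comp_apply, UEss.mk_eq_zero]
    intro η hη ε hε
    filter_upwards [ha η hη ε hε] with j hj
    refine (hj.one_kronecker (α := X j) hε.le).mono (le_of_eq ?_) le_rfl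
    rw [Fintype.card_prod]
    push_cast
    ring

@[simp] theorem essC1_mk (a : essBdd X) :
    essC1 X (UEss.mk X a) = UEss.mk (fun j => X j × X j) (bddC1 X a) := rfl

@[simp] theorem essC2_mk (a : essBdd X) :
    essC2 X (UEss.mk X a) = UEss.mk (fun j => X j × X j) (bddC2 X a) := rfl

theorem essC_comm (a b : UEss X) : essC1 X a * essC2 X b = essC2 X b * essC1 X a := by
  obtain ⟨a, rfl⟩ := UEss.mk_surjective a
  obtain ⟨b, rfl⟩ := UEss.mk_surjective b
  rw [essC1_mk, essC2_mk, ← map_mul, ← map_mul]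
  congr 1
  exact Subtype.ext (seqC_comm ℂ X a.1 b.1)

theorem smallOn_algebraMap {m : Type*} [Fintype m] [DecidableEq m] (c : ℂ) (s : ℝ) (hs : 0 ≤ s) :
    SmallOn (algebraMap ℂ (Matrix m m ℂ) c) s ‖c‖ := by
  refine ⟨⊤, by simp [hs], fun x _ => ?_⟩
  rw [Algebra.algebraMap_eq_smul_one, Matrix.vecMul_smul, Matrix.vecMul_one, nrm_smul]

/-- scalars are bounded -/
noncomputable def bddScalar : ℂ →+* essBdd X :=
  RingHom.codRestrict (algebraMap ℂ (Seq ℂ X)) _ (by
    intro c η hη
    refine ⟨‖c‖, norm_nonneg _, Eventually.of_forall fun j => ?_⟩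
    exact smallOn_algebraMap c _ (by positivity))

/-- The `ℂ`-algebra structure on the analytic ultraproduct. -/
noncomputable instance : Algebra ℂ (UEss X) :=
  RingHom.toAlgebra' ((UEss.mk X).comp (bddScalar X)) (by
    intro c x
    obtain ⟨x, rfl⟩ := UEss.mk_surjective x
    rw [RingHom.comp_apply, ← map_mul, ← map_mul]
    congr 1
    exact Subtype.ext (Algebra.commutes c x.1))

theorem algebraMap_UEss (c : ℂ) :
    algebraMap ℂ (UEss X) c = UEss.mk X (bddScalar X c) := rfl

theorem essC1_algebraMap (c : ℂ) : essC1 X (algebraMap ℂ _ c) = algebraMap ℂ _ c := by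
  rw [algebraMap_UEss, essC1_mk, algebraMap_UEss]
  congr 1
  exact Subtype.ext (seqC1_algebraMap ℂ X c)

theorem essC2_algebraMap (c : ℂ) : essC2 X (algebraMap ℂ _ c) = algebraMap ℂ _ c := by
  rw [algebraMap_UEss, essC2_mk, algebraMap_UEss]
  congr 1
  exact Subtype.ext (seqC2_algebraMap ℂ X c)

end esscopies

end Pool.Agent.H4.Atiyah
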