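import Pool.Agent.H4.Atiyah.Filt

set_option autoImplicit false

namespace Pool.Agent.H4.Atiyah

private lemma cr_cart {F α α' β β' : Type} [Field F] (ι : α → α') (ι' : β → β') (π : α → β)
    (π' : α' → β') (hι : Function.Injective ι) (hι' : Function.Injective ι')
    (hsq : ∀ a, π' (ι a) = ι' (π a)) (hcart : ∀ a' b, π' a' = ι' b → ∃ a, ι a = a')
    (v : α' →₀ F) (b : β) :
    (Finsupp.mapDomain π' v) (ι' b) =
      (Finsupp.mapDomain π (Finsupp.comapDomain ι v hι.injOn)) b := by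
  classical
  induction v using Finsupp.induction_linear with
  | zero => simp
  | add v w hv hw =>
    rw [Finsupp.mapDomain_add, Finsupp.add_apply, hv, hw,
      Finsupp.comapDomain_add_of_injective hι, Finsupp.mapDomain_add, Finsupp.add_apply]
  | single a' r =>
    rw [Finsupp.mapDomain_single]
    by_cases h : ∃ a, ι a = a'
    · obtain ⟨a, rfl⟩ := h
      have h1 : Finsupp.comapDomain ι (Finsupp.single (ι a) r) hι.injOn = Finsupp.single a r := by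
        ext x
        simp only [Finsupp.comapDomain_apply, Finsupp.single_apply]
        by_cases hx : a = x
        · subst hx; simp
        · rw [if_neg hx, if_neg fun h => hx (hι h)]
      rw [h1, Finsupp.mapDomain_single, hsq, Finsupp.single_apply, Finsupp.single_apply]
      by_cases hx : π a = b
      · rw [hx, if_pos rfl, if_pos rfl]
      · rw [if_neg hx, if_neg fun h => hx (hι' h)]
    · have h1 : Finsupp.comapDomain ι (Finsupp.single a' r) hι.injOn = 0 := by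
        ext x
        simp only [Finsupp.comapDomain_apply, Finsupp.single_apply, Finsupp.coe_zero,
          Pi.zero_apply]
        rw [if_neg fun hx => h ⟨x, hx.symm⟩]
      rw [h1, Finsupp.mapDomain_zero, Finsupp.single_apply, Finsupp.coe_zero, Pi.zero_apply,
        if_neg fun hx => h (hcart a' b hx)]

/-- The coset decomposition of a finite quotient. -/
private noncomputable def crPhi (ℱ : Filt) (S : Subgroup ℱ.G) (j : ℕ)
    (x : (ℱ.G ⧸ S) × (S ⧸ (ℱ.N j).subgroupOf S)) : ℱ.G ⧸ ℱ.N j :=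
  ℱ.incl S j x.2 * (ℱ.sys.π j x.1.out)⁻¹

private lemma cr_surj (ℱ : Filt) (S : Subgroup ℱ.G) (j : ℕ) :
    Function.Surjective (crPhi ℱ S j) := by
  intro g'
  obtain ⟨g, rfl⟩ := ℱ.sys.π_surj j g'
  set c : ℱ.G ⧸ S := ((g⁻¹ : ℱ.G) : ℱ.G ⧸ S) with hc
  have h1 : g⁻¹⁻¹ * c.out ∈ S := by
    rw [← QuotientGroup.eq, QuotientGroup.out_eq', hc]
  rw [inv_inv] at h1
  refine ⟨(c, (ℱ.restrict S).sys.π j ⟨g * c.out, h1⟩), ?_⟩
  unfold crPhi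
  rw [ℱ.incl_π, ← map_inv, ← map_mul]
  congr 1
  simp

private lemma cr_inj (ℱ : Filt) (S : Subgroup ℱ.G) (hS : ∀ j, ℱ.N j ≤ S) (j : ℕ) :
    Function.Injective (crPhi ℱ S j) := by
  rintro ⟨c, s'⟩ ⟨d, t'⟩ h
  obtain ⟨s, rfl⟩ := (ℱ.restrict S).sys.π_surj j s'
  obtain ⟨t, rfl⟩ := (ℱ.restrict S).sys.π_surj j t'
  unfold crPhi at h
  simp only at h
  rw [ℱ.incl_π, ℱ.incl_π, ← map_inv, ← map_inv, ← map_mul, ← map_mul] at h
  have h1 : ((s : ℱ.G) * c.out⁻¹)⁻¹ * ((t : ℱ.G) * d.out⁻¹) ∈ ℱ.N j := QuotientGroup.eq.1 h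
  have h2 := (ℱ.normal j).conj_mem _ h1 c.out⁻¹
  have h3 : c.out⁻¹ * (((s : ℱ.G) * c.out⁻¹)⁻¹ * ((t : ℱ.G) * d.out⁻¹)) * c.out⁻¹⁻¹ =
      (s : ℱ.G)⁻¹ * (t : ℱ.G) * (d.out⁻¹ * c.out) := by group
  rw [h3] at h2
  have h4 : d.out⁻¹ * c.out ∈ S := by
    have h5 := hS j h2
    have h6 : (s : ℱ.G)⁻¹ * (t : ℱ.G) ∈ S := S.mul_mem (S.inv_mem s.2) t.2
    exact (S.mul_mem_cancel_left h6).1 h5
  have h7 : d = c := by
    rw [← QuotientGroup.out_eq' d, ← QuotientGroup.out_eq' c]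
    exact QuotientGroup.eq.2 h4
  subst h7
  rw [inv_mul_cancel, mul_one] at h2
  refine Prod.ext rfl ?_
  exact QuotientGroup.eq.2 (by rw [Subgroup.mem_subgroupOf]; simpa using h2)

theorem coset_restrict (F : Type) [Field F] (ℱ : Filt) (S : Subgroup ℱ.G) [S.FiniteIndex]
    (hS : ∀ j, ℱ.N j ≤ S) {m n : Type} (A : Matrix m n (MonoidAlgebra F ℱ.G)) :
    ∃ B : Matrix (m × (ℱ.G ⧸ S)) (n × (ℱ.G ⧸ S)) (MonoidAlgebra F S), ∀ j,
      ∃ (e : m × (ℱ.G ⧸ ℱ.N j) ≃ (m × (ℱ.G ⧸ S)) × (S ⧸ (ℱ.N j).subgroupOf S))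
        (f : n × (ℱ.G ⧸ ℱ.N j) ≃ (n × (ℱ.G ⧸ S)) × (S ⧸ (ℱ.N j).subgroupOf S)),
        op (A.map (MonoidAlgebra.mapDomainRingHom F (ℱ.sys.π j))) =
          (op (B.map (MonoidAlgebra.mapDomainRingHom F ((ℱ.restrict S).sys.π j)))).submatrix e f := by
  classical
  have hι : ∀ c d : ℱ.G ⧸ S, Function.Injective (fun σ : S => c.out * (σ : ℱ.G) * d.out⁻¹) := by
    intro c d σ τ h
    have h1 : c.out * (σ : ℱ.G) * d.out⁻¹ = c.out * (τ : ℱ.G) * d.out⁻¹ := h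
    exact Subtype.ext (mul_left_cancel (mul_right_cancel h1))
  refine ⟨Matrix.of fun x y => MonoidAlgebra.ofCoeff
    (Finsupp.comapDomain (fun σ : S => x.2.out * (σ : ℱ.G) * y.2.out⁻¹) (A x.1 y.1).coeff
      (hι x.2 y.2).injOn), fun j => ?_⟩
  let ψ : (ℱ.G ⧸ S) × (S ⧸ (ℱ.N j).subgroupOf S) ≃ ℱ.G ⧸ ℱ.N j :=
    Equiv.ofBijective (crPhi ℱ S j) ⟨cr_inj ℱ S hS j, cr_surj ℱ S j⟩
  let E : ∀ k : Type, k × (ℱ.G ⧸ ℱ.N j) ≃ (k × (ℱ.G ⧸ S)) × (S ⧸ (ℱ.N j).subgroupOf S) :=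
    fun k => ((Equiv.refl k).prodCongr ψ.symm).trans (Equiv.prodAssoc _ _ _).symm
  refine ⟨E m, E n, ?_⟩
  ext ⟨i, g⟩ ⟨k, h⟩
  obtain ⟨⟨c, s⟩, rfl⟩ := ψ.surjective g
  obtain ⟨⟨d, t⟩, rfl⟩ := ψ.surjective h
  have e1 : E m (i, ψ (c, s)) = ((i, c), s) := by simp [E]
  have e2 : E n (k, ψ (d, t)) = ((k, d), t) := by simp [E]
  rw [Matrix.submatrix_apply, e1, e2]
  change (Finsupp.mapDomain (ℱ.sys.π j) (A i k).coeff) ((ψ (c, s))⁻¹ * ψ (d, t)) =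
    (Finsupp.mapDomain ((ℱ.restrict S).sys.π j) (Finsupp.comapDomain
      (fun σ : S => c.out * (σ : ℱ.G) * d.out⁻¹) (A i k).coeff (hι c d).injOn)) (s⁻¹ * t)
  have hψ : (ψ (c, s))⁻¹ * ψ (d, t) =
      ℱ.sys.π j c.out * ℱ.incl S j (s⁻¹ * t) * (ℱ.sys.π j d.out)⁻¹ := by
    change (ℱ.incl S j s * (ℱ.sys.π j c.out)⁻¹)⁻¹ * (ℱ.incl S j t * (ℱ.sys.π j d.out)⁻¹) = _
    rw [map_mul, map_inv]
    group
  rw [hψ]
  refine cr_cart (fun σ : S => c.out * (σ : ℱ.G) * d.out⁻¹)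
    (fun q => ℱ.sys.π j c.out * ℱ.incl S j q * (ℱ.sys.π j d.out)⁻¹)
    ((ℱ.restrict S).sys.π j) (ℱ.sys.π j) (hι c d) ?_ ?_ ?_ (A i k).coeff (s⁻¹ * t)
  · intro q q' h
    exact ℱ.incl_injective S j (mul_left_cancel (mul_right_cancel h))
  · intro a
    simp only [map_mul, map_inv, ℱ.incl_π]
  · intro w q hw
    obtain ⟨σ, rfl⟩ := (ℱ.restrict S).sys.π_surj j q
    simp only [ℱ.incl_π] at hw
    rw [← map_inv, ← map_mul, ← map_mul] at hw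
    have h1 : w⁻¹ * (c.out * (σ : ℱ.G) * d.out⁻¹) ∈ ℱ.N j := QuotientGroup.eq.1 hw
    -- `c.out⁻¹ w d.out ∈ S`
    have h2 : c.out⁻¹ * w * d.out ∈ S := by
      have h3 := (ℱ.normal j).conj_mem _ h1 d.out⁻¹
      have h4 : d.out⁻¹ * (w⁻¹ * (c.out * (σ : ℱ.G) * d.out⁻¹)) * d.out⁻¹⁻¹ =
          (c.out⁻¹ * w * d.out)⁻¹ * (σ : ℱ.G) := by group
      rw [h4] at h3
      have h5 := hS j h3
      have h6 := (S.mul_mem_cancel_right σ.2).1 h5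
      exact S.inv_mem_iff.1 h6
    exact ⟨⟨_, h2⟩, by group⟩

end Pool.Agent.H4.Atiyah
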