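import Mathlib

set_option autoImplicit false

namespace Pool.Agent.H4.Atiyah

section kerpow
variable {K V : Type*} [Field K] [AddCommGroup V] [Module K V] [FiniteDimensional K V]

/-- if the kernel of `x` lies in the range of `x ^ a`, then
`dim ker x^(a+1) = dim ker x^a + dim ker x`. -/
theorem ct_finrank_ker_pow_succ (x : V →ₗ[K] V) (a : ℕ)
    (h : LinearMap.ker x ≤ LinearMap.range (x ^ a)) :
    Module.finrank K (LinearMap.ker (x ^ (a + 1))) =
      Module.finrank K (LinearMap.ker (x ^ a)) + Module.finrank K (LinearMap.ker x) := by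
  have hle : LinearMap.ker (x ^ a) ≤ LinearMap.ker (x ^ (a + 1)) := by
    intro v hv
    rw [LinearMap.mem_ker] at hv ⊢
    rw [pow_succ', Module.End.mul_apply, hv, map_zero]
  set g : LinearMap.ker (x ^ (a + 1)) →ₗ[K] V := (x ^ a).domRestrict (LinearMap.ker (x ^ (a + 1)))
    with hg
  have h1 := LinearMap.finrank_range_add_finrank_ker g
  have h2 : LinearMap.range g = LinearMap.ker x := by
    ext v
    constructor
    · rintro ⟨u, rfl⟩
      have hu : (x ^ (a + 1)) (u : V) = 0 := LinearMap.mem_ker.1 u.2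
      have hu' : x ((x ^ a) (u : V)) = 0 := by
        rw [← Module.End.mul_apply, ← pow_succ']
        exact hu
      exact hu'
    · intro hv
      obtain ⟨u, hu⟩ := h hv
      refine ⟨⟨u, ?_⟩, hu⟩
      rw [LinearMap.mem_ker, pow_succ', Module.End.mul_apply, hu]
      exact hv
  have h3 : LinearMap.ker g = Submodule.comap (LinearMap.ker (x ^ (a + 1))).subtype
      (LinearMap.ker (x ^ a)) := by
    ext u
    rfl
  rw [h2, h3, (Submodule.comapSubtypeEquivOfLe hle).finrank_eq] at h1
  omega

theorem ct_finrank_ker_pow (x : V →ₗ[K] V) (q : ℕ)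
    (h : ∀ a < q, LinearMap.ker x ≤ LinearMap.range (x ^ a)) :
    ∀ a ≤ q, Module.finrank K (LinearMap.ker (x ^ a)) = a * Module.finrank K (LinearMap.ker x) := by
  intro a
  induction a with
  | zero =>
    intro _
    rw [pow_zero]
    have : LinearMap.ker (1 : V →ₗ[K] V) = ⊥ := LinearMap.ker_id
    rw [this]
    simp
  | succ a ih =>
    intro ha
    rw [ct_finrank_ker_pow_succ x a (h a (by omega)), ih (by omega)]
    ring

omit [FiniteDimensional K V] in
/-- generators: a subspace stable under `T` that together with the range of `T - 1` spans is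
everything if `T - 1` is nilpotent. -/
theorem ct_span_of_nilpotent (T : V →ₗ[K] V) (k : ℕ) (hk : (T - 1) ^ k = 0) (S : Submodule K V)
    (hS : ∀ v ∈ S, T v ∈ S) (h : ⊤ ≤ S ⊔ LinearMap.range (T - 1)) : S = ⊤ := by
  have hS' : ∀ (j : ℕ), ∀ v ∈ S, ((T - 1) ^ j) v ∈ S := by
    intro j
    induction j with
    | zero => intro v hv; simpa using hv
    | succ j ih =>
      intro v hv
      rw [pow_succ', Module.End.mul_apply]
      have h1 := ih v hv
      rw [LinearMap.sub_apply, Module.End.one_apply]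
      exact S.sub_mem (hS _ h1) h1
  have key : ∀ j : ℕ, ⊤ ≤ S ⊔ LinearMap.range ((T - 1) ^ j) := by
    intro j
    induction j with
    | zero =>
      refine le_trans ?_ le_sup_right
      rw [pow_zero]
      intro v _
      exact ⟨v, rfl⟩
    | succ j ih =>
      intro v _
      obtain ⟨s, hs, t, ⟨u, rfl⟩, rfl⟩ := Submodule.mem_sup.1 (ih (Submodule.mem_top (x := v)))
      obtain ⟨s', hs', t', ⟨u', rfl⟩, rfl⟩ := Submodule.mem_sup.1 (h (Submodule.mem_top (x := u)))
      rw [map_add, ← add_assoc]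
      refine Submodule.add_mem_sup (S.add_mem hs (hS' j _ hs')) ⟨u', ?_⟩
      rw [pow_succ, Module.End.mul_apply]
  have := key k
  rw [hk, LinearMap.range_zero, sup_bot_eq] at this
  exact top_le_iff.1 this

end kerpow

section shift
variable (p : ℕ) [hp : Fact p.Prime]

theorem ct_sum_pow_eq {R : Type*} [Ring R] [Algebra (ZMod p) R] (N : R) :
    (N - 1) ^ (p - 1) = ∑ j ∈ Finset.range p, N ^ j := by
  have h : (Polynomial.X - 1 : Polynomial (ZMod p)) ^ (p - 1) =
      ∑ j ∈ Finset.range p, Polynomial.X ^ j := by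
    have hp : 1 ≤ p := (Fact.out : p.Prime).one_lt.le
    have h0 : (Polynomial.X - 1 : Polynomial (ZMod p)) ≠ 0 := by
      have := Polynomial.X_sub_C_ne_zero (1 : ZMod p)
      simpa using this
    apply mul_left_cancel₀ h0
    rw [← pow_succ', Nat.sub_add_cancel hp, mul_geom_sum, sub_pow_char, one_pow]
  have h2 := congrArg (Polynomial.aeval N) h
  simpa using h2

theorem ct_sub_one_pow {R : Type*} [Ring R] [Algebra (ZMod p) R] (N : R) (n : ℕ) :
    (N - 1) ^ (p ^ n) = N ^ (p ^ n) - 1 := by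
  have h : (Polynomial.X - 1 : Polynomial (ZMod p)) ^ (p ^ n) = Polynomial.X ^ (p ^ n) - 1 := by
    rw [sub_pow_char_pow, one_pow]
  have h2 := congrArg (Polynomial.aeval N) h
  simpa using h2

variable {ι : Type*}

theorem ct_const {f : ZMod p × ι → ZMod p} (h : ∀ c i, f (c - 1, i) = f (c, i)) (c : ZMod p)
    (i : ι) : f (c, i) = f (0, i) := by
  have : ∀ k : ℕ, f ((k : ZMod p), i) = f (0, i) := by
    intro k
    induction k with
    | zero => simp
    | succ k ih =>
      rw [← ih, ← h ((k + 1 : ℕ) : ZMod p) i]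
      congr 2
      push_cast
      ring
  have h2 := this c.val
  rwa [ZMod.natCast_zmod_val] at h2

variable [Fintype ι]

/-- the shift -/
def ctShift (ι : Type*) : (ZMod p × ι → ZMod p) →ₗ[ZMod p] (ZMod p × ι → ZMod p) :=
  LinearMap.funLeft (ZMod p) (ZMod p) (fun x => (x.1 - 1, x.2))

omit [Fintype ι] in
theorem ctShift_apply (f : ZMod p × ι → ZMod p) (c : ZMod p) (i : ι) :
    ctShift p ι f (c, i) = f (c - 1, i) := rfl

omit [Fintype ι] in
theorem ctShift_pow_apply (k : ℕ) (f : ZMod p × ι → ZMod p) (c : ZMod p) (i : ι) :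
    ((ctShift p ι) ^ k) f (c, i) = f (c - k, i) := by
  induction k generalizing c with
  | zero => simp
  | succ k ih =>
    rw [pow_succ', Module.End.mul_apply, ctShift_apply, ih]
    congr 2
    push_cast
    ring

theorem ct_finrank_ker_shift :
    Module.finrank (ZMod p) (LinearMap.ker (ctShift p ι - 1)) = Fintype.card ι := by
  classical
  let e : LinearMap.ker (ctShift p ι - 1) ≃ₗ[ZMod p] (ι → ZMod p) :=
    { toFun := fun f i => f.1 (0, i)
      map_add' := fun f g => rfl
      map_smul' := fun a f => rfl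
      invFun := fun g => ⟨fun x => g x.2, by
        rw [LinearMap.mem_ker, LinearMap.sub_apply, Module.End.one_apply, sub_eq_zero]
        ext ⟨c, i⟩
        rfl⟩
      left_inv := by
        rintro ⟨f, hf⟩
        rw [LinearMap.mem_ker, LinearMap.sub_apply, Module.End.one_apply, sub_eq_zero] at hf
        apply Subtype.ext
        ext ⟨c, i⟩
        exact (ct_const p (fun c i => congrFun hf (c, i)) c i).symm
      right_inv := fun g => rfl }
  rw [e.finrank_eq, Module.finrank_fintype_fun_eq_card]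

omit [Fintype ι] in
theorem ct_ker_shift_le (f : ZMod p × ι → ZMod p) (hf : ctShift p ι f = f) :
    ∃ g, ((ctShift p ι - 1) ^ (p - 1)) g = f := by
  classical
  refine ⟨fun x => if x.1 = 0 then f (0, x.2) else 0, ?_⟩
  rw [ct_sum_pow_eq, LinearMap.sum_apply]
  ext ⟨c, i⟩
  rw [Finset.sum_apply]
  simp only [ctShift_pow_apply]
  rw [Finset.sum_eq_single c.val]
  · rw [ZMod.natCast_zmod_val, sub_self, if_pos rfl]
    exact (ct_const p (fun c i => congrFun hf (c, i)) c i).symm
  · intro k hk hkc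
    rw [if_neg]
    intro h
    apply hkc
    rw [sub_eq_zero] at h
    rw [h, ZMod.val_natCast, Nat.mod_eq_of_lt (Finset.mem_range.1 hk)]
  · intro h
    exact absurd (Finset.mem_range.2 (ZMod.val_lt c)) h

/-- main count -/
theorem ct_count (n : ℕ) (T : (ZMod p × ι → ZMod p) →ₗ[ZMod p] (ZMod p × ι → ZMod p))
    (hT : T ^ (p ^ n) = ctShift p ι) :
    p ^ n * Module.finrank (ZMod p) (LinearMap.ker (T - 1)) = Fintype.card ι := by
  have hp2 : 2 ≤ p := hp.out.two_le
  have h1 : ∀ a < p ^ n, LinearMap.ker (T - 1) ≤ LinearMap.range ((T - 1) ^ a) := by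
    intro a ha v hv
    rw [LinearMap.mem_ker, LinearMap.sub_apply, Module.End.one_apply, sub_eq_zero] at hv
    have hTk : ∀ k : ℕ, (T ^ k) v = v := by
      intro k
      induction k with
      | zero => simp
      | succ k ih => rw [pow_succ, Module.End.mul_apply, hv, ih]
    have h2 : ctShift p ι v = v := by rw [← hT, hTk]
    obtain ⟨g, hg⟩ := ct_ker_shift_le p v h2
    rw [← hT, ← ct_sub_one_pow, ← pow_mul] at hg
    have h3 : a ≤ p ^ n * (p - 1) := by
      calc a ≤ p ^ n * 1 := by omega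
        _ ≤ p ^ n * (p - 1) := Nat.mul_le_mul_left _ (by omega)
    obtain ⟨d, hd⟩ := Nat.exists_eq_add_of_le h3
    rw [hd, pow_add, Module.End.mul_apply] at hg
    exact ⟨_, hg⟩
  have h2 := ct_finrank_ker_pow (T - 1) (p ^ n) h1 (p ^ n) le_rfl
  rw [ct_sub_one_pow, hT, ct_finrank_ker_shift] at h2
  exact h2.symm

end shift

section reduction
variable (p : ℕ) [hp : Fact p.Prime] {W : Type*} [AddCommGroup W] [Module ℤ_[p] W]
variable {J : Type*} (b : Module.Basis J ℤ_[p] W)

/-- reduction modulo `p` -/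
noncomputable def ctRed (w : W) : J → ZMod p := fun j => PadicInt.toZMod (b.repr w j)

theorem ctRed_add (v w : W) : ctRed p b (v + w) = ctRed p b v + ctRed p b w := by
  ext j
  simp [ctRed]

theorem ctRed_sub (v w : W) : ctRed p b (v - w) = ctRed p b v - ctRed p b w := by
  ext j
  simp [ctRed]

theorem ctRed_smul (a : ℤ_[p]) (w : W) :
    ctRed p b (a • w) = PadicInt.toZMod a • ctRed p b w := by
  ext j
  simp [ctRed]

theorem ctRed_zero : ctRed p b 0 = 0 := by
  ext j
  simp [ctRed]

theorem ctRed_sum {α : Type*} (s : Finset α) (f : α → W) :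
    ctRed p b (∑ i ∈ s, f i) = ∑ i ∈ s, ctRed p b (f i) := by
  classical
  induction s using Finset.induction_on with
  | empty => simp [ctRed_zero]
  | insert a s ha ih => rw [Finset.sum_insert ha, Finset.sum_insert ha, ctRed_add, ih]

theorem ctRed_basis [DecidableEq J] (j : J) : ctRed p b (b j) = Pi.single j 1 := by
  ext k
  rw [ctRed, b.repr_self, Finsupp.single_apply, Pi.single_apply]
  by_cases h : j = k
  · simp [h]
  · simp [h, Ne.symm h]

theorem ct_toZMod_surjective : Function.Surjective (PadicInt.toZMod (p := p)) := by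
  intro x
  refine ⟨(x.val : ℤ_[p]), ?_⟩
  rw [map_natCast, ZMod.natCast_zmod_val]

variable [Fintype J]

theorem ctRed_surjective (v : J → ZMod p) : ∃ w : W, ctRed p b w = v := by
  choose f hf using ct_toZMod_surjective p
  refine ⟨∑ j, f (v j) • b j, ?_⟩
  ext k
  rw [ctRed, b.repr_sum_self (fun j => f (v j))]
  exact hf _

theorem ctRed_eq_zero {w : W} (h : ctRed p b w = 0) :
    w ∈ (IsLocalRing.maximalIdeal ℤ_[p]) • (⊤ : Submodule ℤ_[p] W) := by
  rw [← b.sum_repr w]
  refine Submodule.sum_mem _ fun j _ => ?_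
  refine Submodule.smul_mem_smul ?_ Submodule.mem_top
  rw [← PadicInt.ker_toZMod, RingHom.mem_ker]
  exact congrFun h j

/-- the reduction of an endomorphism -/
noncomputable def ctBar [DecidableEq J] (T : W →ₗ[ℤ_[p]] W) :
    (J → ZMod p) →ₗ[ZMod p] (J → ZMod p) :=
  Matrix.toLin' ((LinearMap.toMatrix b b T).map PadicInt.toZMod)

theorem ctRed_map [DecidableEq J] (T : W →ₗ[ℤ_[p]] W) (w : W) :
    ctRed p b (T w) = ctBar p b T (ctRed p b w) := by
  ext j
  rw [ctBar, Matrix.toLin'_apply, ctRed, ← LinearMap.toMatrix_mulVec_repr b b T w]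
  simp only [Matrix.mulVec, dotProduct, map_sum, map_mul, Matrix.map_apply, ctRed]

theorem ctRed_map_pow [DecidableEq J] (T : W →ₗ[ℤ_[p]] W) (k : ℕ) (w : W) :
    ctRed p b ((T ^ k) w) = ((ctBar p b T) ^ k) (ctRed p b w) := by
  induction k with
  | zero => simp
  | succ k ih => rw [pow_succ', Module.End.mul_apply, ctRed_map, ih, pow_succ', Module.End.mul_apply]

/-- Nakayama -/
theorem ct_nakayama (S : Submodule ℤ_[p] W) (h : ∀ v : J → ZMod p, ∃ s ∈ S, ctRed p b s = v) :
    S = ⊤ := by
  have hfg : (⊤ : Submodule ℤ_[p] W).FG := by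
    have : Module.Finite ℤ_[p] W := Module.Finite.of_basis b
    exact Module.finite_def.1 this
  have hJ : IsLocalRing.maximalIdeal ℤ_[p] ≤ Ideal.jacobson ⊥ := by
    rw [IsLocalRing.jacobson_eq_maximalIdeal _ bot_ne_top]
  apply top_le_iff.1
  refine Submodule.le_of_le_smul_of_le_jacobson_bot hfg hJ ?_
  intro w _
  obtain ⟨s, hs, hsw⟩ := h (ctRed p b w)
  have h1 : w - s ∈ (IsLocalRing.maximalIdeal ℤ_[p]) • (⊤ : Submodule ℤ_[p] W) := by
    apply ctRed_eq_zero p b
    rw [ctRed_sub, hsw, sub_self]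
  have h2 := Submodule.add_mem_sup hs h1
  rwa [add_sub_cancel] at h2

end reduction

theorem trace_eq_zero_of_free (p : ℕ) [Fact p.Prime] {W : Type*} [AddCommGroup W]
    [Module ℤ_[p] W] {ι : Type*} [Finite ι] (b : Module.Basis (ZMod p × ι) ℤ_[p] W) (T : W →ₗ[ℤ_[p]] W)
    (n : ℕ) (hT : T ^ (p ^ (n + 1)) = 1)
    (hb : ∀ (c : ZMod p) (i : ι), (T ^ (p ^ n)) (b (c, i)) = b (c + 1, i)) :
    LinearMap.trace ℤ_[p] W T = 0 := by
  classical
  have := Fintype.ofFinite ι
  have hp : p.Prime := Fact.out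
  set Tb := ctBar p b T with hTb
  -- the reduction of `T ^ (p ^ n)`
  have h1 : Tb ^ (p ^ n) = ctShift p ι := by
    apply LinearMap.pi_ext'
    rintro ⟨c, i⟩
    ext1
    simp only [LinearMap.comp_apply, LinearMap.single_apply]
    rw [← ctRed_basis p b (c, i), hTb, ← ctRed_map_pow, hb, ctRed_basis, ctRed_basis]
    ext ⟨d, j⟩
    rw [ctShift_apply, Pi.single_apply, Pi.single_apply]
    simp only [Prod.mk.injEq, sub_eq_iff_eq_add]
  have h2 := ct_count p n Tb h1
  set r := Module.finrank (ZMod p) (LinearMap.ker (Tb - 1)) with hr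
  have hTbP : Tb ^ (p ^ (n + 1)) = 1 := by
    apply LinearMap.ext
    intro v
    obtain ⟨w, rfl⟩ := ctRed_surjective p b v
    rw [hTb, ← ctRed_map_pow, hT]
    rfl
  have hnil : (Tb - 1) ^ (p ^ (n + 1)) = 0 := by
    rw [ct_sub_one_pow, hTbP, sub_self]
  -- complement of the range
  obtain ⟨Q, hQ⟩ := Submodule.exists_isCompl (LinearMap.range (Tb - 1))
  have hQr : Module.finrank (ZMod p) Q = r := by
    have e1 := Submodule.finrank_add_eq_of_isCompl hQ
    have e2 := LinearMap.finrank_range_add_finrank_ker (Tb - 1)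
    omega
  let bQ : Module.Basis (Fin r) (ZMod p) Q := Module.finBasisOfFinrankEq (ZMod p) Q hQr
  choose wl hwl using fun i => ctRed_surjective p b (bQ i : ZMod p × ι → ZMod p)
  have hPpos : 0 < p ^ (n + 1) := Nat.pos_of_ne_zero (pow_ne_zero _ hp.ne_zero)
  have : NeZero (p ^ (n + 1)) := ⟨hPpos.ne'⟩
  set v : Fin (p ^ (n + 1)) × Fin r → W := fun x => (T ^ (x.1 : ℕ)) (wl x.2) with hv
  have hTmod : ∀ m : ℕ, T ^ (m % p ^ (n + 1)) = T ^ m := by
    intro m
    conv_rhs => rw [← Nat.div_add_mod m (p ^ (n + 1)), pow_add, pow_mul, hT, one_pow, one_mul]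
  have hTv : ∀ a i, T (v (a, i)) = v (a + 1, i) := by
    intro a i
    simp only [hv]
    have h3 : T ^ (((a + 1 : Fin (p ^ (n + 1))) : ℕ)) = T ^ ((a : ℕ) + 1) := by
      rw [Fin.val_add, hTmod, pow_add, Fin.val_one', hTmod, pow_one]
      exact (pow_succ T (a : ℕ)).symm
    rw [h3, ← Module.End.mul_apply, ← pow_succ']
  -- the reductions of the span
  have hspan : Submodule.span ℤ_[p] (Set.range v) = ⊤ := by
    apply ct_nakayama p b
    -- the span downstairs
    set Sb : Submodule (ZMod p) (ZMod p × ι → ZMod p) :=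
      Submodule.span (ZMod p) (Set.range fun x => ctRed p b (v x)) with hSb
    have hSbT : ∀ f ∈ Sb, Tb f ∈ Sb := by
      intro f hf
      induction hf using Submodule.span_induction with
      | mem x hx =>
        obtain ⟨⟨a, i⟩, rfl⟩ := hx
        simp only
        rw [hTb, ← ctRed_map, hTv]
        exact Submodule.subset_span ⟨_, rfl⟩
      | zero => rw [map_zero]; exact Sb.zero_mem
      | add x y _ _ hx hy => rw [map_add]; exact Sb.add_mem hx hy
      | smul a x _ hx => rw [map_smul]; exact Sb.smul_mem a hx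
    have hQS : Q ≤ Sb := by
      intro f hf
      have h3 := bQ.sum_repr ⟨f, hf⟩
      have h4 := congrArg Subtype.val h3
      simp only [AddSubmonoidClass.coe_finsetSum, Submodule.coe_smul] at h4
      rw [← h4]
      refine Sb.sum_mem fun i _ => Sb.smul_mem _ ?_
      rw [← hwl i]
      refine Submodule.subset_span ⟨(0, i), ?_⟩
      simp [hv]
    have hSbtop : Sb = ⊤ := by
      apply ct_span_of_nilpotent Tb _ hnil Sb hSbT
      rw [← hQ.sup_eq_top, sup_comm]
      exact sup_le_sup_right hQS _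
    intro f
    have hf : f ∈ Sb := by rw [hSbtop]; exact Submodule.mem_top
    rw [hSb, Submodule.mem_span_range_iff_exists_fun] at hf
    obtain ⟨c, hc⟩ := hf
    choose l hl using ct_toZMod_surjective p
    refine ⟨∑ x, l (c x) • v x, Submodule.sum_mem _ fun x _ =>
      Submodule.smul_mem _ _ (Submodule.subset_span ⟨x, rfl⟩), ?_⟩
    rw [ctRed_sum, ← hc]
    refine Finset.sum_congr rfl fun x _ => ?_
    rw [ctRed_smul, hl]
  have hcard : Fintype.card (Fin (p ^ (n + 1)) × Fin r) = Module.finrank ℤ_[p] W := by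
    rw [Module.finrank_eq_card_basis b, Fintype.card_prod, Fintype.card_prod, Fintype.card_fin,
      Fintype.card_fin, ZMod.card, pow_succ', mul_assoc, h2]
  let B : Module.Basis (Fin (p ^ (n + 1)) × Fin r) ℤ_[p] W :=
    basisOfTopLeSpanOfCardEqFinrank v hspan.ge hcard
  have hB : ∀ x, B x = v x := fun x => by
    simp only [B, coe_basisOfTopLeSpanOfCardEqFinrank]
  rw [LinearMap.trace_eq_matrix_trace ℤ_[p] B T, Matrix.trace]
  refine Finset.sum_eq_zero ?_
  rintro ⟨a, i⟩ _
  rw [Matrix.diag_apply, LinearMap.toMatrix_apply, hB, hTv, ← hB, B.repr_self,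
    Finsupp.single_apply, if_neg]
  intro h
  have h3 : a + 1 = a := (Prod.ext_iff.1 h).1
  have h4 : (1 : Fin (p ^ (n + 1))) = 0 := by simpa using h3
  have h5 : 1 < p ^ (n + 1) := Nat.one_lt_pow (by omega) hp.one_lt
  have h6 := congrArg Fin.val h4
  rw [Fin.val_one', Fin.val_zero, Nat.mod_eq_of_lt h5] at h6
  exact one_ne_zero h6

end Pool.Agent.H4.Atiyah
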