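import Mathlib

/-!
# Strong Atiyah conjecture for `GL_m(ℤ)` : common definitions
-/

set_option autoImplicit false

open Filter Topology

namespace Pool.Agent.H4.Atiyah

/-! ## Norms, matrices of group algebras -/

/-- Euclidean norm of a finite complex vector. -/
noncomputable def nrm {ι : Type*} [Fintype ι] (x : ι → ℂ) : ℝ := Real.sqrt (∑ i, ‖x i‖ ^ 2)

/-- The matrix over `F` of the right multiplication by a matrix `A` over the group algebra `F[Q]`
on row vectors of functions on `Q` (row vectors `x : k × Q → F`, `(x ᵥ* op A) (i, h) = ∑_{j,g} x (j, g) A j i (g⁻¹ h)`). -/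
def op {F : Type*} [Semiring F] {Q : Type*} [Group Q] {k n : Type*}
    (A : Matrix k n (MonoidAlgebra F Q)) : Matrix (k × Q) (n × Q) F :=
  Matrix.of fun x y => (A x.1 y.1).coeff (x.2⁻¹ * y.2)

/-- The right regular representation `F[Q] → Mat_Q(F)`, a ring homomorphism. -/
noncomputable def reg (F : Type*) [CommRing F] (Q : Type*) [Group Q] [Fintype Q] [DecidableEq Q] :
    MonoidAlgebra F Q →ₐ[F] Matrix Q Q F :=
  MonoidAlgebra.lift F (Matrix Q Q F) Q
    { toFun := fun q => Matrix.of fun g h => if g * q = h then 1 else 0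
      map_one' := by
        ext g h
        simp [Matrix.one_apply]
      map_mul' := by
        intro a b
        ext g h
        simp only [Matrix.of_apply, Matrix.mul_apply]
        rw [Finset.sum_eq_single (g * a)]
        · simp [mul_assoc]
        · intro j _ hj
          rw [if_neg (Ne.symm hj), zero_mul]
        · simp }

theorem reg_apply {F : Type*} [CommRing F] {Q : Type*} [Group Q] [Fintype Q] [DecidableEq Q]
    (a : MonoidAlgebra F Q) (g h : Q) : reg F Q a g h = a.coeff (g⁻¹ * h) := by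
  classical
  unfold reg
  rw [MonoidAlgebra.lift_apply, Finsupp.sum_fintype _ _ (by simp)]
  rw [Matrix.sum_apply]
  simp only [MonoidHom.coe_mk, OneHom.coe_mk, Matrix.smul_apply, Matrix.of_apply, smul_eq_mul,
    mul_ite, mul_one, mul_zero]
  rw [Finset.sum_eq_single (g⁻¹ * h)]
  · simp
  · intro b _ hb
    rw [if_neg]
    rintro rfl
    exact hb (by group)
  · simp

/-! ## The ultrafilter -/

/-- a fixed non-principal ultrafilter on `ℕ` -/
noncomputable def om : Ultrafilter ℕ := Filter.hyperfilter ℕ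

/-- limit along `om` (junk if unbounded) -/
noncomputable def omLim (f : ℕ → ℝ) : ℝ := limUnder (om : Filter ℕ) f

theorem om_of_atTop {P : ℕ → Prop} (h : ∀ᶠ j in atTop, P j) : ∀ᶠ j in (om : Filter ℕ), P j := by
  have : (om : Filter ℕ) ≤ atTop := by
    rw [← Nat.cofinite_eq_atTop]
    exact Filter.hyperfilter_le_cofinite
  exact this h

theorem tendsto_omLim {f : ℕ → ℝ} {a b : ℝ} (h : ∀ j, a ≤ f j ∧ f j ≤ b) :
    Tendsto f (om : Filter ℕ) (𝓝 (omLim f)) := by
  have hK : IsCompact (Set.Icc a b) := isCompact_Icc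
  have h1 : ((om.map f : Ultrafilter ℝ) : Filter ℝ) ≤ 𝓟 (Set.Icc a b) := by
    rw [Filter.le_principal_iff]
    exact Filter.mem_map.mpr (Filter.Eventually.of_forall fun j => h j)
  obtain ⟨x, _, hx⟩ := hK.ultrafilter_le_nhds (om.map f) h1
  have hx' : Tendsto f (om : Filter ℕ) (𝓝 x) := hx
  exact tendsto_nhds_limUnder ⟨x, hx'⟩

theorem omLim_eq {f : ℕ → ℝ} {x : ℝ} (h : Tendsto f (om : Filter ℕ) (𝓝 x)) : omLim f = x :=
  h.limUnder_eq

/-! ## Systems of finite quotients, towers -/

/-- A group with a sequence of finite quotients. -/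
structure Sys where
  /-- the group -/
  G : Type
  [grpG : Group G]
  /-- the finite quotients -/
  Q : ℕ → Type
  [grpQ : ∀ j, Group (Q j)]
  [finQ : ∀ j, Fintype (Q j)]
  [decQ : ∀ j, DecidableEq (Q j)]
  /-- the projections -/
  π : ∀ j, G →* Q j
  π_surj : ∀ j, Function.Surjective (π j)
  /-- the transition maps -/
  tr : ∀ j, Q (j + 1) →* Q j
  tr_π : ∀ j g, tr j (π (j + 1) g) = π j g

attribute [instance] Sys.grpG Sys.grpQ Sys.finQ Sys.decQ

/-- The square of a system. -/
abbrev Sys.sq (𝒯 : Sys) : Sys where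
  G := 𝒯.G × 𝒯.G
  Q := fun j => 𝒯.Q j × 𝒯.Q j
  π := fun j => (𝒯.π j).prodMap (𝒯.π j)
  π_surj := fun j => (𝒯.π_surj j).prodMap (𝒯.π_surj j)
  tr := fun j => (𝒯.tr j).prodMap (𝒯.tr j)
  tr_π := by
    rintro j ⟨g, h⟩
    simp [𝒯.tr_π]

/-- `IsTower p 𝒯 d x` : the group `𝒯.G` behaves like a uniform pro-`p` group of dimension `d` with
ordered generators `x`, where `𝒯.Q j` is the quotient by the `p^j`-th powers and commutators are
trivial in level `2`. -/
structure IsTower (p : ℕ) (𝒯 : Sys) (d : ℕ) (x : Fin d → 𝒯.G) : Prop where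
  card : ∀ j, Fintype.card (𝒯.Q j) = p ^ (j * d)
  pow : ∀ j l, 𝒯.π j (x l ^ p ^ j) = 1
  gen : ∀ j (q : 𝒯.Q j), ∃ a : Fin d → ℕ, (∀ l, a l < p ^ j) ∧
    𝒯.π j ((List.ofFn fun l => x l ^ a l).prod) = q
  comm : ∀ l l', 𝒯.π 2 (x l * x l' * (x l)⁻¹ * (x l')⁻¹) = 1

/-- The completed group ring: compatible sequences in `∏ C[Q_j]`. -/
noncomputable def Lam (C : Type) [CommRing C] (𝒯 : Sys) : Subring (∀ j, MonoidAlgebra C (𝒯.Q j)) where
  carrier := {a | ∀ j, MonoidAlgebra.mapDomainRingHom C (𝒯.tr j) (a (j + 1)) = a j}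
  mul_mem' := by
    intro a b ha hb j
    simp only [Set.mem_ofPred_eq, Pi.mul_apply, map_mul] at *
    rw [ha j, hb j]
  one_mem' := by
    intro j
    simp
  add_mem' := by
    intro a b ha hb j
    simp only [Set.mem_ofPred_eq, Pi.add_apply, map_add] at *
    rw [ha j, hb j]
  zero_mem' := by
    intro j
    simp
  neg_mem' := by
    intro a ha j
    simp only [Set.mem_ofPred_eq, Pi.neg_apply, map_neg] at *
    rw [ha j]

/-- The map from the group ring to the completed group ring. -/
noncomputable def toLam (C : Type) [CommRing C] (𝒯 : Sys) : MonoidAlgebra C 𝒯.G →+* Lam C 𝒯 :=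
  RingHom.codRestrict (RingHom.pi fun j => MonoidAlgebra.mapDomainRingHom C (𝒯.π j)) (Lam C 𝒯) (by
    intro a j
    have h : (𝒯.tr j).comp (𝒯.π (j + 1)) = 𝒯.π j := MonoidHom.ext (𝒯.tr_π j)
    change MonoidAlgebra.mapDomainRingHom C (𝒯.tr j)
      (MonoidAlgebra.mapDomainRingHom C (𝒯.π (j + 1)) a) = MonoidAlgebra.mapDomainRingHom C (𝒯.π j) a
    rw [← RingHom.comp_apply, ← MonoidAlgebra.mapDomainRingHom_comp, h])

/-! ## Matrix rank functions -/

/-- An abstract (Sylvester) matrix rank function. -/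
structure MatRank (R : Type) [Ring R] where
  /-- the rank -/
  rk : ∀ {m n : Type} [Fintype m] [Fintype n], Matrix m n R → ℝ
  mul_left : ∀ {l m n : Type} [Fintype l] [Fintype m] [Fintype n] (A : Matrix l m R)
    (B : Matrix m n R), rk (A * B) ≤ rk A
  mul_right : ∀ {l m n : Type} [Fintype l] [Fintype m] [Fintype n] (A : Matrix l m R)
    (B : Matrix m n R), rk (A * B) ≤ rk B
  blocks : ∀ {m n m' n' : Type} [Fintype m] [Fintype n] [Fintype m'] [Fintype n']
    (A : Matrix m n R) (B : Matrix m' n' R), rk (Matrix.fromBlocks A 0 0 B) = rk A + rk B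
  one : ∀ {n : Type} [Fintype n] [DecidableEq n], rk (1 : Matrix n n R) = Fintype.card n

/-- Regular rank functions: faithful, and full matrices are invertible. -/
structure MatRank.Regular {R : Type} [Ring R] (ρ : MatRank R) : Prop where
  eq_zero : ∀ x : R, ρ.rk (Matrix.of fun (_ _ : Unit) => x) = 0 → x = 0
  isUnit : ∀ {n : Type} [Fintype n] [DecidableEq n] (T : Matrix n n R),
    ρ.rk T = Fintype.card n → IsUnit T

/-! ## The algebraic ultraproduct -/

section UAlg

variable (F : Type) [Field F] (X : ℕ → Type) [∀ j, Fintype (X j)] [∀ j, DecidableEq (X j)]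

variable {F X} in
theorem rank_add_le' {F : Type*} [Field F] {m n : Type*} [Fintype m] [Fintype n]
    (A B : Matrix m n F) : (A + B).rank ≤ A.rank + B.rank := by
  have h := Submodule.finrank_add_le_finrank_add_finrank (LinearMap.range A.mulVecLin)
    (LinearMap.range B.mulVecLin)
  refine le_trans ?_ h
  unfold Matrix.rank
  rw [Matrix.mulVecLin_add]
  exact Submodule.finrank_mono (LinearMap.range_add_le _ _)

/-- sequences of square matrices -/
abbrev Seq := ∀ j, Matrix (X j) (X j) F

/-- sequences whose normalized rank tends to `0` -/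
def algNull : Ideal (Seq F X) where
  carrier := {a | ∀ ε > (0 : ℝ), ∀ᶠ j in (om : Filter ℕ),
    ((a j).rank : ℝ) ≤ ε * Fintype.card (X j)}
  add_mem' := by
    intro a b ha hb ε hε
    filter_upwards [ha (ε / 2) (by positivity), hb (ε / 2) (by positivity)] with j h1 h2
    have : ((a j + b j).rank : ℝ) ≤ (a j).rank + (b j).rank := by
      exact_mod_cast rank_add_le' _ _
    calc (((a + b) j).rank : ℝ) ≤ (a j).rank + (b j).rank := this
      _ ≤ ε / 2 * Fintype.card (X j) + ε / 2 * Fintype.card (X j) := add_le_add h1 h2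
      _ = ε * Fintype.card (X j) := by ring
  zero_mem' := by
    intro ε hε
    refine Eventually.of_forall fun j => ?_
    simp only [Pi.zero_apply, Matrix.rank_zero, Nat.cast_zero]
    positivity
  smul_mem' := by
    intro c a ha ε hε
    filter_upwards [ha ε hε] with j h1
    refine le_trans ?_ h1
    exact_mod_cast Matrix.rank_mul_le_right _ _

instance : (algNull F X).IsTwoSided where
  mul_mem_of_left := by
    intro a b ha ε hε
    filter_upwards [ha ε hε] with j h1
    refine le_trans ?_ h1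
    exact_mod_cast Matrix.rank_mul_le_left _ _

/-- The algebraic ultraproduct of matrix rings (modulo normalized rank `0`). -/
def UAlg := Seq F X ⧸ algNull F X

noncomputable instance : Ring (UAlg F X) := Ideal.Quotient.ring (algNull F X)

/-- The class of a sequence in the algebraic ultraproduct. -/
noncomputable def UAlg.mk : Seq F X →+* UAlg F X := Ideal.Quotient.mk (algNull F X)

variable {F X}

theorem UAlg.mk_surjective : Function.Surjective (UAlg.mk F X) := Ideal.Quotient.mk_surjective

theorem UAlg.mk_eq_zero {a : Seq F X} : UAlg.mk F X a = 0 ↔ a ∈ algNull F X :=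
  Ideal.Quotient.eq_zero_iff_mem

theorem UAlg.mk_eq_mk {a b : Seq F X} : UAlg.mk F X a = UAlg.mk F X b ↔ a - b ∈ algNull F X := by
  rw [← UAlg.mk_eq_zero, map_sub, sub_eq_zero]

/-- Universal property of the algebraic ultraproduct. -/
noncomputable def UAlg.lift {S : Type*} [Ring S] (f : Seq F X →+* S) (hf : ∀ a ∈ algNull F X, f a = 0) :
    UAlg F X →+* S := Ideal.Quotient.lift (algNull F X) f hf

@[simp] theorem UAlg.lift_mk {S : Type*} [Ring S] (f : Seq F X →+* S)
    (hf : ∀ a ∈ algNull F X, f a = 0) (a : Seq F X) : UAlg.lift f hf (UAlg.mk F X a) = f a := rfl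

/-- flattening of a matrix of sequences -/
def flat {R : Type*} {X : ℕ → Type} {m n : Type*} (A : Matrix m n (∀ j, Matrix (X j) (X j) R)) (j : ℕ) :
    Matrix (m × X j) (n × X j) R :=
  Matrix.of fun x y => A x.1 y.1 j x.2 y.2

end UAlg

/-! ## The analytic ultraproduct (essentially bounded sequences) -/

section UEss

/-- `M` is bounded by `C` on a subspace of (row vectors of) codimension at most `s`. -/
def SmallOn {m n : Type*} [Fintype m] [Fintype n] (M : Matrix m n ℂ) (s C : ℝ) : Prop :=
  ∃ V : Submodule ℂ (m → ℂ), (Fintype.card m : ℝ) ≤ Module.finrank ℂ V + s ∧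
    ∀ x ∈ V, nrm (Matrix.vecMul x M) ≤ C * nrm x

/-- largest dimension of a subspace of row vectors on which `M` has norm `≤ ε` -/
noncomputable def smallDim {m n : Type*} [Fintype m] [Fintype n] (M : Matrix m n ℂ) (ε : ℝ) : ℕ :=
  sSup {d : ℕ | ∃ V : Submodule ℂ (m → ℂ), Module.finrank ℂ V = d ∧
    ∀ x ∈ V, nrm (Matrix.vecMul x M) ≤ ε * nrm x}

end UEss

end Pool.Agent.H4.Atiyah
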