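import Pool.Agent.H4.Atiyah.RankLib

/-!
# Divisibility of ranks: from free modules to all finitely generated modules
-/

set_option autoImplicit false

open CategoryTheory

namespace Pool.Agent.H4.Atiyah

theorem dvd_finrank_aux {Λ Λ' : Type} [Ring Λ] [IsDomain Λ] [IsNoetherianRing Λ] [Ring Λ']
    (ι : Λ →+* Λ') [Module Λ Λ'] (hι : ∀ (a : Λ) (x : Λ'), a • x = ι a * x) [Module.Free Λ Λ']
    [Module.Finite Λ Λ']
    (hfree : ∀ (M : Type) [AddCommGroup M] [Module Λ M] [Module.Finite Λ M]
      [Module.Projective Λ M], Module.Free Λ M) (c : ℕ)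
    (hc : ∀ (Z : Type) [AddCommGroup Z] [Module Λ' Z] [Module Λ Z],
      (∀ (a : Λ) (v : Z), a • v = ι a • v) → Module.Free Λ Z → Module.Finite Λ Z →
        Module.finrank Λ Λ' ∣ Module.finrank Λ Z * c) (t : ℕ) :
    ∀ (M : Type) [AddCommGroup M] [Module Λ' M] [Module Λ M]
      (_ : ∀ (a : Λ) (v : M), a • v = ι a • v) [Module.Finite Λ' M]
      (_ : HasProjectiveDimensionLT (ModuleCat.of Λ M) (t + 1)),
      Module.finrank Λ Λ' ∣ Module.finrank Λ M * c := by
  induction t with
  | zero =>
    intro M _ _ _ hM _ hpd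
    have hst : IsScalarTower Λ Λ' M := ⟨fun a x v => by
      rw [hι, mul_smul, ← hM]⟩
    have hfin : Module.Finite Λ M := Module.Finite.trans Λ' M
    have hproj : Module.Projective Λ M := by
      rw [IsProjective.iff_projective]
      exact projective_iff_hasProjectiveDimensionLT_one.2 hpd
    exact hc M hM (hfree M) hfin
  | succ t ih =>
    intro M _ _ _ hM _ hpd
    have hst : IsScalarTower Λ Λ' M := ⟨fun a x v => by
      rw [hι, mul_smul, ← hM]⟩
    have hst' : IsScalarTower Λ Λ' Λ' := ⟨fun a x v => by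
      rw [hι, smul_eq_mul, mul_assoc, hι, smul_eq_mul]⟩
    have hfin : Module.Finite Λ M := Module.Finite.trans Λ' M
    have hN : IsNoetherianRing Λ' := isNoetherian_of_tower Λ inferInstance
    obtain ⟨n, f, hf⟩ := Module.Finite.exists_fin' Λ' M
    have hpi : ∀ (a : Λ) (v : Fin n → Λ'), a • v = ι a • v := fun a v => by
      ext i
      exact hι a (v i)
    have hK : ∀ (a : Λ) (v : LinearMap.ker f), a • v = ι a • v := fun a v =>
      Subtype.ext (hpi a v.1)
    let g : (Fin n → Λ') →ₗ[Λ] M := f.restrictScalars Λ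
    have hg : Function.Surjective g := hf
    have hS := LinearMap.shortExact_shortComplexKer hg
    have hfinpi : Module.Finite Λ (Fin n → Λ') := inferInstance
    have hprojpi : Projective (ModuleCat.of Λ (Fin n → Λ')) :=
      (IsProjective.iff_projective _).1 inferInstance
    have hpdK : HasProjectiveDimensionLT (ModuleCat.of Λ (LinearMap.ker g)) (t + 1) :=
      (hS.hasProjectiveDimensionLT_X₃_iff t hprojpi).1 hpd
    have h1 : Module.finrank Λ Λ' ∣ Module.finrank Λ (LinearMap.ker f) * c :=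
      ih (LinearMap.ker f) hK hpdK
    have h2 : Module.finrank Λ Λ' ∣ Module.finrank Λ (LinearMap.ker g) * c := h1
    have hrn : HasRankNullity.{0} Λ := hasRankNullity_of_isDomain Λ
    have h3 := (LinearMap.ker g).finrank_quotient_add_finrank
    have h4 : Module.finrank Λ ((Fin n → Λ') ⧸ LinearMap.ker g) = Module.finrank Λ M :=
      (LinearMap.quotKerEquivOfSurjective g hg).finrank_eq
    have h5 : Module.finrank Λ (Fin n → Λ') = n * Module.finrank Λ Λ' := by
      rw [Module.finrank_pi_fintype]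
      simp
    rw [h4, h5] at h3
    have h6 : Module.finrank Λ Λ' ∣ Module.finrank Λ M * c + Module.finrank Λ (LinearMap.ker g) * c := by
      rw [← add_mul, h3, mul_assoc, mul_comm n, mul_assoc]
      exact dvd_mul_right _ _
    exact (Nat.dvd_add_iff_left h2).2 h6

theorem dvd_finrank {Λ Λ' : Type} [Ring Λ] [IsDomain Λ] [IsNoetherianRing Λ] [Ring Λ']
    (ι : Λ →+* Λ') [Module Λ Λ'] (hι : ∀ (a : Λ) (x : Λ'), a • x = ι a * x) [Module.Free Λ Λ']
    [Module.Finite Λ Λ']
    (hfree : ∀ (M : Type) [AddCommGroup M] [Module Λ M] [Module.Finite Λ M]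
      [Module.Projective Λ M], Module.Free Λ M) (N : ℕ)
    (hpd : ∀ (M : Type) [AddCommGroup M] [Module Λ M] [Module.Finite Λ M],
      HasProjectiveDimensionLT (ModuleCat.of Λ M) (N + 1)) (c : ℕ)
    (hc : ∀ (Z : Type) [AddCommGroup Z] [Module Λ' Z] [Module Λ Z],
      (∀ (a : Λ) (v : Z), a • v = ι a • v) → Module.Free Λ Z → Module.Finite Λ Z →
        Module.finrank Λ Λ' ∣ Module.finrank Λ Z * c)
    (M : Type) [AddCommGroup M] [Module Λ' M] [Module Λ M]
    (hM : ∀ (a : Λ) (v : M), a • v = ι a • v) [Module.Finite Λ' M] :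
    Module.finrank Λ Λ' ∣ Module.finrank Λ M * c := by
  have hst : IsScalarTower Λ Λ' M := ⟨fun a x v => by
    rw [hι, mul_smul, ← hM]⟩
  have hfin : Module.Finite Λ M := Module.Finite.trans Λ' M
  exact dvd_finrank_aux ι hι hfree c hc N M hM (hpd M)

end Pool.Agent.H4.Atiyah
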