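import Pool.Agent.H4.Atiyah.Defs

/-!
# Essentially bounded sequences of matrices
-/

set_option autoImplicit false

open Filter Topology

namespace Pool.Agent.H4.Atiyah

section nrm

variable {ι κ : Type*} [Fintype ι] [Fintype κ]

theorem nrm_eq (x : ι → ℂ) : nrm x = ‖WithLp.toLp 2 x‖ := by
  rw [EuclideanSpace.norm_eq]; rfl

theorem nrm_nonneg (x : ι → ℂ) : 0 ≤ nrm x := Real.sqrt_nonneg _

theorem nrm_sq (x : ι → ℂ) : nrm x ^ 2 = ∑ i, ‖x i‖ ^ 2 :=
  Real.sq_sqrt (Finset.sum_nonneg fun _ _ => by positivity)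

@[simp] theorem nrm_zero : nrm (0 : ι → ℂ) = 0 := by simp [nrm]

theorem nrm_add_le (x y : ι → ℂ) : nrm (x + y) ≤ nrm x + nrm y := by
  simp only [nrm_eq, WithLp.toLp_add]
  exact norm_add_le _ _

theorem nrm_smul (c : ℂ) (x : ι → ℂ) : nrm (c • x) = ‖c‖ * nrm x := by
  simp only [nrm_eq, WithLp.toLp_smul]
  exact norm_smul _ _

theorem nrm_neg (x : ι → ℂ) : nrm (-x) = nrm x := by
  simp only [nrm_eq, WithLp.toLp_neg, norm_neg]

theorem nrm_eq_zero {x : ι → ℂ} : nrm x = 0 ↔ x = 0 := by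
  rw [nrm_eq, norm_eq_zero]
  exact WithLp.toLp_eq_zero 2

end nrm

section SmallOn

variable {l m n : Type*} [Fintype l] [Fintype m] [Fintype n]

theorem SmallOn.mono {M : Matrix m n ℂ} {s s' C C' : ℝ} (h : SmallOn M s C) (hs : s ≤ s')
    (hC : C ≤ C') : SmallOn M s' C' := by
  obtain ⟨V, h1, h2⟩ := h
  exact ⟨V, h1.trans (by linarith), fun x hx => (h2 x hx).trans
    (mul_le_mul_of_nonneg_right hC (nrm_nonneg x))⟩

theorem SmallOn.add {M N : Matrix m n ℂ} {s s' C C' : ℝ} (h : SmallOn M s C)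
    (h' : SmallOn N s' C') : SmallOn (M + N) (s + s') (C + C') := by
  obtain ⟨V, h1, h2⟩ := h
  obtain ⟨W, h3, h4⟩ := h'
  refine ⟨V ⊓ W, ?_, ?_⟩
  · have h5 := Submodule.finrank_sup_add_finrank_inf_eq V W
    have h6 : Module.finrank ℂ ↥(V ⊔ W) ≤ Fintype.card m := by
      have := Submodule.finrank_le (V ⊔ W)
      simpa using this
    have h7 : (Module.finrank ℂ ↥(V ⊔ W) : ℝ) ≤ Fintype.card m := by exact_mod_cast h6
    have h8 : (Module.finrank ℂ ↥(V ⊔ W) : ℝ) + Module.finrank ℂ ↥(V ⊓ W) =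
      Module.finrank ℂ V + Module.finrank ℂ W := by exact_mod_cast h5
    linarith
  · rintro x ⟨hx1, hx2⟩
    rw [Matrix.vecMul_add]
    calc _ ≤ _ := nrm_add_le _ _
      _ ≤ C * nrm x + C' * nrm x := add_le_add (h2 x hx1) (h4 x hx2)
      _ = _ := by ring

theorem SmallOn.neg {M : Matrix m n ℂ} {s C : ℝ} (h : SmallOn M s C) : SmallOn (-M) s C := by
  obtain ⟨V, h1, h2⟩ := h
  refine ⟨V, h1, fun x hx => ?_⟩
  rw [Matrix.vecMul_neg, nrm_neg]
  exact h2 x hx

theorem SmallOn.zero (s : ℝ) (hs : 0 ≤ s) : SmallOn (0 : Matrix m n ℂ) s 0 := by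
  refine ⟨⊤, ?_, fun x _ => ?_⟩
  · simp [hs]
  · simp

theorem SmallOn.one [DecidableEq m] (s : ℝ) (hs : 0 ≤ s) : SmallOn (1 : Matrix m m ℂ) s 1 := by
  refine ⟨⊤, ?_, fun x _ => ?_⟩
  · simp [hs]
  · simp

theorem SmallOn.mul {M : Matrix l m ℂ} {N : Matrix m n ℂ} {s s' C C' : ℝ} (hC' : 0 ≤ C')
    (h : SmallOn M s C) (h' : SmallOn N s' C') : SmallOn (M * N) (s + s') (C' * C) := by
  obtain ⟨V, h1, h2⟩ := h
  obtain ⟨W, h3, h4⟩ := h'
  refine ⟨V ⊓ W.comap M.vecMulLinear, ?_, ?_⟩
  · have h5 := Submodule.finrank_sup_add_finrank_inf_eq V (W.comap M.vecMulLinear)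
    have h6 : Module.finrank ℂ ↥(V ⊔ (W.comap M.vecMulLinear)) ≤ Fintype.card l := by
      have := Submodule.finrank_le (V ⊔ (W.comap M.vecMulLinear))
      simpa using this
    -- codimension of comap
    have h9 : Fintype.card l + Module.finrank ℂ W ≤
        Module.finrank ℂ ↥(W.comap M.vecMulLinear) + Fintype.card m := by
      have hq := LinearMap.finrank_range_add_finrank_ker (W.mkQ.comp M.vecMulLinear)
      have hker : LinearMap.ker (W.mkQ.comp M.vecMulLinear) = W.comap M.vecMulLinear := by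
        rw [LinearMap.ker_comp, Submodule.ker_mkQ]
      rw [hker] at hq
      have hr : Module.finrank ℂ (LinearMap.range (W.mkQ.comp M.vecMulLinear)) ≤
          Module.finrank ℂ ((m → ℂ) ⧸ W) := Submodule.finrank_le _
      have hw := Submodule.finrank_quotient_add_finrank W
      simp only [Module.finrank_fintype_fun_eq_card] at hq hw
      omega
    have h7 : (Module.finrank ℂ ↥(V ⊔ (W.comap M.vecMulLinear)) : ℝ) ≤ Fintype.card l := by
      exact_mod_cast h6
    have h8 : (Module.finrank ℂ ↥(V ⊔ (W.comap M.vecMulLinear)) : ℝ) +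
        Module.finrank ℂ ↥(V ⊓ (W.comap M.vecMulLinear)) =
      Module.finrank ℂ V + Module.finrank ℂ ↥(W.comap M.vecMulLinear) := by exact_mod_cast h5
    have h10 : (Fintype.card l : ℝ) + Module.finrank ℂ W ≤
        Module.finrank ℂ ↥(W.comap M.vecMulLinear) + Fintype.card m := by exact_mod_cast h9
    linarith
  · rintro x ⟨hx1, hx2⟩
    rw [← Matrix.vecMul_vecMul]
    calc _ ≤ C' * nrm (Matrix.vecMul x M) := h4 _ hx2
      _ ≤ C' * (C * nrm x) := mul_le_mul_of_nonneg_left (h2 x hx1) hC'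
      _ = _ := by ring

end SmallOn

section UEss

variable (X : ℕ → Type) [∀ j, Fintype (X j)] [∀ j, DecidableEq (X j)]

/-- The ring of essentially bounded sequences: for each `η > 0` the matrices are uniformly bounded
on subspaces of normalized codimension at most `η`. -/
noncomputable def essBdd : Subring (Seq ℂ X) where
  carrier := {a | ∀ η > (0 : ℝ), ∃ C : ℝ, 0 ≤ C ∧ ∀ᶠ j in (om : Filter ℕ),
    SmallOn (a j) (η * Fintype.card (X j)) C}
  mul_mem' := by
    intro a b ha hb η hη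
    obtain ⟨C, hC, h1⟩ := ha (η / 2) (by positivity)
    obtain ⟨C', hC', h2⟩ := hb (η / 2) (by positivity)
    refine ⟨C' * C, by positivity, ?_⟩
    filter_upwards [h1, h2] with j h1 h2
    have := h1.mul hC' h2
    refine this.mono (le_of_eq (by ring)) le_rfl
  one_mem' := by
    intro η hη
    refine ⟨1, by norm_num, Eventually.of_forall fun j => SmallOn.one _ (by positivity)⟩
  add_mem' := by
    intro a b ha hb η hη
    obtain ⟨C, hC, h1⟩ := ha (η / 2) (by positivity)
    obtain ⟨C', hC', h2⟩ := hb (η / 2) (by positivity)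
    refine ⟨C + C', by positivity, ?_⟩
    filter_upwards [h1, h2] with j h1 h2
    have := h1.add h2
    refine this.mono (le_of_eq (by ring)) le_rfl
  zero_mem' := by
    intro η hη
    refine ⟨0, le_rfl, Eventually.of_forall fun j => SmallOn.zero _ (by positivity)⟩
  neg_mem' := by
    intro a ha η hη
    obtain ⟨C, hC, h1⟩ := ha η hη
    refine ⟨C, hC, ?_⟩
    filter_upwards [h1] with j h1
    exact h1.neg

/-- The ideal of essentially null sequences. -/
noncomputable def essNull : Ideal (essBdd X) where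
  carrier := {a | ∀ η > (0 : ℝ), ∀ ε > (0 : ℝ), ∀ᶠ j in (om : Filter ℕ),
    SmallOn (a.1 j) (η * Fintype.card (X j)) ε}
  add_mem' := by
    intro a b ha hb η hη ε hε
    filter_upwards [ha (η / 2) (by positivity) (ε / 2) (by positivity),
      hb (η / 2) (by positivity) (ε / 2) (by positivity)] with j h1 h2
    refine (h1.add h2).mono (le_of_eq (by ring)) (le_of_eq (by ring))
  zero_mem' := by
    intro η hη ε hε
    exact Eventually.of_forall fun j => (SmallOn.zero _ (by positivity)).mono le_rfl hε.le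
  smul_mem' := by
    intro c a ha η hη ε hε
    obtain ⟨C, hC, h1⟩ := c.2 (η / 2) (by positivity)
    filter_upwards [h1, ha (η / 2) (by positivity) (ε / (C + 1)) (by positivity)] with j h1 h2
    refine (h1.mul (by positivity) h2).mono (le_of_eq (by ring)) ?_
    rw [div_mul_eq_mul_div, div_le_iff₀ (by positivity)]
    nlinarith

instance : (essNull X).IsTwoSided where
  mul_mem_of_left := by
    intro a c ha η hη ε hε
    obtain ⟨C, hC, h1⟩ := c.2 (η / 2) (by positivity)
    filter_upwards [h1, ha (η / 2) (by positivity) (ε / (C + 1)) (by positivity)] with j h1 h2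
    refine (h2.mul hC h1).mono (le_of_eq (by ring)) ?_
    rw [mul_div_assoc', div_le_iff₀ (by positivity)]
    nlinarith

/-- The analytic ultraproduct (the ring of affiliated operators of the tracial ultraproduct). -/
def UEss := essBdd X ⧸ essNull X

noncomputable instance : Ring (UEss X) := Ideal.Quotient.ring (essNull X)

/-- The class of an essentially bounded sequence in the analytic ultraproduct. -/
noncomputable def UEss.mk : essBdd X →+* UEss X := Ideal.Quotient.mk (essNull X)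

variable {X}

theorem UEss.mk_surjective : Function.Surjective (UEss.mk X) := Ideal.Quotient.mk_surjective

theorem UEss.mk_eq_zero {a : essBdd X} : UEss.mk X a = 0 ↔ a ∈ essNull X :=
  Ideal.Quotient.eq_zero_iff_mem

theorem UEss.mk_eq_mk {a b : essBdd X} : UEss.mk X a = UEss.mk X b ↔ a - b ∈ essNull X := by
  rw [← UEss.mk_eq_zero, map_sub, sub_eq_zero]

/-- Universal property of the analytic ultraproduct. -/
noncomputable def UEss.lift {S : Type*} [Ring S] (f : essBdd X →+* S)
    (hf : ∀ a ∈ essNull X, f a = 0) : UEss X →+* S := Ideal.Quotient.lift (essNull X) f hf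

@[simp] theorem UEss.lift_mk {S : Type*} [Ring S] (f : essBdd X →+* S)
    (hf : ∀ a ∈ essNull X, f a = 0) (a : essBdd X) : UEss.lift f hf (UEss.mk X a) = f a := rfl

end UEss

/-- If `M` is bounded by `ε` on a subspace `V` then `finrank V ≤ smallDim M ε`. -/
theorem le_smallDim {m n : Type*} [Fintype m] [Fintype n] {M : Matrix m n ℂ} {ε : ℝ}
    (V : Submodule ℂ (m → ℂ)) (hV : ∀ x ∈ V, nrm (Matrix.vecMul x M) ≤ ε * nrm x) :
    Module.finrank ℂ V ≤ smallDim M ε := by
  refine le_csSup ⟨Fintype.card m, ?_⟩ ⟨V, rfl, hV⟩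
  rintro d ⟨V, rfl, -⟩
  simpa using Submodule.finrank_le V

theorem smallDim_le {m n : Type*} [Fintype m] [Fintype n] (M : Matrix m n ℂ) (ε : ℝ) :
    smallDim M ε ≤ Fintype.card m := by
  refine csSup_le ⟨0, ⊥, by simp, by rintro x hx; simp [(Submodule.mem_bot ℂ).1 hx]⟩ ?_
  rintro d ⟨V, rfl, -⟩
  simpa using Submodule.finrank_le V

theorem exists_smallDim {m n : Type*} [Fintype m] [Fintype n] (M : Matrix m n ℂ) (ε : ℝ) :
    ∃ V : Submodule ℂ (m → ℂ), Module.finrank ℂ V = smallDim M ε ∧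
      ∀ x ∈ V, nrm (Matrix.vecMul x M) ≤ ε * nrm x := by
  have h : smallDim M ε ∈ {d : ℕ | ∃ V : Submodule ℂ (m → ℂ), Module.finrank ℂ V = d ∧
      ∀ x ∈ V, nrm (Matrix.vecMul x M) ≤ ε * nrm x} := by
    refine Nat.sSup_mem ⟨0, ⊥, by simp, by rintro x hx; simp [(Submodule.mem_bot ℂ).1 hx]⟩
      ⟨Fintype.card m, ?_⟩
    rintro d ⟨V, rfl, -⟩
    simpa using Submodule.finrank_le V
  exact h

/-- Essential rank of a sequence of matrices (`s j` is the normalization). -/
noncomputable def essRk {m n : ℕ → Type*} [∀ j, Fintype (m j)] [∀ j, Fintype (n j)]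
    (M : ∀ j, Matrix (m j) (n j) ℂ) (s : ℕ → ℝ) : ℝ :=
  ⨆ k : ℕ, omLim (fun j => ((Fintype.card (m j) : ℝ) - smallDim (M j) (1 / (k + 1))) / s j)

end Pool.Agent.H4.Atiyah
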