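import Pool.Agent.H4.Atiyah.Maps

/-!
# Groups with a decreasing sequence of finite-index normal subgroups; filtered rings
-/

set_option autoImplicit false

open Filter Topology

namespace Pool.Agent.H4.Atiyah

/-- A group with a decreasing sequence of normal subgroups of finite index. -/
structure Filt where
  /-- the group -/
  G : Type
  [grpG : Group G]
  /-- the subgroups -/
  N : ℕ → Subgroup G
  [normal : ∀ j, (N j).Normal]
  [fin : ∀ j, (N j).FiniteIndex]
  anti : ∀ j, N (j + 1) ≤ N j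

attribute [instance] Filt.grpG Filt.normal Filt.fin

theorem Filt.antitone (ℱ : Filt) : Antitone ℱ.N := antitone_nat_of_succ_le ℱ.anti

/-- The system of finite quotients `G ⧸ N j`. -/
noncomputable abbrev Filt.sys (ℱ : Filt) : Sys where
  G := ℱ.G
  Q := fun j => ℱ.G ⧸ ℱ.N j
  finQ := fun _ => Fintype.ofFinite _
  decQ := fun _ => Classical.decEq _
  π := fun j => QuotientGroup.mk' (ℱ.N j)
  π_surj := fun j => QuotientGroup.mk'_surjective (ℱ.N j)
  tr := fun j => QuotientGroup.map (ℱ.N (j + 1)) (ℱ.N j) (MonoidHom.id ℱ.G) (ℱ.anti j)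
  tr_π := fun _ _ => rfl

/-- Restriction to a subgroup. -/
abbrev Filt.restrict (ℱ : Filt) (S : Subgroup ℱ.G) : Filt where
  G := S
  N := fun j => (ℱ.N j).subgroupOf S
  anti := fun j => Subgroup.comap_mono (ℱ.anti j)

/-- The inclusions of the finite quotients of a subgroup. -/
def Filt.incl (ℱ : Filt) (S : Subgroup ℱ.G) (j : ℕ) :
    (ℱ.restrict S).sys.Q j →* ℱ.sys.Q j :=
  QuotientGroup.map ((ℱ.N j).subgroupOf S) (ℱ.N j) S.subtype le_rfl

theorem Filt.incl_π (ℱ : Filt) (S : Subgroup ℱ.G) (j : ℕ) (g : S) :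
    ℱ.incl S j ((ℱ.restrict S).sys.π j g) = ℱ.sys.π j g := rfl

theorem Filt.incl_injective (ℱ : Filt) (S : Subgroup ℱ.G) (j : ℕ) :
    Function.Injective (ℱ.incl S j) := by
  rw [injective_iff_map_eq_one]
  intro a ha
  obtain ⟨g, rfl⟩ := (ℱ.restrict S).sys.π_surj j a
  have ha' : ((g : ℱ.G) : ℱ.G ⧸ ℱ.N j) = 1 := ha
  exact (QuotientGroup.eq_one_iff (N := (ℱ.N j).subgroupOf S) g).2
    ((QuotientGroup.eq_one_iff (N := ℱ.N j) (g : ℱ.G)).1 ha')

/-- The inclusion of completed group rings (with change of coefficients). -/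
noncomputable def lamIncl (C O : Type) [CommRing C] [CommRing O] [Algebra C O] (ℱ : Filt)
    (S : Subgroup ℱ.G) : Lam C (ℱ.restrict S).sys →+* Lam O ℱ.sys :=
  RingHom.codRestrict (RingHom.pi fun j =>
    ((MonoidAlgebra.mapRingHom (ℱ.sys.Q j) (algebraMap C O)).comp
      (MonoidAlgebra.mapDomainRingHom C (ℱ.incl S j))).comp
      ((Pi.evalRingHom (fun j => MonoidAlgebra C ((ℱ.restrict S).sys.Q j)) j).comp
        (Lam C (ℱ.restrict S).sys).subtype)) (Lam O ℱ.sys) (by
    intro a j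
    have ha := a.2 j
    change MonoidAlgebra.mapDomainRingHom O (ℱ.sys.tr j) (MonoidAlgebra.mapRingHom
      (ℱ.sys.Q (j + 1)) (algebraMap C O) (MonoidAlgebra.mapDomainRingHom C
      (ℱ.incl S (j + 1)) (a.1 (j + 1)))) =
      MonoidAlgebra.mapRingHom (ℱ.sys.Q j) (algebraMap C O)
        (MonoidAlgebra.mapDomainRingHom C (ℱ.incl S j) (a.1 j))
    have h1 : (ℱ.sys.tr j).comp (ℱ.incl S (j + 1)) =
        (ℱ.incl S j).comp ((ℱ.restrict S).sys.tr j) := by
      ext g
      rfl
    rw [← ha, ← RingHom.comp_apply (MonoidAlgebra.mapDomainRingHom O (ℱ.sys.tr j)),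
      ← MonoidAlgebra.mapRingHom_comp_mapDomainRingHom, RingHom.comp_apply,
      ← RingHom.comp_apply (MonoidAlgebra.mapDomainRingHom C (ℱ.sys.tr j)),
      ← RingHom.comp_apply (MonoidAlgebra.mapDomainRingHom C (ℱ.incl S j)),
      ← MonoidAlgebra.mapDomainRingHom_comp, ← MonoidAlgebra.mapDomainRingHom_comp, h1])

theorem lamIncl_apply (C O : Type) [CommRing C] [CommRing O] [Algebra C O] (ℱ : Filt)
    (S : Subgroup ℱ.G) (a : Lam C (ℱ.restrict S).sys) (j : ℕ) :
    (lamIncl C O ℱ S a).1 j = MonoidAlgebra.mapRingHom (ℱ.sys.Q j) (algebraMap C O)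
        (MonoidAlgebra.mapDomainRingHom C (ℱ.incl S j) (a.1 j)) := rfl

/-- The congruence filtration of `GL_m(ℤ_p)`, starting at level `p²`. -/
noncomputable abbrev glFilt (p m : ℕ) [Fact p.Prime] : Filt where
  G := Matrix.GeneralLinearGroup (Fin m) ℤ_[p]
  N := fun j => (Matrix.GeneralLinearGroup.map (n := Fin m)
    (PadicInt.toZModPow (p := p) (2 + j))).ker
  fin := fun j => by
    have : NeZero (p ^ (2 + j)) := ⟨pow_ne_zero _ (Fact.out : p.Prime).ne_zero⟩
    have : Fintype (ZMod (p ^ (2 + j))) := inferInstance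
    have : Finite (Matrix.GeneralLinearGroup (Fin m) (ZMod (p ^ (2 + j)))) := inferInstance
    infer_instance
  anti := by
    intro j g hg
    rw [MonoidHom.mem_ker] at hg ⊢
    have h : PadicInt.toZModPow (p := p) (2 + j) =
        (ZMod.castHom (pow_dvd_pow p (by omega : 2 + j ≤ 2 + (j + 1))) (ZMod (p ^ (2 + j)))).comp
          (PadicInt.toZModPow (p := p) (2 + (j + 1))) :=
      (PadicInt.zmod_cast_comp_toZModPow (2 + j) (2 + (j + 1)) (by omega)).symm
    rw [h, Matrix.GeneralLinearGroup.map_comp, MonoidHom.comp_apply, hg, map_one]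

theorem mem_glFilt {p m : ℕ} [Fact p.Prime] {j : ℕ} {g : Matrix.GeneralLinearGroup (Fin m) ℤ_[p]} :
    g ∈ (glFilt p m).N j ↔ ∀ a b, (p : ℤ_[p]) ^ (2 + j) ∣ (g.1 - 1) a b := by
  have key : ∀ a b, (p : ℤ_[p]) ^ (2 + j) ∣ (g.1 - 1) a b ↔
      PadicInt.toZModPow (p := p) (2 + j) (g.1 a b) =
        (1 : Matrix (Fin m) (Fin m) (ZMod (p ^ (2 + j)))) a b := by
    intro a b
    have h3 : PadicInt.toZModPow (p := p) (2 + j) ((1 : Matrix (Fin m) (Fin m) ℤ_[p]) a b) =
        (1 : Matrix (Fin m) (Fin m) (ZMod (p ^ (2 + j)))) a b := by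
      rw [Matrix.one_apply, Matrix.one_apply, apply_ite (PadicInt.toZModPow (p := p) (2 + j)),
        map_one, map_zero]
    rw [← Ideal.mem_span_singleton, ← PadicInt.ker_toZModPow, RingHom.mem_ker,
      Matrix.sub_apply, map_sub, sub_eq_zero, h3]
  rw [MonoidHom.mem_ker, Units.ext_iff]
  constructor
  · intro h a b
    rw [key]
    exact congrFun (congrFun h a) b
  · intro h
    ext a b
    exact (key a b).1 (h a b)

/-! ## Complete filtered rings with commutative polynomial associated graded ring -/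

/-- `A` is complete for the filtration `F` and its associated graded ring is the polynomial ring
`k[x_1, …, x_D]` with its standard grading (`sym n` is the symbol map on `F n`). -/
structure CFR (k : Type) [Field k] (D : ℕ) (A : Type) [Ring A] where
  /-- the filtration -/
  F : ℕ → AddSubgroup A
  /-- the symbols -/
  sym : ℕ → A → MvPolynomial (Fin D) k
  F_zero : F 0 = ⊤
  F_succ : ∀ n, F (n + 1) ≤ F n
  mul_mem : ∀ {m n : ℕ} {a b : A}, a ∈ F m → b ∈ F n → a * b ∈ F (m + n)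
  sep : ∀ a : A, (∀ n, a ∈ F n) → a = 0
  complete : ∀ a : ℕ → A, (∀ n, a n ∈ F n) → ∃ s : A, ∀ n, s - ∑ i ∈ Finset.range n, a i ∈ F n
  sym_add : ∀ {n : ℕ} {a b : A}, a ∈ F n → b ∈ F n → sym n (a + b) = sym n a + sym n b
  sym_mul : ∀ {m n : ℕ} {a b : A}, a ∈ F m → b ∈ F n → sym (m + n) (a * b) = sym m a * sym n b
  sym_one : sym 0 1 = 1
  sym_homog : ∀ {n : ℕ} {a : A}, a ∈ F n → (sym n a).IsHomogeneous n
  sym_eq_zero : ∀ {n : ℕ} {a : A}, a ∈ F n → (sym n a = 0 ↔ a ∈ F (n + 1))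
  sym_surj : ∀ (n : ℕ) (P : MvPolynomial (Fin D) k), P.IsHomogeneous n → ∃ a ∈ F n, sym n a = P

/-- `Λ` is complete and separated for the powers of a central regular element `π`,
with quotient `red : Λ → R = Λ/πΛ`. -/
structure PLift (Λ R : Type) [Ring Λ] [Ring R] where
  /-- the uniformizer -/
  π : Λ
  comm : ∀ a, π * a = a * π
  reg : ∀ a, π * a = 0 → a = 0
  /-- the reduction -/
  red : Λ →+* R
  surj : Function.Surjective red
  ker : ∀ a, red a = 0 ↔ ∃ b, a = π * b
  sep : ∀ a, (∀ n : ℕ, ∃ b, a = π ^ n * b) → a = 0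
  complete : ∀ a : ℕ → Λ, ∃ s, ∀ n, ∃ t, s - ∑ i ∈ Finset.range n, π ^ i * a i = π ^ n * t

end Pool.Agent.H4.Atiyah
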