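import Mathlib

set_option autoImplicit false

/-!
# A finite subgroup of `GL_m(ℤ)` of order `p^b b!`, `b = m / (p - 1)`
-/

namespace Pool.Agent.H4.Atiyah

namespace FinSub

variable (p b r : ℕ)

/-- The group `C_p wr S_b`. -/
abbrev W : Type :=
  (Fin b → Multiplicative (ZMod p)) ⋊[mulAutArrow (G := Equiv.Perm (Fin b)) (A := Fin b)
    (M := Multiplicative (ZMod p))] (Equiv.Perm (Fin b))

/-- The base group acting on `Fin b × ZMod p`. -/
def f1 : (Fin b → Multiplicative (ZMod p)) →* Equiv.Perm (Fin b × ZMod p) where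
  toFun v :=
    { toFun := fun x => (x.1, x.2 + (v x.1).toAdd)
      invFun := fun x => (x.1, x.2 - (v x.1).toAdd)
      left_inv := fun x => by simp
      right_inv := fun x => by simp }
  map_one' := by ext x <;> simp
  map_mul' v w := by
    ext x
    · simp
    · simp [add_comm, add_left_comm]

/-- The top group acting on `Fin b × ZMod p`. -/
def f2 : Equiv.Perm (Fin b) →* Equiv.Perm (Fin b × ZMod p) where
  toFun σ := σ.prodCongr (Equiv.refl _)
  map_one' := by ext x <;> simp
  map_mul' σ τ := by ext x <;> simp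

/-- The action of the wreath product on `Fin b × ZMod p`. -/
def act : W p b →* Equiv.Perm (Fin b × ZMod p) :=
  SemidirectProduct.lift (f1 p b) (f2 p b) (by
    intro σ
    ext v x
    · simp [f1, f2]
    · simp [f1, f2, mulAutArrow]
      rfl)

theorem act_apply (w : W p b) (x : Fin b × ZMod p) :
    act p b w x = (w.right x.1, x.2 + (w.left (w.right x.1)).toAdd) := by
  simp [act, SemidirectProduct.lift, f1, f2]

theorem act_injective : Function.Injective (act p b) := by
  rw [injective_iff_map_eq_one]
  intro w hw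
  have h : ∀ x, act p b w x = x := fun x => by rw [hw]; rfl
  have h1 : w.right = 1 := by
    ext i
    have := congrArg Prod.fst (h (i, 0))
    rw [act_apply] at this
    simpa using congrArg Fin.val this
  have h2 : w.left = 1 := by
    funext i
    have := congrArg Prod.snd (h (i, 0))
    rw [act_apply, h1] at this
    simpa using this
  exact SemidirectProduct.ext h2 h1

/-- The sum over the fibres. -/
def s [NeZero p] : ((Fin b × ZMod p) → ℤ) →ₗ[ℤ] (Fin b → ℤ) where
  toFun f := fun i => ∑ c : ZMod p, f (i, c)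
  map_add' f g := by ext i; simp [Finset.sum_add_distrib]
  map_smul' a f := by ext i; simp [Finset.mul_sum]

theorem s_surjective [NeZero p] : Function.Surjective (s p b) := by
  intro g
  refine ⟨fun x => if x.2 = 0 then g x.1 else 0, ?_⟩
  ext i
  simp [s]

/-- The lattice. -/
abbrev M0 [NeZero p] : Submodule ℤ ((Fin b × ZMod p) → ℤ) := LinearMap.ker (s p b)

theorem finrank_M0 [NeZero p] : Module.finrank ℤ (M0 p b) = b * (p - 1) := by
  have h := (LinearMap.ker (s p b)).finrank_quotient_add_finrank
  rw [((s p b).quotKerEquivOfSurjective (s_surjective p b)).finrank_eq] at h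
  rw [Module.finrank_fintype_fun_eq_card, Module.finrank_fintype_fun_eq_card, Fintype.card_prod,
    Fintype.card_fin, ZMod.card] at h
  have : b * (p - 1) + b = b * p := by
    have hp := NeZero.pos p
    obtain ⟨q, rfl⟩ := Nat.exists_eq_succ_of_ne_zero (NeZero.ne p)
    simp [Nat.mul_succ]
  change b + Module.finrank ℤ (M0 p b) = b * p at h
  omega

/-- The permutation action on functions. -/
def rho : W p b →* Module.End ℤ ((Fin b × ZMod p) → ℤ) where
  toFun w := LinearMap.funLeft ℤ ℤ (act p b w⁻¹)
  map_one' := by ext f x; simp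
  map_mul' v w := by
    ext f x
    simp [LinearMap.funLeft]

theorem rho_apply (w : W p b) (f : (Fin b × ZMod p) → ℤ) (x : Fin b × ZMod p) :
    rho p b w f x = f (act p b w⁻¹ x) := rfl

theorem rho_mem [NeZero p] (w : W p b) (f : (Fin b × ZMod p) → ℤ) (hf : f ∈ M0 p b) :
    rho p b w f ∈ M0 p b := by
  rw [LinearMap.mem_ker] at hf ⊢
  ext i
  have h := congrFun hf (w⁻¹.right i)
  simp only [s, LinearMap.coe_mk, AddHom.coe_mk, Pi.zero_apply] at h ⊢
  simp only [rho_apply, act_apply]
  rw [← h]
  exact Fintype.sum_equiv (Equiv.addRight (w⁻¹.left (w⁻¹.right i)).toAdd) _ _ (fun c => rfl)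

/-- The action on the lattice. -/
def rho0 [NeZero p] : W p b →* Module.End ℤ (M0 p b) where
  toFun w := (rho p b w).restrict (rho_mem p b w)
  map_one' := by ext f x; simp
  map_mul' v w := by ext f x; simp

theorem rho0_injective [NeZero p] (hp : 2 ≤ p) : Function.Injective (rho0 p b) := by
  rw [injective_iff_map_eq_one]
  intro w hw
  rw [← inv_eq_one]
  apply act_injective p b
  rw [map_one]
  ext1 x
  -- test vector
  obtain ⟨i, c⟩ := x
  by_contra hne
  set y := act p b w⁻¹ (i, c) with hy
  change y ≠ (i, c) at hne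
  have : Fact (1 < p) := ⟨by omega⟩
  obtain ⟨c', hc'⟩ := exists_ne c
  -- the vector `e_(i,c) - e_(i,c')`
  let f : (Fin b × ZMod p) → ℤ := Pi.single (i, c) 1 - Pi.single (i, c') 1
  have hf : f ∈ M0 p b := by
    rw [LinearMap.mem_ker]
    ext j
    simp only [s, LinearMap.coe_mk, AddHom.coe_mk, Pi.zero_apply, f, Pi.sub_apply,
      Finset.sum_sub_distrib]
    by_cases hj : j = i
    · subst hj
      simp [Pi.single_apply]
    · simp [hj]
  have h1 : rho p b w f = f := by
    have h2 := congrArg (fun g : Module.End ℤ (M0 p b) => (g ⟨f, hf⟩).1) hw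
    simpa [rho0] using h2
  have h3 := congrFun h1 (i, c)
  rw [rho_apply, ← hy] at h3
  have hcc : (i, c) ≠ (i, c') := fun h => hc' (congrArg Prod.snd h).symm
  simp only [f, Pi.sub_apply, Pi.single_apply, if_neg hne, if_neg hcc] at h3
  by_cases h4 : y = (i, c')
  · simp [h4] at h3
  · simp [h4] at h3

/-- The action on a lattice of rank `b (p - 1) + r`. -/
def rhoR [NeZero p] : W p b →* Module.End ℤ (M0 p b × (Fin r → ℤ)) where
  toFun w := (rho0 p b w).prodMap LinearMap.id
  map_one' := by ext <;> simp
  map_mul' v w := by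
    rw [map_mul]
    apply LinearMap.ext
    rintro ⟨f, g⟩
    rfl

theorem rhoR_injective [NeZero p] (hp : 2 ≤ p) : Function.Injective (rhoR p b r) := by
  intro v w h
  apply rho0_injective p b hp
  apply LinearMap.ext
  intro f
  have := congrArg (fun g : Module.End ℤ (M0 p b × (Fin r → ℤ)) => (g (f, 0)).1) h
  exact this

end FinSub

open FinSub

theorem exists_finite_subgroup (m p : ℕ) [Fact p.Prime] :
    ∃ H : Subgroup (Matrix.GeneralLinearGroup (Fin m) ℤ), Finite H ∧
      p ^ (m / (p - 1)) * (m / (p - 1)).factorial ∣ Nat.card H := by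
  classical
  have hp : p.Prime := Fact.out
  have : NeZero p := ⟨hp.ne_zero⟩
  set b := m / (p - 1) with hb
  have hbm : b * (p - 1) ≤ m := Nat.div_mul_le_self m (p - 1)
  set r := m - b * (p - 1) with hr
  have hfin : Module.finrank ℤ (M0 p b × (Fin r → ℤ)) = m := by
    rw [Module.finrank_prod, finrank_M0, Module.finrank_fin_fun]
    omega
  let B : Module.Basis (Fin m) ℤ (M0 p b × (Fin r → ℤ)) := Module.finBasisOfFinrankEq _ _ hfin
  let Φ : W p b →* Matrix.GeneralLinearGroup (Fin m) ℤ :=
    (Units.map ((LinearMap.toMatrixAlgEquiv B : _ ≃ₐ[ℤ] Matrix (Fin m) (Fin m) ℤ) :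
      Module.End ℤ (M0 p b × (Fin r → ℤ)) →* Matrix (Fin m) (Fin m) ℤ)).comp
      (rhoR p b r).toHomUnits
  have hΦ : Function.Injective Φ := by
    intro v w h
    apply rhoR_injective p b r hp.two_le
    have h1 := congrArg Units.val h
    exact (LinearMap.toMatrixAlgEquiv B).injective h1
  have hfinW : Finite (W p b) := Finite.of_equiv _ SemidirectProduct.equivProd.symm
  refine ⟨Φ.range, Finite.of_equiv _ (MonoidHom.ofInjective hΦ).toEquiv, ?_⟩
  rw [Nat.card_congr (MonoidHom.ofInjective hΦ).toEquiv.symm, SemidirectProduct.card]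
  simp [Fintype.card_perm]

end Pool.Agent.H4.Atiyah
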