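import Pool.Agent.H4.Atiyah.VnDimInt
import Pool.Agent.H4.Atiyah.FiniteSubgroup

set_option autoImplicit false

open Filter Topology
open scoped Matrix

namespace Pool.Agent.H4.Atiyah

theorem int_of_forall_prime (x : ℝ)
    (h : ∀ p : ℕ, p.Prime → ∃ (c : ℕ) (z : ℤ), ¬ p ∣ c ∧ x * c = z) : ∃ z : ℤ, x = z := by
  let I : Ideal ℤ :=
    { carrier := {n | ∃ z : ℤ, (n : ℝ) * x = z}
      add_mem' := by
        rintro a b ⟨z, hz⟩ ⟨w, hw⟩
        exact ⟨z + w, by push_cast; rw [add_mul, hz, hw]⟩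
      zero_mem' := ⟨0, by simp⟩
      smul_mem' := by
        rintro c a ⟨z, hz⟩
        exact ⟨c * z, by rw [smul_eq_mul]; push_cast; rw [mul_assoc, hz]⟩ }
  suffices h1 : (1 : ℤ) ∈ I by
    obtain ⟨z, hz⟩ := h1
    exact ⟨z, by simpa using hz⟩
  rw [← Ideal.eq_top_iff_one]
  by_contra hI
  obtain ⟨g, hg⟩ := (IsPrincipalIdealRing.principal I).principal
  have hg' : I = Ideal.span {g} := hg
  have hu : g.natAbs ≠ 1 := by
    intro h1
    apply hI
    rw [hg', Ideal.span_singleton_eq_top]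
    exact Int.natAbs_eq_iff.1 h1 |>.elim (fun h => by rw [h]; exact isUnit_one)
      (fun h => by rw [h]; exact isUnit_one.neg)
  obtain ⟨p, hp, hpg⟩ := Nat.exists_prime_and_dvd hu
  obtain ⟨c, z, hc, hz⟩ := h p hp
  have h2 : (c : ℤ) ∈ I := ⟨z, by rw [← hz]; push_cast; ring⟩
  rw [hg', Ideal.mem_span_singleton] at h2
  apply hc
  have h3 : (p : ℤ) ∣ g := Int.natCast_dvd.2 hpg
  exact_mod_cast h3.trans h2

theorem main (m N : ℕ)
    (hN : ∀ H : Subgroup (Matrix.GeneralLinearGroup (Fin m) ℤ), Finite H → Nat.card H ∣ N)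
    {k n : ℕ} (A : Matrix (Fin k) (Fin n) (Matrix.GeneralLinearGroup (Fin m) ℤ →₀ ℂ)) :
    ∃ z : ℤ, (N : ℝ) * ∑ j : Fin k,
          (1 - Metric.infDist
              (lp.single 2 (j, (1 : Matrix.GeneralLinearGroup (Fin m) ℤ)) (1 : ℂ) :
                lp (fun _ : Fin k × Matrix.GeneralLinearGroup (Fin m) ℤ => ℂ) 2)
              {x : lp (fun _ : Fin k × Matrix.GeneralLinearGroup (Fin m) ℤ => ℂ) 2 |
                ∀ i : Fin n, ∀ g : Matrix.GeneralLinearGroup (Fin m) ℤ,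
                  ∑ j' : Fin k, ∑ h ∈ (A j' i).support, x (j', g * h⁻¹) * A j' i h = 0} ^ 2)
          = (z : ℝ) := by
  have key : ∃ z : ℤ, (N : ℝ) * vnDim (A.map MonoidAlgebra.ofCoeff) = z := by
    apply int_of_forall_prime
    intro p hp
    have := Fact.mk hp
    obtain ⟨c, z, hc, hz⟩ := vnDim_integrality p m (A.map MonoidAlgebra.ofCoeff)
    obtain ⟨H, hH1, hH2⟩ := exists_finite_subgroup m p
    obtain ⟨t, ht⟩ := hH2.trans (hN H hH1)
    refine ⟨c, t * z, hc, ?_⟩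
    rw [ht]
    push_cast at hz ⊢
    rw [← hz]
    ring
  exact key

end Pool.Agent.H4.Atiyah
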