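import Pool.Agent.H4.Atiyah.TDefs

/-!
# Finite level quotients of a free `ℤ_p[[U]]`-module (M33c)
-/

set_option autoImplicit false

open Filter Topology

namespace Pool.Agent.H4.Atiyah

namespace Level

/-- functoriality of the completed group ring for levelwise maps -/
noncomputable def lamMap (C : Type) [CommRing C] (𝒯 : Sys) (c : ∀ j, 𝒯.Q j →* 𝒯.Q j)
    (hc : ∀ j, (𝒯.tr j).comp (c (j + 1)) = (c j).comp (𝒯.tr j)) (a : Lam C 𝒯) : Lam C 𝒯 :=
  ⟨fun j => MonoidAlgebra.mapDomainRingHom C (c j) (a.1 j), by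
    intro j
    have ha := a.2 j
    change MonoidAlgebra.mapDomainRingHom C (𝒯.tr j)
      (MonoidAlgebra.mapDomainRingHom C (c (j + 1)) (a.1 (j + 1))) =
      MonoidAlgebra.mapDomainRingHom C (c j) (a.1 j)
    rw [← ha, ← RingHom.comp_apply (MonoidAlgebra.mapDomainRingHom C (𝒯.tr j)),
      ← RingHom.comp_apply (MonoidAlgebra.mapDomainRingHom C (c j)),
      ← MonoidAlgebra.mapDomainRingHom_comp, ← MonoidAlgebra.mapDomainRingHom_comp, hc]⟩

variable (p : ℕ) [Fact p.Prime] (ℱ : Filt)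

/-- conjugation by `g` on `U` -/
noncomputable def cU (g : ℱ.G) : ↥(ℱ.N 0) →* ↥(ℱ.N 0) :=
  (MulAut.conjNormal (H := ℱ.N 0) g).toMonoidHom

theorem cU_coe (g : ℱ.G) (u : ↥(ℱ.N 0)) : ((cU ℱ g u : ↥(ℱ.N 0)) : ℱ.G) = g * u * g⁻¹ := by
  exact MulAut.conjNormal_apply g u

/-- conjugation by `g` on `U / N_j` -/
noncomputable def cQ' (g : ℱ.G) (j : ℕ) : ℱ.sysU.Q j →* ℱ.sysU.Q j :=
  QuotientGroup.map ((ℱ.N j).subgroupOf (ℱ.N 0)) ((ℱ.N j).subgroupOf (ℱ.N 0)) (cU ℱ g) (by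
    intro u hu
    rw [Subgroup.mem_comap, Subgroup.mem_subgroupOf, cU_coe]
    exact (ℱ.normal j).conj_mem _ (Subgroup.mem_subgroupOf.1 hu) g)

/-- conjugation by `g` on `U / N_j` -/
noncomputable def cQ (g : ℱ.G) (j : ℕ) : UQ ℱ j →* UQ ℱ j := cQ' ℱ g j

theorem cQ_mk (g : ℱ.G) (j : ℕ) (u : ↥(ℱ.N 0)) : cQ ℱ g j (UQ.mk ℱ j u) = UQ.mk ℱ j (cU ℱ g u) :=
  rfl

/-- conjugation by `g` on `ℤ_p[[U]]` -/
noncomputable def cL (g : ℱ.G) (a : LamU p ℱ) : LamU p ℱ :=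
  lamMap ℤ_[p] ℱ.sysU (cQ' ℱ g) (by
    intro j
    ext u
    rfl) a

theorem lv_cL (g : ℱ.G) (a : LamU p ℱ) (j : ℕ) :
    LamU.lv p ℱ j (cL p ℱ g a) =
      MonoidAlgebra.mapDomainRingHom ℤ_[p] (cQ ℱ g j) (LamU.lv p ℱ j a) := rfl

theorem incS_cL (O : Type) [CommRing O] [Algebra ℤ_[p] O] (g : ℱ.G) (a : LamU p ℱ) :
    ofS ℱ O g * incS p ℱ O a = incS p ℱ O (cL p ℱ g a) * ofS ℱ O g := by
  refine LamS.ext ℱ fun j => ?_
  rw [map_mul, map_mul, lv_incS, lv_incS, lv_ofS, lv_cL]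
  generalize LamU.lv p ℱ j a = b
  induction b using MonoidAlgebra.induction_linear with
  | zero => simp
  | add f g hf hg => simp only [map_add, mul_add, add_mul, hf, hg]
  | single u r =>
    obtain ⟨u, rfl⟩ := UQ.mk_surjective ℱ j u
    have h1 : SQ.mk ℱ j g * SQ.mk ℱ j (u : ℱ.G) =
        SQ.mk ℱ j ((cU ℱ g u : ↥(ℱ.N 0)) : ℱ.G) * SQ.mk ℱ j g := by
      rw [← map_mul, ← map_mul, cU_coe]
      congr 1
      group
    simp [MonoidAlgebra.single_mul_single, cQ_mk, h1]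

/-- group elements of `U` in `ℤ_p[[U]]` -/
noncomputable def ofU (u : ↥(ℱ.N 0)) : LamU p ℱ := toLam ℤ_[p] ℱ.sysU (MonoidAlgebra.single u 1)

theorem lv_ofU (u : ↥(ℱ.N 0)) (j : ℕ) :
    LamU.lv p ℱ j (ofU p ℱ u) = MonoidAlgebra.single (UQ.mk ℱ j u) 1 := by
  have h : MonoidAlgebra.mapDomainRingHom ℤ_[p] (UQ.mk ℱ j) (MonoidAlgebra.single u 1) =
      MonoidAlgebra.single (UQ.mk ℱ j u) 1 := by simp
  exact h

theorem incS_ofU (O : Type) [CommRing O] [Algebra ℤ_[p] O] (u : ↥(ℱ.N 0)) :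
    incS p ℱ O (ofU p ℱ u) = ofS ℱ O (u : ℱ.G) := by
  refine LamS.ext ℱ fun j => ?_
  rw [lv_incS, lv_ofU, lv_ofS]
  simp

theorem lv_surjective (j : ℕ) : Function.Surjective (LamU.lv p ℱ j) := by
  intro b
  induction b using MonoidAlgebra.induction_linear with
  | zero => exact ⟨0, map_zero _⟩
  | add f g hf hg =>
    obtain ⟨x, hx⟩ := hf
    obtain ⟨y, hy⟩ := hg
    exact ⟨x + y, by rw [map_add, hx, hy]⟩
  | single u r =>
    obtain ⟨u, rfl⟩ := UQ.mk_surjective ℱ j u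
    refine ⟨toLam ℤ_[p] ℱ.sysU (MonoidAlgebra.single u r), ?_⟩
    have h : MonoidAlgebra.mapDomainRingHom ℤ_[p] (UQ.mk ℱ j) (MonoidAlgebra.single u r) =
        MonoidAlgebra.single (UQ.mk ℱ j u) r := by simp
    exact h

variable {O : Type} [CommRing O] [Algebra ℤ_[p] O]
  {Z : Type} [AddCommGroup Z] [Module (LamS ℱ O) Z] [Module (LamU p ℱ) Z]
  (hΛ : ∀ (a : LamU p ℱ) (v : Z), a • v = incS p ℱ O a • v)
  {z : ℕ} (w : Module.Basis (Fin z) (LamU p ℱ) Z)

/-- the module `W = ℤ_p[U/N_j]^z` -/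
abbrev W (p : ℕ) [Fact p.Prime] (ℱ : Filt) (z j : ℕ) : Type :=
  Fin z → MonoidAlgebra ℤ_[p] (UQ ℱ j)

/-- the projection `Z → W` -/
noncomputable def pr (j : ℕ) (v : Z) : W p ℱ z j := fun i => LamU.lv p ℱ j (w.repr v i)

theorem pr_smul (j : ℕ) (a : LamU p ℱ) (v : Z) (i : Fin z) :
    pr p ℱ w j (a • v) i = LamU.lv p ℱ j a * pr p ℱ w j v i := by
  simp [pr]

theorem pr_add (j : ℕ) (v v' : Z) : pr p ℱ w j (v + v') = pr p ℱ w j v + pr p ℱ w j v' := by
  funext i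
  simp [pr]

theorem pr_basis (j : ℕ) (i i' : Fin z) :
    pr p ℱ w j (w i) i' = if i = i' then 1 else 0 := by
  classical
  simp only [pr, Module.Basis.repr_self, Finsupp.single_apply]
  split_ifs <;> simp

theorem pr_surjective (j : ℕ) : Function.Surjective (pr p ℱ w j) := by
  intro f
  choose l hl using fun i => lv_surjective p ℱ j (f i)
  refine ⟨∑ i, l i • w i, ?_⟩
  funext i
  rw [pr, Module.Basis.repr_sum_self, hl]

/-- the action of `g` on `W` -/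
noncomputable def act (j : ℕ) (g : ℱ.G) : W p ℱ z j →ₗ[ℤ_[p]] W p ℱ z j where
  toFun f i' := ∑ i, MonoidAlgebra.mapDomainRingHom ℤ_[p] (cQ ℱ g j) (f i) *
    pr p ℱ w j (ofS ℱ O g • w i) i'
  map_add' f f' := by
    funext i'
    simp only [Pi.add_apply, map_add, add_mul, Finset.sum_add_distrib]
  map_smul' c f := by
    funext i'
    simp only [Pi.smul_apply, RingHom.id_apply, Finset.smul_sum]
    refine Finset.sum_congr rfl fun i _ => ?_
    rw [← smul_mul_assoc]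
    congr 1
    exact map_smul (MonoidAlgebra.mapDomainAlgHom ℤ_[p] ℤ_[p] (cQ ℱ g j)) c (f i)

include hΛ in
theorem pr_ofS (j : ℕ) (g : ℱ.G) (v : Z) :
    pr p ℱ w j (ofS ℱ O g • v) = act p ℱ w (O := O) j g (pr p ℱ w j v) := by
  have hv : ofS ℱ O g • v = ∑ i, cL p ℱ g (w.repr v i) • (ofS ℱ O g • w i) := by
    conv_lhs => rw [← w.sum_repr v, Finset.smul_sum]
    refine Finset.sum_congr rfl fun i _ => ?_
    rw [hΛ, hΛ, smul_smul, smul_smul, incS_cL]
  funext i'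
  rw [hv]
  simp only [pr, map_sum, Finsupp.coe_finsetSum, Finset.sum_apply, map_smul, Finsupp.smul_apply,
    smul_eq_mul, map_mul, lv_cL]
  rfl

include hΛ in
theorem act_mul (j : ℕ) (g h : ℱ.G) :
    act p ℱ w (O := O) j (g * h) = act p ℱ w (O := O) j g * act p ℱ w (O := O) j h := by
  refine LinearMap.ext fun f => ?_
  obtain ⟨v, rfl⟩ := pr_surjective p ℱ w j f
  rw [Module.End.mul_apply, ← pr_ofS p ℱ hΛ, ← pr_ofS p ℱ hΛ, ← pr_ofS p ℱ hΛ, smul_smul, map_mul]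

include hΛ in
theorem act_of_mem (j : ℕ) (u : ↥(ℱ.N 0)) (f : W p ℱ z j) :
    act p ℱ w (O := O) j u f = fun i => MonoidAlgebra.single (UQ.mk ℱ j u) 1 * f i := by
  obtain ⟨v, rfl⟩ := pr_surjective p ℱ w j f
  rw [← pr_ofS p ℱ hΛ, ← incS_ofU p ℱ O, ← hΛ]
  funext i
  rw [pr_smul, lv_ofU]

/-- the representation of `S / N_j` on `W` -/
noncomputable def rep (j : ℕ) : ℱ.G →* Module.End ℤ_[p] (W p ℱ z j) where
  toFun g := act p ℱ w (O := O) j g
  map_one' := by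
    refine LinearMap.ext fun f => ?_
    have h := act_of_mem p ℱ hΛ w j 1 f
    rw [OneMemClass.coe_one] at h
    rw [h, map_one]
    funext i
    rw [← MonoidAlgebra.one_def, one_mul]
    rfl
  map_mul' g h := act_mul p ℱ hΛ w j g h

theorem rep_apply (j : ℕ) (g : ℱ.G) (v : Z) :
    rep p ℱ hΛ w j g (pr p ℱ w j v) = pr p ℱ w j (ofS ℱ O g • v) := (pr_ofS p ℱ hΛ w j g v).symm

theorem rep_of_mem (j : ℕ) (u : ↥(ℱ.N 0)) (f : W p ℱ z j) :
    rep p ℱ hΛ w j u f = fun i => MonoidAlgebra.single (UQ.mk ℱ j u) 1 * f i :=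
  act_of_mem p ℱ hΛ w j u f

/-- the representation of `S / N_j` on `W` -/
noncomputable def repQ (j : ℕ) : Representation ℤ_[p] (SQ ℱ j) (W p ℱ z j) :=
  (QuotientGroup.lift (ℱ.N j) (rep p ℱ hΛ w j) (by
    intro g hg
    refine LinearMap.ext fun f => ?_
    have h := rep_of_mem p ℱ hΛ w j ⟨g, ℱ.antitone (Nat.zero_le j) hg⟩ f
    have h1 : UQ.mk ℱ j ⟨g, ℱ.antitone (Nat.zero_le j) hg⟩ = 1 := UQ.mk_eq_one.2 hg
    rw [h1] at h
    refine h.trans ?_
    funext i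
    rw [← MonoidAlgebra.one_def, one_mul]
    rfl) : ℱ.G ⧸ ℱ.N j →* Module.End ℤ_[p] (W p ℱ z j))

theorem repQ_mk (j : ℕ) (g : ℱ.G) : repQ p ℱ hΛ w j (SQ.mk ℱ j g) = rep p ℱ hΛ w j g := rfl

/-- the basis of `W` -/
noncomputable def bas (z j : ℕ) : Module.Basis (UQ ℱ j × Fin z) ℤ_[p] (W p ℱ z j) :=
  Module.Basis.ofEquivFun
    { toFun := fun f x => (f x.2).coeff x.1
      invFun := fun h i => ∑ u, MonoidAlgebra.single u (h (u, i))
      map_add' := by
        intro f f'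
        funext x
        simp
      map_smul' := by
        intro c f
        funext x
        simp
      left_inv := by
        intro f
        funext i
        ext u
        simp
      right_inv := by
        intro h
        funext x
        simp [Finsupp.single_apply] }

theorem bas_repr (z j : ℕ) (f : W p ℱ z j) (x : UQ ℱ j × Fin z) :
    (bas p ℱ z j).repr f x = (f x.2).coeff x.1 := rfl

theorem bas_apply (z j : ℕ) (x : UQ ℱ j × Fin z) :
    bas p ℱ z j x = Pi.single x.2 (MonoidAlgebra.single x.1 1) := by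
  classical
  rw [bas, Module.Basis.coe_ofEquivFun]
  funext i
  change ∑ u, MonoidAlgebra.single u ((Pi.single x (1 : ℤ_[p]) : UQ ℱ j × Fin z → ℤ_[p]) (u, i)) = _
  rw [Finset.sum_eq_single x.1]
  · by_cases hi : i = x.2
    · subst hi
      simp
    · rw [Pi.single_eq_of_ne hi, Pi.single_eq_of_ne, MonoidAlgebra.single_zero]
      intro h
      exact hi (congrArg Prod.snd h)
  · intro u _ hu
    rw [Pi.single_eq_of_ne, MonoidAlgebra.single_zero]
    intro h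
    exact hu (congrArg Prod.fst h)
  · simp

end Level

section

variable (p : ℕ) [Fact p.Prime] (ℱ : Filt)

variable {O : Type} [CommRing O] [Algebra ℤ_[p] O]
  {Z : Type} [AddCommGroup Z] [Module (LamS ℱ O) Z] [Module (LamU p ℱ) Z]
  (hΛ : ∀ (a : LamU p ℱ) (v : Z), a • v = incS p ℱ O a • v)
  {z : ℕ} (w : Module.Basis (Fin z) (LamU p ℱ) Z)

include hΛ in
/-- M33c -/
theorem exists_level (j : ℕ) : ∃ (W : Type) (_ : AddCommGroup W) (_ : Module ℤ_[p] W)
    (ρ : Representation ℤ_[p] (SQ ℱ j) W) (b : Module.Basis (UQ ℱ j × Fin z) ℤ_[p] W),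
    (∀ u v i, ρ (UQ.incl ℱ j u) (b (v, i)) = b (u * v, i)) ∧
    ∀ g i u, b.repr (ρ (SQ.mk ℱ j g) (b (1, i))) (u, i) =
      (LamU.lv p ℱ j (w.repr (ofS ℱ O g • w i) i)).coeff u := by
  classical
  refine ⟨Level.W p ℱ z j, inferInstance, inferInstance, Level.repQ p ℱ hΛ w j,
    Level.bas p ℱ z j, ?_, ?_⟩
  · intro u v i
    obtain ⟨u, rfl⟩ := UQ.mk_surjective ℱ j u
    rw [UQ.incl_mk, Level.repQ_mk, Level.rep_of_mem, Level.bas_apply, Level.bas_apply]
    funext i'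
    by_cases hi : i' = i
    · subst hi
      simp [MonoidAlgebra.single_mul_single]
    · simp [Pi.single_eq_of_ne hi]
  · intro g i u
    have h : Level.bas p ℱ z j (1, i) = Level.pr p ℱ w j (w i) := by
      rw [Level.bas_apply]
      funext i'
      rw [Level.pr_basis]
      by_cases hi : i' = i
      · subst hi
        simp [MonoidAlgebra.one_def]
      · rw [if_neg (Ne.symm hi)]
        simp [Pi.single_eq_of_ne hi]
    rw [h, Level.repQ_mk, Level.rep_apply, Level.bas_repr]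
    rfl

end

end Pool.Agent.H4.Atiyah
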