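import Pool.Agent.H4.Atiyah.TDefs

/-!
# M33 : the twisted trace measure (definition only)
-/

set_option autoImplicit false

open Filter Topology

namespace Pool.Agent.H4.Atiyah

section M33

variable (p : ℕ) [Fact p.Prime] (ℱ : Filt)

/-- the twisted trace measure at level `j`, at `u ∈ U/N_j` -/
noncomputable def muT (O : Type) [CommRing O] {Z : Type} [AddCommGroup Z]
    [Module (LamS ℱ O) Z] [Module (LamU p ℱ) Z] {z : ℕ} (w : Module.Basis (Fin z) (LamU p ℱ) Z)
    (g : ℱ.G) (j : ℕ) (u : UQ ℱ j) : ℤ_[p] :=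
  ∑ a, (LamU.lv p ℱ j (w.repr (ofS ℱ O g • w a) a)).coeff u

end M33

end Pool.Agent.H4.Atiyah
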