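import Mathlib

set_option autoImplicit false

open Polynomial

namespace Pool.Agent.H4.Atiyah

private lemma st_irred (p : ℕ) [hp : Fact p.Prime] (l : ℕ) :
    Irreducible (cyclotomic (p ^ l) ℚ_[p]) := by
  rcases l with _ | l
  · rw [pow_zero, cyclotomic_one]
    exact irreducible_X_sub_C (1 : ℚ_[p])
  · have h1 := cyclotomic_prime_pow_comp_X_add_one_isEisensteinAt p l
    have hX : ((X : ℤ[X]) + 1) = X + C 1 := by simp
    have hmon : ((cyclotomic (p ^ (l + 1)) ℤ).comp (X + 1)).Monic := by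
      rw [hX]
      refine (cyclotomic.monic _ ℤ).comp (monic_X_add_C 1) fun h => ?_
      rw [natDegree_X_add_C] at h
      exact zero_ne_one h.symm
    have hdeg : 0 < ((cyclotomic (p ^ (l + 1)) ℤ).comp (X + 1)).natDegree := by
      rw [natDegree_comp, hX, natDegree_X_add_C, mul_one, natDegree_cyclotomic]
      exact Nat.totient_pos.2 (pow_pos hp.out.pos _)
    have hprime : (Ideal.span {(p : ℤ_[p])}).IsPrime :=
      (Ideal.span_singleton_prime (PadicInt.prime_p.ne_zero)).2 PadicInt.prime_p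
    have h2 : (((cyclotomic (p ^ (l + 1)) ℤ).comp (X + 1)).map
        (Int.castRingHom ℤ_[p])).IsEisensteinAt (Ideal.span {(p : ℤ_[p])}) := by
      refine Monic.isEisensteinAt_of_mem_of_notMem (hmon.map _) hprime.ne_top ?_ ?_
      · intro i hi
        rw [hmon.natDegree_map] at hi
        have h3 := h1.mem hi
        rw [Ideal.submodule_span_eq, Ideal.mem_span_singleton] at h3
        rw [coeff_map, Ideal.mem_span_singleton]
        have := (PadicInt.pow_p_dvd_int_iff (p := p) 1 _).2 (by simpa using h3)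
        simpa using this
      · intro h3
        apply h1.notMem
        rw [Ideal.submodule_span_eq, Ideal.span_singleton_pow, Ideal.mem_span_singleton]
        rw [Ideal.span_singleton_pow, Ideal.mem_span_singleton, coeff_map] at h3
        exact (PadicInt.pow_p_dvd_int_iff (p := p) 2 _).1 h3
    have h3 := h2.irreducible hprime (hmon.map _).isPrimitive (by rwa [hmon.natDegree_map])
    have h4 := (Monic.irreducible_iff_irreducible_map_fraction_map (K := ℚ_[p])
      (hmon.map (Int.castRingHom ℤ_[p]))).1 h3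
    have h5 : (((cyclotomic (p ^ (l + 1)) ℤ).comp (X + 1)).map
        (Int.castRingHom ℤ_[p])).map (algebraMap ℤ_[p] ℚ_[p]) =
        taylorEquiv (1 : ℚ_[p]) (cyclotomic (p ^ (l + 1)) ℚ_[p]) := by
      rw [Polynomial.map_map, map_comp, map_cyclotomic]
      show _ = taylor 1 _
      rw [taylor_apply]
      simp
    rw [h5] at h4
    exact (MulEquiv.irreducible_iff (taylorEquiv (1 : ℚ_[p]))).1 h4

private lemma st_next_one (p : ℕ) [hp : Fact p.Prime] :
    (cyclotomic p ℚ_[p]).nextCoeff = 1 := by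
  have h2 := hp.out.two_le
  rw [nextCoeff_of_natDegree_pos]
  · rw [natDegree_cyclotomic, Nat.totient_prime hp.out, cyclotomic_prime, finsetSum_coeff]
    simp only [coeff_X_pow]
    rw [Finset.sum_ite_eq]
    rw [if_pos]
    simp only [Finset.mem_range]
    omega
  · rw [natDegree_cyclotomic]
    exact Nat.totient_pos.2 hp.out.pos

private lemma st_next_two (p : ℕ) [hp : Fact p.Prime] (l : ℕ) :
    (cyclotomic (p ^ (l + 2)) ℚ_[p]).nextCoeff = 0 := by
  have h2 := hp.out.two_le
  have h3 : cyclotomic (p ^ (l + 2)) ℚ_[p] = expand ℚ_[p] p (cyclotomic (p ^ (l + 1)) ℚ_[p]) := by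
    rw [cyclotomic_expand_eq_cyclotomic hp.out (dvd_pow_self p (Nat.succ_ne_zero l))]
    rfl
  rw [nextCoeff_of_natDegree_pos]
  · rw [h3, natDegree_expand, coeff_expand hp.out.pos, if_neg]
    intro h
    have h4 : 0 < (cyclotomic (p ^ (l + 1)) ℚ_[p]).natDegree := by
      rw [natDegree_cyclotomic]
      exact Nat.totient_pos.2 (pow_pos hp.out.pos _)
    obtain ⟨c, hc⟩ := h
    obtain ⟨e, he⟩ : ∃ e, (cyclotomic (p ^ (l + 1)) ℚ_[p]).natDegree = e + 1 := ⟨_, (Nat.succ_pred_eq_of_pos h4).symm⟩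
    rw [he] at hc
    have h5 : (e + 1) * p = p * c + 1 := by
      have : 1 ≤ (e + 1) * p := Nat.mul_pos (Nat.succ_pos _) hp.out.pos
      omega
    have h6 : p ∣ 1 := (Nat.dvd_add_right (Dvd.intro c rfl)).1 (h5 ▸ Dvd.intro_left (e + 1) rfl)
    have := Nat.le_of_dvd one_pos h6
    omega
  · rw [natDegree_cyclotomic]
    exact Nat.totient_pos.2 (pow_pos hp.out.pos _)

private lemma st_key (p : ℕ) [hp : Fact p.Prime] (n : ℕ) :
    ∀ (d : ℕ) (f : ℚ_[p][X]), f.Monic → f.natDegree = d →
      (∀ z : AlgebraicClosure ℚ_[p], aeval z f = 0 → z ^ (p ^ n) = 1) →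
      ∃ a : ℕ, a * (p - 1) ≤ d ∧ -f.nextCoeff = (d : ℚ_[p]) - p * a ∧ (a = 0 → f = (X - 1) ^ d) := by
  intro d
  induction d using Nat.strong_induction_on with
  | _ d ih =>
  intro f hf hd hroot
  by_cases hd0 : d = 0
  · subst hd0
    have : f = 1 := hf.natDegree_eq_zero.1 hd
    subst this
    refine ⟨0, by simp, ?_, by simp⟩
    simp [nextCoeff]
  · obtain ⟨z, hz⟩ := IsAlgClosed.exists_aeval_eq_zero (AlgebraicClosure ℚ_[p]) f (by
      intro h
      rw [degree_eq_natDegree hf.ne_zero, hd] at h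
      exact hd0 (by exact_mod_cast h))
    have hz1 := hroot z hz
    obtain ⟨l, hl, hl2⟩ := (Nat.dvd_prime_pow hp.out).1 (orderOf_dvd_of_pow_eq_one hz1)
    have hprim : IsPrimitiveRoot z (p ^ l) := hl2 ▸ IsPrimitiveRoot.orderOf z
    have hmin : cyclotomic (p ^ l) ℚ_[p] = minpoly ℚ_[p] z := by
      refine minpoly.eq_of_irreducible_of_monic (st_irred p l) ?_ (cyclotomic.monic _ _)
      have := hprim.isRoot_cyclotomic (pow_pos hp.out.pos _)
      rw [IsRoot.def] at this
      rw [aeval_def, eval₂_eq_eval_map, map_cyclotomic]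
      exact this
    obtain ⟨g, hg⟩ : cyclotomic (p ^ l) ℚ_[p] ∣ f := hmin ▸ minpoly.dvd _ _ hz
    have hgm : g.Monic := Monic.of_mul_monic_left (cyclotomic.monic _ _) (hg ▸ hf)
    have hdeg : d = (cyclotomic (p ^ l) ℚ_[p]).natDegree + g.natDegree := by
      rw [← hd, hg, (cyclotomic.monic _ _).natDegree_mul hgm]
    have hpos : 0 < (cyclotomic (p ^ l) ℚ_[p]).natDegree := by
      rw [natDegree_cyclotomic]
      exact Nat.totient_pos.2 (pow_pos hp.out.pos _)
    obtain ⟨a, ha1, ha2, ha3⟩ := ih g.natDegree (by omega) g hgm rfl (fun w hw => hroot w (by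
      rw [hg, map_mul, hw, mul_zero]))
    have hnext : f.nextCoeff = (cyclotomic (p ^ l) ℚ_[p]).nextCoeff + g.nextCoeff := by
      rw [hg, (cyclotomic.monic _ _).nextCoeff_mul hgm]
    have h2 := hp.out.two_le
    obtain ⟨q, hq⟩ : ∃ q, p = q + 1 := ⟨p - 1, by omega⟩
    have hq' : p - 1 = q := by omega
    rcases l with _ | l
    · -- `X - 1`
      have hc : cyclotomic (p ^ 0) ℚ_[p] = X - 1 := by rw [pow_zero, cyclotomic_one]
      have hdc : (cyclotomic (p ^ 0) ℚ_[p]).natDegree = 1 := by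
        rw [hc]; exact natDegree_X_sub_C (1 : ℚ_[p])
      rw [hdc] at hdeg
      have hnc : (cyclotomic (p ^ 0) ℚ_[p]).nextCoeff = -1 := by
        rw [hc]; exact nextCoeff_X_sub_C (1 : ℚ_[p])
      refine ⟨a, by omega, ?_, ?_⟩
      · rw [hnext, hnc, hdeg]
        push_cast
        linear_combination ha2
      · intro ha
        rw [hg, hc, ha3 ha, hdeg, add_comm, pow_succ, mul_comm]
    · rcases l with _ | l
      · -- `Φ_p`
        have hc : cyclotomic (p ^ (0 + 1)) ℚ_[p] = cyclotomic p ℚ_[p] := by simp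
        have hdc : (cyclotomic (p ^ (0 + 1)) ℚ_[p]).natDegree = q := by
          rw [hc, natDegree_cyclotomic, Nat.totient_prime hp.out, hq']
        have hnc : (cyclotomic (p ^ (0 + 1)) ℚ_[p]).nextCoeff = 1 := by
          rw [hc, st_next_one]
        rw [hdc] at hdeg
        refine ⟨a + 1, ?_, ?_, by omega⟩
        · rw [hq'] at ha1 ⊢
          rw [add_mul, hdeg]; omega
        · rw [hnext, hnc, hdeg]
          push_cast
          have : (p : ℚ_[p]) = q + 1 := by exact_mod_cast congrArg (Nat.cast : ℕ → ℚ_[p]) hq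
          linear_combination ha2 + this
      · have hdc : (cyclotomic (p ^ (l + 1 + 1)) ℚ_[p]).natDegree = p ^ (l + 1) * q := by
          rw [natDegree_cyclotomic, Nat.totient_prime_pow hp.out (by omega), hq']
          rfl
        have hnc : (cyclotomic (p ^ (l + 1 + 1)) ℚ_[p]).nextCoeff = 0 := st_next_two p l
        rw [hdc] at hdeg
        have hqpos : 0 < q := by omega
        have hpl : 0 < p ^ l * q := Nat.mul_pos (pow_pos hp.out.pos _) hqpos
        refine ⟨a + p ^ l * q, ?_, ?_, by omega⟩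
        · rw [hq'] at ha1 ⊢
          rw [add_mul, hdeg, add_comm]
          refine Nat.add_le_add ?_ ha1
          rw [pow_succ, mul_assoc, mul_assoc]
          refine Nat.mul_le_mul_left _ ?_
          refine Nat.mul_le_mul_right _ (by omega)
        · rw [hnext, hnc, hdeg]
          push_cast
          linear_combination ha2

theorem trace_of_torsion (p m : ℕ) [Fact p.Prime] (h : Matrix (Fin m) (Fin m) ℤ_[p]) (n : ℕ)
    (hn : h ^ (p ^ n) = 1) (h1 : h ≠ 1) :
    ∃ a : ℕ, 1 ≤ a ∧ a ≤ m / (p - 1) ∧ h.trace = (m : ℤ_[p]) - p * a := by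
  have hp := (Fact.out : p.Prime)
  have h2 := hp.two_le
  have hm : Nonempty (Fin m) := by
    by_contra hne
    rw [not_nonempty_iff] at hne
    exact h1 (Subsingleton.elim _ _)
  set M : Matrix (Fin m) (Fin m) ℚ_[p] := h.map (algebraMap ℤ_[p] ℚ_[p]) with hM
  have hMn : M ^ (p ^ n) = 1 := by
    have := congrArg (fun A : Matrix (Fin m) (Fin m) ℤ_[p] => A.map (algebraMap ℤ_[p] ℚ_[p])) hn
    simp only [Matrix.map_one _ (map_zero _) (map_one _)] at this
    rw [← this, hM]
    exact ((RingHom.mapMatrix (m := Fin m) (algebraMap ℤ_[p] ℚ_[p])).map_pow h (p ^ n)).symm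
  obtain ⟨a, ha1, ha2, ha3⟩ := st_key p n m M.charpoly M.charpoly_monic
    (by rw [Matrix.charpoly_natDegree_eq_dim, Fintype.card_fin]) (by
    intro z hz
    set N : Matrix (Fin m) (Fin m) (AlgebraicClosure ℚ_[p]) :=
      M.map (algebraMap ℚ_[p] (AlgebraicClosure ℚ_[p])) with hN
    have hNn : N ^ (p ^ n) = 1 := by
      have := congrArg (fun A : Matrix (Fin m) (Fin m) ℚ_[p] =>
        A.map (algebraMap ℚ_[p] (AlgebraicClosure ℚ_[p]))) hMn
      simp only [Matrix.map_one _ (map_zero _) (map_one _)] at this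
      rw [← this, hN]
      exact ((RingHom.mapMatrix (m := Fin m)
        (algebraMap ℚ_[p] (AlgebraicClosure ℚ_[p]))).map_pow M (p ^ n)).symm
    have hz2 : N.charpoly.IsRoot z := by
      rw [hN, Matrix.charpoly_map, IsRoot.def, ← eval₂_eq_eval_map, ← aeval_def]
      exact hz
    have hz3 : z ∈ spectrum (AlgebraicClosure ℚ_[p]) N := Matrix.mem_spectrum_of_isRoot_charpoly hz2
    have hz4 := spectrum.pow_mem_pow N (p ^ n) hz3
    rw [hNn, spectrum.one_eq] at hz4
    exact hz4)
  have htr : M.trace = (m : ℚ_[p]) - p * a := by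
    rw [Matrix.trace_eq_neg_charpoly_nextCoeff]
    exact ha2
  have htr' : h.trace = (m : ℤ_[p]) - p * a := by
    apply (IsFractionRing.injective ℤ_[p] ℚ_[p])
    have h3 : algebraMap ℤ_[p] ℚ_[p] h.trace = M.trace := by
      rw [hM]
      exact AddMonoidHom.map_trace (algebraMap ℤ_[p] ℚ_[p]) h
    rw [h3, htr]
    simp
  refine ⟨a, ?_, ?_, htr'⟩
  · -- `a ≠ 0`
    by_contra ha
    have ha0 : a = 0 := by omega
    have hch := ha3 ha0
    apply h1
    -- `(M - 1)^m = 0`
    have h4 : (M - 1) ^ m = 0 := by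
      have := Matrix.aeval_self_charpoly M
      rw [hch] at this
      simpa using this
    -- coprimality
    have h5 : IsCoprime ((X - 1 : ℚ_[p][X]) ^ m) (∑ i ∈ Finset.range (p ^ n), X ^ i) := by
      apply IsCoprime.pow_left
      have h6 : Irreducible (X - 1 : ℚ_[p][X]) := irreducible_X_sub_C (1 : ℚ_[p])
      rw [h6.coprime_iff_not_dvd]
      intro h7
      have h8 : (X - C 1 : ℚ_[p][X]) ∣ (∑ i ∈ Finset.range (p ^ n), X ^ i) := by simpa using h7
      rw [dvd_iff_isRoot, IsRoot.def] at h8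
      simp [eval_finsetSum] at h8
      exact hp.ne_zero h8.1
    obtain ⟨u, v, huv⟩ := h5
    have h9 := congrArg (aeval M) huv
    simp only [map_add, map_mul, map_pow, map_sub, aeval_X, map_one, h4, mul_zero, zero_add] at h9
    have h10 : (aeval M (∑ i ∈ Finset.range (p ^ n), (X : ℚ_[p][X]) ^ i)) * (M - 1) = 0 := by
      have := geom_sum_mul M (p ^ n)
      rw [hMn, sub_self] at this
      simpa using this
    have h11 : M - 1 = 0 := by
      have h12 := congrArg (fun A => A * (M - 1)) h9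
      simpa only [mul_assoc, h10, mul_zero, one_mul] using h12.symm
    have h12 : M = 1 := sub_eq_zero.1 h11
    ext i j
    have h13 := congrFun (congrFun h12 i) j
    rw [hM, Matrix.map_apply] at h13
    apply (IsFractionRing.injective ℤ_[p] ℚ_[p])
    rw [h13, Matrix.one_apply, Matrix.one_apply]
    split_ifs <;> simp
  · rw [Nat.le_div_iff_mul_le (by omega)]
    exact ha1

end Pool.Agent.H4.Atiyah
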