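import Mathlib
import Pool.Agent.H4.Atiyah.SchurTrace

set_option autoImplicit false

open Filter Topology

namespace Pool.Agent.H4.Atiyah

section PsiSmall

variable {p : ℕ} [Fact p.Prime]

private lemma psiSmall_isClopen_dvd (i : ℕ) : IsClopen {x : ℤ_[p] | (p : ℤ_[p]) ^ i ∣ x} := by
  have h1 : {x : ℤ_[p] | (p : ℤ_[p]) ^ i ∣ x} = {x : ℤ_[p] | ‖x‖ ≤ (p : ℝ) ^ (-(i : ℤ))} := by
    ext x
    rw [Set.mem_ofPred_eq, Set.mem_ofPred_eq, PadicInt.norm_le_pow_iff_mem_span_pow,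
      Ideal.mem_span_singleton]
  have h2 : {x : ℤ_[p] | (p : ℤ_[p]) ^ i ∣ x} = {x : ℤ_[p] | ‖x‖ < (p : ℝ) ^ (-(i : ℤ) + 1)} := by
    rw [h1]
    ext x
    rw [Set.mem_ofPred_eq, Set.mem_ofPred_eq, PadicInt.norm_le_pow_iff_norm_lt_pow_add_one]
  constructor
  · rw [h1]; exact isClosed_le continuous_norm continuous_const
  · rw [h2]; exact isOpen_lt continuous_norm continuous_const

theorem psi_small (p m : ℕ) [Fact p.Prime] (n k : ℕ) :
    ∃ i : ℕ, ∀ h : Matrix (Fin m) (Fin m) ℤ_[p],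
      (∀ a b, (p : ℤ_[p]) ^ i ∣ (h ^ (p ^ n) - 1) a b) →
      (¬ ∀ a b, (p : ℤ_[p]) ^ 2 ∣ (h - 1) a b) →
      (p : ℤ_[p]) ^ k ∣ ∏ a ∈ Finset.Icc 1 (m / (p - 1)), (h.trace - m + p * a) := by
  by_contra hcon
  push Not at hcon
  have : CompactSpace (Matrix (Fin m) (Fin m) ℤ_[p]) :=
    inferInstanceAs (CompactSpace (Fin m → Fin m → ℤ_[p]))
  let ψ : Matrix (Fin m) (Fin m) ℤ_[p] → ℤ_[p] := fun h =>
    ∏ a ∈ Finset.Icc 1 (m / (p - 1)), (h.trace - m + p * a)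
  let K : ℕ → Set (Matrix (Fin m) (Fin m) ℤ_[p]) := fun i =>
    {h | (∀ a b, (p : ℤ_[p]) ^ i ∣ (h ^ (p ^ n) - 1) a b) ∧
      (∃ a b, ¬ (p : ℤ_[p]) ^ 2 ∣ (h - 1) a b) ∧ ¬ (p : ℤ_[p]) ^ k ∣ ψ h}
  have hψ : Continuous ψ := by
    refine continuous_finsetProd _ fun a _ => ?_
    exact ((continuous_id.matrix_trace).sub continuous_const).add continuous_const
  have hpow : ∀ a b, Continuous fun h : Matrix (Fin m) (Fin m) ℤ_[p] => (h ^ (p ^ n) - 1) a b :=
    fun a b => ((continuous_pow _).sub continuous_const).matrix_elem a b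
  have hsub : ∀ a b, Continuous fun h : Matrix (Fin m) (Fin m) ℤ_[p] => (h - 1) a b :=
    fun a b => (continuous_id.sub continuous_const).matrix_elem a b
  have hclosed : ∀ i, IsClosed (K i) := by
    intro i
    have c1 : IsClosed {h : Matrix (Fin m) (Fin m) ℤ_[p] |
        ∀ a b, (p : ℤ_[p]) ^ i ∣ (h ^ (p ^ n) - 1) a b} := by
      have : {h : Matrix (Fin m) (Fin m) ℤ_[p] |
        ∀ a b, (p : ℤ_[p]) ^ i ∣ (h ^ (p ^ n) - 1) a b} = ⋂ a, ⋂ b,
          (fun h : Matrix (Fin m) (Fin m) ℤ_[p] => (h ^ (p ^ n) - 1) a b) ⁻¹'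
            {x | (p : ℤ_[p]) ^ i ∣ x} := by
        ext h
        simp only [Set.mem_ofPred_eq, Set.mem_iInter, Set.mem_preimage]
      rw [this]
      exact isClosed_iInter fun a => isClosed_iInter fun b =>
        (psiSmall_isClopen_dvd i).1.preimage (hpow a b)
    have c2 : IsClosed {h : Matrix (Fin m) (Fin m) ℤ_[p] |
        ∃ a b, ¬ (p : ℤ_[p]) ^ 2 ∣ (h - 1) a b} := by
      have : {h : Matrix (Fin m) (Fin m) ℤ_[p] |
        ∃ a b, ¬ (p : ℤ_[p]) ^ 2 ∣ (h - 1) a b} = (⋂ a, ⋂ b,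
          (fun h : Matrix (Fin m) (Fin m) ℤ_[p] => (h - 1) a b) ⁻¹'
            {x | (p : ℤ_[p]) ^ 2 ∣ x})ᶜ := by
        ext h
        simp only [Set.mem_ofPred_eq, Set.mem_compl_iff, Set.mem_iInter, Set.mem_preimage]
        push Not
        rfl
      rw [this]
      apply IsOpen.isClosed_compl
      refine isOpen_iInter_of_finite fun a => isOpen_iInter_of_finite fun b =>
        (psiSmall_isClopen_dvd 2).2.preimage (hsub a b)
    have c3 : IsClosed {h : Matrix (Fin m) (Fin m) ℤ_[p] | ¬ (p : ℤ_[p]) ^ k ∣ ψ h} := by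
      have : {h : Matrix (Fin m) (Fin m) ℤ_[p] | ¬ (p : ℤ_[p]) ^ k ∣ ψ h} =
        (ψ ⁻¹' {x | (p : ℤ_[p]) ^ k ∣ x})ᶜ := by
        ext h
        simp only [Set.mem_ofPred_eq, Set.mem_compl_iff, Set.mem_preimage]
      rw [this]
      exact ((psiSmall_isClopen_dvd k).2.preimage hψ).isClosed_compl
    exact c1.inter (c2.inter c3)
  have hne : (⋂ i, K i).Nonempty := by
    refine IsCompact.nonempty_iInter_of_sequence_nonempty_isCompact_isClosed K ?_ ?_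
      (hclosed 0).isCompact hclosed
    · intro i h hh
      exact ⟨fun a b => (pow_dvd_pow _ (Nat.le_succ i)).trans (hh.1 a b), hh.2⟩
    · intro i
      obtain ⟨h, h1, h2, h3⟩ := hcon i
      exact ⟨h, h1, h2, h3⟩
  obtain ⟨h, hh⟩ := hne
  rw [Set.mem_iInter] at hh
  have hpn : h ^ (p ^ n) = 1 := by
    rw [← sub_eq_zero]
    ext a b
    by_contra hne
    have h0 : (h ^ (p ^ n) - 1) a b ≠ 0 := hne
    have h1 := (PadicInt.norm_le_pow_iff_mem_span_pow ((h ^ (p ^ n) - 1) a b)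
      ((h ^ (p ^ n) - 1) a b).valuation.succ).2 (Ideal.mem_span_singleton.2 ((hh _).1 a b))
    rw [PadicInt.norm_eq_zpow_neg_valuation h0] at h1
    have hp1 : (1 : ℝ) < p := by exact_mod_cast (Fact.out : p.Prime).one_lt
    rw [zpow_le_zpow_iff_right₀ hp1] at h1
    push_cast at h1
    omega
  have hne1 : h ≠ 1 := by
    rintro rfl
    obtain ⟨a, b, hab⟩ := (hh 0).2.1
    apply hab
    rw [sub_self]
    exact dvd_zero _
  obtain ⟨a, ha1, ha2, ha3⟩ := trace_of_torsion p m h n hpn hne1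
  apply (hh 0).2.2
  have : ψ h = 0 := by
    refine Finset.prod_eq_zero (Finset.mem_Icc.2 ⟨ha1, ha2⟩) ?_
    rw [ha3]; ring
  rw [this]
  exact dvd_zero _

end PsiSmall

end Pool.Agent.H4.Atiyah
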