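import Pool.Agent.H4.Atiyah.CyclicTrace

/-!
# M04b : twisted class sums for finite `p`-groups
-/

set_option autoImplicit false

namespace Pool.Agent.H4.Atiyah

section TwistedSum

variable {p : ℕ} [Fact p.Prime] {H : Type*} [Group H]

/-- In a finite `p`-group, if a cyclic subgroup `⟨h⟩` meets `U` nontrivially, then `U` contains the
last nontrivial power of `h`. -/
private theorem exists_last_pow [Fintype H] (hH : IsPGroup p H) (U : Subgroup H) (h x : H)
    (hx : x ∈ Subgroup.zpowers h) (hxU : x ∈ U) (hx1 : x ≠ 1) :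
    ∃ n : ℕ, orderOf h = p ^ (n + 1) ∧ h ^ (p ^ n) ∈ U := by
  have hp : p.Prime := Fact.out
  obtain ⟨k, hk⟩ := IsPGroup.iff_orderOf.mp hH h
  rcases Nat.eq_zero_or_pos k with hk0 | hkpos
  · exfalso
    rw [hk0, pow_zero, orderOf_eq_one_iff] at hk
    subst hk
    simp at hx
    exact hx1 hx
  obtain ⟨n, rfl⟩ : ∃ n, k = n + 1 := ⟨k - 1, by omega⟩
  refine ⟨n, hk, ?_⟩
  rw [← mem_powers_iff_mem_zpowers] at hx
  obtain ⟨j, rfl⟩ := hx
  simp only at hxU hx1
  have hj0 : j ≠ 0 := by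
    rintro rfl
    exact hx1 (pow_zero h)
  obtain ⟨s, j', hj', rfl⟩ := Nat.exists_eq_pow_mul_and_not_dvd hj0 p hp.ne_one
  have hcop : j'.Coprime (orderOf (h ^ (p ^ s))) := by
    have h1 : orderOf (h ^ p ^ s) ∣ p ^ (n + 1) := hk ▸ orderOf_pow_dvd _
    exact Nat.Coprime.coprime_dvd_right h1
      (Nat.Coprime.pow_right _ ((Nat.Prime.coprime_iff_not_dvd hp).mpr hj').symm)
  obtain ⟨m, hm⟩ := exists_pow_eq_self_of_coprime hcop
  have hyU : h ^ (p ^ s) ∈ U := by
    rw [← hm, ← pow_mul h]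
    exact U.pow_mem hxU m
  have hsn : s ≤ n := by
    by_contra hc
    push Not at hc
    apply hx1
    rw [pow_mul]
    have : h ^ p ^ s = 1 := by
      rw [← orderOf_dvd_iff_pow_eq_one, hk]
      exact pow_dvd_pow p (by omega)
    rw [this, one_pow]
  have : h ^ p ^ n = (h ^ p ^ s) ^ (p ^ (n - s)) := by
    rw [← pow_mul, ← pow_add]
    congr 2
    omega
  rw [this]
  exact U.pow_mem hyU _

/-- The map `(c, q) ↦ z ^ c * q⁻¹` from `ZMod p × G ⧸ ⟨z⟩` to `G`. -/
private noncomputable def cosetMap {G : Type*} [Group G] (p : ℕ) (z : G)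
    (x : ZMod p × (G ⧸ Subgroup.zpowers z)) : G := z ^ (x.1.val) * (x.2.out)⁻¹

private theorem cosetMap_bijective {G : Type*} [Group G] (z : G) (hz : orderOf z = p) :
    Function.Bijective (cosetMap p z) := by
  have hp : p.Prime := Fact.out
  have : NeZero p := ⟨hp.ne_zero⟩
  constructor
  · rintro ⟨c, q⟩ ⟨c', q'⟩ h
    simp only [cosetMap] at h
    have hq : q = q' := by
      rw [← QuotientGroup.out_eq' q, ← QuotientGroup.out_eq' q', QuotientGroup.eq]
      have : q.out⁻¹ * q'.out = (z ^ c.val)⁻¹ * z ^ c'.val := by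
        have h2 : q.out⁻¹ = (z ^ c.val)⁻¹ * (z ^ c'.val * q'.out⁻¹) := by
          rw [← h]; group
        rw [h2]; group
      rw [this]
      exact mul_mem (inv_mem (Subgroup.npow_mem_zpowers z _)) (Subgroup.npow_mem_zpowers z _)
    subst hq
    have h2 : z ^ c.val = z ^ c'.val := mul_right_cancel h
    have h3 : c.val = c'.val := by
      refine pow_injOn_Iio_orderOf ?_ ?_ h2
      · simp only [Set.mem_Iio]; rw [hz]; exact ZMod.val_lt c
      · simp only [Set.mem_Iio]; rw [hz]; exact ZMod.val_lt c'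
    rw [ZMod.val_injective p h3]
  · intro u
    have h1 : ((QuotientGroup.mk u⁻¹ : G ⧸ Subgroup.zpowers z).out)⁻¹ * u⁻¹ ∈
        Subgroup.zpowers z := by
      rw [← QuotientGroup.eq, QuotientGroup.out_eq']
    obtain ⟨k, hk⟩ := Subgroup.mem_zpowers_iff.mp h1
    refine ⟨(((-k : ℤ) : ZMod p), QuotientGroup.mk u⁻¹), ?_⟩
    simp only [cosetMap]
    have h2 : z ^ (((-k : ℤ) : ZMod p)).val = z ^ (-k) := by
      rw [← zpow_natCast, ZMod.val_intCast, ← hz, zpow_mod_orderOf]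
    rw [h2, zpow_neg, hk]
    group

private theorem cosetMap_succ {G : Type*} [Group G] (z : G) (hz : orderOf z = p)
    (c : ZMod p) (q : G ⧸ Subgroup.zpowers z) :
    z * cosetMap p z (c, q) = cosetMap p z (c + 1, q) := by
  have hp : p.Prime := Fact.out
  have : Fact (1 < p) := ⟨hp.one_lt⟩
  simp only [cosetMap]
  rw [← mul_assoc, ← pow_succ']
  congr 1
  rw [ZMod.val_add, ZMod.val_one]
  have h := pow_mod_orderOf z (c.val + 1)
  rw [hz] at h
  exact h.symm

/-- The trace of `ρ (h⁻¹)` vanishes if `⟨h⟩` meets `U` nontrivially. -/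
private theorem trace_eq_zero_of_bad [Fintype H] (hH : IsPGroup p H) (U : Subgroup H) [Fintype U]
    {W : Type*} [AddCommGroup W] [Module ℤ_[p] W] (ρ : Representation ℤ_[p] H W) {ι : Type*}
    [Fintype ι] (b : Module.Basis (U × ι) ℤ_[p] W)
    (hb : ∀ (u v : U) (i : ι), ρ (u : H) (b (v, i)) = b (u * v, i)) (h x : H)
    (hx : x ∈ Subgroup.zpowers h) (hxU : x ∈ U) (hx1 : x ≠ 1) :
    LinearMap.trace ℤ_[p] W (ρ h⁻¹) = 0 := by
  have hp : p.Prime := Fact.out
  obtain ⟨n, hn, hU⟩ := exists_last_pow hH U h x hx hxU hx1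
  set z : U := ⟨(h ^ (p ^ n))⁻¹, U.inv_mem hU⟩ with hz
  have hzo : orderOf z = p := by
    rw [← Subgroup.orderOf_coe, hz]
    simp only [orderOf_inv]
    rw [orderOf_pow_of_dvd (pow_ne_zero _ hp.ne_zero) (by rw [hn]; exact pow_dvd_pow p (by omega)),
      hn, pow_succ]
    exact Nat.mul_div_cancel_left p (pow_pos hp.pos n)
  set e0 := Equiv.ofBijective _ (cosetMap_bijective z hzo) with he0
  let e : U × ι ≃ ZMod p × ((U ⧸ Subgroup.zpowers z) × ι) :=
    (e0.symm.prodCongr (Equiv.refl ι)).trans (Equiv.prodAssoc _ _ _)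
  have hfin : Finite (U ⧸ Subgroup.zpowers z) := inferInstance
  refine trace_eq_zero_of_free p (b.reindex e) (ρ h⁻¹) n ?_ ?_
  · rw [← map_pow, inv_pow, ← hn, pow_orderOf_eq_one, inv_one, map_one]
  · rintro c ⟨q, i⟩
    rw [← map_pow, Module.Basis.reindex_apply, Module.Basis.reindex_apply]
    have h1 : h⁻¹ ^ p ^ n = (z : H) := by rw [inv_pow]
    have h2 : ∀ c : ZMod p, e.symm (c, (q, i)) = (cosetMap p z (c, q), i) := fun c => rfl
    rw [h1, h2, h2, hb, cosetMap_succ z hzo]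

private theorem repr_rho (U : Subgroup H)
    {W : Type*} [AddCommGroup W] [Module ℤ_[p] W] (ρ : Representation ℤ_[p] H W) {ι : Type*}
    (b : Module.Basis (U × ι) ℤ_[p] W)
    (hb : ∀ (u v : U) (i : ι), ρ (u : H) (b (v, i)) = b (u * v, i)) (y v : U) (i : ι) (x : W) :
    b.repr (ρ (y : H) x) (v, i) = b.repr x (y⁻¹ * v, i) := by
  classical
  have key : (Finsupp.lapply (v, i) ∘ₗ b.repr.toLinearMap) ∘ₗ ρ (y : H) =
      Finsupp.lapply (y⁻¹ * v, i) ∘ₗ b.repr.toLinearMap := by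
    refine b.ext ?_
    rintro ⟨u, a⟩
    simp only [LinearMap.comp_apply, hb, LinearEquiv.coe_coe, Module.Basis.repr_self,
      Finsupp.lapply_apply]
    rw [Finsupp.single_apply, Finsupp.single_apply]
    refine if_congr ?_ rfl rfl
    simp only [Prod.mk.injEq]
    constructor
    · rintro ⟨h1, h2⟩
      exact ⟨by rw [← h1]; group, h2⟩
    · rintro ⟨h1, h2⟩
      exact ⟨by rw [h1]; group, h2⟩
  exact LinearMap.congr_fun key x

/-- the twisted conjugation action -/
private def tw (U : Subgroup H) [U.Normal] (g : H) (v u : U) : U :=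
  ⟨g⁻¹ * v * g, by
    have := Subgroup.Normal.conj_mem ‹U.Normal› (v : H) v.2 g⁻¹
    rwa [inv_inv] at this⟩ * u * v⁻¹

private theorem tw_coe (U : Subgroup H) [U.Normal] (g : H) (v u : U) :
    ((tw U g v u : U) : H) = g⁻¹ * (v * (g * u) * (v : H)⁻¹) := by
  simp only [tw, Subgroup.coe_mul, Subgroup.coe_inv]
  group

private theorem tw_one (U : Subgroup H) [U.Normal] (g : H) (u : U) : tw U g 1 u = u := by
  apply Subtype.ext
  rw [tw_coe]
  simp

private theorem tw_mul (U : Subgroup H) [U.Normal] (g : H) (v w u : U) :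
    tw U g (v * w) u = tw U g v (tw U g w u) := by
  apply Subtype.ext
  rw [tw_coe, tw_coe, tw_coe]
  simp only [Subgroup.coe_mul]
  group

/-- the trace of `ρ ((g u)⁻¹)` is the sum over the twisted orbit -/
private theorem trace_eq_sum (U : Subgroup H) [U.Normal] [Fintype U]
    {W : Type*} [AddCommGroup W] [Module ℤ_[p] W] (ρ : Representation ℤ_[p] H W) {ι : Type*}
    [Fintype ι] (b : Module.Basis (U × ι) ℤ_[p] W)
    (hb : ∀ (u v : U) (i : ι), ρ (u : H) (b (v, i)) = b (u * v, i)) (g : H) (u : U) :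
    LinearMap.trace ℤ_[p] W (ρ (g * u)⁻¹) =
      ∑ v : U, ∑ i : ι, b.repr (ρ g⁻¹ (b (1, i))) (tw U g v u, i) := by
  classical
  rw [LinearMap.trace_eq_matrix_trace ℤ_[p] b, Matrix.trace, Fintype.sum_prod_type]
  rw [← Equiv.sum_comp (Equiv.inv U)]
  refine Finset.sum_congr rfl fun v _ => Finset.sum_congr rfl fun i _ => ?_
  rw [Matrix.diag_apply, LinearMap.toMatrix_apply]
  have h1 : b ((Equiv.inv U) v, i) = ρ ((v⁻¹ : U) : H) (b (1, i)) := by
    rw [hb, mul_one]
    rfl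
  set y : U := u⁻¹ * ⟨g⁻¹ * (v : H)⁻¹ * g, by
    have := Subgroup.Normal.conj_mem ‹U.Normal› ((v : H)⁻¹) (U.inv_mem v.2) g⁻¹
    rwa [inv_inv] at this⟩ with hy
  have h2 : ρ (g * u)⁻¹ (b ((Equiv.inv U) v, i)) = ρ (y : H) (ρ g⁻¹ (b (1, i))) := by
    rw [h1, ← Module.End.mul_apply, ← Module.End.mul_apply, ← map_mul, ← map_mul]
    congr 2
    rw [hy]
    simp only [Subgroup.coe_mul, Subgroup.coe_inv]
    group
  rw [h2, repr_rho U ρ b hb]
  congr 2
  apply Subtype.ext
  rw [tw_coe, hy]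
  simp only [Subgroup.coe_mul, Subgroup.coe_inv, mul_inv_rev, Equiv.inv_apply]
  group

end TwistedSum

theorem twisted_sum_eq_zero (p : ℕ) [Fact p.Prime] {H : Type*} [Group H] [Fintype H]
    (hH : IsPGroup p H) (U : Subgroup H) [U.Normal] [Fintype U] {W : Type*} [AddCommGroup W]
    [Module ℤ_[p] W] (ρ : Representation ℤ_[p] H W) {ι : Type*} [Fintype ι]
    (b : Module.Basis (U × ι) ℤ_[p] W)
    (hb : ∀ (u v : U) (i : ι), ρ (u : H) (b (v, i)) = b (u * v, i))
    {A : Type*} [CommRing A] [Algebra ℤ_[p] A] (ψ : H → A)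
    (hψ : ∀ (v : U) (h : H), ψ (v * h * (v : H)⁻¹) = ψ h) (g : H) (hg : g ∉ U)
    (hgood : ∀ u : U, (∀ x ∈ Subgroup.zpowers (g * u), x ∈ U → x = 1) → ψ (g * u) = 0) :
    ∑ u : U, algebraMap ℤ_[p] A (∑ i : ι, b.repr (ρ g⁻¹ (b (1, i))) (u, i)) * ψ (g * u) = 0 := by
  classical
  set f : U → ℤ_[p] := fun u => ∑ i : ι, b.repr (ρ g⁻¹ (b (1, i))) (u, i) with hf
  change ∑ u : U, algebraMap ℤ_[p] A (f u) * ψ (g * u) = 0
  -- the orbit equivalence relation
  let s : Setoid U :=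
    { r := fun u u' => ∃ v : U, tw U g v u = u'
      iseqv := ⟨fun u => ⟨1, tw_one U g u⟩, by
        rintro u _ ⟨v, rfl⟩
        exact ⟨v⁻¹, by rw [← tw_mul, inv_mul_cancel, tw_one]⟩, by
        rintro u _ _ ⟨v, rfl⟩ ⟨w, rfl⟩
        exact ⟨w * v, tw_mul U g w v u⟩⟩ }
  have hψ' : ∀ v u : U, ψ (g * (tw U g v u : U)) = ψ (g * u) := by
    intro v u
    rw [tw_coe, mul_inv_cancel_left, hψ]
  rw [← Finset.sum_fiberwise Finset.univ (fun u : U => (Quotient.mk s u))]
  refine Finset.sum_eq_zero fun q _ => ?_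
  obtain ⟨u₀, rfl⟩ := Quotient.exists_rep q
  have hmem : ∀ u : U, Quotient.mk s u = Quotient.mk s u₀ ↔ ∃ v : U, tw U g v u₀ = u := by
    intro u
    rw [eq_comm, Quotient.eq]
    rfl
  -- constant value of `ψ`
  have h1 : ∑ u : U with Quotient.mk s u = Quotient.mk s u₀, algebraMap ℤ_[p] A (f u) * ψ (g * u) =
      algebraMap ℤ_[p] A (∑ u : U with Quotient.mk s u = Quotient.mk s u₀, f u) * ψ (g * u₀) := by
    rw [map_sum, Finset.sum_mul]
    refine Finset.sum_congr rfl fun u hu => ?_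
    rw [Finset.mem_filter] at hu
    obtain ⟨v, rfl⟩ := (hmem u).mp hu.2
    rw [hψ']
  rw [h1]
  by_cases hgd : ∀ x ∈ Subgroup.zpowers (g * u₀), x ∈ U → x = 1
  · rw [hgood u₀ hgd, mul_zero]
  push Not at hgd
  obtain ⟨x, hx, hxU, hx1⟩ := hgd
  have htr : LinearMap.trace ℤ_[p] W (ρ (g * u₀)⁻¹) = 0 :=
    trace_eq_zero_of_bad hH U ρ b hb (g * u₀) x hx hxU hx1
  rw [trace_eq_sum U ρ b hb g u₀] at htr
  have h2 : ∑ v : U, f (tw U g v u₀) = 0 := htr
  -- counting
  have h3 : ∀ u : U, (Finset.univ.filter fun v : U => tw U g v u₀ = u).card =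
      if Quotient.mk s u = Quotient.mk s u₀ then
        (Finset.univ.filter fun v : U => tw U g v u₀ = u₀).card else 0 := by
    intro u
    split_ifs with hu
    · obtain ⟨w, rfl⟩ := (hmem u).mp hu
      refine Finset.card_bij' (fun v _ => w⁻¹ * v) (fun v _ => w * v) ?_ ?_ ?_ ?_
      · intro v hv
        simp only [Finset.mem_filter, Finset.mem_univ, true_and] at hv ⊢
        rw [tw_mul, hv, ← tw_mul, inv_mul_cancel, tw_one]
      · intro v hv
        simp only [Finset.mem_filter, Finset.mem_univ, true_and] at hv ⊢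
        rw [tw_mul, hv]
      · intro v _; group
      · intro v _; group
    · rw [Finset.card_eq_zero, Finset.filter_eq_empty_iff]
      intro v _ hv
      exact hu ((hmem u).mpr ⟨v, hv⟩)
  have h4 : ∑ v : U, f (tw U g v u₀) =
      ((Finset.univ.filter fun v : U => tw U g v u₀ = u₀).card : ℤ_[p]) *
        ∑ u : U with Quotient.mk s u = Quotient.mk s u₀, f u := by
    rw [← Finset.sum_fiberwise Finset.univ (fun v : U => tw U g v u₀), Finset.mul_sum,
      Finset.sum_filter]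
    refine Finset.sum_congr rfl fun u _ => ?_
    have h5 : ∑ v : U with tw U g v u₀ = u, f (tw U g v u₀) =
        ∑ v : U with tw U g v u₀ = u, f u := by
      refine Finset.sum_congr rfl fun v hv => ?_
      rw [(Finset.mem_filter.mp hv).2]
    rw [h5, Finset.sum_const, h3 u, nsmul_eq_mul]
    split_ifs <;> simp
  rw [h4] at h2
  have h6 : ((Finset.univ.filter fun v : U => tw U g v u₀ = u₀).card : ℤ_[p]) ≠ 0 := by
    rw [Nat.cast_ne_zero, Finset.card_ne_zero]
    exact ⟨1, by simp [tw_one]⟩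
  rw [(mul_eq_zero.mp h2).resolve_left h6, map_zero, zero_mul]

end Pool.Agent.H4.Atiyah
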