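import Pool.Agent.H4.Atiyah.TDefs
import Pool.Agent.H4.Atiyah.MuT
import Pool.Agent.H4.Atiyah.Level
import Pool.Agent.H4.Atiyah.TwistedSum
import Pool.Agent.H4.Atiyah.PsiSmall

/-!
# M33d : vanishing of twisted trace sums
-/

set_option autoImplicit false

open Filter Topology

namespace Pool.Agent.H4.Atiyah

/-- congruent matrices have congruent traces -/
theorem trace_sub_dvd_of_dvd {R : Type*} [CommRing R] {m : ℕ} {q : R} {A B : Matrix (Fin m) (Fin m) R}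
    (h : ∀ a b, q ∣ (A - B) a b) : q ∣ A.trace - B.trace := by
  rw [← Matrix.trace_sub]
  exact Finset.dvd_sum fun a _ => h a a

/-- `psi` is compatible with ring homomorphisms -/
theorem map_psi (p m : ℕ) {R S : Type*} [CommRing R] [CommRing S] (f : R →+* S) (x : R) :
    f (psi p m x) = psi p m (f x) := by
  unfold psi
  rw [map_prod]
  refine Finset.prod_congr rfl fun a _ => ?_
  simp

/-- if `g⁻¹ h ∈ N_j` then the traces of `ρ g` and `ρ h` are congruent mod `p^k`, `k ≤ j`. -/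
theorem psi_trace_congr (p m : ℕ) [Fact p.Prime] (ℱ : Filt)
    (ρ : ℱ.G →* Matrix.GeneralLinearGroup (Fin m) ℤ_[p])
    (hρ : ∀ j g, g ∈ ℱ.N j ↔ ρ g ∈ (glFilt p m).N j) {j k : ℕ} (hk : k ≤ j) {g h : ℱ.G}
    (hgh : SQ.mk ℱ j g = SQ.mk ℱ j h) :
    (Ideal.Quotient.mk (Ideal.span {(p : ℤ_[p]) ^ k})) (psi p m (Matrix.trace (ρ g).1)) =
      (Ideal.Quotient.mk (Ideal.span {(p : ℤ_[p]) ^ k})) (psi p m (Matrix.trace (ρ h).1)) := by
  rw [map_psi, map_psi]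
  congr 1
  rw [Ideal.Quotient.mk_eq_mk_iff_sub_mem, Ideal.mem_span_singleton]
  have h1 : h⁻¹ * g ∈ ℱ.N j := by
    rw [← SQ.mk_eq_one, map_mul, map_inv, hgh, inv_mul_cancel]
  rw [hρ, mem_glFilt] at h1
  apply trace_sub_dvd_of_dvd
  intro a b
  have h2 : (ρ g).1 - (ρ h).1 = (ρ h).1 * ((ρ (h⁻¹ * g)).1 - 1) := by
    rw [mul_sub, mul_one, ← Units.val_mul, ← map_mul, mul_inv_cancel_left]
  rw [h2, Matrix.mul_apply]
  refine Finset.dvd_sum fun c _ => Dvd.dvd.mul_left ?_ _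
  exact (pow_dvd_pow _ (by omega)).trans (h1 c b)

section M33

variable (p : ℕ) [Fact p.Prime] (ℱ : Filt)

variable {O : Type} [CommRing O] [Algebra ℤ_[p] O]
  {Z : Type} [AddCommGroup Z] [Module (LamS ℱ O) Z] [Module (LamU p ℱ) Z]
  (hΛ : ∀ (a : LamU p ℱ) (v : Z), a • v = incS p ℱ O a • v)
  {z : ℕ} (w : Module.Basis (Fin z) (LamU p ℱ) Z)

/-- membership of `SQ.mk g` in the image of `U / N_j` -/
theorem mk_mem_range_incl {ℱ : Filt} {j : ℕ} {g : ℱ.G} :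
    SQ.mk ℱ j g ∈ (UQ.incl ℱ j).range ↔ g ∈ ℱ.N 0 := by
  constructor
  · rintro ⟨q, hq⟩
    obtain ⟨u, rfl⟩ := UQ.mk_surjective ℱ j q
    rw [UQ.incl_mk] at hq
    have h1 : (u : ℱ.G)⁻¹ * g ∈ ℱ.N j := by
      rw [← SQ.mk_eq_one, map_mul, map_inv, hq, inv_mul_cancel]
    have h2 := mul_mem u.2 (ℱ.antitone (Nat.zero_le j) h1)
    rwa [mul_inv_cancel_left] at h2
  · intro hg
    exact ⟨UQ.mk ℱ j ⟨g, hg⟩, rfl⟩

instance range_incl_normal (ℱ : Filt) (j : ℕ) : ((UQ.incl ℱ j).range).Normal := by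
  constructor
  intro q hq h
  obtain ⟨g, rfl⟩ := SQ.mk_surjective ℱ j q
  obtain ⟨h, rfl⟩ := SQ.mk_surjective ℱ j h
  rw [mk_mem_range_incl] at hq
  rw [← map_inv, ← map_mul, ← map_mul, mk_mem_range_incl]
  exact (ℱ.normal 0).conj_mem g hq h


/-- every `g` has `g ^ (p ^ n) ∈ N 0`, where `|S / N 0| = p ^ n` -/
theorem exists_pow_mem {p : ℕ} [Fact p.Prime] {ℱ : Filt} (h0 : IsPGroup p (SQ ℱ 0)) :
    ∃ n : ℕ, ∀ g : ℱ.G, g ^ (p ^ n) ∈ ℱ.N 0 := by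
  obtain ⟨n, hn⟩ := IsPGroup.iff_card.mp h0
  refine ⟨n, fun g => ?_⟩
  rw [← SQ.mk_eq_one, map_pow, ← hn]
  exact pow_card_eq_one'

end M33

section Main

variable (p : ℕ) [Fact p.Prime] (ℱ : Filt)

variable {O : Type} [CommRing O] [Algebra ℤ_[p] O]
  {Z : Type} [AddCommGroup Z] [Module (LamS ℱ O) Z] [Module (LamU p ℱ) Z]
  (hΛ : ∀ (a : LamU p ℱ) (v : Z), a • v = incS p ℱ O a • v)
  {z : ℕ} (w : Module.Basis (Fin z) (LamU p ℱ) Z)

include hΛ in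
/-- M33d -/
theorem dvd_sum_psi (hp : ∀ j, IsPGroup p (SQ ℱ j)) {m : ℕ}
    (ρ : ℱ.G →* Matrix.GeneralLinearGroup (Fin m) ℤ_[p])
    (hρ : ∀ j g, g ∈ ℱ.N j ↔ ρ g ∈ (glFilt p m).N j) (g : ℱ.G) (hg : g ∉ ℱ.N 0) (k : ℕ) :
    ∃ j₀, ∀ j ≥ j₀, ∀ s : UQ ℱ j → ↥(ℱ.N 0), (∀ u, UQ.mk ℱ j (s u) = u) →
        (p : ℤ_[p]) ^ k ∣ ∑ u, muT p ℱ O w g⁻¹ j u *
          psi p m (Matrix.trace (ρ (g * s u)).1) := by
  classical
  obtain ⟨n, hn⟩ := exists_pow_mem (hp 0)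
  obtain ⟨i, hi⟩ := psi_small p m n k
  refine ⟨max k i, fun j hj s hs => ?_⟩
  have hkj : k ≤ j := le_trans (le_max_left _ _) hj
  have hij : i ≤ j := le_trans (le_max_right _ _) hj
  obtain ⟨W, iW1, iW2, σ, b, h1, h2⟩ := exists_level p ℱ hΛ w j
  let U : Subgroup (SQ ℱ j) := (UQ.incl ℱ j).range
  let e : UQ ℱ j ≃* U := MonoidHom.ofInjective (UQ.incl_injective ℱ j)
  have he : ∀ u, ((e u : U) : SQ ℱ j) = UQ.incl ℱ j u := fun u => rfl
  have : Fintype U := Fintype.ofFinite _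
  let b' : Module.Basis (U × Fin z) ℤ_[p] W := b.reindex (Equiv.prodCongr e.toEquiv (Equiv.refl _))
  have hb'1 : ∀ (u : UQ ℱ j) (a : Fin z), b' (e u, a) = b (u, a) := by
    intro u a
    simp [b']
  have hb'2 : ∀ (x : W) (u : UQ ℱ j) (a : Fin z), b'.repr x (e u, a) = b.repr x (u, a) := by
    intro x u a
    rw [Module.Basis.repr_reindex_apply]
    congr 1
    exact Prod.ext (e.symm_apply_apply u) rfl
  let A := ℤ_[p] ⧸ Ideal.span {(p : ℤ_[p]) ^ k}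
  let ψ : SQ ℱ j → A := fun q =>
    Ideal.Quotient.mk (Ideal.span {(p : ℤ_[p]) ^ k})
      (psi p m (Matrix.trace (ρ (Function.surjInv (SQ.mk_surjective ℱ j) q)).1))
  have hψmk : ∀ h : ℱ.G, ψ (SQ.mk ℱ j h) = Ideal.Quotient.mk (Ideal.span {(p : ℤ_[p]) ^ k})
      (psi p m (Matrix.trace (ρ h).1)) := by
    intro h
    exact psi_trace_congr p m ℱ ρ hρ hkj (Function.surjInv_eq (SQ.mk_surjective ℱ j) _)
  have hψ : ∀ (v : U) (h : SQ ℱ j), ψ (v * h * (v : SQ ℱ j)⁻¹) = ψ h := by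
    intro v h
    obtain ⟨v', hv'⟩ := SQ.mk_surjective ℱ j (v : SQ ℱ j)
    obtain ⟨h', rfl⟩ := SQ.mk_surjective ℱ j h
    rw [← hv', ← map_inv, ← map_mul, ← map_mul, hψmk, hψmk]
    congr 2
    rw [map_mul, map_mul, Units.val_mul, Units.val_mul, Matrix.trace_mul_comm, ← mul_assoc,
      ← Units.val_mul, ← map_mul, inv_mul_cancel, map_one, Units.val_one, one_mul]
  have hgU : SQ.mk ℱ j g ∉ U := fun h => hg (mk_mem_range_incl.mp h)
  have hb : ∀ (u v : U) (a : Fin z), σ (u : SQ ℱ j) (b' (v, a)) = b' (u * v, a) := by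
    intro u v a
    obtain ⟨u, rfl⟩ := e.surjective u
    obtain ⟨v, rfl⟩ := e.surjective v
    rw [← map_mul, hb'1, hb'1, he, h1]
  have hgood : ∀ u : U, (∀ x ∈ Subgroup.zpowers (SQ.mk ℱ j g * u), x ∈ U → x = 1) →
      ψ (SQ.mk ℱ j g * u) = 0 := by
    intro u hu
    obtain ⟨u, rfl⟩ := e.surjective u
    obtain ⟨u, rfl⟩ := UQ.mk_surjective ℱ j u
    rw [he, UQ.incl_mk, ← map_mul] at hu ⊢
    rw [hψmk, Ideal.Quotient.eq_zero_iff_mem, Ideal.mem_span_singleton]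
    have h3 : (g * (u : ℱ.G)) ^ (p ^ n) ∈ ℱ.N j := by
      rw [← SQ.mk_eq_one]
      apply hu
      · rw [map_pow]
        exact pow_mem (Subgroup.mem_zpowers _) _
      · exact mk_mem_range_incl.mpr (hn _)
    rw [hρ, mem_glFilt] at h3
    refine hi _ (fun a c => ?_) (fun hall => ?_)
    · have h4 := h3 a c
      rw [map_pow, Units.val_pow_eq_pow_val] at h4
      exact (pow_dvd_pow _ (by omega)).trans h4
    · have h5 : g * (u : ℱ.G) ∈ ℱ.N 0 := by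
        rw [hρ, mem_glFilt]
        exact hall
      apply hg
      have h6 := mul_mem h5 (inv_mem u.2)
      rwa [mul_inv_cancel_right] at h6
  have key := twisted_sum_eq_zero p (hp j) U σ b' hb ψ hψ (SQ.mk ℱ j g) hgU hgood
  rw [← Ideal.mem_span_singleton, ← Ideal.Quotient.eq_zero_iff_mem, ← key, map_sum]
  refine Fintype.sum_equiv e.toEquiv _ _ fun u => ?_
  rw [map_mul]
  congr 1
  · change _ = Ideal.Quotient.mk _ _
    congr 1
    unfold muT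
    refine Finset.sum_congr rfl fun a _ => ?_
    rw [← h2 g⁻¹ a u]
    change _ = b'.repr _ (e u, a)
    rw [hb'2, ← map_inv]
    congr 3
    rw [← hb'1 1 a, map_one]
  · change _ = ψ (SQ.mk ℱ j g * ((e u : U) : SQ ℱ j))
    rw [he]
    conv_rhs => rw [← hs u]
    rw [UQ.incl_mk, ← map_mul, hψmk]

end Main

end Pool.Agent.H4.Atiyah
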