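import Pool.Agent.H4.Atiyah.TDefs
import Pool.Agent.H4.Atiyah.Action
import Pool.Agent.H4.Atiyah.SumPsi

/-!
# Divisibility of ranks of `ℤ_p[[U]]`-free modules

(helper64; verified against Spec/Batch4 with the last theorem called `free_rank_dvd'`. Theorems of
other modules used: exists_action, dvd_sum_psi (and the definition muT).)
-/

set_option autoImplicit false

open scoped Matrix

namespace Pool.Agent.H4.Atiyah

namespace FreeRankDvdAux

/-! ## ranks over a finite extension -/

theorem finrank_dvd_of_module (R O M : Type) [CommRing R] [IsDomain R] [CommRing O] [IsDomain O]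
    [Algebra R O] [Module.Free R O] [Module.Finite R O] [AddCommGroup M] [Module R M]
    [Module.Finite R M] [Module O M] [IsScalarTower R O M] :
    Module.finrank R O ∣ Module.finrank R M := by
  have hfin : Module.Finite O M := Module.Finite.of_restrictScalars_finite R O M
  obtain ⟨s, hs, hli⟩ := exists_set_linearIndependent O M
  set N : Submodule O M := Submodule.span O s with hN
  have hNfree : Module.Free O N := by
    have := Module.Free.of_basis (Module.Basis.span hli)
    rw [Subtype.range_coe] at this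
    exact this
  have hrk : Module.rank O N = Module.rank O M := by
    have := rank_span hli
    rw [Subtype.range_coe] at this
    rw [hN, this, hs]
  have hrk' : Module.finrank O N = Module.finrank O M := by
    unfold Module.finrank
    rw [hrk]
  have htors : Module.finrank O (M ⧸ N) = 0 := by
    have := Submodule.finrank_quotient_add_finrank N
    omega
  rw [Module.finrank_eq_zero_iff] at htors
  have htors' : Module.finrank R (M ⧸ N.restrictScalars R) = 0 := by
    rw [Module.finrank_eq_zero_iff]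
    intro x
    obtain ⟨y, rfl⟩ := Submodule.mkQ_surjective _ x
    obtain ⟨a, ha, hay⟩ := htors (N.mkQ y)
    have hay' : a • y ∈ N := by
      rw [← map_smul, Submodule.mkQ_apply, Submodule.Quotient.mk_eq_zero] at hay
      exact hay
    obtain ⟨r, hr, a', har⟩ := (Algebra.IsAlgebraic.isAlgebraic (R := R) a).exists_nonzero_dvd
      (mem_nonZeroDivisors_of_ne_zero ha)
    refine ⟨r, hr, ?_⟩
    rw [← map_smul, Submodule.mkQ_apply, Submodule.Quotient.mk_eq_zero]
    change r • y ∈ N
    rw [← algebraMap_smul O r y, har, mul_comm, mul_smul]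
    exact N.smul_mem _ hay'
  have h1 := Submodule.finrank_quotient_add_finrank (N.restrictScalars R)
  have h2 := Module.finrank_mul_finrank R O N
  have h3 : Module.finrank R (N.restrictScalars R) = Module.finrank R N := rfl
  rw [htors', zero_add, h3, ← h2] at h1
  exact ⟨_, h1.symm⟩

theorem finrank_dvd_of_hom (R O M : Type) [CommRing R] [IsDomain R] [CommRing O] [IsDomain O]
    [Algebra R O] [Module.Free R O] [Module.Finite R O] [AddCommGroup M] [Module R M]
    [Module.Finite R M] (θ : O →+* Module.End R M) (hθ : ∀ c : R, θ (algebraMap R O c) = c • 1) :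
    Module.finrank R O ∣ Module.finrank R M := by
  let inst : Module O M := Module.compHom M θ
  have : IsScalarTower R O M := by
    refine ⟨fun r o x => ?_⟩
    change θ (r • o) x = r • θ o x
    rw [Algebra.smul_def, map_mul, hθ]
    rfl
  exact finrank_dvd_of_module R O M

/-! ## trace of a multiple of an idempotent -/

theorem trace_of_sq {R V : Type} [CommRing R] [IsDomain R] [IsPrincipalIdealRing R] [AddCommGroup V]
    [Module R V] [Module.Free R V] [Module.Finite R V] (e : Module.End R V) (N : R)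
    (he : e * e = N • e) :
    LinearMap.trace R V e = N * Module.finrank R (LinearMap.range e) := by
  have h1 : e = (LinearMap.range e).subtype ∘ₗ e.rangeRestrict := by
    ext x
    rfl
  have h2 : e.rangeRestrict ∘ₗ (LinearMap.range e).subtype = N • LinearMap.id := by
    ext ⟨x, y, rfl⟩
    have h3 := LinearMap.congr_fun he y
    exact h3
  conv_lhs => rw [h1]
  rw [LinearMap.trace_comp_comm', h2, map_smul, LinearMap.trace_id, smul_eq_mul]

/-- an endomorphism `e` with `e² = N e` commuting with a domain `O` finite free over `R`: its trace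
is `N · rank O · k`. -/
theorem trace_eq_mul {R O V : Type} [CommRing R] [IsDomain R] [IsPrincipalIdealRing R]
    [CommRing O] [IsDomain O] [Algebra R O] [Module.Free R O] [Module.Finite R O] [AddCommGroup V]
    [Module R V] [Module.Free R V] [Module.Finite R V] (e : Module.End R V) (N : ℕ)
    (he : e * e = (N : R) • e) (θ : O →+* Module.End R V)
    (hθ : ∀ c : R, θ (algebraMap R O c) = c • 1) (hc : ∀ o, θ o * e = e * θ o) :
    ∃ k : ℕ, LinearMap.trace R V e = ((N * Module.finrank R O * k : ℕ) : R) := by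
  have hstab : ∀ o, ∀ x ∈ LinearMap.range e, θ o x ∈ LinearMap.range e := by
    rintro o _ ⟨y, rfl⟩
    exact ⟨θ o y, (LinearMap.congr_fun (hc o) y).symm⟩
  let Θ : O →+* Module.End R (LinearMap.range e) :=
    { toFun := fun o => (θ o).restrict (hstab o)
      map_one' := by
        ext x
        simp
      map_mul' := by
        intro a b
        ext x
        simp
      map_zero' := by
        ext x
        simp
      map_add' := by
        intro a b
        ext x
        simp }
  obtain ⟨k, hk⟩ := finrank_dvd_of_hom R O (LinearMap.range e) Θ (by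
    intro c
    ext x
    change ((θ (algebraMap R O c)) (x : V)) = _
    rw [hθ]
    rfl)
  refine ⟨k, ?_⟩
  rw [trace_of_sq e N he, hk]
  push_cast
  ring

/-! ## tensor powers -/

section tensor

variable {R : Type} [CommRing R] {m : ℕ}

/-- the tensor power of matrices -/
def tpow (t : ℕ) : Matrix (Fin m) (Fin m) R →* Matrix (Fin t → Fin m) (Fin t → Fin m) R where
  toFun A := Matrix.of fun a b => ∏ l, A (a l) (b l)
  map_one' := by
    ext a b
    rw [Matrix.of_apply, Matrix.one_apply]
    split_ifs with h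
    · subst h
      simp
    · obtain ⟨l, hl⟩ := Function.ne_iff.1 h
      exact Finset.prod_eq_zero (Finset.mem_univ l) (Matrix.one_apply_ne hl)
  map_mul' A B := by
    ext a b
    rw [Matrix.of_apply, Matrix.mul_apply]
    simp only [Matrix.mul_apply, Matrix.of_apply]
    rw [Finset.prod_univ_sum, Fintype.piFinset_univ]
    refine Finset.sum_congr rfl fun c _ => ?_
    rw [Finset.prod_mul_distrib]

theorem trace_tpow (t : ℕ) (A : Matrix (Fin m) (Fin m) R) :
    (tpow t A).trace = A.trace ^ t := by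
  have h1 : A.trace ^ t = ∏ _l : Fin t, ∑ i ∈ (Finset.univ : Finset (Fin m)), A i i := by
    rw [Finset.prod_const, Finset.card_univ, Fintype.card_fin]
    rfl
  rw [h1, Finset.prod_univ_sum, Fintype.piFinset_univ]
  rfl

theorem tpow_sub_one_dvd (t : ℕ) (A : Matrix (Fin m) (Fin m) R) (c : R)
    (hA : ∀ i j, c ∣ (A - 1) i j) (a b : Fin t → Fin m) : c ∣ (tpow t A - 1) a b := by
  have h1 : (tpow t A - 1) a b = ∏ l, A (a l) (b l) - ∏ l, (1 : Matrix (Fin m) (Fin m) R) (a l) (b l) := by
    rw [Matrix.sub_apply]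
    have := congrFun (congrFun (map_one (tpow (R := R) (m := m) t)) a) b
    rw [← this]
    rfl
  rw [h1]
  have h3 : ∀ s : Finset (Fin t), c ∣ ∏ l ∈ s, A (a l) (b l) -
      ∏ l ∈ s, (1 : Matrix (Fin m) (Fin m) R) (a l) (b l) := by
    intro s
    classical
    induction s using Finset.induction with
    | empty => simp
    | insert l s hl ih =>
      rw [Finset.prod_insert hl, Finset.prod_insert hl]
      have h4 := hA (a l) (b l)
      rw [Matrix.sub_apply] at h4
      have e : A (a l) (b l) * ∏ l ∈ s, A (a l) (b l) -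
          (1 : Matrix (Fin m) (Fin m) R) (a l) (b l) * ∏ l ∈ s, (1 : Matrix (Fin m) (Fin m) R) (a l) (b l) =
          (A (a l) (b l) - (1 : Matrix (Fin m) (Fin m) R) (a l) (b l)) * ∏ l ∈ s, A (a l) (b l) +
          (1 : Matrix (Fin m) (Fin m) R) (a l) (b l) * (∏ l ∈ s, A (a l) (b l) -
            ∏ l ∈ s, (1 : Matrix (Fin m) (Fin m) R) (a l) (b l)) := by ring
      rw [e]
      exact dvd_add (h4.mul_right _) (ih.mul_left _)
  exact h3 Finset.univ

end tensor

/-! ## the polynomial -/

/-- the polynomial `Ψ` -/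
noncomputable def Psi (p m : ℕ) : Polynomial ℤ :=
  ∏ a ∈ Finset.Icc 1 (m / (p - 1)), (Polynomial.X - Polynomial.C (m : ℤ) + Polynomial.C ((p : ℤ) * a))

theorem Psi_natDegree (p m : ℕ) : (Psi p m).natDegree < m / (p - 1) + 1 := by
  unfold Psi
  refine Nat.lt_succ_of_le ((Polynomial.natDegree_prod_le _ _).trans ?_)
  refine (Finset.sum_le_card_nsmul _ _ 1 fun a _ => ?_).trans (by simp)
  compute_degree

theorem Psi_aeval (p m : ℕ) {R : Type} [CommRing R] (x : R) :
    Polynomial.aeval x (Psi p m) = psi p m x := by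
  unfold Psi psi
  rw [map_prod]
  refine Finset.prod_congr rfl fun a _ => ?_
  simp

theorem psi_eq_sum (p m : ℕ) {R : Type} [CommRing R] (x : R) :
    psi p m x = ∑ t ∈ Finset.range (m / (p - 1) + 1), ((Psi p m).coeff t : R) * x ^ t := by
  rw [← Psi_aeval, Polynomial.aeval_eq_sum_range' (Psi_natDegree p m)]
  refine Finset.sum_congr rfl fun t _ => ?_
  simp

theorem psi_self (p m : ℕ) {R : Type} [CommRing R] :
    psi p m (m : R) = ((p ^ (m / (p - 1)) * (m / (p - 1)).factorial : ℕ) : R) := by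
  unfold psi
  have h1 : ∀ a ∈ Finset.Icc 1 (m / (p - 1)), ((m : R) - m + p * a) = ((p * a : ℕ) : R) := by
    intro a _
    push_cast
    ring
  rw [Finset.prod_congr rfl h1, ← Nat.cast_prod, Finset.prod_mul_distrib, Finset.prod_const,
    Nat.card_Icc, Nat.add_sub_cancel]
  congr 2
  generalize m / (p - 1) = b
  induction b with
  | zero => simp
  | succ b ih =>
    rw [Finset.prod_Icc_succ_top (by omega), ih, Nat.factorial_succ]
    simp [mul_comm]

end FreeRankDvdAux

open FreeRankDvdAux

/-- M33e -/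
theorem free_rank_dvd (p m : ℕ) [Fact p.Prime] (ℱ : Filt)
    (hp : ∀ j, IsPGroup p (SQ ℱ j))
    (ρ : ℱ.G →* Matrix.GeneralLinearGroup (Fin m) ℤ_[p])
    (hρ : ∀ j g, g ∈ ℱ.N j ↔ ρ g ∈ (glFilt p m).N j)
    {O : Type} [CommRing O] [IsDomain O] [Algebra ℤ_[p] O] [Module.Free ℤ_[p] O]
    [Module.Finite ℤ_[p] O]
    (Z : Type) [AddCommGroup Z] [Module (LamS ℱ O) Z] [Module (LamU p ℱ) Z]
    (hΛ : ∀ (a : LamU p ℱ) (v : Z), a • v = incS p ℱ O a • v)
    {z : ℕ} (w : Module.Basis (Fin z) (LamU p ℱ) Z) :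
    Module.finrank ℤ_[p] O * Nat.card (ℱ.G ⧸ ℱ.N 0) ∣
      z * (p ^ (m / (p - 1)) * (m / (p - 1)).factorial) := by
  -- the tensor power representations
  let τ : ∀ t : ℕ, ℱ.G →* Matrix (Fin t → Fin m) (Fin t → Fin m) ℤ_[p] := fun t =>
    (tpow t).comp ((Units.coeHom _).comp ρ)
  have hτ : ∀ t j, ∀ g ∈ ℱ.N j, ∀ a b, (p : ℤ_[p]) ^ j ∣ (τ t g - 1) a b := by
    intro t j g hg a b
    have h1 := mem_glFilt.1 ((hρ j g).1 hg)
    refine tpow_sub_one_dvd t (ρ g).1 ((p : ℤ_[p]) ^ j) (fun a b => ?_) a b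
    exact (pow_dvd_pow _ (Nat.le_add_left j 2)).trans (h1 a b)
  choose Φ θ hΦ0 hcomm hθ htr using fun t => exists_action p ℱ hΛ w (τ t) (hτ t)
  -- the combined traces vanish outside `N 0`
  have hzero : ∀ g, g ∉ ℱ.N 0 → ∑ t ∈ Finset.range (m / (p - 1) + 1),
      ((Psi p m).coeff t : ℤ_[p]) * LinearMap.trace ℤ_[p] _ (Φ t g) = 0 := by
    intro g hg
    have hdiv : ∀ k : ℕ, (p : ℤ_[p]) ^ k ∣ ∑ t ∈ Finset.range (m / (p - 1) + 1),
      ((Psi p m).coeff t : ℤ_[p]) * LinearMap.trace ℤ_[p] _ (Φ t g) := by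
      intro k
      obtain ⟨j₀, hj₀⟩ := dvd_sum_psi p ℱ hΛ w hp ρ hρ g hg k
      set j := max j₀ k with hj
      choose s hs using UQ.mk_surjective ℱ j
      have h1 := hj₀ j (le_max_left _ _) s hs
      have h2 : ∀ t, (p : ℤ_[p]) ^ k ∣ ((Psi p m).coeff t : ℤ_[p]) *
          (LinearMap.trace ℤ_[p] _ (Φ t g) -
            ∑ u, muT p ℱ O w g⁻¹ j u * Matrix.trace (τ t (g * s u))) := fun t =>
        ((pow_dvd_pow _ (le_max_right _ _)).trans (htr t g j s hs)).mul_left _
      have h3 : ∑ t ∈ Finset.range (m / (p - 1) + 1), ((Psi p m).coeff t : ℤ_[p]) *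
          LinearMap.trace ℤ_[p] _ (Φ t g) =
          ∑ t ∈ Finset.range (m / (p - 1) + 1), ((Psi p m).coeff t : ℤ_[p]) *
            (LinearMap.trace ℤ_[p] _ (Φ t g) -
              ∑ u, muT p ℱ O w g⁻¹ j u * Matrix.trace (τ t (g * s u))) +
          ∑ u, muT p ℱ O w g⁻¹ j u * psi p m (Matrix.trace (ρ (g * s u)).1) := by
        have h4 : ∑ u, muT p ℱ O w g⁻¹ j u * psi p m (Matrix.trace (ρ (g * s u)).1) =
            ∑ t ∈ Finset.range (m / (p - 1) + 1), ((Psi p m).coeff t : ℤ_[p]) *
              ∑ u, muT p ℱ O w g⁻¹ j u * Matrix.trace (τ t (g * s u)) := by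
          simp only [psi_eq_sum, Finset.mul_sum]
          rw [Finset.sum_comm]
          refine Finset.sum_congr rfl fun t _ => Finset.sum_congr rfl fun u _ => ?_
          have h5 : Matrix.trace (τ t (g * s u)) = (Matrix.trace (ρ (g * s u)).1) ^ t :=
            trace_tpow t _
          rw [h5]
          ring
        rw [h4, ← Finset.sum_add_distrib]
        refine Finset.sum_congr rfl fun t _ => ?_
        ring
      rw [h3]
      exact dvd_add (Finset.dvd_sum fun t _ => h2 t) h1
    by_contra hne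
    obtain ⟨k, hk⟩ := (FiniteMultiplicity.of_prime_left (PadicInt.prime_p (p := p)) hne)
    exact hk (hdiv (k + 1))
  -- the action of the finite quotient
  let Ψ : ∀ t, SQ ℱ 0 →* Module.End ℤ_[p] (Fin z → (Fin t → Fin m) → ℤ_[p]) := fun t =>
    QuotientGroup.lift (ℱ.N 0) (Φ t) (fun g hg => hΦ0 t g hg)
  have hΨ : ∀ t g, Ψ t (SQ.mk ℱ 0 g) = Φ t g := fun t g => rfl
  let e : ∀ t, Module.End ℤ_[p] (Fin z → (Fin t → Fin m) → ℤ_[p]) := fun t => ∑ q, Ψ t q
  have he : ∀ t, e t * e t = ((Fintype.card (SQ ℱ 0) : ℕ) : ℤ_[p]) • e t := by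
    intro t
    have h1 : ∀ q, Ψ t q * e t = e t := by
      intro q
      change Ψ t q * ∑ q', Ψ t q' = ∑ q', Ψ t q'
      rw [Finset.mul_sum]
      simp only [← map_mul]
      exact Fintype.sum_equiv (Equiv.mulLeft q) _ _ (fun _ => rfl)
    change (∑ q, Ψ t q) * e t = _
    rw [Finset.sum_mul, Finset.sum_congr rfl (fun q _ => h1 q), Finset.sum_const, Finset.card_univ,
      Nat.cast_smul_eq_nsmul]
  have hec : ∀ t o, θ t o * e t = e t * θ t o := by
    intro t o
    change θ t o * ∑ q, Ψ t q = (∑ q, Ψ t q) * θ t o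
    rw [Finset.mul_sum, Finset.sum_mul]
    refine Finset.sum_congr rfl fun q _ => ?_
    obtain ⟨g, rfl⟩ := SQ.mk_surjective ℱ 0 q
    rw [hΨ]
    exact hcomm t o g
  choose k hk using fun t => trace_eq_mul (e t) (Fintype.card (SQ ℱ 0)) (he t) (θ t) (hθ t) (hec t)
  -- the sum of all traces
  have hsum : ∑ t ∈ Finset.range (m / (p - 1) + 1), ((Psi p m).coeff t : ℤ_[p]) *
      LinearMap.trace ℤ_[p] _ (e t) =
      ((z * (p ^ (m / (p - 1)) * (m / (p - 1)).factorial) : ℕ) : ℤ_[p]) := by
    have h1 : ∑ t ∈ Finset.range (m / (p - 1) + 1), ((Psi p m).coeff t : ℤ_[p]) *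
        LinearMap.trace ℤ_[p] _ (e t) =
        ∑ q, ∑ t ∈ Finset.range (m / (p - 1) + 1), ((Psi p m).coeff t : ℤ_[p]) *
          LinearMap.trace ℤ_[p] _ (Ψ t q) := by
      rw [Finset.sum_comm]
      refine Finset.sum_congr rfl fun t _ => ?_
      change _ * LinearMap.trace ℤ_[p] _ (∑ q, Ψ t q) = _
      rw [map_sum, Finset.mul_sum]
    rw [h1, Finset.sum_eq_single 1]
    · have h2 : ∀ t, LinearMap.trace ℤ_[p] _ (Ψ t 1) = (z : ℤ_[p]) * (m : ℤ_[p]) ^ t := by
        intro t
        rw [map_one, LinearMap.trace_one, Module.finrank_pi_fintype]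
        simp
      simp only [h2]
      have h3 : ∑ t ∈ Finset.range (m / (p - 1) + 1), ((Psi p m).coeff t : ℤ_[p]) *
          ((z : ℤ_[p]) * (m : ℤ_[p]) ^ t) = z * psi p m (m : ℤ_[p]) := by
        rw [psi_eq_sum, Finset.mul_sum]
        refine Finset.sum_congr rfl fun t _ => ?_
        ring
      rw [h3, psi_self]
      push_cast
      ring
    · intro q _ hq
      obtain ⟨g, rfl⟩ := SQ.mk_surjective ℱ 0 q
      simp only [hΨ]
      exact hzero g fun hg => hq (SQ.mk_eq_one.2 hg)
    · intro h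
      exact absurd (Finset.mem_univ _) h
  have hcard : Fintype.card (SQ ℱ 0) = Nat.card (ℱ.G ⧸ ℱ.N 0) := Nat.card_eq_fintype_card.symm
  simp only [hk] at hsum
  have hint : (∑ t ∈ Finset.range (m / (p - 1) + 1), (Psi p m).coeff t *
      ((Fintype.card (SQ ℱ 0) * Module.finrank ℤ_[p] O * k t : ℕ) : ℤ)) =
      ((z * (p ^ (m / (p - 1)) * (m / (p - 1)).factorial) : ℕ) : ℤ) := by
    have h4 : Function.Injective (Int.cast : ℤ → ℤ_[p]) := Int.cast_injective
    apply h4
    push_cast at hsum ⊢
    exact hsum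
  rw [← Int.natCast_dvd_natCast, ← hint]
  refine Finset.dvd_sum fun t _ => Dvd.dvd.mul_left ?_ _
  rw [Int.natCast_dvd_natCast, hcard]
  exact ⟨k t, by ring⟩

end Pool.Agent.H4.Atiyah
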