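import Pool.Agent.H4.Atiyah.Filt

/-!
# The congruence subgroup of `GL_m(ℤ_p)` is a tower
-/

set_option autoImplicit false

open Filter Topology

namespace Pool.Agent.H4.Atiyah

section Cg

variable {R : Type} [Ring R] (p : ℕ)

/-- Congruence modulo `p ^ n` in a ring. -/
private def Cg (n : ℕ) (u v : R) : Prop := ∃ c, u = v + (p : R) ^ n * c

private theorem Cg.refl (n : ℕ) (u : R) : Cg p n u u := ⟨0, by simp⟩

variable {p}

private theorem Cg.symm {n : ℕ} {u v : R} (h : Cg p n u v) : Cg p n v u := by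
  obtain ⟨c, rfl⟩ := h
  exact ⟨-c, by rw [mul_neg, add_neg_cancel_right]⟩

private theorem Cg.mk {n : ℕ} {u v : R} (c : R) (h : u = v + (p : R) ^ n * c) : Cg p n u v := ⟨c, h⟩

private theorem Cg.trans {n : ℕ} {u v w : R} (h : Cg p n u v) (h' : Cg p n v w) : Cg p n u w := by
  obtain ⟨c, rfl⟩ := h
  obtain ⟨c', rfl⟩ := h'
  exact ⟨c' + c, by rw [mul_add, add_assoc]⟩

private theorem Cg.mono {n k : ℕ} {u v : R} (h : Cg p n u v) (hk : k ≤ n) : Cg p k u v := by
  obtain ⟨c, rfl⟩ := h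
  obtain ⟨e, rfl⟩ := Nat.exists_eq_add_of_le hk
  exact ⟨(p : R) ^ e * c, by rw [← mul_assoc, ← pow_add]⟩

private theorem comm_pn (n : ℕ) (x : R) : x * (p : R) ^ n = (p : R) ^ n * x :=
  (((Nat.cast_commute p x).pow_left n).eq).symm

private theorem Cg.add {n : ℕ} {u v u' v' : R} (h : Cg p n u v) (h' : Cg p n u' v') :
    Cg p n (u + u') (v + v') := by
  obtain ⟨c, rfl⟩ := h
  obtain ⟨c', rfl⟩ := h'
  exact ⟨c + c', by rw [mul_add]; abel⟩

private theorem Cg.mul {n : ℕ} {u v u' v' : R} (h : Cg p n u v) (h' : Cg p n u' v') :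
    Cg p n (u * u') (v * v') := by
  obtain ⟨c, rfl⟩ := h
  obtain ⟨c', rfl⟩ := h'
  refine ⟨v * c' + c * (v' + (p : R) ^ n * c'), ?_⟩
  rw [add_mul, mul_add v, ← mul_assoc v, comm_pn n v]
  noncomm_ring

private theorem Cg.pn_mul {n k : ℕ} {u v : R} (h : Cg p n u v) :
    Cg p (k + n) ((p : R) ^ k * u) ((p : R) ^ k * v) := by
  obtain ⟨c, rfl⟩ := h
  exact ⟨c, by rw [mul_add, ← mul_assoc, ← pow_add]⟩

private theorem Cg.prod {n : ℕ} {L : List R} (h : ∀ u ∈ L, Cg p n u 1) : Cg p n L.prod 1 := by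
  induction L with
  | nil => exact Cg.refl p n _
  | cons u L ih =>
    rw [List.prod_cons]
    have h1 := (h u (by simp)).mul (ih fun v hv => h v (by simp [hv]))
    rwa [mul_one] at h1

private theorem Cg.powOne {n : ℕ} {u : R} (h : Cg p n u 1) (k : ℕ) : Cg p n (u ^ k) 1 := by
  induction k with
  | zero => rw [pow_zero]; exact Cg.refl p n _
  | succ k ih =>
    have h1 := ih.mul h
    rwa [mul_one, ← pow_succ] at h1

private theorem one_add_pow (y : R) (n : ℕ) : ∃ z, (1 + y) ^ n = 1 + (n : R) * y + y * y * z := by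
  induction n with
  | zero => exact ⟨0, by simp⟩
  | succ n ih =>
    obtain ⟨z, hz⟩ := ih
    refine ⟨(n : R) + z * (1 + y), ?_⟩
    have hc : (n : R) * y * y = y * y * (n : R) := by
      rw [mul_assoc, (Nat.cast_commute n (y * y)).eq]
    rw [pow_succ, hz]
    push_cast
    rw [add_mul, add_mul, mul_add ((n : R) * y), mul_add (y * y), hc]
    noncomm_ring

/-- `(1 + p^k y)^p ≡ 1 + p^(k+1) y` modulo `p^(k+2)` for `k ≥ 2`. -/
private theorem Cg.pow_p {k : ℕ} (hk : 2 ≤ k) {u y : R} (h : Cg p (k + 1) u (1 + (p : R) ^ k * y)) :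
    Cg p (k + 2) (u ^ p) (1 + (p : R) ^ (k + 1) * y) := by
  obtain ⟨c, rfl⟩ := h
  have h1 : (1 : R) + (p : R) ^ k * y + (p : R) ^ (k + 1) * c =
      1 + (p : R) ^ k * (y + (p : R) * c) := by
    rw [pow_succ]; noncomm_ring
  rw [h1]
  obtain ⟨z, hz⟩ := one_add_pow ((p : R) ^ k * (y + (p : R) * c)) p
  rw [hz]
  obtain ⟨e, rfl⟩ := Nat.exists_eq_add_of_le hk
  refine ⟨c + (p : R) ^ e * ((y + (p : R) * c) * (y + (p : R) * c) * z), ?_⟩
  have h2 : (p : R) * ((p : R) ^ (2 + e) * (y + (p : R) * c)) =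
      (p : R) ^ (2 + e + 1) * y + (p : R) ^ (2 + e + 2) * c := by
    rw [← mul_assoc, ← pow_succ', mul_add, ← mul_assoc, ← pow_succ]
  have h3 : (p : R) ^ (2 + e) * (y + (p : R) * c) * ((p : R) ^ (2 + e) * (y + (p : R) * c)) * z =
      (p : R) ^ (2 + e + 2) * ((p : R) ^ e * ((y + (p : R) * c) * (y + (p : R) * c) * z)) := by
    rw [← mul_assoc ((p : R) ^ (2 + e + 2)), ← pow_add]
    have : 2 + e + 2 + e = (2 + e) + (2 + e) := by omega
    rw [this, pow_add (p : R) (2 + e) (2 + e)]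
    rw [mul_assoc ((p : R) ^ (2 + e)) (y + (p : R) * c), ← mul_assoc (y + (p : R) * c),
      comm_pn (2 + e) (y + (p : R) * c)]
    simp only [mul_assoc]
  rw [h2, h3, mul_add ((p : R) ^ (2 + e + 2)) c, ← add_assoc, ← add_assoc]

private theorem Cg.pow_pj {u y : R} (h : u = 1 + (p : R) ^ 2 * y) (j : ℕ) :
    Cg p (3 + j) (u ^ p ^ j) (1 + (p : R) ^ (2 + j) * y) := by
  induction j with
  | zero => rw [pow_zero, pow_one, h]; exact Cg.refl p _ _
  | succ j ih =>
    rw [pow_succ, pow_mul]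
    have h1 := Cg.pow_p (k := 2 + j) (by omega) (u := u ^ p ^ j) (y := y)
      (by rw [show 2 + j + 1 = 3 + j by omega]; exact ih)
    rw [show 3 + (j + 1) = 2 + j + 2 by omega, show 2 + (j + 1) = 2 + j + 1 by omega]
    exact h1

/-- one factor -/
private theorem Cg.pow_shift {u y : R} (h : u = 1 + (p : R) ^ 2 * y) (j a c : ℕ) :
    Cg p (3 + j) (u ^ (a + p ^ j * c)) (u ^ a + (p : R) ^ (2 + j) * ((c : R) * y)) := by
  have hu : Cg p 1 u 1 := (Cg.mk y h : Cg p 2 u 1).mono (by omega)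
  have h1 : ∀ c : ℕ, Cg p (3 + j) ((u ^ p ^ j) ^ c) (1 + (p : R) ^ (2 + j) * ((c : R) * y)) := by
    intro c
    induction c with
    | zero =>
      rw [pow_zero, Nat.cast_zero, zero_mul, mul_zero, add_zero]; exact Cg.refl p _ _
    | succ c ih =>
      rw [pow_succ]
      refine (ih.mul (Cg.pow_pj h j)).trans ?_
      refine ⟨(p : R) ^ (1 + j) * ((c : R) * y * y), ?_⟩
      have e1 : ((p : R) ^ (2 + j) * ((c : R) * y)) * ((p : R) ^ (2 + j) * y) =
          (p : R) ^ (3 + j) * ((p : R) ^ (1 + j) * ((c : R) * y * y)) := by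
        rw [← mul_assoc ((p : R) ^ (3 + j)), ← pow_add,
          show 3 + j + (1 + j) = (2 + j) + (2 + j) by omega, pow_add (p : R) (2 + j) (2 + j)]
        rw [mul_assoc ((p : R) ^ (2 + j)), ← mul_assoc ((c : R) * y),
          comm_pn (2 + j) ((c : R) * y)]
        simp only [mul_assoc]
      rw [add_mul, one_mul, mul_add, mul_one, e1]
      push_cast
      rw [add_mul (c : R), one_mul, mul_add ((p : R) ^ (2 + j)) ((c : R) * y)]
      abel
  rw [pow_add, pow_mul]
  refine ((Cg.refl p (3 + j) (u ^ a)).mul (h1 c)).trans ?_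
  rw [mul_add, mul_one, ← mul_assoc, comm_pn, mul_assoc]
  refine (Cg.refl p _ _).add ?_
  have h2 := ((hu.powOne a).mul (Cg.refl p 1 ((c : R) * y))).pn_mul (k := 2 + j)
  rw [one_mul, show 2 + j + 1 = 3 + j by omega] at h2
  exact h2

private theorem Cg.ofFn_shift {d : ℕ} {X E : Fin d → R} (hX : ∀ l, X l = 1 + (p : R) ^ 2 * E l)
    (j : ℕ) (a c : Fin d → ℕ) :
    Cg p (3 + j) ((List.ofFn fun l => X l ^ (a l + p ^ j * c l)).prod)
      ((List.ofFn fun l => X l ^ a l).prod + (p : R) ^ (2 + j) * ∑ l, (c l : R) * E l) := by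
  induction d with
  | zero => simp; exact Cg.refl p _ _
  | succ d ih =>
    rw [List.ofFn_succ, List.ofFn_succ, List.prod_cons, List.prod_cons, Fin.sum_univ_succ]
    have h1 := (Cg.pow_shift (hX 0) j (a 0) (c 0)).mul
      (ih (X := fun l => X l.succ) (E := fun l => E l.succ) (fun l => hX l.succ)
        (fun l => a l.succ) (fun l => c l.succ))
    refine h1.trans ?_
    set P := (List.ofFn fun l : Fin d => X l.succ ^ a l.succ).prod with hP
    set S := ∑ l : Fin d, (c l.succ : R) * E l.succ with hS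
    have hu : Cg p 1 (X 0 ^ a 0) 1 :=
      ((Cg.mk (E 0) (hX 0) : Cg p 2 (X 0) 1).mono (by omega)).powOne _
    have hP1 : Cg p 1 P 1 := by
      apply Cg.prod
      intro u hu
      rw [List.mem_ofFn] at hu
      obtain ⟨l, rfl⟩ := hu
      exact ((Cg.mk (E l.succ) (hX l.succ) : Cg p 2 (X l.succ) 1).mono (by omega)).powOne _
    have e1 : (X 0 ^ a 0 + (p : R) ^ (2 + j) * ((c 0 : R) * E 0)) * (P + (p : R) ^ (2 + j) * S) =
        X 0 ^ a 0 * P + ((p : R) ^ (2 + j) * (((c 0 : R) * E 0) * P) +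
          (p : R) ^ (2 + j) * (X 0 ^ a 0 * S)) +
          (p : R) ^ (3 + j) * ((p : R) ^ (1 + j) * (((c 0 : R) * E 0) * S)) := by
      rw [← mul_assoc ((p : R) ^ (3 + j)), ← pow_add,
          show 3 + j + (1 + j) = (2 + j) + (2 + j) by omega, pow_add (p : R) (2 + j) (2 + j)]
      rw [add_mul, mul_add (X 0 ^ a 0), mul_add ((p : R) ^ (2 + j) * ((c 0 : R) * E 0)),
        ← mul_assoc (X 0 ^ a 0) ((p : R) ^ (2 + j)), comm_pn (2 + j) (X 0 ^ a 0),
        mul_assoc ((p : R) ^ (2 + j)) ((c 0 : R) * E 0) ((p : R) ^ (2 + j) * S),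
        ← mul_assoc ((c 0 : R) * E 0) ((p : R) ^ (2 + j)) S, comm_pn (2 + j) ((c 0 : R) * E 0)]
      simp only [mul_assoc]
      abel
    rw [e1]
    refine Cg.trans (v := X 0 ^ a 0 * P + ((p : R) ^ (2 + j) * (((c 0 : R) * E 0) * P) +
          (p : R) ^ (2 + j) * (X 0 ^ a 0 * S))) ⟨_, rfl⟩ ?_
    refine (Cg.refl p _ _).add ?_
    rw [mul_add]
    refine Cg.add ?_ ?_
    · have h2 := ((Cg.refl p 1 ((c 0 : R) * E 0)).mul hP1).pn_mul (k := 2 + j)
      rw [mul_one, show 2 + j + 1 = 3 + j by omega] at h2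
      exact h2
    · have h2 := (hu.mul (Cg.refl p 1 S)).pn_mul (k := 2 + j)
      rw [one_mul, show 2 + j + 1 = 3 + j by omega] at h2
      exact h2

private theorem Cg.exists_exps {d : ℕ} {X E : Fin d → R} (hX : ∀ l, X l = 1 + (p : R) ^ 2 * E l)
    (hspan : ∀ C : R, ∃ c : Fin d → ℕ, (∀ l, c l < p) ∧ Cg p 1 C (∑ l, (c l : R) * E l))
    (j : ℕ) (g : R) (hg : Cg p 2 g 1) :
    ∃ a : Fin d → ℕ, (∀ l, a l < p ^ j) ∧ Cg p (2 + j) g ((List.ofFn fun l => X l ^ a l).prod) := by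
  induction j with
  | zero => exact ⟨fun _ => 0, by simp, by simpa using hg⟩
  | succ j ih =>
    obtain ⟨a, ha, C, hC⟩ := ih
    obtain ⟨c, hc, hcC⟩ := hspan C
    refine ⟨fun l => a l + p ^ j * c l, ?_, ?_⟩
    · intro l
      have h1 := ha l
      have h2 : c l + 1 ≤ p := hc l
      calc a l + p ^ j * c l < p ^ j + p ^ j * c l := by omega
        _ = p ^ j * (c l + 1) := by ring
        _ ≤ p ^ j * p := Nat.mul_le_mul_left _ h2
        _ = p ^ (j + 1) := (pow_succ _ _).symm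
    · have h1 := (Cg.ofFn_shift hX j a c).symm
      rw [show 2 + (j + 1) = 3 + j by omega]
      refine Cg.trans ?_ h1
      rw [hC]
      refine (Cg.refl p _ _).add ?_
      have h2 := hcC.pn_mul (k := 2 + j)
      rw [show 2 + j + 1 = 3 + j by omega] at h2
      exact h2

private theorem Cg.exps_inj {d : ℕ} {X E : Fin d → R} (hX : ∀ l, X l = 1 + (p : R) ^ 2 * E l)
    (htf : ∀ (n : ℕ) (c : R), (p : R) ^ n * c = 0 → c = 0)
    (hp : 0 < p)
    (hinj : ∀ c c' : Fin d → ℕ, (∀ l, c l < p) → (∀ l, c' l < p) →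
      Cg p 1 (∑ l, (c l : R) * E l) (∑ l, (c' l : R) * E l) → c = c')
    (j : ℕ) (a a' : Fin d → ℕ) (ha : ∀ l, a l < p ^ j) (ha' : ∀ l, a' l < p ^ j)
    (h : Cg p (2 + j) ((List.ofFn fun l => X l ^ a l).prod)
      ((List.ofFn fun l => X l ^ a' l).prod)) : a = a' := by
  induction j generalizing a a' with
  | zero =>
    funext l
    have h1 := ha l
    have h2 := ha' l
    simp only [pow_zero] at h1 h2
    omega
  | succ j ih =>
    have hpj : 0 < p ^ j := Nat.pow_pos hp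
    -- decompose
    have key : ∀ a : Fin d → ℕ, (∀ l, a l < p ^ (j + 1)) → ∃ b c : Fin d → ℕ,
        (∀ l, b l < p ^ j) ∧ (∀ l, c l < p) ∧ a = fun l => b l + p ^ j * c l := by
      intro a ha
      refine ⟨fun l => a l % p ^ j, fun l => a l / p ^ j, fun l => Nat.mod_lt _ hpj, ?_, ?_⟩
      · intro l
        rw [Nat.div_lt_iff_lt_mul hpj, mul_comm, ← pow_succ]
        exact ha l
      · funext l
        exact (Nat.mod_add_div _ _).symm
    obtain ⟨b, c, hb, hc, rfl⟩ := key a ha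
    obtain ⟨b', c', hb', hc', rfl⟩ := key a' ha'
    rw [show 2 + (j + 1) = 3 + j by omega] at h
    have h1 := ((Cg.ofFn_shift hX j b c).symm.trans h).trans (Cg.ofFn_shift hX j b' c')
    have h2 : Cg p (2 + j) ((List.ofFn fun l => X l ^ b l).prod)
        ((List.ofFn fun l => X l ^ b' l).prod) := by
      have h3 := h1.mono (show 2 + j ≤ 3 + j by omega)
      refine Cg.trans (v := (List.ofFn fun l => X l ^ b l).prod +
        (p : R) ^ (2 + j) * ∑ l, (c l : R) * E l) (Cg.symm ⟨_, rfl⟩) (h3.trans ⟨_, rfl⟩)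
    have hbb := ih b b' hb hb' h2
    subst hbb
    have h4 : Cg p 1 (∑ l, (c l : R) * E l) (∑ l, (c' l : R) * E l) := by
      obtain ⟨z, hz⟩ := h1
      refine ⟨z, ?_⟩
      have h5 : (p : R) ^ (2 + j) * ((∑ l, (c l : R) * E l) -
          ((∑ l, (c' l : R) * E l) + (p : R) ^ 1 * z)) = 0 := by
        rw [add_assoc] at hz
        have h6 := add_left_cancel hz
        rw [mul_sub, h6, mul_add, ← mul_assoc, ← pow_add, show 2 + j + 1 = 3 + j by omega, sub_self]
      exact sub_eq_zero.1 (htf _ _ h5)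
    rw [hinj c c' hc hc' h4]

end Cg

section Lin

variable {p m : ℕ} [Fact p.Prime]

omit [Fact p.Prime] in
private theorem pn_mul_apply {R : Type} [CommRing R] (n : ℕ) (c : Matrix (Fin m) (Fin m) R)
    (a b : Fin m) :
    ((p : Matrix (Fin m) (Fin m) R) ^ n * c) a b = (p : R) ^ n * c a b := by
  rw [← Nat.cast_pow, ← nsmul_eq_mul, Matrix.smul_apply, nsmul_eq_mul, Nat.cast_pow]

private theorem cg_iff (n : ℕ) (u v : Matrix (Fin m) (Fin m) ℤ_[p]) :
    Cg p n u v ↔ ∀ a b, (p : ℤ_[p]) ^ n ∣ (u - v) a b := by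
  constructor
  · rintro ⟨c, rfl⟩ a b
    rw [Matrix.sub_apply, Matrix.add_apply, pn_mul_apply]
    exact ⟨c a b, by ring⟩
  · intro h
    choose c hc using h
    refine ⟨Matrix.of c, ?_⟩
    ext a b
    rw [Matrix.add_apply, pn_mul_apply, Matrix.of_apply, ← hc a b, Matrix.sub_apply]
    ring

/-- elementary matrices -/
private noncomputable def EE (p m : ℕ) [Fact p.Prime] (l : Fin (m * m)) :
    Matrix (Fin m) (Fin m) ℤ_[p] :=
  Matrix.single (finProdFinEquiv.symm l).1 (finProdFinEquiv.symm l).2 1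

private theorem sum_EE_apply (c : Fin (m * m) → ℕ) (a b : Fin m) :
    (∑ l, (c l : Matrix (Fin m) (Fin m) ℤ_[p]) * EE p m l) a b =
      (c (finProdFinEquiv (a, b)) : ℤ_[p]) := by
  rw [Matrix.sum_apply, Finset.sum_eq_single (finProdFinEquiv (a, b))]
  · rw [← nsmul_eq_mul, Matrix.smul_apply]
    unfold EE
    simp
  · intro l _ hl
    rw [← nsmul_eq_mul, Matrix.smul_apply]
    unfold EE
    rw [Matrix.single_apply, if_neg, smul_zero]
    rintro ⟨h1, h2⟩
    apply hl
    rw [← h1, ← h2, Prod.mk.eta, Equiv.apply_symm_apply]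
  · intro h
    exact absurd (Finset.mem_univ _) h

private theorem p_mem_span (x : ℤ_[p]) (h : x ∈ IsLocalRing.maximalIdeal ℤ_[p]) :
    (p : ℤ_[p]) ∣ x := by
  rwa [PadicInt.maximalIdeal_eq_span_p, Ideal.mem_span_singleton] at h

private theorem EE_span (C : Matrix (Fin m) (Fin m) ℤ_[p]) :
    ∃ c : Fin (m * m) → ℕ, (∀ l, c l < p) ∧
      Cg p 1 C (∑ l, (c l : Matrix (Fin m) (Fin m) ℤ_[p]) * EE p m l) := by
  have h : ∀ l : Fin (m * m), ∃ n : ℕ, n < p ∧
      C (finProdFinEquiv.symm l).1 (finProdFinEquiv.symm l).2 - (n : ℤ_[p]) ∈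
        IsLocalRing.maximalIdeal ℤ_[p] := fun l => PadicInt.exists_mem_range _
  choose c hc hcC using h
  refine ⟨c, hc, (cg_iff _ _ _).2 fun a b => ?_⟩
  rw [Matrix.sub_apply, sum_EE_apply, pow_one]
  have := p_mem_span _ (hcC (finProdFinEquiv (a, b)))
  simpa using this

private theorem EE_inj (c c' : Fin (m * m) → ℕ) (hc : ∀ l, c l < p) (hc' : ∀ l, c' l < p)
    (h : Cg p 1 (∑ l, (c l : Matrix (Fin m) (Fin m) ℤ_[p]) * EE p m l)
      (∑ l, (c' l : Matrix (Fin m) (Fin m) ℤ_[p]) * EE p m l)) : c = c' := by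
  funext l
  have h1 := (cg_iff _ _ _).1 h (finProdFinEquiv.symm l).1 (finProdFinEquiv.symm l).2
  rw [Matrix.sub_apply, sum_EE_apply, sum_EE_apply, pow_one] at h1
  simp only [Prod.mk.eta, Equiv.apply_symm_apply] at h1
  obtain ⟨z, hz⟩ := h1
  have h2 := congrArg (PadicInt.toZMod (p := p)) hz
  rw [map_sub, map_natCast, map_natCast, map_mul, map_natCast, ZMod.natCast_self, zero_mul,
    sub_eq_zero, ZMod.natCast_eq_natCast_iff'] at h2
  rwa [Nat.mod_eq_of_lt (hc l), Nat.mod_eq_of_lt (hc' l)] at h2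

private theorem mat_tf (n : ℕ) (c : Matrix (Fin m) (Fin m) ℤ_[p])
    (h : (p : Matrix (Fin m) (Fin m) ℤ_[p]) ^ n * c = 0) : c = 0 := by
  ext a b
  have h1 := congrFun (congrFun h a) b
  rw [pn_mul_apply] at h1
  have hp : (p : ℤ_[p]) ^ n ≠ 0 := pow_ne_zero _ (by
    exact_mod_cast (Fact.out : p.Prime).ne_zero)
  exact (mul_eq_zero.1 h1).resolve_left hp

private theorem isUnit_of_cg (A : Matrix (Fin m) (Fin m) ℤ_[p]) :
    IsUnit (1 + (p : Matrix (Fin m) (Fin m) ℤ_[p]) ^ 2 * A) := by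
  rw [Matrix.isUnit_iff_isUnit_det]
  have h1 : PadicInt.toZMod (p := p)
      (1 + (p : Matrix (Fin m) (Fin m) ℤ_[p]) ^ 2 * A).det = 1 := by
    rw [RingHom.map_det, map_add, map_one]
    have : (PadicInt.toZMod (p := p)).mapMatrix
        ((p : Matrix (Fin m) (Fin m) ℤ_[p]) ^ 2 * A) = 0 := by
      ext a b
      rw [RingHom.mapMatrix_apply, Matrix.map_apply, pn_mul_apply, map_mul, map_pow, map_natCast,
        ZMod.natCast_self]
      simp
    rw [this, add_zero, Matrix.det_one]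
  apply IsLocalRing.notMem_maximalIdeal.1
  intro h
  rw [← PadicInt.ker_toZMod, RingHom.mem_ker, h1] at h
  exact one_ne_zero h

variable (S : Subgroup (Matrix.GeneralLinearGroup (Fin m) ℤ_[p])) (hS : (glFilt p m).N 0 ≤ S)

private noncomputable abbrev FF : Filt :=
  ((glFilt p m).restrict S).restrict (((glFilt p m).restrict S).N 0)

/-- the underlying matrix -/
private noncomputable def val : (FF S).G →* Matrix (Fin m) (Fin m) ℤ_[p] :=
  (Units.coeHom _).comp (S.subtype.comp (((glFilt p m).restrict S).N 0).subtype)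

private theorem mem_FF (j : ℕ) (g : (FF S).G) : g ∈ (FF S).N j ↔ Cg p (2 + j) (val S g) 1 := by
  rw [cg_iff]
  exact mem_glFilt (j := j) (g := (g.1.1))

private theorem π_eq_iff (j : ℕ) (g h : (FF S).G) :
    (FF S).sys.π j g = (FF S).sys.π j h ↔ Cg p (2 + j) (val S h) (val S g) := by
  have h1 : (FF S).sys.π j g = (FF S).sys.π j h ↔ g⁻¹ * h ∈ (FF S).N j := QuotientGroup.eq
  rw [h1, mem_FF, map_mul]
  constructor
  · intro h2
    have h3 := (Cg.refl p (2 + j) (val S g)).mul h2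
    rw [mul_one, ← mul_assoc, ← map_mul, mul_inv_cancel, map_one, one_mul] at h3
    exact h3
  · intro h2
    have h3 := (Cg.refl p (2 + j) (val S g⁻¹)).mul h2
    rw [← map_mul (val S) g⁻¹ g, inv_mul_cancel, map_one] at h3
    exact h3

include hS in
private theorem exists_gen (l : Fin (m * m)) : ∃ g : (FF S).G,
    val S g = 1 + (p : Matrix (Fin m) (Fin m) ℤ_[p]) ^ 2 * EE p m l := by
  obtain ⟨u, hu⟩ := isUnit_of_cg (EE p m l)
  have h0 : u ∈ (glFilt p m).N 0 := by
    rw [mem_glFilt, ← cg_iff, hu]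
    exact ⟨_, rfl⟩
  exact ⟨⟨⟨u, hS h0⟩, h0⟩, hu⟩

end Lin

theorem gl_isTower (p m : ℕ) [Fact p.Prime]
    (S : Subgroup (Matrix.GeneralLinearGroup (Fin m) ℤ_[p])) (hS : (glFilt p m).N 0 ≤ S) :
    ∃ (d : ℕ) (x : Fin d → (((glFilt p m).restrict S).restrict (((glFilt p m).restrict S).N 0)).G),
      IsTower p (((glFilt p m).restrict S).restrict (((glFilt p m).restrict S).N 0)).sys d x := by
  choose x hx using exists_gen S hS
  have hprod : ∀ a : Fin (m * m) → ℕ, val S ((List.ofFn fun l => x l ^ a l).prod) =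
      (List.ofFn fun l => val S (x l) ^ a l).prod := by
    intro a
    rw [map_list_prod, List.map_ofFn]
    congr 2
  have hgen : ∀ j (q : (FF S).sys.Q j), ∃ a : Fin (m * m) → ℕ, (∀ l, a l < p ^ j) ∧
      (FF S).sys.π j ((List.ofFn fun l => x l ^ a l).prod) = q := by
    intro j q
    obtain ⟨g, rfl⟩ := (FF S).sys.π_surj j q
    have hg : Cg p 2 (val S g) 1 := by
      have := (cg_iff (p := p) 2 (val S g) 1).2 (mem_glFilt.1 g.2)
      exact this
    obtain ⟨a, ha, h⟩ := Cg.exists_exps (X := fun l => val S (x l)) hx EE_span j (val S g) hg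
    refine ⟨a, ha, ?_⟩
    rw [π_eq_iff, hprod]
    exact h
  refine ⟨m * m, x, ⟨?_, ?_, hgen, ?_⟩⟩
  · intro j
    have hbij : Function.Bijective (fun a : Fin (m * m) → Fin (p ^ j) =>
        (FF S).sys.π j ((List.ofFn fun l => x l ^ (a l : ℕ)).prod)) := by
      constructor
      · intro a a' h
        have h1 : (FF S).sys.π j ((List.ofFn fun l => x l ^ (a l : ℕ)).prod) =
          (FF S).sys.π j ((List.ofFn fun l => x l ^ (a' l : ℕ)).prod) := h
        rw [π_eq_iff, hprod, hprod] at h1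
        have h2 := Cg.exps_inj (X := fun l => val S (x l)) hx mat_tf
          (Fact.out : p.Prime).pos EE_inj j _ _ (fun l => (a' l).2) (fun l => (a l).2) h1
        funext l
        exact Fin.ext (congrFun h2 l).symm
      · intro q
        obtain ⟨a, ha, h⟩ := hgen j q
        exact ⟨fun l => ⟨a l, ha l⟩, h⟩
    have h1 := Nat.card_congr (Equiv.ofBijective _ hbij)
    have h3 : ∀ (𝒯 : Sys) (j : ℕ), Fintype.card (𝒯.Q j) = Nat.card (𝒯.Q j) :=
      fun 𝒯 j => Nat.card_eq_fintype_card.symm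
    refine (h3 (FF S).sys j).trans (h1.symm.trans ?_)
    rw [Nat.card_eq_fintype_card]
    simp only [Fintype.card_pi, Fintype.card_fin, Finset.prod_const, Finset.card_univ]
    rw [← pow_mul]
  · intro j l
    have h1 : (FF S).sys.π j (x l ^ p ^ j) = (FF S).sys.π j 1 := by
      rw [π_eq_iff, map_one, map_pow]
      have h2 := Cg.pow_pj (hx l) j
      exact ((h2.mono (by omega : 2 + j ≤ 3 + j)).trans ⟨_, rfl⟩).symm
    rw [map_one] at h1
    exact h1
  · intro l l'
    have h1 : (FF S).sys.π 2 (x l' * x l) = (FF S).sys.π 2 (x l * x l') := by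
      rw [π_eq_iff, map_mul, map_mul, hx l, hx l']
      refine ⟨EE p m l * EE p m l' - EE p m l' * EE p m l, ?_⟩
      have e : ∀ A B : Matrix (Fin m) (Fin m) ℤ_[p],
          (1 + (p : Matrix (Fin m) (Fin m) ℤ_[p]) ^ 2 * A) *
            (1 + (p : Matrix (Fin m) (Fin m) ℤ_[p]) ^ 2 * B) =
          1 + (p : Matrix (Fin m) (Fin m) ℤ_[p]) ^ 2 * A +
            (p : Matrix (Fin m) (Fin m) ℤ_[p]) ^ 2 * B +
            (p : Matrix (Fin m) (Fin m) ℤ_[p]) ^ (2 + 2) * (A * B) := by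
        intro A B
        rw [add_mul, one_mul, mul_add, mul_one, pow_add, mul_assoc _ A, ← mul_assoc A,
          comm_pn 2 A]
        simp only [mul_assoc]
        abel
      rw [e, e, mul_sub]
      abel
    rw [map_mul, map_mul] at h1
    have h2 : (FF S).sys.π 2 (x l * x l' * (x l)⁻¹ * (x l')⁻¹) = 1 := by
      rw [map_mul, map_mul, map_mul, map_inv, map_inv, ← h1]
      group
    exact h2

end Pool.Agent.H4.Atiyah
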