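import Pool.Agent.H4.Atiyah.TDefs

/-!
# A basis of `O[[S]]` over `ℤ_p[[U]]`
-/

set_option autoImplicit false

namespace Pool.Agent.H4.Atiyah

section Aux

theorem LamBasis_coeff_mapDomain {R M N : Type*} [CommRing R] [Fintype M] [DecidableEq N]
    (f : M → N) (x : MonoidAlgebra R M) (n : N) :
    (MonoidAlgebra.mapDomain f x).coeff n = ∑ m with f m = n, x.coeff m := by
  classical
  unfold MonoidAlgebra.mapDomain
  rw [MonoidAlgebra.coeff_ofCoeff, Finsupp.mapDomain, Finsupp.sum_fintype _ _ (by simp),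
    Finsupp.finsetSum_apply, Finset.sum_filter]
  refine Finset.sum_congr rfl fun m _ => ?_
  rw [Finsupp.single_apply]

variable (ℱ : Filt)

theorem LamBasis_class (j : ℕ) (u : UQ ℱ j) (c : ℱ.G ⧸ ℱ.N 0) (g : ℱ.G)
    (h : SQ.mk ℱ j g = UQ.incl ℱ j u * SQ.mk ℱ j (Quotient.out c)) :
    (g : ℱ.G ⧸ ℱ.N 0) = c := by
  obtain ⟨v, rfl⟩ := UQ.mk_surjective ℱ j u
  rw [UQ.incl_mk, ← map_mul] at h
  have h1 : SQ.mk ℱ j ((v.1 * Quotient.out c) * g⁻¹) = 1 := by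
    rw [map_mul, ← h, ← map_mul, mul_inv_cancel, map_one]
  rw [SQ.mk_eq_one] at h1
  have h2 : (v.1 * Quotient.out c) * g⁻¹ ∈ ℱ.N 0 := ℱ.antitone (Nat.zero_le j) h1
  have h3 : (((v.1 * Quotient.out c) * g⁻¹ : ℱ.G) : ℱ.G ⧸ ℱ.N 0) = 1 :=
    (QuotientGroup.eq_one_iff (N := ℱ.N 0) _).2 h2
  have h4 : ((v.1 : ℱ.G) : ℱ.G ⧸ ℱ.N 0) = 1 := (QuotientGroup.eq_one_iff (N := ℱ.N 0) _).2 v.2
  rw [QuotientGroup.mk_mul, QuotientGroup.mk_mul, h4, one_mul, QuotientGroup.out_eq',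
    QuotientGroup.mk_inv, mul_inv_eq_one] at h3
  exact h3.symm

theorem LamBasis_unique (j : ℕ) (u u' : UQ ℱ j) (c c' : ℱ.G ⧸ ℱ.N 0)
    (h : UQ.incl ℱ j u * SQ.mk ℱ j (Quotient.out c) =
      UQ.incl ℱ j u' * SQ.mk ℱ j (Quotient.out c')) : c = c' ∧ u = u' := by
  have hc : c = c' := by
    obtain ⟨g, hg⟩ := SQ.mk_surjective ℱ j (UQ.incl ℱ j u * SQ.mk ℱ j (Quotient.out c))
    rw [← LamBasis_class ℱ j u c g hg, LamBasis_class ℱ j u' c' g (hg.trans h)]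
  subst hc
  exact ⟨rfl, UQ.incl_injective ℱ j (mul_right_cancel h)⟩

theorem LamBasis_exists (j : ℕ) (s : SQ ℱ j) : ∃ (u : UQ ℱ j) (c : ℱ.G ⧸ ℱ.N 0),
    UQ.incl ℱ j u * SQ.mk ℱ j (Quotient.out c) = s := by
  obtain ⟨g, rfl⟩ := SQ.mk_surjective ℱ j s
  have h1 : g * (Quotient.out (g : ℱ.G ⧸ ℱ.N 0))⁻¹ ∈ ℱ.N 0 := by
    rw [← QuotientGroup.eq_one_iff (N := ℱ.N 0), QuotientGroup.mk_mul, QuotientGroup.mk_inv,
      QuotientGroup.out_eq', mul_inv_cancel]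
  refine ⟨UQ.mk ℱ j ⟨_, h1⟩, (g : ℱ.G ⧸ ℱ.N 0), ?_⟩
  rw [UQ.incl_mk, ← map_mul]
  simp

open Classical in
theorem LamBasis_coeff (p : ℕ) [Fact p.Prime] {O : Type} [CommRing O]
    [Algebra ℤ_[p] O] (j : ℕ) (a : LamU p ℱ) (o : O) (u : UQ ℱ j) (c c' : ℱ.G ⧸ ℱ.N 0) :
    (LamS.lv ℱ O j (incS p ℱ O a * (scS ℱ O o * ofS ℱ O (Quotient.out c')))).coeff
      (UQ.incl ℱ j u * SQ.mk ℱ j (Quotient.out c)) =
      if c' = c then algebraMap ℤ_[p] O ((LamU.lv p ℱ j a).coeff u) * o else 0 := by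
  rw [map_mul (LamS.lv ℱ O j), map_mul (LamS.lv ℱ O j), lv_incS, lv_ofS, lv_scS]
  have h1 : (algebraMap O (MonoidAlgebra O (SQ ℱ j)) o) *
      MonoidAlgebra.single (SQ.mk ℱ j (Quotient.out c')) 1 =
      MonoidAlgebra.single (SQ.mk ℱ j (Quotient.out c')) o := by
    rw [← Algebra.smul_def, MonoidAlgebra.smul_single]
    simp
  rw [h1, MonoidAlgebra.coeff_mul_single_apply, MonoidAlgebra.coeff_mapRingHom]
  split_ifs with hc
  · subst hc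
    rw [mul_inv_cancel_right]
    congr 2
    change (MonoidAlgebra.mapDomain (UQ.incl ℱ j) (LamU.lv p ℱ j a)).coeff _ = _
    unfold MonoidAlgebra.mapDomain
    rw [MonoidAlgebra.coeff_ofCoeff, Finsupp.mapDomain_apply (UQ.incl_injective ℱ j)]
  · have h2 : (MonoidAlgebra.mapDomainRingHom ℤ_[p] (UQ.incl ℱ j) (LamU.lv p ℱ j a)).coeff
        (UQ.incl ℱ j u * SQ.mk ℱ j (Quotient.out c) * (SQ.mk ℱ j (Quotient.out c'))⁻¹) = 0 := by
      change (MonoidAlgebra.mapDomain (UQ.incl ℱ j) (LamU.lv p ℱ j a)).coeff _ = _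
      unfold MonoidAlgebra.mapDomain
      rw [MonoidAlgebra.coeff_ofCoeff]
      refine Finsupp.mapDomain_of_notMem_range _ _ ?_
      rintro ⟨v, hv⟩
      refine hc (LamBasis_unique ℱ j v u c' c ?_).1
      rw [hv, inv_mul_cancel_right]
    rw [h2, map_zero, zero_mul]

/-- the transition map of `S` -/
noncomputable def LamBasis_trS (j : ℕ) : SQ ℱ (j + 1) →* SQ ℱ j := ℱ.sys.tr j

/-- the transition map of `U` -/
noncomputable def LamBasis_trU (j : ℕ) : UQ ℱ (j + 1) →* UQ ℱ j := ℱ.sysU.tr j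

theorem LamBasis_trS_mk (j : ℕ) (g : ℱ.G) :
    LamBasis_trS ℱ j (SQ.mk ℱ (j + 1) g) = SQ.mk ℱ j g := ℱ.sys.tr_π j g

theorem LamBasis_trS_incl (j : ℕ) (u : UQ ℱ (j + 1)) :
    LamBasis_trS ℱ j (UQ.incl ℱ (j + 1) u) = UQ.incl ℱ j (LamBasis_trU ℱ j u) := by
  obtain ⟨v, rfl⟩ := UQ.mk_surjective ℱ (j + 1) u
  rfl

theorem LamBasis_compat {O : Type} [CommRing O] (a : LamS ℱ O) (j : ℕ) (s : SQ ℱ j) :
    (LamS.lv ℱ O j a).coeff s =
      ∑ s' with LamBasis_trS ℱ j s' = s, (LamS.lv ℱ O (j + 1) a).coeff s' := by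
  have h : MonoidAlgebra.mapDomain (LamBasis_trS ℱ j) (LamS.lv ℱ O (j + 1) a) =
      LamS.lv ℱ O j a := a.2 j
  rw [← h, LamBasis_coeff_mapDomain]

/-- coordinates -/
noncomputable def LamBasis_lam (p : ℕ) [Fact p.Prime] {O : Type} [CommRing O]
    [Algebra ℤ_[p] O] {κ : Type} (ω : Module.Basis κ ℤ_[p] O) (a : LamS ℱ O) (i : κ)
    (c : ℱ.G ⧸ ℱ.N 0) (j : ℕ) : MonoidAlgebra ℤ_[p] (UQ ℱ j) :=
  MonoidAlgebra.ofCoeff (Finsupp.equivFunOnFinite.symm fun u =>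
    ω.repr ((LamS.lv ℱ O j a).coeff (UQ.incl ℱ j u * SQ.mk ℱ j (Quotient.out c))) i)

theorem LamBasis_lam_compat (p : ℕ) [Fact p.Prime] {O : Type} [CommRing O]
    [Algebra ℤ_[p] O] {κ : Type} (ω : Module.Basis κ ℤ_[p] O) (a : LamS ℱ O) (i : κ)
    (c : ℱ.G ⧸ ℱ.N 0) (j : ℕ) :
    MonoidAlgebra.mapDomain (LamBasis_trU ℱ j) (LamBasis_lam ℱ p ω a i c (j + 1)) =
      LamBasis_lam ℱ p ω a i c j := by
  apply MonoidAlgebra.coeff_injective
  ext u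
  rw [LamBasis_coeff_mapDomain]
  change _ = ω.repr ((LamS.lv ℱ O j a).coeff (UQ.incl ℱ j u * SQ.mk ℱ j (Quotient.out c))) i
  rw [LamBasis_compat, map_sum, Finsupp.finsetSum_apply]
  symm
  refine (Finset.sum_nbij (fun u' => UQ.incl ℱ (j + 1) u' * SQ.mk ℱ (j + 1) (Quotient.out c))
    ?_ ?_ ?_ ?_).symm
  · intro u' hu'
    simp only [Finset.mem_filter, Finset.mem_univ, true_and] at hu' ⊢
    rw [map_mul, LamBasis_trS_mk, LamBasis_trS_incl, hu']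
  · intro u₁ _ u₂ _ h
    exact UQ.incl_injective ℱ (j + 1) (mul_right_cancel h)
  · intro s' hs'
    simp only [Finset.coe_filter, Finset.mem_univ, true_and, Set.mem_ofPred_eq] at hs'
    obtain ⟨u', c', rfl⟩ := LamBasis_exists ℱ (j + 1) s'
    rw [map_mul, LamBasis_trS_mk, LamBasis_trS_incl] at hs'
    obtain ⟨rfl, hu⟩ := LamBasis_unique ℱ j _ _ _ _ hs'
    exact ⟨u', by simpa using hu, rfl⟩
  · intro u' _
    rfl

end Aux

theorem exists_lamBasis (p : ℕ) [Fact p.Prime] (ℱ : Filt) {O : Type} [CommRing O]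
    [Algebra ℤ_[p] O] {κ : Type} [Finite κ] (ω : Module.Basis κ ℤ_[p] O)
    [Module (LamU p ℱ) (LamS ℱ O)] (hΛ : ∀ (a : LamU p ℱ) (v : LamS ℱ O), a • v = incS p ℱ O a * v) :
    ∃ b : Module.Basis (κ × (ℱ.G ⧸ ℱ.N 0)) (LamU p ℱ) (LamS ℱ O),
      ∀ i c, b (i, c) = scS ℱ O (ω i) * ofS ℱ O (Quotient.out c) := by
  classical
  have := Fintype.ofFinite κ
  have := Fintype.ofFinite (ℱ.G ⧸ ℱ.N 0)
  set v : κ × (ℱ.G ⧸ ℱ.N 0) → LamS ℱ O := fun x => scS ℱ O (ω x.1) * ofS ℱ O (Quotient.out x.2)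
    with hv
  have key : ∀ (l : κ × (ℱ.G ⧸ ℱ.N 0) → LamU p ℱ) (j : ℕ) (u : UQ ℱ j) (c : ℱ.G ⧸ ℱ.N 0),
      (LamS.lv ℱ O j (∑ x, l x • v x)).coeff (UQ.incl ℱ j u * SQ.mk ℱ j (Quotient.out c)) =
        ∑ i, ((LamU.lv p ℱ j (l (i, c))).coeff u) • ω i := by
    intro l j u c
    rw [map_sum, MonoidAlgebra.coeff_sum, Finsupp.finsetSum_apply, Fintype.sum_prod_type]
    refine Finset.sum_congr rfl fun i _ => ?_
    rw [Finset.sum_eq_single c]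
    · rw [hΛ, hv, LamBasis_coeff, if_pos rfl, Algebra.smul_def]
    · intro c' _ hc'
      rw [hΛ, hv, LamBasis_coeff, if_neg hc']
    · simp
  have hli : LinearIndependent (LamU p ℱ) v := by
    rw [Fintype.linearIndependent_iff]
    rintro l hl ⟨i, c⟩
    apply LamU.ext
    intro j
    apply MonoidAlgebra.coeff_injective
    ext u
    have h1 := key l j u c
    rw [hl, map_zero, MonoidAlgebra.coeff_zero, Finsupp.zero_apply] at h1
    have h2 := (Fintype.linearIndependent_iff.1 ω.linearIndependent) _ h1.symm i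
    rw [h2, map_zero, MonoidAlgebra.coeff_zero, Finsupp.zero_apply]
  have hsp : ⊤ ≤ Submodule.span (LamU p ℱ) (Set.range v) := by
    intro a _
    let l : κ × (ℱ.G ⧸ ℱ.N 0) → LamU p ℱ := fun x =>
      (⟨fun j => LamBasis_lam ℱ p ω a x.1 x.2 j, fun j => LamBasis_lam_compat ℱ p ω a x.1 x.2 j⟩ :
        Lam ℤ_[p] ℱ.sysU)
    have hl : ∀ x j, LamU.lv p ℱ j (l x) = LamBasis_lam ℱ p ω a x.1 x.2 j := fun _ _ => rfl
    have ha : a = ∑ x, l x • v x := by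
      apply LamS.ext
      intro j
      apply MonoidAlgebra.coeff_injective
      ext s
      obtain ⟨u, c, rfl⟩ := LamBasis_exists ℱ j s
      rw [key l j u c]
      have h1 : ∀ i, (LamU.lv p ℱ j (l (i, c))).coeff u =
          ω.repr ((LamS.lv ℱ O j a).coeff (UQ.incl ℱ j u * SQ.mk ℱ j (Quotient.out c))) i :=
        fun i => rfl
      simp only [h1]
      rw [ω.sum_repr]
    rw [ha]
    exact Submodule.sum_mem _ fun x _ => Submodule.smul_mem _ _ (Submodule.subset_span ⟨x, rfl⟩)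
  exact ⟨Module.Basis.mk hli hsp, fun i c => by rw [Module.Basis.mk_apply]⟩

end Pool.Agent.H4.Atiyah
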