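import Pool.Agent.H4.Atiyah.Copies

/-!
# Maps from group rings and completed group rings to the ultraproducts
-/

set_option autoImplicit false

open Filter Topology
open scoped Kronecker

namespace Pool.Agent.H4.Atiyah

/-! ## Group rings to sequences -/

/-- The sequence of regular matrices of an element of the group ring. -/
noncomputable def grpSeq (F : Type) [Field F] (𝒯 : Sys) : MonoidAlgebra F 𝒯.G →+* Seq F 𝒯.Q :=
  RingHom.pi fun j => ((reg F (𝒯.Q j)).toRingHom).comp (MonoidAlgebra.mapDomainRingHom F (𝒯.π j))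

theorem grpSeq_apply (F : Type) [Field F] (𝒯 : Sys) (a : MonoidAlgebra F 𝒯.G) (j : ℕ) :
    grpSeq F 𝒯 a j = reg F (𝒯.Q j) (MonoidAlgebra.mapDomainRingHom F (𝒯.π j) a) := rfl

theorem flat_grpSeq {F : Type} [Field F] {𝒯 : Sys} {m n : Type*}
    (A : Matrix m n (MonoidAlgebra F 𝒯.G)) (j : ℕ) :
    flat (A.map (grpSeq F 𝒯)) j = op (A.map (MonoidAlgebra.mapDomainRingHom F (𝒯.π j))) := by
  ext x y
  simp only [flat, op, Matrix.of_apply, Matrix.map_apply, grpSeq_apply, reg_apply]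

/-- The map from the group ring to the algebraic ultraproduct. -/
noncomputable def grpAlg (F : Type) [Field F] (𝒯 : Sys) : MonoidAlgebra F 𝒯.G →+* UAlg F 𝒯.Q :=
  (UAlg.mk F 𝒯.Q).comp (grpSeq F 𝒯)

/-- The sequence of regular matrices of an element of the completed group ring. -/
noncomputable def lamSeq {C : Type} [CommRing C] {F : Type} [Field F] (φ : C →+* F) (𝒯 : Sys) :
    Lam C 𝒯 →+* Seq F 𝒯.Q :=
  RingHom.pi fun j => (((reg F (𝒯.Q j)).toRingHom).comp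
    (MonoidAlgebra.mapRingHom (𝒯.Q j) φ)).comp
      ((Pi.evalRingHom (fun j => MonoidAlgebra C (𝒯.Q j)) j).comp (Lam C 𝒯).subtype)

theorem lamSeq_apply {C : Type} [CommRing C] {F : Type} [Field F] (φ : C →+* F) (𝒯 : Sys)
    (a : Lam C 𝒯) (j : ℕ) :
    lamSeq φ 𝒯 a j = reg F (𝒯.Q j) (MonoidAlgebra.mapRingHom (𝒯.Q j) φ (a.1 j)) := rfl

/-- The map from the completed group ring to the algebraic ultraproduct. -/
noncomputable def lamAlg {C : Type} [CommRing C] {F : Type} [Field F] (φ : C →+* F) (𝒯 : Sys) :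
    Lam C 𝒯 →+* UAlg F 𝒯.Q :=
  (UAlg.mk F 𝒯.Q).comp (lamSeq φ 𝒯)

theorem toLam_apply {C : Type} [CommRing C] (𝒯 : Sys) (a : MonoidAlgebra C 𝒯.G) (j : ℕ) :
    (toLam C 𝒯 a).1 j = MonoidAlgebra.mapDomainRingHom C (𝒯.π j) a := rfl

theorem lamSeq_toLam {C : Type} [CommRing C] {F : Type} [Field F] (φ : C →+* F) (𝒯 : Sys)
    (a : MonoidAlgebra C 𝒯.G) :
    lamSeq φ 𝒯 (toLam C 𝒯 a) = grpSeq F 𝒯 (MonoidAlgebra.mapRingHom 𝒯.G φ a) := by
  funext j
  rw [lamSeq_apply, grpSeq_apply, toLam_apply]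
  congr 1
  rw [← RingHom.comp_apply, ← RingHom.comp_apply, MonoidAlgebra.mapRingHom_comp_mapDomainRingHom]

theorem lamAlg_toLam {C : Type} [CommRing C] {F : Type} [Field F] (φ : C →+* F) (𝒯 : Sys)
    (a : MonoidAlgebra C 𝒯.G) :
    lamAlg φ 𝒯 (toLam C 𝒯 a) = grpAlg F 𝒯 (MonoidAlgebra.mapRingHom 𝒯.G φ a) := by
  rw [lamAlg, RingHom.comp_apply, lamSeq_toLam, grpAlg, RingHom.comp_apply]

theorem seqMap_grpSeq {F F' : Type} [Field F] [Field F'] (φ : F →+* F') (𝒯 : Sys)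
    (a : MonoidAlgebra F 𝒯.G) :
    seqMap 𝒯.Q φ (grpSeq F 𝒯 a) = grpSeq F' 𝒯 (MonoidAlgebra.mapRingHom 𝒯.G φ a) := by
  funext j
  rw [seqMap_apply, grpSeq_apply, grpSeq_apply]
  have h : MonoidAlgebra.mapDomainRingHom F' (𝒯.π j) (MonoidAlgebra.mapRingHom 𝒯.G φ a) =
      MonoidAlgebra.mapRingHom (𝒯.Q j) φ (MonoidAlgebra.mapDomainRingHom F (𝒯.π j) a) := by
    rw [← RingHom.comp_apply, ← RingHom.comp_apply, MonoidAlgebra.mapRingHom_comp_mapDomainRingHom]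
  rw [h]
  ext x y
  rw [Matrix.map_apply, reg_apply, reg_apply]
  simp

theorem algMap_grpAlg {F F' : Type} [Field F] [Field F'] (φ : F →+* F') (𝒯 : Sys)
    (a : MonoidAlgebra F 𝒯.G) :
    algMap 𝒯.Q φ (grpAlg F 𝒯 a) = grpAlg F' 𝒯 (MonoidAlgebra.mapRingHom 𝒯.G φ a) := by
  rw [grpAlg, RingHom.comp_apply, algMap_mk, seqMap_grpSeq, grpAlg, RingHom.comp_apply]

/-! ## Complex group rings are essentially bounded -/

theorem smallOn_reg_single {Q : Type*} [Group Q] [Fintype Q] [DecidableEq Q] (q : Q) (c : ℂ)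
    (s : ℝ) (hs : 0 ≤ s) : SmallOn (reg ℂ Q (MonoidAlgebra.single q c)) s ‖c‖ := by
  refine ⟨⊤, by simp [hs], fun x _ => le_of_eq ?_⟩
  have h1 : Matrix.vecMul x (reg ℂ Q (MonoidAlgebra.single q c)) =
      c • fun h => x (h * q⁻¹) := by
    ext h
    simp only [Matrix.vecMul, dotProduct, reg_apply, Pi.smul_apply, smul_eq_mul]
    rw [Finset.sum_eq_single (h * q⁻¹)]
    · simp [mul_comm]
    · intro b _ hb
      rw [MonoidAlgebra.coeff_single, Finsupp.single_eq_of_ne, mul_zero]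
      intro h2
      apply hb
      rw [eq_mul_inv_iff_mul_eq, ← h2]
      · group
    · simp
  rw [h1, nrm_smul]
  congr 1
  unfold nrm
  congr 1
  exact Fintype.sum_equiv (Equiv.mulRight q⁻¹) _ _ (fun _ => rfl)

theorem grpSeq_mem_essBdd (𝒯 : Sys) (a : MonoidAlgebra ℂ 𝒯.G) :
    grpSeq ℂ 𝒯 a ∈ essBdd 𝒯.Q := by
  induction a using MonoidAlgebra.induction_linear with
  | zero => rw [map_zero]; exact zero_mem _
  | add f g hf hg => rw [map_add]; exact add_mem hf hg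
  | single q c =>
    intro η hη
    refine ⟨‖c‖, norm_nonneg _, Eventually.of_forall fun j => ?_⟩
    have h : grpSeq ℂ 𝒯 (MonoidAlgebra.single q c) j =
        reg ℂ (𝒯.Q j) (MonoidAlgebra.single (𝒯.π j q) c) := by
      rw [grpSeq_apply]
      simp
    rw [h]
    exact smallOn_reg_single _ _ _ (by positivity)

/-- The complex group ring maps to essentially bounded sequences. -/
noncomputable def grpBdd (𝒯 : Sys) : MonoidAlgebra ℂ 𝒯.G →+* essBdd 𝒯.Q :=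
  RingHom.codRestrict (grpSeq ℂ 𝒯) _ (grpSeq_mem_essBdd 𝒯)

/-- The map from the complex group ring to the analytic ultraproduct. -/
noncomputable def grpEss (𝒯 : Sys) : MonoidAlgebra ℂ 𝒯.G →+* UEss 𝒯.Q :=
  (UEss.mk 𝒯.Q).comp (grpBdd 𝒯)

/-! ## The two copies -/

/-- first embedding `G → G × G` -/
def Sys.in1 (𝒯 : Sys) : 𝒯.G →* 𝒯.sq.G := MonoidHom.inl 𝒯.G 𝒯.G

/-- second embedding `G → G × G` -/
def Sys.in2 (𝒯 : Sys) : 𝒯.G →* 𝒯.sq.G := MonoidHom.inr 𝒯.G 𝒯.G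

theorem seqC1_grpSeq (F : Type) [Field F] (𝒯 : Sys) (a : MonoidAlgebra F 𝒯.G) :
    seqC1 F 𝒯.Q (grpSeq F 𝒯 a) = grpSeq F 𝒯.sq (MonoidAlgebra.mapDomainRingHom F 𝒯.in1 a) := by
  have h : ∀ b : MonoidAlgebra F 𝒯.G, ∀ j, seqC1 F 𝒯.Q (grpSeq F 𝒯 b) j =
      grpSeq F 𝒯.sq (MonoidAlgebra.mapDomainRingHom F 𝒯.in1 b) j := by
    intro b j
    induction b using MonoidAlgebra.induction_linear with
    | zero => simp only [map_zero]
    | add f g hf hg => simp only [map_add, Pi.add_apply, hf, hg]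
    | single q c =>
      ext x y
      have e1 : grpSeq F 𝒯 (MonoidAlgebra.single q c) j =
          reg F (𝒯.Q j) (MonoidAlgebra.single (𝒯.π j q) c) := by
        rw [grpSeq_apply]; simp
      have e2 : grpSeq F 𝒯.sq (MonoidAlgebra.mapDomainRingHom F 𝒯.in1
          (MonoidAlgebra.single q c)) j =
          reg F (𝒯.Q j × 𝒯.Q j) (MonoidAlgebra.single (𝒯.π j q, 1) c) := by
        rw [grpSeq_apply]
        simp [Sys.in1, Sys.sq]
      rw [e2, reg_apply]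
      change (grpSeq F 𝒯 (MonoidAlgebra.single q c) j ⊗ₖ 1) x y = _
      rw [e1, Matrix.kroneckerMap_apply, reg_apply]
      simp only [MonoidAlgebra.coeff_single, Finsupp.single_apply, Matrix.one_apply]
      obtain ⟨x1, x2⟩ := x
      obtain ⟨y1, y2⟩ := y
      simp only [Prod.inv_mk, Prod.mk_mul_mk, Prod.mk.injEq]
      by_cases hq : 𝒯.π j q = x1⁻¹ * y1 <;> by_cases h2 : x2 = y2 <;>
        simp [hq, h2, eq_inv_mul_iff_mul_eq]
  funext j
  exact h a j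

theorem seqC2_grpSeq (F : Type) [Field F] (𝒯 : Sys) (a : MonoidAlgebra F 𝒯.G) :
    seqC2 F 𝒯.Q (grpSeq F 𝒯 a) = grpSeq F 𝒯.sq (MonoidAlgebra.mapDomainRingHom F 𝒯.in2 a) := by
  have h : ∀ b : MonoidAlgebra F 𝒯.G, ∀ j, seqC2 F 𝒯.Q (grpSeq F 𝒯 b) j =
      grpSeq F 𝒯.sq (MonoidAlgebra.mapDomainRingHom F 𝒯.in2 b) j := by
    intro b j
    induction b using MonoidAlgebra.induction_linear with
    | zero => simp only [map_zero]
    | add f g hf hg => simp only [map_add, Pi.add_apply, hf, hg]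
    | single q c =>
      ext x y
      have e1 : grpSeq F 𝒯 (MonoidAlgebra.single q c) j =
          reg F (𝒯.Q j) (MonoidAlgebra.single (𝒯.π j q) c) := by
        rw [grpSeq_apply]; simp
      have e2 : grpSeq F 𝒯.sq (MonoidAlgebra.mapDomainRingHom F 𝒯.in2
          (MonoidAlgebra.single q c)) j =
          reg F (𝒯.Q j × 𝒯.Q j) (MonoidAlgebra.single (1, 𝒯.π j q) c) := by
        rw [grpSeq_apply]
        simp [Sys.in2, Sys.sq]
      rw [e2, reg_apply]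
      change (1 ⊗ₖ grpSeq F 𝒯 (MonoidAlgebra.single q c) j) x y = _
      rw [e1, Matrix.kroneckerMap_apply, reg_apply]
      simp only [MonoidAlgebra.coeff_single, Finsupp.single_apply, Matrix.one_apply]
      obtain ⟨x1, x2⟩ := x
      obtain ⟨y1, y2⟩ := y
      simp only [Prod.inv_mk, Prod.mk_mul_mk, Prod.mk.injEq]
      by_cases hq : 𝒯.π j q = x2⁻¹ * y2 <;> by_cases h2 : x1 = y1 <;>
        simp [hq, h2, eq_inv_mul_iff_mul_eq]
  funext j
  exact h a j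

theorem algC1_grpAlg (F : Type) [Field F] (𝒯 : Sys) (a : MonoidAlgebra F 𝒯.G) :
    algC1 F 𝒯.Q (grpAlg F 𝒯 a) = grpAlg F 𝒯.sq (MonoidAlgebra.mapDomainRingHom F 𝒯.in1 a) := by
  rw [grpAlg, RingHom.comp_apply, algC1_mk, seqC1_grpSeq]; rfl

theorem algC2_grpAlg (F : Type) [Field F] (𝒯 : Sys) (a : MonoidAlgebra F 𝒯.G) :
    algC2 F 𝒯.Q (grpAlg F 𝒯 a) = grpAlg F 𝒯.sq (MonoidAlgebra.mapDomainRingHom F 𝒯.in2 a) := by
  rw [grpAlg, RingHom.comp_apply, algC2_mk, seqC2_grpSeq]; rfl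

theorem essC1_grpEss (𝒯 : Sys) (a : MonoidAlgebra ℂ 𝒯.G) :
    essC1 𝒯.Q (grpEss 𝒯 a) = grpEss 𝒯.sq (MonoidAlgebra.mapDomainRingHom ℂ 𝒯.in1 a) := by
  rw [grpEss, RingHom.comp_apply, essC1_mk]
  change UEss.mk _ _ = UEss.mk _ _
  congr 1
  exact Subtype.ext (seqC1_grpSeq ℂ 𝒯 a)

theorem essC2_grpEss (𝒯 : Sys) (a : MonoidAlgebra ℂ 𝒯.G) :
    essC2 𝒯.Q (grpEss 𝒯 a) = grpEss 𝒯.sq (MonoidAlgebra.mapDomainRingHom ℂ 𝒯.in2 a) := by
  rw [grpEss, RingHom.comp_apply, essC2_mk]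
  change UEss.mk _ _ = UEss.mk _ _
  congr 1
  exact Subtype.ext (seqC2_grpSeq ℂ 𝒯 a)

/-- The copies on completed group rings. -/
noncomputable def lam1 (C : Type) [CommRing C] (𝒯 : Sys) : Lam C 𝒯 →+* Lam C 𝒯.sq :=
  RingHom.codRestrict (RingHom.pi fun j =>
    (MonoidAlgebra.mapDomainRingHom C (MonoidHom.inl (𝒯.Q j) (𝒯.Q j))).comp
      ((Pi.evalRingHom (fun j => MonoidAlgebra C (𝒯.Q j)) j).comp (Lam C 𝒯).subtype)) (Lam C 𝒯.sq) (by
    intro a j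
    have ha := a.2 j
    change MonoidAlgebra.mapDomainRingHom C (𝒯.sq.tr j) (MonoidAlgebra.mapDomainRingHom C
      (MonoidHom.inl (𝒯.Q (j + 1)) (𝒯.Q (j + 1))) (a.1 (j + 1))) =
      MonoidAlgebra.mapDomainRingHom C (MonoidHom.inl (𝒯.Q j) (𝒯.Q j)) (a.1 j)
    rw [← ha, ← RingHom.comp_apply, ← RingHom.comp_apply, ← MonoidAlgebra.mapDomainRingHom_comp,
      ← MonoidAlgebra.mapDomainRingHom_comp]
    congr 2
    ext g <;> simp [Sys.sq])

/-- The copies on completed group rings. -/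
noncomputable def lam2 (C : Type) [CommRing C] (𝒯 : Sys) : Lam C 𝒯 →+* Lam C 𝒯.sq :=
  RingHom.codRestrict (RingHom.pi fun j =>
    (MonoidAlgebra.mapDomainRingHom C (MonoidHom.inr (𝒯.Q j) (𝒯.Q j))).comp
      ((Pi.evalRingHom (fun j => MonoidAlgebra C (𝒯.Q j)) j).comp (Lam C 𝒯).subtype)) (Lam C 𝒯.sq) (by
    intro a j
    have ha := a.2 j
    change MonoidAlgebra.mapDomainRingHom C (𝒯.sq.tr j) (MonoidAlgebra.mapDomainRingHom C
      (MonoidHom.inr (𝒯.Q (j + 1)) (𝒯.Q (j + 1))) (a.1 (j + 1))) =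
      MonoidAlgebra.mapDomainRingHom C (MonoidHom.inr (𝒯.Q j) (𝒯.Q j)) (a.1 j)
    rw [← ha, ← RingHom.comp_apply, ← RingHom.comp_apply, ← MonoidAlgebra.mapDomainRingHom_comp,
      ← MonoidAlgebra.mapDomainRingHom_comp]
    congr 2
    ext g <;> simp [Sys.sq])

theorem lam1_apply (C : Type) [CommRing C] (𝒯 : Sys) (a : Lam C 𝒯) (j : ℕ) :
    (lam1 C 𝒯 a).1 j =
      MonoidAlgebra.mapDomainRingHom C (MonoidHom.inl (𝒯.Q j) (𝒯.Q j)) (a.1 j) := rfl

theorem lam2_apply (C : Type) [CommRing C] (𝒯 : Sys) (a : Lam C 𝒯) (j : ℕ) :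
    (lam2 C 𝒯 a).1 j =
      MonoidAlgebra.mapDomainRingHom C (MonoidHom.inr (𝒯.Q j) (𝒯.Q j)) (a.1 j) := rfl

end Pool.Agent.H4.Atiyah
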