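import Mathlib

/-!
# Nilpotence of the augmentation ideal of the group algebra of a finite `p`-group over `𝔽_p`
-/

set_option autoImplicit false

namespace Pool.Agent.H4.Atiyah

section PGroupAug

variable (p : ℕ) [Fact p.Prime] (P : Type) [Group P]

/-- The augmentation. -/
private noncomputable def pgAug : MonoidAlgebra (ZMod p) P →ₐ[ZMod p] ZMod p :=
  MonoidAlgebra.lift (ZMod p) (ZMod p) P 1

private theorem pgAug_apply (f : MonoidAlgebra (ZMod p) P) :
    pgAug p P f = f.coeff.sum fun _ a => a := by
  unfold pgAug
  rw [MonoidAlgebra.lift_apply]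
  congr 1
  ext g a
  simp

/-- The elements mapped into `N` by the augmentation ideal. -/
private def pgNext (N : Submodule (MonoidAlgebra (ZMod p) P) (MonoidAlgebra (ZMod p) P)) :
    Submodule (MonoidAlgebra (ZMod p) P) (MonoidAlgebra (ZMod p) P) where
  carrier := {a | ∀ f, pgAug p P f = 0 → f * a ∈ N}
  add_mem' := by
    intro a b ha hb f hf
    rw [mul_add]
    exact N.add_mem (ha f hf) (hb f hf)
  zero_mem' := by
    intro f _
    rw [mul_zero]
    exact N.zero_mem
  smul_mem' := by
    intro c a ha f hf
    rw [smul_eq_mul, ← mul_assoc]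
    exact ha (f * c) (by rw [map_mul, hf, zero_mul])

private theorem pgNext_le {N : Submodule (MonoidAlgebra (ZMod p) P) (MonoidAlgebra (ZMod p) P)} :
    N ≤ pgNext p P N := by
  intro a ha f _
  exact N.smul_mem f ha

private theorem mem_pgNext_of {N : Submodule (MonoidAlgebra (ZMod p) P) (MonoidAlgebra (ZMod p) P)}
    {a : MonoidAlgebra (ZMod p) P}
    (h : ∀ g : P, MonoidAlgebra.of (ZMod p) P g * a - a ∈ N) : a ∈ pgNext p P N := by
  have key : ∀ f : MonoidAlgebra (ZMod p) P,
      f * a - MonoidAlgebra.single 1 (pgAug p P f) * a ∈ N := by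
    intro f
    induction f using MonoidAlgebra.induction_on with
    | of g =>
      have h1 : pgAug p P (MonoidAlgebra.of (ZMod p) P g) = 1 := by
        unfold pgAug
        rw [MonoidAlgebra.lift_of]
        rfl
      rw [h1]
      have h2 : (MonoidAlgebra.single (1 : P) (1 : ZMod p)) = 1 := rfl
      rw [h2, one_mul]
      exact h g
    | add f g hf hg =>
      have h1 : pgAug p P (f + g) = pgAug p P f + pgAug p P g := map_add _ _ _
      have h2 : (MonoidAlgebra.single (1 : P) (pgAug p P f + pgAug p P g)) =
          MonoidAlgebra.single (1 : P) (pgAug p P f) + MonoidAlgebra.single (1 : P) (pgAug p P g) := by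
        exact MonoidAlgebra.single_add _ _ _
      rw [h1, h2]
      have : (f + g) * a - (MonoidAlgebra.single (1 : P) (pgAug p P f) +
          MonoidAlgebra.single (1 : P) (pgAug p P g)) * a =
          (f * a - MonoidAlgebra.single (1 : P) (pgAug p P f) * a) +
          (g * a - MonoidAlgebra.single (1 : P) (pgAug p P g) * a) := by
        rw [add_mul, add_mul]; abel
      rw [this]
      exact N.add_mem hf hg
    | smul r f hf =>
      have h1 : pgAug p P (r • f) = r * pgAug p P f := by
        rw [map_smul]; rfl
      have h2 : (MonoidAlgebra.single (1 : P) (r * pgAug p P f)) =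
          r • MonoidAlgebra.single (1 : P) (pgAug p P f) := by
        rw [MonoidAlgebra.smul_single]; rfl
      rw [h1, h2, smul_mul_assoc, smul_mul_assoc, ← smul_sub]
      have h3 : ∀ x : MonoidAlgebra (ZMod p) P, r • x = (MonoidAlgebra.single (1 : P) r) * x := by
        intro x
        ext g
        simp
      rw [h3]
      exact N.smul_mem _ hf
  intro f hf
  have := key f
  rw [hf] at this
  have h0 : (MonoidAlgebra.single (1 : P) (0 : ZMod p)) = 0 := MonoidAlgebra.single_zero _
  rw [h0, zero_mul, sub_zero] at this
  exact this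

private theorem pgNext_lt [Finite P] (hP : IsPGroup p P)
    {N : Submodule (MonoidAlgebra (ZMod p) P) (MonoidAlgebra (ZMod p) P)} (hN : N ≠ ⊤) :
    N < pgNext p P N := by
  classical
  have : Finite (MonoidAlgebra (ZMod p) P) := by
    have := Fintype.ofFinite P
    exact Finite.of_injective (fun f : MonoidAlgebra (ZMod p) P => fun g => f.coeff g) (by
      intro f g h
      ext x
      exact congrFun h x)
  let act : MulAction P (MonoidAlgebra (ZMod p) P ⧸ N) :=
    MulAction.compHom _ (MonoidAlgebra.of (ZMod p) P)
  have hsm : ∀ (g : P) (x : MonoidAlgebra (ZMod p) P ⧸ N),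
      (g • x : MonoidAlgebra (ZMod p) P ⧸ N) = MonoidAlgebra.of (ZMod p) P g • x := fun _ _ => rfl
  have hfin : Finite (MonoidAlgebra (ZMod p) P ⧸ N) :=
    Finite.of_surjective _ N.mkQ_surjective
  have hne : ∃ a : MonoidAlgebra (ZMod p) P, a ∉ N := by
    by_contra hcon
    push Not at hcon
    exact hN (eq_top_iff.2 fun a _ => hcon a)
  obtain ⟨a0, ha0⟩ := hne
  have hdvd : p ∣ Nat.card (MonoidAlgebra (ZMod p) P ⧸ N) := by
    have h1 : addOrderOf (N.mkQ a0) = p := by
      apply addOrderOf_eq_prime
      · rw [← map_nsmul]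
        have : p • a0 = 0 := by
          rw [← Nat.cast_smul_eq_nsmul (ZMod p), ZMod.natCast_self, zero_smul]
        rw [this, map_zero]
      · intro h
        exact ha0 ((Submodule.Quotient.mk_eq_zero N).1 h)
    have h2 := addOrderOf_dvd_natCard (N.mkQ a0)
    rwa [h1] at h2
  have hfix0 : (0 : MonoidAlgebra (ZMod p) P ⧸ N) ∈
      MulAction.fixedPoints P (MonoidAlgebra (ZMod p) P ⧸ N) := by
    intro g
    rw [hsm, smul_zero]
  obtain ⟨b, hb, hb0⟩ := hP.exists_fixed_point_of_prime_dvd_card_of_fixed_point
    (MonoidAlgebra (ZMod p) P ⧸ N) hdvd hfix0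
  obtain ⟨a, rfl⟩ := N.mkQ_surjective b
  refine lt_of_le_of_ne (pgNext_le p P) ?_
  intro heq
  have ha : a ∈ pgNext p P N := by
    apply mem_pgNext_of
    intro g
    have h1 := hb g
    rw [hsm, ← map_smul] at h1
    have h2 := (Submodule.Quotient.eq N).1 h1
    exact h2
  rw [← heq] at ha
  exact hb0 ((Submodule.Quotient.mk_eq_zero N).2 ha).symm

private noncomputable def pgChain :
    ℕ → Submodule (MonoidAlgebra (ZMod p) P) (MonoidAlgebra (ZMod p) P)
  | 0 => ⊥
  | n + 1 => pgNext p P (pgChain n)

theorem augmentation_nilpotent (p : ℕ) [Fact p.Prime] (P : Type) [Group P] [Finite P]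
    (hP : IsPGroup p P) :
    ∃ n : ℕ, ∀ f : Fin n → MonoidAlgebra (ZMod p) P,
      (∀ i, ((f i).coeff.sum fun _ a => a) = 0) → (List.ofFn f).prod = 0 := by
  classical
  have hfinA : Finite (MonoidAlgebra (ZMod p) P) := by
    have := Fintype.ofFinite P
    exact Finite.of_injective (fun f : MonoidAlgebra (ZMod p) P => fun g => f.coeff g) (by
      intro f g h
      ext x
      exact congrFun h x)
  have hfinS : Finite (Submodule (MonoidAlgebra (ZMod p) P) (MonoidAlgebra (ZMod p) P)) :=
    Finite.of_injective (fun N => (N : Set (MonoidAlgebra (ZMod p) P))) SetLike.coe_injective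
  have hex : ∃ n, pgChain p P n = ⊤ := by
    by_contra hcon
    push Not at hcon
    have hmono : StrictMono (pgChain p P) := by
      apply strictMono_nat_of_lt_succ
      intro n
      exact pgNext_lt p P hP (hcon n)
    exact not_injective_infinite_finite _ hmono.injective
  obtain ⟨n, hn⟩ := hex
  refine ⟨n, fun f hf => ?_⟩
  have key : ∀ (k : ℕ) (l : List (MonoidAlgebra (ZMod p) P)) (a : MonoidAlgebra (ZMod p) P),
      l.length = k → (∀ x ∈ l, pgAug p P x = 0) → a ∈ pgChain p P k → l.prod * a = 0 := by
    intro k
    induction k with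
    | zero =>
      intro l a hl _ ha
      have : a = 0 := ha
      rw [this, mul_zero]
    | succ k ih =>
      intro l a hl hx ha
      -- split off the last element
      have hne : l ≠ [] := by
        intro h
        rw [h] at hl
        simp at hl
      rw [← List.dropLast_append_getLast hne, List.prod_append, List.prod_singleton, mul_assoc]
      apply ih
      · rw [List.length_dropLast, hl]; rfl
      · intro x hx'
        exact hx x (List.mem_of_mem_dropLast hx')
      · exact ha _ (hx _ (List.getLast_mem hne))
  have := key n (List.ofFn f) 1 (by simp) (by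
    intro x hx
    rw [List.mem_ofFn] at hx
    obtain ⟨i, rfl⟩ := hx
    rw [pgAug_apply]
    exact hf i) (by rw [hn]; trivial)
  rwa [mul_one] at this

end PGroupAug

end Pool.Agent.H4.Atiyah
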