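import Pool.Agent.H4.Atiyah.RankCompareLevel
import Pool.Agent.H4.Atiyah.Ranks
import Pool.Agent.H4.Atiyah.RankLib
import Pool.Agent.H4.Atiyah.LamUnits
import Pool.Agent.H4.Atiyah.LamFacts
import Pool.Agent.H4.Atiyah.LamBasis

/-!
# M32 : comparison of ranks
-/

set_option autoImplicit false

open Filter Topology

namespace Pool.Agent.H4.Atiyah

namespace RankCompare

/-- the decomposition of `S / N_j` -/
theorem cosets_bijective (ℱ : Filt) (j : ℕ) : Function.Bijective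
    fun x : UQ ℱ j × (ℱ.G ⧸ ℱ.N 0) => UQ.incl ℱ j x.1 * SQ.mk ℱ j (Quotient.out x.2) := by
  have hle : ℱ.N j ≤ ℱ.N 0 := ℱ.antitone (Nat.zero_le j)
  constructor
  · rintro ⟨u, c⟩ ⟨u', c'⟩ h
    dsimp only at h
    have hc : c = c' := by
      obtain ⟨v, rfl⟩ := UQ.mk_surjective ℱ j u
      obtain ⟨v', rfl⟩ := UQ.mk_surjective ℱ j u'
      rw [UQ.incl_mk, UQ.incl_mk, ← map_mul, ← map_mul, ← mul_inv_eq_one, ← map_inv, ← map_mul,
        SQ.mk_eq_one] at h
      have h1 := hle h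
      have h2 : ((v : ℱ.G) * Quotient.out c * ((v' : ℱ.G) * Quotient.out c')⁻¹ : ℱ.G) =
        v * (Quotient.out c * (Quotient.out c')⁻¹) * (v' : ℱ.G)⁻¹ := by group
      rw [h2] at h1
      have h3 : Quotient.out c * (Quotient.out c')⁻¹ ∈ ℱ.N 0 := by
        have h4 := (ℱ.N 0).mul_mem ((ℱ.N 0).mul_mem ((ℱ.N 0).inv_mem v.2) h1) v'.2
        have h5 : ((v : ℱ.G)⁻¹ * (v * (Quotient.out c * (Quotient.out c')⁻¹) * (v' : ℱ.G)⁻¹) * v' : ℱ.G)
          = Quotient.out c * (Quotient.out c')⁻¹ := by group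
        rwa [h5] at h4
      have h6 : (Quotient.out c')⁻¹ * Quotient.out c ∈ ℱ.N 0 := by
        have h7 := (ℱ.normal 0).conj_mem _ h3 (Quotient.out c')⁻¹
        have h8 : (Quotient.out c')⁻¹ * (Quotient.out c * (Quotient.out c')⁻¹) *
          (Quotient.out c')⁻¹⁻¹ = (Quotient.out c')⁻¹ * Quotient.out c := by group
        rwa [h8] at h7
      have h9 : (QuotientGroup.mk (Quotient.out c') : ℱ.G ⧸ ℱ.N 0) =
        QuotientGroup.mk (Quotient.out c) := QuotientGroup.eq.2 h6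
      rw [QuotientGroup.out_eq', QuotientGroup.out_eq'] at h9
      exact h9.symm
    subst hc
    have h1 := mul_right_cancel h
    rw [UQ.incl_injective ℱ j h1]
  · intro s
    obtain ⟨g, rfl⟩ := SQ.mk_surjective ℱ j s
    have h1 : g * (Quotient.out (QuotientGroup.mk g : ℱ.G ⧸ ℱ.N 0))⁻¹ ∈ ℱ.N 0 := by
      have h2 : (QuotientGroup.mk (Quotient.out (QuotientGroup.mk g : ℱ.G ⧸ ℱ.N 0)) : ℱ.G ⧸ ℱ.N 0) =
        QuotientGroup.mk g := QuotientGroup.out_eq' _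
      have h3 := QuotientGroup.eq.1 h2
      have h4 := (ℱ.normal 0).conj_mem _ h3 (Quotient.out (QuotientGroup.mk g : ℱ.G ⧸ ℱ.N 0))
      have h5 : Quotient.out (QuotientGroup.mk g : ℱ.G ⧸ ℱ.N 0) *
        ((Quotient.out (QuotientGroup.mk g : ℱ.G ⧸ ℱ.N 0))⁻¹ * g) *
          (Quotient.out (QuotientGroup.mk g : ℱ.G ⧸ ℱ.N 0))⁻¹ =
          g * (Quotient.out (QuotientGroup.mk g : ℱ.G ⧸ ℱ.N 0))⁻¹ := by group
      rwa [h5] at h4
    refine ⟨(UQ.mk ℱ j ⟨_, h1⟩, QuotientGroup.mk g), ?_⟩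
    dsimp only
    rw [UQ.incl_mk, ← map_mul]
    congr 1
    exact inv_mul_cancel_right _ _

theorem card_SQ (ℱ : Filt) (j : ℕ) :
    Fintype.card (SQ ℱ j) = Fintype.card (UQ ℱ j) * Nat.card (ℱ.G ⧸ ℱ.N 0) := by
  rw [← Nat.card_eq_fintype_card, ← Nat.card_eq_fintype_card, ← Nat.card_prod]
  exact (Nat.card_congr (Equiv.ofBijective _ (cosets_bijective ℱ j))).symm

/-- the rank over the completed group ring of a tower is the limit of the level ranks -/
theorem finrank_eq_omLim (p : ℕ) [Fact p.Prime] (𝒯 : Sys) {d : ℕ} (x : Fin d → 𝒯.G)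
    (hT : IsTower p 𝒯 d x) {m n : Type} [Fintype m] [Fintype n] (A : Matrix m n (Lam ℤ_[p] 𝒯)) :
    (Module.finrank (Lam ℤ_[p] 𝒯) (LinearMap.range (Matrix.vecMulLinear A)) : ℝ) =
      omLim fun j => ((op (A.map fun a => MonoidAlgebra.mapRingHom (𝒯.Q j)
        (PadicInt.Coe.ringHom : ℤ_[p] →+* ℚ_[p]) (a.1 j))).rank : ℝ) / Fintype.card (𝒯.Q j) := by
  have hdom : IsDomain (Lam ℤ_[p] 𝒯) := lam_isDomain p 𝒯 x hT
  have hnoeth : IsNoetherianRing (Lam ℤ_[p] 𝒯) := lam_isNoetherianRing p 𝒯 x hT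
  have hne : ∀ j, Nonempty (𝒯.Q j) := fun j => ⟨1⟩
  have hc0 : Function.Injective (PadicInt.Coe.ringHom : ℤ_[p] →+* ℚ_[p]) :=
    Subtype.val_injective
  have hrk := rk_eq_finrank (algRank ℚ_[p] 𝒯.Q)
    (lamAlg (PadicInt.Coe.ringHom : ℤ_[p] →+* ℚ_[p]) 𝒯)
    (fun a ha => isUnit_lamAlg p 𝒯 x hT _ hc0 a ha) A
  rw [← hrk]
  have hmap : A.map (lamAlg (PadicInt.Coe.ringHom : ℤ_[p] →+* ℚ_[p]) 𝒯) =
      (A.map (lamSeq (PadicInt.Coe.ringHom : ℤ_[p] →+* ℚ_[p]) 𝒯)).map (UAlg.mk ℚ_[p] 𝒯.Q) := rfl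
  rw [hmap, algRank_map]
  congr 1
  funext j
  congr 3
  ext s t
  simp only [flat, op, Matrix.of_apply, Matrix.map_apply, lamSeq_apply, reg_apply]

end RankCompare

open RankCompare in
theorem rank_compare (p : ℕ) [Fact p.Prime] (ℱ : Filt) {d : ℕ} (x : Fin d → ↥(ℱ.N 0))
    (hT : IsTower p ℱ.sysU d x) {O L : Type} [CommRing O] [Algebra ℤ_[p] O]
    [Field L] [Algebra ℚ_[p] L] (φ : O →+* L) {κ : Type} [Fintype κ] (ω : Module.Basis κ ℤ_[p] O)
    (ω' : Module.Basis κ ℚ_[p] L) (hω : ∀ i, ω' i = φ (ω i))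
    (hφ : ∀ c : ℤ_[p], φ (algebraMap ℤ_[p] O c) = algebraMap ℚ_[p] L (c : ℚ_[p]))
    {m n : Type} [Fintype m] [Fintype n] (A : Matrix m n (LamS ℱ O))
    [Module (LamU p ℱ) (LinearMap.range (Matrix.vecMulLinear A))]
    (hΛ : ∀ (a : LamU p ℱ) (v : LinearMap.range (Matrix.vecMulLinear A)),
      a • v = incS p ℱ O a • v) :
    (Module.finrank (LamU p ℱ) (LinearMap.range (Matrix.vecMulLinear A)) : ℝ) =
      nrank ℱ (fun j => A.map fun a => MonoidAlgebra.mapRingHom (SQ ℱ j) φ (LamS.lv ℱ O j a)) *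
        (Fintype.card κ * Nat.card (ℱ.G ⧸ ℱ.N 0)) := by
  classical
  have hdom : IsDomain (LamU p ℱ) := lam_isDomain p ℱ.sysU x hT
  have hnoeth : IsNoetherianRing (LamU p ℱ) := lam_isNoetherianRing p ℱ.sysU x hT
  have hfinC : Fintype (ℱ.G ⧸ ℱ.N 0) := Fintype.ofFinite _
  let instΛ : Module (LamU p ℱ) (LamS ℱ O) := Module.compHom _ (incS p ℱ O)
  have hsm : ∀ (a : LamU p ℱ) (v : LamS ℱ O), a • v = incS p ℱ O a * v := fun _ _ => rfl
  obtain ⟨b, hb⟩ := exists_lamBasis p ℱ ω hsm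
  -- the matrix over `LamU`
  set At : Matrix (m × (κ × (ℱ.G ⧸ ℱ.N 0))) (n × (κ × (ℱ.G ⧸ ℱ.N 0))) (LamU p ℱ) :=
    Matrix.of fun s t => b.repr (b s.2 * A s.1 t.1) t.2 with hAt
  -- coordinates
  let Φ : ∀ k : Type, (k → LamS ℱ O) → (k × (κ × (ℱ.G ⧸ ℱ.N 0)) → LamU p ℱ) :=
    fun k v s => b.repr (v s.1) s.2
  have hΦsurj : ∀ k, Function.Surjective (Φ k) := by
    intro k w
    refine ⟨fun i => ∑ β, w (i, β) • b β, ?_⟩
    ext1 s
    change b.repr (∑ β, w (s.1, β) • b β) s.2 = w s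
    rw [b.repr_sum_self]
  have hΦinj : ∀ k, Function.Injective (Φ k) := by
    intro k v w h
    ext1 i
    apply b.repr.injective
    ext β
    exact congrFun h (i, β)
  have hrow : ∀ (y : LamS ℱ O) i k γ,
      b.repr (y * A i k) γ = ∑ β, b.repr y β * b.repr (b β * A i k) γ := by
    intro y i k γ
    conv_lhs => rw [← b.sum_repr y, Finset.sum_mul]
    simp only [hsm, mul_assoc]
    simp only [← hsm, map_sum, map_smul, Finsupp.finsetSum_apply, Finsupp.smul_apply, smul_eq_mul]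
  have hΦmul : ∀ v, Φ n (Matrix.vecMul v A) = Matrix.vecMul (Φ m v) At := by
    intro v
    ext1 s
    change b.repr (∑ i, v i * A i s.1) s.2 = ∑ t : m × (κ × (ℱ.G ⧸ ℱ.N 0)), b.repr (v t.1) t.2 *
      b.repr (b t.2 * A t.1 s.1) s.2
    rw [Fintype.sum_prod_type, map_sum, Finsupp.finsetSum_apply]
    exact Finset.sum_congr rfl fun i _ => hrow _ _ _ _
  -- linear equivalence of the ranges
  have hequiv : Module.finrank (LamU p ℱ) (LinearMap.range (Matrix.vecMulLinear A)) =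
      Module.finrank (LamU p ℱ) (LinearMap.range (Matrix.vecMulLinear At)) := by
    let e : LinearMap.range (Matrix.vecMulLinear A) →ₗ[LamU p ℱ]
        LinearMap.range (Matrix.vecMulLinear At) :=
      { toFun := fun v => ⟨Φ n v.1, by
          obtain ⟨u, hu⟩ := v.2
          exact ⟨Φ m u, by rw [← hu]; exact (hΦmul u).symm⟩⟩
        map_add' := by
          intro v w
          apply Subtype.ext
          ext1 s
          change b.repr (v.1 s.1 + w.1 s.1) s.2 = b.repr (v.1 s.1) s.2 + b.repr (w.1 s.1) s.2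
          rw [map_add, Finsupp.add_apply]
        map_smul' := by
          intro a v
          apply Subtype.ext
          ext1 s
          change b.repr ((a • v).1 s.1) s.2 = a * b.repr (v.1 s.1) s.2
          rw [hΛ]
          change b.repr (a • v.1 s.1) s.2 = _
          rw [map_smul, Finsupp.smul_apply, smul_eq_mul] }
    refine LinearEquiv.finrank_eq (LinearEquiv.ofBijective e ⟨?_, ?_⟩)
    · intro v w h
      exact Subtype.ext (hΦinj n (congrArg Subtype.val h))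
    · rintro ⟨_, w, rfl⟩
      obtain ⟨u, rfl⟩ := hΦsurj m w
      exact ⟨⟨Matrix.vecMul u A, ⟨u, rfl⟩⟩, Subtype.ext (hΦmul u)⟩
  -- the rank function
  let c0 : ℤ_[p] →+* ℚ_[p] := PadicInt.Coe.ringHom
  have hrk : (Module.finrank (LamU p ℱ) (LinearMap.range (Matrix.vecMulLinear At)) : ℝ) =
      omLim fun j => ((op (At.map fun a => MonoidAlgebra.mapRingHom (UQ ℱ j) c0
        (LamU.lv p ℱ j a))).rank : ℝ) / Fintype.card (UQ ℱ j) :=
    finrank_eq_omLim p ℱ.sysU x hT At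
  have hlevel : ∀ j, (op (At.map fun a => MonoidAlgebra.mapRingHom (UQ ℱ j) c0
      (LamU.lv p ℱ j a))).rank = Fintype.card κ *
      (op (A.map fun a => MonoidAlgebra.mapRingHom (SQ ℱ j) φ (LamS.lv ℱ O j a))).rank := by
    intro j
    refine rank_level (r := fun c : ℱ.G ⧸ ℱ.N 0 => SQ.mk ℱ j (Quotient.out c)) ω'
      (UQ.incl_injective ℱ j) (cosets_bijective ℱ j) _ _ ?_
    intro i β k
    have h1 : ∀ γ : κ × (ℱ.G ⧸ ℱ.N 0), MonoidAlgebra.single (SQ.mk ℱ j (Quotient.out γ.2))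
        (ω' γ.1) = MonoidAlgebra.mapRingHom (SQ ℱ j) φ (LamS.lv ℱ O j (b γ)) := by
      intro γ
      rw [show b γ = b (γ.1, γ.2) from rfl, hb, map_mul, lv_ofS, lv_scS, hω]
      simp
    have h2 : ∀ a : LamU p ℱ, iot ℚ_[p] L (UQ.incl ℱ j)
        (MonoidAlgebra.mapRingHom (UQ ℱ j) c0 (LamU.lv p ℱ j a)) =
        MonoidAlgebra.mapRingHom (SQ ℱ j) φ (LamS.lv ℱ O j (incS p ℱ O a)) := by
      intro a
      have key : (MonoidAlgebra.mapRingHom (SQ ℱ j) (algebraMap ℚ_[p] L)).comp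
          ((MonoidAlgebra.mapDomainRingHom ℚ_[p] (UQ.incl ℱ j)).comp
            (MonoidAlgebra.mapRingHom (UQ ℱ j) c0)) =
          (MonoidAlgebra.mapRingHom (SQ ℱ j) φ).comp
            ((MonoidAlgebra.mapRingHom (SQ ℱ j) (algebraMap ℤ_[p] O)).comp
              (MonoidAlgebra.mapDomainRingHom ℤ_[p] (UQ.incl ℱ j))) := by
        rw [← MonoidAlgebra.mapRingHom_comp_mapDomainRingHom, ← RingHom.comp_assoc,
          ← RingHom.comp_assoc, ← MonoidAlgebra.mapRingHom_comp, ← MonoidAlgebra.mapRingHom_comp]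
        congr 2
        ext c
        exact (hφ c).symm
      exact RingHom.congr_fun key (LamU.lv p ℱ j a)
    simp only [h1, Matrix.map_apply, h2, ← map_mul, ← map_sum]
    congr 2
    conv_lhs => rw [← b.sum_repr (b β * A i k)]
    rfl
  -- conclusion
  rw [hequiv, hrk]
  unfold nrank
  have hC : (0 : ℝ) < Nat.card (ℱ.G ⧸ ℱ.N 0) := by
    exact_mod_cast Nat.card_pos
  apply omLim_eq
  have hbd : ∀ j, (0 : ℝ) ≤ ((op (A.map fun a => MonoidAlgebra.mapRingHom (SQ ℱ j) φ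
      (LamS.lv ℱ O j a))).rank : ℝ) / Fintype.card (SQ ℱ j) ∧
      ((op (A.map fun a => MonoidAlgebra.mapRingHom (SQ ℱ j) φ
      (LamS.lv ℱ O j a))).rank : ℝ) / Fintype.card (SQ ℱ j) ≤ Fintype.card m := by
    intro j
    have hpos : (0 : ℝ) < Fintype.card (SQ ℱ j) := by exact_mod_cast Fintype.card_pos
    refine ⟨by positivity, ?_⟩
    rw [div_le_iff₀ hpos]
    have := Matrix.rank_le_card_height (op (A.map fun a => MonoidAlgebra.mapRingHom (SQ ℱ j) φ
      (LamS.lv ℱ O j a)))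
    rw [Fintype.card_prod] at this
    exact_mod_cast this
  have hlim := (tendsto_omLim hbd).mul_const ((Fintype.card κ : ℝ) * Nat.card (ℱ.G ⧸ ℱ.N 0))
  refine hlim.congr fun j => ?_
  rw [hlevel j]
  have hU : (0 : ℝ) < Fintype.card (UQ ℱ j) := by exact_mod_cast Fintype.card_pos
  have hcard : (Fintype.card (SQ ℱ j) : ℝ) = Fintype.card (UQ ℱ j) * Nat.card (ℱ.G ⧸ ℱ.N 0) := by
    exact_mod_cast card_SQ ℱ j
  rw [hcard]
  push_cast
  field_simp

end Pool.Agent.H4.Atiyah
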