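import Pool.Agent.H4.Atiyah.TDefs
import Pool.Agent.H4.Atiyah.LamFacts
import Pool.Agent.H4.Atiyah.LamBasis
import Pool.Agent.H4.Atiyah.RankCompare
import Pool.Agent.H4.Atiyah.FreeRankDvd
import Pool.Agent.H4.Atiyah.DvdFinrank

/-!
# M36 : integrality over finite extensions of `ℚ_p`
-/

set_option autoImplicit false

open Filter Topology CategoryTheory
open scoped Matrix

namespace Pool.Agent.H4.Atiyah.M36

/-- The ring of integers of a finite extension of `ℚ_p`. -/
theorem exists_integral_data (p : ℕ) [Fact p.Prime] (L : Type) [Field L] [Algebra ℚ_[p] L]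
    [FiniteDimensional ℚ_[p] L] :
    ∃ (O : Type) (_ : CommRing O) (_ : IsDomain O) (_ : Algebra ℤ_[p] O)
      (_ : Module.Free ℤ_[p] O) (_ : Module.Finite ℤ_[p] O) (φ : O →+* L) (κ : Type)
      (_ : Fintype κ) (ω : Module.Basis κ ℤ_[p] O) (ω' : Module.Basis κ ℚ_[p] L),
      (∀ i, ω' i = φ (ω i)) ∧
      (∀ c : ℤ_[p], φ (algebraMap ℤ_[p] O c) = algebraMap ℚ_[p] L (c : ℚ_[p])) ∧
      ∀ s : Finset L, ∃ r : L, r ≠ 0 ∧ ∀ x ∈ s, ∃ o : O, φ o = r * x := by
  let _ : Algebra ℤ_[p] L := ((algebraMap ℚ_[p] L).comp (algebraMap ℤ_[p] ℚ_[p])).toAlgebra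
  have : IsScalarTower ℤ_[p] ℚ_[p] L := IsScalarTower.of_algebraMap_eq (fun _ => rfl)
  have : Algebra.IsSeparable ℚ_[p] L := inferInstance
  have hfin : Module.Finite ℤ_[p] (integralClosure ℤ_[p] L) :=
    IsIntegralClosure.finite ℤ_[p] ℚ_[p] L (integralClosure ℤ_[p] L)
  have : Module.IsTorsionFree ℤ_[p] L := .trans_faithfulSMul ℤ_[p] ℚ_[p] L
  have hfree : Module.Free ℤ_[p] (integralClosure ℤ_[p] L) :=
    IsIntegralClosure.module_free ℤ_[p] ℚ_[p] L (integralClosure ℤ_[p] L)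
  have : IsLocalization (Algebra.algebraMapSubmonoid (integralClosure ℤ_[p] L)
      (nonZeroDivisors ℤ_[p])) L :=
    IsIntegralClosure.isLocalization ℤ_[p] ℚ_[p] L (integralClosure ℤ_[p] L)
  refine ⟨integralClosure ℤ_[p] L, inferInstance, inferInstance, inferInstance, hfree, hfin,
    algebraMap _ L, Module.Free.ChooseBasisIndex ℤ_[p] (integralClosure ℤ_[p] L), inferInstance,
    Module.Free.chooseBasis ℤ_[p] (integralClosure ℤ_[p] L),
    Module.Basis.localizationLocalization ℚ_[p] (nonZeroDivisors ℤ_[p]) L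
      (Module.Free.chooseBasis ℤ_[p] (integralClosure ℤ_[p] L)), ?_, ?_, ?_⟩
  · intro i
    rw [Module.Basis.localizationLocalization_apply]
  · intro c
    rfl
  · intro s
    obtain ⟨y, hy, hs⟩ := exists_integral_multiples ℤ_[p] ℚ_[p] s
    refine ⟨algebraMap ℤ_[p] L y, ?_, ?_⟩
    · rw [Ne, FaithfulSMul.algebraMap_eq_zero_iff]
      exact hy
    · intro x hx
      exact ⟨⟨y • x, hs x hx⟩, Algebra.smul_def y x⟩

/-- Clearing denominators in a matrix over a group algebra. -/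
theorem exists_lift {O L G : Type} [CommRing O] [Field L] [Group G] (φ : O →+* L)
    (h : ∀ s : Finset L, ∃ r : L, r ≠ 0 ∧ ∀ x ∈ s, ∃ o : O, φ o = r * x)
    {k n : Type} [Fintype k] [Fintype n] (A : Matrix k n (MonoidAlgebra L G)) :
    ∃ (r : L) (A' : Matrix k n (MonoidAlgebra O G)), r ≠ 0 ∧
      ∀ i j, MonoidAlgebra.mapRingHom G φ (A' i j) = r • A i j := by
  classical
  obtain ⟨r, hr, hs⟩ := h (Finset.univ.biUnion fun ij : k × n =>
    (A ij.1 ij.2).coeff.support.image (A ij.1 ij.2).coeff)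
  choose! c hc using hs
  let c' : L → O := fun x => if x = 0 then 0 else c x
  have hc'0 : c' 0 = 0 := by simp [c']
  refine ⟨r, Matrix.of fun i j => MonoidAlgebra.ofCoeff ((A i j).coeff.mapRange c' hc'0), hr, ?_⟩
  intro i j
  apply MonoidAlgebra.ext
  apply Finsupp.ext
  intro g
  rw [MonoidAlgebra.coeff_mapRingHom, MonoidAlgebra.coeff_smul, Finsupp.smul_apply,
    Matrix.of_apply, MonoidAlgebra.coeff_ofCoeff, Finsupp.mapRange_apply, smul_eq_mul]
  by_cases h0 : (A i j).coeff g = 0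
  · rw [h0, hc'0, map_zero, mul_zero]
  · have : c' ((A i j).coeff g) = c ((A i j).coeff g) := by simp [c', h0]
    rw [this]
    apply hc
    rw [Finset.mem_biUnion]
    refine ⟨(i, j), Finset.mem_univ _, ?_⟩
    rw [Finset.mem_image]
    exact ⟨g, Finsupp.mem_support_iff.mpr h0, rfl⟩

end Pool.Agent.H4.Atiyah.M36

namespace Pool.Agent.H4.Atiyah

theorem padic_integrality (p m : ℕ) [Fact p.Prime] (ℱ : Filt) {d : ℕ} (x : Fin d → ↥(ℱ.N 0))
    (hT : IsTower p ℱ.sysU d x) (hp : ∀ j, IsPGroup p (SQ ℱ j))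
    (ρ : ℱ.G →* Matrix.GeneralLinearGroup (Fin m) ℤ_[p])
    (hρ : ∀ j g, g ∈ ℱ.N j ↔ ρ g ∈ (glFilt p m).N j)
    (L : Type) [Field L] [Algebra ℚ_[p] L] [FiniteDimensional ℚ_[p] L]
    {k n : Type} [Fintype k] [Fintype n] (A : Matrix k n (MonoidAlgebra L ℱ.G)) :
    ∃ z : ℤ, nrank ℱ (fun j => A.map (MonoidAlgebra.mapDomainRingHom L (SQ.mk ℱ j))) *
      ((p ^ (m / (p - 1)) * (m / (p - 1)).factorial : ℕ) : ℝ) = z := by
  classical
  obtain ⟨O, _, _, _, _, _, φ, κ, _, ω, ω', hω, hφ, hs⟩ := M36.exists_integral_data p L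
  obtain ⟨r, A', hr, hA'⟩ := M36.exists_lift φ hs A
  -- the Iwasawa algebra of `U`
  have hdom : IsDomain (LamU p ℱ) := lam_isDomain p ℱ.sysU x hT
  have hnoe : IsNoetherianRing (LamU p ℱ) := lam_isNoetherianRing p ℱ.sysU x hT
  let instS : Module (LamU p ℱ) (LamS ℱ O) := Module.compHom (LamS ℱ O) (incS p ℱ O)
  have hS : ∀ (a : LamU p ℱ) (v : LamS ℱ O), a • v = incS p ℱ O a * v := fun _ _ => rfl
  obtain ⟨bS, hbS⟩ := exists_lamBasis p ℱ ω hS
  have : Finite (ℱ.G ⧸ ℱ.N 0) := inferInstance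
  have hfreeS : Module.Free (LamU p ℱ) (LamS ℱ O) := Module.Free.of_basis bS
  have hfinS : Module.Finite (LamU p ℱ) (LamS ℱ O) := Module.Finite.of_basis bS
  have hrankS : Module.finrank (LamU p ℱ) (LamS ℱ O) =
      Fintype.card κ * Nat.card (ℱ.G ⧸ ℱ.N 0) := by
    rw [Module.finrank_eq_nat_card_basis bS, Nat.card_prod, Nat.card_eq_fintype_card]
  have hrankO : Module.finrank ℤ_[p] O = Fintype.card κ := Module.finrank_eq_card_basis ω
  -- the module
  let B : Matrix k n (LamS ℱ O) := A'.map (toLam O ℱ.sys)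
  let instM : Module (LamU p ℱ) (LinearMap.range (Matrix.vecMulLinear B)) :=
    Module.compHom _ (incS p ℱ O)
  have hM : ∀ (a : LamU p ℱ) (v : LinearMap.range (Matrix.vecMulLinear B)),
      a • v = incS p ℱ O a • v := fun _ _ => rfl
  have hfinM : Module.Finite (LamS ℱ O) (LinearMap.range (Matrix.vecMulLinear B)) :=
    inferInstance
  have hfreeP : ∀ (M : Type) [AddCommGroup M] [Module (LamU p ℱ) M] [Module.Finite (LamU p ℱ) M]
      [Module.Projective (LamU p ℱ) M], Module.Free (LamU p ℱ) M := by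
    intro M i1 i2 i3 i4
    exact @lam_free_of_projective p _ ℱ.sysU d x hT M i1 i2 i3 i4
  have hpdP : ∀ (M : Type) [AddCommGroup M] [Module (LamU p ℱ) M]
      [Module.Finite (LamU p ℱ) M],
      HasProjectiveDimensionLT (ModuleCat.of (LamU p ℱ) M) (d + 1 + 1) := by
    intro M i1 i2 i3
    exact @lam_hasProjectiveDimensionLT p _ ℱ.sysU d x hT M i1 i2 i3
  have hdvd := dvd_finrank (incS p ℱ O) hS hfreeP (d + 1) hpdP
    (p ^ (m / (p - 1)) * (m / (p - 1)).factorial)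
    (by
      intro Z _ _ _ hΛ hF hFin
      have hw := free_rank_dvd p m ℱ hp ρ hρ (O := O) Z hΛ
        (Module.finBasis (LamU p ℱ) Z)
      rw [hrankO, ← hrankS] at hw
      exact hw)
    (LinearMap.range (Matrix.vecMulLinear B)) hM
  have hcomp := rank_compare p ℱ x hT φ ω ω' hω hφ B hM
  have hnr : nrank ℱ (fun j => B.map fun a => MonoidAlgebra.mapRingHom (SQ ℱ j) φ
      (LamS.lv ℱ O j a)) =
      nrank ℱ (fun j => A.map (MonoidAlgebra.mapDomainRingHom L (SQ.mk ℱ j))) := by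
    unfold nrank
    congr 1
    funext j
    have h1 : op (B.map fun a => MonoidAlgebra.mapRingHom (SQ ℱ j) φ (LamS.lv ℱ O j a)) =
        r • op (A.map (MonoidAlgebra.mapDomainRingHom L (SQ.mk ℱ j))) := by
      ext x y
      rw [Matrix.smul_apply]
      simp only [op, Matrix.of_apply, Matrix.map_apply]
      have h2 : MonoidAlgebra.mapRingHom (SQ ℱ j) φ (LamS.lv ℱ O j (B x.1 y.1)) =
          r • MonoidAlgebra.mapDomainRingHom L (SQ.mk ℱ j) (A x.1 y.1) := by
        have h3 : LamS.lv ℱ O j (B x.1 y.1) =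
            MonoidAlgebra.mapDomainRingHom O (SQ.mk ℱ j) (A' x.1 y.1) := rfl
        rw [h3, ← RingHom.comp_apply, MonoidAlgebra.mapRingHom_comp_mapDomainRingHom,
          RingHom.comp_apply, hA']
        exact MonoidAlgebra.mapDomain_smul _ _ _
      rw [h2]
      rfl
    rw [h1, Matrix.rank_smul_of_mem_nonZeroDivisors _ (mem_nonZeroDivisors_of_ne_zero hr)]
  rw [hnr] at hcomp
  obtain ⟨e, he⟩ := hdvd
  have hpos : (0 : ℝ) < (Fintype.card κ * Nat.card (ℱ.G ⧸ ℱ.N 0) : ℝ) := by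
    have h1 : 0 < Fintype.card κ := by
      rw [Fintype.card_pos_iff]
      by_contra hcon
      rw [not_nonempty_iff] at hcon
      have : Module.finrank ℚ_[p] L = 0 := by
        rw [Module.finrank_eq_card_basis ω', Fintype.card_eq_zero]
      exact (Module.finrank_pos (R := ℚ_[p]) (M := L)).ne' this
    have h2 : 0 < Nat.card (ℱ.G ⧸ ℱ.N 0) := Nat.card_pos
    positivity
  refine ⟨(e : ℤ), ?_⟩
  rw [hrankS] at he
  have he' : (Module.finrank (LamU p ℱ) (LinearMap.range (Matrix.vecMulLinear B)) : ℝ) *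
      ((p ^ (m / (p - 1)) * (m / (p - 1)).factorial : ℕ) : ℝ) =
      (Fintype.card κ * Nat.card (ℱ.G ⧸ ℱ.N 0) : ℝ) * e := by
    exact_mod_cast he
  rw [hcomp] at he'
  have : (Fintype.card κ * Nat.card (ℱ.G ⧸ ℱ.N 0) : ℝ) *
      (nrank ℱ (fun j => A.map (MonoidAlgebra.mapDomainRingHom L (SQ.mk ℱ j))) *
      ((p ^ (m / (p - 1)) * (m / (p - 1)).factorial : ℕ) : ℝ)) =
      (Fintype.card κ * Nat.card (ℱ.G ⧸ ℱ.N 0) : ℝ) * e := by
    rw [← he']; ring
  rw [mul_left_cancel₀ hpos.ne' this]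
  norm_cast

end Pool.Agent.H4.Atiyah
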