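import Pool.Agent.H4.Atiyah.TDefs

/-!
# M32 : comparison of ranks, one level
-/

set_option autoImplicit false

open Filter Topology

namespace Pool.Agent.H4.Atiyah

namespace RankCompare

/-! ### the rank of `op A` as the dimension of the image of right multiplication -/

section OpRank

variable {F Q m n : Type} [Field F] [Group Q] [Fintype Q] [Fintype m] [Fintype n]

/-- coefficients of a vector -/
noncomputable def coeffs (F Q m : Type) [Field F] [Group Q] [Fintype Q] :
    (m → MonoidAlgebra F Q) ≃ₗ[F] (m × Q → F) :=
  LinearEquiv.ofBijective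
    { toFun := fun v x => (v x.1).coeff x.2
      map_add' := fun v w => by ext x; simp
      map_smul' := fun a v => by ext x; simp } (by
    constructor
    · intro v w h
      ext i q
      exact congrFun h (i, q)
    · intro w
      refine ⟨fun i => MonoidAlgebra.ofCoeff (Finsupp.equivFunOnFinite.symm fun q => w (i, q)), ?_⟩
      ext x
      simp)

theorem coeffs_apply (v : m → MonoidAlgebra F Q) (x : m × Q) :
    coeffs F Q m v x = (v x.1).coeff x.2 := rfl

/-- right multiplication by `A` as an `F`-linear map -/
noncomputable def mulF (A : Matrix m n (MonoidAlgebra F Q)) :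
    (m → MonoidAlgebra F Q) →ₗ[F] (n → MonoidAlgebra F Q) where
  toFun v := Matrix.vecMul v A
  map_add' v w := Matrix.add_vecMul A v w
  map_smul' a v := by
    ext1 k
    simp [Matrix.vecMul, dotProduct, Finset.smul_sum]

theorem mulF_apply (A : Matrix m n (MonoidAlgebra F Q)) (v : m → MonoidAlgebra F Q) :
    mulF A v = Matrix.vecMul v A := rfl

theorem coeffs_vecMul (A : Matrix m n (MonoidAlgebra F Q)) (v : m → MonoidAlgebra F Q) :
    coeffs F Q n (Matrix.vecMul v A) = Matrix.vecMul (coeffs F Q m v) (op A) := by
  ext ⟨k, h⟩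
  rw [coeffs_apply]
  simp only [Matrix.vecMul, dotProduct, MonoidAlgebra.coeff_sum, Finsupp.coe_finsetSum,
    Finset.sum_apply, Fintype.sum_prod_type, coeffs_apply, op, Matrix.of_apply]
  refine Finset.sum_congr rfl fun i _ => ?_
  rw [MonoidAlgebra.coeff_mul_apply_left, Finsupp.sum_fintype _ _ (by simp)]

theorem rank_op (A : Matrix m n (MonoidAlgebra F Q)) :
    (op A).rank = Module.finrank F (LinearMap.range (mulF A)) := by
  rw [← Matrix.rank_transpose, Matrix.rank]
  have h1 : LinearMap.range (op A).transpose.mulVecLin =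
      (LinearMap.range (mulF A)).map (coeffs F Q n).toLinearMap := by
    ext y
    simp only [LinearMap.mem_range, Submodule.mem_map]
    constructor
    · rintro ⟨x, rfl⟩
      obtain ⟨v, rfl⟩ := (coeffs F Q m).surjective x
      refine ⟨Matrix.vecMul v A, ⟨v, rfl⟩, ?_⟩
      rw [LinearEquiv.coe_coe, coeffs_vecMul, Matrix.mulVecLin_apply, Matrix.mulVec_transpose]
    · rintro ⟨_, ⟨v, rfl⟩, rfl⟩
      refine ⟨coeffs F Q m v, ?_⟩
      rw [LinearEquiv.coe_coe, mulF_apply, coeffs_vecMul, Matrix.mulVecLin_apply,
        Matrix.mulVec_transpose]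
  rw [h1]
  exact LinearEquiv.finrank_map_eq (coeffs F Q n) _

end OpRank

/-! ### restriction of scalars and of groups -/

section Level

variable {K L : Type} [Field K] [Field L] [Algebra K L] {κ C U S : Type} [Fintype κ] [Fintype C]
  [Group U] [Group S] [Fintype U] [Fintype S]

/-- `K[U] → L[S]` -/
noncomputable def iot (K L : Type) [Field K] [Field L] [Algebra K L] {U S : Type}
    [Group U] [Group S] (incl : U →* S) : MonoidAlgebra K U →+* MonoidAlgebra L S :=
  (MonoidAlgebra.mapRingHom S (algebraMap K L)).comp (MonoidAlgebra.mapDomainRingHom K incl)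

theorem iot_coeff_incl (incl : U →* S) (hincl : Function.Injective incl)
    (w : MonoidAlgebra K U) (u : U) :
    (iot K L incl w).coeff (incl u) = algebraMap K L (w.coeff u) := by
  have h1 : (MonoidAlgebra.mapDomainRingHom K incl w).coeff (incl u) = w.coeff u :=
    Finsupp.mapDomain_apply hincl _ _
  rw [iot, RingHom.comp_apply, MonoidAlgebra.coeff_mapRingHom, h1]

theorem iot_coeff_of_notMem (incl : U →* S) (w : MonoidAlgebra K U) (s : S)
    (hs : s ∉ Set.range incl) : (iot K L incl w).coeff s = 0 := by
  have h1 : (MonoidAlgebra.mapDomainRingHom K incl w).coeff s = 0 :=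
    Finsupp.mapDomain_of_notMem_range _ _ hs
  rw [iot, RingHom.comp_apply, MonoidAlgebra.coeff_mapRingHom, h1, map_zero]

theorem iot_smul (incl : U →* S) (a : K) (w : MonoidAlgebra K U) :
    iot K L incl (a • w) = a • iot K L incl w := by
  have h1 : MonoidAlgebra.mapDomainRingHom K incl (a • w) =
      a • MonoidAlgebra.mapDomainRingHom K incl w := by
    ext s
    exact DFunLike.congr_fun (Finsupp.mapDomain_smul (f := incl) a w.coeff) s
  rw [iot, RingHom.comp_apply, RingHom.comp_apply, h1]
  ext s
  rw [MonoidAlgebra.coeff_mapRingHom, MonoidAlgebra.coeff_smul, MonoidAlgebra.coeff_smul,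
    Finsupp.smul_apply, Finsupp.smul_apply, MonoidAlgebra.coeff_mapRingHom, smul_eq_mul, map_mul,
    Algebra.smul_def]

variable (ω : Module.Basis κ K L) (incl : U →* S) (r : C → S)

/-- the coordinates -/
noncomputable def psiMap : (κ × C → MonoidAlgebra K U) →ₗ[K] MonoidAlgebra L S where
  toFun w := ∑ β, iot K L incl (w β) * MonoidAlgebra.single (r β.2) (ω β.1)
  map_add' v w := by
    simp only [Pi.add_apply, map_add, add_mul, Finset.sum_add_distrib]
  map_smul' a v := by
    simp only [Pi.smul_apply, iot_smul, RingHom.id_apply, Finset.smul_sum, smul_mul_assoc]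

theorem psiMap_apply (w : κ × C → MonoidAlgebra K U) :
    psiMap ω incl r w = ∑ β, iot K L incl (w β) * MonoidAlgebra.single (r β.2) (ω β.1) := rfl

variable {incl r}

theorem psiMap_coeff (hincl : Function.Injective incl)
    (he : Function.Bijective fun x : U × C => incl x.1 * r x.2)
    (w : κ × C → MonoidAlgebra K U) (u : U) (c : C) :
    (psiMap ω incl r w).coeff (incl u * r c) = ∑ i, (w (i, c)).coeff u • ω i := by
  classical
  rw [psiMap_apply, MonoidAlgebra.coeff_sum, Finsupp.finsetSum_apply, Fintype.sum_prod_type]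
  refine Finset.sum_congr rfl fun i _ => ?_
  rw [Finset.sum_eq_single c]
  · rw [MonoidAlgebra.coeff_mul_single_apply, mul_inv_cancel_right, iot_coeff_incl incl hincl,
      Algebra.smul_def]
  · intro c' _ hc'
    rw [MonoidAlgebra.coeff_mul_single_apply, iot_coeff_of_notMem, zero_mul]
    rintro ⟨u', hu'⟩
    apply hc'
    have h1 : incl u' * r c' = incl u * r c := by
      rw [hu', inv_mul_cancel_right]
    have h2 := he.1 (a₁ := (u', c')) (a₂ := (u, c)) h1
    exact (Prod.ext_iff.1 h2).2
  · simp

theorem psiMap_bijective (hincl : Function.Injective incl)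
    (he : Function.Bijective fun x : U × C => incl x.1 * r x.2) :
    Function.Bijective (psiMap ω incl r) := by
  constructor
  · rw [injective_iff_map_eq_zero]
    intro w hw
    ext ⟨i, c⟩ u
    have h1 := psiMap_coeff ω hincl he w u c
    rw [hw] at h1
    have h2 := Fintype.linearIndependent_iff.1 ω.linearIndependent
      (fun i => (w (i, c)).coeff u) (by rw [← h1]; simp) i
    simpa using h2
  · intro f
    refine ⟨fun β => MonoidAlgebra.ofCoeff (Finsupp.equivFunOnFinite.symm fun u =>
      ω.repr (f.coeff (incl u * r β.2)) β.1), ?_⟩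
    ext s
    obtain ⟨⟨u, c⟩, hs⟩ := he.2 s
    dsimp only at hs
    rw [← hs, psiMap_coeff ω hincl he]
    simp only [Finsupp.equivFunOnFinite_symm_apply_apply]
    exact ω.sum_repr _

variable {m n : Type} [Fintype m] [Fintype n]

/-- the coordinates of vectors -/
noncomputable def PsiMap (ω : Module.Basis κ K L) (incl : U →* S) (r : C → S) (m : Type) :
    (m × (κ × C) → MonoidAlgebra K U) →ₗ[K] (m → MonoidAlgebra L S) where
  toFun w i := psiMap ω incl r fun β => w (i, β)
  map_add' v w := by
    ext1 i
    exact map_add (psiMap ω incl r) (fun β => v (i, β)) (fun β => w (i, β))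
  map_smul' a v := by
    ext1 i
    exact map_smul (psiMap ω incl r) a (fun β => v (i, β))

theorem PsiMap_bijective (hincl : Function.Injective incl)
    (he : Function.Bijective fun x : U × C => incl x.1 * r x.2) :
    Function.Bijective (PsiMap ω incl r m) := by
  have hb := psiMap_bijective ω hincl he
  constructor
  · rw [injective_iff_map_eq_zero]
    intro w hw
    funext x
    have h1 : psiMap ω incl r (fun β => w (x.1, β)) = 0 := congrFun hw x.1
    have h2 := (injective_iff_map_eq_zero _).1 hb.1 _ h1
    exact congrFun h2 x.2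
  · intro v
    choose w hw using fun i => hb.2 (v i)
    exact ⟨fun x => w x.1 x.2, funext hw⟩

theorem rank_level (hincl : Function.Injective incl)
    (he : Function.Bijective fun x : U × C => incl x.1 * r x.2)
    (A : Matrix m n (MonoidAlgebra L S))
    (B : Matrix (m × (κ × C)) (n × (κ × C)) (MonoidAlgebra K U))
    (hAB : ∀ i β k, MonoidAlgebra.single (r β.2) (ω β.1) * A i k =
      ∑ γ, iot K L incl (B (i, β) (k, γ)) * MonoidAlgebra.single (r γ.2) (ω γ.1)) :
    (op B).rank = Fintype.card κ * (op A).rank := by
  have hcomm : ∀ w, PsiMap ω incl r n (Matrix.vecMul w B) =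
      Matrix.vecMul (PsiMap ω incl r m w) A := by
    intro w
    ext1 k
    change psiMap ω incl r (fun γ => Matrix.vecMul w B (k, γ)) =
      ∑ i, psiMap ω incl r (fun β => w (i, β)) * A i k
    simp only [psiMap_apply, Matrix.vecMul, dotProduct, map_sum, map_mul, Finset.sum_mul,
      Fintype.sum_prod_type (f := fun x : m × (κ × C) => _)]
    rw [Finset.sum_comm]
    refine Finset.sum_congr rfl fun i _ => ?_
    rw [Finset.sum_comm]
    refine Finset.sum_congr rfl fun β _ => ?_
    rw [mul_assoc, hAB, Finset.mul_sum]
    exact Finset.sum_congr rfl fun γ _ => by rw [mul_assoc]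
  have hm := PsiMap_bijective (m := m) ω hincl he
  have hn := PsiMap_bijective (m := n) ω hincl he
  have h1 : Module.finrank K (LinearMap.range (mulF B)) =
      Module.finrank K (LinearMap.range (mulF A)) := by
    have h2 : (LinearMap.range (mulF B)).map (PsiMap ω incl r n) =
        (LinearMap.range (mulF A)).restrictScalars K := by
      ext y
      simp only [Submodule.mem_map, LinearMap.mem_range, Submodule.restrictScalars_mem]
      constructor
      · rintro ⟨_, ⟨w, rfl⟩, rfl⟩
        exact ⟨PsiMap ω incl r m w, (hcomm w).symm⟩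
      · rintro ⟨v, rfl⟩
        obtain ⟨w, rfl⟩ := hm.2 v
        exact ⟨Matrix.vecMul w B, ⟨w, rfl⟩, hcomm w⟩
    have h3 := LinearEquiv.finrank_eq (Submodule.equivMapOfInjective (PsiMap ω incl r n) hn.1
      (LinearMap.range (mulF B)))
    rw [h3, h2]
    rfl
  rw [rank_op, rank_op, h1, ← Module.finrank_mul_finrank K L, Module.finrank_eq_card_basis ω]

end Level

end RankCompare

end Pool.Agent.H4.Atiyah
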