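import Pool.Agent.H4.Atiyah.TDefs

/-!
# M38 : a Sylow subgroup of `GL_m(ℤ_p)`, and separation of the integral points
-/

set_option autoImplicit false

open Filter Topology

namespace Pool.Agent.H4.Atiyah

namespace SylowAux

/-- all entries of `M` are divisible by `p^a` -/
def Dv (p : ℕ) [Fact p.Prime] {m : ℕ} (a : ℕ) (M : Matrix (Fin m) (Fin m) ℤ_[p]) : Prop :=
  ∀ x y, (p : ℤ_[p]) ^ a ∣ M x y

variable {p m : ℕ} [Fact p.Prime]

theorem Dv.mul {a b : ℕ} {M N : Matrix (Fin m) (Fin m) ℤ_[p]} (hM : Dv p a M) (hN : Dv p b N) :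
    Dv p (a + b) (M * N) := by
  intro x y
  rw [Matrix.mul_apply]
  refine Finset.dvd_sum fun i _ => ?_
  rw [pow_add]
  exact mul_dvd_mul (hM x i) (hN i y)

theorem Dv.add {a : ℕ} {M N : Matrix (Fin m) (Fin m) ℤ_[p]} (hM : Dv p a M) (hN : Dv p a N) :
    Dv p a (M + N) := by
  intro x y
  rw [Matrix.add_apply]
  exact dvd_add (hM x y) (hN x y)

theorem Dv.sum {a : ℕ} {ι : Type*} (s : Finset ι) {M : ι → Matrix (Fin m) (Fin m) ℤ_[p]}
    (hM : ∀ i ∈ s, Dv p a (M i)) : Dv p a (∑ i ∈ s, M i) := by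
  intro x y
  rw [Matrix.sum_apply]
  exact Finset.dvd_sum fun i hi => hM i hi x y

theorem dv_zero (M : Matrix (Fin m) (Fin m) ℤ_[p]) : Dv p 0 M := by
  intro x y
  rw [pow_zero]
  exact one_dvd _

theorem Dv.mono {a b : ℕ} (h : a ≤ b) {M : Matrix (Fin m) (Fin m) ℤ_[p]} (hM : Dv p b M) :
    Dv p a M := fun x y => (pow_dvd_pow _ h).trans (hM x y)

theorem Dv.pow_sub_one {g : Matrix (Fin m) (Fin m) ℤ_[p]} {a : ℕ} (hg : Dv p a (g - 1)) (k : ℕ) :
    Dv p a (g ^ k - 1) := by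
  rw [← geom_sum_mul]
  have := (dv_zero (∑ i ∈ Finset.range k, g ^ i)).mul hg
  rwa [zero_add] at this

theorem Dv.geom {g : Matrix (Fin m) (Fin m) ℤ_[p]} (hg : Dv p 1 (g - 1)) :
    Dv p 1 (∑ i ∈ Finset.range p, g ^ i) := by
  have h : ∑ i ∈ Finset.range p, g ^ i = ∑ i ∈ Finset.range p, (g ^ i - 1) + (p : Matrix (Fin m) (Fin m) ℤ_[p]) := by
    rw [Finset.sum_sub_distrib]
    simp
  rw [h]
  refine (Dv.sum _ fun i _ => hg.pow_sub_one i).add ?_
  intro x y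
  rw [pow_one, Matrix.natCast_apply]
  split_ifs
  · exact dvd_rfl
  · exact dvd_zero _

theorem pow_mem {i : ℕ} {g : Matrix.GeneralLinearGroup (Fin m) ℤ_[p]}
    (hg : g ∈ (glFilt p m).N i) : g ^ p ∈ (glFilt p m).N (i + 1) := by
  rw [mem_glFilt] at hg ⊢
  have h1 : Dv p (2 + i) (g.1 - 1) := hg
  have h2 : (g ^ p : Matrix.GeneralLinearGroup (Fin m) ℤ_[p]).1 = g.1 ^ p := Units.val_pow_eq_pow_val g p
  have h3 : Dv p (1 + (2 + i)) (g.1 ^ p - 1) := by
    rw [← geom_sum_mul]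
    exact (Dv.geom (h1.mono (by omega))).mul h1
  intro a b
  have h4 := h3 a b
  have h5 : 1 + (2 + i) = 2 + (i + 1) := by omega
  rw [h5] at h4
  rw [h2]
  exact h4

theorem pow_pow_mem {g : Matrix.GeneralLinearGroup (Fin m) ℤ_[p]}
    (hg : g ∈ (glFilt p m).N 0) (i : ℕ) : g ^ p ^ i ∈ (glFilt p m).N i := by
  induction i with
  | zero => simpa using hg
  | succ i ih =>
    rw [pow_succ, pow_mul]
    exact pow_mem ih

end SylowAux

open SylowAux

theorem exists_sylow_filt (p m : ℕ) [Fact p.Prime] :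
    ∃ S : Subgroup (Matrix.GeneralLinearGroup (Fin m) ℤ_[p]), (glFilt p m).N 0 ≤ S ∧
      ¬ p ∣ S.index ∧ S.FiniteIndex ∧ ∀ j, IsPGroup p (SQ ((glFilt p m).restrict S) j) := by
  classical
  let N : Subgroup (Matrix.GeneralLinearGroup (Fin m) ℤ_[p]) := (glFilt p m).N 0
  have hN : N.Normal := (glFilt p m).normal 0
  have hF : N.FiniteIndex := (glFilt p m).fin 0
  have : Finite (Matrix.GeneralLinearGroup (Fin m) ℤ_[p] ⧸ N) := inferInstance
  obtain ⟨P⟩ : Nonempty (Sylow p (Matrix.GeneralLinearGroup (Fin m) ℤ_[p] ⧸ N)) := inferInstance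
  have hidx : ((P : Subgroup (Matrix.GeneralLinearGroup (Fin m) ℤ_[p] ⧸ N)).comap
      (QuotientGroup.mk' N)).index =
      (P : Subgroup (Matrix.GeneralLinearGroup (Fin m) ℤ_[p] ⧸ N)).index :=
    Subgroup.index_comap_of_surjective _ (QuotientGroup.mk'_surjective N)
  have hnd : ¬ p ∣ (P : Subgroup (Matrix.GeneralLinearGroup (Fin m) ℤ_[p] ⧸ N)).index :=
    P.not_dvd_index
  refine ⟨(P : Subgroup (Matrix.GeneralLinearGroup (Fin m) ℤ_[p] ⧸ N)).comap
    (QuotientGroup.mk' N), ?_, ?_, ?_, ?_⟩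
  · intro x hx
    rw [Subgroup.mem_comap]
    have h1 : QuotientGroup.mk' N x = 1 := (QuotientGroup.eq_one_iff (N := N) x).2 hx
    rw [h1]
    exact one_mem _
  · rw [hidx]
    exact hnd
  · refine ⟨?_⟩
    rw [hidx]
    intro h0
    exact hnd (h0 ▸ dvd_zero p)
  · intro j q
    obtain ⟨s, rfl⟩ := SQ.mk_surjective _ j q
    have hs : QuotientGroup.mk' N (s : Matrix.GeneralLinearGroup (Fin m) ℤ_[p]) ∈
        (P : Subgroup (Matrix.GeneralLinearGroup (Fin m) ℤ_[p] ⧸ N)) := s.2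
    obtain ⟨k, hk⟩ := P.isPGroup' ⟨_, hs⟩
    have hk1 : QuotientGroup.mk' N ((s : Matrix.GeneralLinearGroup (Fin m) ℤ_[p]) ^ p ^ k) = 1 := by
      rw [map_pow]
      have := congrArg Subtype.val hk
      simpa using this
    have hk2 : (s : Matrix.GeneralLinearGroup (Fin m) ℤ_[p]) ^ p ^ k ∈ (glFilt p m).N 0 :=
      (QuotientGroup.eq_one_iff (N := N) _).1 hk1
    have hk3 := pow_pow_mem hk2 j
    refine ⟨k + j, ?_⟩
    rw [← map_pow, SQ.mk_eq_one]
    change ((s ^ p ^ (k + j) : _) : Matrix.GeneralLinearGroup (Fin m) ℤ_[p]) ∈ (glFilt p m).N j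
    rw [Subgroup.coe_pow, pow_add, pow_mul]
    exact hk3

theorem gl_separates (p m : ℕ) [Fact p.Prime] (g : Matrix.GeneralLinearGroup (Fin m) ℤ)
    (hg : g ≠ 1) : ∀ᶠ j in atTop,
      SQ.mk (glFilt p m) j (Matrix.GeneralLinearGroup.map (Int.castRingHom ℤ_[p]) g) ≠ 1 := by
  have h1 : ∃ a b, (g.1 - 1 : Matrix (Fin m) (Fin m) ℤ) a b ≠ 0 := by
    by_contra hcon
    push Not at hcon
    refine hg (Units.ext ?_)
    ext a b
    have := hcon a b
    rw [Matrix.sub_apply, sub_eq_zero] at this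
    exact this
  obtain ⟨a, b, hab⟩ := h1
  filter_upwards [eventually_ge_atTop ((g.1 - 1 : Matrix (Fin m) (Fin m) ℤ) a b).natAbs] with j hj
  intro hcon
  rw [SQ.mk_eq_one] at hcon
  have h2 := mem_glFilt.1 hcon a b
  have h3 : ((Matrix.GeneralLinearGroup.map (Int.castRingHom ℤ_[p]) g).1 - 1 :
      Matrix (Fin m) (Fin m) ℤ_[p]) a b =
      (((g.1 - 1 : Matrix (Fin m) (Fin m) ℤ) a b : ℤ) : ℤ_[p]) := by
    rw [Matrix.sub_apply, Matrix.sub_apply, Int.cast_sub, Matrix.one_apply, Matrix.one_apply,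
      Int.cast_ite, Int.cast_one, Int.cast_zero]
    rfl
  rw [h3, PadicInt.pow_p_dvd_int_iff] at h2
  have h4 := Int.natAbs_dvd_natAbs.2 h2
  have h5 := Nat.le_of_dvd (Int.natAbs_pos.2 hab) h4
  rw [Int.natAbs_pow, Int.natAbs_natCast] at h5
  have h6 : 2 + j < p ^ (2 + j) := Nat.lt_pow_self (Fact.out : p.Prime).one_lt
  omega

end Pool.Agent.H4.Atiyah
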