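import Pool.Agent.H4.Atiyah.Filt

/-!
# Notation for the torsion part

`S = ℱ.G`, `U = ℱ.N 0`.  `SQ ℱ j = S/N_j`, `UQ ℱ j = U/N_j`, `LamS ℱ O = O[[S]]`, `LamU p ℱ = ℤ_p[[U]]`.
The types are semireducible definitions with explicit instances, so that instance search is cheap;
they are definitionally equal to the corresponding objects of `ℱ.sys` and
`(ℱ.restrict (ℱ.N 0)).sys`.
-/

set_option autoImplicit false

open Filter Topology

namespace Pool.Agent.H4.Atiyah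

/-- The system of the subgroup `U = N 0`. -/
noncomputable abbrev Filt.sysU (ℱ : Filt) : Sys := (ℱ.restrict (ℱ.N 0)).sys

/-- `S / N_j` -/
def SQ (ℱ : Filt) (j : ℕ) : Type := ℱ.sys.Q j

/-- `U / N_j` -/
def UQ (ℱ : Filt) (j : ℕ) : Type := ℱ.sysU.Q j

noncomputable instance (ℱ : Filt) (j : ℕ) : Group (SQ ℱ j) := ℱ.sys.grpQ j
noncomputable instance (ℱ : Filt) (j : ℕ) : Fintype (SQ ℱ j) := ℱ.sys.finQ j
noncomputable instance (ℱ : Filt) (j : ℕ) : DecidableEq (SQ ℱ j) := ℱ.sys.decQ j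
noncomputable instance (ℱ : Filt) (j : ℕ) : Group (UQ ℱ j) := ℱ.sysU.grpQ j
noncomputable instance (ℱ : Filt) (j : ℕ) : Fintype (UQ ℱ j) := ℱ.sysU.finQ j
noncomputable instance (ℱ : Filt) (j : ℕ) : DecidableEq (UQ ℱ j) := ℱ.sysU.decQ j

/-- the projection `S → S / N_j` -/
noncomputable def SQ.mk (ℱ : Filt) (j : ℕ) : ℱ.G →* SQ ℱ j := ℱ.sys.π j

/-- the projection `U → U / N_j` -/
noncomputable def UQ.mk (ℱ : Filt) (j : ℕ) : ↥(ℱ.N 0) →* UQ ℱ j := ℱ.sysU.π j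

/-- the inclusion `U / N_j → S / N_j` -/
noncomputable def UQ.incl (ℱ : Filt) (j : ℕ) : UQ ℱ j →* SQ ℱ j := ℱ.incl (ℱ.N 0) j

theorem SQ.mk_surjective (ℱ : Filt) (j : ℕ) : Function.Surjective (SQ.mk ℱ j) := ℱ.sys.π_surj j

theorem UQ.mk_surjective (ℱ : Filt) (j : ℕ) : Function.Surjective (UQ.mk ℱ j) := ℱ.sysU.π_surj j

theorem UQ.incl_injective (ℱ : Filt) (j : ℕ) : Function.Injective (UQ.incl ℱ j) :=
  ℱ.incl_injective (ℱ.N 0) j

@[simp] theorem UQ.incl_mk (ℱ : Filt) (j : ℕ) (u : ↥(ℱ.N 0)) :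
    UQ.incl ℱ j (UQ.mk ℱ j u) = SQ.mk ℱ j (u : ℱ.G) := rfl

theorem SQ.mk_eq_one {ℱ : Filt} {j : ℕ} {g : ℱ.G} : SQ.mk ℱ j g = 1 ↔ g ∈ ℱ.N j :=
  QuotientGroup.eq_one_iff (N := ℱ.N j) g

theorem UQ.mk_eq_one {ℱ : Filt} {j : ℕ} {g : ↥(ℱ.N 0)} : UQ.mk ℱ j g = 1 ↔ (g : ℱ.G) ∈ ℱ.N j :=
  QuotientGroup.eq_one_iff (N := (ℱ.N j).subgroupOf (ℱ.N 0)) g

section TPart

variable (p : ℕ) [Fact p.Prime] (ℱ : Filt)

/-- `ℤ_p[[U]]` for `U = N 0` -/
def LamU : Type := Lam ℤ_[p] ℱ.sysU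

noncomputable instance : Ring (LamU p ℱ) := inferInstanceAs (Ring (Lam ℤ_[p] ℱ.sysU))

/-- `O[[S]]` -/
def LamS (O : Type) [CommRing O] : Type := Lam O ℱ.sys

noncomputable instance (O : Type) [CommRing O] : Ring (LamS ℱ O) :=
  inferInstanceAs (Ring (Lam O ℱ.sys))

/-- the `j`-th level of an element of `ℤ_p[[U]]` -/
noncomputable def LamU.lv (j : ℕ) : LamU p ℱ →+* MonoidAlgebra ℤ_[p] (UQ ℱ j) :=
  (Pi.evalRingHom (fun j => MonoidAlgebra ℤ_[p] (ℱ.sysU.Q j)) j).comp (Lam ℤ_[p] ℱ.sysU).subtype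

/-- the `j`-th level of an element of `O[[S]]` -/
noncomputable def LamS.lv (O : Type) [CommRing O] (j : ℕ) :
    LamS ℱ O →+* MonoidAlgebra O (SQ ℱ j) :=
  (Pi.evalRingHom (fun j => MonoidAlgebra O (ℱ.sys.Q j)) j).comp (Lam O ℱ.sys).subtype

/-- the inclusion `ℤ_p[[U]] → O[[S]]` -/
noncomputable def incS (O : Type) [CommRing O] [Algebra ℤ_[p] O] : LamU p ℱ →+* LamS ℱ O :=
  lamIncl ℤ_[p] O ℱ (ℱ.N 0)

/-- a group element in `O[[S]]` -/
noncomputable def ofS (O : Type) [CommRing O] : ℱ.G →* LamS ℱ O where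
  toFun g := toLam O ℱ.sys (MonoidAlgebra.single g 1)
  map_one' := map_one (toLam O ℱ.sys)
  map_mul' a b := by
    have h : MonoidAlgebra.single (a * b) (1 : O) =
        MonoidAlgebra.single a 1 * MonoidAlgebra.single b 1 := by
      rw [MonoidAlgebra.single_mul_single, one_mul]
    rw [h]
    exact map_mul (toLam O ℱ.sys) _ _

/-- scalars in `O[[S]]` -/
noncomputable def scS (O : Type) [CommRing O] : O →+* LamS ℱ O :=
  (toLam O ℱ.sys).comp (algebraMap O (MonoidAlgebra O ℱ.G))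

theorem LamU.ext {a b : LamU p ℱ} (h : ∀ j, LamU.lv p ℱ j a = LamU.lv p ℱ j b) : a = b :=
  Subtype.ext (funext h)

theorem LamS.ext {O : Type} [CommRing O] {a b : LamS ℱ O}
    (h : ∀ j, LamS.lv ℱ O j a = LamS.lv ℱ O j b) : a = b :=
  Subtype.ext (funext h)

theorem lv_incS (O : Type) [CommRing O] [Algebra ℤ_[p] O] (a : LamU p ℱ) (j : ℕ) :
    LamS.lv ℱ O j (incS p ℱ O a) = MonoidAlgebra.mapRingHom (SQ ℱ j) (algebraMap ℤ_[p] O)
      (MonoidAlgebra.mapDomainRingHom ℤ_[p] (UQ.incl ℱ j) (LamU.lv p ℱ j a)) := rfl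

theorem lv_ofS (O : Type) [CommRing O] (g : ℱ.G) (j : ℕ) :
    LamS.lv ℱ O j (ofS ℱ O g) = MonoidAlgebra.single (SQ.mk ℱ j g) 1 := by
  have h : MonoidAlgebra.mapDomainRingHom O (SQ.mk ℱ j) (MonoidAlgebra.single g 1) =
      MonoidAlgebra.single (SQ.mk ℱ j g) 1 := by simp
  exact h

theorem lv_scS (O : Type) [CommRing O] (o : O) (j : ℕ) :
    LamS.lv ℱ O j (scS ℱ O o) = algebraMap O (MonoidAlgebra O (SQ ℱ j)) o := by
  have h : MonoidAlgebra.mapDomainRingHom O (SQ.mk ℱ j) (algebraMap O (MonoidAlgebra O ℱ.G) o) =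
      algebraMap O (MonoidAlgebra O (SQ ℱ j)) o := by simp
  exact h

/-- the normalized rank of a matrix over `L[S]` along the finite quotients `S / N_j`. -/
noncomputable def nrank {L : Type} [Field L] {m n : Type} [Fintype m] [Fintype n]
    (A : ∀ j, Matrix m n (MonoidAlgebra L (SQ ℱ j))) : ℝ :=
  omLim fun j => ((op (A j)).rank : ℝ) / Fintype.card (SQ ℱ j)

end TPart

/-- The value at `x` of `∏_{a=1}^{b} (X - m + p a)`, `b = m / (p - 1)`. -/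
noncomputable def psi (p m : ℕ) {R : Type*} [CommRing R] (x : R) : R :=
  ∏ a ∈ Finset.Icc 1 (m / (p - 1)), (x - m + p * a)

end Pool.Agent.H4.Atiyah
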