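import Pool.Agent.H4.Atiyah.Filt
import Pool.Agent.H4.Atiyah.PGroupAug

/-!
# Ordered monomials in the mod `p` group algebra of the finite quotients of a tower
-/

set_option autoImplicit false

namespace Pool.Agent.H4.Atiyah

-- BEGIN COPY

section M18

variable (p : ℕ) {Q : Type} [Group Q] {d : ℕ}

/-- ordered monomials `∏ (x_l - 1)^{α_l}` in the group algebra over `𝔽_p` -/
noncomputable def mono (x : Fin d → Q) (α : Fin d → ℕ) : MonoidAlgebra (ZMod p) Q :=
  (List.ofFn fun l => (MonoidAlgebra.single (x l) 1 - 1) ^ α l).prod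

/-- the span of the ordered monomials of degree at least `n` -/
noncomputable def monoSpan (x : Fin d → Q) (n : ℕ) : Submodule (ZMod p) (MonoidAlgebra (ZMod p) Q) :=
  Submodule.span (ZMod p) {a | ∃ α : Fin d → ℕ, n ≤ ∑ l, α l ∧ a = mono p x α}

end M18

-- END COPY

end Pool.Agent.H4.Atiyah

namespace Pool.Agent.H4.Atiyah.TowerMonoAux

open Pool.Agent.H4.Atiyah

/-! ## Ordered products in a filtered ring -/

section Ordered

variable {A : Type*} [Ring A] (W : ℕ → AddSubgroup A)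

theorem prod_mem (h1 : (1 : A) ∈ W 0) (hmul : ∀ {m n : ℕ} {a b : A}, a ∈ W m → b ∈ W n → a * b ∈ W (m + n)) :
    ∀ {d : ℕ} (f : Fin d → A) (m : Fin d → ℕ), (∀ l, f l ∈ W (m l)) →
      (List.ofFn f).prod ∈ W (∑ l, m l) := by
  intro d
  induction d with
  | zero => intro f m _; simpa using h1
  | succ d ih =>
    intro f m hf
    rw [List.ofFn_succ, List.prod_cons, Fin.sum_univ_succ]
    exact hmul (hf 0) (ih (fun i => f i.succ) (fun i => m i.succ) fun l => hf l.succ)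

theorem pow_mem' (h1 : (1 : A) ∈ W 0) (hmul : ∀ {m n : ℕ} {a b : A}, a ∈ W m → b ∈ W n → a * b ∈ W (m + n))
    {a : A} (ha : a ∈ W 1) (n : ℕ) : a ^ n ∈ W n := by
  induction n with
  | zero => simpa using h1
  | succ n ih =>
    rw [pow_succ]
    exact hmul ih ha

/-- `Comm u v a b` -/
theorem pow_comm_left (h1 : (1 : A) ∈ W 0) (hmul : ∀ {m n : ℕ} {a b : A}, a ∈ W m → b ∈ W n → a * b ∈ W (m + n))
    {b c : A} {k : ℕ} (hb : b ∈ W 1) (hbc : b * c - c * b ∈ W (1 + k + 1)) (n : ℕ) :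
    b ^ n * c - c * b ^ n ∈ W (n + k + 1) := by
  induction n with
  | zero => simp
  | succ n ih =>
    have e : b ^ (n + 1) * c - c * b ^ (n + 1) =
        b * (b ^ n * c - c * b ^ n) + (b * c - c * b) * b ^ n := by
      rw [pow_succ']; noncomm_ring
    rw [e]
    refine (W _).add_mem ?_ ?_
    · have := hmul hb ih
      rwa [show 1 + (n + k + 1) = n + 1 + k + 1 by ring] at this
    · have := hmul hbc (pow_mem' W h1 hmul hb n)
      rwa [show 1 + k + 1 + n = n + 1 + k + 1 by ring] at this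

theorem pow_comm_pow (h1 : (1 : A) ∈ W 0) (hmul : ∀ {m n : ℕ} {a b : A}, a ∈ W m → b ∈ W n → a * b ∈ W (m + n))
    {b c : A} (hb : b ∈ W 1) (hc : c ∈ W 1) (hbc : b * c - c * b ∈ W 3) (m n : ℕ) :
    b ^ m * c ^ n - c ^ n * b ^ m ∈ W (m + n + 1) := by
  rcases Nat.eq_zero_or_pos m with rfl | hm
  · simp
  have h2 : c * b - b * c ∈ W (1 + 1 + 1) := by
    rw [← neg_sub]; exact (W _).neg_mem hbc
  have h3 := pow_comm_left W h1 hmul hc h2 n
  have h4 : b * c ^ n - c ^ n * b ∈ W (1 + n + 1) := by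
    rw [← neg_sub]
    have := (W _).neg_mem h3
    rwa [show n + 1 + 1 = 1 + n + 1 by ring] at this
  exact pow_comm_left W h1 hmul hb h4 m

theorem prod_comm_right (hmul : ∀ {m n : ℕ} {a b : A}, a ∈ W m → b ∈ W n → a * b ∈ W (m + n))
    (h1 : (1 : A) ∈ W 0) :
    ∀ {d : ℕ} (f : Fin d → A) (m : Fin d → ℕ) (c : A) (k : ℕ), (∀ l, f l ∈ W (m l)) →
      (∀ l, f l * c - c * f l ∈ W (m l + k + 1)) →
      (List.ofFn f).prod * c - c * (List.ofFn f).prod ∈ W (∑ l, m l + k + 1) := by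
  intro d
  induction d with
  | zero => intro f m c k _ _; simp
  | succ d ih =>
    intro f m c k hf hc
    rw [List.ofFn_succ, List.prod_cons, Fin.sum_univ_succ]
    set F := (List.ofFn fun i : Fin d => f i.succ).prod with hF
    have h2 := ih (fun i => f i.succ) (fun i => m i.succ) c k (fun l => hf l.succ) fun l => hc l.succ
    have h3 := prod_mem W h1 hmul (fun i : Fin d => f i.succ) (fun i => m i.succ) fun l => hf l.succ
    have e : f 0 * F * c - c * (f 0 * F) = f 0 * (F * c - c * F) + (f 0 * c - c * f 0) * F := by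
      noncomm_ring
    rw [e]
    refine (W _).add_mem ?_ ?_
    · have := hmul (hf 0) h2
      rwa [show m 0 + (∑ i : Fin d, m i.succ + k + 1) = m 0 + ∑ i : Fin d, m i.succ + k + 1 by ring]
        at this
    · have := hmul (hc 0) h3
      rwa [show m 0 + k + 1 + ∑ i : Fin d, m i.succ = m 0 + ∑ i : Fin d, m i.succ + k + 1 by ring]
        at this

theorem prod_mul_prod (hmul : ∀ {m n : ℕ} {a b : A}, a ∈ W m → b ∈ W n → a * b ∈ W (m + n))
    (h1 : (1 : A) ∈ W 0) :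
    ∀ {d : ℕ} (f g : Fin d → A) (m n : Fin d → ℕ), (∀ l, f l ∈ W (m l)) → (∀ l, g l ∈ W (n l)) →
      (∀ l l', f l * g l' - g l' * f l ∈ W (m l + n l' + 1)) →
      (List.ofFn f).prod * (List.ofFn g).prod - (List.ofFn fun l => f l * g l).prod ∈
        W (∑ l, m l + ∑ l, n l + 1) := by
  intro d
  induction d with
  | zero => intro f g m n _ _ _; simp
  | succ d ih =>
    intro f g m n hf hg hc
    rw [List.ofFn_succ, List.prod_cons, Fin.sum_univ_succ, List.ofFn_succ (f := g), List.prod_cons,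
      Fin.sum_univ_succ (f := n), List.ofFn_succ (f := fun l => f l * g l), List.prod_cons]
    have h2 := ih (fun i => f i.succ) (fun i => g i.succ) (fun i => m i.succ) (fun i => n i.succ)
      (fun l => hf l.succ) (fun l => hg l.succ) fun l l' => hc l.succ l'.succ
    have h3 := prod_mem W h1 hmul (fun i : Fin d => f i.succ) (fun i => m i.succ) fun l => hf l.succ
    have h4 := prod_mem W h1 hmul (fun i : Fin d => g i.succ) (fun i => n i.succ) fun l => hg l.succ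
    have h5 := prod_comm_right W hmul h1 (fun i : Fin d => f i.succ) (fun i => m i.succ) (g 0) (n 0)
      (fun l => hf l.succ) fun l => hc l.succ 0
    set F := (List.ofFn fun i : Fin d => f i.succ).prod
    set G := (List.ofFn fun i : Fin d => g i.succ).prod
    set H := (List.ofFn fun i : Fin d => f i.succ * g i.succ).prod
    have e : f 0 * F * (g 0 * G) - f 0 * g 0 * H =
        f 0 * ((F * g 0 - g 0 * F) * G) + f 0 * (g 0 * (F * G - H)) := by
      noncomm_ring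
    rw [e]
    refine (W _).add_mem ?_ ?_
    · have := hmul (hf 0) (hmul h5 h4)
      rwa [show m 0 + (∑ i : Fin d, m i.succ + n 0 + 1 + ∑ i : Fin d, n i.succ) =
        m 0 + ∑ i : Fin d, m i.succ + (n 0 + ∑ i : Fin d, n i.succ) + 1 by ring] at this
    · have := hmul (hf 0) (hmul (hg 0) h2)
      rwa [show m 0 + (n 0 + (∑ i : Fin d, m i.succ + ∑ i : Fin d, n i.succ + 1)) =
        m 0 + ∑ i : Fin d, m i.succ + (n 0 + ∑ i : Fin d, n i.succ) + 1 by ring] at this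

end Ordered

/-! ## Expansion of group elements -/

section Expand

variable (p : ℕ) [Fact p.Prime] {Q : Type} [Group Q] {d : ℕ}

theorem single_pow_eq_sum (g : Q) (a q : ℕ) (ha : a < q) :
    (MonoidAlgebra.single (g ^ a) 1 : MonoidAlgebra (ZMod p) Q) =
      ∑ i : Fin q, (Nat.choose a i : ZMod p) • (MonoidAlgebra.single g 1 - 1) ^ (i : ℕ) := by
  have h1 : (MonoidAlgebra.single (g ^ a) 1 : MonoidAlgebra (ZMod p) Q) =
      ((MonoidAlgebra.single g 1 - 1) + 1) ^ a := by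
    rw [sub_add_cancel, MonoidAlgebra.single_pow, one_pow]
  rw [h1, (Commute.one_right _).add_pow]
  have h2 : ∀ m, (MonoidAlgebra.single g 1 - 1 : MonoidAlgebra (ZMod p) Q) ^ m * 1 ^ (a - m) *
      ((a.choose m : ℕ) : MonoidAlgebra (ZMod p) Q) =
      (Nat.choose a m : ZMod p) • (MonoidAlgebra.single g 1 - 1) ^ m := by
    intro m
    rw [one_pow, mul_one, ← nsmul_eq_mul', Nat.cast_smul_eq_nsmul]
  simp only [h2]
  rw [Fin.sum_univ_eq_sum_range (fun i => (Nat.choose a i : ZMod p) •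
    (MonoidAlgebra.single g 1 - 1 : MonoidAlgebra (ZMod p) Q) ^ i) q]
  refine Finset.sum_subset (fun i hi => ?_) fun i _ hi => ?_
  · rw [Finset.mem_range] at *; omega
  · rw [Finset.mem_range] at hi
    rw [Nat.choose_eq_zero_of_lt (by omega), Nat.cast_zero, zero_smul]

theorem single_prod (x : Fin d → Q) :
    (MonoidAlgebra.single ((List.ofFn x).prod) 1 : MonoidAlgebra (ZMod p) Q) =
      (List.ofFn fun l => MonoidAlgebra.single (x l) (1 : ZMod p)).prod := by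
  have := map_list_prod (MonoidAlgebra.of (ZMod p) Q) (List.ofFn x)
  rw [List.map_ofFn] at this
  exact this

/-- expansion of an ordered product of powers in ordered monomials -/
theorem single_prod_pow (x : Fin d → Q) (a : Fin d → ℕ) (q : ℕ) (ha : ∀ l, a l < q) :
    (MonoidAlgebra.single ((List.ofFn fun l => x l ^ a l).prod) 1 : MonoidAlgebra (ZMod p) Q) =
      ∑ α : Fin d → Fin q, (∏ l, (Nat.choose (a l) (α l) : ZMod p)) • mono p x fun l => (α l : ℕ) := by
  classical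
  rw [single_prod]
  have h1 : (fun l => (MonoidAlgebra.single (x l ^ a l) 1 : MonoidAlgebra (ZMod p) Q)) =
      fun l => ∑ i : Fin q, (Nat.choose (a l) i : ZMod p) •
        (MonoidAlgebra.single (x l) 1 - 1) ^ (i : ℕ) := by
    funext l
    exact single_pow_eq_sum p (x l) (a l) q (ha l)
  rw [h1, ← MultilinearMap.mkPiAlgebraFin_apply (R := ZMod p), MultilinearMap.map_sum]
  refine Finset.sum_congr rfl fun α _ => ?_
  rw [MultilinearMap.map_smul_univ, MultilinearMap.mkPiAlgebraFin_apply]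
  rfl

end Expand

/-! ## The augmentation ideal and its powers -/

section Aug

variable (p : ℕ) [Fact p.Prime] (Q : Type) [Group Q]

/-- the augmentation -/
noncomputable def aug : MonoidAlgebra (ZMod p) Q →ₐ[ZMod p] ZMod p :=
  MonoidAlgebra.lift (ZMod p) (ZMod p) Q 1

theorem aug_single (g : Q) (a : ZMod p) : aug p Q (MonoidAlgebra.single g a) = a := by
  simp [aug]

theorem aug_eq (a : MonoidAlgebra (ZMod p) Q) : aug p Q a = a.coeff.sum fun _ c => c := by
  simp [aug, MonoidAlgebra.lift_apply]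

/-- the augmentation ideal -/
noncomputable def augI : Submodule (ZMod p) (MonoidAlgebra (ZMod p) Q) :=
  LinearMap.ker (aug p Q).toLinearMap

theorem mem_augI {a : MonoidAlgebra (ZMod p) Q} : a ∈ augI p Q ↔ aug p Q a = 0 := by
  simp [augI]

theorem sub_mem_augI (g : Q) : (MonoidAlgebra.single g 1 - 1 : MonoidAlgebra (ZMod p) Q) ∈ augI p Q := by
  rw [mem_augI, map_sub, aug_single, map_one, sub_self]

theorem mul_mem_augI_left {a b : MonoidAlgebra (ZMod p) Q} (hb : b ∈ augI p Q) : a * b ∈ augI p Q := by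
  rw [mem_augI] at *
  rw [map_mul, hb, mul_zero]

theorem mul_mem_augI_right {a b : MonoidAlgebra (ZMod p) Q} (ha : a ∈ augI p Q) :
    a * b ∈ augI p Q := by
  rw [mem_augI] at *
  rw [map_mul, ha, zero_mul]

/-- the filtration by powers of the augmentation ideal -/
noncomputable def Wm (n : ℕ) : Submodule (ZMod p) (MonoidAlgebra (ZMod p) Q) :=
  augI p Q ^ n * ⊤

theorem Wm_zero : Wm p Q 0 = ⊤ := by
  rw [Wm, pow_zero, one_mul]

theorem top_mul_augI : (⊤ : Submodule (ZMod p) (MonoidAlgebra (ZMod p) Q)) * augI p Q ≤ augI p Q :=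
  Submodule.mul_le.2 fun _ _ _ hn => mul_mem_augI_left p Q hn

theorem augI_mul_top : augI p Q * (⊤ : Submodule (ZMod p) (MonoidAlgebra (ZMod p) Q)) ≤ augI p Q :=
  Submodule.mul_le.2 fun _ hn _ _ => mul_mem_augI_right p Q hn

theorem le_mul_top (M : Submodule (ZMod p) (MonoidAlgebra (ZMod p) Q)) : M ≤ M * ⊤ := by
  intro a ha
  rw [← mul_one a]
  exact Submodule.mul_mem_mul ha trivial

theorem Wm_one : Wm p Q 1 = augI p Q := by
  rw [Wm, pow_one]
  exact le_antisymm (augI_mul_top p Q) (le_mul_top p Q _)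

theorem top_mul_pow (n : ℕ) :
    (⊤ : Submodule (ZMod p) (MonoidAlgebra (ZMod p) Q)) * augI p Q ^ n ≤ augI p Q ^ n * ⊤ := by
  induction n with
  | zero => simp
  | succ n ih =>
    rw [pow_succ, ← mul_assoc]
    calc ⊤ * augI p Q ^ n * augI p Q ≤ augI p Q ^ n * ⊤ * augI p Q := mul_le_mul' ih le_rfl
      _ = augI p Q ^ n * (⊤ * augI p Q) := mul_assoc _ _ _
      _ ≤ augI p Q ^ n * augI p Q := mul_le_mul' le_rfl (top_mul_augI p Q)
      _ ≤ augI p Q ^ n * augI p Q * ⊤ := le_mul_top p Q _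

theorem Wm_mul_Wm (m n : ℕ) : Wm p Q m * Wm p Q n ≤ Wm p Q (m + n) := by
  unfold Wm
  calc augI p Q ^ m * ⊤ * (augI p Q ^ n * ⊤) = augI p Q ^ m * (⊤ * augI p Q ^ n) * ⊤ := by
        simp only [mul_assoc]
    _ ≤ augI p Q ^ m * (augI p Q ^ n * ⊤) * ⊤ :=
        mul_le_mul' (mul_le_mul' le_rfl (top_mul_pow p Q n)) le_rfl
    _ = augI p Q ^ (m + n) * (⊤ * ⊤) := by rw [pow_add]; simp only [mul_assoc]
    _ ≤ augI p Q ^ (m + n) * ⊤ := mul_le_mul' le_rfl le_top

theorem Wm_mul {m n : ℕ} {a b : MonoidAlgebra (ZMod p) Q} (ha : a ∈ Wm p Q m) (hb : b ∈ Wm p Q n) :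
    a * b ∈ Wm p Q (m + n) :=
  Wm_mul_Wm p Q m n (Submodule.mul_mem_mul ha hb)

theorem Wm_succ_le (n : ℕ) : Wm p Q (n + 1) ≤ Wm p Q n := by
  unfold Wm
  rw [pow_succ, mul_assoc]
  exact mul_le_mul' le_rfl le_top

theorem Wm_anti : Antitone (Wm p Q) := antitone_nat_of_succ_le (Wm_succ_le p Q)

theorem exists_Wm_eq_bot [Finite Q] (hQ : IsPGroup p Q) : ∃ n, Wm p Q n = ⊥ := by
  obtain ⟨n, hn⟩ := augmentation_nilpotent p Q hQ
  refine ⟨n, ?_⟩
  have h : augI p Q ^ n = ⊥ := by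
    rw [Submodule.pow_eq_span_pow_set, Submodule.span_eq_bot]
    intro a ha
    rw [Set.mem_pow] at ha
    obtain ⟨f, rfl⟩ := ha
    refine hn _ fun i => ?_
    rw [← aug_eq]
    exact (mem_augI p Q).1 (f i).2
  rw [Wm, h, Submodule.bot_mul]

end Aug

/-! ## Towers -/

section Tower

variable (p : ℕ) [Fact p.Prime] {d : ℕ}

/-- the filtration as additive subgroups -/
noncomputable abbrev WA (Q : Type) [Group Q] (n : ℕ) : AddSubgroup (MonoidAlgebra (ZMod p) Q) :=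
  (Wm p Q n).toAddSubgroup

theorem WA_one (Q : Type) [Group Q] : (1 : MonoidAlgebra (ZMod p) Q) ∈ WA p Q 0 := by
  rw [WA, Wm_zero]; trivial

theorem WA_mul (Q : Type) [Group Q] {m n : ℕ} {a b : MonoidAlgebra (ZMod p) Q} (ha : a ∈ WA p Q m)
    (hb : b ∈ WA p Q n) : a * b ∈ WA p Q (m + n) := Wm_mul p Q ha hb

theorem bb_mem (Q : Type) [Group Q] (g : Q) :
    (MonoidAlgebra.single g 1 - 1 : MonoidAlgebra (ZMod p) Q) ∈ WA p Q 1 := by
  rw [WA, Wm_one]; exact sub_mem_augI p Q g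

theorem mono_mem_Wm {Q : Type} [Group Q] (x : Fin d → Q) (α : Fin d → ℕ) :
    mono p x α ∈ Wm p Q (∑ l, α l) :=
  prod_mem (WA p Q) (WA_one p Q) (WA_mul p Q) _ α fun l =>
    pow_mem' (WA p Q) (WA_one p Q) (WA_mul p Q) (bb_mem p Q (x l)) (α l)

theorem prod_sub_one_mem (Q : Type) [Group Q] (n : ℕ) :
    ∀ {d : ℕ} (e : Fin d → MonoidAlgebra (ZMod p) Q), (∀ l, e l - 1 ∈ Wm p Q n) →
      (List.ofFn e).prod - 1 ∈ Wm p Q n := by
  intro d
  induction d with
  | zero => intro e _; simp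
  | succ d ih =>
    intro e he
    rw [List.ofFn_succ, List.prod_cons]
    have h2 := ih (fun i => e i.succ) fun l => he l.succ
    set P := (List.ofFn fun i : Fin d => e i.succ).prod
    have h3 : e 0 * P - 1 = (e 0 - 1) * P + (P - 1) := by noncomm_ring
    rw [h3]
    refine Submodule.add_mem _ ?_ h2
    have := Wm_mul p Q (he 0) (b := P) (n := 0) (by rw [Wm_zero]; trivial)
    simpa using this

instance charP_inst (Q : Type) [Group Q] : CharP (MonoidAlgebra (ZMod p) Q) p :=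
  charP_of_injective_algebraMap (algebraMap (ZMod p) (MonoidAlgebra (ZMod p) Q)).injective p

theorem single_pow_sub_one (Q : Type) [Group Q] (g : Q) (i : ℕ) :
    (MonoidAlgebra.single (g ^ p ^ i) 1 - 1 : MonoidAlgebra (ZMod p) Q) =
      (MonoidAlgebra.single g 1 - 1) ^ p ^ i := by
  rw [sub_pow_char_pow_of_commute p i (Commute.one_right _), one_pow, MonoidAlgebra.single_pow, one_pow]

variable {p} {𝒯 : Sys} {x : Fin d → 𝒯.G} (h : IsTower p 𝒯 d x)

theorem pi_eq_of_le (𝒯 : Sys) {i j : ℕ} (hij : i ≤ j) {g g' : 𝒯.G} (hg : 𝒯.π j g = 𝒯.π j g') :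
    𝒯.π i g = 𝒯.π i g' := by
  induction j, hij using Nat.le_induction with
  | base => exact hg
  | succ j _ ih =>
    apply ih
    rw [← 𝒯.tr_π j g, ← 𝒯.tr_π j g', hg]

include h

omit [Fact p.Prime] in
theorem pi_pow_mod (i : ℕ) (a : Fin d → ℕ) :
    𝒯.π i ((List.ofFn fun l => x l ^ (a l % p ^ i)).prod) =
      𝒯.π i ((List.ofFn fun l => x l ^ a l).prod) := by
  rw [map_list_prod, map_list_prod, List.map_ofFn, List.map_ofFn]
  congr 2
  funext l
  have h1 := h.pow i l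
  rw [map_pow] at h1
  simp only [Function.comp_apply, map_pow]
  conv_rhs => rw [← Nat.mod_add_div (a l) (p ^ i), pow_add, pow_mul, h1, one_pow, mul_one]

omit [Fact p.Prime] in
theorem gen_bijective (i : ℕ) : Function.Bijective fun a : Fin d → Fin (p ^ i) =>
    𝒯.π i ((List.ofFn fun l => x l ^ (a l : ℕ)).prod) := by
  classical
  rw [Fintype.bijective_iff_surjective_and_card]
  constructor
  · intro q
    obtain ⟨a, ha, hq⟩ := h.gen i q
    exact ⟨fun l => ⟨a l, ha l⟩, hq⟩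
  · rw [h.card, Fintype.card_pi]
    simp [← pow_mul]

theorem dvd_of_pi_eq_one (i : ℕ) (a : Fin d → ℕ)
    (ha : 𝒯.π i ((List.ofFn fun l => x l ^ a l).prod) = 1) (l : Fin d) : p ^ i ∣ a l := by
  have hp : 0 < p ^ i := pow_pos (Fact.out : p.Prime).pos i
  have h1 := (gen_bijective h i).1
  have h2 : (fun l => (⟨a l % p ^ i, Nat.mod_lt _ hp⟩ : Fin (p ^ i))) = fun _ => ⟨0, hp⟩ := by
    apply h1
    change 𝒯.π i ((List.ofFn fun l => x l ^ (a l % p ^ i)).prod) =
      𝒯.π i ((List.ofFn fun l => x l ^ 0).prod)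
    rw [pi_pow_mod h, ha]
    simp
  have h3 := congrArg Fin.val (congrFun h2 l)
  exact Nat.dvd_of_mod_eq_zero h3

theorem single_comm_sub_one_mem (j : ℕ) (l l' : Fin d) :
    (MonoidAlgebra.single (𝒯.π j (x l * x l' * (x l)⁻¹ * (x l')⁻¹)) 1 - 1 :
      MonoidAlgebra (ZMod p) (𝒯.Q j)) ∈ Wm p (𝒯.Q j) 3 := by
  rcases le_total j 2 with hj | hj
  · have : 𝒯.π j (x l * x l' * (x l)⁻¹ * (x l')⁻¹) = 1 := by
      rw [← map_one (𝒯.π j)]
      exact pi_eq_of_le 𝒯 hj (by rw [h.comm, map_one])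
    rw [this, ← MonoidAlgebra.one_def, sub_self]
    exact Submodule.zero_mem _
  · obtain ⟨a, -, hz⟩ := h.gen j (𝒯.π j (x l * x l' * (x l)⁻¹ * (x l')⁻¹))
    have h2 := pi_eq_of_le 𝒯 hj hz
    rw [h.comm] at h2
    have h3 := dvd_of_pi_eq_one h 2 a h2
    rw [← hz, map_list_prod, List.map_ofFn, single_prod]
    refine prod_sub_one_mem p _ 3 _ fun i => ?_
    obtain ⟨k, hk⟩ := h3 i
    have h4 : (⇑(𝒯.π j) ∘ fun l => x l ^ a l) i = (𝒯.π j (x i) ^ k) ^ p ^ 2 := by
      simp only [Function.comp_apply, map_pow]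
      rw [hk, mul_comm, pow_mul]
    rw [h4, single_pow_sub_one]
    have h5 := pow_mem' (WA p (𝒯.Q j)) (WA_one p _) (WA_mul p _) (bb_mem p _ (𝒯.π j (x i) ^ k)) (p ^ 2)
    refine Wm_anti p _ ?_ h5
    have hp := (Fact.out : p.Prime).two_le
    nlinarith

theorem bb_comm_mem (j : ℕ) (l l' : Fin d) :
    (MonoidAlgebra.single (𝒯.π j (x l)) 1 - 1 : MonoidAlgebra (ZMod p) (𝒯.Q j)) *
      (MonoidAlgebra.single (𝒯.π j (x l')) 1 - 1) -
      (MonoidAlgebra.single (𝒯.π j (x l')) 1 - 1) * (MonoidAlgebra.single (𝒯.π j (x l)) 1 - 1) ∈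
      WA p (𝒯.Q j) 3 := by
  have h1 := single_comm_sub_one_mem h j l l'
  have h2 := Wm_mul p _ h1 (b := MonoidAlgebra.single (𝒯.π j (x l' * x l)) 1) (n := 0)
    (by rw [Wm_zero]; trivial)
  have e : (MonoidAlgebra.single (𝒯.π j (x l * x l' * (x l)⁻¹ * (x l')⁻¹)) 1 - 1 :
      MonoidAlgebra (ZMod p) (𝒯.Q j)) * MonoidAlgebra.single (𝒯.π j (x l' * x l)) 1 =
      (MonoidAlgebra.single (𝒯.π j (x l)) 1 - 1 : MonoidAlgebra (ZMod p) (𝒯.Q j)) *
      (MonoidAlgebra.single (𝒯.π j (x l')) 1 - 1) -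
      (MonoidAlgebra.single (𝒯.π j (x l')) 1 - 1) * (MonoidAlgebra.single (𝒯.π j (x l)) 1 - 1) := by
    have e1 : (MonoidAlgebra.single (𝒯.π j (x l * x l' * (x l)⁻¹ * (x l')⁻¹)) 1 :
        MonoidAlgebra (ZMod p) (𝒯.Q j)) * MonoidAlgebra.single (𝒯.π j (x l' * x l)) 1 =
        MonoidAlgebra.single (𝒯.π j (x l)) 1 * MonoidAlgebra.single (𝒯.π j (x l')) 1 := by
      rw [MonoidAlgebra.single_mul_single, MonoidAlgebra.single_mul_single, ← map_mul, ← map_mul]
      congr 2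
      group
    have e2 : (MonoidAlgebra.single (𝒯.π j (x l' * x l)) 1 : MonoidAlgebra (ZMod p) (𝒯.Q j)) =
        MonoidAlgebra.single (𝒯.π j (x l')) 1 * MonoidAlgebra.single (𝒯.π j (x l)) 1 := by
      rw [MonoidAlgebra.single_mul_single, ← map_mul, mul_one]
    rw [sub_mul, one_mul, e1, e2]
    noncomm_ring
  rw [e] at h2
  simpa using h2

theorem mono_mul_sub_Wm (j : ℕ) (α β : Fin d → ℕ) :
    mono p (fun l => 𝒯.π j (x l)) α * mono p (fun l => 𝒯.π j (x l)) β -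
      mono p (fun l => 𝒯.π j (x l)) (α + β) ∈ Wm p (𝒯.Q j) (∑ l, α l + ∑ l, β l + 1) := by
  have h1 := prod_mul_prod (WA p (𝒯.Q j)) (WA_mul p _) (WA_one p _)
    (fun l => (MonoidAlgebra.single (𝒯.π j (x l)) 1 - 1 : MonoidAlgebra (ZMod p) (𝒯.Q j)) ^ α l)
    (fun l => (MonoidAlgebra.single (𝒯.π j (x l)) 1 - 1 : MonoidAlgebra (ZMod p) (𝒯.Q j)) ^ β l) α β
    (fun l => pow_mem' (WA p _) (WA_one p _) (WA_mul p _) (bb_mem p _ _) _)
    (fun l => pow_mem' (WA p _) (WA_one p _) (WA_mul p _) (bb_mem p _ _) _)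
    (fun l l' => pow_comm_pow (WA p _) (WA_one p _) (WA_mul p _) (bb_mem p _ _) (bb_mem p _ _)
      (bb_comm_mem h j l l') _ _)
  simp only [← pow_add] at h1
  exact h1

omit h in
theorem span_le_top (h : IsTower p 𝒯 d x) (j : ℕ) :
    ⊤ ≤ Submodule.span (ZMod p) (Set.range fun α : Fin d → Fin (p ^ j) =>
      mono p (fun l => 𝒯.π j (x l)) fun l => (α l : ℕ)) := by
  rw [← (MonoidAlgebra.basis (𝒯.Q j) (ZMod p)).span_eq, Submodule.span_le]
  rintro _ ⟨g, rfl⟩
  rw [MonoidAlgebra.basis_apply]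
  obtain ⟨a, ha, hg⟩ := h.gen j g
  have e : g = (List.ofFn fun l => 𝒯.π j (x l) ^ a l).prod := by
    rw [← hg, map_list_prod, List.map_ofFn]
    congr 2
    funext l
    simp
  rw [e, single_prod_pow p (fun l => 𝒯.π j (x l)) a (p ^ j) ha]
  exact Submodule.sum_mem _ fun α _ => Submodule.smul_mem _ _ (Submodule.subset_span ⟨α, rfl⟩)

/-- span of the ordered monomials of degree exactly `n` -/
noncomputable def monoEx (p : ℕ) {Q : Type} [Group Q] {d : ℕ} (x : Fin d → Q) (n : ℕ) :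
    Submodule (ZMod p) (MonoidAlgebra (ZMod p) Q) :=
  Submodule.span (ZMod p) {a | ∃ α : Fin d → ℕ, ∑ l, α l = n ∧ a = mono p x α}

omit h in
theorem monoEx_le (Q : Type) [Group Q] (x : Fin d → Q) (n : ℕ) : monoEx p x n ≤ Wm p Q n := by
  rw [monoEx, Submodule.span_le]
  rintro _ ⟨α, rfl, rfl⟩
  exact mono_mem_Wm p x α

omit h in
theorem monoSpan_le (Q : Type) [Group Q] (x : Fin d → Q) (n : ℕ) : monoSpan p x n ≤ Wm p Q n := by
  rw [monoSpan, Submodule.span_le]
  rintro _ ⟨α, hα, rfl⟩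
  exact Wm_anti p Q hα (mono_mem_Wm p x α)

omit h in
theorem monoSpan_le_sup (Q : Type) [Group Q] (x : Fin d → Q) (n : ℕ) :
    monoSpan p x n ≤ monoEx p x n ⊔ Wm p Q (n + 1) := by
  rw [monoSpan, Submodule.span_le]
  rintro _ ⟨α, hα, rfl⟩
  rcases hα.eq_or_lt with he | hl
  · exact Submodule.mem_sup_left (Submodule.subset_span ⟨α, he.symm, rfl⟩)
  · exact Submodule.mem_sup_right (Wm_anti p Q hl (mono_mem_Wm p x α))

omit h in
omit [Fact p.Prime] in
theorem monoEx_le_monoSpan (Q : Type) [Group Q] (x : Fin d → Q) {n m : ℕ} (hnm : m ≤ n) :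
    monoEx p x n ≤ monoSpan p x m := by
  rw [monoEx, Submodule.span_le]
  rintro _ ⟨α, rfl, rfl⟩
  exact Submodule.subset_span ⟨α, hnm, rfl⟩

theorem monoSpan_zero_eq (j : ℕ) : monoSpan p (fun l => 𝒯.π j (x l)) 0 = ⊤ := by
  rw [eq_top_iff]
  refine (span_le_top h j).trans (Submodule.span_mono ?_)
  rintro _ ⟨α, rfl⟩
  exact ⟨_, Nat.zero_le _, rfl⟩

omit h in
omit [Fact p.Prime] in
theorem mono_zero' (Q : Type) [Group Q] (x : Fin d → Q) : mono p x (fun _ => 0) = 1 := by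
  simp [mono]

theorem augI_le (j : ℕ) : augI p (𝒯.Q j) ≤ monoSpan p (fun l => 𝒯.π j (x l)) 1 := by
  intro a ha
  have h1 : a ∈ monoSpan p (fun l => 𝒯.π j (x l)) 0 := by rw [monoSpan_zero_eq h]; trivial
  have h2 : monoSpan p (fun l => 𝒯.π j (x l)) 0 ≤
      Submodule.span (ZMod p) {(1 : MonoidAlgebra (ZMod p) (𝒯.Q j))} ⊔
        monoSpan p (fun l => 𝒯.π j (x l)) 1 := by
    rw [monoSpan, Submodule.span_le]
    rintro _ ⟨α, -, rfl⟩
    rcases Nat.eq_zero_or_pos (∑ l, α l) with h0 | h0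
    · have : α = fun _ => 0 := by
        funext l
        exact Finset.sum_eq_zero_iff.1 h0 l (Finset.mem_univ _)
      subst this
      rw [mono_zero']
      exact Submodule.mem_sup_left (Submodule.mem_span_singleton_self _)
    · exact Submodule.mem_sup_right (Submodule.subset_span ⟨α, h0, rfl⟩)
  obtain ⟨u, hu, v, hv, huv⟩ := Submodule.mem_sup.1 (h2 h1)
  obtain ⟨c, rfl⟩ := Submodule.mem_span_singleton.1 hu
  have h3 : v ∈ augI p (𝒯.Q j) := by
    have := monoSpan_le (p := p) (𝒯.Q j) (fun l => 𝒯.π j (x l)) 1 hv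
    rwa [Wm_one] at this
  rw [mem_augI] at h3 ha
  rw [← huv, map_add, h3, add_zero, map_smul, map_one, smul_eq_mul, mul_one] at ha
  rw [← huv, ha, zero_smul, zero_add]
  exact hv

theorem monoEx_mul (j m n : ℕ) :
    monoEx p (fun l => 𝒯.π j (x l)) m * monoEx p (fun l => 𝒯.π j (x l)) n ≤
      monoEx p (fun l => 𝒯.π j (x l)) (m + n) ⊔ Wm p (𝒯.Q j) (m + n + 1) := by
  rw [monoEx, monoEx, Submodule.span_mul_span, Submodule.span_le]
  rintro _ ⟨_, ⟨α, rfl, rfl⟩, _, ⟨β, rfl, rfl⟩, rfl⟩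
  have h1 := mono_mul_sub_Wm h j α β
  have h2 : mono p (fun l => 𝒯.π j (x l)) α * mono p (fun l => 𝒯.π j (x l)) β =
      mono p (fun l => 𝒯.π j (x l)) (α + β) + (mono p (fun l => 𝒯.π j (x l)) α *
        mono p (fun l => 𝒯.π j (x l)) β - mono p (fun l => 𝒯.π j (x l)) (α + β)) := by abel
  change mono p (fun l => 𝒯.π j (x l)) α * mono p (fun l => 𝒯.π j (x l)) β ∈ _
  rw [h2]
  refine Submodule.add_mem_sup (Submodule.subset_span ⟨α + β, ?_, rfl⟩) h1
  simp [Finset.sum_add_distrib]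

theorem Wm_le_sup (j n : ℕ) :
    Wm p (𝒯.Q j) n ≤ monoEx p (fun l => 𝒯.π j (x l)) n ⊔ Wm p (𝒯.Q j) (n + 1) := by
  induction n with
  | zero =>
    rw [Wm_zero, ← monoSpan_zero_eq h]
    exact monoSpan_le_sup _ _ _
  | succ n ih =>
    have h1 : augI p (𝒯.Q j) ≤ monoEx p (fun l => 𝒯.π j (x l)) 1 ⊔ Wm p (𝒯.Q j) 2 :=
      (augI_le h j).trans (monoSpan_le_sup _ _ _)
    have h2 : Wm p (𝒯.Q j) (n + 1) = augI p (𝒯.Q j) * Wm p (𝒯.Q j) n := by
      rw [Wm, Wm, pow_succ', mul_assoc]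
    rw [h2]
    refine (mul_le_mul' h1 ih).trans ?_
    rw [Submodule.sup_mul, Submodule.mul_sup, Submodule.mul_sup]
    refine sup_le (sup_le ?_ ?_) (sup_le ?_ ?_)
    · refine (monoEx_mul h j 1 n).trans ?_
      rw [add_comm 1 n]
    · refine le_sup_of_le_right ?_
      refine (mul_le_mul' (monoEx_le (𝒯.Q j) _ 1) (le_refl (Wm p (𝒯.Q j) (n + 1)))).trans
        ((Wm_mul_Wm _ _ _ _).trans ?_)
      exact Wm_anti p _ (by omega)
    · refine le_sup_of_le_right ?_
      refine (mul_le_mul' (le_refl (Wm p (𝒯.Q j) 2)) (monoEx_le (𝒯.Q j) _ n)).trans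
        ((Wm_mul_Wm _ _ _ _).trans ?_)
      exact Wm_anti p _ (by omega)
    · refine le_sup_of_le_right ((Wm_mul_Wm _ _ _ _).trans ?_)
      exact Wm_anti p _ (by omega)

theorem Wm_le_monoSpan_sup (j n k : ℕ) :
    Wm p (𝒯.Q j) n ≤ monoSpan p (fun l => 𝒯.π j (x l)) n ⊔ Wm p (𝒯.Q j) (n + k) := by
  induction k with
  | zero => exact le_sup_right
  | succ k ih =>
    refine ih.trans (sup_le le_sup_left ?_)
    refine (Wm_le_sup h j (n + k)).trans (sup_le ?_ ?_)
    · exact (monoEx_le_monoSpan _ _ (by omega)).trans le_sup_left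
    · exact le_sup_right

theorem monoSpan_eq_Wm (j n : ℕ) : monoSpan p (fun l => 𝒯.π j (x l)) n = Wm p (𝒯.Q j) n := by
  refine le_antisymm (monoSpan_le _ _ _) ?_
  obtain ⟨N, hN⟩ := exists_Wm_eq_bot p (𝒯.Q j) (IsPGroup.of_card (n := j * d)
    (by rw [Nat.card_eq_fintype_card, h.card]))
  refine (Wm_le_monoSpan_sup h j n N).trans (sup_le le_rfl ?_)
  rw [show Wm p (𝒯.Q j) (n + N) = ⊥ from le_bot_iff.1 (hN ▸ Wm_anti p _ (by omega))]
  exact bot_le

end Tower

end Pool.Agent.H4.Atiyah.TowerMonoAux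

namespace Pool.Agent.H4.Atiyah

open TowerMonoAux

section M18

variable (p : ℕ) {Q : Type} [Group Q] {d : ℕ}

variable [Fact p.Prime]

theorem mono_linearIndependent (𝒯 : Sys) (x : Fin d → 𝒯.G) (h : IsTower p 𝒯 d x) (j : ℕ) :
    LinearIndependent (ZMod p) fun α : Fin d → Fin (p ^ j) =>
      mono p (fun l => 𝒯.π j (x l)) fun l => (α l : ℕ) := by
  refine linearIndependent_of_top_le_span_of_card_eq_finrank (span_le_top h j) ?_
  rw [Module.finrank_eq_card_basis (MonoidAlgebra.basis (𝒯.Q j) (ZMod p)), h.card]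
  simp [← pow_mul]

theorem mono_eq_zero (𝒯 : Sys) (x : Fin d → 𝒯.G) (h : IsTower p 𝒯 d x) (j : ℕ)
    (α : Fin d → ℕ) (l : Fin d) (hl : p ^ j ≤ α l) : mono p (fun l => 𝒯.π j (x l)) α = 0 := by
  refine List.prod_eq_zero ?_
  rw [List.mem_ofFn]
  refine ⟨l, ?_⟩
  have h1 : (MonoidAlgebra.single (𝒯.π j (x l)) 1 - 1 : MonoidAlgebra (ZMod p) (𝒯.Q j)) ^ p ^ j = 0 := by
    rw [← single_pow_sub_one, ← map_pow, h.pow, ← MonoidAlgebra.one_def, sub_self]
  exact pow_eq_zero_of_le hl h1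

theorem monoSpan_zero (𝒯 : Sys) (x : Fin d → 𝒯.G) (h : IsTower p 𝒯 d x) (j : ℕ) :
    monoSpan p (fun l => 𝒯.π j (x l)) 0 = ⊤ := monoSpan_zero_eq h j

theorem monoSpan_mul (𝒯 : Sys) (x : Fin d → 𝒯.G) (h : IsTower p 𝒯 d x) (j : ℕ) (m n : ℕ)
    (a b : MonoidAlgebra (ZMod p) (𝒯.Q j)) (ha : a ∈ monoSpan p (fun l => 𝒯.π j (x l)) m)
    (hb : b ∈ monoSpan p (fun l => 𝒯.π j (x l)) n) :
    a * b ∈ monoSpan p (fun l => 𝒯.π j (x l)) (m + n) := by
  rw [monoSpan_eq_Wm h] at *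
  exact Wm_mul p _ ha hb

theorem mono_mul_sub (𝒯 : Sys) (x : Fin d → 𝒯.G) (h : IsTower p 𝒯 d x) (j : ℕ)
    (α β : Fin d → ℕ) :
    mono p (fun l => 𝒯.π j (x l)) α * mono p (fun l => 𝒯.π j (x l)) β -
      mono p (fun l => 𝒯.π j (x l)) (α + β) ∈
      monoSpan p (fun l => 𝒯.π j (x l)) (∑ l, α l + ∑ l, β l + 1) := by
  rw [monoSpan_eq_Wm h]
  exact mono_mul_sub_Wm h j α β

end M18

end Pool.Agent.H4.Atiyah
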