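import Pool.Agent.H4.Atiyah.Ess

/-!
# The von Neumann dimension of the kernel and its approximation by finite quotients (M06)

Parts: powers of a contraction; spectral counting for finite matrices; matrices over group
algebras; right multiplication on `ℓ²`; the approximation theorem `vnDim_approx`.
-/

set_option autoImplicit false
set_option linter.unusedSectionVars false

/-!
# Kernel projection as the limit of the powers of a contraction
-/

section VNAbsPart

open Filter Topology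

namespace Pool.Agent.H4.Atiyah


section Abs

variable {H H' : Type*} [NormedAddCommGroup H] [InnerProductSpace ℂ H]
  [NormedAddCommGroup H'] [InnerProductSpace ℂ H']


/-- The contraction `1 - L' L / c`. -/
noncomputable def Sop (L : H →L[ℂ] H') (L' : H' →L[ℂ] H) (c : ℝ) : H →L[ℂ] H :=
  1 - ((c⁻¹ : ℝ) : ℂ) • (L' ∘L L)

variable {L : H →L[ℂ] H'} {L' : H' →L[ℂ] H} {c : ℝ}

theorem Sop_apply (x : H) : Sop L L' c x = x - ((c⁻¹ : ℝ) : ℂ) • L' (L x) := rfl

theorem Sop_symm (hadj : ∀ x y, (inner ℂ (L x) y) = (inner ℂ x (L' y))) (x y : H) :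
    (inner ℂ (Sop L L' c x) y) = (inner ℂ x (Sop L L' c y)) := by
  rw [Sop_apply, Sop_apply, inner_sub_left, inner_sub_right, inner_smul_left, inner_smul_right,
    Complex.conj_ofReal]
  congr 2
  rw [← hadj, ← inner_conj_symm, ← hadj, inner_conj_symm]

theorem Sop_pow_symm (hadj : ∀ x y, (inner ℂ (L x) y) = (inner ℂ x (L' y))) (m : ℕ) (x y : H) :
    (inner ℂ ((Sop L L' c ^ m) x) y) = (inner ℂ x ((Sop L L' c ^ m) y)) := by
  induction m generalizing x y with
  | zero => simp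
  | succ m ih =>
    rw [pow_succ, mul_apply_eq_comp, ih, Sop_symm hadj]
    rw [← mul_apply_eq_comp, ← pow_succ, pow_succ', mul_apply_eq_comp]

theorem norm_Sop_sq (hadj : ∀ x y, (inner ℂ (L x) y) = (inner ℂ x (L' y))) (hc : 0 < c)
    (hL' : ∀ y, ‖L' y‖ ^ 2 ≤ c * ‖y‖ ^ 2) (x : H) :
    ‖Sop L L' c x‖ ^ 2 ≤ ‖x‖ ^ 2 - c⁻¹ * ‖L x‖ ^ 2 := by
  rw [Sop_apply, @norm_sub_sq ℂ, inner_smul_right, ← hadj, norm_smul, inner_self_eq_norm_sq_to_K]
  have h1 := hL' (L x)
  have h2 : RCLike.re (((c⁻¹ : ℝ) : ℂ) * ((‖L x‖ : ℂ)) ^ 2) = c⁻¹ * ‖L x‖ ^ 2 := by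
    rw [← Complex.ofReal_pow, ← Complex.ofReal_mul]
    exact Complex.ofReal_re _
  have h3 : ‖((c⁻¹ : ℝ) : ℂ)‖ = c⁻¹ := by
    rw [Complex.norm_real, Real.norm_of_nonneg (by positivity)]
  have h4 : (c⁻¹ * ‖L' (L x)‖) ^ 2 ≤ c⁻¹ * ‖L x‖ ^ 2 := by
    calc (c⁻¹ * ‖L' (L x)‖) ^ 2 = c⁻¹ ^ 2 * ‖L' (L x)‖ ^ 2 := by ring
      _ ≤ c⁻¹ ^ 2 * (c * ‖L x‖ ^ 2) := by gcongr
      _ = c⁻¹ * ‖L x‖ ^ 2 := by field_simp
  rw [h3]
  erw [h2]
  linarith

theorem norm_Sop_le (hadj : ∀ x y, (inner ℂ (L x) y) = (inner ℂ x (L' y))) (hc : 0 < c)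
    (hL' : ∀ y, ‖L' y‖ ^ 2 ≤ c * ‖y‖ ^ 2) (x : H) : ‖Sop L L' c x‖ ≤ ‖x‖ := by
  have h := norm_Sop_sq hadj hc hL' x
  have h1 : 0 ≤ c⁻¹ * ‖L x‖ ^ 2 := by positivity
  exact le_of_sq_le_sq (by linarith) (norm_nonneg _)

/-- the squared norms of the powers -/
noncomputable def bet (L : H →L[ℂ] H') (L' : H' →L[ℂ] H) (c : ℝ) (x : H) (m : ℕ) : ℝ :=
  ‖(Sop L L' c ^ m) x‖ ^ 2

theorem bet_antitone (hadj : ∀ x y, (inner ℂ (L x) y) = (inner ℂ x (L' y))) (hc : 0 < c)
    (hL' : ∀ y, ‖L' y‖ ^ 2 ≤ c * ‖y‖ ^ 2) (x : H) : Antitone (bet L L' c x) := by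
  apply antitone_nat_of_succ_le
  intro m
  unfold bet
  rw [show (Sop L L' c ^ (m + 1)) x = Sop L L' c ((Sop L L' c ^ m) x) by
    rw [pow_succ', mul_apply_eq_comp]]
  have := norm_Sop_le hadj hc hL' ((Sop L L' c ^ m) x)
  gcongr

theorem inner_pow (hadj : ∀ x y, (inner ℂ (L x) y) = (inner ℂ x (L' y))) (x : H) {a b m : ℕ} (h : a + b = m + m) :
    (inner ℂ ((Sop L L' c ^ a) x) ((Sop L L' c ^ b) x)) = (bet L L' c x m : ℂ) := by
  rw [Sop_pow_symm hadj, ← mul_apply_eq_comp, ← pow_add, h, pow_add,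
    mul_apply_eq_comp, ← Sop_pow_symm hadj, inner_self_eq_norm_sq_to_K]
  unfold bet
  push_cast
  rfl

theorem norm_sub_pow_sq (hadj : ∀ x y, (inner ℂ (L x) y) = (inner ℂ x (L' y))) (x : H) {a b m : ℕ}
    (h : a + b = m + m) :
    ‖(Sop L L' c ^ a) x - (Sop L L' c ^ b) x‖ ^ 2
      = bet L L' c x a - 2 * bet L L' c x m + bet L L' c x b := by
  rw [@norm_sub_sq ℂ, inner_pow hadj x h]
  rfl

theorem pow_fix {z : H} (hz : L z = 0) (m : ℕ) : (Sop L L' c ^ m) z = z := by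
  induction m with
  | zero => simp
  | succ m ih => rw [pow_succ', mul_apply_eq_comp, ih, Sop_apply, hz]; simp

theorem le_norm_sub_sq (hadj : ∀ x y, (inner ℂ (L x) y) = (inner ℂ x (L' y))) (x : H) {z : H} (hz : L z = 0)
    (m : ℕ) : ‖x‖ ^ 2 - bet L L' c x m ≤ ‖x - z‖ ^ 2 := by
  have h1 : (inner ℂ x z) = (inner ℂ ((Sop L L' c ^ m) x) z) := by
    rw [Sop_pow_symm hadj, pow_fix hz]
  have h2 : ‖(inner ℂ x z)‖ ≤ ‖(Sop L L' c ^ m) x‖ * ‖z‖ := by
    rw [h1]; exact norm_inner_le_norm _ _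
  have h3 : RCLike.re (inner ℂ x z) ≤ ‖(Sop L L' c ^ m) x‖ * ‖z‖ :=
    (RCLike.re_le_norm _).trans h2
  rw [@norm_sub_sq ℂ]
  unfold bet
  nlinarith [sq_nonneg (‖(Sop L L' c ^ m) x‖ - ‖z‖)]

/-- The squared norms of the powers of `1 - L' L / c` applied to `x` decrease to
`‖x‖² - dist(x, ker L)²`. -/
theorem tendsto_bet [CompleteSpace H] (hadj : ∀ x y, (inner ℂ (L x) y) = (inner ℂ x (L' y))) (hc : 0 < c)
    (hL' : ∀ y, ‖L' y‖ ^ 2 ≤ c * ‖y‖ ^ 2) (x : H) :
    Tendsto (bet L L' c x) atTop (𝓝 (‖x‖ ^ 2 - Metric.infDist x {z | L z = 0} ^ 2)) := by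
  have hanti := bet_antitone hadj hc hL' x
  have hbdd : BddBelow (Set.range (bet L L' c x)) := by
    refine ⟨0, ?_⟩
    rintro _ ⟨m, rfl⟩
    exact sq_nonneg _
  have hlim := tendsto_atTop_ciInf hanti hbdd
  set ℓ := ⨅ m, bet L L' c x m with hℓ
  have hle : ∀ m, ℓ ≤ bet L L' c x m := fun m => ciInf_le hbdd m
  -- the sequence of even powers is Cauchy
  have hcau : CauchySeq fun m : ℕ => (Sop L L' c ^ (m + m)) x := by
    refine cauchySeq_of_le_tendsto_0 (fun N => Real.sqrt (2 * (bet L L' c x N - ℓ))) ?_ ?_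
    · intro a b N ha hb
      rw [dist_eq_norm]
      apply Real.le_sqrt_of_sq_le
      rw [norm_sub_pow_sq hadj x (show (a + a) + (b + b) = (a + b) + (a + b) by ring)]
      have e1 := hanti (show N ≤ a + a by omega)
      have e2 := hanti (show N ≤ b + b by omega)
      have e3 := hle (a + b)
      linarith
    · have h0 : Tendsto (fun N => 2 * (bet L L' c x N - ℓ)) atTop (𝓝 (2 * (ℓ - ℓ))) :=
        (hlim.sub_const ℓ).const_mul 2
      rw [sub_self, mul_zero] at h0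
      have := (Real.continuous_sqrt.tendsto 0).comp h0
      rwa [Real.sqrt_zero] at this
  obtain ⟨y, hy⟩ := cauchySeq_tendsto_of_complete hcau
  have hb2 : Tendsto (fun m : ℕ => bet L L' c x (m + m)) atTop (𝓝 ℓ) :=
    hlim.comp (tendsto_atTop_mono (fun n => Nat.le_add_left n n) tendsto_id)
  have hb3 : Tendsto (fun m : ℕ => bet L L' c x (m + m + 1)) atTop (𝓝 ℓ) :=
    hlim.comp (tendsto_atTop_mono (fun n => by show n ≤ n + n + 1; omega) tendsto_id)
  -- the limit is in the kernel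
  have hLy : L y = 0 := by
    have h1 : Tendsto (fun m : ℕ => ‖L ((Sop L L' c ^ (m + m)) x)‖ ^ 2) atTop (𝓝 (‖L y‖ ^ 2)) :=
      (((L.continuous.tendsto y).comp hy).norm).pow 2
    have h2 : Tendsto (fun m : ℕ => c * (bet L L' c x (m + m) - bet L L' c x (m + m + 1))) atTop
        (𝓝 (c * (ℓ - ℓ))) := (hb2.sub hb3).const_mul c
    rw [sub_self, mul_zero] at h2
    have h3 : ‖L y‖ ^ 2 ≤ 0 := by
      refine le_of_tendsto_of_tendsto' h1 h2 fun m => ?_
      have h4 := norm_Sop_sq hadj hc hL' ((Sop L L' c ^ (m + m)) x)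
      unfold bet
      rw [pow_succ' _ (m + m), mul_apply_eq_comp]
      have h5 : c * (c⁻¹ * ‖L ((Sop L L' c ^ (m + m)) x)‖ ^ 2)
          = ‖L ((Sop L L' c ^ (m + m)) x)‖ ^ 2 := by field_simp
      rw [← h5]
      exact mul_le_mul_of_nonneg_left (by linarith) hc.le
    have h6 : ‖L y‖ = 0 := by
      have := sq_nonneg ‖L y‖
      exact pow_eq_zero_iff (two_ne_zero) |>.1 (le_antisymm h3 this)
    exact norm_eq_zero.1 h6
  -- distance
  have hdist : ‖x - y‖ ^ 2 = ‖x‖ ^ 2 - ℓ := by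
    have h1 : Tendsto (fun m : ℕ => ‖x - (Sop L L' c ^ (m + m)) x‖ ^ 2) atTop
        (𝓝 (‖x - y‖ ^ 2)) := ((hy.const_sub x).norm).pow 2
    have h2 : ∀ m : ℕ, ‖x - (Sop L L' c ^ (m + m)) x‖ ^ 2
        = ‖x‖ ^ 2 - 2 * bet L L' c x m + bet L L' c x (m + m) := by
      intro m
      have := norm_sub_pow_sq (L := L) (L' := L') (c := c) hadj x (a := 0) (b := m + m) (m := m)
        (by omega)
      rw [pow_zero, one_apply_eq_self] at this
      rw [this]
      unfold bet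
      simp
    have h3 : Tendsto (fun m : ℕ => ‖x‖ ^ 2 - 2 * bet L L' c x m + bet L L' c x (m + m)) atTop
        (𝓝 (‖x‖ ^ 2 - 2 * ℓ + ℓ)) := ((hlim.const_mul 2).const_sub _).add hb2
    simp_rw [h2] at h1
    rw [tendsto_nhds_unique h1 h3]
    ring
  have hinf : Metric.infDist x {z | L z = 0} = ‖x - y‖ := by
    apply le_antisymm
    · rw [← dist_eq_norm]
      exact Metric.infDist_le_dist_of_mem hLy
    · rw [Metric.le_infDist ⟨y, hLy⟩]
      intro z hz
      rw [dist_eq_norm]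
      have h1 : ‖x - y‖ ^ 2 ≤ ‖x - z‖ ^ 2 := by
        rw [hdist]
        have h2 : Tendsto (fun m => ‖x‖ ^ 2 - bet L L' c x m) atTop (𝓝 (‖x‖ ^ 2 - ℓ)) :=
          hlim.const_sub _
        exact le_of_tendsto' h2 fun m => le_norm_sub_sq hadj x hz m
      exact le_of_sq_le_sq h1 (norm_nonneg _)
  rw [hinf, hdist, sub_sub_cancel]
  exact hlim

end Abs

end Pool.Agent.H4.Atiyah

end VNAbsPart

/-!
# Spectral counting for finite matrices
-/

section VNFinPart

open Filter Topology Matrix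
open scoped ComplexOrder

namespace Pool.Agent.H4.Atiyah


section Fin

variable {α β : Type*} [Fintype α] [Fintype β] [DecidableEq α]

theorem nrm_sq_complex {ι : Type*} [Fintype ι] (x : ι → ℂ) :
    ((nrm x ^ 2 : ℝ) : ℂ) = x ⬝ᵥ star x := by
  rw [nrm_sq, dotProduct]
  push_cast
  apply Finset.sum_congr rfl
  intro i _
  rw [Pi.star_apply]
  exact (Complex.mul_conj' (x i)).symm

theorem nrm_vecMul_sq (x : α → ℂ) (M : Matrix α β ℂ) :
    ((nrm (x ᵥ* M) ^ 2 : ℝ) : ℂ) = (x ᵥ* (M * Mᴴ)) ⬝ᵥ star x := by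
  rw [nrm_sq_complex, star_vecMul, dotProduct_mulVec, vecMul_vecMul]

variable (M : Matrix α β ℂ)

/-- Hermitian square -/
theorem herm_sq : (M * Mᴴ).IsHermitian := isHermitian_mul_conjTranspose_self M

/-- the unitary diagonalizing `M Mᴴ` -/
noncomputable def uu : Matrix α α ℂ := ((herm_sq M).eigenvectorUnitary : Matrix α α ℂ)

/-- the eigenvalues of `M Mᴴ` -/
noncomputable def vnEv (i : α) : ℝ := (herm_sq M).eigenvalues i

theorem uu_mul_star : uu M * star (uu M) = 1 := by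
  unfold uu
  exact Unitary.coe_mul_star_self _

theorem star_mul_uu : star (uu M) * uu M = 1 := by
  unfold uu
  exact Unitary.coe_star_mul_self _

theorem spec : M * Mᴴ = uu M * diagonal (fun i => (vnEv M i : ℂ)) * star (uu M) := by
  have := (herm_sq M).spectral_theorem
  rw [Unitary.conjStarAlgAut_apply] at this
  exact this

theorem nrm_uu (x : α → ℂ) : nrm (x ᵥ* uu M) ^ 2 = nrm x ^ 2 := by
  have h : ((nrm (x ᵥ* uu M) ^ 2 : ℝ) : ℂ) = ((nrm x ^ 2 : ℝ) : ℂ) := by
    rw [nrm_vecMul_sq, ← star_eq_conjTranspose, uu_mul_star, vecMul_one, nrm_sq_complex]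
  exact_mod_cast h

theorem nrm_vecMul_ev (x : α → ℂ) :
    nrm (x ᵥ* M) ^ 2 = ∑ i, vnEv M i * ‖(x ᵥ* uu M) i‖ ^ 2 := by
  have h : ((nrm (x ᵥ* M) ^ 2 : ℝ) : ℂ) = ((∑ i, vnEv M i * ‖(x ᵥ* uu M) i‖ ^ 2 : ℝ) : ℂ) := by
    rw [nrm_vecMul_sq, spec, ← vecMul_vecMul, ← dotProduct_mulVec, star_eq_conjTranspose,
      ← star_vecMul, ← vecMul_vecMul, dotProduct]
    push_cast
    apply Finset.sum_congr rfl
    intro i _
    rw [vecMul_diagonal, Pi.star_apply, ← Complex.mul_conj']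
    show _ * _ * (starRingEnd ℂ) _ = _
    ring
  exact_mod_cast h

theorem ev_nonneg (i : α) : 0 ≤ vnEv M i :=
  (posSemidef_self_mul_conjTranspose M).eigenvalues_nonneg i

theorem ev_le {c : ℝ} (hM : ∀ x : α → ℂ, nrm (x ᵥ* M) ^ 2 ≤ c * nrm x ^ 2) (i : α) :
    vnEv M i ≤ c := by
  have h1 : (Pi.single i (1 : ℂ) ᵥ* star (uu M)) ᵥ* uu M = Pi.single i 1 := by
    rw [vecMul_vecMul, star_mul_uu, vecMul_one]
  have h2 : nrm (Pi.single i (1 : ℂ)) ^ 2 = 1 := by
    rw [nrm_sq, Finset.sum_eq_single i]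
    · simp
    · intro j _ hj; simp [hj]
    · simp
  have h3 := hM (Pi.single i (1 : ℂ) ᵥ* star (uu M))
  rw [nrm_vecMul_ev, ← nrm_uu M, h1, h2, mul_one] at h3
  rw [Finset.sum_eq_single i] at h3
  · simpa using h3
  · intro j _ hj; simp [hj]
  · simp

/-- traces of the powers of `1 - M Mᴴ / c` -/
theorem trace_pow (c : ℝ) (r : ℕ) :
    ((1 - ((c⁻¹ : ℝ) : ℂ) • (M * Mᴴ)) ^ r).trace = ((∑ i, (1 - c⁻¹ * vnEv M i) ^ r : ℝ) : ℂ) := by
  have h1 : (1 - ((c⁻¹ : ℝ) : ℂ) • (M * Mᴴ))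
      = uu M * diagonal (fun i => ((1 - c⁻¹ * vnEv M i : ℝ) : ℂ)) * star (uu M) := by
    have h2 : diagonal (fun i => ((1 - c⁻¹ * vnEv M i : ℝ) : ℂ))
        = 1 - ((c⁻¹ : ℝ) : ℂ) • diagonal (fun i => (vnEv M i : ℂ)) := by
      rw [← diagonal_one, ← diagonal_smul, diagonal_sub]
      congr 1
      funext i
      simp
    rw [h2, mul_sub, sub_mul, mul_one, uu_mul_star, Matrix.mul_smul, Matrix.smul_mul, ← spec]
  have h3 : ∀ r : ℕ, (1 - ((c⁻¹ : ℝ) : ℂ) • (M * Mᴴ)) ^ r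
      = uu M * diagonal (fun i => ((1 - c⁻¹ * vnEv M i : ℝ) : ℂ) ^ r) * star (uu M) := by
    intro r
    induction r with
    | zero => simp [uu_mul_star]
    | succ r ih =>
      rw [pow_succ, ih]
      rw [h1]
      have : uu M * diagonal (fun i => ((1 - c⁻¹ * vnEv M i : ℝ) : ℂ) ^ r) * star (uu M) *
          (uu M * diagonal (fun i => ((1 - c⁻¹ * vnEv M i : ℝ) : ℂ)) * star (uu M))
          = uu M * diagonal (fun i => ((1 - c⁻¹ * vnEv M i : ℝ) : ℂ) ^ r) * (star (uu M) *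
          uu M) * diagonal (fun i => ((1 - c⁻¹ * vnEv M i : ℝ) : ℂ)) * star (uu M) := by
        simp only [mul_assoc]
      rw [this, star_mul_uu, mul_one, mul_assoc (uu M), diagonal_mul_diagonal]
      simp only [pow_succ]
  rw [h3, trace_mul_comm, ← mul_assoc, star_mul_uu, one_mul, trace_diagonal]
  push_cast
  rfl

/-- Dimension of the left kernel is bounded by the trace. -/
theorem card_sub_rank_le (c : ℝ) (m : ℕ) :
    (Fintype.card α : ℝ) - M.rank ≤ ∑ i, (1 - c⁻¹ * vnEv M i) ^ (m + m) := by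
  classical
  have h1 : M.rank = Fintype.card {i // vnEv M i ≠ 0} := by
    rw [← rank_self_mul_conjTranspose M]
    exact (herm_sq M).rank_eq_card_non_zero_eigs
  have h2 : (Fintype.card α : ℝ) - M.rank = ∑ i, if vnEv M i = 0 then (1 : ℝ) else 0 := by
    rw [h1, Finset.sum_ite, Finset.sum_const_zero, add_zero, Finset.sum_const, nsmul_eq_mul,
      mul_one, Fintype.card_subtype]
    have h3 := Finset.card_filter_add_card_filter_not (s := (Finset.univ : Finset α))
      (p := fun i => vnEv M i = 0)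
    rw [Finset.card_univ] at h3
    rw [← h3]
    push_cast
    ring
  rw [h2]
  apply Finset.sum_le_sum
  intro i _
  split_ifs with h
  · rw [h]; simp
  · exact Even.pow_nonneg ⟨m, rfl⟩ _

/-- A large space on which `M` is small. -/
theorem exists_small_space {c : ℝ} (hc : 0 < c)
    (hM : ∀ x : α → ℂ, nrm (x ᵥ* M) ^ 2 ≤ c * nrm x ^ 2) {ε : ℝ} (hε : 0 < ε) (m : ℕ) :
    ∃ V : Submodule ℂ (α → ℂ),
      (∑ i, (1 - c⁻¹ * vnEv M i) ^ (m + m)) - Fintype.card α * (1 - c⁻¹ * ε ^ 2) ^ (m + m)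
        ≤ Module.finrank ℂ V ∧ ∀ x ∈ V, nrm (x ᵥ* M) ≤ ε * nrm x := by
  classical
  set f : (α → ℂ) →ₗ[ℂ] ({i // ε ^ 2 < vnEv M i} → ℂ) :=
    (LinearMap.funLeft ℂ ℂ (fun i : {i // ε ^ 2 < vnEv M i} => (i : α))) ∘ₗ (uu M).vecMulLinear
    with hf
  have hfx : ∀ x i, f x i = (x ᵥ* uu M) i.1 := fun x i => rfl
  refine ⟨LinearMap.ker f, ?_, ?_⟩
  · have h1 := LinearMap.finrank_range_add_finrank_ker f
    have h2 : Module.finrank ℂ (LinearMap.range f) ≤ Fintype.card {i // ε ^ 2 < vnEv M i} := by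
      calc Module.finrank ℂ (LinearMap.range f)
          ≤ Module.finrank ℂ ({i // ε ^ 2 < vnEv M i} → ℂ) := Submodule.finrank_le _
        _ = _ := Module.finrank_fintype_fun_eq_card ℂ
    rw [Module.finrank_fintype_fun_eq_card] at h1
    have h3 : (Fintype.card α : ℝ) - Fintype.card {i // ε ^ 2 < vnEv M i}
        ≤ Module.finrank ℂ (LinearMap.ker f) := by
      have : (Fintype.card α : ℝ) = Module.finrank ℂ (LinearMap.range f)
          + Module.finrank ℂ (LinearMap.ker f) := by exact_mod_cast h1.symm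
      have h2' : (Module.finrank ℂ (LinearMap.range f) : ℝ)
          ≤ Fintype.card {i // ε ^ 2 < vnEv M i} := by exact_mod_cast h2
      linarith
    refine le_trans ?_ h3
    have h4 : (Fintype.card α : ℝ) - Fintype.card {i // ε ^ 2 < vnEv M i}
        = ∑ i, if ε ^ 2 < vnEv M i then (0 : ℝ) else 1 := by
      rw [Finset.sum_ite, Finset.sum_const_zero, zero_add, Finset.sum_const, nsmul_eq_mul,
        mul_one, Fintype.card_subtype]
      have h3 := Finset.card_filter_add_card_filter_not (s := (Finset.univ : Finset α))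
        (p := fun i => ε ^ 2 < vnEv M i)
      rw [Finset.card_univ] at h3
      rw [← h3]
      push_cast
      ring
    rw [h4, sub_le_iff_le_add]
    have h5 : (Fintype.card α : ℝ) * (1 - c⁻¹ * ε ^ 2) ^ (m + m)
        = ∑ _i : α, (1 - c⁻¹ * ε ^ 2) ^ (m + m) := by
      rw [Finset.sum_const, Finset.card_univ, nsmul_eq_mul]
    rw [h5, ← Finset.sum_add_distrib]
    apply Finset.sum_le_sum
    intro i _
    have e1 := ev_nonneg M i
    have e2 := ev_le M hM i
    have e3 : c⁻¹ * vnEv M i ≤ 1 := by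
      rw [inv_mul_le_iff₀ hc, mul_one]; exact e2
    have e4 : 0 ≤ c⁻¹ * vnEv M i := by positivity
    split_ifs with h
    · rw [zero_add]
      have e5 : c⁻¹ * ε ^ 2 ≤ c⁻¹ * vnEv M i := by gcongr
      exact pow_le_pow_left₀ (by linarith) (by linarith) _
    · have e6 : (1 - c⁻¹ * vnEv M i) ^ (m + m) ≤ 1 := pow_le_one₀ (by linarith) (by linarith)
      have e7 : 0 ≤ (1 - c⁻¹ * ε ^ 2) ^ (m + m) := Even.pow_nonneg ⟨m, rfl⟩ _
      linarith
  · intro x hx
    have hx' : ∀ i, ε ^ 2 < vnEv M i → (x ᵥ* uu M) i = 0 := by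
      intro i hi
      have := congrFun (LinearMap.mem_ker.1 hx) ⟨i, hi⟩
      rwa [hfx] at this
    have h1 : nrm (x ᵥ* M) ^ 2 ≤ (ε * nrm x) ^ 2 := by
      rw [nrm_vecMul_ev, mul_pow, ← nrm_uu M x, nrm_sq, Finset.mul_sum]
      apply Finset.sum_le_sum
      intro i _
      by_cases h : ε ^ 2 < vnEv M i
      · rw [hx' i h]; simp
      · rw [not_lt] at h; gcongr
    exact le_of_sq_le_sq h1 (mul_nonneg hε.le (nrm_nonneg _))

end Fin

end Pool.Agent.H4.Atiyah

end VNFinPart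

/-!
# Matrices over group algebras: adjoints, traces
-/

section VNGrpPart

open Filter Topology Matrix
open scoped ComplexOrder ComplexConjugate

namespace Pool.Agent.H4.Atiyah


section Grp

/-- The adjoint of an element of the group algebra. -/
noncomputable def astar {G : Type*} [Group G] (a : MonoidAlgebra ℂ G) : MonoidAlgebra ℂ G :=
  MonoidAlgebra.ofCoeff ((a.coeff.equivMapDomain (Equiv.inv G)).mapRange (starRingEnd ℂ)
    (map_zero _))

theorem astar_coeff {G : Type*} [Group G] (a : MonoidAlgebra ℂ G) (g : G) :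
    (astar a).coeff g = conj (a.coeff g⁻¹) := rfl

theorem astar_zero {G : Type*} [Group G] : astar (0 : MonoidAlgebra ℂ G) = 0 := by
  apply MonoidAlgebra.coeff_injective
  ext g; simp [astar_coeff]

theorem astar_add {G : Type*} [Group G] (a b : MonoidAlgebra ℂ G) :
    astar (a + b) = astar a + astar b := by
  apply MonoidAlgebra.coeff_injective
  ext g; simp [astar_coeff]

theorem astar_single {G : Type*} [Group G] (g : G) (z : ℂ) :
    astar (MonoidAlgebra.single g z) = MonoidAlgebra.single g⁻¹ (conj z) := by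
  classical
  apply MonoidAlgebra.coeff_injective
  ext h
  rw [astar_coeff, MonoidAlgebra.coeff_single, MonoidAlgebra.coeff_single, Finsupp.single_apply,
    Finsupp.single_apply]
  by_cases hh : g = h⁻¹
  · rw [if_pos hh, if_pos (by rw [hh, inv_inv])]
  · rw [if_neg hh, if_neg (fun h2 => hh (by rw [← h2, inv_inv])), map_zero]

theorem map_astar {G Γ : Type*} [Group G] [Group Γ] (π : G →* Γ) (a : MonoidAlgebra ℂ G) :
    MonoidAlgebra.mapDomainRingHom ℂ π (astar a)
      = astar (MonoidAlgebra.mapDomainRingHom ℂ π a) := by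
  induction a using MonoidAlgebra.induction_linear with
  | zero => rw [astar_zero, map_zero, astar_zero]
  | add f g hf hg => rw [astar_add, map_add, map_add, hf, hg, astar_add]
  | single a b =>
    rw [astar_single]
    simp only [MonoidAlgebra.mapDomainRingHom_apply, MonoidAlgebra.mapDomain_single]
    rw [astar_single, map_inv]

/-- Adjoint of a matrix over the group algebra. -/
noncomputable def Astar {G : Type*} [Group G] {κ ν : Type*} (A : Matrix κ ν (MonoidAlgebra ℂ G)) :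
    Matrix ν κ (MonoidAlgebra ℂ G) := Matrix.of fun i j => astar (A j i)

theorem op_astar {G : Type*} [Group G] {κ ν : Type*} (A : Matrix κ ν (MonoidAlgebra ℂ G)) :
    op (Astar A) = (op A)ᴴ := by
  ext ⟨i, g⟩ ⟨j, h⟩
  rw [conjTranspose_apply]
  simp only [op, Astar, Matrix.of_apply, astar_coeff, _root_.mul_inv_rev, inv_inv]
  rfl

theorem Astar_map {G Γ : Type*} [Group G] [Group Γ] (π : G →* Γ) {κ ν : Type*}
    (A : Matrix κ ν (MonoidAlgebra ℂ G)) :
    (Astar A).map (MonoidAlgebra.mapDomainRingHom ℂ π)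
      = Astar (A.map (MonoidAlgebra.mapDomainRingHom ℂ π)) := by
  ext1 i j
  simp only [Astar, Matrix.map_apply, Matrix.of_apply]
  exact map_astar π _

variable {Q : Type*} [Group Q] [Fintype Q] {κ ν μ : Type*} [Fintype κ] [Fintype ν] [Fintype μ]

theorem op_mul (A : Matrix κ ν (MonoidAlgebra ℂ Q)) (B : Matrix ν μ (MonoidAlgebra ℂ Q)) :
    op (A * B) = op A * op B := by
  ext ⟨i, g⟩ ⟨l, h⟩
  rw [Matrix.mul_apply, Fintype.sum_prod_type]
  show ((A * B) i l).coeff (g⁻¹ * h) = _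
  rw [Matrix.mul_apply, MonoidAlgebra.coeff_sum, Finsupp.finsetSum_apply]
  apply Finset.sum_congr rfl
  intro j _
  rw [MonoidAlgebra.coeff_mul_apply_left, Finsupp.sum_fintype _ _ (by simp)]
  rw [← Equiv.sum_comp (Equiv.mulLeft g⁻¹)]
  apply Finset.sum_congr rfl
  intro q _
  simp only [op, Matrix.of_apply, Equiv.coe_mulLeft]
  congr 2
  group

theorem op_one [DecidableEq κ] [DecidableEq Q] :
    op (1 : Matrix κ κ (MonoidAlgebra ℂ Q)) = 1 := by
  ext ⟨i, g⟩ ⟨j, h⟩
  show ((1 : Matrix κ κ (MonoidAlgebra ℂ Q)) i j).coeff (g⁻¹ * h) = _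
  rw [Matrix.one_apply, Matrix.one_apply]
  by_cases hij : i = j
  · subst hij
    rw [if_pos rfl, MonoidAlgebra.one_def, MonoidAlgebra.coeff_single, Finsupp.single_apply]
    by_cases hgh : g = h
    · subst hgh; simp
    · rw [if_neg, if_neg]
      · simpa using hgh
      · intro hc
        apply hgh
        have : g⁻¹ * h = 1 := hc.symm
        rw [inv_mul_eq_one] at this
        exact this
  · rw [if_neg hij, if_neg (fun h => hij (Prod.ext_iff.1 h).1)]
    simp

theorem op_sub (A B : Matrix κ ν (MonoidAlgebra ℂ Q)) : op (A - B) = op A - op B := by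
  ext ⟨i, g⟩ ⟨l, h⟩
  rfl

theorem op_smul (c : ℂ) (A : Matrix κ ν (MonoidAlgebra ℂ Q)) : op (c • A) = c • op A := by
  ext ⟨i, g⟩ ⟨l, h⟩
  rfl

theorem op_pow [DecidableEq κ] [DecidableEq Q] (A : Matrix κ κ (MonoidAlgebra ℂ Q)) (m : ℕ) :
    op (A ^ m) = op A ^ m := by
  induction m with
  | zero => rw [pow_zero, pow_zero, op_one]
  | succ m ih => rw [pow_succ, pow_succ, op_mul, ih]

/-- Sum of the squares of the coefficients. -/
noncomputable def sqn {G : Type*} [Group G] (a : MonoidAlgebra ℂ G) : ℝ :=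
  a.coeff.sum fun _ z => ‖z‖ ^ 2

theorem sqn_fintype (a : MonoidAlgebra ℂ Q) : sqn a = ∑ g, ‖a.coeff g‖ ^ 2 := by
  unfold sqn
  exact Finsupp.sum_fintype _ _ (by simp)

theorem sqn_map {G Γ : Type*} [Group G] [Group Γ] (π : G →* Γ) (a : MonoidAlgebra ℂ G)
    (h : Set.InjOn π a.coeff.support) :
    sqn (MonoidAlgebra.mapDomainRingHom ℂ π a) = sqn a := by
  classical
  unfold sqn
  show (Finsupp.mapDomain π a.coeff).sum _ = _
  rw [Finsupp.sum, Finsupp.sum, Finsupp.mapDomain_support_of_injOn _ h, Finset.sum_image h]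
  apply Finset.sum_congr rfl
  intro g hg
  rw [Finsupp.mapDomain_apply' _ _ (le_refl _) h hg]

theorem eventually_injOn {G : Type} [Group G] {P : ℕ → Type} [∀ j, Group (P j)]
    (π : ∀ j, G →* P j) (hπ : ∀ g : G, g ≠ 1 → ∀ᶠ j in atTop, π j g ≠ 1) (F : Finset G) :
    ∀ᶠ j in atTop, Set.InjOn (π j) F := by
  have h1 : ∀ p ∈ F ×ˢ F, p.1 ≠ p.2 → ∀ᶠ j in atTop, π j p.1 ≠ π j p.2 := by
    intro p _ hne
    have hne' : p.1⁻¹ * p.2 ≠ 1 := by
      intro hc
      exact hne (inv_mul_eq_one.1 hc)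
    filter_upwards [hπ _ hne'] with j hj hc
    apply hj
    rw [map_mul, map_inv, hc, inv_mul_cancel]
  have h2 : ∀ᶠ j in atTop, ∀ p ∈ F ×ˢ F, p.1 ≠ p.2 → π j p.1 ≠ π j p.2 := by
    rw [Finset.eventually_all]
    intro p hp
    by_cases hne : p.1 = p.2
    · exact Eventually.of_forall fun j hc => absurd hne hc
    · filter_upwards [h1 p hp hne] with j hj _ using hj
  filter_upwards [h2] with j hj
  intro a ha b hb hab
  by_contra hne
  exact hj (a, b) (Finset.mk_mem_product ha hb) hne hab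

/-- The Hilbert-Schmidt norm of `op B`. -/
theorem trace_op_sq (B : Matrix κ κ (MonoidAlgebra ℂ Q)) :
    (op B * (op B)ᴴ).trace = ((Fintype.card Q * ∑ i, ∑ i', sqn (B i i') : ℝ) : ℂ) := by
  have h : (op B * (op B)ᴴ).trace = ((∑ x, ∑ y, ‖op B x y‖ ^ 2 : ℝ) : ℂ) := by
    rw [Matrix.trace]
    push_cast
    apply Finset.sum_congr rfl
    intro x _
    rw [Matrix.diag_apply, Matrix.mul_apply]
    apply Finset.sum_congr rfl
    intro y _
    rw [conjTranspose_apply]
    exact Complex.mul_conj' _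
  rw [h]
  congr 1
  rw [Fintype.sum_prod_type, Finset.mul_sum]
  apply Finset.sum_congr rfl
  intro i _
  simp_rw [Fintype.sum_prod_type]
  rw [Finset.sum_comm, Finset.mul_sum]
  apply Finset.sum_congr rfl
  intro i' _
  rw [sqn_fintype]
  have : ∀ g : Q, ∑ h, ‖op B (i, g) (i', h)‖ ^ 2 = ∑ h, ‖(B i i').coeff h‖ ^ 2 := by
    intro g
    rw [← Equiv.sum_comp (Equiv.mulLeft g)]
    apply Finset.sum_congr rfl
    intro h _
    simp [op]
  rw [Finset.sum_congr rfl fun g _ => this g, Finset.sum_const, Finset.card_univ, nsmul_eq_mul]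

end Grp

end Pool.Agent.H4.Atiyah

end VNGrpPart

/-!
# Right multiplication on `ℓ²`
-/

section VNOpPart

open Filter Topology
open scoped ComplexOrder ComplexConjugate

namespace Pool.Agent.H4.Atiyah


section Op

variable {Γ : Type*} [Group Γ] {κ ν : Type*} [Fintype κ] [Fintype ν] [DecidableEq κ]
  [DecidableEq ν]

/-- `ℓ²(κ × Γ)` -/
noncomputable abbrev LL (κ Γ : Type*) := lp (fun _ : κ × Γ => ℂ) 2

theorem two_toReal : (0 : ℝ) < (2 : ENNReal).toReal := by norm_num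

theorem memlp_iff {ι : Type*} (f : ι → ℂ) :
    Memℓp (E := fun _ => ℂ) f 2 ↔ Summable fun i => ‖f i‖ ^ 2 := by
  rw [memℓp_gen_iff two_toReal]
  simp

theorem norm_sq_lp {ι : Type*} (x : lp (fun _ : ι => ℂ) 2) : ‖x‖ ^ 2 = ∑' i, ‖x i‖ ^ 2 := by
  have := lp.norm_rpow_eq_tsum two_toReal x
  simpa using this

theorem inj_pt (j : κ) (s : Γ) : Function.Injective fun h : Γ => (j, h * s⁻¹) := by
  intro a b hab
  exact mul_right_cancel (Prod.ext_iff.1 hab).2

theorem inj_pt' (i : ν) : Function.Injective fun h : Γ => (i, h) := by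
  intro a b hab
  exact (Prod.ext_iff.1 hab).2

/-- elementary right translation -/
def Efun (j : κ) (i : ν) (s : Γ) (x : κ × Γ → ℂ) : ν × Γ → ℂ :=
  fun p => if p.1 = i then x (j, p.2 * s⁻¹) else 0

theorem Efun_off (j : κ) (i : ν) (s : Γ) (x : κ × Γ → ℂ) (p : ν × Γ)
    (hp : p ∉ Set.range fun h : Γ => (i, h)) : Efun j i s x p = 0 := by
  unfold Efun
  rw [if_neg]
  intro h
  exact hp ⟨p.2, by rw [← h]⟩

theorem Efun_summable (j : κ) (i : ν) (s : Γ) {x : κ × Γ → ℂ} (hx : Summable fun p => ‖x p‖ ^ 2) :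
    Summable fun p => ‖Efun j i s x p‖ ^ 2 := by
  rw [← (inj_pt' (Γ := Γ) i).summable_iff]
  · have := hx.comp_injective (inj_pt j s)
    refine this.congr fun h => ?_
    simp [Efun]
  · intro p hp
    rw [Efun_off j i s x p hp]; simp

theorem Efun_tsum (j : κ) (i : ν) (s : Γ) {x : κ × Γ → ℂ} (hx : Summable fun p => ‖x p‖ ^ 2) :
    ∑' p, ‖Efun j i s x p‖ ^ 2 ≤ ∑' p, ‖x p‖ ^ 2 := by
  rw [← (inj_pt' (Γ := Γ) i).tsum_eq]
  · have := tsum_comp_le_tsum_of_inj hx (fun p => sq_nonneg _) (inj_pt j s)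
    refine le_trans (le_of_eq ?_) this
    apply tsum_congr
    intro h
    simp [Efun]
  · intro p hp
    by_contra hc
    exact hp (by
      show ‖Efun j i s x p‖ ^ 2 = 0
      rw [Efun_off j i s x p hc]; simp)

/-- elementary right translation as an operator -/
noncomputable def Eop (j : κ) (i : ν) (s : Γ) : LL κ Γ →L[ℂ] LL ν Γ :=
  LinearMap.mkContinuous
    { toFun := fun x => ⟨Efun j i s x, (memlp_iff _).2 (Efun_summable j i s
        ((memlp_iff _).1 (lp.memℓp x)))⟩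
      map_add' := by
        intro x y
        ext p
        show Efun j i s (x + y : LL κ Γ) p = Efun j i s x p + Efun j i s y p
        unfold Efun
        split_ifs
        · rfl
        · simp
      map_smul' := by
        intro c x
        ext p
        show Efun j i s (c • x : LL κ Γ) p = c • Efun j i s x p
        unfold Efun
        split_ifs
        · rfl
        · simp }
    1 (by
      intro x
      rw [one_mul]
      apply le_of_sq_le_sq _ (norm_nonneg _)
      rw [norm_sq_lp, norm_sq_lp]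
      exact Efun_tsum j i s ((memlp_iff _).1 (lp.memℓp x)))

theorem Eop_apply (j : κ) (i : ν) (s : Γ) (x : LL κ Γ) (p : ν × Γ) :
    Eop j i s x p = if p.1 = i then x (j, p.2 * s⁻¹) else 0 := rfl

theorem norm_Eop (j : κ) (i : ν) (s : Γ) : ‖(Eop j i s : LL κ Γ →L[ℂ] LL ν Γ)‖ ≤ 1 :=
  LinearMap.mkContinuous_norm_le _ zero_le_one _

theorem Eop_adj (j : κ) (i : ν) (s : Γ) (x : LL κ Γ) (y : LL ν Γ) :
    inner ℂ (Eop j i s x) y = inner ℂ x (Eop i j s⁻¹ y) := by
  rw [lp.inner_eq_tsum, lp.inner_eq_tsum]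
  rw [← (inj_pt' (Γ := Γ) i).tsum_eq, ← (inj_pt (Γ := Γ) j s).tsum_eq]
  · apply tsum_congr
    intro h
    simp [Eop_apply]
  · intro p hp
    by_contra hc
    apply hp
    show inner ℂ (x p) (Eop i j s⁻¹ y p) = 0
    have h0 : Eop i j s⁻¹ y p = 0 := by
      rw [Eop_apply, if_neg]
      intro h
      exact hc ⟨p.2 * s, by simp [← h]⟩
    rw [h0, inner_zero_right]
  · intro p hp
    by_contra hc
    apply hp
    show inner ℂ (Eop j i s x p) (y p) = 0
    have h0 : Eop j i s x p = 0 := by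
      rw [Eop_apply, if_neg]
      intro h
      exact hc ⟨p.2, by rw [← h]⟩
    rw [h0, inner_zero_left]

variable {G : Type*} [Group G]

/-- Right multiplication by the image of `A` under `π`. -/
noncomputable def Lop (π : G →* Γ) (A : Matrix κ ν (MonoidAlgebra ℂ G)) : LL κ Γ →L[ℂ] LL ν Γ :=
  ∑ j, ∑ i, (A j i).coeff.sum fun s z => z • Eop j i (π s)

/-- The sum of the absolute values of the coefficients. -/
noncomputable def l1 (A : Matrix κ ν (MonoidAlgebra ℂ G)) : ℝ :=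
  ∑ j, ∑ i, (A j i).coeff.sum fun _ z => ‖z‖

theorem l1_nonneg (A : Matrix κ ν (MonoidAlgebra ℂ G)) : 0 ≤ l1 A :=
  Finset.sum_nonneg fun _ _ => Finset.sum_nonneg fun _ _ => Finset.sum_nonneg fun _ _ =>
    norm_nonneg _

theorem norm_Lop (π : G →* Γ) (A : Matrix κ ν (MonoidAlgebra ℂ G)) : ‖Lop π A‖ ≤ l1 A := by
  unfold Lop l1
  refine (norm_sum_le _ _).trans (Finset.sum_le_sum fun j _ => ?_)
  refine (norm_sum_le _ _).trans (Finset.sum_le_sum fun i _ => ?_)
  refine (norm_sum_le _ _).trans (Finset.sum_le_sum fun s _ => ?_)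
  rw [norm_smul]
  calc _ ≤ ‖(A j i).coeff s‖ * 1 := by gcongr; exact norm_Eop _ _ _
    _ = _ := mul_one _

theorem lp_sum_apply {ι : Type*} (t : Finset ι) (f : ι → LL ν Γ) (p : ν × Γ) :
    (∑ j ∈ t, f j : LL ν Γ) p = ∑ j ∈ t, f j p := by
  rw [lp.coeFn_sum, Finset.sum_apply]

theorem lp_smul_apply (z : ℂ) (f : LL ν Γ) (p : ν × Γ) : (z • f : LL ν Γ) p = z * f p := rfl

theorem Lop_apply (π : G →* Γ) (A : Matrix κ ν (MonoidAlgebra ℂ G)) (x : LL κ Γ) (i : ν) (h : Γ) :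
    Lop π A x (i, h) = ∑ j, (A j i).coeff.sum fun s z => x (j, h * (π s)⁻¹) * z := by
  have h1 : Lop π A x = ∑ j, ∑ i, (A j i).coeff.sum fun s z => z • Eop j i (π s) x := by
    unfold Lop
    simp only [sum_apply, Finsupp.sum, smul_apply]
  rw [h1, lp_sum_apply]
  apply Finset.sum_congr rfl
  intro j _
  rw [lp_sum_apply, Finset.sum_eq_single i]
  · unfold Finsupp.sum
    rw [lp_sum_apply]
    apply Finset.sum_congr rfl
    intro s _
    rw [lp_smul_apply, Eop_apply, if_pos rfl, mul_comm]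
  · intro i' _ hi'
    unfold Finsupp.sum
    rw [lp_sum_apply]
    apply Finset.sum_eq_zero
    intro s _
    rw [lp_smul_apply, Eop_apply, if_neg (Ne.symm hi'), mul_zero]
  · simp

theorem Lop_adj (π : G →* Γ) (A : Matrix κ ν (MonoidAlgebra ℂ G)) (x : LL κ Γ) (y : LL ν Γ) :
    inner ℂ (Lop π A x) y = inner ℂ x (Lop π (Astar A) y) := by
  classical
  unfold Lop
  simp only [sum_apply, sum_inner, inner_sum, Finsupp.sum, smul_apply]
  rw [Finset.sum_comm]
  apply Finset.sum_congr rfl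
  intro i _
  apply Finset.sum_congr rfl
  intro j _
  have h1 : (Astar A i j).coeff.support = (A j i).coeff.support.image (fun s => s⁻¹) := by
    ext s
    rw [Finset.mem_image, Finsupp.mem_support_iff]
    show (astar (A j i)).coeff s ≠ 0 ↔ _
    rw [astar_coeff]
    constructor
    · intro hs
      exact ⟨s⁻¹, Finsupp.mem_support_iff.2 fun h0 => hs (by rw [h0, map_zero]), inv_inv s⟩
    · rintro ⟨t, ht, rfl⟩
      rw [inv_inv]
      rw [Finsupp.mem_support_iff] at ht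
      intro h0
      exact ht ((map_eq_zero _).1 h0)
  rw [h1, Finset.sum_image (fun a _ b _ h => inv_injective h)]
  apply Finset.sum_congr rfl
  intro s _
  rw [inner_smul_left, inner_smul_right, Eop_adj, map_inv π]
  congr 1
  show _ = (astar (A j i)).coeff s⁻¹
  rw [astar_coeff, inv_inv]

end Op

end Pool.Agent.H4.Atiyah

end VNOpPart

/-!
# The von Neumann dimension of the kernel and its approximation by finite quotients
-/

section VNPart

open Filter Topology

namespace Pool.Agent.H4.Atiyah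


/-- the left kernel of a matrix over the group ring acting on `ℓ²(G)` -/
def l2ker {G : Type} [Group G] {k n : ℕ} (A : Matrix (Fin k) (Fin n) (MonoidAlgebra ℂ G)) :
    Set (lp (fun _ : Fin k × G => ℂ) 2) :=
  {x | ∀ i : Fin n, ∀ g : G,
    ∑ j' : Fin k, ∑ h ∈ (A j' i).coeff.support, x (j', g * h⁻¹) * (A j' i).coeff h = 0}

/-- the von Neumann dimension of the kernel -/
noncomputable def vnDim {G : Type} [Group G] [DecidableEq G] {k n : ℕ}
    (A : Matrix (Fin k) (Fin n) (MonoidAlgebra ℂ G)) : ℝ :=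
  ∑ j : Fin k, (1 - Metric.infDist
    (lp.single 2 (j, (1 : G)) (1 : ℂ) : lp (fun _ : Fin k × G => ℂ) 2) (l2ker A) ^ 2)

section Vec

variable {G : Type*} [Group G] {κ ν : Type*} [Fintype κ] [Fintype ν] [DecidableEq κ]
  [DecidableEq ν]

theorem vec_off [DecidableEq G] (v : κ → MonoidAlgebra ℂ G) (p : κ × G)
    (hp : p ∉ (Finset.univ : Finset κ) ×ˢ (Finset.univ.biUnion fun i => (v i).coeff.support)) :
    (v p.1).coeff p.2 = 0 := by
  by_contra hc
  apply hp
  rw [Finset.mem_product]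
  exact ⟨Finset.mem_univ _, Finset.mem_biUnion.2 ⟨p.1, Finset.mem_univ _,
    Finsupp.mem_support_iff.2 hc⟩⟩

theorem vec_summable (v : κ → MonoidAlgebra ℂ G) :
    Summable fun p : κ × G => ‖(v p.1).coeff p.2‖ ^ 2 := by
  classical
  apply summable_of_ne_finset_zero
    (s := (Finset.univ : Finset κ) ×ˢ (Finset.univ.biUnion fun i => (v i).coeff.support))
  intro p hp
  rw [vec_off v p hp]
  simp

/-- finitely supported vectors -/
noncomputable def vec (v : κ → MonoidAlgebra ℂ G) : LL κ G :=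
  ⟨fun p => (v p.1).coeff p.2, (memlp_iff _).2 (vec_summable v)⟩

theorem vec_apply (v : κ → MonoidAlgebra ℂ G) (p : κ × G) : vec v p = (v p.1).coeff p.2 := rfl

theorem norm_vec (v : κ → MonoidAlgebra ℂ G) : ‖vec v‖ ^ 2 = ∑ i, sqn (v i) := by
  classical
  rw [norm_sq_lp, tsum_eq_sum
    (s := (Finset.univ : Finset κ) ×ˢ (Finset.univ.biUnion fun i => (v i).coeff.support))]
  · rw [Finset.sum_product]
    apply Finset.sum_congr rfl
    intro i _
    unfold sqn Finsupp.sum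
    symm
    apply Finset.sum_subset
    · intro g hg
      exact Finset.mem_biUnion.2 ⟨i, Finset.mem_univ _, hg⟩
    · intro g _ hg
      rw [Finsupp.notMem_support_iff.1 hg]
      simp
  · intro p hp
    rw [vec_apply, vec_off v p hp]
    simp

theorem Lop_vec (A : Matrix κ ν (MonoidAlgebra ℂ G)) (v : κ → MonoidAlgebra ℂ G) :
    Lop (MonoidHom.id G) A (vec v) = vec (Matrix.vecMul v A) := by
  ext ⟨i, h⟩
  rw [Lop_apply, vec_apply]
  show _ = (∑ j, v j * A j i).coeff h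
  rw [MonoidAlgebra.coeff_sum, Finsupp.finsetSum_apply]
  apply Finset.sum_congr rfl
  intro j _
  rw [MonoidAlgebra.coeff_mul_apply_right]
  rfl

/-- the algebraic counterpart of `Sop` -/
noncomputable def Dop (A : Matrix κ ν (MonoidAlgebra ℂ G)) (c : ℝ) :
    Matrix κ κ (MonoidAlgebra ℂ G) := 1 - ((c⁻¹ : ℝ) : ℂ) • (A * Astar A)

theorem Sop_vec (A : Matrix κ ν (MonoidAlgebra ℂ G)) (c : ℝ) (v : κ → MonoidAlgebra ℂ G) :
    Sop (Lop (MonoidHom.id G) A) (Lop (MonoidHom.id G) (Astar A)) c (vec v)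
      = vec (Matrix.vecMul v (Dop A c)) := by
  rw [Sop_apply, Lop_vec, Lop_vec, Matrix.vecMul_vecMul]
  unfold Dop
  rw [Matrix.vecMul_sub, Matrix.vecMul_one, Matrix.vecMul_smul]
  rfl

theorem Sop_pow_vec (A : Matrix κ ν (MonoidAlgebra ℂ G)) (c : ℝ) (m : ℕ)
    (v : κ → MonoidAlgebra ℂ G) :
    (Sop (Lop (MonoidHom.id G) A) (Lop (MonoidHom.id G) (Astar A)) c ^ m) (vec v)
      = vec (Matrix.vecMul v (Dop A c ^ m)) := by
  induction m with
  | zero => simp
  | succ m ih =>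
    rw [pow_succ', mul_apply_eq_comp, ih, Sop_vec, Matrix.vecMul_vecMul, ← pow_succ]

theorem vec_single [DecidableEq G] (j : κ) :
    vec (Pi.single j (1 : MonoidAlgebra ℂ G)) = lp.single 2 (j, (1 : G)) (1 : ℂ) := by
  ext ⟨i, g⟩
  rw [vec_apply, lp.single_apply]
  show ((Pi.single j (1 : MonoidAlgebra ℂ G) : κ → MonoidAlgebra ℂ G) i).coeff g = _
  by_cases hij : i = j
  · subst hij
    rw [Pi.single_eq_same, MonoidAlgebra.one_def, MonoidAlgebra.coeff_single]
    by_cases hg : g = 1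
    · subst hg
      rw [Pi.single_eq_same]
      simp
    · rw [Pi.single_eq_of_ne (fun h => hg (Prod.ext_iff.1 h).2), Finsupp.single_eq_of_ne hg]
  · rw [Pi.single_eq_of_ne hij, Pi.single_eq_of_ne (fun h => hij (Prod.ext_iff.1 h).1)]
    simp

/-- the sum of the squares of the coefficients of the powers -/
noncomputable def phi (A : Matrix κ ν (MonoidAlgebra ℂ G)) (c : ℝ) (m : ℕ) : ℝ :=
  ∑ i, ∑ i', sqn ((Dop A c ^ m) i i')

theorem bet_single [DecidableEq G] (A : Matrix κ ν (MonoidAlgebra ℂ G)) (c : ℝ) (m : ℕ) (j : κ) :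
    bet (Lop (MonoidHom.id G) A) (Lop (MonoidHom.id G) (Astar A)) c
      (lp.single 2 (j, (1 : G)) (1 : ℂ)) m = ∑ i', sqn ((Dop A c ^ m) j i') := by
  unfold bet
  rw [← vec_single, Sop_pow_vec, norm_vec, Matrix.single_one_vecMul]
  rfl

theorem norm_Lop_sq {Γ : Type*} [Group Γ] (π : G →* Γ) (A : Matrix κ ν (MonoidAlgebra ℂ G))
    {c : ℝ} (hc : l1 A ^ 2 ≤ c) (y : LL κ Γ) : ‖Lop π A y‖ ^ 2 ≤ c * ‖y‖ ^ 2 := by
  have h1 : ‖Lop π A y‖ ≤ l1 A * ‖y‖ :=
    ((Lop π A).le_opNorm y).trans (by gcongr; exact norm_Lop π A)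
  calc ‖Lop π A y‖ ^ 2 ≤ (l1 A * ‖y‖) ^ 2 := by gcongr
    _ = l1 A ^ 2 * ‖y‖ ^ 2 := by ring
    _ ≤ _ := by gcongr

/-- the bound at a finite level -/
theorem nrm_op_le {P : Type*} [Group P] [Fintype P] (π : G →* P)
    (A : Matrix κ ν (MonoidAlgebra ℂ G)) {c : ℝ} (hc : l1 A ^ 2 ≤ c) (x : κ × P → ℂ) :
    nrm (Matrix.vecMul x (op (A.map (MonoidAlgebra.mapDomainRingHom ℂ π)))) ^ 2
      ≤ c * nrm x ^ 2 := by
  have hs : Summable fun p => ‖x p‖ ^ 2 := (hasSum_fintype _).summable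
  set X : LL κ P := ⟨x, (memlp_iff _).2 hs⟩ with hX
  have h1 : ‖X‖ ^ 2 = nrm x ^ 2 := by
    rw [norm_sq_lp, tsum_fintype, nrm_sq]
  have h2 : ‖Lop π A X‖ ^ 2
      = nrm (Matrix.vecMul x (op (A.map (MonoidAlgebra.mapDomainRingHom ℂ π)))) ^ 2 := by
    rw [norm_sq_lp, tsum_fintype, nrm_sq]
    apply Finset.sum_congr rfl
    rintro ⟨i, h⟩ _
    congr 2
    rw [Lop_apply]
    show _ = ∑ p, x p * op (A.map (MonoidAlgebra.mapDomainRingHom ℂ π)) p (i, h)
    rw [Fintype.sum_prod_type]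
    apply Finset.sum_congr rfl
    intro j _
    show (A j i).coeff.sum (fun s z => x (j, h * (π s)⁻¹) * z)
      = ∑ g, x (j, g) * (Finsupp.mapDomain π (A j i).coeff) (g⁻¹ * h)
    have h3 : (A j i).coeff.sum (fun s z => x (j, h * (π s)⁻¹) * z)
        = (Finsupp.mapDomain π (A j i).coeff).sum (fun t z => x (j, h * t⁻¹) * z) := by
      rw [Finsupp.sum_mapDomain_index]
      · intro t; simp
      · intro t a b; ring
    rw [h3, Finsupp.sum_fintype _ _ (by simp)]
    rw [← Equiv.sum_comp ((Equiv.inv P).trans (Equiv.mulRight h))]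
    apply Finset.sum_congr rfl
    intro g _
    simp only [Equiv.trans_apply, Equiv.inv_apply, Equiv.coe_mulRight, mul_inv_rev, inv_inv]
    rw [mul_inv_cancel_left]
  rw [← h2, ← h1]
  exact norm_Lop_sq π A hc X

end Vec

section Final

variable {G : Type} [Group G] [DecidableEq G] {k n : ℕ}

theorem l2ker_eq (A : Matrix (Fin k) (Fin n) (MonoidAlgebra ℂ G)) :
    l2ker A = {z | Lop (MonoidHom.id G) A z = 0} := by
  ext z
  constructor
  · intro hz
    show Lop (MonoidHom.id G) A z = 0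
    ext ⟨i, h⟩
    rw [Lop_apply]
    exact hz i h
  · intro hz i g
    have hz' : Lop (MonoidHom.id G) A z = 0 := hz
    have h1 := Lop_apply (MonoidHom.id G) A z i g
    rw [hz'] at h1
    exact h1.symm

theorem tendsto_phi (A : Matrix (Fin k) (Fin n) (MonoidAlgebra ℂ G)) {c : ℝ} (hc0 : 0 < c)
    (hc : l1 (Astar A) ^ 2 ≤ c) :
    Tendsto (phi A c) atTop (𝓝 (vnDim A)) ∧ ∀ m, vnDim A ≤ phi A c m := by
  have hadj := Lop_adj (MonoidHom.id G) A
  have hL' := norm_Lop_sq (MonoidHom.id G) (Astar A) hc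
  have hlim := fun j : Fin k => tendsto_bet hadj hc0 hL' (lp.single 2 (j, (1 : G)) (1 : ℂ))
  have hnorm : ∀ j : Fin k, ‖(lp.single 2 (j, (1 : G)) (1 : ℂ) : LL (Fin k) G)‖ ^ 2 = 1 := by
    intro j
    rw [lp.norm_single (by norm_num)]
    simp
  have hphi : ∀ m, phi A c m = ∑ j : Fin k, bet (Lop (MonoidHom.id G) A)
      (Lop (MonoidHom.id G) (Astar A)) c (lp.single 2 (j, (1 : G)) (1 : ℂ)) m := by
    intro m
    unfold phi
    exact Finset.sum_congr rfl fun j _ => (bet_single A c m j).symm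
  have hvn : vnDim A = ∑ j : Fin k, (‖(lp.single 2 (j, (1 : G)) (1 : ℂ) : LL (Fin k) G)‖ ^ 2
      - Metric.infDist (lp.single 2 (j, (1 : G)) (1 : ℂ))
        {z | Lop (MonoidHom.id G) A z = 0} ^ 2) := by
    unfold vnDim
    apply Finset.sum_congr rfl
    intro j _
    rw [hnorm j, l2ker_eq]
  constructor
  · rw [hvn]
    refine (tendsto_finsetSum _ fun j _ => hlim j).congr fun m => ?_
    exact (hphi m).symm
  · intro m
    rw [hvn, hphi]
    apply Finset.sum_le_sum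
    intro j _
    exact (bet_antitone hadj hc0 hL' _).le_of_tendsto (hlim j) m

/-- trace at a finite level -/
theorem trace_level {P : Type} [Group P] [Fintype P] [DecidableEq P] (π : G →* P)
    (A : Matrix (Fin k) (Fin n) (MonoidAlgebra ℂ G)) (c : ℝ) (m : ℕ)
    (hinj : ∀ i i', Set.InjOn π ((Dop A c ^ m) i i').coeff.support) :
    ∑ i, (1 - c⁻¹ * vnEv (op (A.map (MonoidAlgebra.mapDomainRingHom ℂ π))) i) ^ (m + m)
      = Fintype.card P * phi A c m := by
  set f := MonoidAlgebra.mapDomainRingHom ℂ π with hf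
  have h1 := trace_pow (op (A.map f)) c (m + m)
  have h2 : (1 - ((c⁻¹ : ℝ) : ℂ) • (op (A.map f) * (op (A.map f)).conjTranspose))
      = op ((Dop A c).map f) := by
    rw [← op_astar, ← op_mul, ← op_smul, ← op_one, ← op_sub]
    congr 1
    unfold Dop
    rw [← Astar_map, ← Matrix.map_mul]
    ext1 i j
    simp only [Matrix.map_apply, Matrix.sub_apply, Matrix.smul_apply, map_sub]
    congr 1
    · rw [Matrix.one_apply, Matrix.one_apply]
      split_ifs <;> simp
    · apply MonoidAlgebra.coeff_injective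
      show _ = Finsupp.mapDomain π ((((c⁻¹ : ℝ) : ℂ) • (A * Astar A) i j).coeff)
      rw [MonoidAlgebra.coeff_smul, MonoidAlgebra.coeff_smul, Finsupp.mapDomain_smul]
      rfl
  have h3 : (op ((Dop A c).map f)).IsHermitian := by
    rw [← h2]
    refine Matrix.IsHermitian.sub Matrix.isHermitian_one ?_
    refine Matrix.IsHermitian.smul (herm_sq _) ?_
    exact Complex.conj_ofReal _
  have h4 : (op ((Dop A c).map f)) ^ m = op ((Dop A c ^ m).map f) := by
    rw [← op_pow]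
    congr 1
    exact (map_pow f.mapMatrix (Dop A c) m).symm
  rw [h2, pow_add] at h1
  have h5 : (op ((Dop A c).map f) ^ m * op ((Dop A c).map f) ^ m)
      = op ((Dop A c ^ m).map f) * (op ((Dop A c ^ m).map f)).conjTranspose := by
    rw [← h4, (h3.pow m).eq]
  rw [h5, trace_op_sq] at h1
  have h6 : ∀ i i', sqn (((Dop A c ^ m).map f) i i') = sqn ((Dop A c ^ m) i i') := by
    intro i i'
    rw [Matrix.map_apply]
    exact sqn_map π _ (hinj i i')
  have h7 := Complex.ofReal_injective h1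
  rw [← h7]
  unfold phi
  simp_rw [h6]

theorem eventually_inj {P : ℕ → Type} [∀ j, Group (P j)]
    (π : ∀ j, G →* P j) (hπ : ∀ g : G, g ≠ 1 → ∀ᶠ j in atTop, π j g ≠ 1)
    (B : Matrix (Fin k) (Fin k) (MonoidAlgebra ℂ G)) :
    ∀ᶠ j in atTop, ∀ i i', Set.InjOn (π j) (B i i').coeff.support := by
  rw [eventually_all]
  intro i
  rw [eventually_all]
  intro i'
  exact eventually_injOn π hπ _

end Final

theorem vnDim_approx {G : Type} [Group G] [DecidableEq G] {P : ℕ → Type} [∀ j, Group (P j)]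
    [∀ j, Fintype (P j)] (π : ∀ j, G →* P j) (hπ : ∀ g : G, g ≠ 1 → ∀ᶠ j in atTop, π j g ≠ 1)
    {k n : ℕ} (A : Matrix (Fin k) (Fin n) (MonoidAlgebra ℂ G)) :
    (∀ η > (0 : ℝ), ∀ᶠ j in atTop,
      (k * Fintype.card (P j) : ℝ) - (op (A.map (MonoidAlgebra.mapDomainRingHom ℂ (π j)))).rank ≤
        (vnDim A + η) * Fintype.card (P j)) ∧
    (∀ η > (0 : ℝ), ∀ ε > (0 : ℝ), ∀ᶠ j in atTop, ∃ V : Submodule ℂ (Fin k × P j → ℂ),
      (vnDim A - η) * Fintype.card (P j) ≤ Module.finrank ℂ V ∧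
      ∀ x ∈ V, nrm (Matrix.vecMul x (op (A.map (MonoidAlgebra.mapDomainRingHom ℂ (π j))))) ≤
        ε * nrm x) := by
  classical
  constructor
  · intro η hη
    set c : ℝ := l1 (Astar A) ^ 2 + 1 with hc
    have hc0 : 0 < c := by positivity
    obtain ⟨hlim, -⟩ := tendsto_phi A hc0 (by rw [hc]; linarith)
    obtain ⟨m, hm⟩ := (hlim.eventually (eventually_le_nhds
      (show vnDim A < vnDim A + η by linarith))).exists
    filter_upwards [eventually_inj π hπ (Dop A c ^ m)] with j hj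
    have h1 := card_sub_rank_le (op (A.map (MonoidAlgebra.mapDomainRingHom ℂ (π j)))) c m
    rw [trace_level (π j) A c m hj] at h1
    rw [Fintype.card_prod, Fintype.card_fin] at h1
    push_cast at h1
    refine h1.trans ?_
    rw [mul_comm]
    gcongr
  · intro η hη ε hε
    set c : ℝ := l1 (Astar A) ^ 2 + l1 A ^ 2 + ε ^ 2 + 1 with hc
    have hc0 : 0 < c := by positivity
    have hc1 : l1 (Astar A) ^ 2 ≤ c := by rw [hc]; nlinarith [sq_nonneg (l1 A), sq_nonneg ε]
    have hc2 : l1 A ^ 2 ≤ c := by rw [hc]; nlinarith [sq_nonneg (l1 (Astar A)), sq_nonneg ε]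
    have hc3 : ε ^ 2 < c := by
      rw [hc]; nlinarith [sq_nonneg (l1 (Astar A)), sq_nonneg (l1 A)]
    obtain ⟨-, hlow⟩ := tendsto_phi A hc0 hc1
    have hq0 : 0 ≤ 1 - c⁻¹ * ε ^ 2 := by
      rw [sub_nonneg, inv_mul_le_iff₀ hc0, mul_one]; exact hc3.le
    have hq1 : 1 - c⁻¹ * ε ^ 2 < 1 := by
      have : 0 < c⁻¹ * ε ^ 2 := by positivity
      linarith
    have hpow : Tendsto (fun m : ℕ => (k : ℝ) * (1 - c⁻¹ * ε ^ 2) ^ m) atTop (𝓝 0) := by
      have := (tendsto_pow_atTop_nhds_zero_of_lt_one hq0 hq1).const_mul (k : ℝ)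
      rwa [mul_zero] at this
    obtain ⟨m, hm⟩ := (hpow.eventually (eventually_le_nhds hη)).exists
    filter_upwards [eventually_inj π hπ (Dop A c ^ m)] with j hj
    obtain ⟨V, hV1, hV2⟩ := exists_small_space
      (op (A.map (MonoidAlgebra.mapDomainRingHom ℂ (π j)))) hc0
      (nrm_op_le (π j) A hc2) hε m
    refine ⟨V, ?_, hV2⟩
    rw [trace_level (π j) A c m hj, Fintype.card_prod, Fintype.card_fin] at hV1
    push_cast at hV1
    refine le_trans ?_ hV1
    have h2 : (1 - c⁻¹ * ε ^ 2) ^ (m + m) ≤ (1 - c⁻¹ * ε ^ 2) ^ m :=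
      pow_le_pow_of_le_one hq0 hq1.le (Nat.le_add_left m m)
    have h3 := hlow m
    have h4 : (k : ℝ) * (1 - c⁻¹ * ε ^ 2) ^ (m + m) ≤ η :=
      le_trans (mul_le_mul_of_nonneg_left h2 (Nat.cast_nonneg k)) hm
    have h5 : (0 : ℝ) ≤ Fintype.card (P j) := Nat.cast_nonneg _
    calc (vnDim A - η) * Fintype.card (P j)
        ≤ (phi A c m - (k : ℝ) * (1 - c⁻¹ * ε ^ 2) ^ (m + m)) * Fintype.card (P j) :=
          mul_le_mul_of_nonneg_right (by linarith) h5
      _ = _ := by ring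

end Pool.Agent.H4.Atiyah

end VNPart
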