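import Pool.Agent.H4.Atiyah.TDefs
import Pool.Agent.H4.Atiyah.VN
import Pool.Agent.H4.Atiyah.GLTower
import Pool.Agent.H4.Atiyah.CosetRestrict
import Pool.Agent.H4.Atiyah.BaseChange
import Pool.Agent.H4.Atiyah.Sylow

/-!
# M39a : the von Neumann dimension as a limit of kernel dimensions
-/

set_option autoImplicit false

open Filter Topology
open scoped Matrix

namespace Pool.Agent.H4.Atiyah

section VnCore

theorem nrm_comp_equiv {ι κ : Type*} [Fintype ι] [Fintype κ] (e : κ ≃ ι) (x : ι → ℂ) :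
    nrm (x ∘ e) = nrm x := by
  unfold nrm
  congr 1
  exact Fintype.sum_equiv e _ _ (fun _ => rfl)

theorem vecMul_submatrix_symm {m n m' n' : Type*} [Fintype m] [Fintype n] [Fintype m'] [Fintype n']
    (M : Matrix m' n' ℂ) (e : m ≃ m') (f : n ≃ n') (x : m → ℂ) :
    Matrix.vecMul (x ∘ e.symm) M = (Matrix.vecMul x (M.submatrix e f)) ∘ f.symm := by
  ext i
  simp only [Matrix.vecMul, dotProduct, Function.comp_apply, Matrix.submatrix_apply,
    Equiv.apply_symm_apply]
  exact Fintype.sum_equiv e.symm _ _ (fun y => by simp)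

theorem smallDim_submatrix_le {m n m' n' : Type*} [Fintype m] [Fintype n] [Fintype m']
    [Fintype n'] (M : Matrix m' n' ℂ) (e : m ≃ m') (f : n ≃ n') (V : Submodule ℂ (m → ℂ)) (ε : ℝ)
    (hV : ∀ x ∈ V, nrm (Matrix.vecMul x (M.submatrix e f)) ≤ ε * nrm x) :
    Module.finrank ℂ V ≤ smallDim M ε := by
  have h1 : Module.finrank ℂ (V.map (LinearEquiv.funCongrLeft ℂ ℂ e.symm : (m → ℂ) →ₗ[ℂ] (m' → ℂ)))
      = Module.finrank ℂ V := LinearEquiv.finrank_map_eq _ _
  rw [← h1]
  apply le_smallDim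
  rintro _ ⟨x, hx, rfl⟩
  have h2 : (LinearEquiv.funCongrLeft ℂ ℂ e.symm : (m → ℂ) →ₗ[ℂ] (m' → ℂ)) x = x ∘ e.symm := rfl
  rw [h2, vecMul_submatrix_symm M e f, nrm_comp_equiv, nrm_comp_equiv]
  exact hV x hx

theorem rank_submatrix_equiv {m n m' n' : Type*} [Fintype m] [Fintype n] [Fintype m']
    [Fintype n'] (M : Matrix m' n' ℂ) (e : m ≃ m') (f : n ≃ n') :
    (M.submatrix e f).rank = M.rank := by
  classical
  exact Matrix.rank_submatrix M e f

theorem rank_le_card_left {m n : Type*} [Fintype m] [Fintype n] (M : Matrix m n ℂ) :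
    M.rank ≤ Fintype.card m := by
  classical
  rw [← Matrix.rank_transpose]
  exact Matrix.rank_le_card_width _

/-- The abstract form. -/
theorem vn_core (k : ℕ) {n : ℕ} {P U : ℕ → Type} [∀ j, Fintype (P j)] [∀ j, Fintype (U j)]
    [∀ j, Nonempty (P j)] [∀ j, Nonempty (U j)] {m' n' : Type} [Fintype m'] [Fintype n']
    (M : ∀ j, Matrix (Fin k × P j) (Fin n × P j) ℂ) (N : ∀ j, Matrix (m' × U j) (n' × U j) ℂ)
    (hMN : ∀ j, ∃ (e : Fin k × P j ≃ m' × U j) (f : Fin n × P j ≃ n' × U j),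
      M j = (N j).submatrix e f) (D : ℝ)
    (h1 : ∀ η > (0 : ℝ), ∀ᶠ j in atTop,
      (k * Fintype.card (P j) : ℝ) - (M j).rank ≤ (D + η) * Fintype.card (P j))
    (h2 : ∀ η > (0 : ℝ), ∀ ε > (0 : ℝ), ∀ᶠ j in atTop, ∃ V : Submodule ℂ (Fin k × P j → ℂ),
      (D - η) * Fintype.card (P j) ≤ Module.finrank ℂ V ∧
      ∀ x ∈ V, nrm (Matrix.vecMul x (M j)) ≤ ε * nrm x)
    (h3 : essRk N (fun j => Fintype.card (U j)) =
      omLim fun j => ((N j).rank : ℝ) / Fintype.card (U j)) :
    D = k - omLim fun j => ((M j).rank : ℝ) / Fintype.card (P j) := by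
  have hP : ∀ j, (0 : ℝ) < Fintype.card (P j) := fun j => by exact_mod_cast Fintype.card_pos
  have hU : ∀ j, (0 : ℝ) < Fintype.card (U j) := fun j => by exact_mod_cast Fintype.card_pos
  have hcard : ∀ j, (k : ℝ) * Fintype.card (P j) = Fintype.card m' * Fintype.card (U j) := by
    intro j
    obtain ⟨e, -, -⟩ := hMN j
    have := Fintype.card_congr e
    rw [Fintype.card_prod, Fintype.card_prod, Fintype.card_fin] at this
    exact_mod_cast this
  have hrank : ∀ j, (M j).rank = (N j).rank := by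
    intro j
    obtain ⟨e, f, h⟩ := hMN j
    rw [h, rank_submatrix_equiv]
  -- limits
  have hbM : ∀ j, (0 : ℝ) ≤ ((M j).rank : ℝ) / Fintype.card (P j) ∧
      ((M j).rank : ℝ) / Fintype.card (P j) ≤ k := by
    intro j
    refine ⟨by positivity, ?_⟩
    rw [div_le_iff₀ (hP j)]
    have := rank_le_card_left (M j)
    rw [Fintype.card_prod, Fintype.card_fin] at this
    exact_mod_cast this
  have htM := tendsto_omLim hbM
  set L := omLim fun j => ((M j).rank : ℝ) / Fintype.card (P j) with hL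
  -- first inequality
  have hle1 : (k : ℝ) - L ≤ D := by
    apply le_of_forall_pos_le_add
    intro η hη
    have h4 : ∀ᶠ j in (om : Filter ℕ), (k : ℝ) - D - η ≤ ((M j).rank : ℝ) / Fintype.card (P j) := by
      filter_upwards [om_of_atTop (h1 η hη)] with j hj
      rw [le_div_iff₀ (hP j)]
      linarith
    have := ge_of_tendsto htM h4
    linarith
  refine le_antisymm ?_ hle1
  rcases Nat.eq_zero_or_pos k with rfl | hk
  · -- no rows
    have hL0 : L = 0 := by
      have h4 : ∀ j, ((M j).rank : ℝ) / Fintype.card (P j) = 0 := by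
        intro j
        have h5 := (hbM j).1
        have h6 := (hbM j).2
        rw [Nat.cast_zero] at h6
        linarith
      have h7 : Tendsto (fun j => ((M j).rank : ℝ) / Fintype.card (P j)) (om : Filter ℕ) (𝓝 0) := by
        simp only [h4]
        exact tendsto_const_nhds
      exact omLim_eq h7
    rw [hL0, Nat.cast_zero, sub_zero]
    apply le_of_forall_pos_le_add
    intro η hη
    obtain ⟨j, V, hV, -⟩ := (h2 η hη 1 one_pos).exists
    have h5 : Module.finrank ℂ V = 0 := by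
      have h6 := Submodule.finrank_le V
      rw [Module.finrank_fintype_fun_eq_card, Fintype.card_prod, Fintype.card_fin, zero_mul] at h6
      omega
    rw [h5, Nat.cast_zero] at hV
    have h7 : D - η ≤ 0 := by
      by_contra hcon
      push Not at hcon
      have := mul_pos hcon (hP j)
      linarith
    linarith
  · have hk' : (0 : ℝ) < k := by exact_mod_cast hk
    have hm' : (0 : ℝ) < Fintype.card m' := by
      have h5 := hcard 0
      have h6 := mul_pos hk' (hP 0)
      rw [h5] at h6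
      exact (mul_pos_iff_of_pos_right (hU 0)).1 h6
    -- the limit for `N`
    have hrel : ∀ j, ((N j).rank : ℝ) / Fintype.card (U j) =
        (Fintype.card m' / k) * (((M j).rank : ℝ) / Fintype.card (P j)) := by
      intro j
      rw [hrank j]
      have h5 := hcard j
      have h6 := (hP j).ne'
      have h7 := (hU j).ne'
      have h8 := hk'.ne'
      rw [div_eq_iff h7]
      have h9 : (Fintype.card m' / k : ℝ) * (((N j).rank : ℝ) / Fintype.card (P j)) *
          Fintype.card (U j) = ((N j).rank : ℝ) * (Fintype.card m' * Fintype.card (U j)) /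
            (k * Fintype.card (P j)) := by
        field_simp
      rw [h9, ← h5]
      field_simp
    have hLN : (omLim fun j => ((N j).rank : ℝ) / Fintype.card (U j)) = Fintype.card m' / k * L := by
      apply omLim_eq
      simp only [hrel]
      exact htM.const_mul _
    rw [hLN] at h3
    apply le_of_forall_pos_le_add
    intro η hη
    -- choose the level of the supremum
    set η' : ℝ := η / 2 with hη'
    have hη'0 : 0 < η' := by positivity
    set ζ : ℝ := η' * (Fintype.card m' / k) with hζ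
    have hζ0 : 0 < ζ := by positivity
    have h10 : Fintype.card m' / k * L - ζ < essRk N (fun j => Fintype.card (U j)) := by
      rw [h3]; linarith
    unfold essRk at h10
    obtain ⟨κ, hκ⟩ := exists_lt_of_lt_ciSup h10
    have hbN : ∀ j, (0 : ℝ) ≤ ((Fintype.card (m' × U j) : ℝ) - smallDim (N j) (1 / (κ + 1))) /
        Fintype.card (U j) ∧ ((Fintype.card (m' × U j) : ℝ) - smallDim (N j) (1 / (κ + 1))) /
        Fintype.card (U j) ≤ Fintype.card m' := by
      intro j
      have h5 : (smallDim (N j) (1 / (κ + 1)) : ℝ) ≤ Fintype.card (m' × U j) := by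
        exact_mod_cast smallDim_le (N j) (1 / (κ + 1))
      constructor
      · apply div_nonneg _ (hU j).le
        linarith
      · rw [div_le_iff₀ (hU j), Fintype.card_prod]
        push_cast
        have : (0 : ℝ) ≤ smallDim (N j) (1 / (κ + 1)) := Nat.cast_nonneg _
        linarith
    have htN := tendsto_omLim hbN
    have hev := htN.eventually (lt_mem_nhds hκ)
    have hev2 := om_of_atTop (h2 η' hη'0 (1 / (κ + 1)) (by positivity))
    obtain ⟨j, hj1, V, hV1, hV2⟩ := (hev.and hev2).exists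
    obtain ⟨e, f, hef⟩ := hMN j
    have h11 : (Module.finrank ℂ V : ℝ) ≤ smallDim (N j) (1 / (κ + 1)) := by
      have := smallDim_submatrix_le (N j) e f V (1 / (κ + 1)) (by rw [← hef]; exact hV2)
      exact_mod_cast this
    rw [lt_div_iff₀ (hU j), Fintype.card_prod] at hj1
    push_cast at hj1
    rw [← hcard j] at hj1
    -- combine
    have h12 : (D - η') * Fintype.card (P j) <
        k * Fintype.card (P j) - (Fintype.card m' / k * L - ζ) * Fintype.card (U j) := by
      linarith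
    have h13 : (Fintype.card m' / k * L - ζ) * Fintype.card (U j) =
        (L - η') * Fintype.card (P j) := by
      have h14 : (Fintype.card m' / k * L - ζ) * Fintype.card (U j) =
          (L - η') * (Fintype.card m' * Fintype.card (U j)) / k := by
        rw [hζ]; field_simp
      rw [h14, ← hcard j]
      field_simp
    rw [h13] at h12
    have h15 : (D - η') * Fintype.card (P j) < (k - (L - η')) * Fintype.card (P j) := by linarith
    have h16 := lt_of_mul_lt_mul_right h15 (hP j).le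
    linarith

end VnCore

/-! ### M39a -/

/-- the embedding `GL_m(ℤ) → GL_m(ℤ_p)` -/
noncomputable def toGLp (p m : ℕ) [Fact p.Prime] :
    Matrix.GeneralLinearGroup (Fin m) ℤ →* (glFilt p m).G :=
  Matrix.GeneralLinearGroup.map (Int.castRingHom ℤ_[p])

theorem rank_data (p : ℕ) [Fact p.Prime] (𝒯 : Sys) {d : ℕ} (x : Fin d → 𝒯.G)
    (h : IsTower p 𝒯 d x) {m n : Type} [Fintype m] [Fintype n]
    (C : Matrix m n (MonoidAlgebra ℂ 𝒯.G)) :
    essRk (fun j => op (C.map (MonoidAlgebra.mapDomainRingHom ℂ (𝒯.π j))))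
        (fun j => Fintype.card (𝒯.Q j)) =
      omLim fun j => ((op (C.map (MonoidAlgebra.mapDomainRingHom ℂ (𝒯.π j)))).rank : ℝ) /
        Fintype.card (𝒯.Q j) := by
  have h1 := base_change p 𝒯 x h C
  have h2 : (essRank 𝒯.Q).rk (C.map (grpEss 𝒯)) =
      essRk (fun j => op (C.map (MonoidAlgebra.mapDomainRingHom ℂ (𝒯.π j))))
        (fun j => Fintype.card (𝒯.Q j)) := by
    have h3 := essRank_map 𝒯.Q (C.map (grpBdd 𝒯))
    have h4 : (C.map (grpBdd 𝒯)).map (UEss.mk 𝒯.Q) = C.map (grpEss 𝒯) := rfl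
    rw [h4] at h3
    rw [h3]
    congr 1
    funext j
    rw [← flat_grpSeq]
    rfl
  have h5 : (algRank ℂ 𝒯.Q).rk (C.map (grpAlg ℂ 𝒯)) =
      omLim fun j => ((op (C.map (MonoidAlgebra.mapDomainRingHom ℂ (𝒯.π j)))).rank : ℝ) /
        Fintype.card (𝒯.Q j) := by
    have h3 := algRank_map ℂ 𝒯.Q (C.map (grpSeq ℂ 𝒯))
    have h4 : (C.map (grpSeq ℂ 𝒯)).map (UAlg.mk ℂ 𝒯.Q) = C.map (grpAlg ℂ 𝒯) := rfl
    rw [h4] at h3
    rw [h3]
    congr 1
    funext j
    rw [flat_grpSeq]
  rw [← h2, h1, h5]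

theorem vn_core_sys (p : ℕ) [Fact p.Prime] (𝒯 : Sys) {d : ℕ} (x : Fin d → 𝒯.G)
    (h : IsTower p 𝒯 d x) {m' n' : Type} [Fintype m'] [Fintype n']
    (C : Matrix m' n' (MonoidAlgebra ℂ 𝒯.G)) (k : ℕ) {n : ℕ} {P : ℕ → Type}
    [∀ j, Fintype (P j)] [∀ j, Nonempty (P j)]
    (M : ∀ j, Matrix (Fin k × P j) (Fin n × P j) ℂ)
    (hMN : ∀ j, ∃ (e : Fin k × P j ≃ m' × 𝒯.Q j) (f : Fin n × P j ≃ n' × 𝒯.Q j),
      M j = (op (C.map (MonoidAlgebra.mapDomainRingHom ℂ (𝒯.π j)))).submatrix e f) (D : ℝ)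
    (h1 : ∀ η > (0 : ℝ), ∀ᶠ j in atTop,
      (k * Fintype.card (P j) : ℝ) - (M j).rank ≤ (D + η) * Fintype.card (P j))
    (h2 : ∀ η > (0 : ℝ), ∀ ε > (0 : ℝ), ∀ᶠ j in atTop, ∃ V : Submodule ℂ (Fin k × P j → ℂ),
      (D - η) * Fintype.card (P j) ≤ Module.finrank ℂ V ∧
      ∀ x ∈ V, nrm (Matrix.vecMul x (M j)) ≤ ε * nrm x) :
    D = k - omLim fun j => ((M j).rank : ℝ) / Fintype.card (P j) :=
  vn_core k M (fun j => op (C.map (MonoidAlgebra.mapDomainRingHom ℂ (𝒯.π j)))) hMN D h1 h2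
    (rank_data p 𝒯 x h C)

/-- M39a -/
theorem vnDim_eq (p m : ℕ) [Fact p.Prime] [DecidableEq (Matrix.GeneralLinearGroup (Fin m) ℤ)]
    {k n : ℕ} (A : Matrix (Fin k) (Fin n) (MonoidAlgebra ℂ (Matrix.GeneralLinearGroup (Fin m) ℤ))) :
    vnDim A = k - nrank (glFilt p m) (fun j =>
      (A.map (MonoidAlgebra.mapDomainRingHom ℂ (toGLp p m))).map
        (MonoidAlgebra.mapDomainRingHom ℂ (SQ.mk (glFilt p m) j))) := by
  classical
  set ℱ := glFilt p m with hℱ
  set A₀ : Matrix (Fin k) (Fin n) (MonoidAlgebra ℂ ℱ.G) :=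
    A.map (MonoidAlgebra.mapDomainRingHom ℂ (toGLp p m)) with hA₀
  obtain ⟨B, hB⟩ := coset_restrict ℂ ℱ ⊤ (fun j => le_top) A₀
  obtain ⟨C, hC⟩ := coset_restrict ℂ (ℱ.restrict ⊤) ((ℱ.restrict ⊤).N 0)
    (fun j => (ℱ.restrict ⊤).antitone (Nat.zero_le j)) B
  obtain ⟨d, x, hx⟩ := gl_isTower p m ⊤ le_top
  have i1 : Fintype (ℱ.G ⧸ (⊤ : Subgroup ℱ.G)) := Fintype.ofFinite _
  have i2 : Fintype ((ℱ.restrict ⊤).G ⧸ (ℱ.restrict ⊤).N 0) := Fintype.ofFinite _
  have happ := vnDim_approx (P := fun j => SQ ℱ j) (fun j => (SQ.mk ℱ j).comp (toGLp p m))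
    (fun g hg => gl_separates p m g hg) A
  have hAj : ∀ j, A.map (MonoidAlgebra.mapDomainRingHom ℂ ((SQ.mk ℱ j).comp (toGLp p m))) =
      A₀.map (MonoidAlgebra.mapDomainRingHom ℂ (SQ.mk ℱ j)) := by
    intro j
    rw [hA₀, Matrix.map_map, MonoidAlgebra.mapDomainRingHom_comp]
    rfl
  simp only [hAj] at happ
  unfold nrank
  refine vn_core_sys p ((ℱ.restrict ⊤).restrict ((ℱ.restrict ⊤).N 0)).sys x hx C k
    (P := fun j => SQ ℱ j)
    (fun j => op (A₀.map (MonoidAlgebra.mapDomainRingHom ℂ (SQ.mk ℱ j)))) ?_ (vnDim A)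
      happ.1 happ.2
  intro j
  obtain ⟨e1, f1, h1⟩ := hB j
  obtain ⟨e2, f2, h2⟩ := hC j
  refine ⟨e1.trans e2, f1.trans f2, ?_⟩
  refine h1.trans ?_
  rw [h2]
  rfl

end Pool.Agent.H4.Atiyah
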