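import Pool.Agent.H4.Atiyah.VnDimEq
import Pool.Agent.H4.Atiyah.ComplexInt

/-!
# M39b : integrality of the von Neumann dimension at the prime `p`
-/

set_option autoImplicit false

open Filter Topology
open scoped Matrix

namespace Pool.Agent.H4.Atiyah

/-- comparison of normalized ranks -/
theorem omLim_rank_ratio {k n : ℕ} (hk : 0 < k) {P U : ℕ → Type} [∀ j, Fintype (P j)]
    [∀ j, Fintype (U j)] [∀ j, Nonempty (P j)] [∀ j, Nonempty (U j)] {I : Type} [Fintype I]
    (M : ∀ j, Matrix (Fin k × P j) (Fin n × P j) ℂ)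
    (N : ∀ j, Matrix ((Fin k × I) × U j) ((Fin n × I) × U j) ℂ)
    (hMN : ∀ j, ∃ (e : Fin k × P j ≃ (Fin k × I) × U j) (f : Fin n × P j ≃ (Fin n × I) × U j),
      M j = (N j).submatrix e f) :
    (omLim fun j => ((N j).rank : ℝ) / Fintype.card (U j)) =
      (omLim fun j => ((M j).rank : ℝ) / Fintype.card (P j)) * Fintype.card I := by
  have hP : ∀ j, (0 : ℝ) < Fintype.card (P j) := fun j => by exact_mod_cast Fintype.card_pos
  have hU : ∀ j, (0 : ℝ) < Fintype.card (U j) := fun j => by exact_mod_cast Fintype.card_pos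
  have hk' : (k : ℝ) ≠ 0 := by exact_mod_cast hk.ne'
  have hcard : ∀ j, (Fintype.card (P j) : ℝ) = Fintype.card I * Fintype.card (U j) := by
    intro j
    obtain ⟨e, -, -⟩ := hMN j
    have h1 := Fintype.card_congr e
    rw [Fintype.card_prod, Fintype.card_prod, Fintype.card_prod, Fintype.card_fin] at h1
    have h2 : (k : ℝ) * Fintype.card (P j) = k * (Fintype.card I * Fintype.card (U j)) := by
      have : ((k * Fintype.card (P j) : ℕ) : ℝ) = ((k * Fintype.card I * Fintype.card (U j) : ℕ) : ℝ) := by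
        rw [h1]
      push_cast at this
      linarith
    exact mul_left_cancel₀ hk' h2
  have hrank : ∀ j, (M j).rank = (N j).rank := by
    intro j
    obtain ⟨e, f, h⟩ := hMN j
    rw [h, rank_submatrix_equiv]
  have hbM : ∀ j, (0 : ℝ) ≤ ((M j).rank : ℝ) / Fintype.card (P j) ∧
      ((M j).rank : ℝ) / Fintype.card (P j) ≤ k := by
    intro j
    refine ⟨by positivity, ?_⟩
    rw [div_le_iff₀ (hP j)]
    have := rank_le_card_left (M j)
    rw [Fintype.card_prod, Fintype.card_fin] at this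
    exact_mod_cast this
  have htM := tendsto_omLim hbM
  apply omLim_eq
  have hI : (Fintype.card I : ℝ) ≠ 0 := by
    intro h0
    have := hcard 0
    rw [h0, zero_mul] at this
    exact (hP 0).ne' this
  have hrel : ∀ j, ((N j).rank : ℝ) / Fintype.card (U j) =
      ((M j).rank : ℝ) / Fintype.card (P j) * Fintype.card I := by
    intro j
    rw [hrank j, hcard j]
    have h7 := (hU j).ne'
    field_simp
  simp only [hrel]
  exact htM.mul_const _

/-- M39b -/
theorem vnDim_integrality (p m : ℕ) [Fact p.Prime] [DecidableEq (Matrix.GeneralLinearGroup (Fin m) ℤ)]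
    {k n : ℕ} (A : Matrix (Fin k) (Fin n) (MonoidAlgebra ℂ (Matrix.GeneralLinearGroup (Fin m) ℤ))) :
    ∃ (c : ℕ) (z : ℤ), ¬ p ∣ c ∧
      vnDim A * (p ^ (m / (p - 1)) * (m / (p - 1)).factorial : ℕ) * c = z := by
  classical
  rcases Nat.eq_zero_or_pos k with rfl | hk
  · refine ⟨1, 0, (Fact.out : p.Prime).one_lt.ne' ∘ Nat.dvd_one.1, ?_⟩
    simp [vnDim]
  obtain ⟨S, hS0, hSp, hSf, hSP⟩ := exists_sylow_filt p m
  set ℱ := glFilt p m with hℱ
  set A₀ : Matrix (Fin k) (Fin n) (MonoidAlgebra ℂ ℱ.G) :=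
    A.map (MonoidAlgebra.mapDomainRingHom ℂ (toGLp p m)) with hA₀
  obtain ⟨B, hB⟩ := coset_restrict ℂ ℱ S
    (fun j => (ℱ.antitone (Nat.zero_le j)).trans hS0) A₀
  obtain ⟨d, x, hx⟩ := gl_isTower p m S hS0
  have i1 : Fintype (ℱ.G ⧸ S) := Fintype.ofFinite _
  obtain ⟨z, hz⟩ := complex_integrality p m (ℱ.restrict S) x hx hSP S.subtype
    (fun j g => Subgroup.mem_subgroupOf) B
  refine ⟨S.index, k * (p ^ (m / (p - 1)) * (m / (p - 1)).factorial : ℕ) * S.index - z, hSp, ?_⟩
  have h1 := vnDim_eq p m A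
  have h2 : nrank (ℱ.restrict S) (fun j => B.map (MonoidAlgebra.mapDomainRingHom ℂ
      (SQ.mk (ℱ.restrict S) j))) = nrank ℱ (fun j =>
      A₀.map (MonoidAlgebra.mapDomainRingHom ℂ (SQ.mk ℱ j))) * S.index := by
    unfold nrank
    have h3 := omLim_rank_ratio hk (P := fun j => SQ ℱ j) (U := fun j => SQ (ℱ.restrict S) j)
      (I := ℱ.G ⧸ S)
      (fun j => op (A₀.map (MonoidAlgebra.mapDomainRingHom ℂ (SQ.mk ℱ j))))
      (fun j => op (B.map (MonoidAlgebra.mapDomainRingHom ℂ (SQ.mk (ℱ.restrict S) j))))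
      (fun j => hB j)
    rw [h3]
    congr 1
    rw [Subgroup.index_eq_card, Nat.card_eq_fintype_card]
  rw [h2] at hz
  rw [h1]
  push_cast at hz ⊢
  rw [← hz]
  ring

end Pool.Agent.H4.Atiyah
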